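import Pool.Agent.Lib.LUC.Asc10
import Pool.Agent.Lib.LU2G.LogFinal
import Pool.Agent.Lib.LU2G.RealTo

/-!
# Log uniformization of the valuation rings with a dense subfield all of whose components have
defect at most one
-/

set_option autoImplicit false

namespace Pool.Agent.LUC

open Pool.Agent.LU2G (LogUniformizable ComponentDefectsLEOne)

universe u

section Compare

variable {k K : Type u} [Field k] [Field K] [Algebra k K] {V : ValuationSubring K}

private theorem locV_eq (S : Subalgebra k K) : Pool.Agent.LU2.locV V S = Pool.Agent.LUM.locV V S :=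
  rfl

private theorem isPar_iff (R : Subalgebra k K) {n : ℕ} (z : Fin n → K) :
    Pool.Agent.LU2.IsPar V R z ↔ Pool.Agent.LUM.IsPar V R z :=
  ⟨fun h => ⟨h.mem, h.ne, h.pos, h.gen, h.dim⟩, fun h => ⟨h.mem, h.ne, h.pos, h.gen, h.dim⟩⟩

theorem lu_iff : Pool.Agent.LU2.LU k V ↔ Pool.Agent.LUM.LU k V := by
  constructor
  · intro h A hfg hA hfrac T hT
    obtain ⟨A', g, hch, n, z, hz, hg, ht⟩ := h A hfg hA hfrac T hT
    exact ⟨A', g, hch, n, z, (isPar_iff _ _).1 hz, hg, ht⟩
  · intro h A hfg hA hfrac T hT
    obtain ⟨A', g, hch, n, z, hz, hg, ht⟩ := h A hfg hA hfrac T hT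
    exact ⟨A', g, hch, n, z, (isPar_iff _ _).2 hz, hg, ht⟩

end Compare

/-- A finitely generated field extension. -/
theorem fgField_of_fg {k F : Type u} [Field k] [Field F] [Algebra k F]
    (h : (⊤ : IntermediateField k F).FG) : FGField k F := by
  obtain ⟨S, hS⟩ := h
  refine ⟨S, fun f => ?_⟩
  have hf : f ∈ IntermediateField.adjoin k (S : Set F) := by
    rw [hS]
    exact IntermediateField.mem_top
  rw [IntermediateField.mem_adjoin_iff_div] at hf
  obtain ⟨r, hr, s, hs, rfl⟩ := hf
  by_cases hs0 : s = 0
  · exact ⟨0, Subalgebra.zero_mem _, 1, Subalgebra.one_mem _, one_ne_zero, by simp [hs0]⟩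
  · exact ⟨r, hr, s, hs, hs0, rfl⟩

/-- Log uniformization of the valuation rings with a dense subfield all of whose components have
defect at most one. -/
theorem logUniformizable_dense (k : Type) [Field k] (hreal : Pool.Agent.LU2.RealCase k) (A : Type)
    [CommRing A] [IsDomain A] [Algebra k A] [Algebra.EssFiniteType k A]
    (V : ValuationSubring (FractionRing A)) (hV : ∀ a : A, algebraMap A (FractionRing A) a ∈ V)
    (F : IntermediateField k (FractionRing A)) (hF : F.FG)
    (hdense : ∀ a b : FractionRing A, b ≠ 0 → ∃ c ∈ F, V.valuation (a - c) < V.valuation b)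
    (s : Finset (FractionRing A)) (hs : AlgebraicIndependent F (Subtype.val : s → FractionRing A))
    (hsep : Algebra.IsSeparable (IntermediateField.adjoin F (s : Set (FractionRing A)))
      (FractionRing A))
    (hdef : ComponentDefectsLEOne (algebraMap k F) (V.comap (algebraMap F (FractionRing A)))) :
    LogUniformizable V := by
  have h1 : Algebra.EssFiniteType A (FractionRing A) :=
    Algebra.EssFiniteType.of_isLocalization _ (nonZeroDivisors A)
  have h2 : Algebra.EssFiniteType k (FractionRing A) :=
    Algebra.EssFiniteType.comp k A (FractionRing A)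
  have hFtop : (⊤ : IntermediateField k F).FG := by
    rw [← IntermediateField.essFiniteType_iff] at hF
    rw [IntermediateField.fg_top_iff]
    exact hF
  have hKtop : (⊤ : IntermediateField k (FractionRing A)).FG :=
    IntermediateField.fg_top_iff.2 h2
  have h3 : Algebra.EssFiniteType k F := IntermediateField.fg_top_iff.1 hFtop
  have hfin : Algebra.trdeg k F < Cardinal.aleph0 := trdeg_lt_aleph0 k F
  have hkV : ∀ c : k, algebraMap k (FractionRing A) c ∈ V := by
    intro c
    rw [IsScalarTower.algebraMap_apply k A (FractionRing A)]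
    exact hV _
  have hLU : Pool.Agent.LU2.LU k (V.comap (algebraMap F (FractionRing A))) := by
    refine Pool.Agent.LU2G.lu_comp hreal F hfin _ (fun c => ?_)
      (Pool.Agent.LU2G.allComp_of hfin hdef)
    rw [ValuationSubring.mem_comap]
    exact hkV c
  refine Pool.Agent.LU2G.logUniformizable_of_LU_ess k A V hV (lu_iff.2 ?_)
  refine ascent (ascends_lu k) V (fun a b hb => ?_) (fgField_of_fg hFtop)
    (fgField_of_fg hKtop) s hs hsep (lu_iff.1 hLU)
  obtain ⟨c, hc, hc'⟩ := hdense a b hb
  exact ⟨⟨c, hc⟩, hc'⟩

end Pool.Agent.LUC
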