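import Pool.Agent.Lib.LUC.Defs

/-!
# LUC: parameters, monomials, models, log uniformizable fields, the base rings
-/

set_option autoImplicit false

namespace Pool.Agent.LUC

open Pool.Agent.H15JM (RVal)
open Pool.Agent.LU1 (VPos)

universe u

variable {Ω : Type u} [Field Ω]

/-- The nonzero elements `z i` of positive value generate the ideal of the elements of positive
value of `R`. -/
structure Par (w : RVal Ω) (R : Subring Ω) {n : ℕ} (z : Fin n → Ω) : Prop where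
  mem : ∀ i, z i ∈ R
  ne : ∀ i, z i ≠ 0
  pos : ∀ i, 0 < w (z i)
  gen : ∀ f ∈ R, VPos w f → IP R z 1 f

/-- `t` is a Laurent monomial in the `z i`, `i ∈ J`, times a unit of `R`; all the exponents
have the sign of the value of `t`. -/
def SM (w : RVal Ω) (R : Subring Ω) {n : ℕ} (z : Fin n → Ω) (J : Finset (Fin n)) (t : Ω) : Prop :=
  ∃ e : Fin n → ℤ, ∃ u ∈ R, u ≠ 0 ∧ w u = 0 ∧ t = (∏ i, z i ^ e i) * u ∧
    (∀ i, i ∉ J → e i = 0) ∧ (0 < w t → ∀ i ∈ J, 0 < e i) ∧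
    (w t < 0 → ∀ i ∈ J, e i < 0) ∧ (w t = 0 → ∀ i, e i = 0)

/-- `L` is the field of fractions of `B`. -/
def QuoIs (B : Subring Ω) (L : Subfield Ω) : Prop :=
  (∀ f ∈ B, f ∈ L) ∧ ∀ f ∈ L, ∃ a ∈ B, ∃ b ∈ B, b ≠ 0 ∧ f = a / b

/-- `O` has ring homomorphisms onto all the truncations of a noetherian local ring of
dimension `n`. -/
def Tau (O : Subring Ω) (n : ℕ) : Prop :=
  ∃ (O₀ : Type u) (_ : CommRing O₀) (_ : IsNoetherianRing O₀) (_ : IsLocalRing O₀),
    ringKrullDim O₀ = n ∧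
      ∀ M : ℕ, ∃ τ : O →+* O₀ ⧸ IsLocalRing.maximalIdeal O₀ ^ M, Function.Surjective τ

/-- `O` is the local ring, with parameters `z`, of a chart of a blowing up of `Spec R[A]`, for which
the blown up element and the elements of `T` are monomials. -/
structure IsMod (w : RVal Ω) (R : Subring Ω) (A T : Set Ω) {n : ℕ} (z : Fin n → Ω)
    (J : Finset (Fin n)) (O : Subring Ω) : Prop where
  par : Par w O z
  chart : ∃ g ∈ adj R A, g ≠ 0 ∧ SM w O z J g ∧ ∃ G : Finset Ω,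
    (∀ x ∈ G, x ∈ adj R A ∧ w.Ge (w g) x) ∧
      O = lv w (adj R (A ∪ (fun x => x / g) '' (G : Set Ω)))
  mono : ∀ t ∈ T, SM w O z J t

/-- The field `L` is log uniformizable over the ring `R`. -/
def LUs (w : RVal Ω) (R : Subring Ω) (L : Subfield Ω) : Prop :=
  ∀ A : Finset Ω, (∀ a ∈ A, w.Ge 0 a) → QuoIs (adj R (A : Set Ω)) L →
    ∀ T : Finset Ω, (∀ t ∈ T, t ∈ L ∧ t ≠ 0) →
      ∃ (n : ℕ) (z : Fin n → Ω) (J : Finset (Fin n)) (O : Subring Ω),
        IsMod w R (A : Set Ω) (T : Set Ω) z J O ∧ ringKrullDim O = n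

/-- As `LUs`, with surjections onto the truncations of a local ring of dimension `n` in place
of the dimension. -/
def LUT (w : RVal Ω) (R : Subring Ω) (L : Subfield Ω) : Prop :=
  ∀ A : Finset Ω, (∀ a ∈ A, w.Ge 0 a) → QuoIs (adj R (A : Set Ω)) L →
    ∀ T : Finset Ω, (∀ t ∈ T, t ∈ L ∧ t ≠ 0) →
      ∃ (n : ℕ) (z : Fin n → Ω) (J : Finset (Fin n)) (O : Subring Ω),
        IsMod w R (A : Set Ω) (T : Set Ω) z J O ∧ Tau O n

/-- The base rings: `S = R₀ + (x) S`, and powers of `(x) S` meet `R₀[x]` in powers of `(x)`. -/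
structure Base (w : RVal Ω) (R₀ S : Subring Ω) {m : ℕ} (x : Fin m → Ω) : Prop where
  le : R₀ ≤ S
  noeth₀ : IsNoetherianRing R₀
  noeth : IsNoetherianRing S
  ge : ∀ s ∈ S, w.Ge 0 s
  mem : ∀ i, x i ∈ S
  ne : ∀ i, x i ≠ 0
  pos : ∀ i, 0 < w (x i)
  dec : ∀ s ∈ S, ∃ r ∈ R₀, IP S x 1 (s - r)
  cap : ∀ (M : ℕ) (f : Ω), f ∈ adj R₀ (Set.range x) → IP S x M f →
    IP (adj R₀ (Set.range x)) x M f

/-- The closure of `F` for the valuation `w`. -/
def Cl (w : RVal Ω) (F : Subfield Ω) : Set Ω := {a | ∀ b : ℝ, ∃ a₀ ∈ F, w.Ge b (a - a₀)}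

end Pool.Agent.LUC
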