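import Pool.Agent.Lib.LUC.SDefs

/-! # E5: the transcendence degree of `K₀` over the coefficient field

Recipe (3.3 of l15_cp_h16.md). `R₀ = (algebraMap k Ω).range`. Every `b ∈ B` is algebraic over `adj R₀ (range x ∪ range t)` (`alg`), so every element of
`K₀` (`quo₀`) is algebraic over the subfield generated by `k`, `x i`, `t j`. `Algebra.trdeg k L` of the intermediate field
`L = adjoin k (range x ∪ range t)` is at most `m + e` (`Algebra.trdeg_le_cardinalMk` or
`Algebra.IsAlgebraic.trdeg_le_cardinalMk`, search: a set over which the field is algebraic contains a transcendence basis: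
`exists_isTranscendenceBasis_subset` or similar), and `Algebra.trdeg k K₀ = Algebra.trdeg k L`. Directly: `K₀` is algebraic over the subalgebra
`Algebra.adjoin k (range x ∪ range t)` of `K₀`. `fg`: `K₀` is generated by `B` as a field over `k`. -/

set_option autoImplicit false

namespace Pool.Agent.LUC

open Pool.Agent.H15JM (RVal)
open Pool.Agent.LU1 (VPos)
open Polynomial

universe u

variable {Ω : Type u} [Field Ω] {w : RVal Ω} {S : Subring Ω} {m e q : ℕ} {x : Fin m → Ω}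
  {t : Fin e → Ω} {K₀ K' : Subfield Ω} {B : Finset Ω} {α : Fin q → Ω} {u : Ω} {H : Polynomial Ω}
  {k : Type u} [Field k] [Algebra k Ω]

/-- The map `k → K₀ → Ω`. -/
private theorem coe_algebraMap [Algebra k K₀] [IsScalarTower k K₀ Ω] (c : k) :
    ((algebraMap k K₀ c : K₀) : Ω) = algebraMap k Ω c := by
  rw [IsScalarTower.algebraMap_apply k K₀ Ω]
  rfl

/-- The elements of `adj R₀ F`, `F` in `K₀`, come from the subalgebra generated by `F`. -/
private theorem exists_of_mem_adj [Algebra k K₀] [IsScalarTower k K₀ Ω] {F : Set Ω}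
    (hF : ∀ f ∈ F, f ∈ K₀) {f : Ω} (hf : f ∈ adj (algebraMap k Ω).range F) :
    ∃ g ∈ Algebra.adjoin k {z : K₀ | (z : Ω) ∈ F}, (g : Ω) = f := by
  refine adj_induction (p := fun f => ∃ g ∈ Algebra.adjoin k {z : K₀ | (z : Ω) ∈ F}, (g : Ω) = f)
    ?_ ?_ ?_ ?_ hf
  · rintro f ⟨c, rfl⟩
    exact ⟨algebraMap k K₀ c, Subalgebra.algebraMap_mem _ c, coe_algebraMap c⟩
  · intro f hf
    exact ⟨⟨f, hF f hf⟩, Algebra.subset_adjoin hf, rfl⟩
  · rintro _ _ ⟨g, hg, rfl⟩ ⟨g', hg', rfl⟩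
    exact ⟨g + g', add_mem hg hg', rfl⟩
  · rintro _ _ ⟨g, hg, rfl⟩ ⟨g', hg', rfl⟩
    exact ⟨g * g', mul_mem hg hg', rfl⟩

theorem Setup.trdeg_le (h : Setup w (algebraMap k Ω).range S x t K₀ K' B α u H) [Algebra k K₀]
    [IsScalarTower k K₀ Ω] : Algebra.trdeg k K₀ ≤ ((m + e : ℕ) : Cardinal) := by
  classical
  have hBK : ∀ b ∈ B, b ∈ K₀ := fun b hb => h.quo₀.1 b (mem_adj hb)
  have hFK : ∀ f ∈ Set.range x ∪ Set.range t, f ∈ K₀ := by
    rintro f (⟨i, rfl⟩ | ⟨j, rfl⟩)
    · exact hBK _ (h.x_mem i)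
    · exact hBK _ (h.t_mem j)
  set s : Set K₀ := {z : K₀ | (z : Ω) ∈ Set.range x ∪ Set.range t} with hs
  -- the elements of `B` are algebraic
  have hb : ∀ b (hb : b ∈ B), IsAlgebraic (Algebra.adjoin k s) (⟨b, hBK b hb⟩ : K₀) := by
    intro b hb
    obtain ⟨Q, hQ0, hQ, hQb⟩ := h.alg b hb
    have hl : Q ∈ Polynomial.lifts
        ((algebraMap K₀ Ω).comp (algebraMap (Algebra.adjoin k s) K₀)) := by
      rw [Polynomial.lifts_iff_coeff_lifts]
      intro n
      obtain ⟨g, hg, hgQ⟩ := exists_of_mem_adj (k := k) hFK (hQ n)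
      exact ⟨⟨g, hg⟩, hgQ⟩
    rw [Polynomial.mem_lifts] at hl
    obtain ⟨P, hP⟩ := hl
    refine ⟨P, ?_, ?_⟩
    · rintro rfl
      exact hQ0 (by rw [← hP, Polynomial.map_zero])
    · have h1 : (algebraMap K₀ Ω) (Polynomial.aeval (⟨b, hBK b hb⟩ : K₀) P) = 0 := by
        rw [Polynomial.aeval_def, Polynomial.hom_eval₂]
        rw [← hP, Polynomial.eval_map] at hQb
        exact hQb
      exact (map_eq_zero (algebraMap K₀ Ω)).1 h1
  -- the elements of `R₀[B]` are algebraic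
  have hadj : ∀ f ∈ adj (algebraMap k Ω).range (B : Set Ω), ∃ g : K₀,
      IsAlgebraic (Algebra.adjoin k s) g ∧ (g : Ω) = f := by
    intro f hf
    refine adj_induction (p := fun f => ∃ g : K₀,
      IsAlgebraic (Algebra.adjoin k s) g ∧ (g : Ω) = f) ?_ ?_ ?_ ?_ hf
    · rintro f ⟨c, rfl⟩
      refine ⟨algebraMap k K₀ c, ?_, coe_algebraMap c⟩
      have := isAlgebraic_algebraMap (A := K₀) (algebraMap k (Algebra.adjoin k s) c)
      rwa [← IsScalarTower.algebraMap_apply] at this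
    · intro f hf
      exact ⟨⟨f, hBK f hf⟩, hb f hf, rfl⟩
    · rintro _ _ ⟨g, hg, rfl⟩ ⟨g', hg', rfl⟩
      exact ⟨g + g', hg.add hg', rfl⟩
    · rintro _ _ ⟨g, hg, rfl⟩ ⟨g', hg', rfl⟩
      exact ⟨g * g', hg.mul hg', rfl⟩
  have halg : Algebra.IsAlgebraic (Algebra.adjoin k s) K₀ := by
    constructor
    rintro ⟨f, hf⟩
    obtain ⟨a, ha, b, hb, hb0, hab⟩ := h.quo₀.2 f hf
    obtain ⟨a', ha', rfl⟩ := hadj a ha
    obtain ⟨b', hb', rfl⟩ := hadj b hb
    have h1 : (⟨f, hf⟩ : K₀) = a' * b'⁻¹ := by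
      apply Subtype.ext
      simp [hab, div_eq_mul_inv]
    rw [h1]
    exact ha'.mul hb'.inv
  refine (Algebra.IsAlgebraic.trdeg_le_cardinalMk k s).trans ?_
  have hfin : (Set.range x ∪ Set.range t).Finite := (Set.finite_range x).union (Set.finite_range t)
  have h2 : Cardinal.mk s ≤ Cardinal.mk (Set.range x ∪ Set.range t : Set Ω) := by
    refine Cardinal.mk_le_of_injective (f := fun z : s => (⟨((z : K₀) : Ω), z.2⟩ :
      (Set.range x ∪ Set.range t : Set Ω))) ?_
    intro a b hab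
    have : ((a : K₀) : Ω) = ((b : K₀) : Ω) := by simpa using hab
    exact Subtype.ext (Subtype.ext this)
  refine h2.trans ((Cardinal.mk_union_le _ _).trans ?_)
  have h3 : Cardinal.mk (Set.range x) ≤ (m : Cardinal) := by
    have := Cardinal.mk_range_le_lift (f := x)
    simpa using this
  have h4 : Cardinal.mk (Set.range t) ≤ (e : Cardinal) := by
    have := Cardinal.mk_range_le_lift (f := t)
    simpa using this
  rw [Nat.cast_add]
  exact add_le_add h3 h4

theorem Setup.fg (h : Setup w (algebraMap k Ω).range S x t K₀ K' B α u H) [Algebra k K₀]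
    [IsScalarTower k K₀ Ω] : (⊤ : IntermediateField k K₀).FG := by
  classical
  have hBK : ∀ b ∈ B, b ∈ K₀ := fun b hb => h.quo₀.1 b (mem_adj hb)
  have hinj : Function.Injective fun z : K₀ => (z : Ω) := Subtype.val_injective
  refine ⟨B.preimage (fun z : K₀ => (z : Ω)) (hinj.injOn), ?_⟩
  rw [eq_top_iff]
  rintro ⟨f, hf⟩ -
  obtain ⟨a, ha, b, hb, hb0, hab⟩ := h.quo₀.2 f hf
  have key : ∀ f ∈ adj (algebraMap k Ω).range (B : Set Ω), ∃ g ∈ IntermediateField.adjoin k
      ((B.preimage (fun z : K₀ => (z : Ω)) (hinj.injOn) : Finset K₀) : Set K₀),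
      (g : Ω) = f := by
    intro f hf
    obtain ⟨g, hg, hgf⟩ := exists_of_mem_adj (k := k) (F := (B : Set Ω)) hBK hf
    refine ⟨g, ?_, hgf⟩
    refine IntermediateField.algebra_adjoin_le_adjoin k _ ?_
    convert hg using 3
    ext z
    simp
  obtain ⟨a', ha', rfl⟩ := key a ha
  obtain ⟨b', hb', rfl⟩ := key b hb
  have h1 : (⟨f, hf⟩ : K₀) = a' / b' := by
    apply Subtype.ext
    simp [hab]
  rw [h1]
  exact div_mem ha' hb'

end Pool.Agent.LUC
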