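import Pool.Agent.Lib.LUM.LDefs

/-!
# LUC: log uniformization of a real valuation over a base ring with control of the supports

As in `LU2G/Real.lean`, with a base ring in place of the base field.
-/

set_option autoImplicit false

namespace Pool.Agent.LUC

open Pool.Agent.LUM (locV IsChart IsPar Mono LUat IsFrac LU)

universe u

section Defs

variable {k K : Type u} [CommRing k] [Field K] [Algebra k K]

/-- `t` is a Laurent monomial in the parameters `z i`, `i ∈ J`, times a unit; all the exponents
have the sign of the value of `t`. -/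
def SMonoV (V : ValuationSubring K) (R : Subalgebra k K) {n : ℕ} (z : Fin n → K)
    (J : Finset (Fin n)) (t : K) : Prop :=
  ∃ e : Fin n → ℤ, ∃ w ∈ R, V.valuation w = 1 ∧ t = (∏ i, z i ^ e i) * w ∧
    (∀ i, i ∉ J → e i = 0) ∧ (V.valuation t < 1 → ∀ i ∈ J, 0 < e i) ∧
    (1 < V.valuation t → ∀ i ∈ J, e i < 0) ∧ (V.valuation t = 1 → ∀ i, e i = 0)

/-- Log uniformization of a real valuation, with control of the supports. -/
def LUrAtV (V : ValuationSubring K) (A : Subalgebra k K) (T : Finset K) : Prop :=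
  ∃ (A' : Subalgebra k K) (g : K), IsChart V A A' g ∧ ∃ (n : ℕ) (z : Fin n → K)
    (J : Finset (Fin n)), IsPar V (locV V A') z ∧ SMonoV V (locV V A') z J g ∧
    ∀ t ∈ T, SMonoV V (locV V A') z J t

variable (k) in
/-- `V` is log uniformizable, with control of the supports. -/
def LUrV (V : ValuationSubring K) : Prop :=
  ∀ A : Subalgebra k K, A.FG → (∀ a ∈ A, a ∈ V) → IsFrac A →
    ∀ T : Finset K, (∀ t ∈ T, t ≠ 0) → LUrAtV V A T

theorem SMonoV.mono {V : ValuationSubring K} {R : Subalgebra k K} {n : ℕ} {z : Fin n → K}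
    {J : Finset (Fin n)} {t : K} (h : SMonoV V R z J t) : Mono V R z t := by
  obtain ⟨e, w, hw, hw1, ht, hoff, hpos, hneg, hone⟩ := h
  refine ⟨e, w, hw, hw1, ht, fun h1 i => ?_, fun h1 i => ?_⟩
  · rcases h1.eq_or_lt with h2 | h2
    · exact (hone h2 i).ge
    · by_cases hi : i ∈ J
      · exact (hpos h2 i hi).le
      · exact (hoff i hi).ge
  · rcases h1.eq_or_lt with h2 | h2
    · exact (hone h2.symm i).le
    · by_cases hi : i ∈ J
      · exact (hneg h2 i hi).le
      · exact (hoff i hi).le

theorem LUrV.lu {V : ValuationSubring K} (h : LUrV k V) : LU k V := by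
  intro A hfg hA hfrac T hT
  obtain ⟨A', g, hch, n, z, J, hz, hg, ht⟩ := h A hfg hA hfrac T hT
  exact ⟨A', g, hch, n, z, hz, hg.mono, fun t h => (ht t h).mono⟩

end Defs

end Pool.Agent.LUC
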