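import Pool.Agent.Lib.LUC.SDefs
import Pool.Agent.Lib.LUC.LRDefs
import Pool.Agent.Lib.LU2_h15z.ValC
import Pool.Agent.Lib.LU2G.Real

/-! # E6: valuations of rank one, independent values and residues

Recipes (3.3 of l15_cp_h16.md). `isR1_vring`: `LU2.vring v` (`LU2_h15z/ValC.lean`) for a real valuation `v` which is positive somewhere:
if `vring v ≤ W` and `W ≠ vring v` then some `f ∈ W` has `v f < 0`, and for every `g ≠ 0` a power of `f` has value `≤ v g`
(Archimedes), `g = f^n * (g / f^n)`: `W = ⊤`. `exists_indVal`: `Cl.exists_val` (`ClDefs.lean`). `exists_indRes`: `b i ∈ Cl w K₀`,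
`b₀ i ∈ K₀` with `w.Ge 1 (b i - b₀ i)`; `vpos_aeval_sub` of `ValC.lean`: `aeval b P - aeval b₀ P` has positive value, so
`aeval b₀ P` has value 0 for `P ≠ 0`. `lurV_of_lur`: the definitions `LU2.locV, IsChart, IsPar` and `LUM.locV, ..` have the same text:
unfold / `Iff.rfl` or rebuild the structures. -/

set_option autoImplicit false

namespace Pool.Agent.LUC

open Pool.Agent.H15JM (RVal)
open Pool.Agent.LU1 (VPos)
open Pool.Agent.LU2 (IsR1 IndVal IndRes vring rcomap)

universe u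

theorem isR1_vring {L : Type u} [Field L] (v : RVal L) (a : L) (ha : a ≠ 0) (hv : 0 < v a) :
    IsR1 (vring v) := by
  constructor
  · intro h
    have h1 : a⁻¹ ∈ vring v := by
      rw [h]
      exact ValuationSubring.mem_top _
    have h2 : v.Ge 0 a⁻¹ := h1
    have h3 := h2 (inv_ne_zero ha)
    rw [v.map_inv ha] at h3
    linarith
  · intro W hW
    by_cases hWV : W ≤ vring v
    · exact Or.inl (le_antisymm hWV hW)
    · right
      obtain ⟨f, hf, hfV⟩ := SetLike.not_le_iff_exists.1 hWV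
      have hf0 : f ≠ 0 := by
        rintro rfl
        exact hfV (vring v).zero_mem
      have hfneg : v f < 0 := by
        by_contra h
        exact hfV fun _ => not_lt.1 h
      refine top_le_iff.1 fun g _ => ?_
      by_cases hg : g = 0
      · rw [hg]
        exact W.zero_mem
      obtain ⟨n, hn⟩ := exists_nat_gt (v g / v f)
      have h1 : (n : ℝ) * v f < v g := by
        rw [div_lt_iff_of_neg hfneg] at hn
        linarith
      have h2 : g / f ^ n ∈ vring v := by
        intro _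
        rw [v.map_div hg (pow_ne_zero n hf0), v.map_pow hf0]
        linarith
      have h3 : g = f ^ n * (g / f ^ n) := by
        field_simp
      rw [h3]
      exact W.mul_mem _ _ (pow_mem hf n) (hW h2)

theorem exists_indVal {Ω : Type u} [Field Ω] {w : RVal Ω} {K₀ : Subfield Ω} {r : ℕ}
    (a : Fin r → Ω) (ha : ∀ i, a i ∈ Cl w K₀) (ha0 : ∀ i, a i ≠ 0)
    (hind : LinearIndependent ℚ fun i => w (a i)) :
    ∃ x : Fin r → K₀, IndVal (vring (rcomap w K₀.subtype)) x := by
  choose a₀ h1 h2 h3 _ using fun i => Cl.exists_val (ha i) 0 (ha0 i)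
  refine ⟨fun i => ⟨a₀ i, h1 i⟩, (LU2.rel_vring _).indVal_iff.2 ⟨fun i h => ?_, ?_⟩⟩
  · exact h2 i (congrArg (fun z : K₀ => (z : Ω)) h)
  · have h4 : (fun i => rcomap w K₀.subtype (⟨a₀ i, h1 i⟩ : K₀)) = fun i => w (a i) := by
      funext i
      exact h3 i
    rw [h4]
    exact hind

theorem exists_indRes {Ω : Type u} [Field Ω] {w : RVal Ω} {K₀ : Subfield Ω} {k : Type u}
    [Field k] [Algebra k Ω] [Algebra k K₀] [IsScalarTower k K₀ Ω] (hk : ∀ c : k, w.Ge 0 (algebraMap k Ω c)) {d : ℕ}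
    (b : Fin d → Ω) (hb : ∀ i, b i ∈ Cl w K₀) (hbge : ∀ i, w.Ge 0 (b i))
    (hind : ∀ P : MvPolynomial (Fin d) k, P ≠ 0 →
      MvPolynomial.aeval b P ≠ 0 ∧ w (MvPolynomial.aeval b P) = 0) :
    ∃ z : Fin d → K₀, IndRes k (vring (rcomap w K₀.subtype)) z := by
  choose b₀ h1 h2 using fun i => hb i 1
  have hpos : ∀ i, VPos w (b i - b₀ i) := fun i h0 => by
    have := h2 i h0
    linarith
  refine ⟨fun i => ⟨b₀ i, h1 i⟩, fun i => ?_, fun P hP => ?_⟩
  · intro h0
    change 0 ≤ w (b₀ i)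
    have h3 : w.Ge 0 (b₀ i) := by
      have h4 : b₀ i = b i + -(b i - b₀ i) := by ring
      rw [h4]
      exact (hbge i).add (hpos i).ge.neg
    exact h3 fun h => h0 (Subtype.ext h)
  · by_contra hP0
    obtain ⟨h3, h4⟩ := hind P hP0
    have h5 := (LU2.vpos_aeval_sub w hk hbge hpos P).1
    have h6 := LU1.val_add_vpos h3 h4 h5.neg
    have h7 : MvPolynomial.aeval b P + -(MvPolynomial.aeval b P - MvPolynomial.aeval b₀ P) =
        MvPolynomial.aeval b₀ P := by ring
    rw [h7] at h6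
    have h8 : ((MvPolynomial.aeval (fun i => (⟨b₀ i, h1 i⟩ : K₀)) P : K₀) : Ω) =
        MvPolynomial.aeval b₀ P := by
      have h9 := MvPolynomial.aeval_algebraMap_apply (A := K₀) Ω (fun i => (⟨b₀ i, h1 i⟩ : K₀)) P
      exact h9.symm
    rw [(LU2.rel_vring (rcomap w K₀.subtype)).lt_one_iff'] at hP
    have h10 : (MvPolynomial.aeval (fun i => (⟨b₀ i, h1 i⟩ : K₀)) P : K₀) ≠ 0 := by
      intro h
      rw [h] at h8
      exact h6.1 h8.symm
    have h11 : 0 < w ((MvPolynomial.aeval (fun i => (⟨b₀ i, h1 i⟩ : K₀)) P : K₀) : Ω) := hP h10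
    rw [h8, h6.2] at h11
    exact lt_irrefl _ h11

theorem lurV_of_lur {k K : Type u} [Field k] [Field K] [Algebra k K] {V : ValuationSubring K}
    (h : LU2G.LUr k V) : LUrV k V := by
  intro A hfg hA hfrac T hT
  obtain ⟨A', g, hch, n, z, J, hz, hg, ht⟩ := h A hfg hA hfrac T hT
  exact ⟨A', g, hch, n, z, J, ⟨hz.mem, hz.ne, hz.pos, hz.gen, hz.dim⟩, hg, ht⟩

end Pool.Agent.LUC
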