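import Pool.Agent.Lib.LUC.Loc
import Pool.Agent.Lib.LUC.LRDefs

/-! # F2: from valuation rings of a field `K` to subfields of `Ω`

Recipe. `ι = algebraMap K Ω`, `L = ι.fieldRange`, `R = (algebraMap k Ω).range`. Given the finite set `A` and `T` in `L`: preimages
`A₁`, `T₁ : Finset K` under `ι` (`Finset.preimage` or images under a section); `Aₖ = Algebra.adjoin k A₁`: it is
finitely generated, in `V` (`hV`: by `adjoin_induction`, `hk`), `IsFrac` (from `QuoIs`). Basic fact: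
`f ∈ Algebra.adjoin k X ↔ ι f ∈ adj R (ι '' X)` (`Algebra.adjoin_eq_ring_closure`, `Subring` images:
`RingHom.map_closure`, `ι` injective), and `f ∈ locV V B ↔ ι f ∈ lv w (..)`. `LUrV` gives `A'`, `g`, `G`, `z`, `J`. Take
`ι ∘ z`, `J`, `O = lv w (adj R (A ∪ ι '' G / ι g))`, `g' = ι g`, `G' = G.image ι`. `Par.gen` from `IsPar.gen` (`IP.one_iff`; elements of `O`
are in `L`), `SM` from `SMonoV` (`V.valuation f < 1 ↔ VPos w (ι f)` etc.: as `Rel` in `LU2_h15z/Entry.lean`; in fact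
`LU2.Rel V (LU2.rcomap w ι)`), the dimension by a ring isomorphism `locV V A' ≃+* O`. `V` is the ring of `f` with
`w.Ge 0 (ι f)`; `valuation = 1` iff `f ≠ 0` and `w (ι f) = 0`. -/

set_option autoImplicit false

namespace Pool.Agent.LUC

open Pool.Agent.H15JM (RVal)
open Pool.Agent.LU1 (VPos)

universe u

namespace F2

variable {k K Ω : Type u} [CommRing k] [Field K] [Field Ω] [Algebra k K] [Algebra K Ω]
  [Algebra k Ω] [IsScalarTower k K Ω]

theorem map_adjoin (X : Set K) :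
    adj (algebraMap k Ω).range (algebraMap K Ω '' X) =
      (Algebra.adjoin k X).toSubring.map (algebraMap K Ω) := by
  rw [Algebra.adjoin_eq_ring_closure, adj, RingHom.map_closure, Set.image_union]
  congr 2
  ext f
  constructor
  · rintro ⟨c, rfl⟩
    exact ⟨algebraMap k K c, ⟨c, rfl⟩, (IsScalarTower.algebraMap_apply k K Ω c).symm⟩
  · rintro ⟨_, ⟨c, rfl⟩, rfl⟩
    exact ⟨c, IsScalarTower.algebraMap_apply k K Ω c⟩

variable {w : RVal Ω} {V : ValuationSubring K}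

theorem val_le_one_iff (hV : ∀ f : K, f ∈ V ↔ w.Ge 0 (algebraMap K Ω f)) (f : K) :
    V.valuation f ≤ 1 ↔ w.Ge 0 (algebraMap K Ω f) := by
  rw [V.valuation_le_one_iff, hV]

theorem val_le_iff (hV : ∀ f : K, f ∈ V ↔ w.Ge 0 (algebraMap K Ω f)) (f : K) {g : K}
    (hg : g ≠ 0) :
    V.valuation f ≤ V.valuation g ↔ w.Ge (w (algebraMap K Ω g)) (algebraMap K Ω f) := by
  have hg' : algebraMap K Ω g ≠ 0 := (map_ne_zero _).2 hg
  have h1 : V.valuation f ≤ V.valuation g ↔ V.valuation (f / g) ≤ 1 := by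
    rw [map_div₀, div_le_one₀ ((Valuation.pos_iff _).2 hg)]
  rw [h1, val_le_one_iff hV, map_div₀]
  constructor
  · intro h hf
    have h2 := h (div_ne_zero hf hg')
    rw [w.map_div hf hg'] at h2
    linarith
  · intro h hf
    have hf' : algebraMap K Ω f ≠ 0 := left_ne_zero_of_mul (by rwa [div_eq_mul_inv] at hf)
    rw [w.map_div hf' hg']
    have := h hf'
    linarith

theorem one_le_iff (hV : ∀ f : K, f ∈ V ↔ w.Ge 0 (algebraMap K Ω f)) {f : K}
    (hf : f ≠ 0) : 1 ≤ V.valuation f ↔ w (algebraMap K Ω f) ≤ 0 := by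
  rw [← map_one V.valuation, val_le_iff hV 1 hf, map_one]
  constructor
  · intro h
    have := h one_ne_zero
    rwa [w.map_one] at this
  · intro h _
    rwa [w.map_one]

theorem lt_one_iff (hV : ∀ f : K, f ∈ V ↔ w.Ge 0 (algebraMap K Ω f)) (f : K) :
    V.valuation f < 1 ↔ VPos w (algebraMap K Ω f) := by
  by_cases hf : f = 0
  · subst hf
    rw [map_zero, map_zero]
    exact ⟨fun _ => VPos.zero, fun _ => zero_lt_one⟩
  · rw [← not_le, one_le_iff hV hf, not_le]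
    exact ⟨fun h _ => h, fun h => h ((map_ne_zero _).2 hf)⟩

theorem one_lt_iff (hV : ∀ f : K, f ∈ V ↔ w.Ge 0 (algebraMap K Ω f)) {f : K}
    (hf : f ≠ 0) : 1 < V.valuation f ↔ w (algebraMap K Ω f) < 0 := by
  rw [← not_le, val_le_one_iff hV, ← not_le, not_iff_not]
  exact ⟨fun h => h ((map_ne_zero _).2 hf), fun h _ => h⟩

theorem eq_one_iff (hV : ∀ f : K, f ∈ V ↔ w.Ge 0 (algebraMap K Ω f)) {f : K}
    (hf : f ≠ 0) : V.valuation f = 1 ↔ w (algebraMap K Ω f) = 0 := by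
  rw [le_antisymm_iff, one_le_iff hV hf, val_le_one_iff hV, and_comm, le_antisymm_iff]
  have h0 : algebraMap K Ω f ≠ 0 := (map_ne_zero _).2 hf
  exact ⟨fun h => ⟨h.1, h.2 h0⟩, fun h => ⟨h.1, fun _ => h.2⟩⟩

omit [Algebra k Ω] [IsScalarTower k K Ω] in
theorem map_locV (hV : ∀ f : K, f ∈ V ↔ w.Ge 0 (algebraMap K Ω f)) (A : Subalgebra k K) :
    lv w (A.toSubring.map (algebraMap K Ω)) =
      (LUM.locV V A).toSubring.map (algebraMap K Ω) := by
  ext f
  constructor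
  · rintro ⟨_, ⟨a, ha, rfl⟩, _, ⟨b, hb, rfl⟩, hb0, hb1, rfl⟩
    have hb0' : b ≠ 0 := fun h => hb0 (by rw [h, map_zero])
    exact ⟨a / b, ⟨a, ha, b, hb, (eq_one_iff hV hb0').2 hb1, rfl⟩, map_div₀ _ _ _⟩
  · rintro ⟨_, ⟨a, ha, b, hb, hb1, rfl⟩, rfl⟩
    have hb0 : b ≠ 0 := by rintro rfl; simp at hb1
    exact ⟨_, ⟨a, ha, rfl⟩, _, ⟨b, hb, rfl⟩, (map_ne_zero _).2 hb0, (eq_one_iff hV hb0).1 hb1,
      map_div₀ _ _ _⟩

omit [Algebra k Ω] [IsScalarTower k K Ω] in
theorem sm_of (hV : ∀ f : K, f ∈ V ↔ w.Ge 0 (algebraMap K Ω f)) {A : Subalgebra k K} {n : ℕ}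
    {z : Fin n → K} {J : Finset (Fin n)} {t : K} (ht0 : t ≠ 0) (h : SMonoV V A z J t) :
    SM w (A.toSubring.map (algebraMap K Ω)) (fun i => algebraMap K Ω (z i)) J
      (algebraMap K Ω t) := by
  obtain ⟨e, u, hu, hu1, ht, hoff, hpos, hneg, hone⟩ := h
  have hu0 : u ≠ 0 := by rintro rfl; simp at hu1
  refine ⟨e, algebraMap K Ω u, ⟨u, hu, rfl⟩, (map_ne_zero _).2 hu0, (eq_one_iff hV hu0).1 hu1,
    ?_, hoff, ?_, ?_, ?_⟩
  · rw [ht, map_mul, map_prod]
    congr 1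
    exact Finset.prod_congr rfl fun i _ => map_zpow₀ _ _ _
  · intro h1
    exact hpos ((lt_one_iff hV t).2 fun _ => h1)
  · intro h1
    exact hneg ((one_lt_iff hV ht0).2 h1)
  · intro h1
    exact hone ((eq_one_iff hV ht0).2 h1)

end F2

theorem LUrV.lus {k K Ω : Type u} [CommRing k] [Field K] [Field Ω] [Algebra k K] [Algebra K Ω]
    [Algebra k Ω] [IsScalarTower k K Ω] {w : RVal Ω} {V : ValuationSubring K}
    (hV : ∀ f : K, f ∈ V ↔ w.Ge 0 (algebraMap K Ω f)) (hk : ∀ c : k, algebraMap k K c ∈ V)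
    (h : LUrV k V) : LUs w (algebraMap k Ω).range (algebraMap K Ω).fieldRange := by
  classical
  intro A hA hq T hT
  have hιinj : Function.Injective (algebraMap K Ω) := (algebraMap K Ω).injective
  let A₁ : Finset K := A.preimage (algebraMap K Ω) hιinj.injOn
  let T₁ : Finset K := T.preimage (algebraMap K Ω) hιinj.injOn
  have hAL : ∀ a ∈ A, a ∈ (algebraMap K Ω).fieldRange := fun a ha => hq.1 a (mem_adj ha)
  have hA₁ : algebraMap K Ω '' (A₁ : Set K) = (A : Set Ω) := by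
    ext a
    constructor
    · rintro ⟨b, hb, rfl⟩
      exact Finset.mem_coe.2 (Finset.mem_preimage.1 (Finset.mem_coe.1 hb))
    · intro ha
      obtain ⟨b, rfl⟩ := hAL a ha
      exact ⟨b, Finset.mem_coe.2 (Finset.mem_preimage.2 ha), rfl⟩
  have hadj : adj (algebraMap k Ω).range (A : Set Ω) =
      (Algebra.adjoin k (A₁ : Set K)).toSubring.map (algebraMap K Ω) := by
    rw [← hA₁]
    exact F2.map_adjoin _
  have hRge : ∀ f ∈ (algebraMap k Ω).range, w.Ge 0 f := by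
    rintro _ ⟨c, rfl⟩
    rw [IsScalarTower.algebraMap_apply k K Ω]
    exact (hV _).1 (hk c)
  have hadjV : ∀ a ∈ Algebra.adjoin k (A₁ : Set K), a ∈ V := by
    intro a ha
    rw [hV]
    refine adj_nonneg hRge (fun a ha => hA a ha) (algebraMap K Ω a) ?_
    rw [hadj]
    exact ⟨a, ha, rfl⟩
  have hfrac : LUM.IsFrac (Algebra.adjoin k (A₁ : Set K)) := by
    intro f
    obtain ⟨a, ha, b, hb, hb0, hab⟩ := hq.2 (algebraMap K Ω f) ⟨f, rfl⟩
    rw [hadj] at ha hb
    obtain ⟨a', ha', rfl⟩ := ha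
    obtain ⟨b', hb', rfl⟩ := hb
    have hb0' : b' ≠ 0 := fun h => hb0 (by rw [h, map_zero])
    exact ⟨a', ha', b', hb', hb0', hιinj (by rw [hab, map_div₀])⟩
  have hT₁ : ∀ t ∈ T₁, t ≠ 0 := by
    rintro t ht rfl
    exact (hT _ (Finset.mem_preimage.1 ht)).2 (map_zero _)
  obtain ⟨A', g, ⟨hgA, hg0, G, hG, hA'⟩, n, z, J, hz, hgs, hts⟩ :=
    h (Algebra.adjoin k (A₁ : Set K)) ⟨A₁, rfl⟩ hadjV hfrac T₁ hT₁
  have hg0' : algebraMap K Ω g ≠ 0 := (map_ne_zero _).2 hg0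
  -- the chart
  have hA'2 : A' = Algebra.adjoin k ((A₁ : Set K) ∪ (fun x => x / g) '' (G : Set K)) := by
    rw [hA']
    apply le_antisymm
    · refine Algebra.adjoin_le ?_
      rintro f (hf | hf)
      · exact Algebra.adjoin_mono Set.subset_union_left hf
      · exact Algebra.subset_adjoin (Or.inr hf)
    · refine Algebra.adjoin_mono (Set.union_subset_union_left _ Algebra.subset_adjoin)
  have hchart : adj (algebraMap k Ω).range ((A : Set Ω) ∪
      (fun x => x / algebraMap K Ω g) '' ((G.image (algebraMap K Ω) : Finset Ω) : Set Ω)) =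
        A'.toSubring.map (algebraMap K Ω) := by
    rw [hA'2, ← F2.map_adjoin, Set.image_union, hA₁]
    congr 2
    rw [Finset.coe_image, Set.image_image, Set.image_image]
    exact Set.image_congr fun x _ => (map_div₀ _ _ _).symm
  let O : Subring Ω := (LUM.locV V A').toSubring.map (algebraMap K Ω)
  have hO : O = lv w (adj (algebraMap k Ω).range ((A : Set Ω) ∪
      (fun x => x / algebraMap K Ω g) '' ((G.image (algebraMap K Ω) : Finset Ω) : Set Ω))) := by
    rw [hchart, F2.map_locV hV]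
  have hzO : ∀ i, algebraMap K Ω (z i) ∈ O := fun i => ⟨z i, hz.mem i, rfl⟩
  refine ⟨n, fun i => algebraMap K Ω (z i), J, O, ⟨⟨hzO, fun i => (map_ne_zero _).2 (hz.ne i),
    fun i => (F2.lt_one_iff hV (z i)).1 (hz.pos i) ((map_ne_zero _).2 (hz.ne i)), ?_⟩, ?_, ?_⟩, ?_⟩
  · rintro _ ⟨f, hf, rfl⟩ hfv
    obtain ⟨a, ha, haf⟩ := hz.gen f hf ((F2.lt_one_iff hV f).2 hfv)
    rw [IP.one_iff hzO]
    refine ⟨fun i => algebraMap K Ω (a i), fun i => ⟨a i, ha i, rfl⟩, ?_⟩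
    rw [haf, map_sum]
    exact Finset.sum_congr rfl fun i _ => map_mul _ _ _
  · refine ⟨algebraMap K Ω g, ?_, hg0', F2.sm_of hV hg0 hgs, G.image (algebraMap K Ω), ?_, hO⟩
    · rw [hadj]
      exact ⟨g, hgA, rfl⟩
    · intro x hx
      obtain ⟨y, hy, rfl⟩ := Finset.mem_image.1 hx
      obtain ⟨h1, h2⟩ := hG y hy
      refine ⟨?_, (F2.val_le_iff hV y hg0).1 h2⟩
      rw [hadj]
      exact ⟨y, h1, rfl⟩
  · intro t ht
    obtain ⟨t', rfl⟩ := (hT t ht).1
    have h1 : t' ∈ T₁ := Finset.mem_preimage.2 ht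
    exact F2.sm_of hV (hT₁ t' h1) (hts t' h1)
  · let φ : LUM.locV V A' →+* O :=
      ((algebraMap K Ω).comp (LUM.locV V A').val.toRingHom).codRestrict O
        fun f => ⟨f, f.2, rfl⟩
    have hφ : Function.Bijective φ := by
      constructor
      · intro a b hab
        exact Subtype.ext (hιinj (congrArg (fun y : O => (y : Ω)) hab))
      · rintro ⟨_, f, hf, rfl⟩
        exact ⟨⟨f, hf⟩, rfl⟩
    rw [← hz.dim]
    exact (ringKrullDim_eq_of_ringEquiv (RingEquiv.ofBijective φ hφ)).symm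

end Pool.Agent.LUC
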