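import Pool.Agent.Lib.LUC.E4
import Pool.Agent.Lib.LUC.E5
import Pool.Agent.Lib.LUC.E6
import Pool.Agent.Lib.LUC.F2
import Pool.Agent.Lib.LU2_h15z.Final

/-! # E7: log uniformization of `K₀` (equal characteristic) -/

set_option autoImplicit false

namespace Pool.Agent.LUC

open Pool.Agent.H15JM (RVal)
open Pool.Agent.LU1 (VPos)
open Pool.Agent.LU2 (IsR1 IndVal IndRes DefLE vring rcomap rel_vring)
open Polynomial

universe u

variable {Ω : Type u} [Field Ω] {w : RVal Ω} {S : Subring Ω} {m e q : ℕ} {x : Fin m → Ω}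
  {t : Fin e → Ω} {K₀ K' : Subfield Ω} {B : Finset Ω} {α : Fin q → Ω} {u : Ω} {H : Polynomial Ω}
  {k : Type u} [Field k] [Algebra k Ω]

theorem Setup.lus_eq (p : ℕ) (hp : p.Prime) [CharP k p] [PerfectField k]
    (h : Setup w (algebraMap k Ω).range S x t K₀ K' B α u H) (hpos : ∃ c ∈ K', c ≠ 0 ∧ 0 < w c)
    {r d : ℕ} (a : Fin r → Ω) (ha : ∀ i, a i ∈ K') (ha0 : ∀ i, a i ≠ 0)
    (hind : LinearIndependent ℚ fun i => w (a i)) (b : Fin d → Ω) (hb : ∀ i, b i ∈ K')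
    (hbge : ∀ i, w.Ge 0 (b i))
    (hbind : ∀ P : MvPolynomial (Fin d) k, P ≠ 0 →
      MvPolynomial.aeval b P ≠ 0 ∧ w (MvPolynomial.aeval b P) = 0)
    (hdef : m + e ≤ r + d + 1) : LUs w (algebraMap k Ω).range K₀ := by
  have hR₀K : ∀ c : k, algebraMap k Ω c ∈ K₀ := fun c =>
    h.quo₀.1 _ (base_le_adj _ _ ⟨c, rfl⟩)
  let i0 : Algebra k K₀ := ((algebraMap k Ω).codRestrict K₀ hR₀K).toAlgebra
  have i1 : IsScalarTower k K₀ Ω := IsScalarTower.of_algebraMap_eq fun c => rfl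
  have hk : ∀ c : k, w.Ge 0 (algebraMap k Ω c) := fun c =>
    h.base.ge _ (h.base.le ⟨c, rfl⟩)
  set V₀ : ValuationSubring K₀ := vring (rcomap w K₀.subtype) with hV₀
  have hkV : ∀ c : k, algebraMap k K₀ c ∈ V₀ := by
    intro c h0
    exact hk c (by simpa using h0)
  -- rank one
  obtain ⟨c, hcK, hc0, hcw⟩ := hpos
  obtain ⟨c₀, hc₀, hc₀0, hc₀w, -⟩ := Cl.exists_val (h.cl c hcK) 0 hc0
  have hR : IsR1 V₀ := by
    refine isR1_vring _ (⟨c₀, hc₀⟩ : K₀) (fun h0 => hc₀0 (congrArg Subtype.val h0)) ?_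
    change 0 < w c₀
    rw [hc₀w]
    exact hcw
  -- the defect
  obtain ⟨x', hx'⟩ := exists_indVal a (fun i => h.cl _ (ha i)) ha0 hind
  obtain ⟨z', hz'⟩ := exists_indRes (k := k) hk b (fun i => h.cl _ (hb i)) hbge hbind
  have hD : DefLE k V₀ 1 := by
    refine ⟨r, d, ?_, ⟨x', hx'⟩, ⟨z', hz'⟩⟩
    refine h.trdeg_le.trans ?_
    exact_mod_cast hdef
  have hL : LUrV k V₀ := lurV_of_lur (LU2.realCaseR p hp K₀ h.fg V₀ hkV hR hD)
  have hL' := LUrV.lus (w := w) (Ω := Ω) (V := V₀) (fun f => by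
    rw [(rel_vring (rcomap w K₀.subtype)).mem_iff]
    constructor
    · intro h1 h2
      exact h1 (by simpa using h2)
    · intro h1 h2
      exact h1 (by simpa using h2)) hkV hL
  have hr : (algebraMap K₀ Ω).fieldRange = K₀ := by
    ext f
    constructor
    · rintro ⟨y, rfl⟩
      exact y.2
    · intro hf
      exact ⟨⟨f, hf⟩, rfl⟩
  rwa [hr] at hL'

end Pool.Agent.LUC
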