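import Pool.Agent.Lib.LUC.SDefs

/-! # E3: the set-up

Recipe (section 3 of l15_cp_h16.md). `d = PN'(θN)`, `y φ = (∏ i, x (φ i)) / d^2` for `φ : Fin N → Fin m` (positive value by
`big`), `B` = the finite set of the `x i`, `t j`, `θN`, `y φ`; `α : Fin q → Ω` an enumeration of `Sum.elim x y` on
`Fin m ⊕ (Fin N → Fin m)` (`Fintype.equivFin`). `K₀ = Subfield.closure (adj R₀ B)`, `K' = Subfield.closure (K ∪ {u₁})`
(`Subfield.mem_closure_iff`: elements of the closure are quotients of elements of `Subring.closure`). `u = (θ - θN) / d`.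
`H` = the polynomial with coefficients `(taylor θN P).coeff j * d ^ j / d ^ 2`, i.e. `P(θN + d U) / d^2`: `H(u) = P(θ) / d^2 = 0`.
`H_j ∈ adj S B` for `j ≥ 2` (`d ∈ adj R₀ B`). `H_0 = P(θN) / d^2 = (P - PN)(θN) / d^2`: by `IP.sum_iff` the coefficients of
`P - PN` are `∑ φ, c φ * ∏ x (φ i)`, so `H_0 = ∑ φ, y φ * (..)`, `(..) ∈ adj S B`. `H_1 = P'(θN) / d =
1 + (P - PN)'(θN) / d = 1 + d ∑ φ, y φ * (..)`: value 0. `alg`: `x i`, `t j`: `X - C (x i)`; `θN`: `PN ≠ 0` as `PN'(θN) ≠ 0`; `y φ`: it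
is algebraic over the domain `adj R₀ (range x ∪ range t)` (`IsAlgebraic` is closed under field operations in `Ω`).
`quo`: `adj S (B ∪ {u}) ≤ K'` clear; conversely the fraction field of `adj S (B ∪ {u})` contains `S`, `t`, `θ = θN + d u`, so `K`
(`quo` of `PNData`), and `u₁ = (θN - θ) / P'(θ)`. -/

set_option autoImplicit false

namespace Pool.Agent.LUC

open Pool.Agent.H15JM (RVal)
open Pool.Agent.LU1 (VPos val_add_vpos)
open Polynomial

universe u

variable {Ω : Type u} [Field Ω] {w : RVal Ω} {R₀ S : Subring Ω} {m e : ℕ} {x : Fin m → Ω}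
  {t : Fin e → Ω}

/-- Elements algebraic over a subring. -/
private theorem alg_iff (A : Subring Ω) (a : Ω) :
    (∃ Q : Polynomial Ω, Q ≠ 0 ∧ (∀ i, Q.coeff i ∈ A) ∧ Q.eval a = 0) ↔ IsAlgebraic A a := by
  constructor
  · rintro ⟨Q, hQ, hc, h0⟩
    have hl : Q ∈ Polynomial.lifts (algebraMap A Ω) := by
      rw [Polynomial.lifts_iff_coeff_lifts]
      intro i
      exact ⟨⟨Q.coeff i, hc i⟩, rfl⟩
    obtain ⟨Q', hQ'⟩ := (Polynomial.mem_lifts _).1 hl
    refine ⟨Q', ?_, ?_⟩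
    · rintro rfl
      rw [Polynomial.map_zero] at hQ'
      exact hQ hQ'.symm
    · rw [Polynomial.aeval_def, ← Polynomial.eval_map, hQ', h0]
  · rintro ⟨Q, hQ, h0⟩
    refine ⟨Q.map (algebraMap A Ω), ?_, fun i => ?_, ?_⟩
    · rwa [Polynomial.map_ne_zero_iff Subtype.val_injective]
    · rw [Polynomial.coeff_map]
      exact (Q.coeff i).2
    · rw [Polynomial.eval_map]
      exact h0

private theorem eval_mem' (A : Subring Ω) (F : Polynomial Ω) (hF : ∀ i, F.coeff i ∈ A) {a : Ω}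
    (ha : a ∈ A) : F.eval a ∈ A := by
  rw [Polynomial.eval_eq_sum_range]
  exact A.sum_mem fun i _ => A.mul_mem (hF i) (A.pow_mem ha i)

private theorem deriv_mem' (A : Subring Ω) (F : Polynomial Ω) (hF : ∀ i, F.coeff i ∈ A) (i : ℕ) :
    F.derivative.coeff i ∈ A := by
  rw [Polynomial.coeff_derivative]
  refine A.mul_mem (hF _) ?_
  have : ((i : Ω) + 1) = ((i + 1 : ℕ) : Ω) := by push_cast; rfl
  rw [this]
  exact natCast_mem A _

private theorem taylor_mem' (A : Subring Ω) (F : Polynomial Ω) (hF : ∀ i, F.coeff i ∈ A) {a : Ω}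
    (ha : a ∈ A) (i : ℕ) : (taylor a F).coeff i ∈ A := by
  rw [Polynomial.taylor_coeff]
  refine eval_mem' A _ (fun j => ?_) ha
  rw [Polynomial.hasseDeriv_coeff]
  exact A.mul_mem (natCast_mem A _) (hF _)

/-- The field of fractions of a subring. -/
private theorem quoIs_closure (B : Subring Ω) : QuoIs B (Subfield.closure (B : Set Ω)) := by
  refine ⟨fun f hf => Subfield.subset_closure hf, fun f hf => ?_⟩
  obtain ⟨a, ha, b, hb, rfl⟩ := Subfield.mem_closure_iff.1 hf
  rw [Subring.closure_eq] at ha hb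
  by_cases hb0 : b = 0
  · exact ⟨0, B.zero_mem, 1, B.one_mem, one_ne_zero, by rw [hb0, div_zero, zero_div]⟩
  · exact ⟨a, ha, b, hb, hb0, rfl⟩

private theorem ip_eval (A : Subring Ω) {n M : ℕ} (z : Fin n → Ω) (F : Polynomial Ω)
    (hF : ∀ i, IP A z M (F.coeff i)) {a : Ω} (ha : a ∈ A) : IP A z M (F.eval a) := by
  rw [Polynomial.eval_eq_sum_range]
  exact IP.sum _ _ fun i _ => (hF i).mul_right (A.pow_mem ha i)

private theorem ip_deriv (A : Subring Ω) {n M : ℕ} (z : Fin n → Ω) (F : Polynomial Ω)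
    (hF : ∀ i, IP A z M (F.coeff i)) (i : ℕ) : IP A z M (F.derivative.coeff i) := by
  rw [Polynomial.coeff_derivative]
  refine (hF _).mul_right ?_
  have : ((i : Ω) + 1) = ((i + 1 : ℕ) : Ω) := by push_cast; rfl
  rw [this]
  exact natCast_mem A _

theorem PNData.setup {K : Subfield Ω} {θ : Ω} {P : Polynomial Ω} {N : ℕ} {PN f : Polynomial Ω}
    {u₁ θN : Ω} (h : PNData w R₀ S x t K θ P N PN f u₁ θN) :
    ∃ (q : ℕ) (K₀ : Subfield Ω) (B : Finset Ω) (α : Fin q → Ω) (u : Ω) (H : Polynomial Ω),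
      Setup w R₀ S x t K₀ (Subfield.closure ((K : Set Ω) ∪ {u₁})) B α u H := by
  classical
  set d : Ω := PN.derivative.eval θN with hd
  have hd0 : d ≠ 0 := h.d_ne
  let y : (Fin N → Fin m) → Ω := fun φ => (∏ i, x (φ i)) / d ^ 2
  have hxprod : ∀ φ : Fin N → Fin m, (∏ i, x (φ i)) ≠ 0 := fun φ =>
    Finset.prod_ne_zero_iff.2 fun i _ => h.base.ne _
  have hy0 : ∀ φ, y φ ≠ 0 := fun φ => div_ne_zero (hxprod φ) (pow_ne_zero 2 hd0)
  have hyw : ∀ φ, 0 < w (y φ) := by
    intro φ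
    have h1 := h.big φ
    have h2 : w (y φ) = w (∏ i, x (φ i)) - w (d ^ 2) :=
      w.map_div (hxprod φ) (pow_ne_zero 2 hd0)
    rw [h2, w.map_pow hd0]
    push_cast
    linarith
  let I : Type := Fin m ⊕ (Fin N → Fin m)
  let q : ℕ := Fintype.card I
  let eqv : Fin q ≃ I := (Fintype.equivFin I).symm
  let α : Fin q → Ω := fun i => Sum.elim x y (eqv i)
  let B : Finset Ω := (Finset.univ.image x ∪ Finset.univ.image t) ∪ ({θN} ∪ Finset.univ.image y)
  have hxB : ∀ i, x i ∈ B := fun i => Finset.mem_union_left _ (Finset.mem_union_left _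
    (Finset.mem_image_of_mem _ (Finset.mem_univ _)))
  have htB : ∀ i, t i ∈ B := fun i => Finset.mem_union_left _ (Finset.mem_union_right _
    (Finset.mem_image_of_mem _ (Finset.mem_univ _)))
  have hθB : θN ∈ B := Finset.mem_union_right _ (Finset.mem_union_left _
    (Finset.mem_singleton_self _))
  have hyB : ∀ φ, y φ ∈ B := fun φ => Finset.mem_union_right _ (Finset.mem_union_right _
    (Finset.mem_image_of_mem _ (Finset.mem_univ _)))
  have hBcases : ∀ b ∈ B, (∃ i, b = x i) ∨ (∃ j, b = t j) ∨ b = θN ∨ ∃ φ, b = y φ := by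
    intro b hb
    simp only [B, Finset.mem_union, Finset.mem_image, Finset.mem_univ, true_and,
      Finset.mem_singleton] at hb
    rcases hb with (⟨i, rfl⟩ | ⟨j, rfl⟩) | (rfl | ⟨φ, rfl⟩)
    · exact Or.inl ⟨i, rfl⟩
    · exact Or.inr (Or.inl ⟨j, rfl⟩)
    · exact Or.inr (Or.inr (Or.inl rfl))
    · exact Or.inr (Or.inr (Or.inr ⟨φ, rfl⟩))
  have hα_mem : ∀ i, α i ∈ B := by
    intro i
    change Sum.elim x y (eqv i) ∈ B
    cases eqv i with
    | inl i => exact hxB i
    | inr φ => exact hyB φ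
  have hα_ne : ∀ i, α i ≠ 0 := by
    intro i
    change Sum.elim x y (eqv i) ≠ 0
    cases eqv i with
    | inl i => exact h.base.ne i
    | inr φ => exact hy0 φ
  have hα_pos : ∀ i, 0 < w (α i) := by
    intro i
    change 0 < w (Sum.elim x y (eqv i))
    cases eqv i with
    | inl i => exact h.base.pos i
    | inr φ => exact hyw φ
  have hα_x : ∀ i, ∃ j, α j = x i := fun i => ⟨eqv.symm (Sum.inl i), by
    change Sum.elim x y (eqv (eqv.symm (Sum.inl i))) = x i
    rw [Equiv.apply_symm_apply]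
    rfl⟩
  have hα_y : ∀ φ, ∃ j, α j = y φ := fun φ => ⟨eqv.symm (Sum.inr φ), by
    change Sum.elim x y (eqv (eqv.symm (Sum.inr φ))) = y φ
    rw [Equiv.apply_symm_apply]
    rfl⟩
  set Rt : Subring Ω := adj R₀ (Set.range x ∪ Set.range t) with hRt
  set St : Subring Ω := adj S (Set.range t) with hSt
  set AB : Subring Ω := adj R₀ (B : Set Ω) with hAB
  set SB : Subring Ω := adj S (B : Set Ω) with hSB
  have hABSB : AB ≤ SB := adj_mono h.base.le le_rfl
  have hRtAB : Rt ≤ AB := adj_mono le_rfl (by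
    rintro _ (⟨i, rfl⟩ | ⟨j, rfl⟩)
    · exact hxB i
    · exact htB j)
  have hStSB : St ≤ SB := adj_mono le_rfl (by
    rintro _ ⟨j, rfl⟩
    exact htB j)
  have hRtSt : Rt ≤ St := adj_le (h.base.le.trans (base_le_adj _ _)) (by
    rintro _ (⟨i, rfl⟩ | ⟨j, rfl⟩)
    · exact base_le_adj _ _ (h.base.mem i)
    · exact mem_adj ⟨j, rfl⟩)
  have hdAB : d ∈ AB := eval_mem' AB _ (deriv_mem' AB PN fun i => hRtAB (h.PN_mem i))
    (mem_adj hθB)
  have hge : ∀ b ∈ B, w.Ge 0 b := by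
    intro b hb
    rcases hBcases b hb with ⟨i, rfl⟩ | ⟨j, rfl⟩ | rfl | ⟨φ, rfl⟩
    · exact fun _ => (h.base.pos i).le
    · exact h.t_ge j
    · exact h.θN_ge
    · exact fun _ => (hyw φ).le
  have hSBge : ∀ f ∈ SB, w.Ge 0 f := adj_nonneg h.base.ge hge
  have hαSB : ∀ i, α i ∈ SB := fun i => mem_adj (hα_mem i)
  -- quotients by `d^2`
  have hquo : ∀ g : Ω, IP SB x N g → IP SB α 1 (g / d ^ 2) := by
    intro g hg
    obtain ⟨c, hc, rfl⟩ := (IP.sum_iff fun i => mem_adj (hxB i)).1 hg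
    rw [Finset.sum_div]
    refine IP.sum _ _ fun φ _ => ?_
    obtain ⟨j, hj⟩ := hα_y φ
    have h1 : c φ * (∏ i, x (φ i)) / d ^ 2 = c φ * α j := by
      rw [hj]
      change _ = c φ * ((∏ i, x (φ i)) / d ^ 2)
      ring
    rw [h1]
    exact (IP.gen (hαSB j)).mul_left (hc φ)
  set D : Polynomial Ω := P - PN with hD
  have hDc : ∀ i, IP SB x N (D.coeff i) := fun i =>
    (h.diff i).mono hStSB fun i => mem_adj (hxB i)
  have hD0 : IP SB α 1 (D.eval θN / d ^ 2) := hquo _ (ip_eval SB x D hDc (mem_adj hθB))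
  have hD1 : IP SB α 1 (D.derivative.eval θN / d ^ 2) :=
    hquo _ (ip_eval SB x _ (ip_deriv SB x D hDc) (mem_adj hθB))
  -- the polynomial
  let H : Polynomial Ω := C ((d ^ 2)⁻¹) * (taylor θN P).comp (C d * X)
  have hHc : ∀ j, H.coeff j = (d ^ 2)⁻¹ * ((taylor θN P).coeff j * d ^ j) := by
    intro j
    change (C ((d ^ 2)⁻¹) * (taylor θN P).comp (C d * X)).coeff j = _
    rw [Polynomial.coeff_C_mul, Polynomial.comp_C_mul_X_coeff]
  have hT0 : (taylor θN P).coeff 0 = D.eval θN := by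
    rw [Polynomial.taylor_coeff_zero, hD, Polynomial.eval_sub, h.root, sub_zero]
  have hT1 : (taylor θN P).coeff 1 = d + D.derivative.eval θN := by
    rw [Polynomial.taylor_coeff_one, hD, Polynomial.derivative_sub, Polynomial.eval_sub]
    ring
  have hH0 : H.coeff 0 = D.eval θN / d ^ 2 := by
    rw [hHc, hT0, pow_zero, mul_one, div_eq_inv_mul]
  have hH1 : H.coeff 1 = 1 + d * (D.derivative.eval θN / d ^ 2) := by
    rw [hHc, hT1, pow_one]
    field_simp
  have hPSB : ∀ i, P.coeff i ∈ SB := fun i => hStSB (h.P_mem i)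
  have hHmem : ∀ j, H.coeff j ∈ SB := by
    intro j
    match j with
    | 0 => rw [hH0]; exact hD0.mem
    | 1 => rw [hH1]; exact SB.add_mem SB.one_mem (SB.mul_mem (hABSB hdAB) hD1.mem)
    | j + 2 =>
      have h1 : H.coeff (j + 2) = (taylor θN P).coeff (j + 2) * d ^ j := by
        rw [hHc, pow_add]
        field_simp
      rw [h1]
      exact SB.mul_mem (taylor_mem' SB P hPSB (mem_adj hθB) _) (SB.pow_mem (hABSB hdAB) j)
  have hdge : w.Ge 0 d := hSBge _ (hABSB hdAB)
  have hH1v : H.coeff 1 ≠ 0 ∧ w (H.coeff 1) = 0 := by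
    rw [hH1]
    refine val_add_vpos one_ne_zero w.map_one ?_
    exact VPos.mul' hdge (IP.vpos hSBge (fun i _ => hα_pos i) hαSB hD1)
  let uu : Ω := (θ - θN) / d
  have hHu : H.eval uu = 0 := by
    change (C ((d ^ 2)⁻¹) * (taylor θN P).comp (C d * X)).eval uu = 0
    rw [Polynomial.eval_mul, Polynomial.eval_comp, Polynomial.eval_mul, Polynomial.eval_C,
      Polynomial.eval_C, Polynomial.eval_X, Polynomial.taylor_eval]
    have h1 : d * uu + θN = θ := by
      change d * ((θ - θN) / d) + θN = θ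
      rw [mul_div_cancel₀ _ hd0]
      ring
    rw [h1, h.P_root, mul_zero]
  -- algebraicity
  have halgx : ∀ a ∈ Rt, IsAlgebraic Rt a := fun a ha =>
    isAlgebraic_algebraMap (⟨a, ha⟩ : Rt)
  have halgθ : IsAlgebraic Rt θN := by
    refine (alg_iff Rt θN).1 ⟨PN, ?_, h.PN_mem, h.root⟩
    rintro h0
    apply hd0
    rw [hd, h0, Polynomial.derivative_zero, Polynomial.eval_zero]
  have halgd : IsAlgebraic Rt d := by
    have h1 : ∀ F : Polynomial Ω, (∀ i, F.coeff i ∈ Rt) → IsAlgebraic Rt (F.eval θN) := by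
      intro F hF
      rw [Polynomial.eval_eq_sum_range]
      refine Finset.sum_induction _ (IsAlgebraic Rt) (fun _ _ h h' => h.add h')
        isAlgebraic_zero fun i _ => ?_
      exact (halgx _ (hF i)).mul (halgθ.pow i)
    exact h1 _ (deriv_mem' Rt PN h.PN_mem)
  have halg : ∀ b ∈ B, IsAlgebraic Rt b := by
    intro b hb
    rcases hBcases b hb with ⟨i, rfl⟩ | ⟨j, rfl⟩ | rfl | ⟨φ, rfl⟩
    · exact halgx _ (mem_adj (Or.inl ⟨i, rfl⟩))
    · exact halgx _ (mem_adj (Or.inr ⟨j, rfl⟩))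
    · exact halgθ
    · change IsAlgebraic Rt ((∏ i, x (φ i)) / d ^ 2)
      rw [div_eq_mul_inv]
      refine (halgx _ (Rt.prod_mem fun i _ => mem_adj (Or.inl ⟨_, rfl⟩))).mul ?_
      exact (halgd.pow 2).inv
  -- the field `K'`
  set K' : Subfield Ω := Subfield.closure ((K : Set Ω) ∪ {u₁}) with hK'
  have hKK' : ∀ a ∈ K, a ∈ K' := fun a ha => Subfield.subset_closure (Or.inl ha)
  have hu₁K' : u₁ ∈ K' := Subfield.subset_closure (Or.inr rfl)
  have hStK : ∀ a ∈ St, a ∈ K := fun a ha =>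
    h.quo.1 a (adj_mono le_rfl Set.subset_union_left ha)
  have hθK : θ ∈ K := h.quo.1 θ (mem_adj (Or.inr rfl))
  have hSK : ∀ s ∈ S, s ∈ K := fun s hs => hStK s (base_le_adj _ _ hs)
  have hP'K : P.derivative.eval θ ∈ K :=
    eval_mem' K.toSubring _ (deriv_mem' K.toSubring P fun i => hStK _ (h.P_mem i)) hθK
  have hθNK' : θN ∈ K' := by
    rw [h.θN_eq]
    exact K'.add_mem (hKK' _ hθK) (K'.mul_mem (hKK' _ hP'K) hu₁K')
  have hdK' : d ∈ K' := eval_mem' K'.toSubring _
    (deriv_mem' K'.toSubring PN fun i => hKK' _ (hStK _ (hRtSt (h.PN_mem i)))) hθNK'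
  have hxK : ∀ i, x i ∈ K := fun i => hSK _ (h.base.mem i)
  have hBK' : ∀ b ∈ B, b ∈ K' := by
    intro b hb
    rcases hBcases b hb with ⟨i, rfl⟩ | ⟨j, rfl⟩ | rfl | ⟨φ, rfl⟩
    · exact hKK' _ (hxK i)
    · exact hKK' _ (hStK _ (mem_adj ⟨j, rfl⟩))
    · exact hθNK'
    · exact K'.div_mem (K'.prod_mem fun i _ => hKK' _ (hxK _)) (K'.pow_mem hdK' 2)
  have huK' : uu ∈ K' := K'.div_mem (K'.sub_mem (hKK' _ hθK) hθNK') hdK'
  have hquo' : QuoIs (adj S ((B : Set Ω) ∪ {uu})) K' := by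
    set E : Subring Ω := adj S ((B : Set Ω) ∪ {uu}) with hE
    have hL := quoIs_closure E
    set L : Subfield Ω := Subfield.closure (E : Set Ω) with hLdef
    have hEL : ∀ a ∈ E, a ∈ L := hL.1
    have hSBE : SB ≤ E := adj_mono le_rfl Set.subset_union_left
    have hdL : d ∈ L := hEL _ (hSBE (hABSB hdAB))
    have hθL : θ ∈ L := by
      have h1 : θ = θN + d * uu := by
        change θ = θN + d * ((θ - θN) / d)
        rw [mul_div_cancel₀ _ hd0]
        ring
      rw [h1]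
      exact L.add_mem (hEL _ (mem_adj (Or.inl hθB)))
        (L.mul_mem hdL (hEL _ (mem_adj (Or.inr rfl))))
    have hStL : ∀ a ∈ St, a ∈ L := fun a ha => hEL _ (hSBE (hStSB ha))
    have hAL : ∀ a ∈ adj S (Set.range t ∪ {θ}), a ∈ L := by
      intro a ha
      have h1 : adj S (Set.range t ∪ {θ}) ≤ L.toSubring := adj_le
        (fun s hs => hStL s (base_le_adj _ _ hs)) (by
          rintro b (⟨j, rfl⟩ | hb)
          · exact hStL _ (mem_adj ⟨j, rfl⟩)
          · rw [Set.mem_singleton_iff] at hb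
            rw [hb]
            exact hθL)
      exact h1 ha
    have hKL : ∀ a ∈ K, a ∈ L := by
      intro a ha
      obtain ⟨b, hb, c, hc, -, rfl⟩ := h.quo.2 a ha
      exact L.div_mem (hAL b hb) (hAL c hc)
    have hu₁L : u₁ ∈ L := by
      have h1 : u₁ = (θN - θ) / P.derivative.eval θ := by
        rw [h.θN_eq, add_sub_cancel_left, mul_div_cancel_left₀ _ h.P_der]
      rw [h1]
      exact L.div_mem (L.sub_mem (hEL _ (mem_adj (Or.inl hθB))) hθL) (hKL _ hP'K)
    have hK'L : K' ≤ L := by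
      rw [hK', Subfield.closure_le]
      rintro a (ha | ha)
      · exact hKL a ha
      · rw [Set.mem_singleton_iff] at ha
        rw [ha]
        exact hu₁L
    refine ⟨?_, fun a ha => hL.2 a (hK'L ha)⟩
    intro a ha
    have h1 : E ≤ K'.toSubring := adj_le (fun s hs => hKK' _ (hSK s hs)) (by
      rintro b (hb | hb)
      · exact hBK' b hb
      · rw [Set.mem_singleton_iff] at hb
        rw [hb]
        exact huK')
    exact h1 ha
  refine ⟨q, Subfield.closure (AB : Set Ω), B, α, uu, H, ?_⟩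
  exact
    { base := h.base
      ge := hge
      x_mem := hxB
      t_mem := htB
      quo₀ := quoIs_closure AB
      alg := fun b hb => (alg_iff Rt b).2 (halg b hb)
      α_mem := hα_mem
      α_ne := hα_ne
      α_pos := hα_pos
      α_x := hα_x
      u_pos := h.u_pos
      root := hHu
      coeff := hHmem
      H0 := by rw [hH0]; exact hD0
      H1_ne := hH1v.1
      H1 := hH1v.2
      quo := hquo' }

end Pool.Agent.LUC
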