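import Pool.Agent.Lib.LUC.DDefs

/-! # D6: decompositions `B = L + (α) B`, roots in `(α) B`, and the parameters of `O'`

Recipes (2.1 (a) of l15_cp_h16.md). `decomp`: let `B = lv w (adj S (L ∪ U))`. The elements `f ∈ B` with `f - f₀ ∈ (α) B` for some
`f₀ ∈ L` form a subring (`IP.add`, `IP.mul_left`; product: `f g - f₀ g₀ = f (g - g₀) + g₀ (f - f₀)`, `L ≤ B`); it contains
`S`, `L` and `U`, so `adj S (L ∪ U)`. `Base.decomp_hS`: `Base.dec`: `s = r + (x) S`, `IP.map` with `hx`: `(x) S ⊆ (α) B`. For `a / b`,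
`w b = 0`: `a - a₀, b - b₀ ∈ (α) B` have positive value (`IP.vpos`), so `b₀ ≠ 0`, `w b₀ = 0` (`val_add_vpos`),
`a / b - a₀ / b₀ = (a b₀ - a₀ b) / (b b₀)`, `a b₀ - a₀ b = (a - a₀) b₀ - a₀ (b - b₀)`, and `1 / (b b₀) ∈ B` (`lv_inv`).
`root_mem`: `H(u) = 0`: `H_0 + u (H_1 + u (..)) = 0` (`Polynomial.eval_eq_sum_range`, or `divX`: `H = X * H.divX + C H_0`,
`H.divX.eval u = H_1 + u * (..)`), the bracket `c ∈ B` has value 0, `u = - H_0 / c`.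
`par'`: `O₀ = lv w (adj R₀ F) ≤ O' = lv w (adj S (F ∪ {u}))`. First `decomp` for `L = O₀`, `α = z`, `U = ∅`:
`B₁ = lv w (adj S (O₀ ∪ ∅)) ∋ H_0`: `H_0 = h + (z) B₁`, `h ∈ O₀` of positive value, so `h ∈ (z) O₀` (`Par.gen`):
`IP B₁ z 1 H_0`, so `IP O' z 1 H_0` (`IP.mono`, `B₁ ≤ O'`), `root_mem`: `IP O' z 1 u`. Then `decomp` with `U = {u}`:
`lv w (adj S (O₀ ∪ {u})) = O'` (`lv_eq_of_le`); `f ∈ O'` of positive value is `f₀ + (z) O'`, `f₀ ∈ O₀` has positive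
value. `hx` holds by `Par.gen` as `x i ∈ O₀` has positive value. -/

set_option autoImplicit false

namespace Pool.Agent.LUC

open Pool.Agent.H15JM (RVal)
open Pool.Agent.LU1 (VPos)
open Polynomial

universe u

variable {Ω : Type u} [Field Ω] {w : RVal Ω} {R₀ S : Subring Ω} {m e n : ℕ} {x : Fin m → Ω}
  {t : Fin e → Ω} {F : Finset Ω} {z : Fin n → Ω} {u : Ω} {H : Polynomial Ω}

theorem decomp (S L : Subring Ω) (hSge : ∀ s ∈ S, w.Ge 0 s) (hL : ∀ f ∈ L, w.Ge 0 f)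
    (hLinv : ∀ f ∈ L, f ≠ 0 → w f = 0 → f⁻¹ ∈ L) {q : ℕ} (α : Fin q → Ω) (hα : ∀ i, α i ∈ L)
    (hαpos : ∀ i, VPos w (α i)) (U : Set Ω) (hUge : ∀ u ∈ U, w.Ge 0 u)
    (hS : ∀ s ∈ S, ∃ s₀ ∈ L, IP (lv w (adj S ((L : Set Ω) ∪ U))) α 1 (s - s₀))
    (hU : ∀ u ∈ U, ∃ u₀ ∈ L, IP (lv w (adj S ((L : Set Ω) ∪ U))) α 1 (u - u₀)) :
    ∀ f ∈ lv w (adj S ((L : Set Ω) ∪ U)), ∃ f₀ ∈ L,
      IP (lv w (adj S ((L : Set Ω) ∪ U))) α 1 (f - f₀) := by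
  have hAB : adj S ((L : Set Ω) ∪ U) ≤ lv w (adj S ((L : Set Ω) ∪ U)) := le_lv w _
  have hinv' : ∀ f ∈ lv w (adj S ((L : Set Ω) ∪ U)), f ≠ 0 → w f = 0 →
      f⁻¹ ∈ lv w (adj S ((L : Set Ω) ∪ U)) := fun f => lv_inv
  have hBge : ∀ f ∈ lv w (adj S ((L : Set Ω) ∪ U)), w.Ge 0 f := lv_nonneg (adj_nonneg hSge (by
    rintro f (hf | hf)
    · exact hL f hf
    · exact hUge f hf))
  have hcase : ∀ f ∈ lv w (adj S ((L : Set Ω) ∪ U)), ∃ a ∈ adj S ((L : Set Ω) ∪ U),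
      ∃ b ∈ adj S ((L : Set Ω) ∪ U), b ≠ 0 ∧ w b = 0 ∧ f = a / b := fun f hf => hf
  generalize lv w (adj S ((L : Set Ω) ∪ U)) = B at *
  have hLB : L ≤ B := fun f hf => hAB (mem_adj (Or.inl hf))
  have hαB : ∀ i, α i ∈ B := fun i => hLB (hα i)
  have key : ∀ f ∈ adj S ((L : Set Ω) ∪ U), f ∈ B ∧ ∃ f₀ ∈ L, IP B α 1 (f - f₀) := by
    intro f hf
    refine adj_induction (p := fun f => f ∈ B ∧ ∃ f₀ ∈ L, IP B α 1 (f - f₀)) ?_ ?_ ?_ ?_ hf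
    · intro s hs
      exact ⟨hAB (base_le_adj _ _ hs), hS s hs⟩
    · rintro s (hs | hs)
      · exact ⟨hLB hs, s, hs, by rw [sub_self]; exact IP.zero⟩
      · exact ⟨hAB (mem_adj (Or.inr hs)), hU s hs⟩
    · rintro f g ⟨hf, f₀, hf₀, hff⟩ ⟨hg, g₀, hg₀, hgg⟩
      refine ⟨B.add_mem hf hg, f₀ + g₀, L.add_mem hf₀ hg₀, ?_⟩
      rw [add_sub_add_comm]
      exact hff.add hgg
    · rintro f g ⟨hf, f₀, hf₀, hff⟩ ⟨hg, g₀, hg₀, hgg⟩
      refine ⟨B.mul_mem hf hg, f₀ * g₀, L.mul_mem hf₀ hg₀, ?_⟩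
      have h1 : f * g - f₀ * g₀ = f * (g - g₀) + g₀ * (f - f₀) := by ring
      rw [h1]
      exact (hgg.mul_left hf).add (hff.mul_left (hLB hg₀))
  intro f hf
  obtain ⟨a, ha, b, hb, hb0, hvb, rfl⟩ := hcase f hf
  obtain ⟨haB, a₀, ha₀, haa⟩ := key a ha
  obtain ⟨hbB, b₀, hb₀, hbb⟩ := key b hb
  have h1 : VPos w (b - b₀) := IP.vpos hBge hαpos hαB hbb
  have h2 := Pool.Agent.LU1.val_add_vpos hb0 hvb h1.neg
  have h3 : b + -(b - b₀) = b₀ := by ring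
  rw [h3] at h2
  have hinv : (b * b₀)⁻¹ ∈ B := hinv' _ (B.mul_mem hbB (hLB hb₀)) (mul_ne_zero hb0 h2.1)
    (by rw [w.map_mul hb0 h2.1, hvb, h2.2, add_zero])
  refine ⟨a₀ / b₀, by rw [div_eq_mul_inv]; exact L.mul_mem ha₀ (hLinv b₀ hb₀ h2.1 h2.2), ?_⟩
  have h4 : a / b - a₀ / b₀ = (b * b₀)⁻¹ * (b₀ * (a - a₀) - a₀ * (b - b₀)) := by
    rw [div_sub_div _ _ hb0 h2.1, div_eq_inv_mul]
    ring
  rw [h4]
  exact ((haa.mul_left (hLB hb₀)).sub (hbb.mul_left (hLB ha₀))).mul_left hinv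

/-- The hypothesis on `S` of `decomp` for a base. -/
theorem Base.decomp_hS (hB : Base w R₀ S x) (L : Subring Ω) (hRL : R₀ ≤ L) {q : ℕ}
    (α : Fin q → Ω) (hx : ∀ i, IP L α 1 (x i)) (B : Subring Ω) (hSB : S ≤ B) (hLB : L ≤ B)
    (hα : ∀ i, α i ∈ L) :
    ∀ s ∈ S, ∃ s₀ ∈ L, IP B α 1 (s - s₀) := by
  intro s hs
  obtain ⟨r, hr, h⟩ := hB.dec s hs
  exact ⟨r, hRL hr, h.map hSB fun i => (hx i).mono hLB fun j => hLB (hα j)⟩

private theorem eval_mem' {B : Subring Ω} {P : Polynomial Ω} (hP : ∀ i, P.coeff i ∈ B) {u : Ω}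
    (hu : u ∈ B) : P.eval u ∈ B := by
  rw [Polynomial.eval_eq_sum_range]
  exact B.sum_mem fun i _ => B.mul_mem (hP i) (B.pow_mem hu i)

theorem root_mem (B : Subring Ω) (hge : ∀ f ∈ B, w.Ge 0 f)
    (hinv : ∀ f ∈ B, f ≠ 0 → w f = 0 → f⁻¹ ∈ B) {q : ℕ} (α : Fin q → Ω) (G : Polynomial Ω)
    (hG : ∀ i, G.coeff i ∈ B) (h0 : IP B α 1 (G.coeff 0)) (h1 : G.coeff 1 ≠ 0)
    (h1' : w (G.coeff 1) = 0) (u : Ω) (huB : u ∈ B) (huv : VPos w u) (hu : G.eval u = 0) :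
    IP B α 1 u := by
  have e1 : G.eval u = G.divX.eval u * u + G.coeff 0 := by
    conv_lhs => rw [← G.divX_mul_X_add]
    simp
  have e2 : G.divX.eval u = G.divX.divX.eval u * u + G.coeff 1 := by
    conv_lhs => rw [← G.divX.divX_mul_X_add]
    simp [Polynomial.coeff_divX]
  have h3 : G.divX.divX.eval u ∈ B := eval_mem' (fun i => by
    rw [Polynomial.coeff_divX, Polynomial.coeff_divX]
    exact hG _) huB
  have h4 := Pool.Agent.LU1.val_add_vpos h1 h1' (VPos.mul' (hge _ h3) huv)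
  rw [add_comm, ← e2] at h4
  have h5 : G.divX.eval u ∈ B := by
    rw [e2]
    exact B.add_mem (B.mul_mem h3 huB) (hG 1)
  have h6 : u = (G.divX.eval u)⁻¹ * (-G.coeff 0) := by
    rw [hu] at e1
    rw [eq_inv_mul_iff_mul_eq₀ h4.1]
    linear_combination -e1
  rw [h6]
  exact h0.neg.mul_left (hinv _ h5 h4.1 h4.2)

theorem Sec2.par' (h : Sec2 w R₀ S x t F z u H) :
    Par w (lv w (adj S ((F : Set Ω) ∪ {u}))) z := by
  have hOO : lv w (adj R₀ (F : Set Ω)) ≤ lv w (adj S ((F : Set Ω) ∪ {u})) :=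
    lv_mono (adj_mono h.base.le Set.subset_union_left)
  have hSO : S ≤ lv w (adj S ((F : Set Ω) ∪ {u})) := (base_le_adj _ _).trans (le_lv w _)
  have huO : u ∈ lv w (adj S ((F : Set Ω) ∪ {u})) := le_lv w _ (mem_adj (Or.inr rfl))
  have hFO : (F : Set Ω) ⊆ (lv w (adj R₀ (F : Set Ω)) : Set Ω) := fun f hf =>
    le_lv w _ (mem_adj hf)
  have hge₀ : ∀ f ∈ lv w (adj R₀ (F : Set Ω)), w.Ge 0 f := lv_nonneg h.ge'
  have hge' : ∀ f ∈ lv w (adj S ((F : Set Ω) ∪ {u})), w.Ge 0 f :=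
    lv_nonneg (adj_nonneg h.base.ge (by
      rintro f (hf | rfl)
      · exact h.ge f hf
      · exact h.u_pos.ge))
  have hinv₀ : ∀ f ∈ lv w (adj R₀ (F : Set Ω)), f ≠ 0 → w f = 0 →
      f⁻¹ ∈ lv w (adj R₀ (F : Set Ω)) := fun f => lv_inv
  have hinv' : ∀ f ∈ lv w (adj S ((F : Set Ω) ∪ {u})), f ≠ 0 → w f = 0 →
      f⁻¹ ∈ lv w (adj S ((F : Set Ω) ∪ {u})) := fun f => lv_inv
  have hRO : R₀ ≤ lv w (adj R₀ (F : Set Ω)) := (base_le_adj _ _).trans (le_lv w _)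
  have hx : ∀ i, IP (lv w (adj R₀ (F : Set Ω))) z 1 (x i) := fun i =>
    h.par.gen (x i) (le_lv _ _ (h.x_mem i)) fun _ => h.base.pos i
  have hzpos : ∀ i, VPos w (z i) := fun i _ => h.par.pos i
  have hzO : ∀ i, z i ∈ lv w (adj S ((F : Set Ω) ∪ {u})) := fun i => hOO (h.par.mem i)
  -- the constant coefficient
  have hB1 : adj S ((lv w (adj R₀ (F : Set Ω)) : Set Ω) ∪ ∅) ≤
      lv w (adj S ((F : Set Ω) ∪ {u})) := adj_le hSO (by
    rintro f (hf | hf)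
    · exact hOO hf
    · exact absurd hf (Set.notMem_empty f))
  have h0mem : H.coeff 0 ∈ lv w (adj S ((lv w (adj R₀ (F : Set Ω)) : Set Ω) ∪ ∅)) :=
    le_lv w _ (adj_mono le_rfl (hFO.trans Set.subset_union_left) (h.coeff 0))
  obtain ⟨h₀, hh₀, hh⟩ := decomp S (lv w (adj R₀ (F : Set Ω))) h.base.ge hge₀ hinv₀ z
    h.par.mem hzpos ∅ (fun u hu => absurd hu (Set.notMem_empty u))
    (h.base.decomp_hS _ hRO z hx _ ((base_le_adj _ _).trans (le_lv w _))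
      (fun f hf => le_lv w _ (mem_adj (Or.inl hf))) h.par.mem)
    (fun u hu => absurd hu (Set.notMem_empty u)) _ h0mem
  have hh1 : IP (lv w (adj S ((F : Set Ω) ∪ {u}))) z 1 (H.coeff 0 - h₀) :=
    hh.mono (lv_le hB1 hinv') hzO
  have hv0 : VPos w h₀ := by
    have h1 := h.H0.sub (IP.vpos hge' hzpos hzO hh1)
    rwa [sub_sub_cancel] at h1
  have hIP0 : IP (lv w (adj S ((F : Set Ω) ∪ {u}))) z 1 (H.coeff 0) := by
    have h1 := hh1.add ((h.par.gen h₀ hh₀ hv0).mono hOO hzO)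
    rwa [sub_add_cancel] at h1
  have hIPu : IP (lv w (adj S ((F : Set Ω) ∪ {u}))) z 1 u :=
    root_mem _ hge' hinv' z H (fun i => le_lv w _ (adj_mono le_rfl Set.subset_union_left
      (h.coeff i))) hIP0 h.H1_ne h.H1 u huO h.u_pos h.root
  have hB2 : lv w (adj S ((lv w (adj R₀ (F : Set Ω)) : Set Ω) ∪ {u})) =
      lv w (adj S ((F : Set Ω) ∪ {u})) :=
    lv_eq_of_le (adj_mono le_rfl (Set.union_subset_union_left _ hFO)) (adj_le hSO (by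
      rintro f (hf | rfl)
      · exact hOO hf
      · exact huO))
  have hdec := decomp S (lv w (adj R₀ (F : Set Ω))) h.base.ge hge₀ hinv₀ z
    h.par.mem hzpos {u} (by rintro f rfl; exact h.u_pos.ge)
    (h.base.decomp_hS _ hRO z hx _ ((base_le_adj _ _).trans (le_lv w _))
      (fun f hf => le_lv w _ (mem_adj (Or.inl hf))) h.par.mem)
    (by
      rintro f rfl
      refine ⟨0, Subring.zero_mem _, ?_⟩
      rw [sub_zero, hB2]
      exact hIPu)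
  rw [hB2] at hdec
  refine ⟨hzO, h.par.ne, h.par.pos, fun f hf hfv => ?_⟩
  obtain ⟨f₀, hf₀, hff⟩ := hdec f hf
  have hv : VPos w f₀ := by
    have h1 := hfv.sub (IP.vpos hge' hzpos hzO hff)
    rwa [sub_sub_cancel] at h1
  have h2 := hff.add ((h.par.gen f₀ hf₀ hv).mono hOO hzO)
  rwa [sub_add_cancel] at h2

end Pool.Agent.LUC
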