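import Pool.Agent.Lib.LUC.C1
import Pool.Agent.Lib.LUM.C01

/-! # C2: comparison of dimensions by surjections onto truncations -/

set_option autoImplicit false

namespace Pool.Agent.LUC

universe u

/-- A surjection onto a truncation of a local ring maps the maximal ideal to the maximal ideal. -/
private theorem map_max {R O : Type u} [CommRing R] [IsLocalRing R] [CommRing O] [IsLocalRing O]
    {M : ℕ} (hM : 1 ≤ M) (τ : R →+* O ⧸ IsLocalRing.maximalIdeal O ^ M)
    (hτ : Function.Surjective τ) :
    IsLocalRing.maximalIdeal R ≤ Ideal.comap τ (Ideal.map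
      (Ideal.Quotient.mk (IsLocalRing.maximalIdeal O ^ M)) (IsLocalRing.maximalIdeal O)) := by
  have hle : IsLocalRing.maximalIdeal O ^ M ≤ IsLocalRing.maximalIdeal O :=
    Ideal.pow_le_self (by omega)
  have hlift : ∀ a ∈ IsLocalRing.maximalIdeal O ^ M, IsLocalRing.residue O a = 0 := fun a ha =>
    (IsLocalRing.residue_eq_zero_iff a).2 (hle ha)
  have hσ : Function.Surjective ((Ideal.Quotient.lift (IsLocalRing.maximalIdeal O ^ M)
      (IsLocalRing.residue O) hlift).comp τ) := by
    rw [RingHom.coe_comp]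
    exact (Ideal.Quotient.lift_surjective_of_surjective _ hlift
      IsLocalRing.residue_surjective).comp hτ
  have hker := RingHom.ker_isMaximal_of_surjective _ hσ
  have e := IsLocalRing.eq_maximalIdeal hker
  intro x hx
  rw [← e, RingHom.mem_ker, RingHom.comp_apply] at hx
  rw [Ideal.mem_comap]
  obtain ⟨a, ha⟩ := Ideal.Quotient.mk_surjective (τ x)
  rw [← ha, Ideal.Quotient.lift_mk, IsLocalRing.residue_eq_zero_iff] at hx
  rw [← ha]
  exact Ideal.mem_map_of_mem _ hx

/-- Comparison of the lengths. -/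
private theorem length_le {R O : Type u} [CommRing R] [IsLocalRing R] [CommRing O]
    [IsLocalRing O] {M : ℕ} (hM : 1 ≤ M) (τ : R →+* O ⧸ IsLocalRing.maximalIdeal O ^ M)
    (hτ : Function.Surjective τ) {J : Ideal R} (hJ : J ≤ IsLocalRing.maximalIdeal R) :
    Module.length O (O ⧸ IsLocalRing.maximalIdeal O ^ M) ≤ Module.length R (R ⧸ J ^ M) := by
  have h0 : J ^ M ≤ RingHom.ker τ := by
    refine (Ideal.pow_right_mono (hJ.trans (map_max hM τ hτ)) M).trans
      ((Ideal.le_comap_pow _ _).trans ?_)
    rw [← Ideal.map_pow, Ideal.map_quotient_self]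
    exact le_rfl
  let _ : Algebra R (O ⧸ IsLocalRing.maximalIdeal O ^ M) := τ.toAlgebra
  have e1 : Module.length R (O ⧸ IsLocalRing.maximalIdeal O ^ M) =
      Module.length (O ⧸ IsLocalRing.maximalIdeal O ^ M) (O ⧸ IsLocalRing.maximalIdeal O ^ M) :=
    Module.length_eq_of_surjective hτ
  have e2 : Module.length O (O ⧸ IsLocalRing.maximalIdeal O ^ M) =
      Module.length (O ⧸ IsLocalRing.maximalIdeal O ^ M) (O ⧸ IsLocalRing.maximalIdeal O ^ M) :=
    Module.length_eq_of_surjective Ideal.Quotient.mk_surjective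
  rw [e2, ← e1]
  refine Module.length_le_of_surjective
    (Submodule.liftQ (J ^ M) (Algebra.linearMap R (O ⧸ IsLocalRing.maximalIdeal O ^ M)) ?_) ?_
  · intro x hx
    exact h0 hx
  · intro y
    obtain ⟨x, rfl⟩ := hτ y
    exact ⟨Submodule.Quotient.mk x, rfl⟩

theorem dim_le_of_tau {R O : Type u} [CommRing R] [IsNoetherianRing R] [IsLocalRing R]
    [CommRing O] [IsNoetherianRing O] [IsLocalRing O]
    (h : ∀ M : ℕ, ∃ τ : R →+* O ⧸ IsLocalRing.maximalIdeal O ^ M, Function.Surjective τ) :
    ringKrullDim O ≤ ringKrullDim R := by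
  obtain ⟨s, hs, hcard⟩ :=
    (IsLocalRing.maximalIdeal R).exists_finset_card_eq_height_of_isNoetherianRing
  have hrange : Set.range (fun i : Fin s.card => ((s.equivFin.symm i : s) : R)) = (s : Set R) := by
    ext x
    constructor
    · rintro ⟨i, rfl⟩
      exact (s.equivFin.symm i).2
    · intro hx
      exact ⟨s.equivFin ⟨x, hx⟩, by simp⟩
  have hJ : Ideal.span (s : Set R) ≤ IsLocalRing.maximalIdeal R := hs.1.2
  have hart : IsArtinianRing (R ⧸ Ideal.span (s : Set R)) :=
    IsLocalRing.quotient_artinian_of_mem_minimalPrimes_of_isLocalRing _ hs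
  have hlen : Module.length R (R ⧸ Ideal.span (s : Set R)) ≠ ⊤ := by
    rw [Module.length_eq_of_surjective (R := R ⧸ Ideal.span (s : Set R))
      Ideal.Quotient.mk_surjective]
    exact Module.length_ne_top
  have hdim : ringKrullDim R = (s.card : WithBot ℕ∞) := by
    rw [← IsLocalRing.maximalIdeal_height_eq_ringKrullDim, ← hcard]
    rfl
  rw [hdim]
  refine dim_le_of_growth s.card
    (Module.length R (R ⧸ Ideal.span (s : Set R))).toNat fun M hM => ?_
  obtain ⟨τ, hτ⟩ := h M
  refine (length_le hM τ hτ hJ).trans ?_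
  have h1 := LUM.length_pow_le (fun i : Fin s.card => ((s.equivFin.symm i : s) : R))
    (Module.length R (R ⧸ Ideal.span (s : Set R))).toNat (by
      rw [hrange, ENat.natCast_toNat hlen]) M hM
  rwa [hrange] at h1

end Pool.Agent.LUC
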