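import Mathlib

/-! # C3: a regular local ring is a domain

Recipe (1.4 of l15_cp_h16.md). Induction on `n`. `n = 0`: `m = ⊥`, `R` is a field. `n + 1`: `dim R ≥ n + 1 > 0`. Prime avoidance
(`Ideal.subset_union_prime'`: two of the ideals need not be prime) for `m ⊆ m^2 ∪ ⋃ minimal primes` (finitely many:
`minimalPrimes.finite_of_isNoetherianRing`): if `m ≤ m^2` then `m = ⊥` (Nakayama), dimension 0; if `m ≤ p`, `p` minimal, then
`m = p` has height 0, dimension 0: contradiction. So there is `x ∈ m`, `x ∉ m^2`, `x` in no minimal prime.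
`x = ∑ c_i z_i`, some `c_i` is a unit, so `z_i ∈ (x) + (z_j, j ≠ i)` and the maximal ideal of `R ⧸ (x)` is
generated by the `n` images of the `z_j`, `j ≠ i` (`Fin.succAbove`). `dim (R ⧸ (x)) ≥ n` (Krull:
`ringKrullDim_le_ringKrullDim_quotient_add_one` or similar in Mathlib's `KrullsHeightTheorem` /
`RingTheory/KrullDimension/..`). By induction `R ⧸ (x)` is a domain: `(x)` is prime and contains a minimal prime `p`;
`x ∉ p`, so `p = x p`: `p ≤ m p`, `p = ⊥` (Nakayama). So `⊥` is prime. -/

set_option autoImplicit false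

namespace Pool.Agent.LUC

universe u

private theorem exists_good {R : Type u} [CommRing R] [IsNoetherianRing R] [IsLocalRing R]
    (hpos : ringKrullDim R ≠ 0) : ∃ x ∈ IsLocalRing.maximalIdeal R,
      x ∉ IsLocalRing.maximalIdeal R ^ 2 ∧ ∀ p ∈ minimalPrimes R, x ∉ p := by
  classical
  by_contra hcon
  push Not at hcon
  have hfin := minimalPrimes.finite_of_isNoetherianRing R
  have h1 : ((IsLocalRing.maximalIdeal R : Ideal R) : Set R) ⊆
      ⋃ i ∈ (↑(insert (IsLocalRing.maximalIdeal R ^ 2) hfin.toFinset) : Set (Ideal R)),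
        ((id i : Ideal R) : Set R) := by
    intro x hx
    rw [Set.mem_iUnion₂]
    by_cases hx2 : x ∈ IsLocalRing.maximalIdeal R ^ 2
    · exact ⟨_, by simp, hx2⟩
    · obtain ⟨p, hp, hxp⟩ := hcon x hx hx2
      exact ⟨p, by simp [hp], hxp⟩
  rw [Ideal.subset_union_prime (IsLocalRing.maximalIdeal R ^ 2) (IsLocalRing.maximalIdeal R ^ 2)
    (by
      intro p hp hp1 _
      rw [Finset.mem_insert, Set.Finite.mem_toFinset] at hp
      rcases hp with h | h
      · exact absurd h hp1
      · exact h.1.1)] at h1
  obtain ⟨p, hp, hle⟩ := h1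
  rw [Finset.mem_insert, Set.Finite.mem_toFinset] at hp
  rcases hp with h | h
  · rw [h] at hle
    have hbot : IsLocalRing.maximalIdeal R = ⊥ := by
      refine Submodule.eq_bot_of_le_smul_of_le_jacobson_bot (IsLocalRing.maximalIdeal R) _
        (IsNoetherian.noetherian _) (by
          rw [id, pow_two] at hle
          exact hle)
        (IsLocalRing.jacobson_eq_maximalIdeal ⊥ bot_ne_top).ge
    exact hpos (ringKrullDim_eq_zero_of_isField (IsLocalRing.isField_iff_maximalIdeal_eq.2 hbot))
  · have hpp : p.IsPrime := h.1.1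
    have h2 : IsLocalRing.maximalIdeal R = p :=
      le_antisymm hle (IsLocalRing.le_maximalIdeal hpp.ne_top)
    rw [← h2, ← Ideal.height_eq_zero_iff] at h
    refine hpos ?_
    rw [← IsLocalRing.maximalIdeal_height_eq_ringKrullDim, h]
    rfl

theorem isDomain_of_regular (n : ℕ) {R : Type u} [CommRing R] [IsNoetherianRing R]
    [IsLocalRing R] (z : Fin n → R)
    (hz : IsLocalRing.maximalIdeal R = Ideal.span (Set.range z))
    (hdim : ((n : ℕ) : WithBot ℕ∞) ≤ ringKrullDim R) : IsDomain R := by
  induction n generalizing R with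
  | zero =>
    have hm : IsLocalRing.maximalIdeal R = ⊥ := by
      rw [hz, Set.range_eq_empty, Ideal.span_empty]
    exact (IsLocalRing.isField_iff_maximalIdeal_eq.2 hm).isDomain
  | succ n ih =>
    classical
    have hpos : ringKrullDim R ≠ 0 := by
      intro h0
      rw [h0] at hdim
      have h1 : ((n + 1 : ℕ) : WithBot ℕ∞) ≤ ((0 : ℕ) : WithBot ℕ∞) := hdim
      have h2 : n + 1 ≤ 0 := by exact_mod_cast h1
      omega
    obtain ⟨x, hxm, hx2, hxp⟩ := exists_good (R := R) hpos
    -- a unit coefficient
    have hx' := hxm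
    rw [hz, Ideal.mem_span_range_iff_exists_fun] at hx'
    obtain ⟨c, hc⟩ := hx'
    have hzm : ∀ j, z j ∈ IsLocalRing.maximalIdeal R := fun j => by
      rw [hz]; exact Ideal.subset_span ⟨j, rfl⟩
    obtain ⟨i, hi⟩ : ∃ i, IsUnit (c i) := by
      by_contra hcon
      push Not at hcon
      refine hx2 ?_
      rw [← hc, pow_two]
      exact Ideal.sum_mem _ fun j _ => Ideal.mul_mem_mul
        ((IsLocalRing.mem_maximalIdeal _).2 (hcon j)) (hzm j)
    -- the quotient
    have hne : Ideal.span {x} ≤ IsLocalRing.maximalIdeal R := by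
      rw [Ideal.span_le, Set.singleton_subset_iff]; exact hxm
    have hnt : Ideal.span {x} ≠ ⊤ := fun h => by
      rw [h, top_le_iff] at hne
      exact (IsLocalRing.maximalIdeal.isMaximal R).ne_top hne
    have hN : Nontrivial (R ⧸ Ideal.span {x}) := Ideal.Quotient.nontrivial_iff.2 hnt
    have hsurj : Function.Surjective (Ideal.Quotient.mk (Ideal.span {x})) :=
      Ideal.Quotient.mk_surjective
    have hL : IsLocalRing (R ⧸ Ideal.span {x}) := IsLocalRing.of_surjective' _ hsurj
    have hLH : IsLocalHom (Ideal.Quotient.mk (Ideal.span {x})) :=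
      IsLocalHom.of_surjective _ hsurj
    have hmax : IsLocalRing.maximalIdeal (R ⧸ Ideal.span {x}) =
        Ideal.span (Set.range fun j : Fin n => Ideal.Quotient.mk (Ideal.span {x})
          (z (i.succAbove j))) := by
      have h1 : IsLocalRing.maximalIdeal (R ⧸ Ideal.span {x}) =
          (IsLocalRing.maximalIdeal R).map (Ideal.Quotient.mk (Ideal.span {x})) := by
        rw [← IsLocalRing.maximalIdeal_comap (Ideal.Quotient.mk (Ideal.span {x})),
          Ideal.map_comap_of_surjective _ hsurj]
      rw [h1, hz, Ideal.map_span]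
      apply le_antisymm
      · rw [Ideal.span_le]
        rintro _ ⟨_, ⟨j, rfl⟩, rfl⟩
        have h2 : ∀ j : Fin n, Ideal.Quotient.mk (Ideal.span {x}) (z (i.succAbove j)) ∈
            Ideal.span (Set.range fun j : Fin n => Ideal.Quotient.mk (Ideal.span {x})
              (z (i.succAbove j))) := fun j => Ideal.subset_span ⟨j, rfl⟩
        rcases Fin.eq_self_or_eq_succAbove i j with h | ⟨j', h⟩
        · have hx1 : c i * z i + ∑ j : Fin n, c (i.succAbove j) * z (i.succAbove j) = x := by
            rw [← hc, Fin.sum_univ_succAbove _ i]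
          have hx0 : Ideal.Quotient.mk (Ideal.span {x}) (c i * z i) +
              ∑ j : Fin n, Ideal.Quotient.mk (Ideal.span {x})
                (c (i.succAbove j) * z (i.succAbove j)) = 0 := by
            rw [← map_sum, ← map_add, hx1, Ideal.Quotient.eq_zero_iff_mem]
            exact Ideal.mem_span_singleton_self x
          obtain ⟨u, hu⟩ := hi
          have h3 : Ideal.Quotient.mk (Ideal.span {x}) (z i) =
              Ideal.Quotient.mk (Ideal.span {x}) ((u⁻¹ : Rˣ) : R) * (-∑ j : Fin n,
                Ideal.Quotient.mk (Ideal.span {x}) (c (i.succAbove j) * z (i.succAbove j))) := by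
            rw [← eq_neg_iff_add_eq_zero] at hx0
            rw [← hx0, ← map_mul, ← hu, ← mul_assoc, Units.inv_mul, one_mul]
          rw [h]
          change _ ∈ Ideal.span _
          rw [h3]
          refine Ideal.mul_mem_left _ _ (neg_mem (Ideal.sum_mem _ fun j _ => ?_))
          rw [map_mul]
          exact Ideal.mul_mem_left _ _ (h2 j)
        · rw [h]
          exact h2 j'
      · rw [Ideal.span_le]
        rintro _ ⟨j, rfl⟩
        exact Ideal.subset_span ⟨_, ⟨_, rfl⟩, rfl⟩
    have hdim' : ((n : ℕ) : WithBot ℕ∞) ≤ ringKrullDim (R ⧸ Ideal.span {x}) := by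
      have h1 := ringKrullDim_le_ringKrullDim_quotient_add_card (R := R) {x} (by
        rw [Finset.coe_singleton, Set.singleton_subset_iff]
        rw [IsLocalRing.ringJacobson_eq_maximalIdeal]
        exact hxm)
      rw [Finset.coe_singleton, Finset.card_singleton] at h1
      have h2 := hdim.trans h1
      generalize ringKrullDim (R ⧸ Ideal.span {x}) = d at h2 ⊢
      induction d with
      | bot => simp at h2
      | coe d =>
        induction d with
        | top => exact le_top
        | coe d =>
          have h3 : n + 1 ≤ d + 1 := by exact_mod_cast h2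
          exact_mod_cast (by omega : n ≤ d)
    have hD := ih _ hmax hdim'
    have hprime : (Ideal.span {x}).IsPrime := (Ideal.Quotient.isDomain_iff_prime _).1 hD
    obtain ⟨p, hp, hpx⟩ := Ideal.exists_minimalPrimes_le (I := (⊥ : Ideal R)) (J := Ideal.span {x})
      bot_le
    have hpp : p.IsPrime := hp.1.1
    have hpbot : p = ⊥ := by
      refine Submodule.eq_bot_of_le_smul_of_le_jacobson_bot (IsLocalRing.maximalIdeal R) p
        (IsNoetherian.noetherian p) (fun y hy => ?_)
        (IsLocalRing.jacobson_eq_maximalIdeal ⊥ bot_ne_top).ge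
      obtain ⟨r, hr⟩ := Ideal.mem_span_singleton'.1 (hpx hy)
      have hr' : r ∈ p := by
        rcases hpp.mem_or_mem (hr ▸ hy : r * x ∈ p) with h | h
        · exact h
        · exact absurd h (hxp p hp)
      rw [← hr, mul_comm]
      exact Ideal.mul_mem_mul hxm hr'
    rw [hpbot] at hpp
    exact IsDomain.of_bot_isPrime R

end Pool.Agent.LUC
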