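import Pool.Agent.Lib.LUC.Loc
import Pool.Agent.Lib.LUC.C2
import Pool.Agent.Lib.LUC.C3

/-! # D1: a ring with enough truncations is contained in the field

Recipe (end of 2.1 (b) of l15_cp_h16.md). `N = {d | VPos w (ψ d)}` is a prime ideal of `D`; its complement is
`{d | ψ d ≠ 0 ∧ w (ψ d) = 0}`. `D₁ = Localization.AtPrime N` is local and noetherian. By `hgen` its maximal ideal is
generated by the `n` images of the `z i`. The `τ M` extend to `τ₁ M : D₁ → O₀ / m^M` (`hunit`,
`IsLocalization.lift`), surjective by `hsurj`. `dim_le_of_tau`: `n = dim O₀ ≤ dim D₁`; `isDomain_of_regular`: `D₁` is a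
domain. `ψ` extends to `ψ₁ : D₁ → Ω`. `halg` for `D₁`: `ψ₁` is injective: let `ψ₁ y = 0`, `y ≠ 0`; `y = d / s`, so
`y' = j d ≠ 0`, `ψ d = 0`; `P ≠ 0` over `B` with `P(y') = 0`; divide `P` by the largest power of `X`
(`D₁` is a domain, `y' ≠ 0`), so `P.coeff 0 ≠ 0`; apply `ψ₁`: `ψ (ι (P.coeff 0)) = 0`, against `hinj`.
The range of `ψ₁` is `lv w ψ.range`: `D₁ ≃ lv w ψ.range` (`RingEquiv.ofBijective`), and the `τ₁ M` composed with
the inverse show `Tau`. -/

set_option autoImplicit false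

namespace Pool.Agent.LUC

open Pool.Agent.H15JM (RVal)
open Pool.Agent.LU1 (VPos)

universe u

theorem tau_of_ring {Ω D O₀ B : Type u} [Field Ω] (w : RVal Ω) [CommRing D] [IsNoetherianRing D]
    [CommRing O₀] [IsNoetherianRing O₀] [IsLocalRing O₀] [CommRing B] [IsDomain B] (ψ : D →+* Ω)
    (hnn : ∀ d, w.Ge 0 (ψ d)) {n : ℕ} (z : Fin n → D) (hz : ∀ i, VPos w (ψ (z i)))
    (hgen : ∀ d, VPos w (ψ d) →
      ∃ s, ψ s ≠ 0 ∧ w (ψ s) = 0 ∧ s * d ∈ Ideal.span (Set.range z))
    (hdim : ringKrullDim O₀ = n) (τ : ∀ M : ℕ, D →+* O₀ ⧸ IsLocalRing.maximalIdeal O₀ ^ M)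
    (hunit : ∀ M d, ψ d ≠ 0 → w (ψ d) = 0 → IsUnit (τ M d))
    (hsurj : ∀ M (c : O₀ ⧸ IsLocalRing.maximalIdeal O₀ ^ M),
      ∃ d s, ψ s ≠ 0 ∧ w (ψ s) = 0 ∧ τ M s * c = τ M d)
    (ι : B →+* D) (hinj : Function.Injective (ψ.comp ι))
    (halg : ∀ (D₁ : Type u) [CommRing D₁] [IsDomain D₁] (j : D →+* D₁),
      (∀ d, ψ d ≠ 0 → w (ψ d) = 0 → IsUnit (j d)) →
      ∀ d : D, ∃ P : Polynomial B, P ≠ 0 ∧ P.eval₂ (j.comp ι) (j d) = 0) :
    Tau (lv w ψ.range) n := by
  classical
  -- the prime ideal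
  let N : Ideal D :=
    { carrier := {d | VPos w (ψ d)}
      add_mem' := fun {a b} ha hb => by
        change VPos w (ψ (a + b))
        rw [map_add]
        exact VPos.add ha hb
      zero_mem' := by
        change VPos w (ψ 0)
        rw [map_zero]
        exact VPos.zero
      smul_mem' := fun c a ha => by
        change VPos w (ψ (c * a))
        rw [map_mul]
        exact VPos.mul' (hnn c) ha }
  have hN : ∀ d, d ∈ N ↔ VPos w (ψ d) := fun d => Iff.rfl
  have hNc : ∀ d, d ∉ N ↔ ψ d ≠ 0 ∧ w (ψ d) = 0 := by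
    intro d
    rw [hN]
    constructor
    · intro h
      have h0 : ψ d ≠ 0 := fun h1 => h (by rw [h1]; exact VPos.zero)
      refine ⟨h0, le_antisymm (not_lt.1 fun h1 => h fun _ => h1) (hnn d h0)⟩
    · rintro ⟨h0, h1⟩ h
      exact (h h0).ne' h1
  have hNp : N.IsPrime := by
    refine ⟨?_, ?_⟩
    · intro h
      have h1 : (1 : D) ∈ N := by rw [h]; trivial
      have h2 := (hN 1).1 h1
      rw [map_one] at h2
      exact (h2 one_ne_zero).ne' w.map_one
    · intro a b hab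
      by_contra hcon
      rw [not_or] at hcon
      have h1 := (hNc a).1 hcon.1
      have h2 := (hNc b).1 hcon.2
      refine absurd hab ((hNc _).2 ?_)
      rw [map_mul]
      exact ⟨mul_ne_zero h1.1 h2.1, by rw [w.map_mul h1.1 h2.1, h1.2, h2.2, add_zero]⟩
  let D₁ := Localization.AtPrime N
  let i : D →+* D₁ := algebraMap D D₁
  have hiu : ∀ d, ψ d ≠ 0 → w (ψ d) = 0 → IsUnit (i d) := fun d h0 h1 =>
    IsLocalization.map_units D₁ (⟨d, (hNc d).2 ⟨h0, h1⟩⟩ : N.primeCompl)
  have hnoeth : IsNoetherianRing D₁ := IsLocalization.isNoetherianRing N.primeCompl D₁ inferInstance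
  -- the extension of `ψ`
  have hψu : ∀ y : N.primeCompl, IsUnit (ψ y) := fun y =>
    isUnit_iff_ne_zero.2 ((hNc y).1 y.2).1
  let ψ₁ : D₁ →+* Ω := IsLocalization.lift hψu
  have hψ₁ : ∀ d, ψ₁ (i d) = ψ d := fun d => IsLocalization.lift_eq hψu d
  -- the extension of `τ`
  have hτu : ∀ M (y : N.primeCompl), IsUnit (τ M y) := fun M y =>
    hunit M y ((hNc y).1 y.2).1 ((hNc y).1 y.2).2
  let τ₁ : ∀ M, D₁ →+* O₀ ⧸ IsLocalRing.maximalIdeal O₀ ^ M := fun M =>
    IsLocalization.lift (hτu M)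
  have hτ₁ : ∀ M d, τ₁ M (i d) = τ M d := fun M d => IsLocalization.lift_eq (hτu M) d
  have hτs : ∀ M, Function.Surjective (τ₁ M) := by
    intro M c
    obtain ⟨d, s, hs0, hs1, hds⟩ := hsurj M c
    obtain ⟨v, hv⟩ := hiu s hs0 hs1
    refine ⟨i d * (↑v⁻¹ : D₁), ?_⟩
    have h1 : τ₁ M (i s) * τ₁ M (↑v⁻¹ : D₁) = 1 := by
      rw [← map_mul, ← hv, Units.mul_inv, map_one]
    rw [hτ₁] at h1
    rw [map_mul, hτ₁, ← hds]
    calc τ M s * c * τ₁ M (↑v⁻¹ : D₁) = (τ M s * τ₁ M (↑v⁻¹ : D₁)) * c := by ring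
      _ = c := by rw [h1, one_mul]
  -- the maximal ideal
  have hmax : IsLocalRing.maximalIdeal D₁ = Ideal.span (Set.range fun k => i (z k)) := by
    apply le_antisymm
    · intro y hy
      obtain ⟨d, s, rfl⟩ := IsLocalization.exists_mk'_eq N.primeCompl y
      have hd : d ∈ N := (IsLocalization.AtPrime.mk'_mem_maximal_iff D₁ N d s).1 hy
      obtain ⟨s', hs0, hs1, hsd⟩ := hgen d hd
      have h1 : i (s' * d) ∈ Ideal.span (Set.range fun k => i (z k)) := by
        have h2 := Ideal.mem_map_of_mem i hsd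
        rw [Ideal.map_span] at h2
        refine Ideal.span_mono ?_ h2
        rintro _ ⟨_, ⟨k, rfl⟩, rfl⟩
        exact ⟨k, rfl⟩
      rw [map_mul, Ideal.unit_mul_mem_iff_mem _ (hiu s' hs0 hs1)] at h1
      have h3 : IsLocalization.mk' D₁ d s = i d * IsLocalization.mk' D₁ 1 s := by
        rw [IsLocalization.mul_mk'_eq_mk'_of_mul, mul_one]
      rw [h3]
      exact Ideal.mul_mem_right _ _ h1
    · rw [Ideal.span_le]
      rintro _ ⟨k, rfl⟩
      exact (IsLocalization.AtPrime.to_map_mem_maximal_iff D₁ N (z k)).2 (hz k)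
  have hdim1 : ((n : ℕ) : WithBot ℕ∞) ≤ ringKrullDim D₁ := by
    rw [← hdim]
    exact dim_le_of_tau fun M => ⟨τ₁ M, hτs M⟩
  have hdom : IsDomain D₁ := isDomain_of_regular n (fun k => i (z k)) hmax hdim1
  -- injectivity
  have hker : ∀ d, ψ d = 0 → i d = 0 := by
    intro d hd
    by_contra hid
    obtain ⟨P, hP, hPd⟩ := halg D₁ i hiu d
    have key : ∀ (k : ℕ) (P : Polynomial B), P.natDegree ≤ k → P ≠ 0 →
        P.eval₂ (i.comp ι) (i d) = 0 → False := by
      intro k
      induction k with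
      | zero =>
        intro P hk hP hPd
        have h1 : P.coeff 0 ≠ 0 := by
          intro h0
          refine hP ?_
          rw [Polynomial.eq_C_of_natDegree_le_zero hk, h0, Polynomial.C_0]
        have h2 : ψ₁ (P.eval₂ (i.comp ι) (i d)) = 0 := by rw [hPd, map_zero]
        rw [Polynomial.hom_eval₂, hψ₁, hd, Polynomial.eval₂_at_zero] at h2
        have h3 : (ψ.comp ι) (P.coeff 0) = 0 := by
          rw [← h2]
          exact (hψ₁ _).symm
        exact h1 (hinj (h3.trans (map_zero _).symm))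
      | succ k ih =>
        intro P hk hP hPd
        by_cases h0 : P.coeff 0 = 0
        · have h1 : Polynomial.X * P.divX = P := by
            have h2 := Polynomial.X_mul_divX_add P
            rw [h0, Polynomial.C_0, add_zero] at h2
            exact h2
          refine ih P.divX ?_ ?_ ?_
          · rw [Polynomial.natDegree_divX_eq_natDegree_tsub_one]
            omega
          · intro h2
            rw [h2, mul_zero] at h1
            exact hP h1.symm
          · rw [← h1, Polynomial.eval₂_mul, Polynomial.eval₂_X] at hPd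
            exact (mul_eq_zero.1 hPd).resolve_left hid
        · have h2 : ψ₁ (P.eval₂ (i.comp ι) (i d)) = 0 := by rw [hPd, map_zero]
          rw [Polynomial.hom_eval₂, hψ₁, hd, Polynomial.eval₂_at_zero] at h2
          have h3 : (ψ.comp ι) (P.coeff 0) = 0 := by
            rw [← h2]
            exact (hψ₁ _).symm
          exact h0 (hinj (h3.trans (map_zero _).symm))
    exact key P.natDegree P le_rfl hP hPd
  have hψinj : Function.Injective ψ₁ := by
    rw [injective_iff_map_eq_zero]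
    intro y hy
    obtain ⟨d, s, rfl⟩ := IsLocalization.exists_mk'_eq N.primeCompl y
    have h3 : IsLocalization.mk' D₁ d s = i d * IsLocalization.mk' D₁ 1 s := by
      rw [IsLocalization.mul_mk'_eq_mk'_of_mul, mul_one]
    have h4 : i s * IsLocalization.mk' D₁ 1 s = 1 := by
      have h5 := IsLocalization.mk'_spec D₁ 1 s
      rw [map_one] at h5
      rw [mul_comm]
      exact h5
    have h5 : ψ d = 0 := by
      have h6 : ψ₁ (IsLocalization.mk' D₁ d s) * ψ₁ (i s) = 0 := by rw [hy, zero_mul]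
      rw [← map_mul] at h6
      have h7 : IsLocalization.mk' D₁ d s * i s = i d := IsLocalization.mk'_spec D₁ d s
      rw [h7, hψ₁] at h6
      exact h6
    rw [h3, hker d h5, zero_mul]
  -- the range
  have hmem : ∀ y, ψ₁ y ∈ lv w ψ.range := by
    intro y
    obtain ⟨d, s, rfl⟩ := IsLocalization.exists_mk'_eq N.primeCompl y
    have hs := (hNc s).1 s.2
    refine ⟨ψ d, ⟨d, rfl⟩, ψ s, ⟨s, rfl⟩, hs.1, hs.2, ?_⟩
    rw [eq_div_iff hs.1, ← hψ₁ s, ← map_mul]
    have h7 : IsLocalization.mk' D₁ d s * i s = i d := IsLocalization.mk'_spec D₁ d s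
    rw [h7, hψ₁]
  let φ : D₁ →+* lv w ψ.range := ψ₁.codRestrict _ hmem
  have hφ : Function.Bijective φ := by
    constructor
    · intro a b hab
      exact hψinj (congrArg (fun y : lv w ψ.range => (y : Ω)) hab)
    · rintro ⟨f, a, ⟨d, rfl⟩, b, ⟨s, rfl⟩, hb0, hb1, rfl⟩
      obtain ⟨v, hv⟩ := hiu s hb0 hb1
      refine ⟨i d * (↑v⁻¹ : D₁), ?_⟩
      apply Subtype.ext
      change ψ₁ (i d * (↑v⁻¹ : D₁)) = ψ d / ψ s
      rw [eq_div_iff hb0, ← hψ₁ s, ← map_mul, ← hv, mul_assoc, Units.inv_mul, mul_one, hψ₁]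
  let e : D₁ ≃+* lv w ψ.range := RingEquiv.ofBijective φ hφ
  exact ⟨O₀, inferInstance, inferInstance, inferInstance, hdim, fun M =>
    ⟨(τ₁ M).comp (e.symm : lv w ψ.range →+* D₁), (hτs M).comp e.symm.surjective⟩⟩

end Pool.Agent.LUC
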