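import Pool.Agent.Lib.LUC.Loc

/-! # C6: the ring homomorphisms `S → O / I^M` -/

set_option autoImplicit false

namespace Pool.Agent.LUC

open Pool.Agent.H15JM (RVal)
open Pool.Agent.LU1 (VPos)

universe u

variable {Ω : Type u} [Field Ω] {w : RVal Ω} {R₀ S : Subring Ω} {m : ℕ} {x : Fin m → Ω}

theorem Base.adj_le (hB : Base w R₀ S x) : adj R₀ (Set.range x) ≤ S :=
  LUC.adj_le hB.le (by rintro _ ⟨i, rfl⟩; exact hB.mem i)

/-- The powers of the ideal of the parameters map into the powers of `I`. -/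
private theorem map_mem {O : Type u} [CommRing O] (I : Ideal O)
    (φ : adj R₀ (Set.range x) →+* O)
    (hφ : ∀ i, φ ⟨x i, mem_adj ⟨i, rfl⟩⟩ ∈ I) {M : ℕ} {r : adj R₀ (Set.range x)}
    (hr : r ∈ idl (adj R₀ (Set.range x)) x ^ M) : φ r ∈ I ^ M := by
  have h1 : (idl (adj R₀ (Set.range x)) x).map φ ≤ I := by
    rw [idl, Ideal.map_span, Ideal.span_le]
    rintro _ ⟨b, ⟨i, hi⟩, rfl⟩
    have e : b = ⟨x i, mem_adj ⟨i, rfl⟩⟩ := Subtype.ext hi
    rw [e]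
    exact hφ i
  have h2 : φ r ∈ ((idl (adj R₀ (Set.range x)) x).map φ) ^ M := by
    rw [← Ideal.map_pow]
    exact Ideal.mem_map_of_mem _ hr
  exact Ideal.pow_right_mono h1 M h2

theorem exists_theta (hB : Base w R₀ S x) {O : Type u} [CommRing O] (I : Ideal O)
    (φ : adj R₀ (Set.range x) →+* O)
    (hφ : ∀ i, φ ⟨x i, mem_adj ⟨i, rfl⟩⟩ ∈ I) (M : ℕ) :
    ∃ θ : S →+* O ⧸ I ^ M, ∀ r : adj R₀ (Set.range x),
      θ ⟨r, hB.adj_le r.2⟩ = Ideal.Quotient.mk (I ^ M) (φ r) := by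
  obtain ⟨α, hα⟩ : ∃ α : adj R₀ (Set.range x) →+* S ⧸ idl S x ^ M,
      α = (Ideal.Quotient.mk (idl S x ^ M)).comp (Subring.inclusion hB.adj_le) := ⟨_, rfl⟩
  obtain ⟨β, hβ⟩ : ∃ β : adj R₀ (Set.range x) →+* O ⧸ I ^ M,
      β = (Ideal.Quotient.mk (I ^ M)).comp φ := ⟨_, rfl⟩
  have hsurj : Function.Surjective α := by
    intro y
    obtain ⟨s, rfl⟩ := Ideal.Quotient.mk_surjective y
    obtain ⟨r, hr, hsr⟩ := IP.approx hB.adj_le (fun i => mem_adj ⟨i, rfl⟩) (fun f hf => by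
      obtain ⟨r, hr, h⟩ := hB.dec f hf
      exact ⟨r, base_le_adj _ _ hr, h⟩) M (s : Ω) s.2
    refine ⟨⟨r, hr⟩, ?_⟩
    rw [hα, RingHom.comp_apply, eq_comm, Ideal.Quotient.mk_eq_mk_iff_sub_mem]
    obtain ⟨g, hg, hg'⟩ := hsr
    have e : s - Subring.inclusion hB.adj_le ⟨r, hr⟩ = g := Subtype.ext hg.symm
    rw [e]
    exact hg'
  have hker : RingHom.ker α ≤ RingHom.ker β := by
    intro r hr
    rw [RingHom.mem_ker, hα, RingHom.comp_apply, Ideal.Quotient.eq_zero_iff_mem] at hr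
    rw [RingHom.mem_ker, hβ, RingHom.comp_apply, Ideal.Quotient.eq_zero_iff_mem]
    have h1 : IP S x M (r : Ω) := ⟨_, rfl, hr⟩
    exact map_mem I φ hφ ((IP.iff_mem r.2).1 (hB.cap M r r.2 h1))
  refine ⟨(RingHom.liftOfRightInverse α (Function.surjInv hsurj)
    (Function.rightInverse_surjInv hsurj) ⟨β, hker⟩).comp (Ideal.Quotient.mk (idl S x ^ M)),
    fun r => ?_⟩
  have h1 := RingHom.liftOfRightInverse_comp_apply α (Function.surjInv hsurj)
    (Function.rightInverse_surjInv hsurj) ⟨β, hker⟩ r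
  have h2 : Ideal.Quotient.mk (idl S x ^ M) ⟨r, hB.adj_le r.2⟩ = α r := by
    rw [hα]
    rfl
  rw [RingHom.comp_apply, h2, h1]
  show β r = _
  rw [hβ]
  rfl

end Pool.Agent.LUC
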