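import Pool.Agent.Lib.LUC.DDefs
import Pool.Agent.Lib.LUC.C6

/-! # D2: construction of the auxiliary ring `D`

Recipe. `A₀ = adj R₀ F`, `O₀ = lv w A₀`, `m₀` its maximal ideal (`mem_max_iff` in `Loc.lean`: the elements of positive value),
`E = Ω × (∀ M : ℕ, O₀ ⧸ m₀ ^ M)`. `κ a = (a, fun M => mk a)`, `σ s = (s, fun M => θ M s)` with `θ M` from `exists_theta` for
`O = O₀`, `I = m₀`, `φ` = the inclusion of `adj R₀ (range x)` in `A₀ ≤ O₀`. `D' = Subring.closure (range κ ∪ range σ)`.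
(1) Every `d ∈ D'` has an `a ∈ O₀` with `VPos w (d.1 - a)` and `IsNilpotent (d.2 M - mk a)` for all `M`
(`Subring.closure_induction`): `κ a`: clear; `σ s`: `s = r + (x) S`, `r ∈ R₀` (`Base.dec`, `IP.one_iff`), `σ (x i) = κ (x i)` and
`mk (x i)` is nilpotent (elements of `m₀` are nilpotent in `O₀ ⧸ m₀^M`), so `a = r`; sums and products (use that
`w ≥ 0` on `d.1` and on `a`; nilpotent elements are closed under sums and multiples). So for `d ∈ D'`: if `VPos w d.1` then
`VPos w a`, `d.2 M` is nilpotent; if `d.1 ≠ 0`, `w d.1 = 0` then `a` is a unit of `O₀` and `d.2 M` is a unit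
(unit + nilpotent).
(2) `adj S F` is the image of `D'` under the first projection: choose for every `i` a `P i ∈ D'` over `H.coeff i` (`0` if
`H.coeff i = 0`), `P : Polynomial E` the polynomial with these coefficients (`∑ i ∈ H.support, C (P i) * X^i`).
(3) for every `M` the image `P_M` of `P` over `O₀ ⧸ m₀^M` has a nilpotent root:
`Polynomial.existsUnique_nilpotent_sub_and_aeval_eq_zero` at `x = 0` (`P_M(0)` nilpotent, `P_M'(0)` a unit).
`U = (u, fun M => root)`, a root of `P` in `E`. `D = Subring.closure (range κ ∪ range σ ∪ {U})` as a type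
(universe `u`); `κ`, `σ`, `U`, `P` are taken with values in it, `ψ` and `τ M` are the projections. -/

set_option autoImplicit false

namespace Pool.Agent.LUC

open Pool.Agent.H15JM (RVal)
open Pool.Agent.LU1 (VPos)
open Polynomial

universe u

variable {Ω : Type u} [Field Ω] {w : RVal Ω} {R₀ S : Subring Ω} {m e n : ℕ} {x : Fin m → Ω}
  {t : Fin e → Ω} {F : Finset Ω} {z : Fin n → Ω} {u : Ω} {H : Polynomial Ω}

namespace D2

/-- The truncations. -/
private abbrev Tr (w : RVal Ω) (A : Subring Ω) [IsLocalRing (lv w A)] (M : ℕ) : Type u :=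
  lv w A ⧸ IsLocalRing.maximalIdeal (lv w A) ^ M

/-- The big ring. -/
private abbrev EE (w : RVal Ω) (A : Subring Ω) [IsLocalRing (lv w A)] : Type u :=
  Ω × (∀ M : ℕ, Tr w A M)

variable {A : Subring Ω} [IsLocalRing (lv w A)]

/-- The projections to the truncations. -/
private noncomputable def pr (M : ℕ) : EE w A →+* Tr w A M :=
  (Pi.evalRingHom (fun M => Tr w A M) M).comp (RingHom.snd Ω (∀ M : ℕ, Tr w A M))

private noncomputable def kap : A →+* EE w A :=
  RingHom.prod A.subtype (RingHom.pi fun M => (Ideal.Quotient.mk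
    (IsLocalRing.maximalIdeal (lv w A) ^ M)).comp (Subring.inclusion (le_lv w A)))

private noncomputable def sgm (θ : ∀ M : ℕ, S →+* Tr w A M) : S →+* EE w A :=
  RingHom.prod S.subtype (RingHom.pi θ)

private theorem nil_mk {a : lv w A} (ha : a ∈ IsLocalRing.maximalIdeal (lv w A)) (M : ℕ) :
    IsNilpotent (Ideal.Quotient.mk (IsLocalRing.maximalIdeal (lv w A) ^ M) a) := by
  refine ⟨M, ?_⟩
  rw [← map_pow, Ideal.Quotient.eq_zero_iff_mem]
  exact Ideal.pow_mem_pow ha M

/-- Elements which are close to an element of the local ring. -/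
private def Gd (d : EE w A) : Prop :=
  w.Ge 0 d.1 ∧ ∃ a : lv w A, VPos w (d.1 - (a : Ω)) ∧
    ∀ M, IsNilpotent (pr M d - Ideal.Quotient.mk (IsLocalRing.maximalIdeal (lv w A) ^ M) a)

private theorem Gd.zero : Gd (0 : EE w A) := by
  refine ⟨RVal.Ge.zero, 0, ?_, fun M => ?_⟩
  · simpa using VPos.zero
  · rw [map_zero, map_zero, sub_zero]
    exact IsNilpotent.zero

private theorem Gd.one : Gd (1 : EE w A) := by
  refine ⟨fun _ => w.map_one.ge, 1, ?_, fun M => ?_⟩
  · simpa using VPos.zero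
  · rw [map_one, map_one, sub_self]
    exact IsNilpotent.zero

private theorem Gd.add {d d' : EE w A} (h : Gd d) (h' : Gd d') : Gd (d + d') := by
  obtain ⟨h0, a, ha, hM⟩ := h
  obtain ⟨h0', a', ha', hM'⟩ := h'
  refine ⟨h0.add h0', a + a', ?_, fun M => ?_⟩
  · have e : (d + d').1 - ((a + a' : lv w A) : Ω) = (d.1 - a) + (d'.1 - a') := by
      rw [Prod.fst_add, Subring.coe_add]
      ring
    rw [e]
    exact ha.add ha'
  · rw [map_add, map_add]
    have e : pr M d + pr M d' - (Ideal.Quotient.mk (IsLocalRing.maximalIdeal (lv w A) ^ M) a +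
        Ideal.Quotient.mk (IsLocalRing.maximalIdeal (lv w A) ^ M) a') =
        (pr M d - Ideal.Quotient.mk (IsLocalRing.maximalIdeal (lv w A) ^ M) a) +
        (pr M d' - Ideal.Quotient.mk (IsLocalRing.maximalIdeal (lv w A) ^ M) a') := by ring
    rw [e]
    exact (Commute.all _ _).isNilpotent_add (hM M) (hM' M)

private theorem Gd.neg {d : EE w A} (h : Gd d) : Gd (-d) := by
  obtain ⟨h0, a, ha, hM⟩ := h
  refine ⟨h0.neg, -a, ?_, fun M => ?_⟩
  · have e : (-d).1 - ((-a : lv w A) : Ω) = -(d.1 - a) := by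
      rw [Prod.fst_neg, Subring.coe_neg]
      ring
    rw [e]
    exact ha.neg
  · rw [map_neg, map_neg]
    have e : -pr M d - -(Ideal.Quotient.mk (IsLocalRing.maximalIdeal (lv w A) ^ M) a) =
        -(pr M d - Ideal.Quotient.mk (IsLocalRing.maximalIdeal (lv w A) ^ M) a) := by ring
    rw [e]
    exact (hM M).neg

private theorem Gd.mul (hA : ∀ f ∈ A, w.Ge 0 f) {d d' : EE w A} (h : Gd d) (h' : Gd d') :
    Gd (d * d') := by
  obtain ⟨h0, a, ha, hM⟩ := h
  obtain ⟨h0', a', ha', hM'⟩ := h'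
  refine ⟨by simpa using h0.mul h0', a * a', ?_, fun M => ?_⟩
  · have e : (d * d').1 - ((a * a' : lv w A) : Ω) = d.1 * (d'.1 - a') + (d.1 - a) * a' := by
      rw [Prod.fst_mul, Subring.coe_mul]
      ring
    rw [e]
    exact (VPos.mul' h0 ha').add (ha.mul (lv_nonneg hA _ a'.2))
  · rw [map_mul, map_mul]
    have e : pr M d * pr M d' - Ideal.Quotient.mk (IsLocalRing.maximalIdeal (lv w A) ^ M) a *
        Ideal.Quotient.mk (IsLocalRing.maximalIdeal (lv w A) ^ M) a' =
        pr M d * (pr M d' - Ideal.Quotient.mk (IsLocalRing.maximalIdeal (lv w A) ^ M) a') +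
        (pr M d - Ideal.Quotient.mk (IsLocalRing.maximalIdeal (lv w A) ^ M) a) *
          Ideal.Quotient.mk (IsLocalRing.maximalIdeal (lv w A) ^ M) a' := by ring
    rw [e]
    exact (Commute.all _ _).isNilpotent_add ((Commute.all _ _).isNilpotent_mul_left (hM' M))
      ((Commute.all _ _).isNilpotent_mul_right (hM M))

private theorem Gd.nil (hA : ∀ f ∈ A, w.Ge 0 f) {d : EE w A} (h : Gd d) (hd : VPos w d.1)
    (M : ℕ) : IsNilpotent (pr M d) := by
  obtain ⟨-, a, ha, hM⟩ := h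
  have h1 : VPos w (a : Ω) := by
    have e : (a : Ω) = d.1 - (d.1 - a) := by ring
    rw [e]
    exact hd.sub ha
  have h2 := nil_mk ((mem_max_iff hA a).2 h1) M
  have e : pr M d = (pr M d - Ideal.Quotient.mk (IsLocalRing.maximalIdeal (lv w A) ^ M) a) +
      Ideal.Quotient.mk (IsLocalRing.maximalIdeal (lv w A) ^ M) a := by ring
  rw [e]
  exact (Commute.all _ _).isNilpotent_add (hM M) h2

private theorem Gd.unit {d : EE w A} (h : Gd d) (hd : d.1 ≠ 0) (hd' : w d.1 = 0)
    (M : ℕ) : IsUnit (pr M d) := by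
  obtain ⟨-, a, ha, hM⟩ := h
  have h1 : (a : Ω) ≠ 0 ∧ w (a : Ω) = 0 := by
    have e : (a : Ω) = d.1 + -(d.1 - a) := by ring
    rw [e]
    exact Pool.Agent.LU1.val_add_vpos hd hd' ha.neg
  have h2 : IsUnit a := lv_isUnit a h1.1 h1.2
  have h3 := h2.map (Ideal.Quotient.mk (IsLocalRing.maximalIdeal (lv w A) ^ M))
  have e : pr M d = Ideal.Quotient.mk (IsLocalRing.maximalIdeal (lv w A) ^ M) a +
      (pr M d - Ideal.Quotient.mk (IsLocalRing.maximalIdeal (lv w A) ^ M) a) := by ring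
  rw [e]
  exact (hM M).isUnit_add_left_of_commute h3 (Commute.all _ _)

private theorem Gd.kap (hA : ∀ f ∈ A, w.Ge 0 f) (a : A) : Gd (kap (w := w) a) := by
  refine ⟨hA a a.2, ⟨a, le_lv w A a.2⟩, ?_, fun M => ?_⟩
  · have e : (D2.kap (w := w) a).1 - (a : Ω) = 0 := sub_self _
    rw [e]
    exact VPos.zero
  · have e : pr M (D2.kap (w := w) a) =
        Ideal.Quotient.mk (IsLocalRing.maximalIdeal (lv w A) ^ M) ⟨a, le_lv w A a.2⟩ := rfl
    rw [e, sub_self]
    exact IsNilpotent.zero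

private theorem Gd.sgm (hA : ∀ f ∈ A, w.Ge 0 f) (hB : Base w R₀ S x)
    (hle : adj R₀ (Set.range x) ≤ A) {θ : ∀ M : ℕ, S →+* Tr w A M}
    (hθ : ∀ M, ∀ r : adj R₀ (Set.range x), θ M ⟨r, hB.adj_le r.2⟩ =
      Ideal.Quotient.mk (IsLocalRing.maximalIdeal (lv w A) ^ M)
        ⟨r, le_lv w A (hle r.2)⟩) (s : S) : Gd (sgm θ s) := by
  obtain ⟨r, hr, hsr⟩ := hB.dec s s.2
  have hr' : r ∈ adj R₀ (Set.range x) := base_le_adj R₀ _ hr
  refine ⟨hB.ge s s.2, ⟨r, le_lv w A (hle hr')⟩, ?_, fun M => ?_⟩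
  · exact hsr.vpos hB.ge (fun i _ => hB.pos i) hB.mem
  · obtain ⟨a, ha, hsa⟩ := (IP.one_iff hB.mem).1 hsr
    have hrS : r ∈ S := hB.le hr
    have e1 : s = ⟨r, hrS⟩ + ∑ i, (⟨a i, ha i⟩ : S) * ⟨x i, hB.mem i⟩ := by
      apply Subtype.ext
      rw [Subring.coe_add, AddSubmonoidClass.coe_finsetSum]
      show (s : Ω) = r + ∑ i, a i * x i
      rw [← hsa]
      ring
    have e2 : pr M (D2.sgm θ s) = θ M s := rfl
    rw [e2]
    have e3 : θ M s - Ideal.Quotient.mk (IsLocalRing.maximalIdeal (lv w A) ^ M)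
        ⟨r, le_lv w A (hle hr')⟩ = ∑ i, θ M ⟨a i, ha i⟩ * θ M ⟨x i, hB.mem i⟩ := by
      have e4 := congrArg (θ M) e1
      rw [map_add, map_sum] at e4
      simp only [map_mul] at e4
      rw [e4, ← hθ M ⟨r, hr'⟩]
      ring
    rw [e3, ← mem_nilradical]
    refine Ideal.sum_mem _ fun i _ => Ideal.mul_mem_left _ _ ?_
    rw [mem_nilradical]
    have hxi : x i ∈ adj R₀ (Set.range x) := mem_adj ⟨i, rfl⟩
    have e5 := hθ M ⟨x i, hxi⟩
    have e6 : θ M ⟨x i, hB.mem i⟩ = Ideal.Quotient.mk (IsLocalRing.maximalIdeal (lv w A) ^ M)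
        ⟨x i, le_lv w A (hle hxi)⟩ := e5
    rw [e6]
    exact nil_mk ((mem_max_iff hA _).2 fun _ => hB.pos i) M

end D2

open D2 in
theorem Sec2.exists_dring (h : Sec2 w R₀ S x t F z u H)
    [IsLocalRing (lv w (adj R₀ (F : Set Ω)))] :
    Nonempty (DRing w R₀ S (adj R₀ (F : Set Ω)) x u H) := by
  classical
  set A : Subring Ω := adj R₀ (F : Set Ω) with hAdef
  have hA : ∀ f ∈ A, w.Ge 0 f := h.ge'
  have hB := h.base
  have hle : adj R₀ (Set.range x) ≤ A := LUC.adj_le (base_le_adj R₀ _) (by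
    rintro _ ⟨i, rfl⟩
    exact h.x_mem i)
  -- the homs to the truncations
  have hth : ∀ M : ℕ, ∃ θ : S →+* Tr w A M, ∀ r : adj R₀ (Set.range x),
      θ ⟨r, hB.adj_le r.2⟩ = Ideal.Quotient.mk (IsLocalRing.maximalIdeal (lv w A) ^ M)
        ⟨r, le_lv w A (hle r.2)⟩ := by
    intro M
    obtain ⟨θ, hθ⟩ := exists_theta hB (IsLocalRing.maximalIdeal (lv w A))
      (Subring.inclusion (hle.trans (le_lv w A))) (fun i => by
        rw [mem_max_iff hA]
        exact fun _ => hB.pos i) M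
    exact ⟨θ, fun r => hθ r⟩
  choose θ hθ using hth
  set κ₀ : A →+* EE w A := kap with hκ₀
  set σ₀ : S →+* EE w A := sgm θ with hσ₀
  set D' : Subring (EE w A) := Subring.closure (Set.range κ₀ ∪ Set.range σ₀) with hD'
  have hgd : ∀ d ∈ D', Gd d := by
    intro d hd
    refine Subring.closure_induction (p := fun d _ => Gd d) ?_ Gd.zero Gd.one
      (fun _ _ _ _ h h' => h.add h') (fun _ _ h => h.neg) (fun _ _ _ _ h h' => h.mul hA h') hd
    rintro d (⟨a, rfl⟩ | ⟨s, rfl⟩)
    · exact Gd.kap hA a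
    · exact Gd.sgm hA hB hle hθ s
  have hsur : ∀ f ∈ adj S (F : Set Ω), ∃ d ∈ D', d.1 = f := by
    intro f hf
    refine adj_induction (R := S) (F := (F : Set Ω)) (p := fun f => ∃ d ∈ D', d.1 = f) ?_ ?_ ?_ ?_ hf
    · intro s hs
      exact ⟨σ₀ ⟨s, hs⟩, Subring.subset_closure (Or.inr ⟨_, rfl⟩), rfl⟩
    · intro g hg
      exact ⟨κ₀ ⟨g, mem_adj hg⟩, Subring.subset_closure (Or.inl ⟨_, rfl⟩), rfl⟩
    · rintro f g ⟨d, hd, rfl⟩ ⟨d', hd', rfl⟩
      exact ⟨d + d', D'.add_mem hd hd', rfl⟩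
    · rintro f g ⟨d, hd, rfl⟩ ⟨d', hd', rfl⟩
      exact ⟨d * d', D'.mul_mem hd hd', rfl⟩
  have hc : ∀ i, ∃ d ∈ D', d.1 = H.coeff i ∧ (H.coeff i = 0 → d = 0) := by
    intro i
    by_cases hi : H.coeff i = 0
    · exact ⟨0, D'.zero_mem, hi.symm, fun _ => rfl⟩
    · obtain ⟨d, hd, hd1⟩ := hsur _ (h.coeff i)
      exact ⟨d, hd, hd1, fun h => absurd h hi⟩
  choose c hcD hc1 hc0 using hc
  -- the polynomial
  set P₀ : Polynomial (EE w A) := ∑ i ∈ H.support, C (c i) * X ^ i with hP₀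
  have hP₀c : ∀ i, P₀.coeff i = c i := by
    intro i
    rw [hP₀, finsetSum_coeff]
    simp only [coeff_C_mul_X_pow]
    rw [Finset.sum_ite_eq]
    by_cases hi : i ∈ H.support
    · rw [if_pos hi]
    · rw [if_neg hi, hc0 i (notMem_support_iff.1 hi)]
  -- the roots
  have hroot : ∀ M : ℕ, ∃ r : Tr w A M, IsNilpotent r ∧ (P₀.map (pr M)).eval r = 0 := by
    intro M
    have h1 : IsNilpotent (aeval (0 : Tr w A M) (P₀.map (pr M))) := by
      rw [← coeff_zero_eq_aeval_zero, coeff_map, hP₀c]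
      exact (hgd _ (hcD 0)).nil hA (by rw [hc1]; exact h.H0) M
    have h2 : IsUnit (aeval (0 : Tr w A M) (derivative (P₀.map (pr M)))) := by
      rw [← coeff_zero_eq_aeval_zero, coeff_derivative, coeff_map, hP₀c]
      have h3 := (hgd _ (hcD 1)).unit (by rw [hc1]; exact h.H1_ne) (by rw [hc1]; exact h.H1) M
      simpa using h3
    obtain ⟨r, ⟨hr, hr'⟩, -⟩ := existsUnique_nilpotent_sub_and_aeval_eq_zero h1 h2
    refine ⟨r, ?_, ?_⟩
    · rw [zero_sub] at hr
      exact isNilpotent_neg_iff.1 hr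
    · simpa [aeval_def] using hr'
  choose r hrn hr0 using hroot
  set U₀ : EE w A := (u, r) with hU₀
  have hPU₀ : P₀.eval U₀ = 0 := by
    have e1 : ∀ {T : Type u} [CommRing T] (g : EE w A →+* T), (P₀.map g).eval (g U₀) =
        g (P₀.eval U₀) := by
      intro T _ g
      rw [eval_map]
      exact eval₂_at_apply g U₀
    have e2 : (P₀.map (RingHom.fst Ω (∀ M : ℕ, Tr w A M))) = H := by
      ext i
      rw [coeff_map, hP₀c]
      exact hc1 i
    refine Prod.ext ?_ (funext fun M => ?_)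
    · have := e1 (RingHom.fst Ω (∀ M : ℕ, Tr w A M))
      rw [e2] at this
      exact this.symm.trans h.root
    · exact (e1 (pr M)).symm.trans (hr0 M)
  -- the ring D
  set G : Set (EE w A) := Set.range κ₀ ∪ Set.range σ₀ ∪ {U₀} with hG
  set D : Subring (EE w A) := Subring.closure G with hD
  have hGD : G ⊆ (D : Set (EE w A)) := Subring.subset_closure
  have hD'D : D' ≤ D := Subring.closure_mono Set.subset_union_left
  set κ : A →+* D := κ₀.codRestrict D (fun a => hGD (Or.inl (Or.inl ⟨a, rfl⟩))) with hκ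
  set σ : S →+* D := σ₀.codRestrict D (fun a => hGD (Or.inl (Or.inr ⟨a, rfl⟩))) with hσ
  set U : D := ⟨U₀, hGD (Or.inr rfl)⟩ with hU
  set P : Polynomial D := ∑ i ∈ H.support, C (⟨c i, hD'D (hcD i)⟩ : D) * X ^ i with hP
  have hPc : ∀ i, P.coeff i = ⟨c i, hD'D (hcD i)⟩ := by
    intro i
    rw [hP, finsetSum_coeff]
    simp only [coeff_C_mul_X_pow]
    rw [Finset.sum_ite_eq]
    by_cases hi : i ∈ H.support
    · rw [if_pos hi]
    · rw [if_neg hi]
      exact Subtype.ext (hc0 i (notMem_support_iff.1 hi)).symm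
  have himκ : D.subtype '' (Set.range κ) = Set.range κ₀ := by
    rw [← Set.range_comp]
    rfl
  have himσ : D.subtype '' (Set.range σ) = Set.range σ₀ := by
    rw [← Set.range_comp]
    rfl
  refine ⟨{ D := D
            ψ := (RingHom.fst Ω (∀ M : ℕ, Tr w A M)).comp D.subtype
            τ := fun M => (pr M).comp D.subtype
            κ := κ
            σ := σ
            U := U
            ψκ := fun a => rfl
            ψσ := fun s => rfl
            ψU := rfl
            τκ := fun M a => rfl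
            κσ := ?_
            τU := fun M => hrn M
            P := P
            PU := ?_
            Pmap := ?_
            Pcoeff := ?_
            top := ?_ }⟩
  · intro r hr hr' hrx
    apply Subtype.ext
    refine Prod.ext rfl (funext fun M => ?_)
    exact (hθ M ⟨r, hrx⟩).symm
  · apply Subtype.ext
    have e1 : P.map D.subtype = P₀ := by
      ext1 i
      rw [coeff_map, hPc, hP₀c]
      rfl
    have e2 := eval₂_at_apply (p := P) D.subtype U
    rw [← eval_map, e1] at e2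
    exact e2.symm.trans hPU₀
  · ext1 i
    rw [coeff_map, hPc]
    exact hc1 i
  · intro i
    rw [hPc]
    have e1 : (Subring.closure (Set.range κ ∪ Set.range σ)).map D.subtype = D' := by
      rw [RingHom.map_closure, Set.image_union, himκ, himσ]
    have e2 : c i ∈ (Subring.closure (Set.range κ ∪ Set.range σ)).map D.subtype := by
      rw [e1]
      exact hcD i
    obtain ⟨d, hd, hdc⟩ := Subring.mem_map.1 e2
    have e3 : d = ⟨c i, hD'D (hcD i)⟩ := Subtype.ext hdc
    rw [← e3]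
    exact hd
  · rw [eq_top_iff]
    intro d _
    have e1 : (Subring.closure (Set.range κ ∪ Set.range σ ∪ {U})).map D.subtype = D := by
      rw [RingHom.map_closure, Set.image_union, Set.image_union, himκ, himσ, Set.image_singleton]
      rfl
    have e2 : (d : EE w A) ∈ (Subring.closure (Set.range κ ∪ Set.range σ ∪ {U})).map D.subtype := by
      rw [e1]
      exact d.2
    obtain ⟨d', hd', hdd⟩ := Subring.mem_map.1 e2
    have e3 : d' = d := Subtype.ext hdd
    rw [← e3]
    exact hd'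

end Pool.Agent.LUC
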