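import Pool.Agent.Lib.LUC.DDefs

/-! # D3: first properties of the auxiliary ring `D`

Recipes. `noeth`: `D` is generated over the image of `σ` (noetherian) by the `κ f`, `f ∈ F`, and `U`: `κ` of `R₀` is in
the image of `σ` (`κσ`): `Algebra.adjoin S (..) = ⊤` for the algebra `σ.toAlgebra`, `Algebra.FiniteType.isNoetherianRing`.
`good`: `top` and `Subring.closure_induction`: `κ a`: clear (`ψκ`, `τκ`); `σ s`: `s = r + ∑ a_i x_i`, `r ∈ R₀`, `a_i ∈ S` (`Base.dec`,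
`IP.one_iff`), `σ (x i) = κ (x i)` and `mk (x i)` is nilpotent (elements of the maximal ideal are nilpotent in
`O₀ ⧸ m₀^M`), so `a = r`; `U`: `a = 0`; sums and products (`w ≥ 0` on `ψ d` and on `a`, part of the induction:
`ge`). `unit`: `w a = 0`, `mk a` is a unit, a unit plus a nilpotent element is a unit. `surj`: `c = mk (a / b)`,
`a, b ∈ A₀`, `w b = 0`: `d = κ a`, `s = κ b`. -/

set_option autoImplicit false

namespace Pool.Agent.LUC

open Pool.Agent.H15JM (RVal)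
open Pool.Agent.LU1 (VPos)
open Polynomial

universe u

variable {Ω : Type u} [Field Ω] {w : RVal Ω} {R₀ S : Subring Ω} {m e n : ℕ} {x : Fin m → Ω}
  {t : Fin e → Ω} {F : Finset Ω} {z : Fin n → Ω} {u : Ω} {H : Polynomial Ω}

private theorem range' (h : Sec2 w R₀ S x t F z u H) [IsLocalRing (lv w (adj R₀ (F : Set Ω)))]
    (E : DRing w R₀ S (adj R₀ (F : Set Ω)) x u H) :
    E.ψ.range = adj S ((F : Set Ω) ∪ {u}) := by
  have hA : adj R₀ (F : Set Ω) ≤ adj S ((F : Set Ω) ∪ {u}) :=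
    adj_mono h.base.le Set.subset_union_left
  apply le_antisymm
  · rintro _ ⟨d, rfl⟩
    have hd : d ∈ Subring.closure (Set.range E.κ ∪ Set.range E.σ ∪ {E.U}) := by
      rw [E.top]
      exact Subring.mem_top d
    refine Subring.closure_induction (p := fun d _ => E.ψ d ∈ adj S ((F : Set Ω) ∪ {u}))
      ?_ ?_ ?_ (fun _ _ _ _ ha hb => ?_) (fun _ _ ha => ?_) (fun _ _ _ _ ha hb => ?_) hd
    · rintro d ((⟨a, rfl⟩ | ⟨s, rfl⟩) | rfl)
      · rw [E.ψκ]
        exact hA a.2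
      · rw [E.ψσ]
        exact base_le_adj _ _ s.2
      · rw [E.ψU]
        exact mem_adj (Or.inr rfl)
    · rw [map_zero]
      exact Subring.zero_mem _
    · rw [map_one]
      exact Subring.one_mem _
    · rw [map_add]
      exact Subring.add_mem _ ha hb
    · rw [map_neg]
      exact Subring.neg_mem _ ha
    · rw [map_mul]
      exact Subring.mul_mem _ ha hb
  · refine adj_le (fun s hs => ⟨E.σ ⟨s, hs⟩, E.ψσ _⟩) ?_
    rintro f (hf | rfl)
    · exact ⟨E.κ ⟨f, mem_adj hf⟩, E.ψκ _⟩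
    · exact ⟨E.U, E.ψU⟩

theorem DRing.noeth (h : Sec2 w R₀ S x t F z u H) [IsLocalRing (lv w (adj R₀ (F : Set Ω)))]
    (E : DRing w R₀ S (adj R₀ (F : Set Ω)) x u H) : IsNoetherianRing E.D := by
  classical
  have := h.base.noeth
  let _ : Algebra S E.D := E.σ.toAlgebra
  have halg : ∀ s : S, algebraMap S E.D s = E.σ s := fun _ => rfl
  let G : Finset E.D :=
    F.attach.image (fun f : {x // x ∈ F} => E.κ ⟨(f : Ω), mem_adj f.2⟩) ∪ {E.U}
  have hG : ∀ f (hf : f ∈ F), E.κ ⟨f, mem_adj hf⟩ ∈ Algebra.adjoin S (G : Set E.D) := by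
    intro f hf
    refine Algebra.subset_adjoin ?_
    rw [Finset.mem_coe]
    exact Finset.mem_union_left _ (Finset.mem_image.2 ⟨⟨f, hf⟩, Finset.mem_attach _ _, rfl⟩)
  have hU : E.U ∈ Algebra.adjoin S (G : Set E.D) := by
    refine Algebra.subset_adjoin ?_
    rw [Finset.mem_coe]
    exact Finset.mem_union_right _ (Finset.mem_singleton_self _)
  have hσ : ∀ s : S, E.σ s ∈ Algebra.adjoin S (G : Set E.D) := fun s => by
    rw [← halg]
    exact Subalgebra.algebraMap_mem _ s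
  have hκ : ∀ a (ha : a ∈ adj R₀ (F : Set Ω)), E.κ ⟨a, ha⟩ ∈ Algebra.adjoin S (G : Set E.D) := by
    intro a ha
    refine Subring.closure_induction
      (p := fun a ha => E.κ ⟨a, ha⟩ ∈ Algebra.adjoin S (G : Set E.D))
      ?_ ?_ ?_ (fun a b ha' hb' ha hb => ?_) (fun a ha' ha => ?_) (fun a b ha' hb' ha hb => ?_) ha
    · rintro a (ha | ha)
      · have h1 := E.κσ a (base_le_adj _ _ ha) (h.base.le ha) (base_le_adj _ _ ha)
        rw [h1]
        exact hσ _
      · exact hG a ha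
    · have h1 : (⟨0, Subring.zero_mem _⟩ : adj R₀ (F : Set Ω)) = 0 := rfl
      rw [h1, map_zero]
      exact Subalgebra.zero_mem _
    · have h1 : (⟨1, Subring.one_mem _⟩ : adj R₀ (F : Set Ω)) = 1 := rfl
      rw [h1, map_one]
      exact Subalgebra.one_mem _
    · have h1 : (⟨a + b, Subring.add_mem _ ha' hb'⟩ : adj R₀ (F : Set Ω)) =
        ⟨a, ha'⟩ + ⟨b, hb'⟩ := rfl
      rw [h1, map_add]
      exact Subalgebra.add_mem _ ha hb
    · have h1 : (⟨-a, Subring.neg_mem _ ha'⟩ : adj R₀ (F : Set Ω)) = -⟨a, ha'⟩ := rfl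
      rw [h1, map_neg]
      exact Subalgebra.neg_mem _ ha
    · have h1 : (⟨a * b, Subring.mul_mem _ ha' hb'⟩ : adj R₀ (F : Set Ω)) =
        ⟨a, ha'⟩ * ⟨b, hb'⟩ := rfl
      rw [h1, map_mul]
      exact Subalgebra.mul_mem _ ha hb
  have htop : Algebra.adjoin S (G : Set E.D) = ⊤ := by
    rw [eq_top_iff]
    intro d _
    have hd : d ∈ Subring.closure (Set.range E.κ ∪ Set.range E.σ ∪ {E.U}) := by
      rw [E.top]
      exact Subring.mem_top d
    have hle : Subring.closure (Set.range E.κ ∪ Set.range E.σ ∪ {E.U}) ≤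
        (Algebra.adjoin S (G : Set E.D)).toSubring := by
      rw [Subring.closure_le]
      rintro d ((⟨a, rfl⟩ | ⟨s, rfl⟩) | rfl)
      · exact hκ a a.2
      · exact hσ s
      · exact hU
    exact hle hd
  have hft : Algebra.FiniteType S E.D := ⟨⟨G, htop⟩⟩
  exact Algebra.FiniteType.isNoetherianRing S E.D

theorem DRing.ge (h : Sec2 w R₀ S x t F z u H) [IsLocalRing (lv w (adj R₀ (F : Set Ω)))]
    (E : DRing w R₀ S (adj R₀ (F : Set Ω)) x u H) (d : E.D) : w.Ge 0 (E.ψ d) := by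
  have h1 : E.ψ d ∈ adj S ((F : Set Ω) ∪ {u}) := by
    rw [← range' h E]
    exact ⟨d, rfl⟩
  refine adj_nonneg h.base.ge ?_ _ h1
  rintro f (hf | rfl)
  · exact h.ge f hf
  · exact h.u_pos.ge

private theorem mk_nil {B : Subring Ω} (hB : ∀ f ∈ B, w.Ge 0 f) [IsLocalRing (lv w B)] (M : ℕ)
    (a : lv w B) (ha : VPos w (a : Ω)) :
    Ideal.Quotient.mk (IsLocalRing.maximalIdeal (lv w B) ^ M) a ∈
      nilradical (lv w B ⧸ IsLocalRing.maximalIdeal (lv w B) ^ M) := by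
  rw [mem_nilradical]
  refine ⟨M, ?_⟩
  rw [← map_pow, Ideal.Quotient.eq_zero_iff_mem]
  exact Ideal.pow_mem_pow ((mem_max_iff hB a).2 ha) M

private theorem good_sub {O₀ : Subring Ω} {D : Type u} [CommRing D] {Q : ℕ → Type u}
    [∀ M, CommRing (Q M)] (ψ : D →+* Ω) (τ : ∀ M, D →+* Q M) (mk : ∀ M, O₀ →+* Q M)
    (hge : ∀ d, w.Ge 0 (ψ d)) (hO : ∀ f ∈ O₀, w.Ge 0 f) :
    ∃ T : Subring D, ∀ d, d ∈ T ↔ ∃ a : O₀, VPos w (ψ d - a) ∧
      ∀ M, τ M d - mk M a ∈ nilradical (Q M) := by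
  refine ⟨
    { carrier := {d | ∃ a : O₀, VPos w (ψ d - a) ∧ ∀ M, τ M d - mk M a ∈ nilradical (Q M)}
      mul_mem' := ?_
      one_mem' := ?_
      add_mem' := ?_
      zero_mem' := ?_
      neg_mem' := ?_ }, fun d => Iff.rfl⟩
  · rintro c d ⟨a, ha, ha'⟩ ⟨b, hb, hb'⟩
    refine ⟨a * b, ?_, fun M => ?_⟩
    · have h1 : ψ (c * d) - ((a * b : O₀) : Ω) = ψ c * (ψ d - b) + b * (ψ c - a) := by
        rw [map_mul, Subring.coe_mul]
        ring
      rw [h1]
      exact (VPos.mul' (hge c) hb).add (VPos.mul' (hO _ b.2) ha)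
    · have h1 : τ M (c * d) - mk M (a * b) =
          τ M c * (τ M d - mk M b) + mk M b * (τ M c - mk M a) := by
        rw [map_mul, map_mul]
        ring
      rw [h1]
      exact Ideal.add_mem _ (Ideal.mul_mem_left _ _ (hb' M)) (Ideal.mul_mem_left _ _ (ha' M))
  · refine ⟨1, ?_, fun M => ?_⟩
    · rw [map_one, OneMemClass.coe_one, sub_self]
      exact VPos.zero
    · rw [map_one, map_one, sub_self]
      exact Ideal.zero_mem _
  · rintro c d ⟨a, ha, ha'⟩ ⟨b, hb, hb'⟩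
    refine ⟨a + b, ?_, fun M => ?_⟩
    · rw [map_add, Subring.coe_add, add_sub_add_comm]
      exact ha.add hb
    · rw [map_add, map_add, add_sub_add_comm]
      exact Ideal.add_mem _ (ha' M) (hb' M)
  · refine ⟨0, ?_, fun M => ?_⟩
    · rw [map_zero, ZeroMemClass.coe_zero, sub_zero]
      exact VPos.zero
    · rw [map_zero, map_zero, sub_zero]
      exact Ideal.zero_mem _
  · rintro c ⟨a, ha, ha'⟩
    refine ⟨-a, ?_, fun M => ?_⟩
    · have h1 : ψ (-c) - ((-a : O₀) : Ω) = -(ψ c - a) := by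
        rw [map_neg, NegMemClass.coe_neg]
        ring
      rw [h1]
      exact ha.neg
    · have h1 : τ M (-c) - mk M (-a) = -(τ M c - mk M a) := by
        rw [map_neg, map_neg]
        ring
      rw [h1]
      exact neg_mem (ha' M)

theorem DRing.good (h : Sec2 w R₀ S x t F z u H) [IsLocalRing (lv w (adj R₀ (F : Set Ω)))]
    (E : DRing w R₀ S (adj R₀ (F : Set Ω)) x u H) (d : E.D) :
    ∃ a : lv w (adj R₀ (F : Set Ω)), VPos w (E.ψ d - a) ∧
      ∀ M, IsNilpotent (E.τ M d - Ideal.Quotient.mk _ a) := by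
  simp only [← mem_nilradical]
  obtain ⟨T, hT⟩ := good_sub E.ψ E.τ (fun M => Ideal.Quotient.mk
    (IsLocalRing.maximalIdeal (lv w (adj R₀ (F : Set Ω))) ^ M)) (DRing.ge h E)
    (lv_nonneg h.ge')
  have hxx : ∀ i (M : ℕ), E.τ M (E.σ ⟨x i, h.base.mem i⟩) ∈
      nilradical (lv w (adj R₀ (F : Set Ω)) ⧸
        IsLocalRing.maximalIdeal (lv w (adj R₀ (F : Set Ω))) ^ M) := by
    intro i M
    rw [← E.κσ (x i) (h.x_mem i) (h.base.mem i) (mem_adj ⟨i, rfl⟩), E.τκ]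
    exact mk_nil h.ge' M _ fun _ => h.base.pos i
  have hle : Subring.closure (Set.range E.κ ∪ Set.range E.σ ∪ {E.U}) ≤ T := by
    rw [Subring.closure_le]
    rintro d ((⟨a, rfl⟩ | ⟨s, rfl⟩) | rfl)
    · rw [SetLike.mem_coe, hT]
      refine ⟨⟨a, le_lv w _ a.2⟩, ?_, fun M => ?_⟩
      · rw [E.ψκ, sub_self]
        exact VPos.zero
      · rw [E.τκ, sub_self]
        exact Ideal.zero_mem _
    · rw [SetLike.mem_coe, hT]
      obtain ⟨r, hr, hrs⟩ := h.base.dec s s.2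
      obtain ⟨c, hc, hcs⟩ := (IP.one_iff h.base.mem).1 hrs
      have hs : s = ⟨r, h.base.le hr⟩ + ∑ i, (⟨c i, hc i⟩ : S) * ⟨x i, h.base.mem i⟩ := by
        apply Subtype.ext
        rw [Subring.coe_add, AddSubmonoidClass.coe_finsetSum]
        simp only [Subring.coe_mul]
        rw [← hcs]
        ring
      refine ⟨⟨r, le_lv w _ (base_le_adj _ _ hr)⟩, ?_, fun M => ?_⟩
      · rw [E.ψσ]
        exact IP.vpos h.base.ge (fun i _ => h.base.pos i) h.base.mem hrs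
      · have h1 : E.τ M (E.σ s) = E.τ M (E.σ ⟨r, h.base.le hr⟩) +
            ∑ i, E.τ M (E.σ ⟨c i, hc i⟩) * E.τ M (E.σ ⟨x i, h.base.mem i⟩) := by
          conv_lhs => rw [hs]
          simp only [map_add, map_sum, map_mul]
        rw [h1, ← E.κσ r (base_le_adj _ _ hr) (h.base.le hr) (base_le_adj _ _ hr), E.τκ,
          add_sub_cancel_left]
        exact Ideal.sum_mem _ fun i _ => Ideal.mul_mem_left _ _ (hxx i M)
    · rw [SetLike.mem_coe, hT]
      refine ⟨0, ?_, fun M => ?_⟩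
      · rw [E.ψU, ZeroMemClass.coe_zero, sub_zero]
        exact h.u_pos
      · rw [map_zero, sub_zero, mem_nilradical]
        exact E.τU M
  rw [E.top] at hle
  exact (hT d).1 (hle (Subring.mem_top d))

theorem DRing.unit (h : Sec2 w R₀ S x t F z u H) [IsLocalRing (lv w (adj R₀ (F : Set Ω)))]
    (E : DRing w R₀ S (adj R₀ (F : Set Ω)) x u H) (M : ℕ) (d : E.D) (h0 : E.ψ d ≠ 0)
    (h1 : w (E.ψ d) = 0) : IsUnit (E.τ M d) := by
  obtain ⟨a, ha, ha'⟩ := DRing.good h E d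
  have h2 := Pool.Agent.LU1.val_add_vpos h0 h1 ha.neg
  have h3 : E.ψ d + -(E.ψ d - a) = a := by ring
  rw [h3] at h2
  have h4 : IsUnit (Ideal.Quotient.mk (IsLocalRing.maximalIdeal
      (lv w (adj R₀ (F : Set Ω))) ^ M) a) := (lv_isUnit a h2.1 h2.2).map _
  have h5 := IsNilpotent.isUnit_add_left_of_commute (ha' M) h4 (Commute.all _ _)
  rwa [add_sub_cancel] at h5

theorem DRing.surj (h : Sec2 w R₀ S x t F z u H) [IsLocalRing (lv w (adj R₀ (F : Set Ω)))]
    (E : DRing w R₀ S (adj R₀ (F : Set Ω)) x u H) (M : ℕ)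
    (c : lv w (adj R₀ (F : Set Ω)) ⧸
      IsLocalRing.maximalIdeal (lv w (adj R₀ (F : Set Ω))) ^ M) :
    ∃ d s : E.D, E.ψ s ≠ 0 ∧ w (E.ψ s) = 0 ∧ E.τ M s * c = E.τ M d := by
  obtain ⟨f, rfl⟩ := Ideal.Quotient.mk_surjective c
  obtain ⟨a, ha, b, hb, hb0, hvb, hf⟩ := f.2
  refine ⟨E.κ ⟨a, ha⟩, E.κ ⟨b, hb⟩, by rw [E.ψκ]; exact hb0, by rw [E.ψκ]; exact hvb, ?_⟩
  rw [E.τκ, E.τκ, ← map_mul]
  congr 1
  apply Subtype.ext
  rw [Subring.coe_mul, hf]
  exact mul_div_cancel₀ a hb0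

/-- The image of `D` in `Ω` is the ring `S[F, u]`. -/
theorem DRing.range (h : Sec2 w R₀ S x t F z u H) [IsLocalRing (lv w (adj R₀ (F : Set Ω)))]
    (E : DRing w R₀ S (adj R₀ (F : Set Ω)) x u H) :
    E.ψ.range = adj S ((F : Set Ω) ∪ {u}) := range' h E

end Pool.Agent.LUC
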