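import Pool.Agent.Lib.LUC.DDefs
import Pool.Agent.Lib.LUC.D3

/-! # D4: the maximal ideal of the localisation of the auxiliary ring `D`

Recipe. `z i = a i / b i` with `a i, b i ∈ A₀ = adj R₀ F`, `w (b i) = 0`; `z' i = κ (a i)`; `ψ (z' i) = b i * z i` has
positive value. Call `d ∈ D` small if there is `s ∈ D` with `ψ s ≠ 0`, `w (ψ s) = 0`, `s * d ∈ I := span (range z')`: small
elements form an ideal. (1) `κ a` is small if `VPos w a`: `Par.gen`: `a = ∑ c i * z i`, `c i ∈ lv w A₀`; clear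
denominators: `s a = ∑ c' i * a i` with `s, c' i ∈ A₀`, `w s = 0`; apply `κ`. (2) for every `d` in
`C := closure (range κ ∪ range σ)` there is `a ∈ A₀` with `d - κ a` small: `σ s`: `s = r + ∑ a_i x_i` (`Base.dec`), `a = r`,
`σ (x i) = κ (x i)` is small by (1) (`κσ`); sums and products. (3) `U` is small: `0 = P(U) = P_0 + U * (P_1 + U * ..)`;
`P_0 ∈ C` has `VPos w (ψ P_0)` so `P_0 - κ a` is small, `VPos w a`, `P_0` is small; the bracket `q` has
`ψ q = H_1 + u (..)` of value 0: `q * U = - P_0` is small, so `U` is small. (4) (2) for all `d ∈ D` (`top`), with `U`: `a = 0`.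
(5) if `VPos w (ψ d)`: `d - κ a` small; elements of `I`, so small elements, have `ψ` of positive value (`s * d ∈ I`,
`w (ψ s) = 0`), so `VPos w a` and `κ a`, `d` are small. (`DRing.ge` for the values `≥ 0`.) -/

set_option autoImplicit false

namespace Pool.Agent.LUC

open Pool.Agent.H15JM (RVal)
open Pool.Agent.LU1 (VPos)
open Polynomial

universe u

variable {Ω : Type u} [Field Ω] {w : RVal Ω} {R₀ S : Subring Ω} {m e n : ℕ} {x : Fin m → Ω}
  {t : Fin e → Ω} {F : Finset Ω} {z : Fin n → Ω} {u : Ω} {H : Polynomial Ω}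

/-- The small elements. -/
private def Sml {D : Type u} [CommRing D] (w : RVal Ω) (ψ : D →+* Ω) (I : Ideal D) (d : D) : Prop :=
  ∃ s, ψ s ≠ 0 ∧ w (ψ s) = 0 ∧ s * d ∈ I

private theorem Sml.zero {D : Type u} [CommRing D] {ψ : D →+* Ω} {I : Ideal D} :
    Sml w ψ I 0 :=
  ⟨1, by rw [map_one]; exact one_ne_zero, by rw [map_one]; exact w.map_one,
    by rw [mul_zero]; exact I.zero_mem⟩

private theorem Sml.add {D : Type u} [CommRing D] {ψ : D →+* Ω} {I : Ideal D} {c d : D}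
    (hc : Sml w ψ I c) (hd : Sml w ψ I d) : Sml w ψ I (c + d) := by
  obtain ⟨s, hs, hs', hsI⟩ := hc
  obtain ⟨t, ht, ht', htI⟩ := hd
  refine ⟨s * t, by rw [map_mul]; exact mul_ne_zero hs ht,
    by rw [map_mul, w.map_mul hs ht, hs', ht', add_zero], ?_⟩
  have h1 : s * t * (c + d) = t * (s * c) + s * (t * d) := by ring
  rw [h1]
  exact I.add_mem (I.mul_mem_left _ hsI) (I.mul_mem_left _ htI)

private theorem Sml.mul {D : Type u} [CommRing D] {ψ : D →+* Ω} {I : Ideal D} {d : D}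
    (hd : Sml w ψ I d) (c : D) : Sml w ψ I (c * d) := by
  obtain ⟨t, ht, ht', htI⟩ := hd
  refine ⟨t, ht, ht', ?_⟩
  have h1 : t * (c * d) = c * (t * d) := by ring
  rw [h1]
  exact I.mul_mem_left _ htI

private theorem Sml.neg {D : Type u} [CommRing D] {ψ : D →+* Ω} {I : Ideal D} {d : D}
    (hd : Sml w ψ I d) : Sml w ψ I (-d) := by
  have h1 := hd.mul (-1)
  rwa [neg_one_mul] at h1

private theorem Sml.sum {D : Type u} [CommRing D] {ψ : D →+* Ω} {I : Ideal D} {ι : Type*}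
    (s : Finset ι) (f : ι → D) (h : ∀ i ∈ s, Sml w ψ I (f i)) : Sml w ψ I (∑ i ∈ s, f i) :=
  Finset.sum_induction f (Sml w ψ I) (fun _ _ h h' => h.add h') Sml.zero h

private theorem Sml.of_mul {D : Type u} [CommRing D] {ψ : D →+* Ω} {I : Ideal D} {d q : D}
    (h : Sml w ψ I (q * d)) (hq : ψ q ≠ 0) (hq' : w (ψ q) = 0) : Sml w ψ I d := by
  obtain ⟨t, ht, ht', htI⟩ := h
  exact ⟨t * q, by rw [map_mul]; exact mul_ne_zero ht hq,
    by rw [map_mul, w.map_mul ht hq, ht', hq', add_zero], by rwa [mul_assoc]⟩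

private theorem Sml.vpos {D : Type u} [CommRing D] {ψ : D →+* Ω} {n : ℕ} {z' : Fin n → D}
    (hge : ∀ d, w.Ge 0 (ψ d)) (hz : ∀ i, VPos w (ψ (z' i))) {d : D}
    (hd : Sml w ψ (Ideal.span (Set.range z')) d) : VPos w (ψ d) := by
  obtain ⟨t, ht, ht', htI⟩ := hd
  obtain ⟨c, hc⟩ := Ideal.mem_span_range_iff_exists_fun.1 htI
  have h1 : VPos w (ψ (t * d)) := by
    rw [← hc, map_sum]
    refine Finset.sum_induction _ (VPos w) (fun _ _ h h' => h.add h') VPos.zero fun i _ => ?_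
    rw [map_mul]
    exact VPos.mul' (hge _) (hz i)
  intro h0
  rw [map_mul] at h1
  have h2 := h1 (mul_ne_zero ht h0)
  rwa [w.map_mul ht h0, ht', zero_add] at h2

/-- The elements of `lv w A₀` which are small after clearing the denominators. -/
private def SmA {D : Type u} [CommRing D] (w : RVal Ω) {A₀ : Subring Ω} (κ : A₀ →+* D)
    (I : Ideal D) (f : Ω) : Prop :=
  ∃ s : A₀, (s : Ω) ≠ 0 ∧ w (s : Ω) = 0 ∧ ∃ g : A₀, (g : Ω) = s * f ∧ κ g ∈ I

private theorem SmA.add {D : Type u} [CommRing D] {A₀ : Subring Ω} {κ : A₀ →+* D}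
    {I : Ideal D} {f f' : Ω} (hf : SmA w κ I f) (hf' : SmA w κ I f') : SmA w κ I (f + f') := by
  obtain ⟨s, hs, hs', g, hg, hgI⟩ := hf
  obtain ⟨t, ht, ht', g', hg', hgI'⟩ := hf'
  refine ⟨s * t, mul_ne_zero hs ht, ?_, t * g + s * g', ?_, ?_⟩
  · rw [Subring.coe_mul, w.map_mul hs ht, hs', ht', add_zero]
  · rw [Subring.coe_add, Subring.coe_mul, Subring.coe_mul, Subring.coe_mul, hg, hg']
    ring
  · rw [map_add, map_mul, map_mul]
    exact I.add_mem (I.mul_mem_left _ hgI) (I.mul_mem_left _ hgI')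

private theorem SmA.zero {D : Type u} [CommRing D] {A₀ : Subring Ω} {κ : A₀ →+* D}
    {I : Ideal D} : SmA w κ I 0 :=
  ⟨1, by rw [Subring.coe_one]; exact one_ne_zero, by rw [Subring.coe_one]; exact w.map_one, 0,
    by rw [Subring.coe_zero, mul_zero], by rw [map_zero]; exact I.zero_mem⟩

private theorem SmA.mul {D : Type u} [CommRing D] {A₀ : Subring Ω} {κ : A₀ →+* D}
    {I : Ideal D} {f : Ω} (hf : SmA w κ I f) {c : Ω} (hc : c ∈ lv w A₀) : SmA w κ I (c * f) := by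
  obtain ⟨s, hs, hs', g, hg, hgI⟩ := hf
  obtain ⟨p, hp, q, hq, hq0, hvq, rfl⟩ := hc
  refine ⟨s * ⟨q, hq⟩, mul_ne_zero hs hq0, ?_, ⟨p, hp⟩ * g, ?_, ?_⟩
  · rw [Subring.coe_mul, w.map_mul hs hq0, hs', hvq, add_zero]
  · rw [Subring.coe_mul, Subring.coe_mul, hg]
    change p * (s * f) = s * q * (p / q * f)
    field_simp
  · rw [map_mul]
    exact I.mul_mem_left _ hgI

theorem DRing.gen (h : Sec2 w R₀ S x t F z u H) [IsLocalRing (lv w (adj R₀ (F : Set Ω)))]
    (E : DRing w R₀ S (adj R₀ (F : Set Ω)) x u H) :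
    ∃ z' : Fin n → E.D, (∀ i, VPos w (E.ψ (z' i))) ∧
      ∀ d, VPos w (E.ψ d) →
        ∃ s, E.ψ s ≠ 0 ∧ w (E.ψ s) = 0 ∧ s * d ∈ Ideal.span (Set.range z') := by
  have hge := DRing.ge h E
  choose a ha b hb hb0 hvb hab using h.par.mem
  have hz' : ∀ i, VPos w (E.ψ (E.κ ⟨a i, ha i⟩)) := by
    intro i _
    have h1 : a i = b i * z i := by
      rw [hab i]
      exact (mul_div_cancel₀ (a i) (hb0 i)).symm
    rw [E.ψκ]
    change 0 < w (a i)
    rw [h1, w.map_mul (hb0 i) (h.par.ne i), hvb, zero_add]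
    exact h.par.pos i
  refine ⟨fun i => E.κ ⟨a i, ha i⟩, hz', ?_⟩
  -- (1)
  have hzA : ∀ i, SmA w E.κ (Ideal.span (Set.range fun i => E.κ ⟨a i, ha i⟩)) (z i) := by
    intro i
    refine ⟨⟨b i, hb i⟩, hb0 i, hvb i, ⟨a i, ha i⟩, ?_, Ideal.subset_span ⟨i, rfl⟩⟩
    change a i = b i * z i
    rw [hab i]
    exact (mul_div_cancel₀ (a i) (hb0 i)).symm
  have hκ : ∀ f : adj R₀ (F : Set Ω), VPos w (f : Ω) →
      Sml w E.ψ (Ideal.span (Set.range fun i => E.κ ⟨a i, ha i⟩)) (E.κ f) := by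
    intro f hf
    obtain ⟨c, hc, hcf⟩ := (IP.one_iff h.par.mem).1 (h.par.gen f (le_lv w _ f.2) hf)
    have h1 : SmA w E.κ (Ideal.span (Set.range fun i => E.κ ⟨a i, ha i⟩)) (f : Ω) := by
      rw [hcf]
      exact Finset.sum_induction _ _ (fun _ _ h h' => h.add h') SmA.zero
        fun i _ => (hzA i).mul (hc i)
    obtain ⟨s, hs, hs', g, hg, hgI⟩ := h1
    refine ⟨E.κ s, by rw [E.ψκ]; exact hs, by rw [E.ψκ]; exact hs', ?_⟩
    have h2 : g = s * f := Subtype.ext hg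
    rwa [h2, map_mul] at hgI
  generalize hI : (Ideal.span (Set.range fun i => E.κ ⟨a i, ha i⟩)) = I at *
  have hsm : ∀ d, Sml w E.ψ I d → VPos w (E.ψ d) := by
    intro d hd
    rw [← hI] at hd
    exact hd.vpos hge hz'
  -- (2)
  have hadd : ∀ c d : E.D, (∃ a, Sml w E.ψ I (c - E.κ a)) → (∃ a, Sml w E.ψ I (d - E.κ a)) →
      ∃ a, Sml w E.ψ I (c + d - E.κ a) := by
    rintro c d ⟨a, ha⟩ ⟨b, hb⟩
    refine ⟨a + b, ?_⟩
    rw [map_add, add_sub_add_comm]
    exact ha.add hb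
  have hneg : ∀ c : E.D, (∃ a, Sml w E.ψ I (c - E.κ a)) → ∃ a, Sml w E.ψ I (-c - E.κ a) := by
    rintro c ⟨a, ha⟩
    refine ⟨-a, ?_⟩
    have h1 : -c - E.κ (-a) = -(c - E.κ a) := by
      rw [map_neg]
      ring
    rw [h1]
    exact ha.neg
  have hmul : ∀ c d : E.D, (∃ a, Sml w E.ψ I (c - E.κ a)) → (∃ a, Sml w E.ψ I (d - E.κ a)) →
      ∃ a, Sml w E.ψ I (c * d - E.κ a) := by
    rintro c d ⟨a, ha⟩ ⟨b, hb⟩
    refine ⟨a * b, ?_⟩
    have h1 : c * d - E.κ (a * b) = c * (d - E.κ b) + E.κ b * (c - E.κ a) := by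
      rw [map_mul]
      ring
    rw [h1]
    exact (hb.mul c).add (ha.mul _)
  have hκ' : ∀ c, ∃ a, Sml w E.ψ I (E.κ c - E.κ a) := by
    intro c
    refine ⟨c, ?_⟩
    rw [sub_self]
    exact Sml.zero
  have hσ' : ∀ s, ∃ a, Sml w E.ψ I (E.σ s - E.κ a) := by
    intro s
    obtain ⟨r, hr, hrs⟩ := h.base.dec s s.2
    obtain ⟨c, hc, hcs⟩ := (IP.one_iff h.base.mem).1 hrs
    have hs : s = ⟨r, h.base.le hr⟩ + ∑ i, (⟨c i, hc i⟩ : S) * ⟨x i, h.base.mem i⟩ := by
      apply Subtype.ext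
      rw [Subring.coe_add, AddSubmonoidClass.coe_finsetSum]
      simp only [Subring.coe_mul]
      rw [← hcs]
      ring
    refine ⟨⟨r, base_le_adj _ _ hr⟩, ?_⟩
    have h1 : E.σ s = E.σ ⟨r, h.base.le hr⟩ +
        ∑ i, E.σ ⟨c i, hc i⟩ * E.σ ⟨x i, h.base.mem i⟩ := by
      conv_lhs => rw [hs]
      simp only [map_add, map_sum, map_mul]
    rw [h1, ← E.κσ r (base_le_adj _ _ hr) (h.base.le hr) (base_le_adj _ _ hr),
      add_sub_cancel_left]
    refine Sml.sum _ _ fun i _ => Sml.mul ?_ _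
    rw [← E.κσ (x i) (h.x_mem i) (h.base.mem i) (mem_adj ⟨i, rfl⟩)]
    exact hκ _ fun _ => h.base.pos i
  have hC : ∀ d ∈ Subring.closure (Set.range E.κ ∪ Set.range E.σ),
      ∃ a, Sml w E.ψ I (d - E.κ a) := by
    intro d hd
    refine Subring.closure_induction (p := fun d _ => ∃ a, Sml w E.ψ I (d - E.κ a))
      ?_ ?_ ?_ (fun a b _ _ => hadd a b) (fun a _ => hneg a) (fun a b _ _ => hmul a b) hd
    · rintro d (⟨c, rfl⟩ | ⟨s, rfl⟩)
      · exact hκ' c
      · exact hσ' s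
    · rw [← map_zero E.κ]
      exact hκ' 0
    · rw [← map_one E.κ]
      exact hκ' 1
  have hfin : ∀ d, VPos w (E.ψ d) → (∃ a, Sml w E.ψ I (d - E.κ a)) → Sml w E.ψ I d := by
    rintro d hd ⟨a, ha⟩
    have h1 : VPos w (a : Ω) := by
      have h2 := hd.sub (hsm _ ha)
      rwa [map_sub, sub_sub_cancel, E.ψκ] at h2
    have h3 := ha.add (hκ a h1)
    rwa [sub_add_cancel] at h3
  -- (3)
  have hU : Sml w E.ψ I E.U := by
    have hcoeff : ∀ i, E.ψ (E.P.coeff i) = H.coeff i := by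
      intro i
      have h1 := congrArg (fun p => Polynomial.coeff p i) E.Pmap
      rwa [Polynomial.coeff_map] at h1
    have h0 : Sml w E.ψ I (E.P.coeff 0) := by
      refine hfin _ ?_ (hC _ (E.Pcoeff 0))
      rw [hcoeff]
      exact h.H0
    have e1 : E.P.eval E.U = E.P.divX.eval E.U * E.U + E.P.coeff 0 := by
      conv_lhs => rw [← E.P.divX_mul_X_add]
      simp
    have e2 : E.P.divX.eval E.U = E.P.divX.divX.eval E.U * E.U + E.P.coeff 1 := by
      conv_lhs => rw [← E.P.divX.divX_mul_X_add]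
      simp [Polynomial.coeff_divX]
    have e3 : E.ψ (E.P.divX.eval E.U) = H.coeff 1 + E.ψ (E.P.divX.divX.eval E.U) * u := by
      rw [e2, map_add, map_mul, E.ψU, hcoeff]
      ring
    have h4 := Pool.Agent.LU1.val_add_vpos h.H1_ne h.H1
      (VPos.mul' (hge (E.P.divX.divX.eval E.U)) h.u_pos)
    rw [← e3] at h4
    refine Sml.of_mul ?_ h4.1 h4.2
    have h5 : E.P.divX.eval E.U * E.U = -E.P.coeff 0 := by
      rw [E.PU] at e1
      linear_combination -e1
    rw [h5]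
    exact h0.neg
  -- (4)
  have hall : ∀ d, ∃ a, Sml w E.ψ I (d - E.κ a) := by
    intro d
    have hd : d ∈ Subring.closure (Set.range E.κ ∪ Set.range E.σ ∪ {E.U}) := by
      rw [E.top]
      exact Subring.mem_top d
    refine Subring.closure_induction (p := fun d _ => ∃ a, Sml w E.ψ I (d - E.κ a))
      ?_ ?_ ?_ (fun a b _ _ => hadd a b) (fun a _ => hneg a) (fun a b _ _ => hmul a b) hd
    · rintro d ((⟨c, rfl⟩ | ⟨s, rfl⟩) | rfl)
      · exact hκ' c
      · exact hσ' s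
      · refine ⟨0, ?_⟩
        rw [map_zero, sub_zero]
        exact hU
    · rw [← map_zero E.κ]
      exact hκ' 0
    · rw [← map_one E.κ]
      exact hκ' 1
  exact fun d hd => hfin d hd (hall d)

end Pool.Agent.LUC
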