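import Pool.Agent.Lib.LUC.DDefs

/-! # D5: the auxiliary ring `D` is algebraic over `S[T]`

Recipe. `ι : MvPolynomial (Fin e) S →+* D` is `MvPolynomial.eval₂Hom σ (fun j => κ (t j))`; `ψ ∘ ι` is
`MvPolynomial.aeval t` (`S` as a subring of `Ω`), injective by `Sec2.ind`. Let `j : D → D₁` be given, `D₁` a domain. Give
`D₁` the algebra structure `(j.comp ι).toAlgebra` over `B = MvPolynomial (Fin e) S` (a domain). Every element `j d` is
`IsAlgebraic B`: the algebraic elements form a subring (`IsAlgebraic.add`, `.mul`, `.neg`, `NoZeroDivisors B`), use `top` and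
`Subring.closure_induction`. `σ s = ι (C s)`. `κ a`, `a ∈ adj R₀ F`: `adj_induction`: `a ∈ R₀`: `κ a = σ a`
(`κσ`; `R₀ ≤ S`); `a = f ∈ F`: `Q` from `alg`: every `q ∈ adj R₀ (range x ∪ range t)` has a `b ∈ B` with `ι b = κ q`
(`adj_induction`: `R₀` and `x i`: `C`, by `κσ`; `t j`: `X j`), so `Q` lifts to a polynomial `Q'` over `B` with
`Q'(κ f) = κ (Q(f)) = 0` in `D` (evaluate the polynomial over `A₀` with the coefficients of `Q` at `f ∈ A₀`, then
apply `κ`) and `Q' ≠ 0`. `U`: root of `P`, the coefficients `j (P.coeff i)` are algebraic over `B` (they are in the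
closure of `range κ ∪ range σ`), and `j (P.coeff 1)` is a unit as `ψ (P.coeff 1) = H.coeff 1` has value 0, so
`P.map j ≠ 0`: `j U` is algebraic over the ring of the algebraic elements (`Subalgebra.algebraicClosure B D₁`), so
over `B` (`IsAlgebraic.restrictScalars` or `Algebra.IsAlgebraic.trans`). -/

set_option autoImplicit false

namespace Pool.Agent.LUC

open Pool.Agent.H15JM (RVal)
open Pool.Agent.LU1 (VPos)
open Polynomial

universe u

variable {Ω : Type u} [Field Ω] {w : RVal Ω} {R₀ S : Subring Ω} {m e n : ℕ} {x : Fin m → Ω}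
  {t : Fin e → Ω} {F : Finset Ω} {z : Fin n → Ω} {u : Ω} {H : Polynomial Ω}

theorem DRing.alg (h : Sec2 w R₀ S x t F z u H) [IsLocalRing (lv w (adj R₀ (F : Set Ω)))]
    (E : DRing w R₀ S (adj R₀ (F : Set Ω)) x u H) :
    ∃ ι : MvPolynomial (Fin e) S →+* E.D, Function.Injective (E.ψ.comp ι) ∧
      ∀ (D₁ : Type u) [CommRing D₁] [IsDomain D₁] (j : E.D →+* D₁),
        (∀ d, E.ψ d ≠ 0 → w (E.ψ d) = 0 → IsUnit (j d)) →
        ∀ d : E.D, ∃ P : Polynomial (MvPolynomial (Fin e) S), P ≠ 0 ∧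
          P.eval₂ (j.comp ι) (j d) = 0 := by
  classical
  let ι : MvPolynomial (Fin e) S →+* E.D :=
    MvPolynomial.eval₂Hom E.σ (fun j => E.κ ⟨t j, h.t_mem j⟩)
  have hιC : ∀ s, ι (MvPolynomial.C s) = E.σ s := fun s => MvPolynomial.eval₂Hom_C _ _ _
  have hιX : ∀ j, ι (MvPolynomial.X j) = E.κ ⟨t j, h.t_mem j⟩ :=
    fun j => MvPolynomial.eval₂Hom_X' _ _ _
  have hψι : ∀ p : MvPolynomial (Fin e) S, E.ψ (ι p) = MvPolynomial.aeval t p := by
    intro p
    have h1 : E.ψ.comp ι = ((MvPolynomial.aeval t : MvPolynomial (Fin e) S →ₐ[S] Ω) :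
        MvPolynomial (Fin e) S →+* Ω) := by
      apply MvPolynomial.ringHom_ext
      · intro s
        rw [RingHom.comp_apply, hιC, E.ψσ, RingHom.coe_coe, MvPolynomial.aeval_C]
        rfl
      · intro j
        rw [RingHom.comp_apply, hιX, E.ψκ, RingHom.coe_coe, MvPolynomial.aeval_X]
    exact RingHom.congr_fun h1 p
  have hinj : Function.Injective (E.ψ.comp ι) := by
    intro p q hpq
    have h1 : MvPolynomial.aeval t p = MvPolynomial.aeval t q := by
      rw [← hψι, ← hψι]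
      exact hpq
    exact h.ind h1
  have hιne : ∀ p, E.ψ (ι p) ≠ 0 → p ≠ 0 := by
    rintro p hp rfl
    exact hp (by rw [map_zero, map_zero])
  refine ⟨ι, hinj, fun D₁ _ _ j hj d => ?_⟩
  let _ : Algebra (MvPolynomial (Fin e) S) D₁ := (j.comp ι).toAlgebra
  have hmap : ∀ p, algebraMap (MvPolynomial (Fin e) S) D₁ p = j (ι p) := fun _ => rfl
  suffices hal : ∀ d, IsAlgebraic (MvPolynomial (Fin e) S) (j d) by
    obtain ⟨P, hP, hP'⟩ := hal d
    exact ⟨P, hP, hP'⟩
  let SA : Subring E.D :=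
    (Subalgebra.algebraicClosure (MvPolynomial (Fin e) S) D₁).toSubring.comap j
  have hSA : ∀ d, d ∈ SA ↔ IsAlgebraic (MvPolynomial (Fin e) S) (j d) := fun d => Iff.rfl
  have hσ : ∀ s, E.σ s ∈ SA := by
    intro s
    rw [hSA, ← hιC, ← hmap]
    exact isAlgebraic_algebraMap _
  -- the ring `R₀[x, t]`
  have lift : ∀ q ∈ adj R₀ (Set.range x ∪ Set.range t),
      ∃ (hq : q ∈ adj R₀ (F : Set Ω)) (b : MvPolynomial (Fin e) S), ι b = E.κ ⟨q, hq⟩ := by
    intro q hq
    refine adj_induction (p := fun q => ∃ (hq : q ∈ adj R₀ (F : Set Ω))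
      (b : MvPolynomial (Fin e) S), ι b = E.κ ⟨q, hq⟩) ?_ ?_ ?_ ?_ hq
    · intro f hf
      refine ⟨base_le_adj R₀ _ hf, MvPolynomial.C ⟨f, h.base.le hf⟩, ?_⟩
      rw [hιC]
      exact (E.κσ f _ _ (base_le_adj _ _ hf)).symm
    · rintro f (⟨i, rfl⟩ | ⟨i, rfl⟩)
      · refine ⟨h.x_mem i, MvPolynomial.C ⟨x i, h.base.mem i⟩, ?_⟩
        rw [hιC]
        exact (E.κσ _ _ _ (mem_adj ⟨i, rfl⟩)).symm
      · exact ⟨h.t_mem i, MvPolynomial.X i, hιX i⟩
    · rintro f g ⟨hf, b, hb⟩ ⟨hg, c, hc⟩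
      refine ⟨Subring.add_mem _ hf hg, b + c, ?_⟩
      rw [map_add, hb, hc, ← map_add]
      rfl
    · rintro f g ⟨hf, b, hb⟩ ⟨hg, c, hc⟩
      refine ⟨Subring.mul_mem _ hf hg, b * c, ?_⟩
      rw [map_mul, hb, hc, ← map_mul]
      rfl
  have hκgen : ∀ f (hf : f ∈ F), E.κ ⟨f, mem_adj (Finset.mem_coe.2 hf)⟩ ∈ SA := by
    intro f hf
    obtain ⟨Q, hQ0, hQc, hQf⟩ := h.alg f hf
    choose hq b hb using fun i => lift (Q.coeff i) (hQc i)
    rw [hSA]
    refine ⟨∑ i ∈ Q.support, Polynomial.monomial i (b i), ?_, ?_⟩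
    · intro h0
      have h1 := congrArg (fun p : Polynomial (MvPolynomial (Fin e) S) => p.coeff Q.natDegree) h0
      simp only [Polynomial.finsetSum_coeff, Polynomial.coeff_monomial,
        Finset.sum_ite_eq', Polynomial.coeff_zero] at h1
      rw [if_pos (Polynomial.natDegree_mem_support_of_nonzero hQ0)] at h1
      refine hιne (b Q.natDegree) ?_ h1
      rw [hb, E.ψκ]
      exact Polynomial.leadingCoeff_ne_zero.2 hQ0
    · rw [map_sum]
      simp only [Polynomial.aeval_monomial, hmap, hb, ← map_pow, ← map_mul]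
      rw [← map_sum, ← map_sum]
      have h1 : (∑ i ∈ Q.support, (⟨Q.coeff i, hq i⟩ : adj R₀ (F : Set Ω)) *
          ⟨f, mem_adj (Finset.mem_coe.2 hf)⟩ ^ i) = 0 := by
        apply Subtype.ext
        push_cast
        rw [Polynomial.eval_eq_sum, Polynomial.sum_def] at hQf
        exact hQf
      rw [h1, map_zero, map_zero]
  have hκ : ∀ a, E.κ a ∈ SA := by
    rintro ⟨a, ha⟩
    have h1 : ∃ ha : a ∈ adj R₀ (F : Set Ω), E.κ ⟨a, ha⟩ ∈ SA := by
      refine adj_induction (p := fun a => ∃ ha : a ∈ adj R₀ (F : Set Ω), E.κ ⟨a, ha⟩ ∈ SA)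
        ?_ ?_ ?_ ?_ ha
      · intro f hf
        refine ⟨base_le_adj R₀ _ hf, ?_⟩
        rw [E.κσ f _ (h.base.le hf) (base_le_adj _ _ hf)]
        exact hσ _
      · intro f hf
        exact ⟨mem_adj hf, hκgen f (Finset.mem_coe.1 hf)⟩
      · rintro f g ⟨hf, hf'⟩ ⟨hg, hg'⟩
        refine ⟨Subring.add_mem _ hf hg, ?_⟩
        have h2 := SA.add_mem hf' hg'
        rwa [← map_add] at h2
      · rintro f g ⟨hf, hf'⟩ ⟨hg, hg'⟩
        refine ⟨Subring.mul_mem _ hf hg, ?_⟩
        have h2 := SA.mul_mem hf' hg'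
        rwa [← map_mul] at h2
    exact h1.2
  have hκσ : Subring.closure (Set.range E.κ ∪ Set.range E.σ) ≤ SA := by
    rw [Subring.closure_le]
    rintro _ (⟨a, rfl⟩ | ⟨s, rfl⟩)
    · exact hκ a
    · exact hσ s
  have hU : E.U ∈ SA := by
    rw [hSA]
    have hc : ∀ i, j (E.P.coeff i) ∈ Subalgebra.algebraicClosure (MvPolynomial (Fin e) S) D₁ :=
      fun i => hκσ (E.Pcoeff i)
    have hψ1 : E.ψ (E.P.coeff 1) = H.coeff 1 := by
      rw [← Polynomial.coeff_map, E.Pmap]
    have hu1 : IsUnit (j (E.P.coeff 1)) :=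
      hj _ (by rw [hψ1]; exact h.H1_ne) (by rw [hψ1]; exact h.H1)
    have halg : IsAlgebraic (Subalgebra.algebraicClosure (MvPolynomial (Fin e) S) D₁) (j E.U) := by
      refine ⟨∑ i ∈ E.P.support, Polynomial.monomial i ⟨j (E.P.coeff i), hc i⟩, ?_, ?_⟩
      · intro h0
        have h1 := congrArg (fun p : Polynomial (Subalgebra.algebraicClosure
          (MvPolynomial (Fin e) S) D₁) => p.coeff 1) h0
        simp only [Polynomial.finsetSum_coeff, Polynomial.coeff_monomial,
          Finset.sum_ite_eq', Polynomial.coeff_zero] at h1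
        have hmem : 1 ∈ E.P.support := by
          rw [Polynomial.mem_support_iff]
          intro h2
          rw [h2, map_zero] at hψ1
          exact h.H1_ne hψ1.symm
        rw [if_pos hmem] at h1
        have h2 : j (E.P.coeff 1) = 0 := congrArg Subtype.val h1
        exact hu1.ne_zero h2
      · rw [map_sum]
        simp only [Polynomial.aeval_monomial]
        have h1 : ∀ i, algebraMap (Subalgebra.algebraicClosure (MvPolynomial (Fin e) S) D₁) D₁
            ⟨j (E.P.coeff i), hc i⟩ = j (E.P.coeff i) := fun _ => rfl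
        simp only [h1, ← map_pow, ← map_mul]
        rw [← map_sum]
        have h2 := E.PU
        rw [Polynomial.eval_eq_sum, Polynomial.sum_def] at h2
        rw [h2, map_zero]
    exact halg.restrictScalars (MvPolynomial (Fin e) S)
  intro d
  have hd : d ∈ Subring.closure (Set.range E.κ ∪ Set.range E.σ ∪ {E.U}) := by
    rw [E.top]
    exact Subring.mem_top d
  have hle : Subring.closure (Set.range E.κ ∪ Set.range E.σ ∪ {E.U}) ≤ SA := by
    rw [Subring.closure_le]
    rintro _ ((⟨a, rfl⟩ | ⟨s, rfl⟩) | rfl)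
    · exact hκ a
    · exact hσ s
    · exact hU
  exact hle hd

end Pool.Agent.LUC
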