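import Pool.Agent.Lib.LUC.C2
import Pool.Agent.Lib.LUC.D1
import Pool.Agent.Lib.LUC.D2
import Pool.Agent.Lib.LUC.D3
import Pool.Agent.Lib.LUC.D4
import Pool.Agent.Lib.LUC.D5

/-! # D7: the truncations of `O'` (assembly)

`exists_dring`, `lv_isLocalRing`, `lv_isNoetherian` (`adj_isNoetherian`), then `tau_of_ring` with `noeth`, `ge`, `gen`,
`unit`, `surj`, `alg`, and `range`. -/

set_option autoImplicit false

namespace Pool.Agent.LUC

open Pool.Agent.H15JM (RVal)
open Pool.Agent.LU1 (VPos)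
open Polynomial

universe u

variable {Ω : Type u} [Field Ω] {w : RVal Ω} {R₀ S : Subring Ω} {m e n : ℕ} {x : Fin m → Ω}
  {t : Fin e → Ω} {F : Finset Ω} {z : Fin n → Ω} {u : Ω} {H : Polynomial Ω}

theorem Sec2.tau (h : Sec2 w R₀ S x t F z u H) :
    Tau (lv w (adj S ((F : Set Ω) ∪ {u}))) n := by
  have := h.base.noeth₀
  have := h.base.noeth
  have i1 : IsNoetherianRing (adj R₀ (F : Set Ω)) := adj_isNoetherian R₀ F
  have i2 : IsNoetherianRing (lv w (adj R₀ (F : Set Ω))) := lv_isNoetherian _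
  have i3 : IsLocalRing (lv w (adj R₀ (F : Set Ω))) := lv_isLocalRing h.ge'
  obtain ⟨E⟩ := h.exists_dring
  have i4 : IsNoetherianRing E.D := DRing.noeth h E
  obtain ⟨z', hz', hgen⟩ := DRing.gen h E
  obtain ⟨ι, hinj, halg⟩ := DRing.alg h E
  have h1 := tau_of_ring w E.ψ (DRing.ge h E) z' hz' hgen h.dim E.τ (DRing.unit h E)
    (DRing.surj h E) ι hinj halg
  rwa [DRing.range h E] at h1

end Pool.Agent.LUC
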