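import Pool.Agent.Lib.LUC.Loc

/-! # The auxiliary ring `D` -/

set_option autoImplicit false

namespace Pool.Agent.LUC

open Pool.Agent.H15JM (RVal)
open Pool.Agent.LU1 (VPos)
open Polynomial

universe u

variable {Ω : Type u} [Field Ω]

/-- The auxiliary ring `D`: it contains copies of `A₀` and `S`, which agree on `R₀` and on the `x i`, and an element `U`
over `u`, which is a root of a polynomial over `H`; it has a homomorphism `ψ` to `Ω` and homomorphisms `τ M` to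
the truncations of the local ring `lv w A₀`. -/
structure DRing (w : RVal Ω) (R₀ S A₀ : Subring Ω) [IsLocalRing (lv w A₀)] {m : ℕ}
    (x : Fin m → Ω) (u : Ω) (H : Polynomial Ω) where
  D : Type u
  [ring : CommRing D]
  ψ : D →+* Ω
  τ : ∀ M : ℕ, D →+* lv w A₀ ⧸ IsLocalRing.maximalIdeal (lv w A₀) ^ M
  κ : A₀ →+* D
  σ : S →+* D
  U : D
  ψκ : ∀ a, ψ (κ a) = a
  ψσ : ∀ s, ψ (σ s) = s
  ψU : ψ U = u
  τκ : ∀ M (a : A₀), τ M (κ a) = Ideal.Quotient.mk _ ⟨a, le_lv w A₀ a.2⟩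
  κσ : ∀ (r : Ω) (h : r ∈ A₀) (h' : r ∈ S), r ∈ adj R₀ (Set.range x) → κ ⟨r, h⟩ = σ ⟨r, h'⟩
  τU : ∀ M, IsNilpotent (τ M U)
  P : D[X]
  PU : P.eval U = 0
  Pmap : P.map ψ = H
  Pcoeff : ∀ i, P.coeff i ∈ Subring.closure (Set.range κ ∪ Set.range σ)
  top : Subring.closure (Set.range κ ∪ Set.range σ ∪ {U}) = ⊤

attribute [instance] DRing.ring

/-- The hypotheses of section 2: `A₀ = R₀[F]`, `z` are parameters of `lv w A₀`, which has dimension `n`; `u` is a root of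
positive value of the polynomial `H` over `S[F]` with `w H₀ > 0`, `w H₁ = 0`. -/
structure Sec2 (w : RVal Ω) (R₀ S : Subring Ω) {m e n : ℕ} (x : Fin m → Ω) (t : Fin e → Ω)
    (F : Finset Ω) (z : Fin n → Ω) (u : Ω) (H : Polynomial Ω) : Prop where
  base : Base w R₀ S x
  ge : ∀ f ∈ F, w.Ge 0 f
  x_mem : ∀ i, x i ∈ adj R₀ (F : Set Ω)
  t_mem : ∀ j, t j ∈ adj R₀ (F : Set Ω)
  par : Par w (lv w (adj R₀ (F : Set Ω))) z
  dim : ringKrullDim (lv w (adj R₀ (F : Set Ω))) = n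
  ind : AlgebraicIndependent S t
  alg : ∀ f ∈ F, ∃ Q : Polynomial Ω, Q ≠ 0 ∧
    (∀ i, Q.coeff i ∈ adj R₀ (Set.range x ∪ Set.range t)) ∧ Q.eval f = 0
  coeff : ∀ i, H.coeff i ∈ adj S (F : Set Ω)
  H0 : VPos w (H.coeff 0)
  H1_ne : H.coeff 1 ≠ 0
  H1 : w (H.coeff 1) = 0
  root : H.eval u = 0
  u_pos : VPos w u

theorem Sec2.ge' {w : RVal Ω} {R₀ S : Subring Ω} {m e n : ℕ} {x : Fin m → Ω} {t : Fin e → Ω}
    {F : Finset Ω} {z : Fin n → Ω} {u : Ω} {H : Polynomial Ω} (h : Sec2 w R₀ S x t F z u H) :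
    ∀ f ∈ adj R₀ (F : Set Ω), w.Ge 0 f :=
  adj_nonneg (fun f hf => h.base.ge f (h.base.le hf)) fun f hf => h.ge f hf

end Pool.Agent.LUC
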