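import Pool.Agent.Lib.LUC.Loc

/-! # Q1: strong monomials, quotients with monomial denominators, charts

Recipes: port of `LUM/Q01.lean` (in the store: lum_Q01.lean; there: frames `WN` and `MonoPos`; here: a ring `O` with
parameters `z` and `SM w O z J`). `w t = ∑ i, e i * w (z i)` for `t = (∏ z i ^ e i) * u`. `SM.mul`: if `w s = 0` all
exponents of `s` are 0; the other cases: add the exponents. `SM.dvd_pow`: `E` = the maximum of the exponents.
`chart_of`: each `f ∈ FR` is `a_f / b_f`, `a_f, b_f ∈ adj R A`, `b_f` strong monomial; `g = ∏ b_f`, `G = {g f}`;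
`g f ∈ adj R A`; `adj R (A ∪ G / g) = adj R (A ∪ FR)` and its `lv` is `O` (`A ⊆ O`, `lv_eq_of_le`). -/

set_option autoImplicit false

namespace Pool.Agent.LUC

open Pool.Agent.H15JM (RVal)
open Pool.Agent.LU1 (VPos)

universe u

variable {Ω : Type u} [Field Ω] {w : RVal Ω} {R O O' : Subring Ω} {n : ℕ} {z : Fin n → Ω}
  {J : Finset (Fin n)} {s t : Ω}

theorem SM.ne (hz : ∀ i, z i ≠ 0) (h : SM w O z J t) : t ≠ 0 := by
  obtain ⟨e, u, hu, hu0, hu1, rfl, -⟩ := h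
  exact mul_ne_zero (Finset.prod_ne_zero_iff.2 fun i _ => zpow_ne_zero _ (hz i)) hu0

theorem SM.one : SM w O z J 1 := by
  exact ⟨fun _ => 0, 1, O.one_mem, one_ne_zero, w.map_one, by simp, fun _ _ => rfl,
    fun h => absurd h (by rw [w.map_one]; simp), fun h => absurd h (by rw [w.map_one]; simp),
    fun _ _ => rfl⟩

theorem SM.of_unit (h : t ∈ O) (h0 : t ≠ 0) (h1 : w t = 0) : SM w O z J t := by
  exact ⟨fun _ => 0, t, h, h0, h1, by simp, fun _ _ => rfl,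
    fun h => absurd h (by rw [h1]; simp), fun h => absurd h (by rw [h1]; simp),
    fun _ _ => rfl⟩

theorem SM.mul (hz : ∀ i, z i ≠ 0) (hs : SM w O z J s) (hs0 : 0 ≤ w s) (ht : SM w O z J t)
    (ht0 : 0 ≤ w t) : SM w O z J (s * t) := by
  have hfne := hs.ne hz
  have hgne := ht.ne hz
  have hv : w (s * t) = w s + w t := w.map_mul hfne hgne
  obtain ⟨n, u, hu, hu1, hu2, hfe, hfJ, hfp, -, hfz⟩ := hs
  obtain ⟨m, y, hw, hw1, hw2, hge, hgJ, hgp, -, hgz⟩ := ht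
  refine ⟨fun i => n i + m i, u * y, O.mul_mem hu hw, mul_ne_zero hu1 hw1, ?_, ?_, ?_, ?_, ?_, ?_⟩
  · rw [w.map_mul hu1 hw1, hu2, hw2, add_zero]
  · have h1 : (∏ i, z i ^ (n i + m i)) = (∏ i, z i ^ n i) * ∏ i, z i ^ m i := by
      rw [← Finset.prod_mul_distrib]
      exact Finset.prod_congr rfl fun i _ => zpow_add₀ (hz i) _ _
    rw [h1]
    conv_lhs => rw [hfe, hge]
    ring
  · intro i hi
    change n i + m i = 0
    rw [hfJ i hi, hgJ i hi, add_zero]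
  · intro h i hi
    rw [hv] at h
    change 0 < n i + m i
    rcases hs0.lt_or_eq with h1 | h1
    · rcases ht0.lt_or_eq with h2 | h2
      · have := hfp h1 i hi
        have := hgp h2 i hi
        omega
      · have := hfp h1 i hi
        have := hgz h2.symm i
        omega
    · rcases ht0.lt_or_eq with h2 | h2
      · have := hfz h1.symm i
        have := hgp h2 i hi
        omega
      · rw [← h1, ← h2] at h
        simp at h
  · intro h
    rw [hv] at h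
    exact absurd h (add_nonneg hs0 ht0).not_gt
  · intro h i
    rw [hv] at h
    have h1 : w s = 0 := by linarith
    have h2 : w t = 0 := by linarith
    change n i + m i = 0
    rw [hfz h1 i, hgz h2 i, add_zero]

theorem SM.inv (hO : ∀ f ∈ O, f ≠ 0 → w f = 0 → f⁻¹ ∈ O) (hz : ∀ i, z i ≠ 0)
    (h : SM w O z J t) : SM w O z J t⁻¹ := by
  have hne := h.ne hz
  obtain ⟨n, u, hu, hu1, hu2, hfe, hJ, hp, hn, hzz⟩ := h
  refine ⟨fun i => -n i, u⁻¹, hO u hu hu1 hu2, inv_ne_zero hu1, ?_, ?_, ?_, ?_, ?_, ?_⟩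
  · rw [w.map_inv hu1, hu2, neg_zero]
  · rw [hfe, mul_inv, ← Finset.prod_inv_distrib]
    congr 1
    exact Finset.prod_congr rfl fun i _ => by rw [zpow_neg]
  · intro i hi
    change -n i = 0
    rw [hJ i hi, neg_zero]
  · intro h i hi
    rw [w.map_inv hne] at h
    have := hn (by linarith) i hi
    change 0 < -n i
    omega
  · intro h i hi
    rw [w.map_inv hne] at h
    have := hp (by linarith) i hi
    change -n i < 0
    omega
  · intro h i
    rw [w.map_inv hne] at h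
    have := hzz (by linarith) i
    change -n i = 0
    omega

theorem SM.mul_unit (hz : ∀ i, z i ≠ 0) (h : SM w O z J t) (hs : s ∈ O) (hs0 : s ≠ 0)
    (hs1 : w s = 0) : SM w O z J (t * s) := by
  have hne := h.ne hz
  have hv : w (t * s) = w t := by rw [w.map_mul hne hs0, hs1, add_zero]
  obtain ⟨n, y, hy, hy1, hy2, hfe, hJ, hp, hn, hzz⟩ := h
  refine ⟨n, y * s, O.mul_mem hy hs, mul_ne_zero hy1 hs0, ?_, ?_, hJ, ?_, ?_, ?_⟩
  · rw [w.map_mul hy1 hs0, hy2, hs1, add_zero]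
  · conv_lhs => rw [hfe]
    ring
  · rw [hv]; exact hp
  · rw [hv]; exact hn
  · rw [hv]; exact hzz

theorem SM.mono_ring (hO : O ≤ O') (h : SM w O z J t) : SM w O' z J t := by
  obtain ⟨n, y, hy, h⟩ := h
  exact ⟨n, y, hO hy, h⟩

private theorem SM.nonneg_exp {e : Fin n → ℤ} (h0 : 0 ≤ w t) (hJ : ∀ i, i ∉ J → e i = 0)
    (hp : 0 < w t → ∀ i ∈ J, 0 < e i) (hzz : w t = 0 → ∀ i, e i = 0) : ∀ i, 0 ≤ e i := by
  intro i
  by_cases hi : i ∈ J
  · rcases h0.lt_or_eq with h1 | h1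
    · exact (hp h1 i hi).le
    · exact (hzz h1.symm i).ge
  · exact (hJ i hi).ge

theorem SM.mem (hz : ∀ i, z i ∈ O) (h : SM w O z J t) (h0 : 0 ≤ w t) : t ∈ O := by
  obtain ⟨n, u, hu, hu1, hu2, hfe, hJ, hp, -, hzz⟩ := h
  have hn := SM.nonneg_exp h0 hJ hp hzz
  rw [hfe]
  refine O.mul_mem (O.prod_mem fun j _ => ?_) hu
  obtain ⟨m, hm⟩ := Int.eq_ofNat_of_zero_le (hn j)
  rw [hm]
  change z j ^ ((m : ℕ) : ℤ) ∈ O
  rw [zpow_natCast]
  exact O.pow_mem (hz j) _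

/-- A strong monomial of positive value is divisible by the product of the `z i`, `i ∈ J`. -/
theorem SM.dvd (hz : ∀ i, z i ∈ O) (hz0 : ∀ i, z i ≠ 0) (h : SM w O z J t) (h0 : 0 < w t) :
    ∃ a ∈ O, t = (∏ i ∈ J, z i) * a := by
  classical
  obtain ⟨n, u, hu, hu1, hu2, hfe, hJ, hp, -, hzz⟩ := h
  refine ⟨(∏ j ∈ J, z j ^ (n j - 1).toNat) * u, O.mul_mem (O.prod_mem fun j _ =>
    O.pow_mem (hz j) _) hu, ?_⟩
  have h1 : (∏ i, z i ^ n i) = ∏ i ∈ J, z i ^ n i := by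
    refine (Finset.prod_subset (Finset.subset_univ J) fun i _ hi => ?_).symm
    rw [hJ i hi, zpow_zero]
  rw [hfe, h1, ← mul_assoc, ← Finset.prod_mul_distrib]
  congr 1
  refine Finset.prod_congr rfl fun j hj => ?_
  have h1 := hp h0 j hj
  rw [← pow_succ', ← zpow_natCast]
  congr 1
  omega

/-- A strong monomial of value `≥ 0` divides a power of the product of the `z i`, `i ∈ J`. -/
theorem SM.dvd_pow (hO : ∀ f ∈ O, f ≠ 0 → w f = 0 → f⁻¹ ∈ O) (hz : ∀ i, z i ∈ O)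
    (hz0 : ∀ i, z i ≠ 0) (h : SM w O z J t) (h0 : 0 ≤ w t) :
    ∃ E : ℕ, ∃ a ∈ O, (∏ i ∈ J, z i) ^ E = t * a := by
  classical
  obtain ⟨n, u, hu, hu1, hu2, hfe, hJ, hp, -, hzz⟩ := h
  have hn := SM.nonneg_exp h0 hJ hp hzz
  obtain ⟨E, hE⟩ : ∃ E : ℕ, ∀ j, n j ≤ E :=
    ⟨∑ j, (n j).toNat, fun j => by
      have h1 : (n j).toNat ≤ ∑ j, (n j).toNat :=
        Finset.single_le_sum (f := fun j => (n j).toNat) (fun _ _ => Nat.zero_le _)
          (Finset.mem_univ j)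
      have h2 := hn j
      omega⟩
  refine ⟨E, (∏ j ∈ J, z j ^ (E - n j).toNat) * u⁻¹, O.mul_mem (O.prod_mem fun j _ =>
    O.pow_mem (hz j) _) (hO u hu hu1 hu2), ?_⟩
  have h2 : (∏ i, z i ^ n i) = ∏ i ∈ J, z i ^ n i := by
    refine (Finset.prod_subset (Finset.subset_univ J) fun i _ hi => ?_).symm
    rw [hJ i hi, zpow_zero]
  have h1 : (∏ j ∈ J, z j) ^ E = (∏ j ∈ J, z j ^ n j) * ∏ j ∈ J, z j ^ (E - n j).toNat := by
    rw [← Finset.prod_pow, ← Finset.prod_mul_distrib]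
    refine Finset.prod_congr rfl fun j _ => ?_
    have h2 := hE j
    have h3 := hn j
    rw [← zpow_natCast, ← zpow_natCast, ← zpow_add₀ (hz0 j)]
    congr 1
    omega
  rw [h1, hfe, h2]
  field_simp

/-- If some strong monomial has positive value, `J` is not empty. -/
theorem SM.nonempty (hz0 : ∀ i, z i ≠ 0) (h : SM w O z J t) (h0 : 0 < w t) : J.Nonempty := by
  obtain ⟨n, u, hu, hu1, hu2, hfe, hJ, -⟩ := h
  rw [Finset.nonempty_iff_ne_empty]
  rintro rfl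
  have h1 : t = u := by
    rw [hfe]
    have : ∀ i, z i ^ n i = 1 := fun i => by rw [hJ i (Finset.notMem_empty i), zpow_zero]
    simp [this]
  rw [h1, hu2] at h0
  exact lt_irrefl _ h0

/-- A strong monomial of positive value is in the ideal generated by the `z i`. -/
theorem SM.ip (hz : ∀ i, z i ∈ O) (hz0 : ∀ i, z i ≠ 0) (h : SM w O z J t) (h0 : 0 < w t) :
    IP O z 1 t := by
  classical
  obtain ⟨a, ha, h1⟩ := SM.dvd hz hz0 h h0
  obtain ⟨j, hj⟩ := SM.nonempty hz0 h h0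
  rw [h1, ← Finset.mul_prod_erase _ _ hj, mul_assoc]
  exact (IP.gen (hz j)).mul_right (O.mul_mem (O.prod_mem fun i _ => hz i) ha)

/-- The quotients `a / b`, `a, b ∈ A`, `b` a strong monomial. -/
def QM (w : RVal Ω) (O : Subring Ω) {n : ℕ} (z : Fin n → Ω) (J : Finset (Fin n))
    (hz : ∀ i, z i ≠ 0) (A : Subring Ω) (hA : ∀ a ∈ A, w.Ge 0 a) : Subring Ω where
  carrier := {f | ∃ a ∈ A, ∃ b ∈ A, SM w O z J b ∧ f = a / b}
  mul_mem' := by
    rintro f g ⟨a, ha, b, hb, hb0, rfl⟩ ⟨c, hc, d, hd, hd0, rfl⟩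
    exact ⟨a * c, A.mul_mem ha hc, b * d, A.mul_mem hb hd,
      hb0.mul hz (hA b hb (hb0.ne hz)) hd0 (hA d hd (hd0.ne hz)), by rw [div_mul_div_comm]⟩
  one_mem' := ⟨1, A.one_mem, 1, A.one_mem, SM.one, by rw [div_one]⟩
  add_mem' := by
    rintro f g ⟨a, ha, b, hb, hb0, rfl⟩ ⟨c, hc, d, hd, hd0, rfl⟩
    exact ⟨a * d + b * c, A.add_mem (A.mul_mem ha hd) (A.mul_mem hb hc), b * d,
      A.mul_mem hb hd, hb0.mul hz (hA b hb (hb0.ne hz)) hd0 (hA d hd (hd0.ne hz)), by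
        rw [div_add_div _ _ (hb0.ne hz) (hd0.ne hz)]⟩
  zero_mem' := ⟨0, A.zero_mem, 1, A.one_mem, SM.one, by rw [zero_div]⟩
  neg_mem' := by
    rintro f ⟨a, ha, b, hb, hb0, rfl⟩
    exact ⟨-a, A.neg_mem ha, b, hb, hb0, by rw [neg_div]⟩

section QM

variable {hz : ∀ i, z i ≠ 0} {A : Subring Ω} {hA : ∀ a ∈ A, w.Ge 0 a}

theorem le_QM : A ≤ QM w O z J hz A hA := by
  intro a ha
  exact ⟨a, ha, 1, A.one_mem, SM.one, by rw [div_one]⟩

theorem qm_inv (hO : ∀ f ∈ O, f ≠ 0 → w f = 0 → f⁻¹ ∈ O) (h : t ∈ QM w O z J hz A hA)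
    (h0 : 0 ≤ w t) (h1 : SM w O z J t) : t⁻¹ ∈ QM w O z J hz A hA := by
  obtain ⟨a, ha, b, hb, hbm, rfl⟩ := h
  have hb0 := hbm.ne hz
  have h2 := h1.mul hz h0 hbm (hA b hb hb0)
  rw [div_mul_cancel₀ a hb0] at h2
  exact ⟨b, hb, a, ha, h2, by rw [inv_div]⟩

theorem qm_lv (hO : ∀ f ∈ O, f ≠ 0 → w f = 0 → f⁻¹ ∈ O) {B : Subring Ω}
    (hB : B ≤ QM w O z J hz A hA) (hBO : B ≤ O) : lv w B ≤ QM w O z J hz A hA := by
  rintro f ⟨a, ha, b, hb, hb0, hvb, rfl⟩
  rw [div_eq_mul_inv]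
  exact (QM w O z J hz A hA).mul_mem (hB ha)
    (qm_inv hO (hB hb) hvb.ge (SM.of_unit (hBO hb) hb0 hvb))

/-- The ring `O` is the local ring of a chart of a blowing up. -/
theorem chart_of (hO : ∀ f ∈ O, f ≠ 0 → w f = 0 → f⁻¹ ∈ O) (hO0 : ∀ f ∈ O, w.Ge 0 f)
    (A : Finset Ω) (hA : ∀ a ∈ adj R (A : Set Ω), w.Ge 0 a)
    (hAO : ∀ a ∈ A, a ∈ O) (FR : Finset Ω) (hR : O = lv w (adj R (FR : Set Ω)))
    (hq : ∀ f ∈ FR, f ∈ QM w O z J hz (adj R (A : Set Ω)) hA) :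
    ∃ g ∈ adj R (A : Set Ω), g ≠ 0 ∧ SM w O z J g ∧ ∃ G : Finset Ω,
      (∀ x ∈ G, x ∈ adj R (A : Set Ω) ∧ w.Ge (w g) x) ∧
      O = lv w (adj R ((A : Set Ω) ∪ (fun x => x / g) '' (G : Set Ω))) := by
  classical
  have hFR : ∀ f ∈ FR, f ∈ O := by
    intro f hf
    rw [hR]
    exact le_lv w _ (mem_adj (Finset.mem_coe.2 hf))
  have hRO : R ≤ O := by
    rw [hR]
    exact (base_le_adj R _).trans (le_lv w _)
  have hfrac : ∀ y : Ω, ∃ nu de : Ω, y ∈ FR → (nu ∈ adj R (A : Set Ω) ∧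
      de ∈ adj R (A : Set Ω) ∧ SM w O z J de ∧ y = nu / de) := by
    intro y
    by_cases hy : y ∈ FR
    · obtain ⟨a, ha, b, hb, hbm, h1⟩ := hq y hy
      exact ⟨a, b, fun _ => ⟨ha, hb, hbm, h1⟩⟩
    · exact ⟨0, 0, fun h => absurd h hy⟩
  choose nu de hnd using hfrac
  have hprod : ∀ s : Finset Ω, s ⊆ FR → (∏ y ∈ s, de y) ∈ adj R (A : Set Ω) ∧
      SM w O z J (∏ y ∈ s, de y) := by
    intro s
    induction s using Finset.induction_on with
    | empty =>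
      intro _
      rw [Finset.prod_empty]
      exact ⟨Subring.one_mem _, SM.one⟩
    | insert y s hy ih =>
      intro hs
      have h1 := ih fun z hz => hs (Finset.mem_insert_of_mem hz)
      have h2 := hnd y (hs (Finset.mem_insert_self y s))
      rw [Finset.prod_insert hy]
      exact ⟨Subring.mul_mem _ h2.2.1 h1.1,
        h2.2.2.1.mul hz (hA _ h2.2.1 (h2.2.2.1.ne hz)) h1.2 (hA _ h1.1 (h1.2.ne hz))⟩
  obtain ⟨g, hg⟩ : ∃ g : Ω, g = ∏ y ∈ FR, de y := ⟨_, rfl⟩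
  have hgA : g ∈ adj R (A : Set Ω) := by rw [hg]; exact (hprod FR subset_rfl).1
  have hgm : SM w O z J g := by rw [hg]; exact (hprod FR subset_rfl).2
  have hg0 : g ≠ 0 := hgm.ne hz
  refine ⟨g, hgA, hg0, hgm, FR.image fun y => g * y, ?_, ?_⟩
  · intro x hx
    obtain ⟨y, hy, rfl⟩ := Finset.mem_image.1 hx
    refine ⟨?_, fun h0 => ?_⟩
    · have h1 : g * y = nu y * ∏ y' ∈ FR.erase y, de y' := by
        have h2 : de y ≠ 0 := (hnd y hy).2.2.1.ne hz
        have h3 : nu y = y * de y := (div_eq_iff h2).1 (hnd y hy).2.2.2.symm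
        rw [hg, ← Finset.mul_prod_erase _ _ hy, h3]
        ring
      rw [h1]
      exact Subring.mul_mem _ (hnd y hy).1 (hprod _ (Finset.erase_subset _ _)).1
    · have h1 : y ≠ 0 := right_ne_zero_of_mul h0
      rw [w.map_mul hg0 h1]
      have := hO0 y (hFR y hy) h1
      linarith
  · have h1 : (fun x => x / g) '' ((FR.image fun y => g * y : Finset Ω) : Set Ω) =
        (FR : Set Ω) := by
      ext x
      simp only [Set.mem_image, Finset.mem_coe, Finset.mem_image]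
      constructor
      · rintro ⟨_, ⟨y, hy, rfl⟩, rfl⟩
        rw [mul_div_cancel_left₀ _ hg0]
        exact hy
      · intro hx
        exact ⟨g * x, ⟨x, hx, rfl⟩, mul_div_cancel_left₀ _ hg0⟩
    rw [h1]
    apply le_antisymm
    · conv_lhs => rw [hR]
      exact lv_mono (adj_mono le_rfl Set.subset_union_right)
    · refine lv_le ?_ hO
      refine adj_le hRO ?_
      rintro f (hf | hf)
      · exact hAO f hf
      · exact hFR f hf

end QM

end Pool.Agent.LUC
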