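import Pool.Agent.Lib.LUC.SDefs
import Pool.Agent.Lib.LUC.D6
import Pool.Agent.Lib.LUC.Q1

/-! # F1: elements of `S[B, u]` are monomials

Recipes (section 4 of l15_cp_h16.md). `L = lv w (adj R₀ B)`, `Bl = lv w (adj S (B ∪ {u}))`, `L ≤ Bl`.
`approx`: `IP Bl α 1 u` by `root_mem` (`H0`, `IP.mono`), then `decomp` for this `L` and `U = {u}`
(`lv w (adj S (L ∪ {u})) = Bl`, `lv_eq_of_le`; `hx` by `α_x`), then `IP.approx`.
`split`: `ε > 0` with `ε ≤ w (α i)` for all `i`, `M` with `M ε > w f`; `f₀` from `approx`: `w.Ge (M ε) (f - f₀)` (`IP.ge`), so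
`f₀ ≠ 0`, `w f₀ = w f` (`RVal.add_of_lt`); the products of `M` of the `α` have value `≥ M ε`.
`sm_of_split`: by `IP.sum_iff` `f = f₀ + ∑ φ, c φ * ∏ i, α (φ i)`, `c φ ∈ Bl ≤ O'`; `f / f₀ = 1 + ∑ φ, c φ * ((∏ α) / f₀)`, the
quotients have positive value and are `SM w O₀ z J`, so they are in `O₀ ≤ O'` (`SM.mem`) and the sum is an element of
`O'` of positive value: `v = f / f₀` is in `O'` and has value 0 (`val_add_vpos`). -/

set_option autoImplicit false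

namespace Pool.Agent.LUC

open Pool.Agent.H15JM (RVal)
open Pool.Agent.LU1 (VPos)
open Polynomial

universe u

variable {Ω : Type u} [Field Ω] {w : RVal Ω} {R₀ S : Subring Ω} {m e q : ℕ} {x : Fin m → Ω}
  {t : Fin e → Ω} {K₀ K' : Subfield Ω} {B : Finset Ω} {α : Fin q → Ω} {u : Ω} {H : Polynomial Ω}

theorem Setup.approx (h : Setup w R₀ S x t K₀ K' B α u H) (M : ℕ) :
    ∀ f ∈ lv w (adj S ((B : Set Ω) ∪ {u})), ∃ f₀ ∈ lv w (adj R₀ (B : Set Ω)),
      IP (lv w (adj S ((B : Set Ω) ∪ {u}))) α M (f - f₀) := by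
  set L := lv w (adj R₀ (B : Set Ω)) with hLdef
  set Bl := lv w (adj S ((B : Set Ω) ∪ {u})) with hBldef
  have hu0 : w.Ge 0 u := h.u_pos.ge
  have hge : ∀ f ∈ Bl, w.Ge 0 f := lv_nonneg (adj_nonneg h.base.ge (by
    rintro b (hb | hb)
    · exact h.ge b hb
    · rw [Set.mem_singleton_iff] at hb
      rw [hb]
      exact hu0))
  have hLge : ∀ f ∈ L, w.Ge 0 f :=
    lv_nonneg (adj_nonneg (fun r hr => h.base.ge r (h.base.le hr)) h.ge)
  have hSB : adj S (B : Set Ω) ≤ adj S ((B : Set Ω) ∪ {u}) :=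
    adj_mono le_rfl Set.subset_union_left
  have hSBl : adj S (B : Set Ω) ≤ Bl := hSB.trans (le_lv w _)
  have hLB : L ≤ Bl := lv_mono (adj_mono h.base.le Set.subset_union_left)
  have hBL : (B : Set Ω) ⊆ (L : Set Ω) := fun b hb => le_lv w _ (mem_adj hb)
  have hαL : ∀ i, α i ∈ L := fun i => hBL (h.α_mem i)
  have huB : u ∈ Bl := le_lv w _ (mem_adj (Or.inr rfl))
  have heq : lv w (adj S ((L : Set Ω) ∪ {u})) = Bl := by
    refine lv_eq_of_le (adj_mono le_rfl (Set.union_subset_union_left _ hBL)) ?_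
    refine adj_le ((base_le_adj S _).trans (le_lv w _)) ?_
    rintro f (hf | hf)
    · exact hLB hf
    · rw [Set.mem_singleton_iff] at hf
      rw [hf]
      exact huB
  have hu1 : IP Bl α 1 u := by
    refine root_mem Bl hge (fun f => lv_inv) α H (fun i => hSBl (h.coeff i)) ?_ h.H1_ne h.H1 u
      huB h.u_pos h.root
    exact h.H0.mono hSBl fun i => hLB (hαL i)
  have hRL : R₀ ≤ L := (base_le_adj R₀ _).trans (le_lv w _)
  have hx : ∀ i, IP L α 1 (x i) := by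
    intro i
    obtain ⟨j, hj⟩ := h.α_x i
    rw [← hj]
    exact IP.gen (hαL j)
  have hSle : S ≤ Bl := (base_le_adj S _).trans (le_lv w _)
  have hdec := decomp S L h.base.ge hLge (fun f => lv_inv) α hαL
    (fun i _ => h.α_pos i) {u} (by
      intro u' hu'
      rw [Set.mem_singleton_iff] at hu'
      rw [hu']
      exact hu0) (by
      rw [heq]
      exact h.base.decomp_hS L hRL α hx Bl hSle hLB hαL) (by
      intro u' hu'
      rw [Set.mem_singleton_iff] at hu'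
      rw [heq, hu']
      exact ⟨0, L.zero_mem, by rw [sub_zero]; exact hu1⟩)
  rw [heq] at hdec
  exact IP.approx hLB hαL hdec M

theorem Setup.split (h : Setup w R₀ S x t K₀ K' B α u H) (f : Ω)
    (hf : f ∈ lv w (adj S ((B : Set Ω) ∪ {u}))) (h0 : f ≠ 0) :
    ∃ (f₀ : Ω) (M : ℕ), f₀ ∈ lv w (adj R₀ (B : Set Ω)) ∧ f₀ ≠ 0 ∧ w f₀ = w f ∧
      IP (lv w (adj S ((B : Set Ω) ∪ {u}))) α M (f - f₀) ∧
      ∀ φ : Fin M → Fin q, w f < w (∏ i, α (φ i)) := by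
  classical
  obtain ⟨ε, hε, hεα⟩ : ∃ ε : ℝ, 0 < ε ∧ ∀ i, ε ≤ w (α i) := by
    rcases Nat.eq_zero_or_pos q with hq | hq
    · subst hq
      exact ⟨1, one_pos, fun i => i.elim0⟩
    · obtain ⟨i, _, hi⟩ := Finset.exists_min_image Finset.univ (fun i : Fin q => w (α i))
        ⟨⟨0, hq⟩, Finset.mem_univ _⟩
      exact ⟨w (α i), h.α_pos i, fun j => hi j (Finset.mem_univ j)⟩
  obtain ⟨M, hM⟩ := exists_nat_gt (w f / ε)
  have hM' : w f < M * ε := by rwa [div_lt_iff₀ hε] at hM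
  obtain ⟨f₀, hf₀, hff⟩ := h.approx M f hf
  have hu0 : w.Ge 0 u := h.u_pos.ge
  have hge : ∀ f ∈ lv w (adj S ((B : Set Ω) ∪ {u})), w.Ge 0 f := lv_nonneg (adj_nonneg h.base.ge (by
    rintro b (hb | hb)
    · exact h.ge b hb
    · rw [Set.mem_singleton_iff] at hb
      rw [hb]
      exact hu0))
  have hαB : ∀ i, α i ∈ lv w (adj S ((B : Set Ω) ∪ {u})) := fun i =>
    le_lv w _ (mem_adj (Or.inl (h.α_mem i)))
  have h1 : w.Ge (M * ε) (f - f₀) := hff.ge hge (fun i _ => hεα i) hαB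
  have h2 : f₀ ≠ 0 ∧ w f₀ = w f := by
    by_cases h3 : f - f₀ = 0
    · rw [sub_eq_zero] at h3
      rw [← h3]
      exact ⟨h0, rfl⟩
    · have h4 : w f < w (-(f - f₀)) := by
        rw [w.map_neg _ h3]
        exact lt_of_lt_of_le hM' (h1 h3)
      have h5 := w.add_of_lt h0 (neg_ne_zero.2 h3) h4
      have h6 : f + -(f - f₀) = f₀ := by ring
      rwa [h6] at h5
  refine ⟨f₀, M, hf₀, h2.1, h2.2, hff, fun φ => ?_⟩
  rw [w.map_prod _ _ fun i _ => h.α_ne (φ i)]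
  refine lt_of_lt_of_le hM' ?_
  calc (M : ℝ) * ε = ∑ _i : Fin M, ε := by
        rw [Finset.sum_const, Finset.card_univ, Fintype.card_fin, nsmul_eq_mul]
    _ ≤ _ := Finset.sum_le_sum fun i _ => hεα (φ i)

theorem sm_of_split {Bl O₀ O' : Subring Ω} {n : ℕ} {z : Fin n → Ω} {J : Finset (Fin n)} {M : ℕ}
    (hαB : ∀ i, α i ∈ Bl) (hα : ∀ i, α i ≠ 0) (hBl : Bl ≤ O') (hO : O₀ ≤ O')
    (hge : ∀ f ∈ O', w.Ge 0 f) (hz : ∀ i, z i ∈ O₀) {f f₀ : Ω} (hf₀ : f₀ ≠ 0)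
    (hw : w f₀ = w f) (hip : IP Bl α M (f - f₀))
    (hlt : ∀ φ : Fin M → Fin q, w f < w (∏ i, α (φ i)))
    (hsm : ∀ φ : Fin M → Fin q, SM w O₀ z J ((∏ i, α (φ i)) / f₀)) :
    ∃ v ∈ O', v ≠ 0 ∧ w v = 0 ∧ f = f₀ * v := by
  classical
  obtain ⟨c, hc, hcf⟩ := (IP.sum_iff hαB).1 hip
  have hprod : ∀ φ : Fin M → Fin q, (∏ i, α (φ i)) ≠ 0 := fun φ =>
    Finset.prod_ne_zero_iff.2 fun i _ => hα _
  have hpos : ∀ φ : Fin M → Fin q, 0 < w ((∏ i, α (φ i)) / f₀) := by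
    intro φ
    rw [w.map_div (hprod φ) hf₀, hw]
    have := hlt φ
    linarith
  have hmem : ∀ φ : Fin M → Fin q, (∏ i, α (φ i)) / f₀ ∈ O' := fun φ =>
    hO ((hsm φ).mem hz (hpos φ).le)
  let g : Ω := ∑ φ : Fin M → Fin q, c φ * ((∏ i, α (φ i)) / f₀)
  have hg : g ∈ O' := O'.sum_mem fun φ _ => O'.mul_mem (hBl (hc φ)) (hmem φ)
  have hgv : VPos w g := by
    refine Finset.sum_induction _ (VPos w) (fun _ _ h h' => h.add h') VPos.zero fun φ _ => ?_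
    exact VPos.mul' (hge _ (hBl (hc φ))) fun _ => hpos φ
  have h1 := LU1.val_add_vpos (v := w) (one_ne_zero : (1 : Ω) ≠ 0) w.map_one hgv
  refine ⟨1 + g, O'.add_mem O'.one_mem hg, h1.1, h1.2, ?_⟩
  have h2 : f₀ * g = f - f₀ := by
    rw [hcf, Finset.mul_sum]
    refine Finset.sum_congr rfl fun φ _ => ?_
    field_simp
  rw [mul_add, mul_one, h2]
  ring

end Pool.Agent.LUC
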