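import Pool.Agent.Lib.LUC.SDefs
import Pool.Agent.Lib.LUC.DDefs
import Pool.Agent.Lib.LUC.D6
import Pool.Agent.Lib.LUC.D7
import Pool.Agent.Lib.LUC.F1
import Pool.Agent.Lib.LUC.Q1

/-! # F3: log uniformization of `K'`

Recipes (section 5 of l15_cp_h16.md). `Bl = lv w (adj S (B ∪ {u}))`.
`exists_T₀`: given finitely many elements `Λ` of `K'`, not zero: each `λ ∈ Λ` is `F / G`, `F, G ∈ adj S (B ∪ {u}) ≤ Bl` (`quo`); `split` for
`F` and `G` gives `F₀, M_F`, `G₀, M_G`. `T₀` = all `F₀ / G₀`, `(∏ i, α (φ i)) / F₀` (`φ : Fin M_F → Fin q`), `(∏ i, α (φ i)) / G₀`: elements of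
`K₀` (`quo₀`; `lv w (adj R₀ B) ⊆ K₀`), not zero. If `O₀ ≤ O'`, `Bl ≤ O'` and all elements of `T₀` are `SM w O₀ z J`, then by
`sm_of_split` `F = F₀ v`, `G = G₀ v'`, `λ = (F₀ / G₀) (v / v')` is `SM w O' z J` (`SM.mono_ring`, `SM.mul_unit`).
`sec2`: `Sec2` for `F = B ∪ {y / g : y ∈ G}`, `g ∈ adj R₀ B`: only `alg` needs work: `y / g` is algebraic over the domain
`adj R₀ (range x ∪ range t)` (all `b ∈ B` are: `IsAlgebraic`, closed under ring operations and quotients in `Ω`), so it is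
a root of a nonzero polynomial with coefficients there.
`lut`: given `A`, `T`. `Λ` = the nonzero elements of `A ∪ T ∪ {a_φ, b_φ : φ ∈ B ∪ {u}}`, `φ = a_φ / b_φ`, `a_φ, b_φ ∈ adj S A`,
`b_φ ≠ 0` (`QuoIs (adj S A) K'`). `T₀` from `exists_T₀`; `hL B` with `T₀`: `n, z, J, O₀`, `IsMod`; `g, G` from `chart`; `F` the
finite set `B ∪ G / g`, `O₀ = lv w (adj R₀ F)`; `O' = lv w (adj S (F ∪ {u}))`; `Sec2.par'`, `Sec2.tau`. Elements of `Λ`
are `SM w O' z J`; so `A ⊆ O'` (`SM.mem`, or 0). Chart: `chart_of` for `R = S`, `A`, `FR = F ∪ {u}`: `φ = a_φ / b_φ ∈ QM`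
for `φ ∈ B ∪ {u}`; so `adj R₀ B ≤ adj S B ≤ QM`, `g⁻¹ ∈ QM` (`qm_inv`: `g` is `SM w O₀ z J`, so `SM w O' z J`), `y / g ∈ QM`. -/

set_option autoImplicit false

namespace Pool.Agent.LUC

open Pool.Agent.H15JM (RVal)
open Pool.Agent.LU1 (VPos)
open Polynomial

universe u

variable {Ω : Type u} [Field Ω] {w : RVal Ω} {R₀ S : Subring Ω} {m e q : ℕ} {x : Fin m → Ω}
  {t : Fin e → Ω} {K₀ K' : Subfield Ω} {B : Finset Ω} {α : Fin q → Ω} {u : Ω} {H : Polynomial Ω}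

private theorem exists_T₀_one (h : Setup w R₀ S x t K₀ K' B α u H) (f : Ω)
    (hf : f ∈ K') (hf0 : f ≠ 0) :
    ∃ T₀ : Finset Ω, (∀ f ∈ T₀, f ∈ K₀ ∧ f ≠ 0) ∧
      ∀ (n : ℕ) (z : Fin n → Ω) (J : Finset (Fin n)) (O₀ O' : Subring Ω), (∀ i, z i ∈ O₀) →
        (∀ i, z i ≠ 0) → O₀ ≤ O' → (∀ f ∈ O', w.Ge 0 f) →
        (∀ f ∈ O', f ≠ 0 → w f = 0 → f⁻¹ ∈ O') →
        lv w (adj S ((B : Set Ω) ∪ {u})) ≤ O' → (∀ f ∈ T₀, SM w O₀ z J f) → SM w O' z J f := by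
  classical
  obtain ⟨F, hF, G, hG, hG0, rfl⟩ := h.quo.2 f hf
  have hF0 : F ≠ 0 := by
    rintro rfl
    exact hf0 (zero_div G)
  have hL : ∀ a ∈ lv w (adj R₀ (B : Set Ω)), a ∈ K₀ := by
    rintro a ⟨b, hb, c, hc, -, -, rfl⟩
    exact K₀.div_mem (h.quo₀.1 b hb) (h.quo₀.1 c hc)
  have hα : ∀ i, α i ∈ K₀ := fun i => h.quo₀.1 _ (mem_adj (h.α_mem i))
  obtain ⟨F₀, M, hF₀, hF₀0, hwF, hipF, hltF⟩ := h.split F (le_lv w _ hF) hF0
  obtain ⟨G₀, N, hG₀, hG₀0, hwG, hipG, hltG⟩ := h.split G (le_lv w _ hG) hG0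
  refine ⟨{F₀ / G₀} ∪ Finset.univ.image (fun φ : Fin M → Fin q => (∏ i, α (φ i)) / F₀) ∪
    Finset.univ.image (fun φ : Fin N → Fin q => (∏ i, α (φ i)) / G₀), ?_, ?_⟩
  · intro a ha
    rw [Finset.mem_union, Finset.mem_union, Finset.mem_singleton, Finset.mem_image,
      Finset.mem_image] at ha
    rcases ha with (rfl | ⟨φ, -, rfl⟩) | ⟨φ, -, rfl⟩
    · exact ⟨K₀.div_mem (hL _ hF₀) (hL _ hG₀), div_ne_zero hF₀0 hG₀0⟩
    · exact ⟨K₀.div_mem (K₀.prod_mem fun i _ => hα _) (hL _ hF₀),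
        div_ne_zero (Finset.prod_ne_zero_iff.2 fun i _ => h.α_ne _) hF₀0⟩
    · exact ⟨K₀.div_mem (K₀.prod_mem fun i _ => hα _) (hL _ hG₀),
        div_ne_zero (Finset.prod_ne_zero_iff.2 fun i _ => h.α_ne _) hG₀0⟩
  · intro n z J O₀ O' hz hz0 hO hge hinv hBl hT
    have hαB : ∀ i, α i ∈ lv w (adj S ((B : Set Ω) ∪ {u})) := fun i =>
      le_lv w _ (mem_adj (Or.inl (h.α_mem i)))
    obtain ⟨v, hv, hv0, hwv, hFv⟩ := sm_of_split hαB h.α_ne hBl hO hge hz hF₀0 hwF hipF hltF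
      fun φ => hT _ (Finset.mem_union_left _ (Finset.mem_union_right _
        (Finset.mem_image_of_mem _ (Finset.mem_univ φ))))
    obtain ⟨v', hv', hv'0, hwv', hGv⟩ := sm_of_split hαB h.α_ne hBl hO hge hz hG₀0 hwG hipG hltG
      fun φ => hT _ (Finset.mem_union_right _ (Finset.mem_image_of_mem _ (Finset.mem_univ φ)))
    have h1 : SM w O₀ z J (F₀ / G₀) := hT _ (Finset.mem_union_left _ (Finset.mem_union_left _
      (Finset.mem_singleton_self _)))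
    have h2 : F / G = F₀ / G₀ * (v * v'⁻¹) := by
      rw [hFv, hGv]
      field_simp
    rw [h2]
    refine (h1.mono_ring hO).mul_unit hz0 (O'.mul_mem hv (hinv v' hv' hv'0 hwv'))
      (mul_ne_zero hv0 (inv_ne_zero hv'0)) ?_
    rw [w.map_mul hv0 (inv_ne_zero hv'0), w.map_inv hv'0, hwv, hwv', neg_zero, add_zero]

theorem Setup.exists_T₀ (h : Setup w R₀ S x t K₀ K' B α u H) (Λ : Finset Ω)
    (hΛ : ∀ f ∈ Λ, f ∈ K' ∧ f ≠ 0) :
    ∃ T₀ : Finset Ω, (∀ f ∈ T₀, f ∈ K₀ ∧ f ≠ 0) ∧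
      ∀ (n : ℕ) (z : Fin n → Ω) (J : Finset (Fin n)) (O₀ O' : Subring Ω), (∀ i, z i ∈ O₀) →
        (∀ i, z i ≠ 0) → O₀ ≤ O' → (∀ f ∈ O', w.Ge 0 f) →
        (∀ f ∈ O', f ≠ 0 → w f = 0 → f⁻¹ ∈ O') →
        lv w (adj S ((B : Set Ω) ∪ {u})) ≤ O' → (∀ f ∈ T₀, SM w O₀ z J f) →
        ∀ f ∈ Λ, SM w O' z J f := by
  classical
  choose T hT hT' using fun f : Λ => exists_T₀_one h (f : Ω) (hΛ f f.2).1 (hΛ f f.2).2
  refine ⟨Finset.univ.biUnion T, ?_, ?_⟩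
  · intro f hf
    obtain ⟨g, -, hg⟩ := Finset.mem_biUnion.1 hf
    exact hT g f hg
  · intro n z J O₀ O' hz hz0 hO hge hinv hBl hsm f hf
    exact hT' ⟨f, hf⟩ n z J O₀ O' hz hz0 hO hge hinv hBl fun a ha =>
      hsm a (Finset.mem_biUnion.2 ⟨⟨f, hf⟩, Finset.mem_univ _, ha⟩)

private theorem alg_iff (A : Subring Ω) (f : Ω) :
    (∃ Q : Polynomial Ω, Q ≠ 0 ∧ (∀ i, Q.coeff i ∈ A) ∧ Q.eval f = 0) ↔ IsAlgebraic A f := by
  constructor
  · rintro ⟨Q, hQ, hQA, hQf⟩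
    have hQ' : Q ∈ Polynomial.lifts A.subtype := by
      rw [Polynomial.lifts_iff_coeff_lifts]
      exact fun i => ⟨⟨_, hQA i⟩, rfl⟩
    obtain ⟨P, hP⟩ := (Polynomial.mem_lifts _).1 hQ'
    refine ⟨P, ?_, ?_⟩
    · rintro rfl
      exact hQ (by rw [← hP, Polynomial.map_zero])
    · rw [Polynomial.aeval_def, ← Polynomial.eval_map]
      have h1 : P.map (algebraMap A Ω) = Q := hP
      rw [h1, hQf]
  · rintro ⟨P, hP, hPf⟩
    refine ⟨P.map A.subtype, ?_, ?_, ?_⟩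
    · intro h0
      exact hP ((Polynomial.map_eq_zero_iff A.subtype_injective).1 h0)
    · intro i
      rw [Polynomial.coeff_map]
      exact (P.coeff i).2
    · rw [Polynomial.aeval_def, ← Polynomial.eval_map] at hPf
      exact hPf

theorem Setup.sec2 (h : Setup w R₀ S x t K₀ K' B α u H) (hind : AlgebraicIndependent S t)
    {n : ℕ} (z : Fin n → Ω) (g : Ω) (hg : g ∈ adj R₀ (B : Set Ω)) (hg0 : g ≠ 0) (G : Finset Ω)
    (hG : ∀ y ∈ G, y ∈ adj R₀ (B : Set Ω) ∧ w.Ge (w g) y) (F : Finset Ω)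
    (hF : (F : Set Ω) = (B : Set Ω) ∪ (fun y => y / g) '' (G : Set Ω))
    (hz : Par w (lv w (adj R₀ (F : Set Ω))) z)
    (hdim : ringKrullDim (lv w (adj R₀ (F : Set Ω))) = n) : Sec2 w R₀ S x t F z u H := by
  have hBF : (B : Set Ω) ⊆ (F : Set Ω) := by
    rw [hF]
    exact Set.subset_union_left
  have halg : ∀ y ∈ adj R₀ (B : Set Ω),
      IsAlgebraic (adj R₀ (Set.range x ∪ Set.range t)) y := by
    intro y hy
    refine adj_induction (p := fun y => IsAlgebraic (adj R₀ (Set.range x ∪ Set.range t)) y)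
      (fun f hf => ?_) (fun f hf => ?_) (fun f g hf hg => hf.add hg)
      (fun f g hf hg => hf.mul hg) hy
    · exact isAlgebraic_algebraMap (A := Ω)
        (⟨f, base_le_adj R₀ _ hf⟩ : adj R₀ (Set.range x ∪ Set.range t))
    · exact (alg_iff _ f).1 (h.alg f hf)
  have hgF : ∀ f ∈ F, f ∈ (B : Set Ω) ∨ ∃ y ∈ G, y / g = f := by
    intro f hf
    have h1 : f ∈ (F : Set Ω) := hf
    rw [hF] at h1
    exact h1
  refine ⟨h.base, ?_, fun i => mem_adj (hBF (h.x_mem i)), fun j => mem_adj (hBF (h.t_mem j)), hz,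
    hdim, hind, ?_, fun i => adj_mono le_rfl hBF (h.coeff i), ?_, h.H1_ne, h.H1, h.root, h.u_pos⟩
  · intro f hf
    rcases hgF f hf with h1 | ⟨y, hy, rfl⟩
    · exact h.ge f h1
    · intro h0
      have hy0 : y ≠ 0 := by
        rintro rfl
        exact h0 (zero_div g)
      rw [w.map_div hy0 hg0]
      have := (hG y hy).2 hy0
      linarith
  · intro f hf
    rw [alg_iff]
    rcases hgF f hf with h1 | ⟨y, hy, rfl⟩
    · exact (alg_iff _ f).1 (h.alg f h1)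
    · rw [div_eq_mul_inv]
      exact (halg y (hG y hy).1).mul (halg g hg).inv
  · exact IP.vpos (adj_nonneg h.base.ge h.ge) (fun i _ => h.α_pos i)
      (fun i => mem_adj (h.α_mem i)) h.H0

theorem Setup.lut (h : Setup w R₀ S x t K₀ K' B α u H) (hind : AlgebraicIndependent S t)
    (hL : LUs w R₀ K₀) : LUT w S K' := by
  classical
  intro A hA hQ T hT
  have hφ : ∀ φ ∈ insert u B, φ ∈ K' := by
    intro φ hφ
    refine h.quo.1 φ (mem_adj ?_)
    rcases Finset.mem_insert.1 hφ with rfl | h1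
    · exact Or.inr rfl
    · exact Or.inl h1
  choose a ha b hb hb0 hab using fun φ : (insert u B : Finset Ω) => hQ.2 (φ : Ω) (hφ φ φ.2)
  let Λ : Finset Ω := (A ∪ T ∪ Finset.univ.image b).filter (· ≠ 0)
  have hΛ : ∀ f ∈ Λ, f ∈ K' ∧ f ≠ 0 := by
    intro f hf
    obtain ⟨h1, h2⟩ := Finset.mem_filter.1 hf
    refine ⟨?_, h2⟩
    rcases Finset.mem_union.1 h1 with h3 | h3
    · rcases Finset.mem_union.1 h3 with h4 | h4
      · exact hQ.1 f (mem_adj h4)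
      · exact (hT f h4).1
    · obtain ⟨φ, -, rfl⟩ := Finset.mem_image.1 h3
      exact hQ.1 _ (hb φ)
  obtain ⟨T₀, hT₀, hsm⟩ := h.exists_T₀ Λ hΛ
  obtain ⟨n, z, J, O₀, hmod, hdim⟩ := hL B h.ge h.quo₀ T₀ hT₀
  obtain ⟨g, hg, hg0, hgsm, G, hG, hO₀⟩ := hmod.chart
  let F : Finset Ω := B ∪ G.image (fun y => y / g)
  have hF : (F : Set Ω) = (B : Set Ω) ∪ (fun y => y / g) '' (G : Set Ω) := by
    simp only [F, Finset.coe_union, Finset.coe_image]
  have hO₀' : O₀ = lv w (adj R₀ (F : Set Ω)) := by rw [hO₀, hF]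
  clear hO₀
  subst hO₀'
  have hsec := h.sec2 hind z g hg hg0 G hG F hF hmod.par hdim
  have hpar := hsec.par'
  have htau := hsec.tau
  have hBF : (B : Set Ω) ⊆ (F : Set Ω) := by
    rw [hF]
    exact Set.subset_union_left
  have hO : lv w (adj R₀ (F : Set Ω)) ≤ lv w (adj S ((F : Set Ω) ∪ {u})) :=
    lv_mono (adj_mono h.base.le Set.subset_union_left)
  have hge : ∀ f ∈ lv w (adj S ((F : Set Ω) ∪ {u})), w.Ge 0 f := by
    refine lv_nonneg (adj_nonneg h.base.ge ?_)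
    rintro f (hf | hf)
    · exact hsec.ge f hf
    · rw [Set.mem_singleton_iff.1 hf]
      exact hsec.u_pos.ge
  have hinv : ∀ f ∈ lv w (adj S ((F : Set Ω) ∪ {u})), f ≠ 0 → w f = 0 →
      f⁻¹ ∈ lv w (adj S ((F : Set Ω) ∪ {u})) := fun f hf h0 h1 => lv_inv hf h0 h1
  have hz0 := hmod.par.ne
  have hΛsm := hsm n z J _ _ hmod.par.mem hz0 hO hge hinv
    (lv_mono (adj_mono le_rfl (Set.union_subset_union_left _ hBF))) hmod.mono
  have hAge : ∀ f ∈ adj S (A : Set Ω), w.Ge 0 f := adj_nonneg h.base.ge hA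
  have hQM1 : ∀ φ ∈ insert u B, φ ∈ QM w (lv w (adj S ((F : Set Ω) ∪ {u}))) z J hz0
      (adj S (A : Set Ω)) hAge := by
    intro φ hφ'
    refine ⟨a ⟨φ, hφ'⟩, ha _, b ⟨φ, hφ'⟩, hb _, hΛsm _ ?_, hab ⟨φ, hφ'⟩⟩
    exact Finset.mem_filter.2 ⟨Finset.mem_union_right _
      (Finset.mem_image_of_mem _ (Finset.mem_univ _)), hb0 _⟩
  have hQM2 : adj R₀ (B : Set Ω) ≤ QM w (lv w (adj S ((F : Set Ω) ∪ {u}))) z J hz0
      (adj S (A : Set Ω)) hAge := by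
    refine adj_le (h.base.le.trans ((base_le_adj S _).trans le_QM)) ?_
    exact fun φ hφ' => hQM1 φ (Finset.mem_insert_of_mem hφ')
  refine ⟨n, z, J, lv w (adj S ((F : Set Ω) ∪ {u})), ⟨hpar, ?_, ?_⟩, htau⟩
  · refine chart_of (hA := hAge) (hz := hz0) hinv hge A ?_ (insert u F) ?_ ?_
    · intro f hf
      by_cases h0 : f = 0
      · rw [h0]
        exact Subring.zero_mem _
      · refine (hΛsm f (Finset.mem_filter.2 ⟨Finset.mem_union_left _
          (Finset.mem_union_left _ hf), h0⟩)).mem (fun i => hO (hmod.par.mem i)) (hA f hf h0)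
    · rw [Finset.coe_insert, Set.union_singleton]
    · intro f hf
      rcases Finset.mem_insert.1 hf with rfl | hf
      · exact hQM1 _ (Finset.mem_insert_self _ _)
      · rcases Finset.mem_union.1 hf with hf | hf
        · exact hQM1 _ (Finset.mem_insert_of_mem hf)
        · obtain ⟨y, hy, rfl⟩ := Finset.mem_image.1 hf
          rw [div_eq_mul_inv]
          refine Subring.mul_mem _ (hQM2 (hG y hy).1) (qm_inv hinv (hQM2 hg) ?_
            (hgsm.mono_ring hO))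
          exact adj_nonneg (fun f hf => h.base.ge f (h.base.le hf)) h.ge g hg hg0
  · intro f hf
    exact hΛsm f (Finset.mem_filter.2 ⟨Finset.mem_union_left _
      (Finset.mem_union_right _ hf), (hT f hf).2⟩)

end Pool.Agent.LUC
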