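import Pool.Agent.Lib.LUC.ClDefs

/-! # E1: the root of positive value

Recipes (3.1, 3.2 of l15_cp_h16.md). `exists_root`: if `F_0 = 0` take `u = 0`. Otherwise consider the reversed polynomial
`G = F_0^{-1} (F_0 X^n + F_1 X^(n-1) + ..)` (`n = natDegree F`), monic, which splits; its roots are the inverses of the roots
of `F`. If every root of `F` had value `≤ 0`, all roots of `G` would have value `≥ 0`, and so would the coefficients
of `G` (`LU1.ge_coeff_prod` in `LU1_h15/GalDec.lean`, or prove it for products of `X - C r`), but `F_1 / F_0` has negative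
value. (Or: `F = c ∏ (X - u_i)`, `F_1 / F_0 = - ∑ 1 / u_i`.)
`root_unique`: `F(u) - F(u') = (u - u') (F_1 + ..)`, the bracket is `F_1` plus an element of positive value:
`Polynomial.evalSubFactor` / `Polynomial.sub_dvd_eval_sub`; more precisely `F = C F_0 + X * (C F_1 + X * Q)`.
`root_mem_cl`: `u ≠ 0` (else clear), `δ = w u > 0`. `u_0 = 0`, `u_(i+1) = u_i - F(u_i) / F_1 ∈ clF w K` (a field which contains the
coefficients). `F(u_i) = F(u_i) - F(u) = (u_i - u) (F_1 + ε)` with `w.Ge δ ε` (as `w.Ge δ u_i`, `w.Ge δ u`), so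
`u_(i+1) - u = - (u_i - u) ε / F_1`: by induction `w.Ge ((i+1) δ) (u_i - u)` and `w.Ge δ u_(i+1)`. So `u ∈ Cl w (clF w K)`;
`cl_cl`. -/

set_option autoImplicit false

namespace Pool.Agent.LUC

open Pool.Agent.H15JM (RVal)
open Pool.Agent.LU1 (VPos)
open Polynomial

universe u

variable {Ω : Type u} [Field Ω] {w : RVal Ω}

private theorem ge_one : w.Ge 0 (1 : Ω) := fun _ => w.map_one.ge

private theorem ge_nat (m : ℕ) : w.Ge 0 ((m : ℕ) : Ω) := by
  induction m with
  | zero => rw [Nat.cast_zero]; exact RVal.Ge.zero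
  | succ m ih => rw [Nat.cast_succ]; exact ih.add ge_one

private theorem ge_mul0 {c : ℝ} {a b : Ω} (ha : w.Ge 0 a) (hb : w.Ge c b) : w.Ge c (a * b) := by
  have := ha.mul hb
  rwa [zero_add] at this

private theorem ge_pow0 {a : Ω} (ha : w.Ge 0 a) (i : ℕ) : w.Ge 0 (a ^ i) := by
  induction i with
  | zero => rw [pow_zero]; exact ge_one
  | succ i ih => rw [pow_succ]; exact ge_mul0 ih ha

private theorem ge_eval (Q : Polynomial Ω) (hQ : ∀ i, w.Ge 0 (Q.coeff i)) {u : Ω}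
    (hu : w.Ge 0 u) : w.Ge 0 (Q.eval u) := by
  rw [eval_eq_sum_range]
  exact RVal.Ge.sum _ _ fun i _ => ge_mul0 (hQ i) (ge_pow0 hu i)

/-- The difference of two values of a polynomial. -/
private theorem diff0 (Q : Polynomial Ω) (hQ : ∀ i, w.Ge 0 (Q.coeff i)) {u u' : Ω}
    (hu : w.Ge 0 u) (hu' : w.Ge 0 u') :
    ∃ c, w.Ge 0 c ∧ Q.eval u - Q.eval u' = (u - u') * c := by
  refine ⟨∑ i ∈ Finset.range (Q.natDegree + 1), Q.coeff i *
    ∑ j ∈ Finset.range i, u ^ j * u' ^ (i - 1 - j), ?_, ?_⟩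
  · exact RVal.Ge.sum _ _ fun i _ => ge_mul0 (hQ i) (RVal.Ge.sum _ _ fun j _ =>
      ge_mul0 (ge_pow0 hu _) (ge_pow0 hu' _))
  · rw [eval_eq_sum_range, eval_eq_sum_range, ← Finset.sum_sub_distrib, Finset.mul_sum]
    refine Finset.sum_congr rfl fun i _ => ?_
    rw [← mul_sub, ← (Commute.all u u').mul_geom_sum₂ i]
    ring

private theorem eval_two (F : Polynomial Ω) (u : Ω) :
    F.eval u = F.coeff 0 + u * (F.coeff 1 + u * F.divX.divX.eval u) := by
  conv_lhs => rw [← F.divX_mul_X_add, ← F.divX.divX_mul_X_add]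
  simp only [eval_add, eval_mul, eval_C, eval_X, coeff_divX, zero_add]
  ring

/-- The difference of two values of `F`. -/
private theorem diff1 (F : Polynomial Ω) (hF : ∀ i, w.Ge 0 (F.coeff i)) {u u' : Ω}
    (hu : w.Ge 0 u) (hu' : w.Ge 0 u') :
    ∃ ε, F.eval u - F.eval u' = (u - u') * (F.coeff 1 + ε) ∧
      (VPos w u → VPos w u' → VPos w ε) ∧
      ∀ δ : ℝ, w.Ge δ u → w.Ge δ u' → w.Ge δ ε := by
  have hQ : ∀ i, w.Ge 0 (F.divX.divX.coeff i) := fun i => by
    rw [coeff_divX, coeff_divX]; exact hF _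
  obtain ⟨c, hc, hcc⟩ := diff0 F.divX.divX hQ hu hu'
  refine ⟨(u + u') * F.divX.divX.eval u + u' * (u' * c), ?_, ?_, ?_⟩
  · rw [eval_two F u, eval_two F u']
    have h1 : F.divX.divX.eval u' = F.divX.divX.eval u - (u - u') * c := by
      rw [← hcc]; ring
    rw [h1]
    ring
  · intro h1 h2
    refine ((h1.add h2).mul (ge_eval _ hQ hu)).add (h2.mul (ge_mul0 hu' hc))
  · intro δ h1 h2
    refine RVal.Ge.add ?_ ?_
    · rw [mul_comm]
      exact ge_mul0 (ge_eval _ hQ hu) (h1.add h2)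
    · rw [mul_comm]
      exact ge_mul0 (ge_mul0 hu' hc) h2

/-- The coefficients of a product of `1 - τ X`, `τ` in the valuation ring. -/
private theorem ge_coeff_prod' (s : Multiset Ω) (hs : ∀ τ ∈ s, w.Ge 0 τ) (i : ℕ) :
    w.Ge 0 ((s.map fun τ => 1 - C τ * X).prod.coeff i) := by
  induction s using Multiset.induction_on generalizing i with
  | empty =>
    rw [Multiset.map_zero, Multiset.prod_zero, coeff_one]
    split_ifs
    · exact ge_one
    · exact RVal.Ge.zero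
  | cons τ s ih =>
    rw [Multiset.map_cons, Multiset.prod_cons, sub_mul, one_mul, coeff_sub, mul_assoc, coeff_C_mul]
    have hs' : ∀ σ ∈ s, w.Ge 0 σ := fun σ hσ => hs σ (Multiset.mem_cons_of_mem hσ)
    refine (ih hs' i).sub (ge_mul0 (hs τ (Multiset.mem_cons_self _ _)) ?_)
    cases i with
    | zero =>
      rw [coeff_X_mul_zero]
      exact RVal.Ge.zero
    | succ i =>
      rw [coeff_X_mul]
      exact ih hs' i

private theorem coeff0_prod' (s : Multiset Ω) :
    (s.map fun τ => 1 - C τ * X).prod.coeff 0 = 1 := by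
  induction s using Multiset.induction_on with
  | empty => simp
  | cons τ s ih =>
    rw [Multiset.map_cons, Multiset.prod_cons, mul_coeff_zero, ih]
    simp

private theorem prod_flip (s : Multiset Ω) (hs : ∀ τ ∈ s, τ ≠ 0) :
    (s.map fun τ => X - C τ).prod =
      C (s.map fun τ => -τ).prod * ((s.map fun τ => τ⁻¹).map fun τ => 1 - C τ * X).prod := by
  induction s using Multiset.induction_on with
  | empty => simp
  | cons τ s ih =>
    have hτ : τ ≠ 0 := hs τ (Multiset.mem_cons_self _ _)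
    simp only [Multiset.map_cons, Multiset.prod_cons]
    rw [ih fun σ hσ => hs σ (Multiset.mem_cons_of_mem hσ)]
    have h1 : (X : Polynomial Ω) - C τ = C (-τ) * (1 - C τ⁻¹ * X) := by
      have h2 : C (-τ) * (1 - C τ⁻¹ * X) = C (-τ) - C (-τ * τ⁻¹) * X := by
        rw [C_mul]; ring
      rw [h2, neg_mul, mul_inv_cancel₀ hτ, C_neg, C_neg, C_1]
      ring
    rw [h1, C_mul]
    ring

theorem exists_root [IsAlgClosed Ω] (F : Polynomial Ω) (hF : ∀ i, w.Ge 0 (F.coeff i))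
    (h0 : VPos w (F.coeff 0)) (h1 : F.coeff 1 ≠ 0) (h1' : w (F.coeff 1) = 0) :
    ∃ u : Ω, F.eval u = 0 ∧ VPos w u := by
  by_cases hF0 : F.coeff 0 = 0
  · exact ⟨0, by rw [← coeff_zero_eq_eval_zero, hF0], Pool.Agent.LU1.VPos.zero⟩
  by_contra hcon
  push Not at hcon
  have hFne : F ≠ 0 := by
    rintro rfl
    simp at h1
  have hroots : ∀ τ ∈ F.roots, τ ≠ 0 ∧ w.Ge 0 τ⁻¹ := by
    intro τ hτ
    have hτ' : F.eval τ = 0 := (mem_roots hFne).1 hτ
    have hτ0 : τ ≠ 0 := by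
      rintro rfl
      rw [← coeff_zero_eq_eval_zero] at hτ'
      exact hF0 hτ'
    refine ⟨hτ0, fun _ => ?_⟩
    have h2 := hcon τ hτ'
    unfold VPos at h2
    push Not at h2
    rw [w.map_inv hτ0]
    have := h2.2
    linarith
  have hsp := (IsAlgClosed.splits F).eq_prod_roots
  rw [prod_flip _ fun τ hτ => (hroots τ hτ).1, ← mul_assoc, ← C_mul] at hsp
  have hQ : ∀ i, w.Ge 0 (((F.roots.map fun τ => τ⁻¹).map fun τ => 1 - C τ * X).prod.coeff i) := by
    refine ge_coeff_prod' _ ?_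
    intro τ hτ
    obtain ⟨σ, hσ, rfl⟩ := Multiset.mem_map.1 hτ
    exact (hroots σ hσ).2
  have hQ0 := coeff0_prod' (F.roots.map fun τ => τ⁻¹)
  generalize ((F.roots.map fun τ => τ⁻¹).map fun τ => 1 - C τ * X).prod = Q at hsp hQ hQ0
  generalize F.leadingCoeff * (F.roots.map fun τ => -τ).prod = a at hsp
  have ha : F.coeff 0 = a := by
    rw [hsp, coeff_C_mul, hQ0, mul_one]
  have hb : F.coeff 1 = F.coeff 0 * Q.coeff 1 := by
    conv_lhs => rw [hsp]
    rw [coeff_C_mul, ha]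
  have h2 : VPos w (F.coeff 1) := by
    rw [hb]
    exact h0.mul (hQ 1)
  have := h2 h1
  rw [h1'] at this
  exact lt_irrefl _ this

theorem root_unique (F : Polynomial Ω) (hF : ∀ i, w.Ge 0 (F.coeff i))
    (h1 : F.coeff 1 ≠ 0) (h1' : w (F.coeff 1) = 0) {u u' : Ω} (hu : F.eval u = 0)
    (hu' : F.eval u' = 0) (hv : VPos w u) (hv' : VPos w u') : u = u' := by
  obtain ⟨ε, h2, h3, -⟩ := diff1 F hF hv.ge hv'.ge
  have h4 := Pool.Agent.LU1.val_add_vpos h1 h1' (h3 hv hv')
  rw [hu, hu', sub_zero] at h2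
  rcases mul_eq_zero.1 h2.symm with h | h
  · exact sub_eq_zero.1 h
  · exact absurd h h4.1

/-- The derivative at the root has value zero. -/
theorem root_deriv (F : Polynomial Ω) (hF : ∀ i, w.Ge 0 (F.coeff i))
    (h1 : F.coeff 1 ≠ 0) (h1' : w (F.coeff 1) = 0) {u : Ω} (hv : VPos w u) :
    F.derivative.eval u ≠ 0 ∧ w (F.derivative.eval u) = 0 := by
  have h2 : F.derivative.eval u = F.coeff 1 + u * F.derivative.divX.eval u := by
    conv_lhs => rw [← F.derivative.divX_mul_X_add]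
    simp only [eval_add, eval_mul, eval_C, eval_X, coeff_derivative, zero_add, Nat.cast_zero,
      mul_one]
    ring
  rw [h2]
  refine Pool.Agent.LU1.val_add_vpos h1 h1' (hv.mul (ge_eval _ (fun i => ?_) hv.ge))
  rw [coeff_divX, coeff_derivative]
  have h3 : ((i + 1 : ℕ) : Ω) + 1 = ((i + 1 + 1 : ℕ) : Ω) := by push_cast; ring
  rw [h3]
  exact ge_mul0 (hF _) (ge_nat _)

theorem root_mem_cl (K : Subfield Ω) (F : Polynomial Ω) (hF : ∀ i, w.Ge 0 (F.coeff i))
    (hFK : ∀ i, F.coeff i ∈ Cl w K) (h1 : F.coeff 1 ≠ 0) (h1' : w (F.coeff 1) = 0) {u : Ω}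
    (hu : F.eval u = 0) (hv : VPos w u) : u ∈ Cl w K := by
  by_cases hu0 : u = 0
  · rw [hu0]
    exact Cl.subset K.zero_mem
  have hδ : 0 < w u := hv hu0
  -- one step
  have hstep : ∀ (c : ℝ) (s : Ω), 0 ≤ c → s ∈ clF w K → w.Ge (w u) s → w.Ge c (s - u) →
      ∃ s' ∈ clF w K, w.Ge (w u) s' ∧ w.Ge (c + w u) (s' - u) := by
    intro c s hc hs hs1 hs2
    have hs0 : w.Ge 0 s := hs1.mono hδ.le
    obtain ⟨ε, h2, -, h3⟩ := diff1 F hF hs0 hv.ge
    have hε := h3 (w u) hs1 fun _ => le_rfl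
    rw [hu, sub_zero] at h2
    have hinv : w.Ge 0 (F.coeff 1)⁻¹ := fun _ => by rw [w.map_inv h1, h1', neg_zero]
    have e1 : s - F.eval s * (F.coeff 1)⁻¹ - u = -((s - u) * (ε * (F.coeff 1)⁻¹)) := by
      rw [h2]
      field_simp
      ring
    have hd : w.Ge (c + w u) (s - F.eval s * (F.coeff 1)⁻¹ - u) := by
      rw [e1]
      refine (hs2.mul ?_).neg
      rw [mul_comm]
      exact ge_mul0 hinv hε
    refine ⟨s - F.eval s * (F.coeff 1)⁻¹, ?_, ?_, hd⟩
    · refine (clF w K).sub_mem hs ((clF w K).mul_mem ?_ ((clF w K).inv_mem (hFK 1)))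
      rw [eval_eq_sum_range]
      exact (clF w K).sum_mem fun i _ => (clF w K).mul_mem (hFK i) ((clF w K).pow_mem hs i)
    · have h5 : s - F.eval s * (F.coeff 1)⁻¹ = u + (s - F.eval s * (F.coeff 1)⁻¹ - u) := by ring
      rw [h5]
      exact RVal.Ge.add (fun _ => le_rfl) (hd.mono (by linarith))
  have hseq : ∀ n : ℕ, ∃ s ∈ clF w K, w.Ge (w u) s ∧ w.Ge (n * w u) (s - u) := by
    intro n
    induction n with
    | zero =>
      refine ⟨0, (clF w K).zero_mem, RVal.Ge.zero, ?_⟩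
      rw [zero_sub, Nat.cast_zero, zero_mul]
      exact hv.ge.neg
    | succ n ih =>
      obtain ⟨s, hs, hs1, hs2⟩ := ih
      obtain ⟨s', h2, h3, h4⟩ := hstep _ s (by positivity) hs hs1 hs2
      exact ⟨s', h2, h3, h4.mono (le_of_eq (by push_cast; ring))⟩
  refine cl_cl fun b => ?_
  obtain ⟨n, hn⟩ := exists_nat_ge (b / w u)
  obtain ⟨s, hs, -, hs2⟩ := hseq n
  refine ⟨s, hs, ?_⟩
  rw [← neg_sub]
  rw [div_le_iff₀ hδ] at hn
  exact (hs2.neg).mono hn

end Pool.Agent.LUC
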