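import Pool.Agent.Lib.LUC.EtDefs
import Pool.Agent.Lib.LUC.E1

/-! # G1: a good generator of `K(u₁)`

Recipe (6.1 of l15_cp_h16.md). `u₁` is a simple root of `f ∈ K[X]` (`root_deriv`), so it is separable over `K`; let `N` be the
normal closure of `K(u₁)` in `Ω` (as `IntermediateField K Ω`), a finite Galois extension of `K`. `D = {s ∈ Gal(N/K) | w (s n) = w n
for all n ≠ 0}`. `s ∈ D`: `s u₁` is a root of `f` of positive value, so `s u₁ = u₁` (`root_unique`): `D ≤ H₁ := Gal(N/K(u₁))`. Weak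
approximation (`LU1.GalThetaAux.exists_sep` in `LU1_h15/GalTheta.lean`, for `F : IntermediateField k Ω`,
`N : IntermediateField F Ω`; one can take `k = K`, `F = ⊥`, or copy the proof, which uses the absolute values
`exp (- w (s n))`): `β ∈ N` with `VPos w (β - 1)`, `VPos w (s β)` for `s ∉ D`. `θ = 1 - ∏ t ∈ H₁, (1 - t β)`: it is fixed by `H₁`,
so `θ ∈ K(u₁)`; `VPos w (θ - 1)` (the factor `t = 1`; `w ≥ 0` for all `t β`: `t ∈ D`: `w (t β) = w β = 0`, `t ∉ D`: positive); for
`s ∉ H₁` all `s t ∉ D` (`t ∈ H₁`), so `1 - s θ` is a product of `1 - (positive)` and `s θ` has positive value. So `s θ ≠ θ` for `s ∉ H₁`: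
`K(θ) = K(u₁)`; the conjugates of `θ` over `K` are `θ` and elements of positive value: the coefficients of the minimal
polynomial have value `≥ 0` and `h'(θ) = ∏ (θ - s θ)` (over the other conjugates) has value 0. Compare
`exists_theta` (`LU1_h15/GalTheta.lean`), `minpoly_prop` (`LU1_h15/GalDec.lean`), `LUM.exists_beta` (store: lum_T08.lean).
The field `Subfield.closure (K ∪ {θ})` has the elements of `IntermediateField.adjoin K {θ}`. -/

set_option autoImplicit false

namespace Pool.Agent.LUC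

open Pool.Agent.H15JM (RVal)
open Pool.Agent.LU1 (VPos)
open Polynomial

universe u

variable {Ω : Type u} [Field Ω] {w : RVal Ω}

namespace G1Aux

/-- The valuation ring. -/
private def Ov (v : RVal Ω) : Subring Ω where
  carrier := {x | v.Ge 0 x}
  mul_mem' := by
    intro a b ha hb
    have h := RVal.Ge.mul ha hb
    rwa [add_zero] at h
  one_mem' := by
    intro _
    rw [v.map_one]
  add_mem' := fun ha hb => ha.add hb
  zero_mem' := RVal.Ge.zero
  neg_mem' := fun ha => ha.neg

private theorem coeff_ge {F : Type u} [Field F] [Algebra F Ω] {v : RVal Ω} (P : Polynomial F)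
    (hP : P.Monic) (hs : (P.map (algebraMap F Ω)).Splits) (hr : ∀ ρ ∈ P.aroots Ω, v.Ge 0 ρ)
    (i : ℕ) : v.Ge 0 (algebraMap F Ω (P.coeff i)) := by
  rw [← coeff_map, hs.eq_prod_roots_of_monic (hP.map _)]
  have h1 : (Multiset.map (fun a => X - C a) (P.map (algebraMap F Ω)).roots).prod ∈
      Polynomial.lifts (Ov v).subtype := by
    refine Subsemiring.multiset_prod_mem _ _ ?_
    intro q hq
    rw [Multiset.mem_map] at hq
    obtain ⟨a, ha, rfl⟩ := hq
    refine ⟨X - C ⟨a, hr a ha⟩, ?_⟩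
    simp
  rw [Polynomial.lifts_iff_coeff_lifts] at h1
  obtain ⟨y, hy⟩ := h1 i
  rw [← hy]
  exact y.2

private theorem deriv_unit {F : Type u} [Field F] [Algebra F Ω] {v : RVal Ω} (P : Polynomial F)
    (hP : P.Monic) (hs : (P.map (algebraMap F Ω)).Splits) (hsep : P.Separable) {β : Ω}
    (hβ : β ∈ P.aroots Ω)
    (hr : ∀ ρ ∈ P.aroots Ω, ρ ≠ β → β - ρ ≠ 0 ∧ v (β - ρ) = 0) :
    aeval β (derivative P) ≠ 0 ∧ v (aeval β (derivative P)) = 0 := by
  classical
  have h1 := hs.eval_root_derivative (hP.map _) hβ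
  rw [derivative_map, eval_map_algebraMap] at h1
  rw [h1]
  have hnd : (P.aroots Ω).Nodup := nodup_roots hsep.map
  have h2 : ∀ ρ ∈ (P.aroots Ω).erase β, β - ρ ≠ 0 ∧ v (β - ρ) = 0 := by
    intro ρ hρ
    rw [hnd.mem_erase_iff] at hρ
    exact hr ρ hρ.2 hρ.1
  have h3 : ∀ s : Multiset Ω, (∀ ρ ∈ s, β - ρ ≠ 0 ∧ v (β - ρ) = 0) →
      (s.map (β - ·)).prod ≠ 0 ∧ v (s.map (β - ·)).prod = 0 := by
    intro s
    induction s using Multiset.induction_on with
    | empty =>
      intro _
      rw [Multiset.map_zero, Multiset.prod_zero]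
      exact ⟨one_ne_zero, v.map_one⟩
    | cons a s ih =>
      intro hs'
      obtain ⟨h4, h5⟩ := ih fun ρ hρ => hs' ρ (Multiset.mem_cons_of_mem hρ)
      obtain ⟨h6, h7⟩ := hs' a (Multiset.mem_cons_self a s)
      rw [Multiset.map_cons, Multiset.prod_cons]
      refine ⟨mul_ne_zero h6 h4, ?_⟩
      rw [v.map_mul h6 h4, h5, h7, add_zero]
  exact h3 _ h2

variable {F : Type u} [Field F] [Algebra F Ω]

/-- The decomposition group. -/
private def dec (v : RVal Ω) (N : IntermediateField F Ω) : Subgroup (N ≃ₐ[F] N) where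
  carrier := {σ | ∀ n : N, v (σ n : Ω) = v (n : Ω)}
  mul_mem' := by
    intro a b ha hb n
    rw [AlgEquiv.mul_apply, ha, hb]
  one_mem' := fun _ => rfl
  inv_mem' := by
    intro a ha n
    have h := ha (a⁻¹ n)
    rw [← AlgEquiv.mul_apply, mul_inv_cancel, AlgEquiv.one_apply] at h
    exact h.symm

open Classical in
/-- The absolute value `exp (- v (σ n))` of `N`. -/
private noncomputable def abv (v : RVal Ω) (N : IntermediateField F Ω)
    (σ : N ≃ₐ[F] N) : AbsoluteValue N ℝ :=
  { toFun := fun n => if n = 0 then 0 else Real.exp (-(v (σ n : Ω)))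
    map_mul' := by
      intro a b
      by_cases ha : a = 0
      · simp [ha]
      by_cases hb : b = 0
      · simp [hb]
      have ha' : (σ a : Ω) ≠ 0 := by simpa using ha
      have hb' : (σ b : Ω) ≠ 0 := by simpa using hb
      rw [if_neg (mul_ne_zero ha hb), if_neg ha, if_neg hb, ← Real.exp_add]
      congr 1
      rw [_root_.map_mul, MulMemClass.coe_mul, v.map_mul ha' hb']
      ring
    nonneg' := by
      intro a
      split_ifs
      · exact le_rfl
      · exact (Real.exp_pos _).le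
    eq_zero' := by
      intro a
      split_ifs with h
      · simp [h]
      · simp [h, Real.exp_ne_zero]
    add_le' := by
      intro a b
      by_cases ha : a = 0
      · simp [ha]
      by_cases hb : b = 0
      · simp [hb]
      by_cases hab : a + b = 0
      · rw [if_pos hab, if_neg ha, if_neg hb]
        positivity
      have ha' : (σ a : Ω) ≠ 0 := by simpa using ha
      have hb' : (σ b : Ω) ≠ 0 := by simpa using hb
      have hab' : (σ a : Ω) + (σ b : Ω) ≠ 0 := by
        intro h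
        apply hab
        have h1 : σ (a + b) = 0 := by
          apply Subtype.ext
          rw [_root_.map_add]
          exact h
        exact (map_eq_zero_iff σ σ.injective).1 h1
      rw [if_neg hab, if_neg ha, if_neg hb]
      have h1 := v.map_add ha' hb' hab'
      rw [_root_.map_add, AddMemClass.coe_add]
      rcases min_le_iff.1 h1 with h2 | h2
      · have h3 : Real.exp (-(v ((σ a : Ω) + (σ b : Ω)))) ≤ Real.exp (-(v (σ a : Ω))) :=
          Real.exp_le_exp.2 (neg_le_neg h2)
        exact h3.trans (le_add_of_nonneg_right (Real.exp_pos _).le)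
      · have h3 : Real.exp (-(v ((σ a : Ω) + (σ b : Ω)))) ≤ Real.exp (-(v (σ b : Ω))) :=
          Real.exp_le_exp.2 (neg_le_neg h2)
        exact h3.trans (le_add_of_nonneg_left (Real.exp_pos _).le) }

private theorem abv_of_ne {v : RVal Ω} (N : IntermediateField F Ω)
    (σ : N ≃ₐ[F] N) {n : N} (hn : n ≠ 0) : abv v N σ n = Real.exp (-(v (σ n : Ω))) :=
  if_neg hn

/-- Equivalent conjugates of `v` are equal. -/
private theorem eq_of_isEquiv {v : RVal Ω} (N : IntermediateField F Ω)
    [FiniteDimensional F N] (n0 : N) (hn0 : n0 ≠ 0) (hv : v (n0 : Ω) ≠ 0) (σ τ : N ≃ₐ[F] N)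
    (h : (abv v N τ).IsEquiv (abv v N σ)) : ∀ n : N, n ≠ 0 → v (σ n : Ω) = v (τ n : Ω) := by
  obtain ⟨c, hc, h1⟩ := AbsoluteValue.isEquiv_iff_exists_rpow_eq.1 h
  have h2 : ∀ n : N, n ≠ 0 → v (σ n : Ω) = c * v (τ n : Ω) := by
    intro n hn
    have h3 := congrFun h1 n
    simp only [abv_of_ne N _ hn] at h3
    rw [← Real.exp_mul] at h3
    have h4 := Real.exp_injective h3
    linarith
  -- iterate
  have h5 : ∀ m : ℕ, ∀ n : N, n ≠ 0 → v (((σ * τ⁻¹) ^ m) n : Ω) = c ^ m * v (n : Ω) := by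
    intro m
    induction m with
    | zero => intro n _; simp
    | succ m ih =>
      intro n hn
      have hne : (τ⁻¹ : N ≃ₐ[F] N) n ≠ 0 := by
        intro h0
        apply hn
        have : τ (τ⁻¹ n) = τ 0 := by rw [h0]
        rwa [← AlgEquiv.mul_apply, mul_inv_cancel, AlgEquiv.one_apply, _root_.map_zero] at this
      have hne2 : (σ * τ⁻¹ : N ≃ₐ[F] N) n ≠ 0 := by
        rw [AlgEquiv.mul_apply]
        simpa using hne
      rw [pow_succ, AlgEquiv.mul_apply, ih _ hne2, AlgEquiv.mul_apply, h2 _ hne,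
        ← AlgEquiv.mul_apply, mul_inv_cancel, AlgEquiv.one_apply]
      ring
  have hfin : Finite (N ≃ₐ[F] N) := inferInstance
  have h6 := h5 (orderOf (σ * τ⁻¹)) n0 hn0
  rw [pow_orderOf_eq_one, AlgEquiv.one_apply] at h6
  have h7 : c ^ orderOf (σ * τ⁻¹) = 1 := by
    have h8 : (1 - c ^ orderOf (σ * τ⁻¹)) * v (n0 : Ω) = 0 := by linarith
    rcases mul_eq_zero.1 h8 with h9 | h9
    · linarith
    · exact absurd h9 hv
  have h8 : c = 1 := by
    have h9 : 0 < orderOf (σ * τ⁻¹) := orderOf_pos _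
    exact (pow_eq_one_iff_of_nonneg hc.le h9.ne').1 h7
  intro n hn
  rw [h2 n hn, h8, one_mul]

/-- An element of negative value with all other conjugates of positive value. -/
private theorem exists_sep {v : RVal Ω} (N : IntermediateField F Ω)
    [FiniteDimensional F N] (n0 : N) (hn0 : n0 ≠ 0) (hv : v (n0 : Ω) ≠ 0) :
    ∃ a : N, a ≠ 0 ∧ v (a : Ω) < 0 ∧ ∀ σ : N ≃ₐ[F] N, σ ∉ dec v N → 0 < v (σ a : Ω) := by
  have hfin : Finite (N ≃ₐ[F] N) := inferInstance
  let ι := Set.range (abv v N)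
  have hι : Finite ι := Set.finite_range _
  have hnt : ∀ i : ι, (i : AbsoluteValue N ℝ).IsNontrivial := by
    rintro ⟨_, σ, rfl⟩
    refine ⟨σ⁻¹ n0, ?_, ?_⟩
    · intro h0
      apply hn0
      have : σ (σ⁻¹ n0) = σ 0 := by rw [h0]
      rwa [← AlgEquiv.mul_apply, mul_inv_cancel, AlgEquiv.one_apply, _root_.map_zero] at this
    · show abv v N σ (σ⁻¹ n0) ≠ 1
      have hne : (σ⁻¹ : N ≃ₐ[F] N) n0 ≠ 0 := by
        intro h0
        apply hn0
        have : σ (σ⁻¹ n0) = σ 0 := by rw [h0]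
        rwa [← AlgEquiv.mul_apply, mul_inv_cancel, AlgEquiv.one_apply, _root_.map_zero] at this
      rw [abv_of_ne N σ hne, ← AlgEquiv.mul_apply, mul_inv_cancel, AlgEquiv.one_apply]
      intro h1
      rw [Real.exp_eq_one_iff] at h1
      exact hv (by linarith)
  have hpw : Pairwise fun i j : ι =>
      ¬ (i : AbsoluteValue N ℝ).IsEquiv (j : AbsoluteValue N ℝ) := by
    rintro ⟨_, σ, rfl⟩ ⟨_, τ, rfl⟩ hne heq
    apply hne
    apply Subtype.ext
    show abv v N σ = abv v N τ
    ext n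
    by_cases hn : n = 0
    · rw [hn, AbsoluteValue.map_zero, AbsoluteValue.map_zero]
    · rw [abv_of_ne N σ hn, abv_of_ne N τ hn,
        eq_of_isEquiv N n0 hn0 hv τ σ heq n hn]
  obtain ⟨a, ha1, ha2⟩ := AbsoluteValue.exists_one_lt_lt_one_pi_of_not_isEquiv
    (v := fun i : ι => (i : AbsoluteValue N ℝ)) hnt hpw ⟨_, 1, rfl⟩
  have ha1' : 1 < abv v N 1 a := ha1
  have ha0 : a ≠ 0 := by
    rintro rfl
    rw [AbsoluteValue.map_zero] at ha1'
    linarith
  rw [abv_of_ne N 1 ha0, AlgEquiv.one_apply] at ha1'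
  refine ⟨a, ha0, ?_, ?_⟩
  · have := Real.one_lt_exp_iff.1 ha1'
    linarith
  · intro σ hσ
    have h1 : (⟨abv v N σ, σ, rfl⟩ : ι) ≠ ⟨abv v N 1, 1, rfl⟩ := by
      intro h
      have h2 : abv v N σ = abv v N 1 := congrArg Subtype.val h
      apply hσ
      intro n
      by_cases hn : n = 0
      · rw [hn, _root_.map_zero]
      · have h3 : abv v N σ n = abv v N 1 n := by rw [h2]
        rw [abv_of_ne N σ hn, abv_of_ne N 1 hn, AlgEquiv.one_apply] at h3
        have := Real.exp_injective h3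
        linarith
    have h2 : abv v N σ a < 1 := ha2 _ h1
    rw [abv_of_ne N σ ha0, Real.exp_lt_one_iff] at h2
    linarith

/-- The element `θ` of `N` for a subgroup `H` containing the decomposition group. -/
private theorem exists_theta {v : RVal Ω} (N : IntermediateField F Ω) [FiniteDimensional F N]
    (H : Subgroup (N ≃ₐ[F] N)) (hDH : dec v N ≤ H) :
    ∃ β : N, (∀ s ∈ H, s β = β) ∧ VPos v ((β : Ω) - 1) ∧
      ∀ s : N ≃ₐ[F] N, s ∉ H → VPos v ((s β : N) : Ω) := by
  classical
  by_cases htr : ∀ n : N, n ≠ 0 → v (n : Ω) = 0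
  · refine ⟨1, fun s _ => _root_.map_one s, ?_, ?_⟩
    · rw [OneMemClass.coe_one, sub_self]; exact LU1.VPos.zero
    · intro s hs
      exfalso
      apply hs
      apply hDH
      intro n
      by_cases hn : n = 0
      · rw [hn, _root_.map_zero]
      · rw [htr n hn, htr (s n) (by simpa using hn)]
  push Not at htr
  obtain ⟨n0, hn0, hv0⟩ := htr
  obtain ⟨a, ha0, hva, hsa⟩ := exists_sep N n0 hn0 hv0
  have ha0' : (a : Ω) ≠ 0 := by simpa using ha0
  have h1a : (a : Ω) + 1 ≠ 0 ∧ v ((a : Ω) + 1) = v (a : Ω) :=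
    v.add_of_lt ha0' one_ne_zero (by rw [v.map_one]; exact hva)
  let α : N := a / (a + 1)
  have hα : (α : Ω) = (a : Ω) / ((a : Ω) + 1) := rfl
  have hα1 : VPos v ((α : Ω) - 1) := by
    have h2 : (α : Ω) - 1 = -((a : Ω) + 1)⁻¹ := by
      rw [hα]; field_simp [h1a.1]; ring
    rw [h2]
    apply VPos.neg
    intro _
    rw [v.map_inv h1a.1, h1a.2]
    linarith
  have hsα : ∀ s : N ≃ₐ[F] N, s ∉ dec v N → VPos v (s α : Ω) := by
    intro σ hσ
    have h3 : (σ α : Ω) = (σ a : Ω) * ((σ a : Ω) + 1)⁻¹ := by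
      show ((σ (a / (a + 1)) : N) : Ω) = _
      rw [map_div₀, _root_.map_add, _root_.map_one, div_eq_mul_inv]
      rfl
    have h4 : VPos v (σ a : Ω) := fun _ => hsa σ hσ
    have h5 := LU1.val_add_vpos (one_ne_zero (α := Ω)) v.map_one h4
    rw [add_comm] at h5
    rw [h3]
    apply h4.mul
    intro _
    rw [v.map_inv h5.1, h5.2, neg_zero]
  have hDα : ∀ s : N ≃ₐ[F] N, s ∈ dec v N → v.Ge 0 (s α : Ω) := by
    intro s hs h6
    rw [hs α]
    have hα0 : (α : Ω) ≠ 0 := by
      intro h7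
      have h8 : α = 0 := Subtype.ext h7
      rw [h8, _root_.map_zero] at h6
      exact h6 rfl
    have h1 := LU1.val_add_vpos (one_ne_zero (α := Ω)) v.map_one hα1
    have h2 : (1 : Ω) + ((α : Ω) - 1) = α := by ring
    rw [h2] at h1
    exact h1.2.ge
  have hGe : ∀ s : N ≃ₐ[F] N, v.Ge 0 (s α : Ω) := by
    intro s
    by_cases hs : s ∈ dec v N
    · exact hDα s hs
    · exact (hsα s hs).ge
  have hfinG : Finite (N ≃ₐ[F] N) := inferInstance
  have hftH : Fintype H := Fintype.ofFinite _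
  have h1Ge : v.Ge 0 (1 : Ω) := fun _ => by rw [v.map_one]
  refine ⟨1 - ∏ t : H, (1 - (t : N ≃ₐ[F] N) α), ?_, ?_, ?_⟩
  · intro s hs
    rw [_root_.map_sub, _root_.map_one, _root_.map_prod]
    congr 1
    refine Fintype.prod_equiv (Equiv.mulLeft (⟨s, hs⟩ : H)) _ _ ?_
    intro t
    rw [_root_.map_sub, _root_.map_one]
    rfl
  · have h1 : (((1 - ∏ t : H, (1 - (t : N ≃ₐ[F] N) α) : N) : Ω) - 1) =
        -(((∏ t : H, (1 - (t : N ≃ₐ[F] N) α) : N)) : Ω) := by
      rw [AddSubgroupClass.coe_sub, OneMemClass.coe_one]; ring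
    rw [h1]
    apply VPos.neg
    rw [← Finset.mul_prod_erase Finset.univ _ (Finset.mem_univ (1 : H)), MulMemClass.coe_mul]
    apply VPos.mul
    · have h2 : (((1 - ((1 : H) : N ≃ₐ[F] N) α : N)) : Ω) = -((α : Ω) - 1) := by
        rw [OneMemClass.coe_one, AlgEquiv.one_apply, AddSubgroupClass.coe_sub,
          OneMemClass.coe_one]
        ring
      rw [h2]
      exact hα1.neg
    · have h3 : ∀ s : Finset H, v.Ge 0 (((∏ t ∈ s, (1 - (t : N ≃ₐ[F] N) α) : N)) : Ω) := by
        intro s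
        induction s using Finset.induction_on with
        | empty => rw [Finset.prod_empty, OneMemClass.coe_one]; exact h1Ge
        | insert t s ht ih =>
          rw [Finset.prod_insert ht, MulMemClass.coe_mul]
          have h4 : v.Ge 0 ((1 - (t : N ≃ₐ[F] N) α : N) : Ω) := by
            rw [AddSubgroupClass.coe_sub, OneMemClass.coe_one]
            exact h1Ge.sub (hGe _)
          have h5 := h4.mul ih
          rwa [add_zero] at h5
      exact h3 _
  · intro s hs
    have h13 : ∀ t : H, s * (t : N ≃ₐ[F] N) ∉ dec v N := by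
      intro t h14
      apply hs
      have h15 := H.mul_mem (hDH h14) (H.inv_mem t.2)
      rwa [mul_inv_cancel_right] at h15
    rw [_root_.map_sub, _root_.map_one, _root_.map_prod]
    have h16 : ∀ u : Finset H,
        VPos v (1 - ((∏ t ∈ u, s (1 - (t : N ≃ₐ[F] N) α) : N) : Ω)) := by
      intro u
      induction u using Finset.induction_on with
      | empty => rw [Finset.prod_empty, OneMemClass.coe_one, sub_self]; exact LU1.VPos.zero
      | insert t u ht ih =>
        rw [Finset.prod_insert ht, MulMemClass.coe_mul]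
        have h17 : VPos v ((s ((t : N ≃ₐ[F] N) α) : N) : Ω) := hsα _ (h13 t)
        have h18 : ((s (1 - (t : N ≃ₐ[F] N) α) : N) : Ω) = 1 - ((s ((t : N ≃ₐ[F] N) α) : N) : Ω) := by
          rw [_root_.map_sub, _root_.map_one, AddSubgroupClass.coe_sub, OneMemClass.coe_one]
        rw [h18]
        have h19 : 1 - (1 - ((s ((t : N ≃ₐ[F] N) α) : N) : Ω)) *
            ((∏ t ∈ u, s (1 - (t : N ≃ₐ[F] N) α) : N) : Ω) =
            ((s ((t : N ≃ₐ[F] N) α) : N) : Ω) + (1 - ((s ((t : N ≃ₐ[F] N) α) : N) : Ω)) *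
              (1 - ((∏ t ∈ u, s (1 - (t : N ≃ₐ[F] N) α) : N) : Ω)) := by ring
        rw [h19]
        exact h17.add (LU1.VPos.mul' (h1Ge.sub h17.ge) ih)
    have h20 : ((1 - ∏ t : H, s (1 - (t : N ≃ₐ[F] N) α) : N) : Ω) =
        1 - ((∏ t : H, s (1 - (t : N ≃ₐ[F] N) α) : N) : Ω) := by
      rw [AddSubgroupClass.coe_sub, OneMemClass.coe_one]
    rw [h20]
    exact h16 _

end G1Aux

open G1Aux

private theorem closure_le_of_fix (K : Subfield Ω) (N : IntermediateField K Ω)
    [FiniteDimensional K N] [IsGalois K N] (a b : N) (h : ∀ s : N ≃ₐ[K] N, s a = a → s b = b) :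
    Subfield.closure ((K : Set Ω) ∪ {(b : Ω)}) ≤ Subfield.closure ((K : Set Ω) ∪ {(a : Ω)}) := by
  let E : IntermediateField K Ω :=
    (Subfield.closure ((K : Set Ω) ∪ {(a : Ω)})).toIntermediateField fun x =>
      Subfield.subset_closure (Or.inl x.2)
  let T : IntermediateField K N := E.comap N.val
  have hT : ∀ n : N, n ∈ T ↔ (n : Ω) ∈ Subfield.closure ((K : Set Ω) ∪ {(a : Ω)}) := fun n => Iff.rfl
  have ha : a ∈ T := (hT a).2 (Subfield.subset_closure (Or.inr rfl))
  have hb : b ∈ T := by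
    rw [← IsGalois.fixedField_fixingSubgroup T, IntermediateField.mem_fixedField_iff]
    intro s hs
    exact h s (hs ⟨a, ha⟩)
  rw [Subfield.closure_le]
  rintro x (hx | hx)
  · exact Subfield.subset_closure (Or.inl hx)
  · rw [Set.mem_singleton_iff] at hx
    rw [hx]
    exact (hT b).1 hb

theorem exists_etData [IsAlgClosed Ω] (K : Subfield Ω) (hΩ : ∀ g : Ω, IsAlgebraic K g)
    (f : Polynomial Ω) (hfK : ∀ i, f.coeff i ∈ K) (hf : ∀ i, w.Ge 0 (f.coeff i))
    (h1 : f.coeff 1 ≠ 0) (h1' : w (f.coeff 1) = 0) {u₁ : Ω} (hu : f.eval u₁ = 0)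
    (hv : VPos w u₁) :
    ∃ θ : Ω, EtData w K θ ∧
      Subfield.closure ((K : Set Ω) ∪ {θ}) = Subfield.closure ((K : Set Ω) ∪ {u₁}) := by
  classical
  have : Algebra.IsAlgebraic K Ω := ⟨hΩ⟩
  have hnorm : Normal K Ω := normal_iff.2 fun x =>
    ⟨(hΩ x).isIntegral, IsAlgClosed.splits _⟩
  -- the polynomial over `K`
  obtain ⟨g, hg⟩ : ∃ g : Polynomial K, g.map (algebraMap K Ω) = f := by
    have h2 : f ∈ Polynomial.lifts (algebraMap K Ω) := by
      rw [Polynomial.lifts_iff_coeff_lifts]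
      intro i
      exact ⟨⟨_, hfK i⟩, rfl⟩
    obtain ⟨g, hg⟩ := h2
    exact ⟨g, hg⟩
  have hgu : aeval u₁ g = 0 := by
    rw [aeval_def, ← eval_map, hg]; exact hu
  have hgu' : aeval u₁ (derivative g) ≠ 0 := by
    rw [aeval_def, ← eval_map, ← derivative_map, hg]
    exact (root_deriv f hf h1 h1' hv).1
  have hintu : IsIntegral K u₁ := (hΩ u₁).isIntegral
  have hsepu : (minpoly K u₁).Separable := by
    rw [separable_iff_derivative_ne_zero (minpoly.irreducible hintu)]
    intro h0
    apply hgu'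
    obtain ⟨q, hq⟩ := minpoly.dvd K u₁ hgu
    rw [hq, derivative_mul, h0, zero_mul, zero_add, _root_.map_mul, minpoly.aeval, zero_mul]
  -- the Galois closure
  have hspl : ((minpoly K u₁).map (algebraMap K Ω)).Splits := IsAlgClosed.splits _
  let N : IntermediateField K Ω := IntermediateField.adjoin K ((minpoly K u₁).rootSet Ω)
  have hsf : (minpoly K u₁).IsSplittingField K N :=
    IntermediateField.adjoin_rootSet_isSplittingField hspl
  have hgal : IsGalois K N := IsGalois.of_separable_splitting_field hsepu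
  have hfdN : FiniteDimensional K N := Polynomial.IsSplittingField.finiteDimensional N (minpoly K u₁)
  have huN : u₁ ∈ N := by
    apply IntermediateField.subset_adjoin
    rw [Polynomial.mem_rootSet]
    exact ⟨minpoly.ne_zero hintu, minpoly.aeval K u₁⟩
  let u : N := ⟨u₁, huN⟩
  let H : Subgroup (N ≃ₐ[K] N) := MulAction.stabilizer (N ≃ₐ[K] N) u
  have hH : ∀ s : N ≃ₐ[K] N, s ∈ H ↔ s u = u := fun s => Iff.rfl
  have hDH : dec w N ≤ H := by
    intro s hs
    rw [hH]
    apply Subtype.ext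
    have h3 : f.eval ((s u : N) : Ω) = 0 := by
      have h4 : aeval (s u) g = 0 := by
        rw [aeval_algEquiv, AlgHom.comp_apply]
        have h5 : aeval u g = 0 := by
          apply Subtype.ext
          have h6 : ((aeval u g : N) : Ω) = aeval (u : Ω) g := by
            have := (aeval_algHom_apply N.val u g)
            exact this.symm
          rw [h6]
          exact hgu
        rw [h5]
        exact _root_.map_zero s
      have h7 : ((aeval (s u) g : N) : Ω) = aeval ((s u : N) : Ω) g :=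
        (aeval_algHom_apply N.val (s u) g).symm
      rw [← hg, eval_map, ← aeval_def, ← h7, h4]
      rfl
    refine root_unique f hf h1 h1' h3 hu ?_ hv
    intro h4
    rw [hs u]
    apply hv
    intro h5
    apply h4
    have h6 : u = 0 := Subtype.ext h5
    rw [h6, _root_.map_zero]
    rfl
  obtain ⟨β, hβ1, hβ2, hβ3⟩ := exists_theta N H hDH
  have hβv : (β : Ω) ≠ 0 ∧ w (β : Ω) = 0 := by
    have h1 := LU1.val_add_vpos (one_ne_zero (α := Ω)) w.map_one hβ2
    have h2 : (1 : Ω) + ((β : Ω) - 1) = β := by ring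
    rwa [h2] at h1
  have hne : ∀ s : N ≃ₐ[K] N, s ∉ H → s β ≠ β := by
    intro s hs h1
    have h2 := hβ3 s hs
    rw [h1] at h2
    have h3 := h2 hβv.1
    rw [hβv.2] at h3
    exact lt_irrefl _ h3
  -- roots of the minimal polynomial
  have hroot : ∀ ρ ∈ (minpoly K (β : Ω)).aroots Ω, ∃ s : N ≃ₐ[K] N, ρ = (s β : N) := by
    intro ρ hρ
    rw [← isConjRoot_iff_mem_minpoly_aroots (Algebra.IsIntegral.isIntegral _)] at hρ
    obtain ⟨σ, hσ⟩ := isConjRoot_iff_exists_algEquiv.1 hρ.symm
    refine ⟨σ.restrictNormal N, ?_⟩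
    rw [← hσ]
    exact (σ.restrictNormal_commutes N β).symm
  have hroot' : ∀ ρ ∈ (minpoly K (β : Ω)).aroots Ω, ρ = β ∨ VPos w ρ := by
    intro ρ hρ
    obtain ⟨s, rfl⟩ := hroot ρ hρ
    by_cases hs : s ∈ H
    · left; rw [hβ1 s hs]
    · right; exact hβ3 s hs
  have hint : IsIntegral K (β : Ω) := Algebra.IsIntegral.isIntegral _
  have hsplit : ((minpoly K (β : Ω)).map (algebraMap K Ω)).Splits := IsAlgClosed.splits _
  have hsepβ : (minpoly K (β : Ω)).Separable := by
    have h8 : (minpoly K β).Separable := Algebra.IsSeparable.isSeparable K β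
    rwa [IntermediateField.minpoly_eq] at h8
  have hD := deriv_unit (v := w) (minpoly K (β : Ω)) (minpoly.monic hint) hsplit
    hsepβ (β := (β : Ω))
    (by
      rw [mem_aroots]
      exact ⟨minpoly.ne_zero hint, minpoly.aeval K _⟩)
    (by
      intro ρ hρ hne'
      rcases hroot' ρ hρ with h1 | h1
      · exact absurd h1 hne'
      · have h2 := LU1.val_add_vpos hβv.1 hβv.2 h1.neg
        rwa [← sub_eq_add_neg] at h2)
  refine ⟨β, ⟨hint, ?_, hD.1, hD.2, hβ2⟩, ?_⟩
  · intro i
    refine coeff_ge (v := w) (minpoly K (β : Ω)) (minpoly.monic hint) hsplit ?_ i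
    intro ρ hρ
    rcases hroot' ρ hρ with h1 | h1
    · rw [h1]; exact fun _ => hβv.2.ge
    · exact h1.ge
  · apply le_antisymm
    · exact closure_le_of_fix K N u β fun s hs => hβ1 s ((hH s).2 hs)
    · refine closure_le_of_fix K N β u fun s hs => ?_
      by_contra h9
      exact hne s (fun h10 => h9 ((hH s).1 h10)) hs

end Pool.Agent.LUC
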