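import Pool.Agent.Lib.LUC.EtDefs
import Pool.Agent.Lib.LUC.D6
import Pool.Agent.Lib.LUC.Q1

/-! # G2: etale descent, approximations

Recipes (6.2 of l15_cp_h16.md; compare `LUM/E01` (store: lum_E01.lean)). `exists_par`: the maximal ideal of the noetherian local ring
`lv w (adj S F)` (`Loc.lean`) is finitely generated; drop the generators that are 0. `theta_mem`: `G(U) = h(1 + U)` (`taylor 1 h`, `h` the
minimal polynomial as a polynomial over `Ω`), `G(θ - 1) = 0`, `G_0 = h(1)`, `G_1 = h'(1)`: `h'(1) - h'(θ)` has positive value (`θ - 1` has), so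
`w G_1 = 0`; `h(1) = h(1) - h(θ)` has positive value and is in `S₀ = lv w (adj S F)`, so it is in `(μ) S₀`; `root_mem` (row D6, a stub here) for
`B = lv w (adj S (F ∪ {θ}))`. `approx_theta`: `decomp` with `L = S₀`, `U = {θ}` (`θ - 1` in the ideal, `1 ∈ S₀`), `lv w (adj S (S₀ ∪ {θ})) =
lv w (adj S (F ∪ {θ}))`, then `IP.approx`.
`ip_mul_pow`: elements of `(μ)^n B` are divisible by `X^n` in `O` if the `μ i` are divisible by `X` (`IP.sum_iff`).
`ip_div`: elements of `(μ)^n B` divided by `b`. -/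

set_option autoImplicit false

namespace Pool.Agent.LUC

open Pool.Agent.H15JM (RVal)
open Pool.Agent.LU1 (VPos)
open Polynomial

universe u

variable {Ω : Type u} [Field Ω] {w : RVal Ω}


/-! ### Polynomials with coefficients in a subring -/

private theorem exists_lift {B : Subring Ω} {f : Polynomial Ω} (hc : ∀ i, f.coeff i ∈ B) :
    ∃ f0 : Polynomial B, f0.map B.subtype = f := by
  have h1 : f ∈ Polynomial.lifts B.subtype := by
    rw [Polynomial.lifts_iff_coeff_lifts]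
    intro n
    exact ⟨⟨f.coeff n, hc n⟩, rfl⟩
  exact (Polynomial.mem_lifts f).1 h1

private theorem eval_lift {B : Subring Ω} (f0 : Polynomial B) (x : B) :
    (f0.map B.subtype).eval (x : Ω) = (f0.eval x : B) := by
  rw [eval_map]
  exact Polynomial.eval₂_at_apply B.subtype x

private theorem eval_mem' {B : Subring Ω} {f : Polynomial Ω} (hc : ∀ i, f.coeff i ∈ B) {x : Ω}
    (hx : x ∈ B) : f.eval x ∈ B := by
  obtain ⟨f0, rfl⟩ := exists_lift hc
  have h := eval_lift f0 ⟨x, hx⟩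
  change _ = _ at h
  rw [h]
  exact Subtype.property _

private theorem eval_sub' {B : Subring Ω} {f : Polynomial Ω} (hc : ∀ i, f.coeff i ∈ B) {x y : Ω}
    (hx : x ∈ B) (hy : y ∈ B) : ∃ c ∈ B, f.eval x - f.eval y = (x - y) * c := by
  obtain ⟨f0, rfl⟩ := exists_lift hc
  obtain ⟨c, hc⟩ := Polynomial.sub_dvd_eval_sub (⟨x, hx⟩ : B) ⟨y, hy⟩ f0
  refine ⟨c, c.2, ?_⟩
  have h1 := congrArg (fun z : B => (z : Ω)) hc
  have h2 := eval_lift f0 ⟨x, hx⟩
  have h3 := eval_lift f0 ⟨y, hy⟩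
  change _ = _ at h2 h3
  rw [h2, h3]
  simpa using h1

private theorem derivative_coeff_mem' {B : Subring Ω} {f : Polynomial Ω}
    (hc : ∀ i, f.coeff i ∈ B) (i : ℕ) : f.derivative.coeff i ∈ B := by
  rw [coeff_derivative]
  refine B.mul_mem (hc _) (B.add_mem ?_ B.one_mem)
  exact natCast_mem B i

private theorem taylor_coeff_mem' {B : Subring Ω} {f : Polynomial Ω} (hc : ∀ i, f.coeff i ∈ B)
    {x : Ω} (hx : x ∈ B) (i : ℕ) : (taylor x f).coeff i ∈ B := by
  obtain ⟨f0, rfl⟩ := exists_lift hc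
  have h := Polynomial.map_taylor f0 (⟨x, hx⟩ : B) B.subtype
  have h2 : B.subtype (⟨x, hx⟩ : B) = x := rfl
  rw [h2] at h
  rw [← h, coeff_map]
  exact Subtype.property _

theorem exists_par (S : Subring Ω) [IsNoetherianRing S] (hS : ∀ s ∈ S, w.Ge 0 s) (F : Finset Ω)
    (hF : ∀ f ∈ F, w.Ge 0 f) :
    ∃ (q : ℕ) (μ : Fin q → Ω), Par w (lv w (adj S (F : Set Ω))) μ := by
  classical
  have hN1 := adj_isNoetherian S F
  have hN := lv_isNoetherian (w := w) (adj S (F : Set Ω))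
  have hB : ∀ f ∈ adj S (F : Set Ω), w.Ge 0 f := adj_nonneg hS fun f hf => hF f hf
  have hloc := lv_isLocalRing hB
  obtain ⟨G, hG⟩ := hN.noetherian (IsLocalRing.maximalIdeal (lv w (adj S (F : Set Ω))))
  have hGm : ∀ z ∈ G, VPos w (z : Ω) := by
    intro z hz
    refine (mem_max_iff hB z).1 ?_
    rw [← hG]
    exact Submodule.subset_span hz
  set T : Finset (lv w (adj S (F : Set Ω))) := G.filter fun z => (z : Ω) ≠ 0 with hT
  have hTm : ∀ z : T, (z : lv w (adj S (F : Set Ω))) ∈ G ∧ (((z : lv w (adj S (F : Set Ω))) : Ω) ≠ 0) :=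
    fun z => Finset.mem_filter.1 z.2
  refine ⟨T.card, fun i => (((T.equivFin.symm i : T) : lv w (adj S (F : Set Ω))) : Ω), ?_, ?_, ?_, ?_⟩
  · intro i
    exact Subtype.property _
  · intro i
    exact (hTm _).2
  · intro i
    exact hGm _ (hTm _).1 (hTm _).2
  · intro f hf hv
    refine ⟨⟨f, hf⟩, rfl, ?_⟩
    rw [pow_one]
    have h1 : (⟨f, hf⟩ : lv w (adj S (F : Set Ω))) ∈
        Submodule.span (lv w (adj S (F : Set Ω))) (G : Set (lv w (adj S (F : Set Ω)))) := by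
      rw [hG]
      exact (mem_max_iff hB _).2 hv
    refine (Submodule.span_le.2 ?_ : Submodule.span (lv w (adj S (F : Set Ω)))
      (G : Set (lv w (adj S (F : Set Ω)))) ≤ _) h1
    intro b hb
    by_cases hb0 : (b : Ω) = 0
    · have : b = 0 := Subtype.ext hb0
      rw [this]
      exact Ideal.zero_mem _
    · refine Ideal.subset_span ⟨T.equivFin ⟨b, Finset.mem_filter.2 ⟨hb, hb0⟩⟩, ?_⟩
      simp

theorem EtData.theta_ge {K : Subfield Ω} {θ : Ω} (h : EtData w K θ) : w.Ge 0 θ := by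
  have h1 : θ = 1 + (θ - 1) := by ring
  rw [h1]
  refine RVal.Ge.add ?_ h.one.ge
  intro _
  rw [w.map_one]

private theorem sing_ge {θ : Ω} {F : Finset Ω} (hθ : w.Ge 0 θ) (hF : ∀ f ∈ F, w.Ge 0 f) :
    ∀ f ∈ (F : Set Ω) ∪ {θ}, w.Ge 0 f := by
  rintro f (hf | hf)
  · exact hF f hf
  · rw [Set.mem_singleton_iff.1 hf]
    exact hθ

theorem EtData.theta_mem {K : Subfield Ω} {θ : Ω} (h : EtData w K θ) (S : Subring Ω)
    (hS : ∀ s ∈ S, w.Ge 0 s) (F : Finset Ω) (hF : ∀ f ∈ F, w.Ge 0 f)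
    (hcF : ∀ i, ((minpoly K θ).coeff i : Ω) ∈ adj S (F : Set Ω)) {q : ℕ} (μ : Fin q → Ω)
    (hμ : Par w (lv w (adj S (F : Set Ω))) μ) :
    IP (lv w (adj S ((F : Set Ω) ∪ {θ}))) μ 1 (θ - 1) := by
  set B := lv w (adj S ((F : Set Ω) ∪ {θ})) with hB
  set P : Polynomial Ω := (minpoly K θ).map (algebraMap K Ω) with hP
  have hPc : ∀ i, P.coeff i ∈ adj S (F : Set Ω) := by
    intro i
    rw [hP, coeff_map]
    exact hcF i
  have h0B : lv w (adj S (F : Set Ω)) ≤ B := lv_mono (adj_mono le_rfl Set.subset_union_left)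
  have hPB : ∀ i, P.coeff i ∈ B := fun i => h0B (le_lv w _ (hPc i))
  have hge : ∀ f ∈ B, w.Ge 0 f := lv_nonneg (adj_nonneg hS (sing_ge h.theta_ge hF))
  have hinv : ∀ f ∈ B, f ≠ 0 → w f = 0 → f⁻¹ ∈ B := fun f hf => lv_inv hf
  have hθB : θ ∈ B := le_lv w _ (mem_adj (Or.inr rfl))
  have hroot : P.eval θ = 0 := by
    rw [hP, eval_map_algebraMap, minpoly.aeval]
  have hder : P.derivative.eval θ = aeval θ (derivative (minpoly K θ)) := by
    rw [hP, Polynomial.derivative_map, eval_map_algebraMap]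
  have hP1S : P.eval 1 ∈ lv w (adj S (F : Set Ω)) :=
    le_lv w _ (eval_mem' hPc (Subring.one_mem _))
  have hP1 : VPos w (P.eval 1) := by
    obtain ⟨c, hc, hc'⟩ := eval_sub' hPB hθB B.one_mem
    rw [hroot, zero_sub] at hc'
    have h2 : P.eval 1 = (θ - 1) * (-c) := by
      rw [mul_neg, ← hc', neg_neg]
    rw [h2]
    exact h.one.mul (hge _ (B.neg_mem hc))
  have hD1 : P.derivative.eval 1 ≠ 0 ∧ w (P.derivative.eval 1) = 0 := by
    obtain ⟨c, hc, hc'⟩ := eval_sub' (fun i => derivative_coeff_mem' hPB i) hθB B.one_mem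
    have h2 : P.derivative.eval 1 = P.derivative.eval θ + (θ - 1) * (-c) := by
      rw [mul_neg, ← hc']
      ring
    rw [h2, hder]
    exact Pool.Agent.LU1.val_add_vpos h.der_ne h.der (h.one.mul (hge _ (B.neg_mem hc)))
  refine root_mem B hge hinv μ (taylor 1 P) (fun i => taylor_coeff_mem' hPB B.one_mem i) ?_ ?_ ?_
    (θ - 1) (B.sub_mem hθB B.one_mem) h.one ?_
  · rw [taylor_coeff_zero]
    exact (hμ.gen _ hP1S hP1).mono h0B fun i => h0B (hμ.mem i)
  · rw [taylor_coeff_one]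
    exact hD1.1
  · rw [taylor_coeff_one]
    exact hD1.2
  · rw [taylor_eval, sub_add_cancel]
    exact hroot

theorem EtData.approx_theta {K : Subfield Ω} {θ : Ω} (h : EtData w K θ) (S : Subring Ω)
    (hS : ∀ s ∈ S, w.Ge 0 s) (F : Finset Ω) (hF : ∀ f ∈ F, w.Ge 0 f)
    (hcF : ∀ i, ((minpoly K θ).coeff i : Ω) ∈ adj S (F : Set Ω)) {q : ℕ} (μ : Fin q → Ω)
    (hμ : Par w (lv w (adj S (F : Set Ω))) μ) (n : ℕ) :
    ∀ f ∈ lv w (adj S ((F : Set Ω) ∪ {θ})), ∃ f₀ ∈ lv w (adj S (F : Set Ω)),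
      IP (lv w (adj S ((F : Set Ω) ∪ {θ}))) μ n (f - f₀) := by
  set L := lv w (adj S (F : Set Ω)) with hL
  have hSL : S ≤ L := (base_le_adj S _).trans (le_lv w _)
  have hLge : ∀ f ∈ L, w.Ge 0 f := lv_nonneg (adj_nonneg hS fun f hf => hF f hf)
  have h1 : lv w (adj S ((L : Set Ω) ∪ {θ})) = lv w (adj S ((F : Set Ω) ∪ {θ})) := by
    have h2 : adj S ((L : Set Ω) ∪ {θ}) = adj L {θ} := by
      rw [← adj_adj]
      congr 1
      apply le_antisymm
      · exact adj_le hSL le_rfl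
      · exact fun f hf => mem_adj hf
    rw [h2, hL, lv_adj_lv, adj_adj]
  have hθ1 := h.theta_mem S hS F hF hcF μ hμ
  have hLB : L ≤ lv w (adj S ((F : Set Ω) ∪ {θ})) :=
    lv_mono (adj_mono le_rfl Set.subset_union_left)
  have h3 := decomp S L hS hLge (fun f hf => lv_inv hf) μ hμ.mem (fun i _ => hμ.pos i) {θ}
    (by
      intro u hu
      rw [Set.mem_singleton_iff.1 hu]
      exact h.theta_ge)
    (fun s hs => ⟨s, hSL hs, by rw [sub_self]; exact IP.zero⟩)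
    (by
      intro u hu
      rw [Set.mem_singleton_iff.1 hu, h1]
      exact ⟨1, L.one_mem, hθ1⟩)
  rw [h1] at h3
  exact IP.approx hLB hμ.mem h3 n

theorem ip_mul_pow {B O : Subring Ω} (hBO : B ≤ O) {q : ℕ} {μ : Fin q → Ω} (hμ : ∀ i, μ i ∈ B)
    {X : Ω} (hX : ∀ i, ∃ a ∈ O, μ i = X * a) {n : ℕ} {f : Ω} (hf : IP B μ n f) :
    ∃ a ∈ O, f = X ^ n * a := by
  obtain ⟨c, hc, rfl⟩ := (IP.sum_iff hμ).1 hf
  choose a ha hμa using hX
  refine ⟨∑ φ, c φ * ∏ i, a (φ i), O.sum_mem fun φ _ => O.mul_mem (hBO (hc φ))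
    (O.prod_mem fun i _ => ha _), ?_⟩
  rw [Finset.mul_sum]
  refine Finset.sum_congr rfl fun φ _ => ?_
  have h1 : ∏ i, μ (φ i) = X ^ n * ∏ i, a (φ i) := by
    rw [Finset.prod_congr rfl fun i _ => hμa (φ i), Finset.prod_mul_distrib, Finset.prod_const,
      Finset.card_univ, Fintype.card_fin]
  rw [h1]
  ring

theorem ip_div {B O : Subring Ω} (hBO : B ≤ O) {q : ℕ} {μ : Fin q → Ω} (hμ : ∀ i, μ i ∈ B)
    {b : Ω} {n : ℕ} (hb : ∀ φ : Fin n → Fin q, (∏ i, μ (φ i)) / b ∈ O) {f : Ω}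
    (hf : IP B μ n f) : f / b ∈ O := by
  obtain ⟨c, hc, rfl⟩ := (IP.sum_iff hμ).1 hf
  rw [Finset.sum_div]
  refine O.sum_mem fun φ _ => ?_
  rw [mul_div_assoc]
  exact O.mul_mem (hBO (hc φ)) (hb φ)

end Pool.Agent.LUC
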