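import Pool.Agent.Lib.LUC.EtDefs
import Pool.Agent.Lib.LUC.G2

/-! # G3: etale descent, the ring `R_E`

Recipe (6.2 of l15_cp_h16.md): port of `exists_desc_ring` (`LUM/E02`; store: lum_E02.lean), with `S` for `Λ`, `μ` for `t`, `SM w O z J` for
`MonoPos`, `X = ∏ j ∈ J, z j`. Every `μ i` is divisible by `X` in `O` (`SM.dvd`), `g` divides `X^e` (`SM.dvd_pow`), `n = e + 2`; `S₀ = lv w (adj S F)`,
`S₀' = lv w (adj S (F ∪ {θ})) ≤ O`. `b, b_y ∈ S₀` with `g - b, y - b_y ∈ (μ)^n S₀'` (`approx_theta`), for `y ∈ G`; `(μ)^n S₀' ⊆ X^n O ⊆ g X^2 O`, so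
`b = g U` with `U ∈ 1 + X^2 O` a unit of `O` (`X` has positive value: some `μ i`.. or `J` not empty), `b_y / b ∈ O`.
`W` = the `b_y` and the products `∏ i, μ (φ i)`, `φ : Fin n → Fin q`; `FR = F ∪ W / b`; `R = lv w (adj S FR) ≤ O`, `R ⊆ K`.
`O = lv w (adj S (R ∪ {θ}))`: `y / g = (y / b) / (g / b)`, `g / b = 1 + (μ)^n S₀' / b`, `y / b = b_y / b + (μ)^n S₀' / b` are in
`lv w (adj S (R ∪ {θ}))` (`ip_div`) and `g / b` has value 0. The last statement: the set of the `f ∈ O` of the form `ρ + X^2 a` is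
all of `O`: it is a ring which contains `adj S (R ∪ {θ})` (`θ = θ₀ + (μ)^n S₀'` with `θ₀ ∈ S₀`, `n ≥ 2`), then quotients (as in `decomp`;
`decomp` with one generator `α = X^2` does not apply since `X ∉ R`: argue directly as in `EtDesc.lean` / lum_E02.lean). -/

set_option autoImplicit false

namespace Pool.Agent.LUC

open Pool.Agent.H15JM (RVal)
open Pool.Agent.LU1 (VPos)
open Polynomial

universe u

variable {Ω : Type u} [Field Ω] {w : RVal Ω}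

private theorem ip_prod {B : Subring Ω} {q : ℕ} {μ : Fin q → Ω} (n : ℕ) (φ : Fin n → Fin q)
    (h : ∀ i, μ i ∈ B) : IP B μ n (∏ i, μ (φ i)) := IP.gen_prod h φ

private theorem ge_div {x g : Ω} (hg0 : g ≠ 0) (hx : w.Ge (w g) x) : w.Ge 0 (x / g) := by
  intro h0
  have hx0 : x ≠ 0 := by
    rintro rfl
    simp at h0
  rw [w.map_div hx0 hg0]
  have := hx hx0
  linarith

theorem exists_desc_ring (S : Subring Ω) (hS : ∀ s ∈ S, w.Ge 0 s)
    (K : Subfield Ω) (hSK : ∀ s ∈ S, s ∈ K) (θ : Ω) (h : EtData w K θ) (F : Finset Ω)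
    (hF : ∀ f ∈ F, f ∈ K ∧ w.Ge 0 f)
    (hcF : ∀ i, ((minpoly K θ).coeff i : Ω) ∈ adj S (F : Set Ω)) {q : ℕ} (μ : Fin q → Ω)
    (hμ : Par w (lv w (adj S (F : Set Ω))) μ) {n : ℕ} (z : Fin n → Ω) (J : Finset (Fin n))
    (hJ : J.Nonempty) (O : Subring Ω) (hz : Par w O z) (g : Ω)
    (hg : g ∈ adj S ((F : Set Ω) ∪ {θ})) (hg0 : g ≠ 0) (hgm : SM w O z J g) (G : Finset Ω)
    (hG : ∀ y ∈ G, y ∈ adj S ((F : Set Ω) ∪ {θ}) ∧ w.Ge (w g) y)
    (hO : O = lv w (adj S (((F : Set Ω) ∪ {θ}) ∪ (fun y => y / g) '' (G : Set Ω))))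
    (hμm : ∀ i, SM w O z J (μ i)) :
    ∃ (b : Ω) (W FR : Finset Ω), b ∈ lv w (adj S (F : Set Ω)) ∧ b ≠ 0 ∧
      (∃ U ∈ O, U ≠ 0 ∧ w U = 0 ∧ b = g * U) ∧
      (∀ y ∈ W, y ∈ lv w (adj S (F : Set Ω))) ∧
      (FR : Set Ω) = (F : Set Ω) ∪ (fun y => y / b) '' (W : Set Ω) ∧
      lv w (adj S (FR : Set Ω)) ≤ O ∧ (∀ f ∈ lv w (adj S (FR : Set Ω)), f ∈ K) ∧
      O = lv w (adj (lv w (adj S (FR : Set Ω))) {θ}) ∧
      ∀ f ∈ O, ∃ ρ ∈ lv w (adj S (FR : Set Ω)), ∃ a ∈ O, f = ρ + (∏ j ∈ J, z j) ^ 2 * a := by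
  classical
  set D : Subring Ω := adj S (F : Set Ω) with hD
  have hDK : ∀ f ∈ D, f ∈ K := fun f hf =>
    adj_induction (p := fun f => f ∈ K) hSK (fun f hf => (hF f hf).1)
      (fun _ _ => K.add_mem) (fun _ _ => K.mul_mem) hf
  have hFge : ∀ f ∈ F, w.Ge 0 f := fun f hf => (hF f hf).2
  have hθge : w.Ge 0 θ := h.theta_ge
  have hAge : ∀ f ∈ adj S ((F : Set Ω) ∪ {θ}), w.Ge 0 f := by
    refine adj_nonneg hS ?_
    rintro f (hf | hf)
    · exact hFge f hf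
    · rw [Set.mem_singleton_iff.1 hf]
      exact hθge
  have hOge : ∀ f ∈ O, w.Ge 0 f := by
    rw [hO]
    refine lv_nonneg (adj_nonneg hS ?_)
    rintro f (hf | ⟨y, hy, rfl⟩)
    · exact hAge f (mem_adj hf)
    · exact ge_div hg0 (hG y hy).2
  have hOinv : ∀ f ∈ O, f ≠ 0 → w f = 0 → f⁻¹ ∈ O := by
    rw [hO]
    exact fun f hf => lv_inv hf
  set X : Ω := ∏ j ∈ J, z j with hX
  have hXR : X ∈ O := O.prod_mem fun j _ => hz.mem j
  have hXv : VPos w X := by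
    obtain ⟨j, hj⟩ := hJ
    rw [hX, ← Finset.mul_prod_erase J z hj]
    exact VPos.mul (fun _ => hz.pos j) (hOge _ (O.prod_mem fun i _ => hz.mem i))
  have hAR : ∀ a ∈ adj S ((F : Set Ω) ∪ {θ}), a ∈ O := by
    intro a ha
    rw [hO]
    exact le_lv w _ (adj_mono le_rfl Set.subset_union_left ha)
  -- the rings `S0`, `B`
  set S0 : Subring Ω := lv w D with hS0
  set B : Subring Ω := lv w (adj S ((F : Set Ω) ∪ {θ})) with hB
  have hBO : B ≤ O := lv_le (fun a ha => hAR a ha) hOinv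
  have hS0B : S0 ≤ B := lv_mono (adj_mono le_rfl Set.subset_union_left)
  have hDS0 : D ≤ S0 := le_lv w _
  have hFD : ∀ f ∈ F, f ∈ D := fun f hf => mem_adj hf
  have hS0K : ∀ f ∈ S0, f ∈ K := by
    rintro f ⟨a, ha, b, hb, -, -, rfl⟩
    exact K.div_mem (hDK a ha) (hDK b hb)
  have hθB : θ ∈ B := le_lv w _ (mem_adj (Or.inr rfl))
  have hμB : ∀ i, μ i ∈ B := fun i => hS0B (hμ.mem i)
  have hμX : ∀ i, ∃ a ∈ O, μ i = X * a := fun i => (hμm i).dvd hz.mem hz.ne (hμ.pos i)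
  -- the exponent
  have hgO : g ∈ O := hAR g hg
  have hgv : 0 ≤ w g := hOge g hgO hg0
  obtain ⟨e, a₀, ha₀, hXe⟩ := hgm.dvd_pow hOinv hz.mem hz.ne hgv
  set k : ℕ := e + 2 with hk
  have hIn : ∀ x, IP B μ k x → ∃ a ∈ O, x = g * (X ^ 2 * a) := by
    intro x hx
    obtain ⟨a, ha, h3⟩ := ip_mul_pow hBO hμB hμX hx
    refine ⟨a₀ * a, O.mul_mem ha₀ ha, ?_⟩
    rw [h3, hk, pow_add, hXe]
    ring
  have happ : ∀ x ∈ B, ∃ y ∈ S0, IP B μ k (x - y) :=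
    h.approx_theta S hS F hFge hcF μ hμ k
  have hAB : ∀ a ∈ adj S ((F : Set Ω) ∪ {θ}), a ∈ B := fun a ha => le_lv w _ ha
  obtain ⟨b, hb, hgb⟩ := happ g (hAB g hg)
  obtain ⟨a₁, ha₁, hgb'⟩ := hIn _ hgb
  -- `b` is `g` times a unit
  set U : Ω := 1 - X ^ 2 * a₁ with hU
  have hX2 : ∀ a ∈ O, VPos w (X ^ 2 * a) := by
    intro a ha
    rw [pow_two, mul_assoc]
    exact hXv.mul (hOge _ (O.mul_mem hXR ha))
  have hUv : U ≠ 0 ∧ w U = 0 := by
    rw [hU, sub_eq_add_neg]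
    exact Pool.Agent.LU1.val_add_vpos one_ne_zero w.map_one (hX2 a₁ ha₁).neg
  have hUR : U ∈ O := O.sub_mem O.one_mem (O.mul_mem (O.pow_mem hXR 2) ha₁)
  have hUR' : U⁻¹ ∈ O := hOinv U hUR hUv.1 hUv.2
  have hbU : b = g * U := by
    have h3 : b = g - g * (X ^ 2 * a₁) := by
      rw [← hgb']
      ring
    rw [h3, hU]
    ring
  have hb0 : b ≠ 0 := by
    rw [hbU]
    exact mul_ne_zero hg0 hUv.1
  have hbex : ∀ y, y ∈ G → ∃ y' ∈ S0, IP B μ k (y - y') := fun y hy => happ y (hAB y (hG y hy).1)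
  choose! bb hbb hbb' using hbex
  -- the ring `R`
  set P3 : Finset Ω := (Finset.univ : Finset (Fin k → Fin q)).image fun φ =>
    ∏ i, μ (φ i) with hP3
  set W : Finset Ω := G.image bb ∪ P3 with hW
  set FR : Finset Ω := F ∪ W.image fun y => y / b with hFR
  have hFRset : (FR : Set Ω) = (F : Set Ω) ∪ (fun y => y / b) '' (W : Set Ω) := by
    rw [hFR]
    push_cast
    rfl
  have hWS0 : ∀ y ∈ W, y ∈ S0 := by
    intro y hy
    rcases Finset.mem_union.1 hy with hy | hy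
    · obtain ⟨x, hx, rfl⟩ := Finset.mem_image.1 hy
      exact hbb x hx
    · obtain ⟨φ, -, rfl⟩ := Finset.mem_image.1 hy
      exact S0.prod_mem fun i _ => hμ.mem _
  set R : Subring Ω := lv w (adj S (FR : Set Ω)) with hR
  have hDR : D ≤ R := by
    refine (adj_mono le_rfl ?_).trans (le_lv w _)
    intro f hf
    exact Finset.mem_coe.2 (Finset.mem_union_left _ hf)
  have hS0R : S0 ≤ R := lv_le hDR fun f hf h0 h1 => lv_inv hf h0 h1
  have hRloc : ∀ f ∈ R, f ≠ 0 → w f = 0 → f⁻¹ ∈ R := fun f hf h0 h1 => lv_inv hf h0 h1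
  have hWR : ∀ y ∈ W, y / b ∈ R := fun y hy => le_lv w _ (mem_adj
    (Finset.mem_coe.2 (Finset.mem_union_right _ (Finset.mem_image_of_mem _ hy))))
  have hbbR : ∀ y ∈ G, bb y / b ∈ R := fun y hy =>
    hWR _ (Finset.mem_union_left _ (Finset.mem_image_of_mem _ hy))
  have hP3R : ∀ φ : Fin k → Fin q, (∏ i, μ (φ i)) / b ∈ R := fun φ =>
    hWR _ (Finset.mem_union_right _ (Finset.mem_image_of_mem _ (Finset.mem_univ φ)))
  have hdivb : ∀ x, IP B μ k x → ∃ a ∈ O, x / b = X ^ 2 * a := by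
    intro x hx
    obtain ⟨a, ha, h3⟩ := hIn x hx
    refine ⟨a * U⁻¹, O.mul_mem ha hUR', ?_⟩
    rw [h3, hbU]
    have := hUv.1
    field_simp
  have hRO : R ≤ O := by
    refine lv_le (adj_le ?_ ?_) hOinv
    · exact fun s hs => hAR s (base_le_adj S _ hs)
    · intro f hf
      rcases Finset.mem_union.1 hf with hf | hf
      · exact hAR f (mem_adj (Or.inl hf))
      · obtain ⟨y, hy, rfl⟩ := Finset.mem_image.1 hf
        rcases Finset.mem_union.1 hy with hy | hy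
        · obtain ⟨x, hx, rfl⟩ := Finset.mem_image.1 hy
          have h3 : x / g ∈ O := by
            rw [hO]
            exact le_lv w _ (mem_adj (Or.inr ⟨x, hx, rfl⟩))
          obtain ⟨a, ha, h4⟩ := hdivb _ (hbb' x hx)
          have h5 : bb x / b = x / g * U⁻¹ - X ^ 2 * a := by
            rw [← h4, hbU]
            have := hUv.1
            field_simp
            ring
          change bb x / b ∈ O
          rw [h5]
          exact O.sub_mem (O.mul_mem h3 hUR') (O.mul_mem (O.pow_mem hXR 2) ha)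
        · obtain ⟨φ, -, rfl⟩ := Finset.mem_image.1 hy
          obtain ⟨a, ha, h4⟩ := hdivb _ (ip_prod k φ hμB)
          change (∏ i, μ (φ i)) / b ∈ O
          rw [h4]
          exact O.mul_mem (O.pow_mem hXR 2) ha
  -- `O` is the localisation of `R[θ]`
  set R1 : Subring Ω := lv w (adj R {θ}) with hR1
  have hRR1 : R ≤ R1 := fun f hf => le_lv w _ (base_le_adj R _ hf)
  have hθR1 : θ ∈ R1 := le_lv w _ (mem_adj rfl)
  have hR1loc : ∀ f ∈ R1, f ≠ 0 → w f = 0 → f⁻¹ ∈ R1 := fun f hf h0 h1 => lv_inv hf h0 h1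
  have hBR1 : B ≤ R1 := by
    refine lv_le (adj_le ?_ ?_) hR1loc
    · exact fun s hs => hRR1 (hDR (base_le_adj S _ hs))
    · rintro f (hf | hf)
      · exact hRR1 (hDR (mem_adj hf))
      · rw [Set.mem_singleton_iff.1 hf]
        exact hθR1
  have hdivR1 : ∀ x, IP B μ k x → x / b ∈ R1 := fun x hx =>
    ip_div hBR1 hμB (fun φ => hRR1 (hP3R φ)) hx
  have hgbR1 : g / b ∈ R1 := by
    have h3 : g / b = 1 + (g - b) / b := by
      field_simp
      ring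
    rw [h3]
    exact R1.add_mem R1.one_mem (hdivR1 _ hgb)
  have hgbv : g / b ≠ 0 ∧ w (g / b) = 0 := by
    refine ⟨div_ne_zero hg0 hb0, ?_⟩
    rw [w.map_div hg0 hb0, hbU, w.map_mul hg0 hUv.1, hUv.2]
    ring
  have hOR1 : O ≤ R1 := by
    rw [hO]
    refine lv_le (adj_le ?_ ?_) hR1loc
    · exact fun s hs => hBR1 (hAB s (base_le_adj S _ hs))
    · rintro f (hf | ⟨x, hx, rfl⟩)
      · exact hBR1 (hAB f (mem_adj hf))
      · have h3 : x / g = (bb x / b + (x - bb x) / b) * (g / b)⁻¹ := by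
          field_simp
          ring
        change x / g ∈ R1
        rw [h3]
        exact R1.mul_mem (R1.add_mem (hRR1 (hbbR x hx)) (hdivR1 _ (hbb' x hx)))
          (hR1loc _ hgbR1 hgbv.1 hgbv.2)
  have hθO : θ ∈ O := hAR θ (mem_adj (Or.inr rfl))
  have hR1O : R1 ≤ O := by
    refine lv_le (adj_le hRO ?_) hOinv
    intro f hf
    rw [Set.mem_singleton_iff.1 hf]
    exact hθO
  -- everything in `O` is in `R + X ^ 2 O`
  have hdec0 : ∀ x ∈ adj R {θ}, ∃ ρ ∈ R, ∃ a ∈ O, x = ρ + X ^ 2 * a := by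
    intro x hx
    refine adj_induction (p := fun x => ∃ ρ ∈ R, ∃ a ∈ O, x = ρ + X ^ 2 * a) ?_ ?_ ?_ ?_ hx
    · exact fun x hx => ⟨x, hx, 0, O.zero_mem, by ring⟩
    · intro x hx
      rw [Set.mem_singleton_iff.1 hx]
      obtain ⟨y, hy, hy'⟩ := happ θ hθB
      obtain ⟨a, ha, h3⟩ := hIn _ hy'
      refine ⟨y, hS0R hy, g * a, O.mul_mem hgO ha, ?_⟩
      have h4 : θ = y + (θ - y) := by ring
      rw [h4, h3]
      ring
    · rintro x y ⟨ρ, hρ, a, ha, rfl⟩ ⟨ρ', hρ', a', ha', rfl⟩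
      exact ⟨ρ + ρ', R.add_mem hρ hρ', a + a', O.add_mem ha ha', by ring⟩
    · rintro x y ⟨ρ, hρ, a, ha, rfl⟩ ⟨ρ', hρ', a', ha', rfl⟩
      exact ⟨ρ * ρ', R.mul_mem hρ hρ', ρ * a' + a * ρ' + X ^ 2 * (a * a'),
        O.add_mem (O.add_mem (O.mul_mem (hRO hρ) ha') (O.mul_mem ha (hRO hρ')))
          (O.mul_mem (O.pow_mem hXR 2) (O.mul_mem ha ha')), by ring⟩
  have hdec : ∀ x ∈ O, ∃ ρ ∈ R, ∃ a ∈ O, x = ρ + X ^ 2 * a := by
    intro x hx
    obtain ⟨y, hy, t, ht, ht0, hvt, rfl⟩ := hOR1 hx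
    have hadO : ∀ y ∈ adj R {θ}, y ∈ O := fun y hy => hR1O (le_lv w _ hy)
    have htO := hadO t ht
    obtain ⟨ρ, hρ, a, ha, hya⟩ := hdec0 y hy
    obtain ⟨σ, hσ, c, hc', htc⟩ := hdec0 t ht
    have hσv : σ ≠ 0 ∧ w σ = 0 := by
      have h3 : σ = t + -(X ^ 2 * c) := by
        rw [htc]
        ring
      rw [h3]
      exact Pool.Agent.LU1.val_add_vpos ht0 hvt (hX2 c hc').neg
    refine ⟨ρ / σ, by rw [div_eq_mul_inv]; exact R.mul_mem hρ (hRloc σ hσ hσv.1 hσv.2),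
      (a * σ - ρ * c) * (t⁻¹ * σ⁻¹), O.mul_mem (O.sub_mem (O.mul_mem ha (hRO hσ))
        (O.mul_mem (hRO hρ) hc')) (O.mul_mem (hOinv t htO ht0 hvt)
          (hRO (hRloc σ hσ hσv.1 hσv.2))), ?_⟩
    have h4 : σ ≠ 0 := hσv.1
    have h5 : y / t - ρ / σ = (y * σ - ρ * t) * (t⁻¹ * σ⁻¹) := by
      field_simp
    have h6 : y * σ - ρ * t = X ^ 2 * (a * σ - ρ * c) := by
      rw [hya, htc]
      ring
    rw [h6] at h5
    rw [← mul_assoc, ← h5]
    ring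
  have hRK : ∀ f ∈ R, f ∈ K := by
    rintro f ⟨a, ha, c, hc', -, -, rfl⟩
    have h3 : ∀ f ∈ adj S (FR : Set Ω), f ∈ K := by
      intro f hf
      refine adj_induction (p := fun f => f ∈ K) hSK (fun x hx => ?_)
        (fun _ _ => K.add_mem) (fun _ _ => K.mul_mem) hf
      rcases Finset.mem_union.1 hx with hx | hx
      · exact (hF x hx).1
      · obtain ⟨y, hy, rfl⟩ := Finset.mem_image.1 hx
        exact K.div_mem (hS0K _ (hWS0 y hy)) (hS0K b hb)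
    exact K.div_mem (h3 a ha) (h3 c hc')
  exact ⟨b, W, FR, hb, hb0, ⟨U, hUR, hUv.1, hUv.2, hbU⟩, hWS0, hFRset, hRO, hRK,
    le_antisymm hOR1 hR1O, hdec⟩

end Pool.Agent.LUC
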