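import Pool.Agent.Lib.LUC.EtDefs
import Pool.Agent.Lib.LUC.Q1

/-! # G4: etale descent, the parameters of `R_E`

Recipes (6.2 of l15_cp_h16.md; compare `descend_rel` in `LUM/EtDescB.lean` and `LUM/E03` (store: lum_E03.lean), `LinD`).
`free`: `h = minpoly K θ` is monic with coefficients in `R`, so every element of `adj R {θ}` is `∑ i < deg h, s i * θ ^ i` with
`s i ∈ R`, and the `θ^i`, `i < deg h`, are linearly independent over `K`. So: `f ∈ K`, `f * s = ∑ l, c l * r l` with `s, r l ∈ adj R {θ}`,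
`w s = 0`, `c l ∈ R`: `s = ∑ s i θ^i`, some `s i ≠ 0` has value 0 (otherwise `w s > 0`; `w.Ge 0 θ`), comparison of the
coefficients of `θ^i`: `f * s i = ∑ l, c l * (r l) i`. `desc_ip`: `f ∈ K` with `IP O c 1 f`, `c l ∈ R`: `IP R c 1 f` (clear denominators in `O = lv w (adj R {θ})`).
`desc_mem`: `f ∈ K ∩ O` is in `R` (the same with `c = (1)`).
`exists_desc_par`: `X = ∏ j ∈ J, z j` (positive value, `J` not empty); `z'' i = ρ (z i)` with `z i = z'' i + X^2 a_i`: for `i ∈ J`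
`z'' i = z i * (1 - ..)`, a unit times `z i` (`X` is divisible by `z i`); for all `i` `IP O z'' 1 (z i)`: clear for `i ∈ J`, and
`X^2` is in `(z j) O = (z'' j) O`, `j ∈ J`. `z'' i ≠ 0`: for `i ∉ J`, if `z'' i = 0` then replace `z'' i` by `z'' i + (z'' j)^N`..: SIMPLER: if `z'' i = 0` take
`z'' i := X''^2`, where `X'' = ∏ j ∈ J, z'' j ∈ R` (then `z i = X^2 a_i ∈ (z'' j) O`, `j ∈ J`). Values are positive. `gen`: `f ∈ R` of positive value is
in `(z) O = (z'') O`, so in `(z'') R` by `desc_ip`. `SM`: `t = ∏ z i ^ e i * u` (`e i = 0` off `J`) `= ∏ z'' i ^ e i * u''`, `u''` a unit of `O` in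
`K`, so of `R` (`desc_mem`). `Tau`: let `τ : O → O₀ / m^M` be surjective, `M ≥ 1`; `O` is a local ring (units = value 0), `X''` is not a unit of `O`, so `τ X''`
is not a unit (a surjective ring hom from a local ring to a nonzero ring reflects units), so it is in the maximal
ideal and `τ (X''^M) = 0`. By induction every `f ∈ O` is `ρ + X''^M a`, `ρ ∈ R` (`X^2 = X''^2 * unit`). So `τ` restricted to `R`
is surjective. -/

set_option autoImplicit false

namespace Pool.Agent.LUC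

open Pool.Agent.H15JM (RVal)
open Pool.Agent.LU1 (VPos)
open Polynomial

universe u

variable {Ω : Type u} [Field Ω] {w : RVal Ω}

/-- Elements of `R[θ]` are values of polynomials over `R`. -/
private theorem exists_aeval_of_mem_adj (R : Subring Ω) (θ : Ω) {f : Ω} (hf : f ∈ adj R {θ}) :
    ∃ P : Polynomial R, aeval θ P = f := by
  refine adj_induction (p := fun f => ∃ P : Polynomial R, aeval θ P = f) ?_ ?_ ?_ ?_ hf
  · exact fun x hx => ⟨C ⟨x, hx⟩, by rw [aeval_C]; rfl⟩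
  · exact fun x hx => ⟨X, by rw [aeval_X]; exact (Set.mem_singleton_iff.1 hx).symm⟩
  · rintro x y ⟨P, hP⟩ ⟨Q, hQ⟩
    exact ⟨P + Q, by rw [_root_.map_add, hP, hQ]⟩
  · rintro x y ⟨P, hP⟩ ⟨Q, hQ⟩
    exact ⟨P * Q, by rw [_root_.map_mul, hP, hQ]⟩

/-- A value of a polynomial with coefficients of positive value has positive value. -/
private theorem vpos_aeval (R : Subring Ω) (θ : Ω) (hθ : w.Ge 0 θ) (P : Polynomial R)
    (h : ∀ i, VPos w (P.coeff i : Ω)) : VPos w (aeval θ P) := by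
  rw [aeval_eq_sum_range]
  refine Finset.sum_induction _ (VPos w) (fun a b ha hb => ha.add hb) VPos.zero ?_
  intro i _
  have hp : w.Ge 0 (θ ^ i) := by
    intro h0
    by_cases hi : i = 0
    · subst hi; rw [pow_zero, w.map_one]
    · have h1 : θ ≠ 0 := by
        rintro rfl
        rw [zero_pow hi] at h0
        exact h0 rfl
      rw [w.map_pow h1]
      exact mul_nonneg (Nat.cast_nonneg _) (hθ h1)
  exact (h i).mul hp

private theorem desc_rel (K : Subfield Ω) (θ : Ω) (hint : IsIntegral K θ) (R : Subring Ω)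
    (hR : ∀ f ∈ R, w.Ge 0 f) (hRinv : ∀ f ∈ R, f ≠ 0 → w f = 0 → f⁻¹ ∈ R)
    (hRK : ∀ f ∈ R, f ∈ K) (hc : ∀ i, ((minpoly K θ).coeff i : Ω) ∈ R) (hθ : w.Ge 0 θ) {n : ℕ}
    (c α : Fin n → Ω) (hcR : ∀ j, c j ∈ R) (hα : ∀ j, α j ∈ lv w (adj R {θ})) (z : Ω)
    (hz : z ∈ K) (hzw : z = ∑ j, α j * c j) :
    ∃ β : Fin n → Ω, (∀ j, β j ∈ R) ∧ z = ∑ j, β j * c j := by
  classical
  set ι : R →+* K :=
    { toFun := fun x => ⟨x, hRK x x.2⟩
      map_one' := rfl
      map_mul' := fun _ _ => rfl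
      map_zero' := rfl
      map_add' := fun _ _ => rfl } with hι
  have hιinj : Function.Injective ι := by
    intro a b hab
    exact Subtype.ext (congrArg (fun z : K => (z : Ω)) hab)
  have hιv : ∀ x : R, ((ι x : K) : Ω) = (x : Ω) := fun x => rfl
  have hmap : ∀ Q : Polynomial R, aeval θ (Q.map ι) = aeval θ Q := by
    intro Q
    rw [aeval_def, aeval_def, eval₂_map]
    rfl
  -- the minimal polynomial over `R`
  have hlift : minpoly K θ ∈ lifts ι := by
    rw [lifts_iff_coeff_lifts]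
    intro i
    exact ⟨⟨_, hc i⟩, Subtype.ext rfl⟩
  obtain ⟨h, hh, hdeg, hmon⟩ := lifts_and_degree_eq_and_monic hlift (minpoly.monic hint)
  have hh0 : aeval θ h = 0 := by rw [← hmap, hh, minpoly.aeval]
  -- reduction
  have hred : ∀ f ∈ adj R {θ}, ∃ P : Polynomial R, P.degree < h.degree ∧ aeval θ P = f := by
    intro f hf
    obtain ⟨P, hP⟩ := exists_aeval_of_mem_adj R θ hf
    refine ⟨P %ₘ h, degree_modByMonic_lt P hmon, ?_⟩
    rw [← hP]
    conv_rhs => rw [← modByMonic_add_div P h]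
    rw [_root_.map_add, _root_.map_mul, hh0, zero_mul, add_zero]
  have huniq : ∀ Q : Polynomial K, Q.degree < h.degree → aeval θ Q = 0 → Q = 0 := by
    intro Q hQ h0
    by_contra hne
    have h2 := minpoly.degree_le_of_ne_zero K θ hne h0
    rw [← hdeg] at h2
    exact absurd hQ (not_lt.2 h2)
  -- common denominator
  choose a ha b hb hb0 hvb hab using hα
  set u : Ω := ∏ j, b j with hu
  have huS : u ∈ adj R {θ} := Subring.prod_mem _ fun j _ => hb j
  have hu0 : u ≠ 0 := Finset.prod_ne_zero_iff.2 fun j _ => hb0 j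
  have hvu : w u = 0 := by
    have : ∀ s : Finset (Fin n), w (∏ j ∈ s, b j) = 0 := by
      intro s
      induction s using Finset.induction_on with
      | empty => rw [Finset.prod_empty, w.map_one]
      | insert j s hj ih =>
        rw [Finset.prod_insert hj, w.map_mul (hb0 j)
          (Finset.prod_ne_zero_iff.2 fun i _ => hb0 i), hvb, ih, add_zero]
    exact this _
  have huα : ∀ j, u * α j ∈ adj R {θ} := by
    intro j
    have h1 : u * α j = (∏ i ∈ Finset.univ.erase j, b i) * a j := by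
      rw [hab j, hu, ← Finset.mul_prod_erase Finset.univ b (Finset.mem_univ j)]
      field_simp [hb0 j]
    rw [h1]
    exact Subring.mul_mem _ (Subring.prod_mem _ fun i _ => hb i) (ha j)
  obtain ⟨U, hUd, hU⟩ := hred u huS
  choose A hAd hA using fun j => hred _ (huα j)
  have hrel : C (⟨z, hz⟩ : K) * U.map ι - ∑ j, C (ι ⟨c j, hcR j⟩) * (A j).map ι = 0 := by
    have hCd : ∀ (c : K) (P : Polynomial R), P.degree < h.degree →
        (C c * P.map ι).degree < h.degree :=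
      fun c P hP => lt_of_le_of_lt (by
        rw [← smul_eq_C_mul]
        exact (degree_smul_le c _).trans degree_map_le) hP
    refine huniq _ ?_ ?_
    · refine lt_of_le_of_lt (degree_sub_le _ _) (max_lt (hCd _ _ hUd) ?_)
      refine lt_of_le_of_lt (degree_sum_le _ _) ?_
      rw [Finset.sup_lt_iff (lt_of_le_of_lt bot_le hUd)]
      exact fun j _ => hCd _ _ (hAd j)
    · rw [_root_.map_sub, _root_.map_mul, aeval_C, hmap, hU, _root_.map_sum]
      have h1 : ∀ j, aeval θ (C (ι ⟨c j, hcR j⟩) * (A j).map ι) = c j * (u * α j) := by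
        intro j
        rw [_root_.map_mul, aeval_C, hmap, hA]
        rfl
      rw [Finset.sum_congr rfl fun j _ => h1 j]
      change z * u - _ = 0
      rw [hzw, Finset.sum_mul, sub_eq_zero]
      exact Finset.sum_congr rfl fun j _ => by ring
  -- a coordinate of `u` which is a unit
  obtain ⟨i, hi0, hiv⟩ : ∃ i, (U.coeff i : Ω) ≠ 0 ∧ w (U.coeff i : Ω) = 0 := by
    by_contra hno
    push Not at hno
    have h1 : VPos w (aeval θ U) := vpos_aeval R θ hθ U fun i h0 =>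
      lt_of_le_of_ne (hR _ (U.coeff i).2 h0) (Ne.symm (hno i h0))
    rw [hU] at h1
    have := h1 hu0
    rw [hvu] at this
    exact lt_irrefl _ this
  refine ⟨fun j => ((A j).coeff i : Ω) * (U.coeff i : Ω)⁻¹, fun j => R.mul_mem
    (SetLike.coe_mem _) (hRinv _ (SetLike.coe_mem _) hi0 hiv), ?_⟩
  have h1 := congrArg (fun Q : Polynomial K => (Q.coeff i : Ω)) hrel
  simp only [coeff_sub, coeff_C_mul, finsetSum_coeff, coeff_zero, coeff_map] at h1
  push_cast at h1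
  have h2 : z * (U.coeff i : Ω) = ∑ j, c j * ((A j).coeff i : Ω) := by
    rw [← sub_eq_zero]
    exact h1
  have h3 : z = z * (U.coeff i : Ω) * (U.coeff i : Ω)⁻¹ := by
    rw [mul_assoc, mul_inv_cancel₀ hi0, mul_one]
  rw [h3, h2, Finset.sum_mul]
  exact Finset.sum_congr rfl fun j _ => by ring

theorem desc_ip (K : Subfield Ω) (θ : Ω) (h : EtData w K θ) (R : Subring Ω)
    (hR : ∀ f ∈ R, w.Ge 0 f) (hRinv : ∀ f ∈ R, f ≠ 0 → w f = 0 → f⁻¹ ∈ R)
    (hRK : ∀ f ∈ R, f ∈ K) (hc : ∀ i, ((minpoly K θ).coeff i : Ω) ∈ R) (hθ : w.Ge 0 θ) {q : ℕ}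
    (c : Fin q → Ω) (hcR : ∀ i, c i ∈ R) (f : Ω) (hf : f ∈ K)
    (hip : IP (lv w (adj R {θ})) c 1 f) : IP R c 1 f := by
  have hRO : R ≤ lv w (adj R {θ}) := (base_le_adj R _).trans (le_lv w _)
  obtain ⟨a, ha, hfa⟩ := (IP.one_iff fun i => hRO (hcR i)).1 hip
  obtain ⟨β, hβ, hfβ⟩ := desc_rel K θ h.int R hR hRinv hRK hc hθ c a hcR ha f hf hfa
  exact (IP.one_iff hcR).2 ⟨β, hβ, hfβ⟩

theorem desc_mem (K : Subfield Ω) (θ : Ω) (h : EtData w K θ) (R : Subring Ω)
    (hR : ∀ f ∈ R, w.Ge 0 f) (hRinv : ∀ f ∈ R, f ≠ 0 → w f = 0 → f⁻¹ ∈ R)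
    (hRK : ∀ f ∈ R, f ∈ K) (hc : ∀ i, ((minpoly K θ).coeff i : Ω) ∈ R) (hθ : w.Ge 0 θ) (f : Ω)
    (hf : f ∈ K) (hfO : f ∈ lv w (adj R {θ})) : f ∈ R := by
  obtain ⟨β, hβ, hfβ⟩ := desc_rel K θ h.int R hR hRinv hRK hc hθ (fun _ : Fin 1 => 1)
    (fun _ => f) (fun _ => R.one_mem) (fun _ => hfO) f hf (by simp)
  rw [hfβ]
  exact R.sum_mem fun j _ => R.mul_mem (hβ j) R.one_mem

private theorem zpow_mem_of {A : Subring Ω} {u : Ω} (h : u ∈ A) (h' : u⁻¹ ∈ A) (n : ℤ) :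
    u ^ n ∈ A := by
  cases n with
  | ofNat n => simpa using A.pow_mem h n
  | negSucc n =>
    rw [zpow_negSucc, ← inv_pow]
    exact A.pow_mem h' _

private theorem tau_restrict {O R : Subring Ω} (hOge : ∀ f ∈ O, w.Ge 0 f)
    (hOinv : ∀ f ∈ O, f ≠ 0 → w f = 0 → f⁻¹ ∈ O) (hRO : R ≤ O) {x : Ω} (hxR : x ∈ R)
    (hxv : VPos w x) (hdec : ∀ f ∈ O, ∃ ρ ∈ R, ∃ a ∈ O, f = ρ + x * a) {n : ℕ}
    (h : Tau O n) : Tau R n := by
  obtain ⟨O₀, i1, i2, i3, hdim, hτ⟩ := h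
  refine ⟨O₀, i1, i2, i3, hdim, fun M => ?_⟩
  obtain ⟨τ, hτs⟩ := hτ M
  refine ⟨τ.comp (Subring.inclusion hRO), ?_⟩
  rcases Nat.eq_zero_or_pos M with hM | hM
  · subst hM
    intro y
    refine ⟨0, ?_⟩
    have hs : Subsingleton (O₀ ⧸ IsLocalRing.maximalIdeal O₀ ^ 0) := by
      rw [pow_zero, Ideal.one_eq_top]
      exact Ideal.Quotient.subsingleton_iff.2 rfl
    exact Subsingleton.elim _ _
  have hne : IsLocalRing.maximalIdeal O₀ ^ M ≠ ⊤ := by
    intro hT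
    have h1 : IsLocalRing.maximalIdeal O₀ ^ M ≤ IsLocalRing.maximalIdeal O₀ :=
      Ideal.pow_le_self hM.ne'
    rw [hT] at h1
    exact (IsLocalRing.maximalIdeal.isMaximal O₀).ne_top (top_le_iff.1 h1)
  have hnt : Nontrivial (O₀ ⧸ IsLocalRing.maximalIdeal O₀ ^ M) :=
    Ideal.Quotient.nontrivial_iff.2 hne
  -- the image of `x` is nilpotent
  have hxu : ¬ IsUnit (τ ⟨x, hRO hxR⟩) := by
    intro hu
    obtain ⟨y, hy⟩ := hu.exists_right_inv
    obtain ⟨y', rfl⟩ := hτs y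
    have h1 : τ (1 - ⟨x, hRO hxR⟩ * y') = 0 := by
      rw [map_sub, map_mul, map_one, hy, sub_self]
    have h2 := Pool.Agent.LU1.val_add_vpos (v := w) one_ne_zero w.map_one
      (hxv.mul (hOge _ y'.2)).neg
    have h3 : IsUnit (1 - ⟨x, hRO hxR⟩ * y' : O) := by
      refine IsUnit.of_mul_eq_one ⟨(1 + -(x * (y' : Ω)))⁻¹, hOinv _ ?_ h2.1 h2.2⟩ ?_
      · exact O.add_mem O.one_mem (O.neg_mem (O.mul_mem (hRO hxR) y'.2))
      · apply Subtype.ext
        have h4 : ((1 - ⟨x, hRO hxR⟩ * y' : O) : Ω) = 1 + -(x * (y' : Ω)) := by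
          push_cast
          ring
        rw [Subring.coe_mul, h4]
        exact mul_inv_cancel₀ h2.1
    have h5 := h3.map τ
    rw [h1] at h5
    exact not_isUnit_zero h5
  have hxn : τ ⟨x, hRO hxR⟩ ^ M = 0 := by
    obtain ⟨a, ha⟩ := Ideal.Quotient.mk_surjective (τ ⟨x, hRO hxR⟩)
    rw [← ha] at hxu ⊢
    have h1 : a ∈ IsLocalRing.maximalIdeal O₀ := by
      rw [IsLocalRing.mem_maximalIdeal, mem_nonunits_iff]
      exact fun hu => hxu (hu.map _)
    rw [← map_pow]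
    exact Ideal.Quotient.eq_zero_iff_mem.2 (Ideal.pow_mem_pow h1 M)
  have hdecM : ∀ (k : ℕ) (f : Ω), f ∈ O → ∃ ρ ∈ R, ∃ a ∈ O, f = ρ + x ^ k * a := by
    intro k
    induction k with
    | zero => exact fun f hf => ⟨0, R.zero_mem, f, hf, by ring⟩
    | succ k ih =>
      intro f hf
      obtain ⟨ρ, hρ, a, ha, rfl⟩ := hdec f hf
      obtain ⟨ρ', hρ', a', ha', rfl⟩ := ih a ha
      exact ⟨ρ + x * ρ', R.add_mem hρ (R.mul_mem hxR hρ'), a', ha', by ring⟩
  intro y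
  obtain ⟨f, rfl⟩ := hτs y
  obtain ⟨ρ, hρ, a, ha, hf⟩ := hdecM M f f.2
  refine ⟨⟨ρ, hρ⟩, ?_⟩
  have h1 : f = Subring.inclusion hRO ⟨ρ, hρ⟩ + ⟨x, hRO hxR⟩ ^ M * ⟨a, ha⟩ := by
    apply Subtype.ext
    rw [hf]
    rfl
  conv_rhs => rw [h1, map_add, map_mul, map_pow, hxn, zero_mul, add_zero]
  rfl

theorem exists_desc_par (K : Subfield Ω) (θ : Ω) (h : EtData w K θ) (R : Subring Ω)
    (hR : ∀ f ∈ R, w.Ge 0 f) (hRinv : ∀ f ∈ R, f ≠ 0 → w f = 0 → f⁻¹ ∈ R)
    (hRK : ∀ f ∈ R, f ∈ K) (hc : ∀ i, ((minpoly K θ).coeff i : Ω) ∈ R) (hθ : w.Ge 0 θ) {n : ℕ}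
    (z : Fin n → Ω) (J : Finset (Fin n)) (hJ : J.Nonempty) (O : Subring Ω) (hz : Par w O z)
    (hO : O = lv w (adj R {θ}))
    (hdec : ∀ f ∈ O, ∃ ρ ∈ R, ∃ a ∈ O, f = ρ + (∏ j ∈ J, z j) ^ 2 * a) :
    ∃ z'' : Fin n → Ω, Par w R z'' ∧ (∀ f ∈ K, SM w O z J f → SM w R z'' J f) ∧
      (Tau O n → Tau R n) := by
  classical
  have hRO : R ≤ O := by
    rw [hO]
    exact (base_le_adj R _).trans (le_lv w _)
  have hOge : ∀ f ∈ O, w.Ge 0 f := by
    rw [hO]
    refine lv_nonneg (adj_nonneg hR ?_)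
    intro f hf
    rw [Set.mem_singleton_iff.1 hf]
    exact hθ
  have hOinv : ∀ f ∈ O, f ≠ 0 → w f = 0 → f⁻¹ ∈ O := by
    rw [hO]
    exact fun f hf => lv_inv hf
  set X : Ω := ∏ j ∈ J, z j with hX
  have hXR : X ∈ O := O.prod_mem fun j _ => hz.mem j
  have hXY : ∀ i ∈ J, ∃ Y ∈ O, X = z i * Y := fun i hi =>
    ⟨∏ j ∈ J.erase i, z j, O.prod_mem fun j _ => hz.mem j, (Finset.mul_prod_erase J z hi).symm⟩
  have hXv : VPos w X := by
    obtain ⟨j, hj⟩ := hJ
    obtain ⟨Y, hY, hXY'⟩ := hXY j hj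
    rw [hXY']
    exact VPos.mul (fun _ => hz.pos j) (hOge _ hY)
  have hX2 : ∀ a ∈ O, VPos w (X ^ 2 * a) := by
    intro a ha
    rw [pow_two, mul_assoc]
    exact hXv.mul (hOge _ (O.mul_mem hXR ha))
  choose! ρ hρ aρ haρ hρe using hdec
  choose! Y hY hXY using hXY
  set Ui : Fin n → Ω := fun i => if i ∈ J then 1 - X * (Y i * aρ (z i)) else 1 with hUi
  have hUiR : ∀ i, Ui i ∈ O := by
    intro i
    simp only [hUi]
    split_ifs with hi
    · exact O.sub_mem O.one_mem (O.mul_mem hXR (O.mul_mem (hY i hi) (haρ _ (hz.mem i))))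
    · exact O.one_mem
  have hUiv : ∀ i, Ui i ≠ 0 ∧ w (Ui i) = 0 := by
    intro i
    simp only [hUi]
    split_ifs with hi
    · rw [sub_eq_add_neg]
      exact Pool.Agent.LU1.val_add_vpos one_ne_zero w.map_one
        (hXv.mul (hOge _ (O.mul_mem (hY i hi) (haρ _ (hz.mem i))))).neg
    · exact ⟨one_ne_zero, w.map_one⟩
  have hUiR' : ∀ i, (Ui i)⁻¹ ∈ O := fun i => hOinv _ (hUiR i) (hUiv i).1 (hUiv i).2
  have hρx : ∀ i ∈ J, ρ (z i) = z i * Ui i := by
    intro i hi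
    have h3 := hρe _ (hz.mem i)
    have h4 : ρ (z i) = z i - X ^ 2 * aρ (z i) := eq_sub_of_add_eq h3.symm
    simp only [hUi, if_pos hi]
    rw [h4, pow_two]
    nth_rewrite 1 [hXY i hi]
    ring
  -- the new product
  set X2 : Ω := ∏ j ∈ J, ρ (z j) with hX2def
  set V : Ω := ∏ j ∈ J, Ui j with hV
  have hXV : X2 = X * V := by
    rw [hX2def, hX, hV, ← Finset.prod_mul_distrib]
    exact Finset.prod_congr rfl fun i hi => hρx i hi
  have hV0 : V ≠ 0 := Finset.prod_ne_zero_iff.2 fun i _ => (hUiv i).1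
  have hVR : V ∈ O := O.prod_mem fun i _ => hUiR i
  have hVR' : V⁻¹ ∈ O := by
    rw [hV, ← Finset.prod_inv_distrib]
    exact O.prod_mem fun i _ => hUiR' i
  have hX0 : X ≠ 0 := Finset.prod_ne_zero_iff.2 fun i _ => hz.ne i
  have hX20 : X2 ≠ 0 := by
    rw [hXV]
    exact mul_ne_zero hX0 hV0
  have hX2R : X2 ∈ R := R.prod_mem fun j _ => hρ _ (hz.mem j)
  have hX2v : VPos w X2 := by
    rw [hXV]
    exact hXv.mul (hOge _ hVR)
  -- the parameters
  set z2 : Fin n → Ω := fun i => if i ∈ J then ρ (z i) else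
    if ρ (z i) = 0 then X2 ^ 2 else ρ (z i) with hz2
  have hz2J : ∀ i ∈ J, z2 i = z i * Ui i := by
    intro i hi
    simp only [hz2, if_pos hi]
    exact hρx i hi
  have hz2R : ∀ i, z2 i ∈ R := by
    intro i
    simp only [hz2]
    split_ifs
    · exact hρ _ (hz.mem i)
    · exact R.pow_mem hX2R 2
    · exact hρ _ (hz.mem i)
  have hz20 : ∀ i, z2 i ≠ 0 := by
    intro i
    by_cases hi : i ∈ J
    · rw [hz2J i hi]
      exact mul_ne_zero (hz.ne i) (hUiv i).1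
    · simp only [hz2, if_neg hi]
      split_ifs with h0
      · exact pow_ne_zero 2 hX20
      · exact h0
  have hz2v : ∀ i, 0 < w (z2 i) := by
    intro i
    by_cases hi : i ∈ J
    · rw [hz2J i hi, w.map_mul (hz.ne i) (hUiv i).1, (hUiv i).2, add_zero]
      exact hz.pos i
    · have h1 : VPos w (z2 i) := by
        simp only [hz2, if_neg hi]
        split_ifs with h0
        · rw [pow_two]
          exact hX2v.mul hX2v.ge
        · have h4 : ρ (z i) = z i - X ^ 2 * aρ (z i) :=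
            eq_sub_of_add_eq (hρe _ (hz.mem i)).symm
          rw [h4]
          exact VPos.sub (fun _ => hz.pos i) (hX2 _ (haρ _ (hz.mem i)))
      exact h1 (hz20 i)
  -- `X ^ 2 a` is in the ideal of the new parameters
  have hX2ip : ∀ a ∈ O, IP O z2 1 (X ^ 2 * a) := by
    intro a ha
    obtain ⟨j, hj⟩ := hJ
    have h1 : X ^ 2 * a = z2 j * ((Ui j)⁻¹ * Y j * X * a) := by
      rw [hz2J j hj, pow_two]
      nth_rewrite 1 [hXY j hj]
      have := (hUiv j).1
      field_simp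
    rw [h1]
    exact (IP.gen (hRO (hz2R j))).mul_right
      (O.mul_mem (O.mul_mem (O.mul_mem (hUiR' j) (hY j hj)) hXR) ha)
  have hzip : ∀ i, IP O z2 1 (z i) := by
    intro i
    by_cases hi : i ∈ J
    · have h1 : z i = z2 i * (Ui i)⁻¹ := by
        rw [hz2J i hi, mul_assoc, mul_inv_cancel₀ (hUiv i).1, mul_one]
      rw [h1]
      exact (IP.gen (hRO (hz2R i))).mul_right (hUiR' i)
    · by_cases h0 : ρ (z i) = 0
      · have h1 := hρe _ (hz.mem i)
        rw [h0, zero_add] at h1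
        rw [h1]
        exact hX2ip _ (haρ _ (hz.mem i))
      · have h1 : z i = z2 i + X ^ 2 * aρ (z i) := by
          simp only [hz2, if_neg hi, if_neg h0]
          exact hρe _ (hz.mem i)
        rw [h1]
        exact (IP.gen (hRO (hz2R i))).add (hX2ip _ (haρ _ (hz.mem i)))
  refine ⟨z2, ⟨hz2R, hz20, hz2v, ?_⟩, ?_, ?_⟩
  · intro f hf hfv
    refine desc_ip K θ h R hR hRinv hRK hc hθ z2 hz2R f (hRK f hf) ?_
    rw [← hO]
    exact (hz.gen f (hRO hf) hfv).map le_rfl hzip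
  · rintro f hfK ⟨e, u, hu, hu0, hvu, hfe, h1, h2, h3, h4⟩
    set V2 : Ω := ∏ i, Ui i ^ e i with hV2
    have hV20 : V2 ≠ 0 := Finset.prod_ne_zero_iff.2 fun i _ => zpow_ne_zero _ (hUiv i).1
    have hV2R : V2 ∈ O := O.prod_mem fun i _ => zpow_mem_of (hUiR i) (hUiR' i) _
    have hV2R' : V2⁻¹ ∈ O := by
      rw [hV2, ← Finset.prod_inv_distrib]
      refine O.prod_mem fun i _ => ?_
      rw [← zpow_neg]
      exact zpow_mem_of (hUiR i) (hUiR' i) _
    have hV2v : w V2 = 0 := by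
      have h5 := hOge _ hV2R hV20
      have h6 := hOge _ hV2R' (inv_ne_zero hV20)
      rw [w.map_inv hV20] at h6
      linarith
    have hP : (∏ i, z2 i ^ e i) = (∏ i, z i ^ e i) * V2 := by
      rw [hV2, ← Finset.prod_mul_distrib]
      refine Finset.prod_congr rfl fun i _ => ?_
      by_cases hi : i ∈ J
      · rw [hz2J i hi, mul_zpow]
      · rw [h1 i hi, zpow_zero, zpow_zero, zpow_zero, mul_one]
    have hP0 : (∏ i, z2 i ^ e i) ≠ 0 :=
      Finset.prod_ne_zero_iff.2 fun i _ => zpow_ne_zero _ (hz20 i)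
    have hPK : (∏ i, z2 i ^ e i) ∈ K :=
      K.prod_mem fun i _ => zpow_mem (hRK _ (hz2R i)) _
    have hf2 : f = (∏ i, z2 i ^ e i) * (u * V2⁻¹) := by
      rw [hP, hfe]
      field_simp
    have hu2 : u * V2⁻¹ = f / ∏ i, z2 i ^ e i := by
      rw [eq_div_iff hP0, mul_comm, ← hf2]
    have hu2K : u * V2⁻¹ ∈ K := by
      rw [hu2]
      exact K.div_mem hfK hPK
    refine ⟨e, u * V2⁻¹, ?_, mul_ne_zero hu0 (inv_ne_zero hV20), ?_, hf2, h1, h2, h3, h4⟩
    · refine desc_mem K θ h R hR hRinv hRK hc hθ _ hu2K ?_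
      rw [← hO]
      exact O.mul_mem hu hV2R'
    · rw [w.map_mul hu0 (inv_ne_zero hV20), w.map_inv hV20, hvu, hV2v]
      ring
  · refine tau_restrict hOge hOinv hRO hX2R hX2v fun f hf => ?_
    refine ⟨ρ f, hρ f hf, X2 * (V⁻¹ * V⁻¹ * aρ f), O.mul_mem (hRO hX2R)
      (O.mul_mem (O.mul_mem hVR' hVR') (haρ f hf)), ?_⟩
    have h1 := hρe f hf
    have h2 : X2 * (X2 * (V⁻¹ * V⁻¹ * aρ f)) = X ^ 2 * aρ f := by
      rw [hXV]
      field_simp
    rw [h2]
    exact h1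

end Pool.Agent.LUC
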