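import Pool.Agent.Lib.LUC.EtDefs
import Pool.Agent.Lib.LUC.G2
import Pool.Agent.Lib.LUC.G3
import Pool.Agent.Lib.LUC.G4

/-! # G5: etale descent (assembly)

Recipe (6.2 of l15_cp_h16.md; compare `LUM/E04`, store: lum_E04.lean). Given `A`, `T` for `K`. `F = A ∪ {coefficients of minpoly K θ} ∪ {1}`, in `K`, of
value `≥ 0`. For `f ∈ F` choose `f = a_f / b_f`, `a_f, b_f ∈ adj S A`, `b_f ≠ 0` (`QuoIs`). `μ` from `exists_par` for `F`. Apply `LUT` of
`Subfield.closure (K ∪ {θ})` to `A₁ = F ∪ {θ}` and `T₁ = (T ∪ {μ i} ∪ {a_f, b_f} ∪ {a₀}) \ {0}`, where `a₀ ∈ K` has positive value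
(`hpos`): `n, z, J, O`, `g`, `G`; `J` is not empty (`SM.nonempty` for `a₀`). `QuoIs (adj S (F ∪ {θ})) (K(θ))`: `Subfield.mem_closure_iff`.
`exists_desc_ring`, `exists_desc_par` with `R = lv w (adj S FR)`. All elements of `T₁` in `K`, and `b = g U`, are `SM w R z'' J` (`SM.mul_unit` in `O`, `b ∈ K`).
Chart (`chart_of` for `O := R`, `R := S`, `A`, `FR`): `F ⊆ QM (adj S A)` since the `b_f` are strong monomials; so `adj S F ≤ QM`,
`lv w (adj S F) ≤ QM` (`qm_lv`); `b, y ∈ lv w (adj S F)` (`y ∈ W`), `b⁻¹ ∈ QM` (`qm_inv`), so `FR ⊆ QM`. -/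

set_option autoImplicit false

namespace Pool.Agent.LUC

open Pool.Agent.H15JM (RVal)
open Pool.Agent.LU1 (VPos)
open Polynomial

universe u

variable {Ω : Type u} [Field Ω] {w : RVal Ω}

private theorem adj_field {S : Subring Ω} {K : Subfield Ω} {F : Set Ω} (hS : ∀ s ∈ S, s ∈ K)
    (hF : ∀ f ∈ F, f ∈ K) : ∀ f ∈ adj S F, f ∈ K := fun _ hf =>
  adj_induction (p := fun f => f ∈ K) hS hF (fun _ _ => K.add_mem) (fun _ _ => K.mul_mem) hf

private theorem lv_field {B : Subring Ω} {K : Subfield Ω} (hB : ∀ f ∈ B, f ∈ K) :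
    ∀ f ∈ lv w B, f ∈ K := by
  rintro f ⟨a, ha, b, hb, -, -, rfl⟩
  exact K.div_mem (hB a ha) (hB b hb)

/-- the field of fractions of a subring -/
private def frac (B : Subring Ω) : Subfield Ω where
  carrier := {f | ∃ a ∈ B, ∃ b ∈ B, b ≠ 0 ∧ f = a / b}
  mul_mem' := by
    rintro f g ⟨a, ha, b, hb, hb0, rfl⟩ ⟨c, hc, d, hd, hd0, rfl⟩
    exact ⟨a * c, B.mul_mem ha hc, b * d, B.mul_mem hb hd, mul_ne_zero hb0 hd0,
      by rw [div_mul_div_comm]⟩
  one_mem' := ⟨1, B.one_mem, 1, B.one_mem, one_ne_zero, by rw [div_one]⟩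
  add_mem' := by
    rintro f g ⟨a, ha, b, hb, hb0, rfl⟩ ⟨c, hc, d, hd, hd0, rfl⟩
    exact ⟨a * d + b * c, B.add_mem (B.mul_mem ha hd) (B.mul_mem hb hc), b * d,
      B.mul_mem hb hd, mul_ne_zero hb0 hd0, by rw [div_add_div _ _ hb0 hd0]⟩
  zero_mem' := ⟨0, B.zero_mem, 1, B.one_mem, one_ne_zero, by rw [zero_div]⟩
  neg_mem' := by
    rintro f ⟨a, ha, b, hb, hb0, rfl⟩
    exact ⟨-a, B.neg_mem ha, b, hb, hb0, by rw [neg_div]⟩
  inv_mem' := by
    rintro f ⟨a, ha, b, hb, hb0, rfl⟩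
    by_cases ha0 : a = 0
    · subst ha0
      exact ⟨0, B.zero_mem, 1, B.one_mem, one_ne_zero, by simp⟩
    · exact ⟨b, hb, a, ha, ha0, by rw [inv_div]⟩

theorem LUT.desc (S : Subring Ω) [IsNoetherianRing S] (hS : ∀ s ∈ S, w.Ge 0 s) (K : Subfield Ω)
    (θ : Ω) (h : EtData w K θ) (hpos : ∃ a ∈ K, a ≠ 0 ∧ 0 < w a)
    (hL : LUT w S (Subfield.closure ((K : Set Ω) ∪ {θ}))) : LUT w S K := by
  classical
  intro A hA hAQ T hT
  have hθ : w.Ge 0 θ := h.theta_ge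
  have hSK : ∀ s ∈ S, s ∈ K := fun s hs => hAQ.1 s (base_le_adj S _ hs)
  have hAK : ∀ a ∈ A, a ∈ K := fun a ha => hAQ.1 a (mem_adj ha)
  -- the finite set `F`
  set F : Finset Ω := A ∪ (Finset.range ((minpoly K θ).natDegree + 1)).image
    fun i => ((minpoly K θ).coeff i : Ω) with hFdef
  have hF : ∀ f ∈ F, f ∈ K ∧ w.Ge 0 f := by
    intro f hf
    rcases Finset.mem_union.1 hf with hf | hf
    · exact ⟨hAK f hf, hA f hf⟩
    · obtain ⟨i, -, rfl⟩ := Finset.mem_image.1 hf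
      exact ⟨((minpoly K θ).coeff i).2, h.coeff i⟩
  have hFge : ∀ f ∈ F, w.Ge 0 f := fun f hf => (hF f hf).2
  have hcF : ∀ i, ((minpoly K θ).coeff i : Ω) ∈ adj S (F : Set Ω) := by
    intro i
    by_cases hi : i < (minpoly K θ).natDegree + 1
    · exact mem_adj (Finset.mem_coe.2 (Finset.mem_union_right _
        (Finset.mem_image_of_mem _ (Finset.mem_range.2 hi))))
    · rw [coeff_eq_zero_of_natDegree_lt (by omega)]
      exact zero_mem _
  have hAF : ∀ a ∈ A, a ∈ F := fun a ha => Finset.mem_union_left _ ha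
  have hAFle : adj S (A : Set Ω) ≤ adj S (F : Set Ω) := adj_mono le_rfl fun a ha => hAF a ha
  have hDK : ∀ f ∈ adj S (F : Set Ω), f ∈ K := adj_field hSK fun f hf => (hF f hf).1
  -- numerators and denominators
  have hfr : ∀ f, f ∈ K → ∃ a b : Ω, a ∈ adj S (A : Set Ω) ∧ b ∈ adj S (A : Set Ω) ∧ b ≠ 0 ∧
      f = a / b := by
    intro f hf
    obtain ⟨a, ha, b, hb, hb0, h3⟩ := hAQ.2 f hf
    exact ⟨a, b, ha, hb, hb0, h3⟩
  choose! nu de hnu hde hde0 hfr' using hfr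
  -- the larger field
  set L : Subfield Ω := Subfield.closure ((K : Set Ω) ∪ {θ}) with hL'
  have hKL : ∀ f ∈ K, f ∈ L := fun f hf => Subfield.subset_closure (Or.inl hf)
  have hθL : θ ∈ L := Subfield.subset_closure (Or.inr rfl)
  set A₁ : Finset Ω := F ∪ {θ} with hA₁def
  have hA₁set : (A₁ : Set Ω) = (F : Set Ω) ∪ {θ} := by
    rw [hA₁def]
    push_cast
    rfl
  have hA₁ : ∀ a ∈ A₁, a ∈ L ∧ w.Ge 0 a := by
    intro a ha
    rcases Finset.mem_union.1 ha with ha | ha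
    · exact ⟨hKL _ (hF a ha).1, (hF a ha).2⟩
    · rw [Finset.mem_singleton.1 ha]
      exact ⟨hθL, hθ⟩
  have hQ₁ : QuoIs (adj S (A₁ : Set Ω)) L := by
    refine ⟨adj_field (fun s hs => hKL s (hSK s hs)) fun a ha => (hA₁ a ha).1, fun g hg => ?_⟩
    have h3 : L ≤ frac (adj S (A₁ : Set Ω)) := by
      rw [hL', Subfield.closure_le]
      rintro z (hz | hz)
      · obtain ⟨a, ha, b, hb, hb0, h4⟩ := hAQ.2 z hz
        refine ⟨a, ?_, b, ?_, hb0, h4⟩
        · rw [hA₁set]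
          exact adj_mono le_rfl Set.subset_union_left (hAFle ha)
        · rw [hA₁set]
          exact adj_mono le_rfl Set.subset_union_left (hAFle hb)
      · refine ⟨z, ?_, 1, Subring.one_mem _, one_ne_zero, by rw [div_one]⟩
        rw [hA₁set]
        exact mem_adj (Or.inr hz)
    exact h3 hg
  obtain ⟨q, μ, hμ⟩ := exists_par (w := w) S hS F hFge
  have hμK : ∀ i, μ i ∈ K := fun i => lv_field hDK _ (hμ.mem i)
  obtain ⟨a₀, ha₀K, ha₀0, ha₀v⟩ := hpos
  set T₁ : Finset Ω := ((((T ∪ Finset.univ.image μ) ∪ F.image nu) ∪ F.image de) ∪ {a₀}).filter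
    fun x => x ≠ 0 with hT₁
  have hnuK : ∀ f ∈ F, nu f ∈ K := fun f hf => hDK _ (hAFle (hnu f (hF f hf).1))
  have hdeK : ∀ f ∈ F, de f ∈ K := fun f hf => hDK _ (hAFle (hde f (hF f hf).1))
  have hT₁K : ∀ x ∈ T₁, x ∈ K ∧ x ≠ 0 := by
    intro x hx
    obtain ⟨h3, h4⟩ := Finset.mem_filter.1 hx
    refine ⟨?_, h4⟩
    rcases Finset.mem_union.1 h3 with h3 | h3
    · rcases Finset.mem_union.1 h3 with h3 | h3
      · rcases Finset.mem_union.1 h3 with h3 | h3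
        · rcases Finset.mem_union.1 h3 with h3 | h3
          · exact (hT x h3).1
          · obtain ⟨i, -, rfl⟩ := Finset.mem_image.1 h3
            exact hμK i
        · obtain ⟨f, hf, rfl⟩ := Finset.mem_image.1 h3
          exact hnuK f hf
      · obtain ⟨f, hf, rfl⟩ := Finset.mem_image.1 h3
        exact hdeK f hf
    · rw [Finset.mem_singleton.1 h3]
      exact ha₀K
  obtain ⟨n, z, J, O, hM, hτ⟩ := hL A₁ (fun a ha => (hA₁ a ha).2) hQ₁ T₁ fun x hx =>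
    ⟨hKL _ (hT₁K x hx).1, (hT₁K x hx).2⟩
  obtain ⟨g, hg, hg0, hgm, G, hG, hO⟩ := hM.chart
  rw [hA₁set] at hg hO hG
  have hz := hM.par
  have ha₀T : a₀ ∈ T₁ := Finset.mem_filter.2
    ⟨Finset.mem_union_right _ (Finset.mem_singleton_self a₀), ha₀0⟩
  have hJ : J.Nonempty := (hM.mono a₀ ha₀T).nonempty hz.ne ha₀v
  have hμm : ∀ i, SM w O z J (μ i) := fun i => hM.mono _ (Finset.mem_coe.2 (Finset.mem_filter.2
    ⟨Finset.mem_union_left _ (Finset.mem_union_left _ (Finset.mem_union_left _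
      (Finset.mem_union_right _ (Finset.mem_image_of_mem _ (Finset.mem_univ i))))), hμ.ne i⟩))
  obtain ⟨b, W, FR, hb, hb0, ⟨U, hUR, hU0, hUv, hbU⟩, hW, hFR, hRO, hRK, hOR, hdec⟩ :=
    exists_desc_ring S hS K hSK θ h F hF hcF μ hμ z J hJ O hz g hg hg0 hgm G hG hO hμm
  have hDR : adj S (F : Set Ω) ≤ lv w (adj S (FR : Set Ω)) := by
    refine (adj_mono le_rfl ?_).trans (le_lv w _)
    rw [hFR]
    exact Set.subset_union_left
  have hOge : ∀ f ∈ O, w.Ge 0 f := by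
    rw [hO]
    refine lv_nonneg (adj_nonneg hS ?_)
    rintro f ((hf | hf) | ⟨y, hy, rfl⟩)
    · exact hFge f hf
    · rw [Set.mem_singleton_iff.1 hf]
      exact hθ
    · intro h0
      change y / g ≠ 0 at h0
      change 0 ≤ w (y / g)
      have hy0 : y ≠ 0 := by
        rintro rfl
        simp at h0
      rw [w.map_div hy0 hg0]
      have := (hG y hy).2 hy0
      linarith
  have hRge : ∀ f ∈ lv w (adj S (FR : Set Ω)), w.Ge 0 f := fun f hf => hOge f (hRO hf)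
  have hRinv : ∀ f ∈ lv w (adj S (FR : Set Ω)), f ≠ 0 → w f = 0 →
      f⁻¹ ∈ lv w (adj S (FR : Set Ω)) := fun f hf => lv_inv hf
  obtain ⟨z2, hz2, hSM, hTau⟩ := exists_desc_par K θ h _ hRge hRinv hRK (fun i => hDR (hcF i))
    hθ z J hJ O hz hOR hdec
  have hmono : ∀ x ∈ T₁, SM w (lv w (adj S (FR : Set Ω))) z2 J x := fun x hx =>
    hSM x (hT₁K x hx).1 (hM.mono x hx)
  -- the chart
  have hAge : ∀ a ∈ adj S (A : Set Ω), w.Ge 0 a := adj_nonneg hS fun a ha => hA a ha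
  have hAR : ∀ a ∈ A, a ∈ lv w (adj S (FR : Set Ω)) := fun a ha => hDR (mem_adj (hAF a ha))
  have hFQ : adj S (F : Set Ω) ≤
      QM w (lv w (adj S (FR : Set Ω))) z2 J hz2.ne (adj S (A : Set Ω)) hAge := by
    refine adj_le ((base_le_adj S (A : Set Ω)).trans le_QM) ?_
    intro f hf
    have hfK := (hF f hf).1
    exact ⟨nu f, hnu f hfK, de f, hde f hfK, hmono _ (Finset.mem_filter.2
      ⟨Finset.mem_union_left _ (Finset.mem_union_right _ (Finset.mem_image_of_mem _ hf)),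
        hde0 f hfK⟩), hfr' f hfK⟩
  have hS0Q : lv w (adj S (F : Set Ω)) ≤
      QM w (lv w (adj S (FR : Set Ω))) z2 J hz2.ne (adj S (A : Set Ω)) hAge :=
    qm_lv hRinv hFQ hDR
  have hbK : b ∈ K := lv_field hDK b hb
  have hbO : b ∈ O := by
    rw [hbU]
    refine O.mul_mem ?_ hUR
    rw [hO]
    exact le_lv w _ (adj_mono le_rfl Set.subset_union_left hg)
  have hbM : SM w (lv w (adj S (FR : Set Ω))) z2 J b := by
    refine hSM b hbK ?_
    rw [hbU]
    exact hgm.mul_unit hz.ne hUR hU0 hUv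
  have hbinv : b⁻¹ ∈ QM w (lv w (adj S (FR : Set Ω))) z2 J hz2.ne (adj S (A : Set Ω)) hAge :=
    qm_inv hRinv (hS0Q hb) (hOge b hbO hb0) hbM
  have hq : ∀ f ∈ FR, f ∈ QM w (lv w (adj S (FR : Set Ω))) z2 J hz2.ne (adj S (A : Set Ω))
      hAge := by
    intro f hf
    have hf' : f ∈ (F : Set Ω) ∪ (fun y => y / b) '' (W : Set Ω) := by
      rw [← hFR]
      exact hf
    rcases hf' with hf' | ⟨y, hy, rfl⟩
    · exact hFQ (mem_adj hf')
    · change y / b ∈ _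
      rw [div_eq_mul_inv]
      exact Subring.mul_mem _ (hS0Q (hW y hy)) hbinv
  refine ⟨n, z2, J, lv w (adj S (FR : Set Ω)), ⟨hz2, ?_, fun t ht => hmono t ?_⟩, hTau hτ⟩
  · exact chart_of hRinv hRge A hAge hAR FR rfl hq
  · exact Finset.mem_filter.2
      ⟨Finset.mem_union_left _ (Finset.mem_union_left _ (Finset.mem_union_left _
        (Finset.mem_union_left _ ht))), (hT t ht).2⟩

end Pool.Agent.LUC
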