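import Pool.Agent.Lib.LUC.Loc
import Pool.Agent.Lib.LUC.C2

/-! # H0: the dimension from the truncations

Recipe. `O = lv w (adj S F)`, `F` finite (the set `A ∪ G / g`), is noetherian and local (`adj_isNoetherian`, `lv_isNoetherian`,
`lv_isLocalRing`; `adj_nonneg`: the elements `y / g` have value `≥ 0`). `dim_le_of_tau` (a stub here): `n ≤ dim O`. Its maximal ideal is
generated by `n` elements (`Par.max_eq`), so `dim O ≤ n` (`ringKrullDim_le_spanFinrank_maximalIdeal`,
`Submodule.spanFinrank_span_le_ncard_of_finite`; see `isRegular_locV` in `LU2G/StatementE.lean`). -/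

set_option autoImplicit false

namespace Pool.Agent.LUC

open Pool.Agent.H15JM (RVal)
open Pool.Agent.LU1 (VPos)

universe u

variable {Ω : Type u} [Field Ω] {w : RVal Ω}

theorem LUT.lus (S : Subring Ω) [IsNoetherianRing S] (hS : ∀ s ∈ S, w.Ge 0 s) (L : Subfield Ω)
    (h : LUT w S L) : LUs w S L := by
  classical
  intro A hA hq T hT
  obtain ⟨n, z, J, O, hmod, hτ⟩ := h A hA hq T hT
  refine ⟨n, z, J, O, hmod, ?_⟩
  obtain ⟨g, hg, hg0, -, G, hG, hO⟩ := hmod.chart
  have hset : ((A : Set Ω) ∪ (fun x => x / g) '' (G : Set Ω)) =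
      ((A ∪ G.image fun x => x / g : Finset Ω) : Set Ω) := by
    rw [Finset.coe_union, Finset.coe_image]
  obtain ⟨B, hB⟩ : ∃ B : Subring Ω, B = adj S ((A : Set Ω) ∪ (fun x => x / g) '' (G : Set Ω)) :=
    ⟨_, rfl⟩
  have hBn : IsNoetherianRing B := by
    rw [hB, hset]
    exact adj_isNoetherian S _
  have hB0 : ∀ f ∈ B, w.Ge 0 f := by
    rw [hB]
    refine adj_nonneg hS ?_
    rintro f (hf | ⟨x, hx, rfl⟩)
    · exact hA f hf
    · intro hxg
      have hx0 : x ≠ 0 := by
        rintro rfl
        simp at hxg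
      rw [w.map_div hx0 hg0]
      have := (hG x hx).2 hx0
      linarith
  rw [← hB] at hO
  subst hO
  have hnoe : IsNoetherianRing (lv w B) := lv_isNoetherian B
  have hloc : IsLocalRing (lv w B) := lv_isLocalRing hB0
  apply le_antisymm
  · refine (ringKrullDim_le_spanFinrank_maximalIdeal (lv w B)).trans ?_
    rw [hmod.par.max_eq hB0, idl]
    have hsub : {b : lv w B | ∃ i, (b : Ω) = z i} =
        Set.range fun i => (⟨z i, hmod.par.mem i⟩ : lv w B) := by
      ext b
      constructor
      · rintro ⟨i, hi⟩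
        exact ⟨i, Subtype.ext hi.symm⟩
      · rintro ⟨i, rfl⟩
        exact ⟨i, rfl⟩
    rw [hsub]
    have hcard : (Set.range fun i => (⟨z i, hmod.par.mem i⟩ : lv w B)).ncard ≤ n := by
      rw [← Set.image_univ]
      refine (Set.ncard_image_le Set.finite_univ).trans ?_
      rw [Set.ncard_univ, Nat.card_eq_fintype_card, Fintype.card_fin]
    exact_mod_cast (Submodule.spanFinrank_span_le_ncard_of_finite (Set.finite_range _)).trans hcard
  · obtain ⟨O₀, i1, i2, i3, hd, hM⟩ := hτ
    rw [← hd]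
    exact dim_le_of_tau hM

end Pool.Agent.LUC
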