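import Pool.Agent.Lib.LUC.Loc
import Pool.Agent.Lib.LUC.LRDefs

/-! # H1: from subfields of `Ω` to valuation rings of a field `K`

Recipe. The converse of `F2` (same dictionary, see there). Given `A : Subalgebra k K` finitely generated
(`A = Algebra.adjoin k A₀`) and `T`: apply `LUs` to the images of `A₀` and `T` under `ι = algebraMap K Ω`. All elements
of `O` are in `ι K`: `z`, `g`, `G` have preimages; `A' = Algebra.adjoin k (A ∪ G / g)`, `locV V A' = ι⁻¹ O`. Compare `lurAt_of`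
in `LU2_h15z/Exit.lean` (a field as base) and `C05` of LUM (store: lum_C05.lean). -/

set_option autoImplicit false

namespace Pool.Agent.LUC

open Pool.Agent.H15JM (RVal)
open Pool.Agent.LU1 (VPos)

universe u

namespace H1aux

section

variable {K Ω : Type u} [Field K] [Field Ω]

/-- The valuation ring `V` is the valuation ring of the real valuation `v`. -/
private def RelV (V : ValuationSubring K) (ι : K →+* Ω) (v : RVal Ω) : Prop :=
  ∀ x : K, x ∈ V ↔ v.Ge 0 (ι x)

variable {V : ValuationSubring K} {ι : K →+* Ω} {v : RVal Ω}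

private theorem RelV.le_one_iff (h : RelV V ι v) {x : K} (hx : x ≠ 0) :
    V.valuation x ≤ 1 ↔ 0 ≤ v (ι x) := by
  rw [V.valuation_le_one_iff, h x]
  exact ⟨fun h1 => h1 ((map_ne_zero ι).2 hx), fun h1 _ => h1⟩

private theorem RelV.one_le_iff (h : RelV V ι v) {x : K} (hx : x ≠ 0) :
    1 ≤ V.valuation x ↔ v (ι x) ≤ 0 := by
  have hv : V.valuation x ≠ 0 := (map_ne_zero V.valuation).2 hx
  have h1 := h.le_one_iff (inv_ne_zero hx)
  rw [map_inv₀, inv_le_one₀ (zero_lt_iff.2 hv), map_inv₀, v.map_inv ((map_ne_zero ι).2 hx)] at h1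
  rw [h1]
  constructor <;> intro h2 <;> linarith

private theorem RelV.eq_one_iff (h : RelV V ι v) {x : K} (hx : x ≠ 0) :
    V.valuation x = 1 ↔ v (ι x) = 0 := by
  rw [le_antisymm_iff, le_antisymm_iff, h.le_one_iff hx, h.one_le_iff hx]
  exact and_comm

private theorem RelV.lt_one_iff (h : RelV V ι v) {x : K} (hx : x ≠ 0) :
    V.valuation x < 1 ↔ 0 < v (ι x) := by
  rw [← not_le, ← not_le, h.one_le_iff hx]

private theorem RelV.one_lt_iff (h : RelV V ι v) {x : K} (hx : x ≠ 0) :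
    1 < V.valuation x ↔ v (ι x) < 0 := by
  rw [← not_le, ← not_le, h.le_one_iff hx]

private theorem RelV.le_iff (h : RelV V ι v) {x g : K} (hx : x ≠ 0) (hg : g ≠ 0) :
    V.valuation x ≤ V.valuation g ↔ v (ι g) ≤ v (ι x) := by
  have hv : V.valuation g ≠ 0 := (map_ne_zero V.valuation).2 hg
  have h1 := h.le_one_iff (div_ne_zero hx hg)
  rw [map_div₀, div_le_one₀ (zero_lt_iff.2 hv), map_div₀,
    v.map_div ((map_ne_zero ι).2 hx) ((map_ne_zero ι).2 hg)] at h1
  rw [h1]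
  constructor <;> intro h2 <;> linarith

/-- Adjoining to an algebra generated by a set. -/
private theorem adjoin_union_adjoin {k K : Type u} [CommRing k] [CommRing K] [Algebra k K]
    (S T : Set K) :
    Algebra.adjoin k ((Algebra.adjoin k S : Set K) ∪ T) = Algebra.adjoin k (S ∪ T) := by
  refine le_antisymm ?_ (Algebra.adjoin_mono (Set.union_subset_union_left _
    Algebra.subset_adjoin))
  rw [Algebra.adjoin_le_iff]
  refine Set.union_subset ?_ (Set.subset_union_right.trans Algebra.subset_adjoin)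
  exact Algebra.adjoin_mono (R := k) (Set.subset_union_left (s := S) (t := T))

private theorem mem_adj_iff {k : Type u} [CommRing k] [Algebra k K] [Algebra k Ω]
    (hι : ∀ c : k, ι (algebraMap k K c) = algebraMap k Ω c) (X : Set K) (f : Ω) :
    f ∈ adj (algebraMap k Ω).range (ι '' X) ↔ ∃ s ∈ Algebra.adjoin k X, ι s = f := by
  have h1 : adj (algebraMap k Ω).range (ι '' X) =
      (Subring.closure (Set.range (algebraMap k K) ∪ X)).map ι := by
    rw [RingHom.map_closure, adj]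
    congr 1
    rw [Set.image_union]
    congr 1
    ext f
    constructor
    · rintro ⟨c, rfl⟩
      exact ⟨_, ⟨c, rfl⟩, hι c⟩
    · rintro ⟨_, ⟨c, rfl⟩, rfl⟩
      exact ⟨c, (hι c).symm⟩
  rw [h1, Subring.mem_map]
  have h2 : (Algebra.adjoin k X).toSubring = Subring.closure (Set.range (algebraMap k K) ∪ X) :=
    Algebra.adjoin_eq_ring_closure X
  rw [← h2]
  rfl

end

end H1aux

open H1aux Pool.Agent.LUM in
theorem LUs.lurV {k K Ω : Type u} [CommRing k] [Field K] [Field Ω] [Algebra k K] [Algebra K Ω]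
    [Algebra k Ω] [IsScalarTower k K Ω] {w : RVal Ω} {V : ValuationSubring K}
    (hV : ∀ f : K, f ∈ V ↔ w.Ge 0 (algebraMap K Ω f)) (hk : ∀ c : k, algebraMap k K c ∈ V)
    (h : LUs w (algebraMap k Ω).range (algebraMap K Ω).fieldRange) : LUrV k V := by
  classical
  obtain ⟨ι, hιdef⟩ : ∃ ι : K →+* Ω, ι = algebraMap K Ω := ⟨_, rfl⟩
  rw [← hιdef] at h
  have hιk : ∀ c : k, ι (algebraMap k K c) = algebraMap k Ω c := by
    intro c
    rw [hιdef, ← IsScalarTower.algebraMap_apply]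
  have hι : Function.Injective ι := ι.injective
  have hrel : RelV V ι w := fun x => by
    rw [hV x, hιdef]
  have hne' : ∀ s : K, ι s ≠ 0 → s ≠ 0 := by
    rintro s h rfl
    exact h (map_zero ι)
  intro A hA hAV hfrac T hT
  obtain ⟨A₀, hA₀⟩ := hA
  have hmap : ∀ f, f ∈ adj (algebraMap k Ω).range ((A₀.image ι : Finset Ω) : Set Ω) ↔
      ∃ s ∈ A, ι s = f := by
    intro f
    rw [Finset.coe_image, mem_adj_iff hιk, hA₀]
  obtain ⟨n, z', J, O, hmod, hdim⟩ := h (A₀.image ι) (by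
      intro a ha
      obtain ⟨a', ha', rfl⟩ := Finset.mem_image.1 ha
      have h1 : a' ∈ A := by
        rw [← hA₀]
        exact Algebra.subset_adjoin ha'
      exact (hrel a').1 (hAV a' h1)) (by
      refine ⟨?_, ?_⟩
      · intro f hf
        obtain ⟨s, -, rfl⟩ := (hmap f).1 hf
        exact RingHom.mem_fieldRange.2 ⟨s, rfl⟩
      · intro f hf
        obtain ⟨x, rfl⟩ := RingHom.mem_fieldRange.1 hf
        obtain ⟨a, ha, b, hb, hb0, rfl⟩ := hfrac x
        exact ⟨ι a, (hmap _).2 ⟨a, ha, rfl⟩, ι b, (hmap _).2 ⟨b, hb, rfl⟩,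
          (map_ne_zero ι).2 hb0, map_div₀ ι a b⟩)
    (T.image ι) (by
      intro t ht
      obtain ⟨t', ht', rfl⟩ := Finset.mem_image.1 ht
      exact ⟨RingHom.mem_fieldRange.2 ⟨t', rfl⟩, (map_ne_zero ι).2 (hT t' ht')⟩)
  obtain ⟨hpar', ⟨g', hg'A, hg'0, hg'M, G', hG', hO⟩, hTM⟩ := hmod
  obtain ⟨g, hgA, rfl⟩ := (hmap g').1 hg'A
  have hg0 : g ≠ 0 := hne' g hg'0
  obtain ⟨G, hGdef⟩ : ∃ G : Finset K, G = G'.preimage ι hι.injOn := ⟨_, rfl⟩
  have hGmem : ∀ x, x ∈ G ↔ ι x ∈ G' := fun x => by rw [hGdef, Finset.mem_preimage]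
  have hGA : ∀ x ∈ G, x ∈ A := by
    intro x hx
    obtain ⟨x', hx', hxe⟩ := (hmap _).1 (hG' _ ((hGmem x).1 hx)).1
    have hxx : x' = x := hι hxe
    rwa [hxx] at hx'
  obtain ⟨A', hA'⟩ : ∃ A' : Subalgebra k K, A' =
      Algebra.adjoin k ((A : Set K) ∪ (fun x => x / g) '' (G : Set K)) := ⟨_, rfl⟩
  have hch : IsChart V A A' g := by
    refine ⟨hgA, hg0, G, fun x hx => ⟨hGA x hx, ?_⟩, hA'⟩
    by_cases hx0 : x = 0
    · rw [hx0, map_zero]
      exact zero_le'
    · rw [hrel.le_iff hx0 hg0]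
      exact (hG' _ ((hGmem x).1 hx)).2 ((map_ne_zero ι).2 hx0)
  have hadj : ∀ f, f ∈ adj (algebraMap k Ω).range (((A₀.image ι : Finset Ω) : Set Ω) ∪
      (fun x => x / ι g) '' (G' : Set Ω)) ↔ ∃ s ∈ A', ι s = f := by
    intro f
    have h1 : ((A₀.image ι : Finset Ω) : Set Ω) ∪ (fun x => x / ι g) '' (G' : Set Ω) =
        ι '' ((A₀ : Set K) ∪ (fun x => x / g) '' (G : Set K)) := by
      rw [Set.image_union, Finset.coe_image]
      congr 1
      ext x
      constructor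
      · rintro ⟨y, hy, rfl⟩
        obtain ⟨y', hy', rfl⟩ := (hmap y).1 (hG' y hy).1
        exact ⟨y' / g, ⟨y', (hGmem y').2 hy, rfl⟩, map_div₀ ι y' g⟩
      · rintro ⟨_, ⟨y, hy, rfl⟩, rfl⟩
        exact ⟨ι y, (hGmem y).1 hy, (map_div₀ ι y g).symm⟩
    rw [h1, mem_adj_iff hιk, hA', ← hA₀, adjoin_union_adjoin]
  have hmemL : ∀ s : K, s ∈ locV V A' ↔ ι s ∈ O := by
    intro s
    rw [hO]
    constructor
    · rintro ⟨a, ha, b, hb, hvb, rfl⟩
      have hb0 : b ≠ 0 := by
        rintro rfl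
        simp at hvb
      exact ⟨ι a, (hadj _).2 ⟨a, ha, rfl⟩, ι b, (hadj _).2 ⟨b, hb, rfl⟩, (map_ne_zero ι).2 hb0,
        (hrel.eq_one_iff hb0).1 hvb, map_div₀ ι a b⟩
    · rintro ⟨a', ha', b', hb', hb0, hvb, hs⟩
      obtain ⟨a, ha, rfl⟩ := (hadj a').1 ha'
      obtain ⟨b, hb, rfl⟩ := (hadj b').1 hb'
      have hb0' : b ≠ 0 := hne' b hb0
      refine ⟨a, ha, b, hb, (hrel.eq_one_iff hb0').2 hvb, hι ?_⟩
      rw [hs]
      exact (map_div₀ ι a b).symm
  have hex : ∀ f ∈ O, ∃ s, s ∈ locV V A' ∧ ι s = f := by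
    intro f hf
    have hf' := hf
    rw [hO] at hf'
    obtain ⟨a', ha', b', hb', hb0, hvb, hs⟩ := hf'
    obtain ⟨a, ha, rfl⟩ := (hadj a').1 ha'
    obtain ⟨b, hb, rfl⟩ := (hadj b').1 hb'
    have h1 : ι (a / b) = f := by rw [hs, map_div₀]
    exact ⟨a / b, (hmemL _).2 (by rw [h1]; exact hf), h1⟩
  choose z hzm hz using fun i => hex _ (hpar'.mem i)
  have hz0 : ∀ i, z i ≠ 0 := fun i => hne' _ (by rw [hz]; exact hpar'.ne i)
  -- the ring isomorphism
  let φ : locV V A' →+* O :=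
    { toFun := fun s => ⟨ι s, (hmemL s).1 s.2⟩
      map_one' := Subtype.ext (map_one ι)
      map_mul' := fun a b => Subtype.ext (map_mul ι _ _)
      map_zero' := Subtype.ext (map_zero ι)
      map_add' := fun a b => Subtype.ext (map_add ι _ _) }
  have hφ : Function.Bijective φ := by
    constructor
    · intro a b hab
      have h1 : ι a = ι b := congrArg Subtype.val hab
      exact Subtype.ext (hι h1)
    · rintro ⟨f, hf⟩
      obtain ⟨s, hs, rfl⟩ := hex f hf
      exact ⟨⟨s, hs⟩, rfl⟩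
  have hdim' : ringKrullDim (locV V A') = n := by
    rw [ringKrullDim_eq_of_ringEquiv (RingEquiv.ofBijective φ hφ), hdim]
  have hpar : IsPar V (locV V A') z := by
    refine ⟨hzm, hz0, fun i => ?_, fun f hf hfv => ?_, hdim'⟩
    · rw [hrel.lt_one_iff (hz0 i), hz]
      exact hpar'.pos i
    · have h1 : VPos w (ι f) := fun h0 => (hrel.lt_one_iff (hne' f h0)).1 hfv
      obtain ⟨a, ha, hfa⟩ := (IP.one_iff hpar'.mem).1 (hpar'.gen _ ((hmemL f).1 hf) h1)
      choose b hbm hb using fun i => hex _ (ha i)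
      refine ⟨b, hbm, hι ?_⟩
      rw [hfa, map_sum]
      exact Finset.sum_congr rfl fun i _ => by rw [map_mul, hb, hz]
  have hSM : ∀ t, SM w O z' J (ι t) → SMonoV V (locV V A') z J t := by
    rintro t ⟨e, u, huR, hu0, hwu, hte, hJ, hp, hn, hz1⟩
    obtain ⟨u', hu', rfl⟩ := hex u huR
    have hu0' : u' ≠ 0 := hne' _ hu0
    have ht0 : t ≠ 0 := by
      refine hne' _ ?_
      rw [hte]
      exact mul_ne_zero (Finset.prod_ne_zero_iff.2 fun i _ => zpow_ne_zero _ (hpar'.ne i)) hu0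
    refine ⟨e, u', hu', ?_, hι ?_, hJ, ?_, ?_, ?_⟩
    · rw [hrel.eq_one_iff hu0']
      exact hwu
    · rw [hte, map_mul, map_prod]
      congr 1
      exact Finset.prod_congr rfl fun i _ => by rw [map_zpow₀, hz]
    · intro h
      exact hp ((hrel.lt_one_iff ht0).1 h)
    · intro h
      exact hn ((hrel.one_lt_iff ht0).1 h)
    · intro h
      exact hz1 ((hrel.eq_one_iff ht0).1 h)
  exact ⟨A', g, hch, n, z, J, hpar, hSM g hg'M, fun t ht => hSM t (hTM _ (by
    rw [Finset.coe_image]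
    exact ⟨t, ht, rfl⟩))⟩

end Pool.Agent.LUC
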