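import Pool.Agent.Lib.LUC.Loc

/-! # H2: a separating transcendence basis and a primitive element in the valuation ring

Recipe. `Q = FractionRing S`; `K` is a finitely generated field extension of `Q` (`Algebra.EssFiniteType Q K`, from `S`: `of_comp` or
similar, `IntermediateField.fg_top_iff`), so its transcendence basis `s` is finite (`hs`, `Algebra.trdeg` is finite, see
`trdeg_lt_aleph0`, or `trdeg_lt_aleph0_of_ess` in lum_Final.lean of the store): `s` is the range of `t₀ : Fin e → K`. `t j = t₀ j` if `t₀ j ∈ V`, else `t j = (t₀ j)⁻¹ ∈ V`: the same field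
`adjoin Q (range t) = adjoin Q (range t₀)`, and `t` is algebraically independent (the field has transcendence degree `e`; or directly:
`AlgebraicIndependent` of the inverse of one member: `adjoin Q (range t₀)` is algebraic over `adjoin Q (range t)` (equal), so `t` contains a
transcendence basis, which has `e` elements: `IsTranscendenceBasis` / `AlgebraicIndependent` from the cardinality). `K / Q(t)` is finite and separable:
`Field.exists_primitive_element` `θ₀`; `θ = θ₀` or `θ₀⁻¹` in `V` (the same field). `P`: the minimal polynomial of `θ` over `Q(t)`, separable, so its derivative is not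
0 at `θ`; the elements of `Q(t)` are quotients of elements of `Algebra.adjoin S (range t)` (`IntermediateField.mem_adjoin_iff_div`, then clear the
denominators of `Q`): multiply by a common denominator. The third claim: `K = Q(t)(θ)` and `θ` is algebraic over `Q(t)`, so
every `f` is a polynomial in `θ` over `Q(t)`: a quotient of elements of `S[t, θ]`. Algebraic independence over `S` from the one over `Q`
(`AlgebraicIndependent.restrictScalars`). `trdeg`: `Algebra.trdeg S K = Algebra.trdeg Q K = e`. -/

set_option autoImplicit false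

namespace Pool.Agent.LUC

open Polynomial
open scoped IntermediateField.algebraAdjoinAdjoin

universe u

private theorem adjoin_quot {S K : Type u} [CommRing S] [IsDomain S] [Field K] [Algebra S K]
    [FaithfulSMul S K] [Algebra (FractionRing S) K] [IsScalarTower S (FractionRing S) K]
    (X : Set K) {f : K} (hf : f ∈ IntermediateField.adjoin (FractionRing S) X) :
    ∃ a ∈ Algebra.adjoin S X, ∃ b ∈ Algebra.adjoin S X, b ≠ 0 ∧ f = a / b := by
  refine IntermediateField.adjoin_induction (FractionRing S)
    (p := fun f _ => ∃ a ∈ Algebra.adjoin S X, ∃ b ∈ Algebra.adjoin S X, b ≠ 0 ∧ f = a / b)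
    ?_ ?_ ?_ ?_ ?_ hf
  · intro x hx
    exact ⟨x, Algebra.subset_adjoin hx, 1, one_mem _, one_ne_zero, by rw [div_one]⟩
  · intro q
    obtain ⟨a, b, hb, rfl⟩ := IsFractionRing.div_surjective (A := S) q
    refine ⟨algebraMap S K a, Subalgebra.algebraMap_mem _ _, algebraMap S K b,
      Subalgebra.algebraMap_mem _ _, ?_, ?_⟩
    · rw [Ne, FaithfulSMul.algebraMap_eq_zero_iff]
      exact nonZeroDivisors.ne_zero hb
    · rw [map_div₀, ← IsScalarTower.algebraMap_apply, ← IsScalarTower.algebraMap_apply]
  · rintro x y - - ⟨a, ha, b, hb, hb0, rfl⟩ ⟨c, hc, d, hd, hd0, rfl⟩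
    exact ⟨a * d + b * c, add_mem (mul_mem ha hd) (mul_mem hb hc), b * d, mul_mem hb hd,
      mul_ne_zero hb0 hd0, by rw [div_add_div _ _ hb0 hd0]⟩
  · rintro x - ⟨a, ha, b, hb, hb0, rfl⟩
    by_cases ha0 : a = 0
    · exact ⟨0, zero_mem _, 1, one_mem _, one_ne_zero, by rw [ha0]; simp⟩
    · exact ⟨b, hb, a, ha, ha0, by rw [inv_div]⟩
  · rintro x y - - ⟨a, ha, b, hb, hb0, rfl⟩ ⟨c, hc, d, hd, hd0, rfl⟩
    exact ⟨a * c, mul_mem ha hc, b * d, mul_mem hb hd, mul_ne_zero hb0 hd0,
      by rw [div_mul_div_comm]⟩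

private theorem common_denom {S K : Type u} [CommRing S] [IsDomain S] [Field K] [Algebra S K]
    (A : Subalgebra S K) {ι : Type*} (I : Finset ι) (c : ι → K)
    (h : ∀ i ∈ I, ∃ a ∈ A, ∃ b ∈ A, b ≠ 0 ∧ c i = a / b) :
    ∃ d ∈ A, d ≠ 0 ∧ ∀ i ∈ I, d * c i ∈ A := by
  classical
  induction I using Finset.induction_on with
  | empty => exact ⟨1, one_mem _, one_ne_zero, fun i hi => absurd hi (Finset.notMem_empty i)⟩
  | insert j I hj ih =>
    obtain ⟨d, hd, hd0, hdc⟩ := ih fun i hi => h i (Finset.mem_insert_of_mem hi)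
    obtain ⟨a, ha, b, hb, hb0, hc⟩ := h j (Finset.mem_insert_self j I)
    refine ⟨d * b, mul_mem hd hb, mul_ne_zero hd0 hb0, fun i hi => ?_⟩
    rcases Finset.mem_insert.1 hi with rfl | hi
    · rw [hc, mul_assoc, mul_div_cancel₀ _ hb0]
      exact mul_mem hd ha
    · rw [mul_right_comm]
      exact mul_mem (hdc i hi) hb

theorem exists_primitive {S K : Type u} [CommRing S] [IsDomain S] [Field K] [Algebra S K]
    [FaithfulSMul S K] [Algebra (FractionRing S) K] [IsScalarTower S (FractionRing S) K]
    [Algebra.EssFiniteType S K] (s : Set K)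
    (hs : IsTranscendenceBasis (FractionRing S) ((↑) : s → K))
    (hsep : Algebra.IsSeparable (IntermediateField.adjoin (FractionRing S) s) K)
    (V : ValuationSubring K) :
    ∃ (e : ℕ) (t : Fin e → K) (θ : K) (P : Polynomial K), (∀ j, t j ∈ V) ∧
      AlgebraicIndependent S t ∧ θ ∈ V ∧
      (∀ f : K, ∃ a ∈ Algebra.adjoin S (Set.range t ∪ {θ}),
        ∃ b ∈ Algebra.adjoin S (Set.range t ∪ {θ}), b ≠ 0 ∧ f = a / b) ∧
      (∀ i, P.coeff i ∈ Algebra.adjoin S (Set.range t)) ∧ P.eval θ = 0 ∧
      P.derivative.eval θ ≠ 0 ∧ Algebra.trdeg S K = e := by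
  classical
  have hess : Algebra.EssFiniteType (FractionRing S) K :=
    Algebra.EssFiniteType.of_comp S (FractionRing S) K
  have hfin : Finite s := finite_of_isTranscendenceBasis hs
  obtain ⟨e, ⟨eqv⟩⟩ := Finite.exists_equiv_fin s
  obtain ⟨t₀, ht₀⟩ : ∃ t₀ : Fin e → K, t₀ = fun j => ((eqv.symm j : s) : K) := ⟨_, rfl⟩
  have hrange : Set.range t₀ = s := by
    rw [ht₀]
    ext x
    constructor
    · rintro ⟨j, rfl⟩
      exact (eqv.symm j).2
    · intro hx
      exact ⟨eqv ⟨x, hx⟩, by simp⟩
  -- the elements of `V`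
  obtain ⟨t, ht⟩ : ∃ t : Fin e → K, ∀ j, t j ∈ V ∧ (t j = t₀ j ∨ t j = (t₀ j)⁻¹) := by
    refine ⟨fun j => if t₀ j ∈ V then t₀ j else (t₀ j)⁻¹, fun j => ?_⟩
    dsimp only
    split_ifs with h
    · exact ⟨h, Or.inl rfl⟩
    · exact ⟨(V.mem_or_inv_mem (t₀ j)).resolve_left h, Or.inr rfl⟩
  have hadj : IntermediateField.adjoin (FractionRing S) (Set.range t) =
      IntermediateField.adjoin (FractionRing S) s := by
    rw [← hrange]
    apply le_antisymm
    · rw [IntermediateField.adjoin_le_iff]
      rintro _ ⟨j, rfl⟩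
      have h1 : t₀ j ∈ IntermediateField.adjoin (FractionRing S) (Set.range t₀) :=
        IntermediateField.subset_adjoin _ _ ⟨j, rfl⟩
      rcases (ht j).2 with h | h
      · rw [h]
        exact h1
      · rw [h]
        exact inv_mem h1
    · rw [IntermediateField.adjoin_le_iff]
      rintro _ ⟨j, rfl⟩
      have h1 : t j ∈ IntermediateField.adjoin (FractionRing S) (Set.range t) :=
        IntermediateField.subset_adjoin _ _ ⟨j, rfl⟩
      rcases (ht j).2 with h | h
      · rw [← h]
        exact h1
      · have h2 : t₀ j = (t j)⁻¹ := by rw [h, inv_inv]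
        rw [h2]
        exact inv_mem h1
  have halg : Algebra.IsAlgebraic
      (IntermediateField.adjoin (FractionRing S) (Set.range t)) K := by
    have h1 := hs.isAlgebraic_field
    rw [Subtype.range_coe] at h1
    rw [hadj]
    exact h1
  have halg' : Algebra.IsAlgebraic (Algebra.adjoin (FractionRing S) (Set.range t)) K :=
    (IsFractionRing.comap_isAlgebraic_iff
      (K := IntermediateField.adjoin (FractionRing S) (Set.range t))).2 halg
  have hcard : Cardinal.lift.{u} (Cardinal.mk (Fin e)) =
      Cardinal.lift.{0} (Algebra.trdeg (FractionRing S) K) := by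
    rw [← hs.cardinalMk_eq_trdeg]
    exact Cardinal.mk_congr_lift eqv.symm
  have htb : IsTranscendenceBasis (FractionRing S) t :=
    Algebra.IsAlgebraic.isTranscendenceBasis_of_lift_le_trdeg_of_finite _ t hcard.le
  have halgS : Algebra.IsAlgebraic S (FractionRing S) :=
    IsLocalization.isAlgebraic _ (nonZeroDivisors S)
  have htbS : IsTranscendenceBasis S t :=
    (Algebra.IsAlgebraic.isTranscendenceBasis_iff S (FractionRing S)).2 htb
  -- the primitive element
  have hsep' : Algebra.IsSeparable
      (IntermediateField.adjoin (FractionRing S) (Set.range t)) K := by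
    rw [hadj]
    exact hsep
  have hess' : Algebra.EssFiniteType
      (IntermediateField.adjoin (FractionRing S) (Set.range t)) K :=
    Algebra.EssFiniteType.of_comp (FractionRing S) _ K
  have hfd : FiniteDimensional (IntermediateField.adjoin (FractionRing S) (Set.range t)) K :=
    Algebra.finite_of_essFiniteType_of_isAlgebraic
  obtain ⟨θ₀, hθ₀⟩ := Field.exists_primitive_element
    (IntermediateField.adjoin (FractionRing S) (Set.range t)) K
  obtain ⟨θ, hθV, hθ⟩ : ∃ θ : K, θ ∈ V ∧ (θ = θ₀ ∨ θ = θ₀⁻¹) := by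
    rcases V.mem_or_inv_mem θ₀ with h | h
    · exact ⟨θ₀, h, Or.inl rfl⟩
    · exact ⟨θ₀⁻¹, h, Or.inr rfl⟩
  have htop₀ : IntermediateField.adjoin (FractionRing S) (Set.range t ∪ {θ₀}) = ⊤ := by
    rw [← IntermediateField.adjoin_adjoin_left, hθ₀]
    exact IntermediateField.restrictScalars_top
  have htop : IntermediateField.adjoin (FractionRing S) (Set.range t ∪ {θ}) = ⊤ := by
    rw [eq_top_iff, ← htop₀, IntermediateField.adjoin_le_iff]
    have h1 : θ ∈ IntermediateField.adjoin (FractionRing S) (Set.range t ∪ {θ}) :=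
      IntermediateField.subset_adjoin _ _ (Or.inr rfl)
    rintro x (hx | hx)
    · exact IntermediateField.subset_adjoin _ _ (Or.inl hx)
    · rw [Set.mem_singleton_iff] at hx
      rw [hx]
      rcases hθ with h | h
      · rw [← h]
        exact h1
      · have h2 : θ₀ = θ⁻¹ := by rw [h, inv_inv]
        rw [h2]
        exact inv_mem h1
  obtain ⟨p, hp⟩ : ∃ p, p = minpoly
    (IntermediateField.adjoin (FractionRing S) (Set.range t)) θ := ⟨_, rfl⟩
  have hint : IsIntegral (IntermediateField.adjoin (FractionRing S) (Set.range t)) θ :=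
    Algebra.IsIntegral.isIntegral θ
  have hroot : aeval θ p = 0 := hp ▸ minpoly.aeval _ θ
  have hder : aeval θ (derivative p) ≠ 0 := by
    have h1 : (minpoly (IntermediateField.adjoin (FractionRing S) (Set.range t)) θ).Separable :=
      Algebra.IsSeparable.isSeparable _ θ
    rw [hp]
    exact h1.aeval_derivative_ne_zero (minpoly.aeval _ θ)
  obtain ⟨d, hd, hd0, hdc⟩ := common_denom (Algebra.adjoin S (Set.range t))
    (Finset.range (p.natDegree + 1))
    (fun i => ((p.coeff i : IntermediateField.adjoin (FractionRing S) (Set.range t)) : K))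
    fun i _ => adjoin_quot (Set.range t) (p.coeff i).2
  obtain ⟨P, hP⟩ : ∃ P : Polynomial K, P = C d * p.map (algebraMap _ K) := ⟨_, rfl⟩
  refine ⟨e, t, θ, P, fun j => (ht j).1, htbS.1, hθV, fun f => ?_, fun i => ?_, ?_, ?_, ?_⟩
  · exact adjoin_quot _ (by rw [htop]; exact IntermediateField.mem_top)
  · rw [hP, coeff_C_mul, coeff_map]
    by_cases hi : i ∈ Finset.range (p.natDegree + 1)
    · exact hdc i hi
    · rw [Finset.mem_range, not_lt] at hi
      rw [coeff_eq_zero_of_natDegree_lt (by omega), map_zero, mul_zero]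
      exact zero_mem _
  · rw [hP, eval_mul, eval_map_algebraMap, hroot, mul_zero]
  · rw [hP, derivative_C_mul, derivative_map, eval_mul, eval_C, eval_map_algebraMap]
    exact mul_ne_zero hd0 hder
  · have h1 := htbS.lift_cardinalMk_eq_trdeg
    rw [Cardinal.mk_fin, Cardinal.lift_natCast, Cardinal.lift_id'.{0, u}] at h1
    exact h1.symm

end Pool.Agent.LUC
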