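import Pool.Agent.Lib.LUC.E2
import Pool.Agent.Lib.LUC.E3
import Pool.Agent.Lib.LUC.F3
import Pool.Agent.Lib.LUC.G1
import Pool.Agent.Lib.LUC.G5
import Pool.Agent.Lib.LUC.H0
import Pool.Agent.Lib.LUC.H1
import Pool.Agent.Lib.LUC.H2

/-! # H3c: log uniformization over a base, general assembly -/

set_option autoImplicit false

namespace Pool.Agent.LUC

open Pool.Agent.H15JM (RVal)
open Pool.Agent.LU1 (VPos)
open Polynomial

universe u

/-- The image of a subalgebra generated by `X`. -/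
theorem mem_adjoin_iff {S K Ω : Type u} [CommRing S] [Field K] [Field Ω] [Algebra S K]
    [Algebra K Ω] [Algebra S Ω] [IsScalarTower S K Ω] (X : Set K) (f : Ω) :
    f ∈ adj (algebraMap S Ω).range (algebraMap K Ω '' X) ↔
      ∃ g ∈ Algebra.adjoin S X, algebraMap K Ω g = f := by
  constructor
  · intro hf
    refine adj_induction (p := fun f => ∃ g ∈ Algebra.adjoin S X, algebraMap K Ω g = f)
      ?_ ?_ ?_ ?_ hf
    · rintro _ ⟨s, rfl⟩
      exact ⟨algebraMap S K s, Subalgebra.algebraMap_mem _ s,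
        (IsScalarTower.algebraMap_apply S K Ω s).symm⟩
    · rintro _ ⟨g, hg, rfl⟩
      exact ⟨g, Algebra.subset_adjoin hg, rfl⟩
    · rintro _ _ ⟨g, hg, rfl⟩ ⟨g', hg', rfl⟩
      exact ⟨g + g', add_mem hg hg', map_add _ _ _⟩
    · rintro _ _ ⟨g, hg, rfl⟩ ⟨g', hg', rfl⟩
      exact ⟨g * g', mul_mem hg hg', map_mul _ _ _⟩
  · rintro ⟨g, hg, rfl⟩
    induction hg using Algebra.adjoin_induction with
    | mem x hx => exact mem_adj ⟨x, hx, rfl⟩
    | algebraMap s =>
      rw [← IsScalarTower.algebraMap_apply S K Ω]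
      exact base_le_adj _ _ ⟨s, rfl⟩
    | add a b _ _ ha hb => rw [map_add]; exact add_mem ha hb
    | mul a b _ _ ha hb => rw [map_mul]; exact mul_mem ha hb

/-- Algebraic independence over the image of `S`. -/
theorem algInd_range {S K Ω : Type u} [CommRing S] [Field K] [Field Ω] [Algebra S K]
    [Algebra K Ω] [Algebra S Ω] [IsScalarTower S K Ω] {e : ℕ} {t : Fin e → K}
    (ht : AlgebraicIndependent S t) :
    AlgebraicIndependent (algebraMap S Ω).range (fun j => algebraMap K Ω (t j)) := by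
  have h1 : AlgebraicIndependent S (fun j => algebraMap K Ω (t j)) :=
    ht.map' (f := IsScalarTower.toAlgHom S K Ω) (algebraMap K Ω).injective
  have hsurj : Function.Surjective (algebraMap S Ω).rangeRestrict :=
    (algebraMap S Ω).rangeRestrict_surjective
  rw [AlgebraicIndependent] at h1 ⊢
  intro P Q hPQ
  obtain ⟨P', rfl⟩ := MvPolynomial.map_surjective _ hsurj P
  obtain ⟨Q', rfl⟩ := MvPolynomial.map_surjective _ hsurj Q
  have h2 : ∀ R : MvPolynomial (Fin e) S,
      MvPolynomial.aeval (fun j => algebraMap K Ω (t j))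
        (MvPolynomial.map (algebraMap S Ω).rangeRestrict R) =
      MvPolynomial.aeval (fun j => algebraMap K Ω (t j)) R := by
    intro R
    induction R using MvPolynomial.induction_on with
    | C a => simp only [MvPolynomial.map_C, MvPolynomial.algHom_C]; rfl
    | add p q hp hq => rw [map_add, map_add, map_add, hp, hq]
    | mul_X p i hp => rw [map_mul, map_mul, map_mul, hp, MvPolynomial.map_X,
        MvPolynomial.aeval_X, MvPolynomial.aeval_X]
  rw [h2, h2] at hPQ
  rw [h1 hPQ]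

/-- Assembly: log uniformization of `V` over `S`, from the one of all the fields `K₀`. -/
theorem lurV_of_base {S K Ω : Type u} [CommRing S] [IsDomain S] [Field K] [Field Ω]
    [IsAlgClosed Ω] [Algebra S K] [Algebra K Ω] [Algebra S Ω] [IsScalarTower S K Ω]
    [Algebra.IsAlgebraic K Ω] [FaithfulSMul S K] [Algebra (FractionRing S) K]
    [IsScalarTower S (FractionRing S) K] [Algebra.EssFiniteType S K] (s : Set K)
    (hs : IsTranscendenceBasis (FractionRing S) ((↑) : s → K))
    (hsep : Algebra.IsSeparable (IntermediateField.adjoin (FractionRing S) s) K)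
    (V : ValuationSubring K) (w : RVal Ω) (hV : ∀ f : K, f ∈ V ↔ w.Ge 0 (algebraMap K Ω f))
    (hS : ∀ s : S, algebraMap S K s ∈ V)
    (hpos : ∃ c : K, c ≠ 0 ∧ 0 < w (algebraMap K Ω c)) (R₀ : Subring Ω) {m : ℕ}
    (x : Fin m → Ω) (hB : Base w R₀ (algebraMap S Ω).range x) {e : ℕ}
    (he : Algebra.trdeg S K = e)
    (hL : ∀ (t : Fin e → Ω) (q : ℕ) (K₀ K' : Subfield Ω) (B : Finset Ω) (α : Fin q → Ω) (u : Ω)
      (H : Polynomial Ω), AlgebraicIndependent (algebraMap S Ω).range t →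
      (algebraMap K Ω).fieldRange ≤ K' →
      Setup w R₀ (algebraMap S Ω).range x t K₀ K' B α u H → LUs w R₀ K₀) : LUrV S V := by
  classical
  let ι : K →+* Ω := algebraMap K Ω
  have hι : Function.Injective ι := ι.injective
  have hι0 : ∀ f : K, ι f ≠ 0 ↔ f ≠ 0 := fun f => (_root_.map_ne_zero ι)
  -- the primitive element
  obtain ⟨e', t, θ, P, htV, ht, hθV, hfrac, hP, hPθ, hP', htr⟩ :=
    exists_primitive s hs hsep V
  obtain rfl : e' = e := by
    rw [he] at htr
    exact_mod_cast htr.symm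
  let t' : Fin e' → Ω := fun j => ι (t j)
  have ht' : AlgebraicIndependent (algebraMap S Ω).range t' := algInd_range ht
  have himg : ∀ X : Set K, ∀ f : K, f ∈ Algebra.adjoin S X →
      ι f ∈ adj (algebraMap S Ω).range (ι '' X) := fun X f hf =>
    (mem_adjoin_iff (S := S) (K := K) (Ω := Ω) X (ι f)).2 ⟨f, hf, rfl⟩
  have hr1 : ι '' (Set.range t) = Set.range t' := by rw [← Set.range_comp]; rfl
  have hr2 : ι '' (Set.range t ∪ {θ}) = Set.range t' ∪ {ι θ} := by
    rw [Set.image_union, hr1, Set.image_singleton]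
  have hquo : QuoIs (adj (algebraMap S Ω).range (Set.range t' ∪ {ι θ})) ι.fieldRange := by
    rw [← hr2]
    constructor
    · intro f hf
      obtain ⟨g, -, rfl⟩ := (mem_adjoin_iff _ _).1 hf
      exact ⟨g, rfl⟩
    · rintro _ ⟨f, rfl⟩
      obtain ⟨c, hc, d, hd, hd0, rfl⟩ := hfrac f
      exact ⟨ι c, himg _ _ hc, ι d, himg _ _ hd, (hι0 d).2 hd0, map_div₀ ι c d⟩
  obtain ⟨N, PN, f, u₁, θN, hPN⟩ := exists_PN hB (fun j => (hV _).1 (htV j)) ι.fieldRange
    (ι θ) ((hV _).1 hθV) hquo (P.map ι) (fun i => by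
      rw [← hr1, Polynomial.coeff_map]
      exact himg _ _ (hP i)) (by rw [Polynomial.eval_map_apply, hPθ, map_zero]) (by
      rw [Polynomial.derivative_map, Polynomial.eval_map_apply]
      exact (hι0 _).2 hP')
  obtain ⟨q, K₀, B, α, u, H, hset⟩ := hPN.setup
  have hKK' : ι.fieldRange ≤ Subfield.closure ((ι.fieldRange : Set Ω) ∪ {u₁}) := fun f hf =>
    Subfield.subset_closure (Or.inl hf)
  obtain ⟨c, hc0, hwc⟩ := hpos
  -- the field `K'`
  have hLT := hset.lut ht' (hL t' q K₀ _ B α u H ht' hKK' hset)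
  -- descent
  have hΩ : ∀ g : Ω, IsAlgebraic ι.fieldRange g := by
    intro g
    obtain ⟨Q, hQ, hQ0⟩ := (Algebra.IsAlgebraic.isAlgebraic (R := K) g)
    refine ⟨Q.map ι.rangeRestrictField, ?_, ?_⟩
    · rwa [Polynomial.map_ne_zero_iff ι.rangeRestrictField.injective]
    · rw [Polynomial.aeval_def, Polynomial.eval₂_map]
      exact hQ0
  obtain ⟨θ', hθ', hcl⟩ := exists_etData ι.fieldRange hΩ f hPN.f_mem hPN.f_ge hPN.f1_ne hPN.f1
    hPN.u₁_root hPN.u₁_pos
  rw [← hcl] at hLT
  have := hB.noeth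
  have hLK := LUT.desc (algebraMap S Ω).range hB.ge ι.fieldRange θ' hθ'
    ⟨ι c, ⟨c, rfl⟩, (hι0 c).2 hc0, hwc⟩ hLT
  have hLs := LUT.lus (algebraMap S Ω).range hB.ge ι.fieldRange hLK
  exact LUs.lurV (w := w) hV hS hLs

end Pool.Agent.LUC
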