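import Pool.Agent.Lib.LUC.C7
import Pool.Agent.Lib.LUC.E7
import Pool.Agent.Lib.LUC.H3c
import Pool.Agent.Lib.LU1_h15.ExtVal_H1

/-! # H3: log uniformization over a regular local ring with a perfect coefficient field -/

set_option autoImplicit false

namespace Pool.Agent.LUC

open Pool.Agent.H15JM (RVal)
open Pool.Agent.LU1 (VPos)
open Pool.Agent.LU2 (IsR1 IndVal IndRes Rel)
open Polynomial

universe u

/-- The real valuation of the algebraic closure. -/
theorem exists_entry {K : Type u} [Field K] (V : ValuationSubring K) (hR : IsR1 V) :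
    ∃ (v : RVal K) (w : RVal (AlgebraicClosure K)), Rel V v ∧
      (∀ g : K, g ≠ 0 → w (algebraMap K (AlgebraicClosure K) g) = v g) ∧
      (∀ f : K, f ∈ V ↔ w.Ge 0 (algebraMap K (AlgebraicClosure K) f)) ∧
      (∀ f : K, V.valuation f < 1 → VPos w (algebraMap K (AlgebraicClosure K) f)) ∧
      ∃ c : K, c ≠ 0 ∧ 0 < v c := by
  obtain ⟨v, hrel, hvpos⟩ := hR.exists_real
  have hrel : Rel V v := hrel
  obtain ⟨w, hw⟩ := LU1.exists_extVal K (AlgebraicClosure K) v
  have hι0 : ∀ f : K, algebraMap K (AlgebraicClosure K) f ≠ 0 ↔ f ≠ 0 := fun f =>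
    (_root_.map_ne_zero (algebraMap K (AlgebraicClosure K)))
  refine ⟨v, w, hrel, hw, fun f => ?_, fun f hf h0 => ?_, ?_⟩
  · rw [hrel.mem_iff f]
    constructor
    · intro h h0
      have h0' : f ≠ 0 := (hι0 f).1 h0
      rw [hw f h0']
      exact h h0'
    · intro h h0
      rw [← hw f h0]
      exact h ((hι0 f).2 h0)
  · have h0' : f ≠ 0 := (hι0 f).1 h0
    rw [hw f h0']
    exact (hrel.lt_one_iff h0').1 hf
  · obtain ⟨x1, hx1⟩ := LU2.indVal_one hR.1
    have h1 := hrel.indVal_iff.1 hx1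
    have h2 : v (x1 0) ≠ 0 := h1.2.ne_zero 0
    rcases lt_or_gt_of_ne h2 with h3 | h3
    · exact ⟨(x1 0)⁻¹, inv_ne_zero (h1.1 0), by rw [v.map_inv (h1.1 0)]; linarith⟩
    · exact ⟨x1 0, h1.1 0, h3⟩

theorem lurV_eq (p : ℕ) (hp : p.Prime) {k S K : Type u} [Field k] [PerfectField k] [CharP k p]
    [CommRing S] [IsDomain S] [IsRegularLocalRing S] [Field K] [Algebra k S] [Algebra S K]
    [Algebra k K] [IsScalarTower k S K] [FaithfulSMul S K] [Algebra (FractionRing S) K]
    [IsScalarTower S (FractionRing S) K] [Algebra.EssFiniteType S K]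
    (hres : ∀ s : S, ∃ c : k, s - algebraMap k S c ∈ IsLocalRing.maximalIdeal S) {m : ℕ}
    (hdim : ringKrullDim S = m) (s : Set K)
    (hs : IsTranscendenceBasis (FractionRing S) ((↑) : s → K))
    (hsep : Algebra.IsSeparable (IntermediateField.adjoin (FractionRing S) s) K)
    (V : ValuationSubring K) (hR : IsR1 V) (hS : ∀ s : S, algebraMap S K s ∈ V)
    (hmS : ∀ s ∈ IsLocalRing.maximalIdeal S, V.valuation (algebraMap S K s) < 1) {r d : ℕ}
    (a : Fin r → K) (ha : IndVal V a) (b : Fin d → K) (hb : IndRes k V b)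
    (hdef : Algebra.trdeg S K + m ≤ ((r + d + 1 : ℕ) : Cardinal)) : LUrV S V := by
  classical
  obtain ⟨v, w, hrel, hw, hV, hVpos, c, hc0, hcV⟩ := exists_entry V hR
  let Ω : Type u := AlgebraicClosure K
  let ι : K →+* Ω := algebraMap K Ω
  have hι0 : ∀ f : K, ι f ≠ 0 ↔ f ≠ 0 := fun f => (_root_.map_ne_zero ι)
  have hinj : Function.Injective (algebraMap S Ω) := by
    rw [IsScalarTower.algebraMap_eq S K Ω]
    exact ι.injective.comp (FaithfulSMul.algebraMap_injective S K)
  obtain ⟨x, hB⟩ := exists_base (k := k) hinj w hres hdim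
    (fun s => by rw [IsScalarTower.algebraMap_apply S K Ω]; exact (hV _).1 (hS s))
    (fun s hs => by rw [IsScalarTower.algebraMap_apply S K Ω]; exact hVpos _ (hmS s hs))
  obtain ⟨e, -, -, -, -, -, -, -, -, -, -, htr⟩ := exists_primitive s hs hsep V
  have haι := (hrel.indVal_iff.1 ha)
  have hk : ∀ c : k, algebraMap k K c ∈ V := by
    intro c
    rw [IsScalarTower.algebraMap_apply k S K]
    exact hS _
  have hwc : 0 < w (ι c) := by rw [hw c hc0]; exact hcV
  have hdef' : m + e ≤ r + d + 1 := by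
    rw [htr] at hdef
    have : e + m ≤ r + d + 1 := by exact_mod_cast hdef
    omega
  refine lurV_of_base s hs hsep V w hV hS ⟨c, hc0, hwc⟩ _ x hB htr
    fun t q K₀ K' B α u H ht hKK' hset => ?_
  refine hset.lus_eq p hp ⟨ι c, hKK' ⟨c, rfl⟩, (hι0 c).2 hc0, hwc⟩ (fun i => ι (a i))
    (fun i => hKK' ⟨_, rfl⟩) (fun i => (hι0 _).2 (haι.1 i)) ?_ (fun i => ι (b i))
    (fun i => hKK' ⟨_, rfl⟩) (fun i => (hV _).1 (hb.1 i)) ?_ hdef'
  · have h1 : (fun i => w (ι (a i))) = fun i => v (a i) :=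
      funext fun i => hw _ (haι.1 i)
    rw [h1]
    exact haι.2
  · intro P hP
    have h1 := hb.val_eq hk hP
    have h2 : MvPolynomial.aeval b P ≠ 0 := by
      intro h0
      rw [h0] at h1
      simp at h1
    have h3 : MvPolynomial.aeval (fun i => ι (b i)) P = ι (MvPolynomial.aeval b P) := by
      have h4 : ((IsScalarTower.toAlgHom k K Ω).comp (MvPolynomial.aeval b)) =
          MvPolynomial.aeval (fun i => ι (b i)) := by
        refine MvPolynomial.algHom_ext fun i => ?_
        simp [ι]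
      rw [← h4]
      rfl
    rw [h3]
    refine ⟨(hι0 _).2 h2, ?_⟩
    rw [hw _ h2]
    exact (hrel.eq_one_iff h2).1 h1

end Pool.Agent.LUC
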