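import Pool.Agent.Lib.LUC.E7
import Pool.Agent.Lib.LUC.Q1

/-! # N1: log uniformization over a larger base ring; coefficient fields which are finitely generated
over a perfect field -/

set_option autoImplicit false

namespace Pool.Agent.LUC

open Pool.Agent.H15JM (RVal)
open Pool.Agent.LU1 (VPos)
open Pool.Agent.LU2 (IsR1 IndVal IndRes DefLE vring rcomap rel_vring)
open Polynomial

universe u

section Base

variable {Ω : Type u} [Field Ω] {w : RVal Ω}

/-- Elements of `adj (lv w A') F` have denominators of value zero in `A'`. -/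
theorem exists_den_lv (A' : Subring Ω) {F : Set Ω} {f : Ω} (hf : f ∈ adj (lv w A') F) :
    ∃ u ∈ A', u ≠ 0 ∧ w u = 0 ∧ f * u ∈ adj A' F := by
  refine adj_induction (p := fun f => ∃ u ∈ A', u ≠ 0 ∧ w u = 0 ∧ f * u ∈ adj A' F) ?_ ?_ ?_ ?_ hf
  · rintro f ⟨a, ha, b, hb, hb0, hvb, rfl⟩
    refine ⟨b, hb, hb0, hvb, ?_⟩
    rw [div_mul_cancel₀ _ hb0]
    exact base_le_adj A' F ha
  · intro f hf
    refine ⟨1, A'.one_mem, one_ne_zero, w.map_one, ?_⟩
    rw [mul_one]
    exact mem_adj hf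
  · rintro f g ⟨u, hu, hu0, hvu, hfu⟩ ⟨v, hv, hv0, hvv, hgv⟩
    refine ⟨u * v, A'.mul_mem hu hv, mul_ne_zero hu0 hv0, by
      rw [w.map_mul hu0 hv0, hvu, hvv, add_zero], ?_⟩
    have e : (f + g) * (u * v) = (f * u) * v + (g * v) * u := by ring
    rw [e]
    exact add_mem (mul_mem hfu (base_le_adj A' F hv)) (mul_mem hgv (base_le_adj A' F hu))
  · rintro f g ⟨u, hu, hu0, hvu, hfu⟩ ⟨v, hv, hv0, hvv, hgv⟩
    refine ⟨u * v, A'.mul_mem hu hv, mul_ne_zero hu0 hv0, by
      rw [w.map_mul hu0 hv0, hvu, hvv, add_zero], ?_⟩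
    have e : (f * g) * (u * v) = (f * u) * (g * v) := by ring
    rw [e]
    exact mul_mem hfu hgv

/-- Log uniformization over `R` gives log uniformization over the rings between `R` and a
localisation of a finitely generated `R`-algebra. -/
theorem LUs.base {R R' : Subring Ω} {L : Subfield Ω} (h : LUs w R L) (hRR' : R ≤ R')
    (hR' : ∀ f ∈ R', w.Ge 0 f) (G : Finset Ω) (hG : ∀ g ∈ G, g ∈ R')
    (hle : R' ≤ lv w (adj R (G : Set Ω))) : LUs w R' L := by
  classical
  intro A hA hQ T hT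
  have hGR : adj R (G : Set Ω) ≤ R' := adj_le hRR' fun g hg => hG g hg
  have h1 : adj R ((A ∪ G : Finset Ω) : Set Ω) ≤ adj R' (A : Set Ω) := by
    refine adj_le (hRR'.trans (base_le_adj _ _)) ?_
    rw [Finset.coe_union]
    rintro f (hf | hf)
    · exact mem_adj hf
    · exact base_le_adj _ _ (hG f hf)
  have h2 : ∀ f ∈ adj R' (A : Set Ω), ∃ u ∈ adj R (G : Set Ω), u ≠ 0 ∧ w u = 0 ∧
      f * u ∈ adj R ((A ∪ G : Finset Ω) : Set Ω) := by
    intro f hf
    obtain ⟨u, hu, hu0, hu1, hfu⟩ := exists_den_lv (w := w) (adj R (G : Set Ω))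
      (adj_mono hle le_rfl hf)
    refine ⟨u, hu, hu0, hu1, ?_⟩
    rw [adj_adj, Set.union_comm] at hfu
    rwa [Finset.coe_union]
  have h3 : adj R (G : Set Ω) ≤ adj R ((A ∪ G : Finset Ω) : Set Ω) := by
    refine adj_mono le_rfl ?_
    rw [Finset.coe_union]
    exact Set.subset_union_right
  have hQ' : QuoIs (adj R ((A ∪ G : Finset Ω) : Set Ω)) L := by
    refine ⟨fun f hf => hQ.1 f (h1 hf), fun f hf => ?_⟩
    obtain ⟨a, ha, b, hb, hb0, rfl⟩ := hQ.2 f hf
    obtain ⟨u, hu, hu0, -, hau⟩ := h2 a ha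
    obtain ⟨v, hv, hv0, -, hbv⟩ := h2 b hb
    refine ⟨a * u * v, mul_mem hau (h3 hv), b * v * u, mul_mem hbv (h3 hu),
      mul_ne_zero (mul_ne_zero hb0 hv0) hu0, ?_⟩
    field_simp
  obtain ⟨n, z, J, O, hM, hdim⟩ := h (A ∪ G) (by
    intro a ha
    rcases Finset.mem_union.1 ha with ha | ha
    · exact hA a ha
    · exact hR' a (hG a ha)) hQ' T hT
  refine ⟨n, z, J, O, ⟨hM.par, ?_, hM.mono⟩, hdim⟩
  obtain ⟨g, hg, hg0, hgs, F, hF, hO⟩ := hM.chart
  refine ⟨g, h1 hg, hg0, hgs, F, fun x hx => ⟨h1 (hF x hx).1, (hF x hx).2⟩, ?_⟩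
  rw [hO]
  symm
  refine lv_eq_of_le ?_ ?_
  · refine adj_le (hRR'.trans (base_le_adj _ _)) ?_
    rintro f (hf | hf)
    · rw [Finset.coe_union] at hf
      rcases hf with hf | hf
      · exact mem_adj (Or.inl hf)
      · exact base_le_adj _ _ (hG f hf)
    · exact mem_adj (Or.inr hf)
  · refine adj_le ?_ ?_
    · refine hle.trans (lv_mono (adj_mono le_rfl ?_))
      rw [Finset.coe_union]
      exact fun x hx => Or.inl (Or.inr hx)
    · rintro f (hf | hf)
      · refine le_lv w _ (mem_adj (Or.inl ?_))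
        rw [Finset.coe_union]
        exact Or.inl hf
      · exact le_lv w _ (mem_adj (Or.inr hf))

end Base

/-- Polynomials in independent elements over a field generated by independent elements. -/
theorem exists_append_indep {k κ : Type u} [Field k] [Field κ] [Algebra k κ] {c d : ℕ}
    {β : Fin c → κ} (hβ : AlgebraicIndependent k β) :
    Function.Injective (MvPolynomial.aeval (R := k)
      (Fin.append (fun i => MvPolynomial.C (β i)) MvPolynomial.X :
        Fin (c + d) → MvPolynomial (Fin d) κ)) := by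
  let e1 : MvPolynomial (Fin (c + d)) k ≃ₐ[k] MvPolynomial (Fin d ⊕ Fin c) k :=
    MvPolynomial.renameEquiv k (finSumFinEquiv.symm.trans (Equiv.sumComm _ _))
  let e2 := MvPolynomial.sumAlgEquiv k (Fin d) (Fin c)
  let f3 : MvPolynomial (Fin d) (MvPolynomial (Fin c) k) →ₐ[k] MvPolynomial (Fin d) κ :=
    MvPolynomial.mapAlgHom (MvPolynomial.aeval β)
  have h3 : Function.Injective f3 :=
    MvPolynomial.map_injective _ (by exact hβ)
  have h : (MvPolynomial.aeval (R := k)
      (Fin.append (fun i => MvPolynomial.C (β i)) MvPolynomial.X :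
        Fin (c + d) → MvPolynomial (Fin d) κ)) =
      (f3.comp e2.toAlgHom).comp e1.toAlgHom := by
    refine MvPolynomial.algHom_ext fun i => ?_
    rw [MvPolynomial.aeval_X]
    refine Fin.addCases (fun i => ?_) (fun i => ?_) i
    · simp [e1, e2, f3]
    · simp [e1, e2, f3]
  rw [h]
  exact (h3.comp e2.injective).comp e1.injective

section Coeff

variable {Ω : Type u} [Field Ω] {w : RVal Ω} {S : Subring Ω} {m e q : ℕ} {x : Fin m → Ω}
  {t : Fin e → Ω} {K₀ K' : Subfield Ω} {B : Finset Ω} {α : Fin q → Ω} {u : Ω} {H : Polynomial Ω}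
  {k κ : Type u} [Field k] [Field κ] [Algebra k κ] [Algebra k Ω] [Algebra κ Ω]
  [IsScalarTower k κ Ω]

/-- `Setup.lus_eq` for a coefficient field `κ` which is finitely generated over a perfect field. -/
theorem Setup.lus_eq2 (p : ℕ) (hp : p.Prime) [CharP k p] [PerfectField k]
    [Algebra.EssFiniteType k κ]
    (h : Setup w (algebraMap κ Ω).range S x t K₀ K' B α u H) (hpos : ∃ c ∈ K', c ≠ 0 ∧ 0 < w c)
    {r d : ℕ} (a : Fin r → Ω) (ha : ∀ i, a i ∈ K') (ha0 : ∀ i, a i ≠ 0)
    (hind : LinearIndependent ℚ fun i => w (a i)) (b : Fin d → Ω) (hb : ∀ i, b i ∈ K')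
    (hbge : ∀ i, w.Ge 0 (b i))
    (hbind : ∀ P : MvPolynomial (Fin d) κ, P ≠ 0 →
      MvPolynomial.aeval b P ≠ 0 ∧ w (MvPolynomial.aeval b P) = 0)
    (hdef : m + e ≤ r + d + 1) : LUs w (algebraMap κ Ω).range K₀ := by
  classical
  have hκ : ∀ c : κ, w.Ge 0 (algebraMap κ Ω c) := fun c =>
    h.base.ge _ (h.base.le ⟨c, rfl⟩)
  have hκ0 : ∀ c : κ, c ≠ 0 → algebraMap κ Ω c ≠ 0 ∧ w (algebraMap κ Ω c) = 0 := by
    intro c hc
    have h1 : algebraMap κ Ω c ≠ 0 := (_root_.map_ne_zero _).2 hc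
    refine ⟨h1, le_antisymm ?_ (hκ c h1)⟩
    have h2 := hκ c⁻¹ ((_root_.map_ne_zero _).2 (inv_ne_zero hc))
    rw [map_inv₀, w.map_inv h1] at h2
    linarith
  have hk : ∀ c : k, w.Ge 0 (algebraMap k Ω c) := by
    intro c
    rw [IsScalarTower.algebraMap_apply k κ Ω]
    exact hκ _
  have hκK : ∀ c : κ, algebraMap κ Ω c ∈ K₀ := fun c =>
    h.quo₀.1 _ (base_le_adj _ _ ⟨c, rfl⟩)
  let i0 : Algebra κ K₀ := ((algebraMap κ Ω).codRestrict K₀ hκK).toAlgebra
  have i1 : IsScalarTower κ K₀ Ω := IsScalarTower.of_algebraMap_eq fun c => rfl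
  let i2 : Algebra k K₀ := ((algebraMap κ K₀).comp (algebraMap k κ)).toAlgebra
  have i3 : IsScalarTower k κ K₀ := IsScalarTower.of_algebraMap_eq fun c => rfl
  have i4 : IsScalarTower k K₀ Ω := IsScalarTower.of_algebraMap_eq fun c => by
    rw [IsScalarTower.algebraMap_apply k κ Ω]
    rfl
  set V₀ : ValuationSubring K₀ := vring (rcomap w K₀.subtype) with hV₀
  have hkV : ∀ c : k, algebraMap k K₀ c ∈ V₀ := by
    intro c h0
    have h1 : ((algebraMap k K₀ c : K₀) : Ω) = algebraMap k Ω c :=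
      (IsScalarTower.algebraMap_apply k K₀ Ω c).symm
    have h2 := hk c (by
      rw [← h1]
      exact fun h => h0 (Subtype.ext h))
    rw [← h1] at h2
    exact h2
  -- rank one
  obtain ⟨c, hcK, hc0, hcw⟩ := hpos
  obtain ⟨c₀, hc₀, hc₀0, hc₀w, -⟩ := Cl.exists_val (h.cl c hcK) 0 hc0
  have hR : IsR1 V₀ := by
    refine isR1_vring _ (⟨c₀, hc₀⟩ : K₀) (fun h0 => hc₀0 (congrArg Subtype.val h0)) ?_
    change 0 < w c₀
    rw [hc₀w]
    exact hcw
  -- the residue field of the base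
  obtain ⟨n, hn⟩ := Cardinal.lt_aleph0.1 (trdeg_lt_aleph0 k κ)
  obtain ⟨ι, β', hβ'⟩ := exists_isTranscendenceBasis' k κ
  have hcard : Cardinal.mk ι = n := by
    rw [← hn]
    exact hβ'.cardinalMk_eq_trdeg
  have hfin : Finite ι := Cardinal.lt_aleph0_iff_finite.1 (by
    rw [hcard]
    exact Cardinal.natCast_lt_aleph0)
  let _ : Fintype ι := Fintype.ofFinite ι
  have hcard' : Fintype.card ι = n := by
    rw [Cardinal.mk_fintype] at hcard
    exact_mod_cast hcard
  let E : Fin n ≃ ι := (Fintype.equivFinOfCardEq hcard').symm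
  let β : Fin n → κ := fun i => β' (E i)
  have hβ : AlgebraicIndependent k β := hβ'.1.comp _ E.injective
  let b' : Fin (n + d) → Ω := Fin.append (fun i => algebraMap κ Ω (β i)) b
  have hb'K : ∀ i, b' i ∈ Cl w K₀ := by
    intro i
    refine Fin.addCases (fun i => ?_) (fun i => ?_) i
    · simp only [b', Fin.append_left]
      exact Cl.subset (hκK _)
    · simp only [b', Fin.append_right]
      exact h.cl _ (hb i)
  have hb'ge : ∀ i, w.Ge 0 (b' i) := by
    intro i
    refine Fin.addCases (fun i => ?_) (fun i => ?_) i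
    · simp only [b', Fin.append_left]
      exact hκ _
    · simp only [b', Fin.append_right]
      exact hbge i
  have hb'ind : ∀ P : MvPolynomial (Fin (n + d)) k, P ≠ 0 →
      MvPolynomial.aeval b' P ≠ 0 ∧ w (MvPolynomial.aeval b' P) = 0 := by
    intro P hP
    have h1 : MvPolynomial.aeval b' P = MvPolynomial.aeval b (MvPolynomial.aeval (R := k)
      (Fin.append (fun i => MvPolynomial.C (β i)) MvPolynomial.X :
        Fin (n + d) → MvPolynomial (Fin d) κ) P) := by
      have h2 : ((MvPolynomial.aeval (R := κ) b).restrictScalars k).comp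
          (MvPolynomial.aeval (R := k)
          (Fin.append (fun i => MvPolynomial.C (β i)) MvPolynomial.X :
          Fin (n + d) → MvPolynomial (Fin d) κ)) = MvPolynomial.aeval b' := by
        refine MvPolynomial.algHom_ext fun i => ?_
        rw [AlgHom.comp_apply, MvPolynomial.aeval_X, MvPolynomial.aeval_X]
        refine Fin.addCases (fun i => ?_) (fun i => ?_) i
        · simp [b']
        · simp [b']
      rw [← h2]
      rfl
    rw [h1]
    refine hbind _ fun h0 => hP ?_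
    exact exists_append_indep hβ (h0.trans (map_zero _).symm)
  -- the defect
  obtain ⟨x', hx'⟩ := exists_indVal a (fun i => h.cl _ (ha i)) ha0 hind
  obtain ⟨z', hz'⟩ := exists_indRes (k := k) hk b' hb'K hb'ge hb'ind
  have hD : DefLE k V₀ 1 := by
    refine ⟨r, n + d, ?_, ⟨x', hx'⟩, ⟨z', hz'⟩⟩
    have h1 : Algebra.trdeg k κ + Algebra.trdeg κ K₀ = Algebra.trdeg k K₀ :=
      trdeg_add_eq k κ (A := K₀)
    rw [← h1, hn]
    refine (add_le_add le_rfl h.trdeg_le).trans ?_
    have h2 : n + (m + e) ≤ r + (n + d) + 1 := by omega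
    exact_mod_cast h2
  have hfg : (⊤ : IntermediateField k K₀).FG := by
    have h1 : Algebra.EssFiniteType κ K₀ := IntermediateField.fg_top_iff.1 h.fg
    have h2 : Algebra.EssFiniteType k K₀ := Algebra.EssFiniteType.comp k κ K₀
    exact IntermediateField.fg_top_iff.2 h2
  have hL : LUrV k V₀ := lurV_of_lur (LU2.realCaseR p hp K₀ hfg V₀ hkV hR hD)
  have hL' := LUrV.lus (w := w) (Ω := Ω) (V := V₀) (fun f => by
    rw [(rel_vring (rcomap w K₀.subtype)).mem_iff]
    constructor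
    · intro h1 h2
      exact h1 (by simpa using h2)
    · intro h1 h2
      exact h1 (by simpa using h2)) hkV hL
  have hr : (algebraMap K₀ Ω).fieldRange = K₀ := by
    ext f
    constructor
    · rintro ⟨y, rfl⟩
      exact y.2
    · intro hf
      exact ⟨⟨f, hf⟩, rfl⟩
  rw [hr] at hL'
  -- from `k` to `κ`
  obtain ⟨F, hF⟩ := (Algebra.essFiniteType_iff k κ).1 (inferInstance : Algebra.EssFiniteType k κ)
  refine hL'.base ?_ ?_ (F.image (algebraMap κ Ω)) ?_ ?_
  · rintro _ ⟨c, rfl⟩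
    exact ⟨algebraMap k κ c, (IsScalarTower.algebraMap_apply k κ Ω c).symm⟩
  · rintro _ ⟨c, rfl⟩
    exact hκ c
  · intro g hg
    obtain ⟨c, -, rfl⟩ := Finset.mem_image.1 hg
    exact ⟨c, rfl⟩
  · have key : ∀ c ∈ Algebra.adjoin k (F : Set κ), algebraMap κ Ω c ∈
        adj (algebraMap k Ω).range ((F.image (algebraMap κ Ω) : Finset Ω) : Set Ω) := by
      intro c hc
      induction hc using Algebra.adjoin_induction with
      | mem x hx => exact mem_adj (Finset.mem_coe.2 (Finset.mem_image_of_mem _ hx))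
      | algebraMap s =>
        rw [← IsScalarTower.algebraMap_apply k κ Ω]
        exact base_le_adj _ _ ⟨s, rfl⟩
      | add a b _ _ ha hb => rw [map_add]; exact add_mem ha hb
      | mul a b _ _ ha hb => rw [map_mul]; exact mul_mem ha hb
    rintro _ ⟨c, rfl⟩
    obtain ⟨t, ht, htu, hct⟩ := hF c
    obtain ⟨ht0, ht1⟩ := hκ0 t htu.ne_zero
    refine ⟨_, key _ hct, _, key _ ht, ht0, ht1, ?_⟩
    rw [map_mul, mul_div_cancel_right₀ _ ht0]

end Coeff

end Pool.Agent.LUC
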