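import Pool.Agent.Lib.LUC.H3
import Pool.Agent.Lib.LUC.N1

/-! # N2: log uniformization over a regular local ring with a coefficient field which is finitely
generated over a perfect field -/

set_option autoImplicit false

namespace Pool.Agent.LUC

open Pool.Agent.H15JM (RVal)
open Pool.Agent.LU1 (VPos)
open Pool.Agent.LU2 (IsR1 IndVal IndRes Rel)
open Polynomial

universe u

theorem lurV_eq2 (p : ℕ) (hp : p.Prime) {k κ S K : Type u} [Field k] [PerfectField k] [CharP k p]
    [Field κ] [Algebra k κ] [Algebra.EssFiniteType k κ]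
    [CommRing S] [IsDomain S] [IsRegularLocalRing S] [Field K] [Algebra κ S] [Algebra S K]
    [Algebra κ K] [IsScalarTower κ S K] [FaithfulSMul S K] [Algebra (FractionRing S) K]
    [IsScalarTower S (FractionRing S) K] [Algebra.EssFiniteType S K]
    (hres : ∀ s : S, ∃ c : κ, s - algebraMap κ S c ∈ IsLocalRing.maximalIdeal S) {m : ℕ}
    (hdim : ringKrullDim S = m) (s : Set K)
    (hs : IsTranscendenceBasis (FractionRing S) ((↑) : s → K))
    (hsep : Algebra.IsSeparable (IntermediateField.adjoin (FractionRing S) s) K)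
    (V : ValuationSubring K) (hR : IsR1 V) (hS : ∀ s : S, algebraMap S K s ∈ V)
    (hmS : ∀ s ∈ IsLocalRing.maximalIdeal S, V.valuation (algebraMap S K s) < 1) {r d : ℕ}
    (a : Fin r → K) (ha : IndVal V a) (b : Fin d → K) (hb : IndRes κ V b)
    (hdef : Algebra.trdeg S K + m ≤ ((r + d + 1 : ℕ) : Cardinal)) : LUrV S V := by
  classical
  obtain ⟨v, w, hrel, hw, hV, hVpos, c, hc0, hcV⟩ := exists_entry V hR
  let Ω : Type u := AlgebraicClosure K
  let ι : K →+* Ω := algebraMap K Ω
  have hι0 : ∀ f : K, ι f ≠ 0 ↔ f ≠ 0 := fun f => (_root_.map_ne_zero ι)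
  have hinj : Function.Injective (algebraMap S Ω) := by
    rw [IsScalarTower.algebraMap_eq S K Ω]
    exact ι.injective.comp (FaithfulSMul.algebraMap_injective S K)
  let i1 : Algebra k Ω := ((algebraMap κ Ω).comp (algebraMap k κ)).toAlgebra
  have i2 : IsScalarTower k κ Ω := IsScalarTower.of_algebraMap_eq fun _ => rfl
  obtain ⟨x, hB⟩ := exists_base (k := κ) hinj w hres hdim
    (fun s => by rw [IsScalarTower.algebraMap_apply S K Ω]; exact (hV _).1 (hS s))
    (fun s hs => by rw [IsScalarTower.algebraMap_apply S K Ω]; exact hVpos _ (hmS s hs))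
  obtain ⟨e, -, -, -, -, -, -, -, -, -, -, htr⟩ := exists_primitive s hs hsep V
  have haι := (hrel.indVal_iff.1 ha)
  have hk : ∀ c : κ, algebraMap κ K c ∈ V := by
    intro c
    rw [IsScalarTower.algebraMap_apply κ S K]
    exact hS _
  have hwc : 0 < w (ι c) := by rw [hw c hc0]; exact hcV
  have hdef' : m + e ≤ r + d + 1 := by
    rw [htr] at hdef
    have : e + m ≤ r + d + 1 := by exact_mod_cast hdef
    omega
  refine lurV_of_base s hs hsep V w hV hS ⟨c, hc0, hwc⟩ _ x hB htr
    fun t q K₀ K' B α u H ht hKK' hset => ?_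
  refine hset.lus_eq2 (k := k) p hp ⟨ι c, hKK' ⟨c, rfl⟩, (hι0 c).2 hc0, hwc⟩ (fun i => ι (a i))
    (fun i => hKK' ⟨_, rfl⟩) (fun i => (hι0 _).2 (haι.1 i)) ?_ (fun i => ι (b i))
    (fun i => hKK' ⟨_, rfl⟩) (fun i => (hV _).1 (hb.1 i)) ?_ hdef'
  · have h1 : (fun i => w (ι (a i))) = fun i => v (a i) :=
      funext fun i => hw _ (haι.1 i)
    rw [h1]
    exact haι.2
  · intro P hP
    have h1 := hb.val_eq hk hP
    have h2 : MvPolynomial.aeval b P ≠ 0 := by
      intro h0
      rw [h0] at h1
      simp at h1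
    have h3 : MvPolynomial.aeval (fun i => ι (b i)) P = ι (MvPolynomial.aeval b P) := by
      have h4 : ((IsScalarTower.toAlgHom κ K Ω).comp (MvPolynomial.aeval b)) =
          MvPolynomial.aeval (fun i => ι (b i)) := by
        refine MvPolynomial.algHom_ext fun i => ?_
        simp [ι]
      rw [← h4]
      rfl
    rw [h3]
    refine ⟨(hι0 _).2 h2, ?_⟩
    rw [hw _ h2]
    exact (hrel.eq_one_iff h2).1 h1

end Pool.Agent.LUC
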