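import Pool.Agent.Lib.LUC.Mods

/-! # The closure of a subfield for the valuation -/

set_option autoImplicit false

namespace Pool.Agent.LUC

open Pool.Agent.H15JM (RVal)
open Pool.Agent.LU1 (VPos)

universe u

variable {Ω : Type u} [Field Ω] {w : RVal Ω} {F : Subfield Ω} {a b : Ω}

theorem Cl.subset (h : a ∈ F) : a ∈ Cl w F := fun _ => ⟨a, h, by rw [sub_self]; exact RVal.Ge.zero⟩

theorem Cl.add (ha : a ∈ Cl w F) (hb : b ∈ Cl w F) : a + b ∈ Cl w F := by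
  intro c
  obtain ⟨a₀, ha₀, h1⟩ := ha c
  obtain ⟨b₀, hb₀, h2⟩ := hb c
  exact ⟨a₀ + b₀, F.add_mem ha₀ hb₀, by rw [add_sub_add_comm]; exact h1.add h2⟩

theorem Cl.neg (ha : a ∈ Cl w F) : -a ∈ Cl w F := by
  intro c
  obtain ⟨a₀, ha₀, h1⟩ := ha c
  refine ⟨-a₀, F.neg_mem ha₀, ?_⟩
  rw [← neg_sub']
  exact h1.neg

/-- An approximation with the same value. -/
theorem Cl.exists_val (ha : a ∈ Cl w F) (c : ℝ) (ha0 : a ≠ 0) :
    ∃ a₀ ∈ F, a₀ ≠ 0 ∧ w a₀ = w a ∧ w.Ge c (a - a₀) := by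
  obtain ⟨a₀, ha₀, h1⟩ := ha (max c (w a + 1))
  refine ⟨a₀, ha₀, ?_⟩
  have h3 : w.Ge c (a - a₀) := h1.mono (le_max_left _ _)
  by_cases h : a - a₀ = 0
  · rw [sub_eq_zero] at h
    subst h
    exact ⟨ha0, rfl, h3⟩
  · have h2 : w a < w (-(a - a₀)) := by
      rw [w.map_neg _ h]
      have := h1 h
      have h4 := le_max_right c (w a + 1)
      linarith
    have h5 := w.add_of_lt ha0 (neg_ne_zero.2 h) h2
    have h6 : a + -(a - a₀) = a₀ := by ring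
    rw [h6] at h5
    exact ⟨h5.1, h5.2, h3⟩

theorem Cl.mul (ha : a ∈ Cl w F) (hb : b ∈ Cl w F) : a * b ∈ Cl w F := by
  intro c
  by_cases ha0 : a = 0
  · exact ⟨0, F.zero_mem, by rw [ha0, zero_mul, sub_zero]; exact RVal.Ge.zero⟩
  by_cases hb0 : b = 0
  · exact ⟨0, F.zero_mem, by rw [hb0, mul_zero, sub_zero]; exact RVal.Ge.zero⟩
  obtain ⟨a₀, ha₀, h1, h2, h3⟩ := Cl.exists_val ha (c - w b) ha0
  obtain ⟨b₀, hb₀, h4, h5, h6⟩ := Cl.exists_val hb (c - w a) hb0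
  refine ⟨a₀ * b₀, F.mul_mem ha₀ hb₀, ?_⟩
  have h7 : a * b - a₀ * b₀ = (a - a₀) * b + a₀ * (b - b₀) := by ring
  rw [h7]
  have hb' : w.Ge (w b) b := fun _ => le_rfl
  have ha' : w.Ge (w a) a₀ := fun _ => h2.ge
  exact ((h3.mul hb').mono (by linarith)).add ((ha'.mul h6).mono (by linarith))

theorem Cl.inv (ha : a ∈ Cl w F) : a⁻¹ ∈ Cl w F := by
  intro c
  by_cases ha0 : a = 0
  · exact ⟨0, F.zero_mem, by rw [ha0, inv_zero, sub_zero]; exact RVal.Ge.zero⟩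
  obtain ⟨a₀, ha₀, h1, h2, h3⟩ := Cl.exists_val ha (c + 2 * w a) ha0
  refine ⟨a₀⁻¹, F.inv_mem ha₀, ?_⟩
  have h4 : a⁻¹ - a₀⁻¹ = -(a - a₀) * (a⁻¹ * a₀⁻¹) := by field_simp; ring
  rw [h4]
  have h5 : w.Ge (-(2 * w a)) (a⁻¹ * a₀⁻¹) := fun _ => by
    rw [w.map_mul (inv_ne_zero ha0) (inv_ne_zero h1), w.map_inv ha0, w.map_inv h1, h2]
    linarith
  exact (h3.neg.mul h5).mono (by linarith)

/-- The closure of `F` as a field. -/
def clF (w : RVal Ω) (F : Subfield Ω) : Subfield Ω where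
  carrier := Cl w F
  mul_mem' := Cl.mul
  one_mem' := Cl.subset F.one_mem
  add_mem' := Cl.add
  zero_mem' := Cl.subset F.zero_mem
  neg_mem' := Cl.neg
  inv_mem' _ := Cl.inv

theorem mem_clF : a ∈ clF w F ↔ a ∈ Cl w F := Iff.rfl

theorem le_clF : F ≤ clF w F := fun _ => Cl.subset

theorem cl_cl (h : a ∈ Cl w (clF w F)) : a ∈ Cl w F := by
  intro c
  obtain ⟨a₁, h1, h2⟩ := h c
  obtain ⟨a₂, h3, h4⟩ := (mem_clF.1 h1) c
  exact ⟨a₂, h3, by rw [← sub_add_sub_cancel a a₁ a₂]; exact h2.add h4⟩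

end Pool.Agent.LUC
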