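import Pool.Agent.Lib.LUC.Loc

/-! # Etale data -/

set_option autoImplicit false

namespace Pool.Agent.LUC

open Pool.Agent.H15JM (RVal)
open Pool.Agent.LU1 (VPos)
open Polynomial

universe u

variable {Ω : Type u} [Field Ω]

/-- The minimal polynomial of `θ` over `K` has coefficients of value `≥ 0`, its derivative has value zero at `θ`, and
`θ - 1` has positive value. -/
structure EtData (w : RVal Ω) (K : Subfield Ω) (θ : Ω) : Prop where
  int : IsIntegral K θ
  coeff : ∀ i, w.Ge 0 ((minpoly K θ).coeff i : Ω)
  der_ne : aeval θ (derivative (minpoly K θ)) ≠ 0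
  der : w (aeval θ (derivative (minpoly K θ))) = 0
  one : VPos w (θ - 1)

end Pool.Agent.LUC
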