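import Pool.Agent.Lib.LUC.Asc9

/-!
# Ascent of log uniformization to separable extensions in the completion
-/

set_option autoImplicit false

namespace Pool.Agent.LUC

open Pool.Agent.LUM (locV IsChart IsPar Mono LUat IsFrac LU)
open Polynomial

universe u

section Frac

variable {k K : Type u} [CommRing k] [Field K] [Algebra k K] {A : Subalgebra k K}

private theorem fr_add {x y : K} (hx : ∃ a ∈ A, ∃ b ∈ A, b ≠ 0 ∧ x = a / b)
    (hy : ∃ a ∈ A, ∃ b ∈ A, b ≠ 0 ∧ y = a / b) : ∃ a ∈ A, ∃ b ∈ A, b ≠ 0 ∧ x + y = a / b := by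
  obtain ⟨a, ha, b, hb, hb0, rfl⟩ := hx
  obtain ⟨c, hc, d, hd, hd0, rfl⟩ := hy
  exact ⟨a * d + b * c, A.add_mem (A.mul_mem ha hd) (A.mul_mem hb hc), b * d,
    A.mul_mem hb hd, mul_ne_zero hb0 hd0, by rw [div_add_div _ _ hb0 hd0]⟩

private theorem fr_mul {x y : K} (hx : ∃ a ∈ A, ∃ b ∈ A, b ≠ 0 ∧ x = a / b)
    (hy : ∃ a ∈ A, ∃ b ∈ A, b ≠ 0 ∧ y = a / b) : ∃ a ∈ A, ∃ b ∈ A, b ≠ 0 ∧ x * y = a / b := by
  obtain ⟨a, ha, b, hb, hb0, rfl⟩ := hx
  obtain ⟨c, hc, d, hd, hd0, rfl⟩ := hy
  exact ⟨a * c, A.mul_mem ha hc, b * d, A.mul_mem hb hd, mul_ne_zero hb0 hd0,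
    by rw [div_mul_div_comm]⟩

private theorem fr_div {x y : K} (hy0 : y ≠ 0) (hx : ∃ a ∈ A, ∃ b ∈ A, b ≠ 0 ∧ x = a / b)
    (hy : ∃ a ∈ A, ∃ b ∈ A, b ≠ 0 ∧ y = a / b) : ∃ a ∈ A, ∃ b ∈ A, b ≠ 0 ∧ x / y = a / b := by
  obtain ⟨a, ha, b, hb, hb0, rfl⟩ := hx
  obtain ⟨c, hc, d, hd, hd0, rfl⟩ := hy
  have hc0 : c ≠ 0 := by
    rintro rfl
    exact hy0 (zero_div _)
  exact ⟨a * d, A.mul_mem ha hd, b * c, A.mul_mem hb hc, mul_ne_zero hb0 hc0,
    by rw [div_div_div_eq]⟩

private theorem fr_mem {x : K} (hx : x ∈ A) : ∃ a ∈ A, ∃ b ∈ A, b ≠ 0 ∧ x = a / b :=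
  ⟨x, hx, 1, A.one_mem, one_ne_zero, (div_one x).symm⟩

/-- A simple extension of a finitely generated field. -/
theorem FGField.simple {F : Type u} [Field F] [Algebra k F] (hF : FGField k F) (j : F →ₐ[k] K)
    {θ : K} (hθ : IsSimple (j : F →+* K) θ) : FGField k K := by
  classical
  obtain ⟨S, hS⟩ := hF
  refine ⟨S.image j ∪ {θ}, ?_⟩
  set A := Algebra.adjoin k ((S.image j ∪ {θ} : Finset K) : Set K) with hA
  have h1 : ∀ a ∈ Algebra.adjoin k (S : Set F), j a ∈ A := by
    intro a ha
    induction ha using Algebra.adjoin_induction with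
    | mem x hx =>
      exact Algebra.subset_adjoin (Finset.mem_coe.2
        (Finset.mem_union_left _ (Finset.mem_image_of_mem _ hx)))
    | algebraMap c => rw [AlgHom.commutes]; exact A.algebraMap_mem c
    | add x y _ _ hx hy => rw [map_add]; exact A.add_mem hx hy
    | mul x y _ _ hx hy => rw [map_mul]; exact A.mul_mem hx hy
  have h2 : ∀ a : F, ∃ x ∈ A, ∃ y ∈ A, y ≠ 0 ∧ j a = x / y := by
    intro a
    obtain ⟨b, hb, c, hc, hc0, rfl⟩ := hS a
    exact ⟨j b, h1 b hb, j c, h1 c hc, (_root_.map_ne_zero j).2 hc0, map_div₀ j b c⟩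
  have hθA : θ ∈ A := Algebra.subset_adjoin (Finset.mem_coe.2
    (Finset.mem_union_right _ (Finset.mem_singleton_self _)))
  have h3 : ∀ P : Polynomial F, ∃ x ∈ A, ∃ y ∈ A, y ≠ 0 ∧
      eval₂ (j : F →+* K) θ P = x / y := by
    intro P
    induction P using Polynomial.induction_on with
    | C a => rw [eval₂_C]; exact h2 a
    | add P Q hP hQ => rw [eval₂_add]; exact fr_add hP hQ
    | monomial n a _ =>
      rw [eval₂_mul, eval₂_C, eval₂_X_pow]
      exact fr_mul (h2 a) (fr_mem (A.pow_mem hθA _))
  intro φ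
  obtain ⟨G, H, hH, rfl⟩ := hθ.gen φ
  exact fr_div hH (h3 G) (h3 H)

end Frac

/-- The property `Q` of the valuation rings of the finitely generated fields over `k` ascends to
simple extensions in the completion. -/
def Ascends (k : Type u) [CommRing k]
    (Q : ∀ (L : Type u) [Field L] [Algebra k L], ValuationSubring L → Prop) : Prop :=
  ∀ (F K : Type u) [Field F] [Field K] [Algebra k F] [Algebra k K] (V₁ : ValuationSubring F)
    (V : ValuationSubring K) (j : F →ₐ[k] K), (∀ x, x ∈ V₁ ↔ j x ∈ V) → FGField k F →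
    DenseIn V (j : F →+* K) → ∀ θ : K, IsSimple (j : F →+* K) θ → Q F V₁ → Q K V

theorem ascends_lu (k : Type u) [CommRing k] [IsNoetherianRing k] :
    Ascends k (fun _ _ _ V => LU k V) :=
  fun _ _ _ _ _ _ _ _ _ hj hF hd _ hθ h => lu_simple hj hF hd hθ h

theorem ascends_lur (k : Type u) [CommRing k] [IsNoetherianRing k] :
    Ascends k (fun _ _ _ V => LUrV k V) :=
  fun _ _ _ _ _ _ _ _ _ hj hF hd _ hθ h => lur_simple hj hF hd hθ h

section Induction

variable {k F K : Type u} [CommRing k] [Field F] [Field K] [Algebra k F] [Algebra k K]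
  [Algebra F K] [IsScalarTower k F K]

private theorem dense_sub {V : ValuationSubring K} (hd : DenseIn V (algebraMap F K))
    (E : IntermediateField F K) {L : Type u} [Field L] (j : L →+* E)
    (hj : ∀ c : F, ∃ l : L, j l = algebraMap F E c) :
    DenseIn (V.comap (algebraMap E K)) j := by
  intro a b hb
  obtain ⟨c, hc⟩ := hd a b (by simpa using hb)
  obtain ⟨l, hl⟩ := hj c
  refine ⟨l, ?_⟩
  have h1 : ∀ x : E, x ∈ V.comap (algebraMap E K) ↔ (algebraMap E K) x ∈ V := fun x =>
    ValuationSubring.mem_comap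
  rw [ext_lt h1, map_sub, hl, ← IsScalarTower.algebraMap_apply F E K]
  exact hc

private theorem asc_step {Q : ∀ (L : Type u) [Field L] [Algebra k L], ValuationSubring L → Prop}
    (hQ : Ascends k Q) (V : ValuationSubring K) (hd : DenseIn V (algebraMap F K))
    (E E' : IntermediateField F K) (hle : E ≤ E') (a : K) (haE' : a ∈ E')
    (hgen : ∀ φ ∈ E', φ ∈ IntermediateField.adjoin E {a})
    (htr : Transcendental E a)
    (hFG : FGField k E) (h : Q E (V.comap (algebraMap E K))) :
    FGField k E' ∧ Q E' (V.comap (algebraMap E' K)) := by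
  let j : E →ₐ[k] E' := (IntermediateField.inclusion hle).restrictScalars k
  have hj0 : ∀ x : E, ((j x : E') : K) = x := fun x => rfl
  have hj : ∀ x, x ∈ V.comap (algebraMap E K) ↔ j x ∈ V.comap (algebraMap E' K) := by
    intro x
    rw [ValuationSubring.mem_comap, ValuationSubring.mem_comap]
    rfl
  have hev : ∀ P : Polynomial E, ((eval₂ (j : E →+* E') ⟨a, haE'⟩ P : E') : K) = aeval a P := by
    intro P
    rw [aeval_def]
    have h1 := hom_eval₂ P (j : E →+* E') (algebraMap E' K) ⟨a, haE'⟩
    exact h1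
  have hsimple : IsSimple (j : E →+* E') ⟨a, haE'⟩ := by
    refine ⟨fun φ => ?_, Or.inl fun P hP => ?_⟩
    · obtain ⟨r, s, hrs⟩ := (IntermediateField.mem_adjoin_simple_iff E _).1 (hgen φ φ.2)
      by_cases hs : aeval a s = 0
      · refine ⟨0, 1, by simp, ?_⟩
        apply Subtype.ext
        rw [hs, div_zero] at hrs
        rw [hrs]
        simp
      · refine ⟨r, s, ?_, ?_⟩
        · intro h0
          apply hs
          rw [← hev s, h0]
          rfl
        · apply Subtype.ext
          rw [hrs, ← hev r, ← hev s]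
          rfl
    · by_contra hP0
      refine htr ⟨P, hP0, ?_⟩
      rw [← hev P, hP]
      rfl
  refine ⟨hFG.simple j hsimple, ?_⟩
  refine hQ E E' (V.comap (algebraMap E K)) (V.comap (algebraMap E' K)) j hj hFG ?_ _ hsimple h
  exact dense_sub hd E' (j : E →+* E') fun c => ⟨algebraMap F E c, rfl⟩

private theorem asc_base {Q : ∀ (L : Type u) [Field L] [Algebra k L], ValuationSubring L → Prop}
    (hQ : Ascends k Q) (V : ValuationSubring K) (hd : DenseIn V (algebraMap F K))
    (hFG : FGField k F) (h : Q F (V.comap (algebraMap F K))) :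
    FGField k (IntermediateField.adjoin F (∅ : Set K)) ∧
      Q (IntermediateField.adjoin F (∅ : Set K))
        (V.comap (algebraMap (IntermediateField.adjoin F (∅ : Set K)) K)) := by
  set E := IntermediateField.adjoin F (∅ : Set K) with hE
  let j : F →ₐ[k] E := (Algebra.ofId F E).restrictScalars k
  have hj : ∀ x, x ∈ V.comap (algebraMap F K) ↔ j x ∈ V.comap (algebraMap E K) := by
    intro x
    rw [ValuationSubring.mem_comap, ValuationSubring.mem_comap]
    rfl
  have hsimple : IsSimple (j : F →+* E) 0 := by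
    refine ⟨fun φ => ?_, Or.inr ⟨X, by simp, by simp⟩⟩
    have h2 : ∀ x : K, x ∈ E → x ∈ (⊥ : IntermediateField F K) := by
      rw [hE, IntermediateField.adjoin_empty]
      exact fun x hx => hx
    have h1 : (φ : K) ∈ (⊥ : IntermediateField F K) := h2 φ φ.2
    obtain ⟨c, hc⟩ := IntermediateField.mem_bot.1 h1
    refine ⟨C c, 1, by simp, ?_⟩
    apply Subtype.ext
    rw [← hc]
    simp only [eval₂_C, eval₂_one, div_one]
    rfl
  refine ⟨hFG.simple j hsimple, ?_⟩
  refine hQ F E (V.comap (algebraMap F K)) (V.comap (algebraMap E K)) j hj hFG ?_ _ hsimple h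
  exact dense_sub hd E (j : F →+* E) fun c => ⟨c, rfl⟩

private theorem asc_trans {Q : ∀ (L : Type u) [Field L] [Algebra k L], ValuationSubring L → Prop}
    (hQ : Ascends k Q) (V : ValuationSubring K) (hd : DenseIn V (algebraMap F K))
    (hFG : FGField k F) (h : Q F (V.comap (algebraMap F K))) (s : Finset K)
    (hs : AlgebraicIndependent F (Subtype.val : s → K)) (t : Finset K) :
    t ⊆ s → FGField k (IntermediateField.adjoin F (t : Set K)) ∧
      Q (IntermediateField.adjoin F (t : Set K))
        (V.comap (algebraMap (IntermediateField.adjoin F (t : Set K)) K)) := by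
  classical
  induction t using Finset.induction_on with
  | empty =>
    intro _
    rw [Finset.coe_empty]
    exact asc_base hQ V hd hFG h
  | insert a t ha ih =>
    intro hts
    obtain ⟨h1, h2⟩ := ih ((Finset.subset_insert _ _).trans hts)
    refine asc_step hQ V hd _ _ ?_ a ?_ ?_ ?_ h1 h2
    · rw [Finset.coe_insert]
      exact IntermediateField.adjoin.mono _ _ _ (Set.subset_insert _ _)
    · exact IntermediateField.subset_adjoin _ _ (by simp)
    · intro φ hφ
      have h3 := IntermediateField.adjoin_adjoin_left F (t : Set K) {a}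
      rw [Finset.coe_insert, Set.insert_eq, Set.union_comm, ← h3] at hφ
      exact hφ
    · have has : a ∈ s := hts (Finset.mem_insert_self _ _)
      have h4 := hs.transcendental_adjoin (s := {i : s | (i : K) ∈ t}) (i := ⟨a, has⟩) (by
        intro h5
        exact ha h5)
      have h6 : (Subtype.val : s → K) '' {i : s | (i : K) ∈ t} = (t : Set K) := by
        ext x
        constructor
        · rintro ⟨i, hi, rfl⟩
          exact hi
        · intro hx
          exact ⟨⟨x, hts (Finset.mem_insert_of_mem hx)⟩, hx, rfl⟩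
      rw [h6] at h4
      exact IntermediateField.transcendental_adjoin_iff.2 h4

/-- The ascent theorem: a property that ascends to simple extensions in the completion ascends to
all separable extensions in the completion. -/
theorem ascent {Q : ∀ (L : Type u) [Field L] [Algebra k L], ValuationSubring L → Prop}
    (hQ : Ascends k Q) (V : ValuationSubring K) (hd : DenseIn V (algebraMap F K))
    (hFG : FGField k F) (hK : FGField k K) (s : Finset K)
    (hs : AlgebraicIndependent F (Subtype.val : s → K))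
    (hsep : Algebra.IsSeparable (IntermediateField.adjoin F (s : Set K)) K)
    (h : Q F (V.comap (algebraMap F K))) : Q K V := by
  classical
  obtain ⟨h1, h2⟩ := asc_trans hQ V hd hFG h s hs s subset_rfl
  set E := IntermediateField.adjoin F (s : Set K) with hE
  obtain ⟨S, hS⟩ := hK
  have htop : IntermediateField.adjoin E (S : Set K) = ⊤ := by
    rw [eq_top_iff]
    intro φ _
    have h3 : ∀ a ∈ Algebra.adjoin k (S : Set K), a ∈ IntermediateField.adjoin E (S : Set K) := by
      intro a ha
      induction ha using Algebra.adjoin_induction with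
      | mem x hx => exact IntermediateField.subset_adjoin _ _ hx
      | algebraMap c =>
        rw [IsScalarTower.algebraMap_apply k F K]
        exact (IntermediateField.adjoin E (S : Set K)).algebraMap_mem (algebraMap F E _)
      | add x y _ _ hx hy => exact add_mem hx hy
      | mul x y _ _ hx hy => exact mul_mem hx hy
    obtain ⟨a, ha, b, hb, -, rfl⟩ := hS φ
    exact div_mem (h3 a ha) (h3 b hb)
  have hfin : FiniteDimensional E K := by
    have h4 : FiniteDimensional E (IntermediateField.adjoin E (S : Set K)) :=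
      IntermediateField.finiteDimensional_adjoin fun x _ =>
        (Algebra.IsSeparable.isSeparable E x).isIntegral
    rw [htop] at h4
    exact IntermediateField.topEquiv.toLinearEquiv.finiteDimensional
  obtain ⟨θ, hθ⟩ := Field.exists_primitive_element E K
  have hcomm : ∀ c : k, algebraMap E K (algebraMap k E c) = algebraMap k K c := fun c => rfl
  let j : E →ₐ[k] K := { toRingHom := algebraMap E K, commutes' := hcomm }
  have hjE : (j : E →+* K) = algebraMap E K := rfl
  have hsimple : IsSimple (j : E →+* K) θ := by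
    refine ⟨fun φ => ?_, Or.inr ⟨minpoly E θ, ?_, ?_⟩⟩
    · obtain ⟨r, s, hrs⟩ := (IntermediateField.mem_adjoin_simple_iff E φ).1 (by
        rw [hθ]
        exact IntermediateField.mem_top)
      by_cases hs : aeval θ s = 0
      · refine ⟨0, 1, by simp, ?_⟩
        rw [hs, div_zero] at hrs
        rw [hrs]
        simp
      · exact ⟨r, s, hs, hrs⟩
    · exact minpoly.aeval E θ
    · exact (Algebra.IsSeparable.isSeparable E θ).aeval_derivative_ne_zero (minpoly.aeval E θ)
  refine hQ E K (V.comap (algebraMap E K)) V j (fun x => ?_) h1 ?_ θ hsimple h2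
  · rw [ValuationSubring.mem_comap]
    rfl
  · intro a b hb
    obtain ⟨c, hc⟩ := hd a b hb
    exact ⟨algebraMap F E c, hc⟩

end Induction

end Pool.Agent.LUC
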