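import Pool.Agent.Lib.LUC.C5

/-! # M1: a regular system of parameters through a given element

Recipe. The class of `p` in the cotangent space is not 0, so it is part of a basis (`IsLocalRing.CotangentSpace`, `finrank = m + 1`:
`IsRegularLocalRing.iff_finrank_cotangentSpace`; lifts of a basis of the cotangent space generate the maximal ideal by Nakayama); or: a
generating family `z : Fin (m + 1) → S` of the maximal ideal (as in row C7, luc_C7.lean), `p = ∑ c i * z i`, some `c i` is a unit since
`p ∉ m_S^2`: replace `z i` by `p`; `y` = the others (`Fin.succAbove`). All are different from 0 (otherwise `m` elements generate the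
maximal ideal, against `ringKrullDim S = m + 1`: `ringKrullDim_le_spanFinrank_maximalIdeal`). -/

set_option autoImplicit false

namespace Pool.Agent.LUC

open Pool.Agent.H15JM (RVal)
open Pool.Agent.LU1 (VPos)

universe u

private theorem dim_le_card {S : Type u} [CommRing S] [IsRegularLocalRing S] {m : ℕ}
    (hdim : ringKrullDim S = ((m + 1 : ℕ) : WithBot ℕ∞)) (s : Finset S)
    (hs : Ideal.span (s : Set S) = IsLocalRing.maximalIdeal S) : m + 1 ≤ s.card := by
  have h1 := ringKrullDim_le_spanFinrank_maximalIdeal (R := S)
  rw [hdim] at h1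
  have h2 : m + 1 ≤ (IsLocalRing.maximalIdeal S).spanFinrank := by exact_mod_cast h1
  have h3 := Submodule.spanFinrank_span_le_ncard_of_finite (R := S) (s := (s : Set S)) s.finite_toSet
  rw [Set.ncard_coe_finset] at h3
  change (Ideal.span (s : Set S)).spanFinrank ≤ s.card at h3
  rw [hs] at h3
  omega

theorem exists_params_mem {S : Type u} [CommRing S] [IsRegularLocalRing S] {m : ℕ}
    (hdim : ringKrullDim S = ((m + 1 : ℕ) : WithBot ℕ∞)) (p : S)
    (hp : p ∈ IsLocalRing.maximalIdeal S) (hp2 : p ∉ IsLocalRing.maximalIdeal S ^ 2) :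
    ∃ y : Fin m → S, IsLocalRing.maximalIdeal S =
      Ideal.span (Set.range (Fin.cons p y : Fin (m + 1) → S)) ∧ p ≠ 0 ∧ ∀ i, y i ≠ 0 := by
  classical
  have h0 : (IsLocalRing.maximalIdeal S).spanFinrank = m + 1 := by
    have h1 := IsRegularLocalRing.spanFinrank_maximalIdeal (R := S)
    rw [hdim] at h1
    exact_mod_cast h1
  obtain ⟨s, hs1, hs2⟩ := (IsNoetherian.noetherian
    (IsLocalRing.maximalIdeal S)).exists_span_finset_card_eq_spanFinrank
  rw [h0] at hs1
  have e : Fin (m + 1) ≃ s := (finCongr hs1.symm).trans s.equivFin.symm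
  set z : Fin (m + 1) → S := fun i => (e i : S) with hz
  have hr : Set.range z = (s : Set S) := by
    ext a
    constructor
    · rintro ⟨i, rfl⟩
      exact (e i).2
    · intro ha
      exact ⟨e.symm ⟨a, ha⟩, by simp [hz]⟩
  have hspan : Ideal.span (Set.range z) = IsLocalRing.maximalIdeal S := by
    rw [hr]
    exact hs2
  have hp' := hp
  rw [← hspan, Ideal.mem_span_range_iff_exists_fun] at hp'
  obtain ⟨c, hc⟩ := hp'
  have hu : ∃ i, IsUnit (c i) := by
    by_contra hcon
    push Not at hcon
    apply hp2
    rw [← hc, pow_two]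
    refine Ideal.sum_mem _ fun i _ => Ideal.mul_mem_mul ?_ ?_
    · exact (IsLocalRing.mem_maximalIdeal _).2 (hcon i)
    · rw [← hspan]
      exact Ideal.subset_span ⟨i, rfl⟩
  obtain ⟨i, hi⟩ := hu
  have hzm : ∀ j, z j ∈ IsLocalRing.maximalIdeal S := fun j => by
    rw [← hspan]
    exact Ideal.subset_span ⟨j, rfl⟩
  have hmain : IsLocalRing.maximalIdeal S =
      Ideal.span (Set.range (Fin.cons p (fun j => z (i.succAbove j)) : Fin (m + 1) → S)) := by
    apply le_antisymm
    · rw [← hspan, Ideal.span_le]
      have hy : ∀ j, z (i.succAbove j) ∈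
          Ideal.span (Set.range (Fin.cons p (fun j => z (i.succAbove j)) : Fin (m + 1) → S)) := fun j =>
        Ideal.subset_span ⟨j.succ, by simp⟩
      have hpp : p ∈ Ideal.span (Set.range (Fin.cons p (fun j => z (i.succAbove j)) : Fin (m + 1) → S)) :=
        Ideal.subset_span ⟨0, by simp⟩
      rintro _ ⟨j, rfl⟩
      by_cases hj : j = i
      · subst hj
        have h1 : c j * z j ∈
            Ideal.span (Set.range (Fin.cons p (fun k => z (j.succAbove k)) : Fin (m + 1) → S)) := by
          have h2 : c j * z j = p - ∑ k : Fin m, c (j.succAbove k) * z (j.succAbove k) := by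
            rw [← hc, Fin.sum_univ_succAbove _ j]
            ring
          rw [h2]
          exact Ideal.sub_mem _ hpp (Ideal.sum_mem _ fun k _ => Ideal.mul_mem_left _ _ (hy k))
        obtain ⟨v, hv⟩ := hi
        rw [← hv] at h1
        have h3 := Ideal.mul_mem_left _ (↑v⁻¹ : S) h1
        rwa [← mul_assoc, Units.inv_mul, one_mul] at h3
      · obtain ⟨k, rfl⟩ := Fin.exists_succAbove_eq hj
        exact hy k
    · rw [Ideal.span_le]
      rintro _ ⟨j, rfl⟩
      refine Fin.cases ?_ (fun k => ?_) j
      · simpa using hp
      · simpa using hzm _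
  refine ⟨fun j => z (i.succAbove j), hmain, ?_, ?_⟩
  · rintro rfl
    exact hp2 (Ideal.zero_mem _)
  · intro j hj
    set w : Fin (m + 1) → S := Fin.cons p (fun j => z (i.succAbove j)) with hw
    have hwj : w j.succ = 0 := by simpa [hw] using hj
    set t : Finset S := (Finset.univ.erase j.succ).image w with ht
    have h1 : Ideal.span (t : Set S) = IsLocalRing.maximalIdeal S := by
      rw [hmain]
      apply le_antisymm
      · rw [Ideal.span_le]
        intro a ha
        rw [ht, Finset.coe_image] at ha
        obtain ⟨k, -, rfl⟩ := ha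
        exact Ideal.subset_span ⟨k, rfl⟩
      · rw [Ideal.span_le]
        rintro _ ⟨k, rfl⟩
        by_cases hk : k = j.succ
        · rw [hk, hwj]
          exact Ideal.zero_mem _
        · apply Ideal.subset_span
          rw [ht, Finset.coe_image]
          exact ⟨k, by simp [hk], rfl⟩
    have h2 := dim_le_card hdim t h1
    have h3 : t.card ≤ m := by
      refine Finset.card_image_le.trans ?_
      rw [Finset.card_erase_of_mem (Finset.mem_univ _), Finset.card_univ, Fintype.card_fin]
      omega
    omega

end Pool.Agent.LUC
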