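import Pool.Agent.Lib.LUC.C4

/-! # M4: independence of the parameters over an unramified discrete valuation ring

Recipe. Let `P ≠ 0` over `Λ` with `P(y) = 0`; divide by a power of `ϖ` (`S` is a domain, `Λ → S` injective): some coefficient of
`P` is a unit. `Sb = S ⧸ (ϖ)` is local noetherian, its maximal ideal is generated by the images of the `y i`,
`ringKrullDim Sb ≥ m` (Krull; see row C3, luc_C3.lean). `N` = the least degree of the monomials of `P` with unit coefficient,
`F` = the sum of the terms of degree `N` of the image of `P` over `Sb`, homogeneous of degree `N`; its image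
`F(y) ∈ m^(N+1)` (the image of `P` over `Sb` has no terms of degree `< N`: their coefficients are in `(ϖ)`, and its
value at `y` is 0): against `quasi_regular` (row C4, a stub here) for `Sb`. -/

set_option autoImplicit false

namespace Pool.Agent.LUC

universe u

/-- The sum of the terms of least degree of a polynomial that vanishes at a regular system of
parameters. -/
private theorem m4_core {R : Type u} [CommRing R] [IsNoetherianRing R] [IsLocalRing R] {m : ℕ}
    (x : Fin m → R) (hx : IsLocalRing.maximalIdeal R = Ideal.span (Set.range x))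
    (hdim : ((m : ℕ) : WithBot ℕ∞) ≤ ringKrullDim R) (G : MvPolynomial (Fin m) R)
    (hG : MvPolynomial.eval x G = 0) (N : ℕ)
    (hN : ∀ a : Fin m →₀ ℕ, a.degree < N → G.coeff a = 0) (a : Fin m →₀ ℕ)
    (ha : a.degree = N) : G.coeff a ∈ IsLocalRing.maximalIdeal R := by
  classical
  have hk : ∀ i, x i ∈ IsLocalRing.maximalIdeal R := by
    intro i
    rw [hx]
    exact Ideal.subset_span ⟨i, rfl⟩
  have hterm : ∀ (F : MvPolynomial (Fin m) R) (j : ℕ), F.IsHomogeneous j →
      MvPolynomial.eval x F ∈ IsLocalRing.maximalIdeal R ^ j := by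
    intro F j hF
    rw [hx]
    exact (Ideal.mem_span_pow_iff_exists_isHomogeneous x _).mpr ⟨F, hF, rfl⟩
  have hsum := MvPolynomial.sum_homogeneousComponent (φ := G)
  have h0 : ∑ i ∈ Finset.range (G.totalDegree + 1),
      MvPolynomial.eval x (MvPolynomial.homogeneousComponent i G) = 0 := by
    rw [← map_sum, hsum, hG]
  have hmem : MvPolynomial.eval x (MvPolynomial.homogeneousComponent N G) ∈
      IsLocalRing.maximalIdeal R ^ (N + 1) := by
    by_cases hNd : N ∈ Finset.range (G.totalDegree + 1)
    · rw [← Finset.add_sum_erase _ _ hNd] at h0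
      have h1 : MvPolynomial.eval x (MvPolynomial.homogeneousComponent N G) =
          - ∑ i ∈ (Finset.range (G.totalDegree + 1)).erase N,
            MvPolynomial.eval x (MvPolynomial.homogeneousComponent i G) := by
        linear_combination h0
      rw [h1]
      refine neg_mem (Ideal.sum_mem _ fun i hi => ?_)
      obtain ⟨hi1, -⟩ := Finset.mem_erase.mp hi
      rcases Nat.lt_or_ge i N with h2 | h2
      · have h3 : MvPolynomial.homogeneousComponent i G = 0 := by
          apply MvPolynomial.homogeneousComponent_eq_zero'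
          intro d hd hdi
          rw [MvPolynomial.mem_support_iff] at hd
          exact hd (hN d (by omega))
        rw [h3, map_zero]
        exact zero_mem _
      · have h3 : N + 1 ≤ i := by omega
        exact Ideal.pow_le_pow_right h3 (hterm _ i (MvPolynomial.homogeneousComponent_isHomogeneous i G))
    · have h3 : MvPolynomial.homogeneousComponent N G = 0 := by
        apply MvPolynomial.homogeneousComponent_eq_zero
        rw [Finset.mem_range] at hNd
        omega
      rw [h3, map_zero]
      exact zero_mem _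
  have h4 := quasi_regular x hx hdim N _ (MvPolynomial.homogeneousComponent_isHomogeneous N G)
    hmem a
  rwa [MvPolynomial.coeff_homogeneousComponent, if_pos ha] at h4

theorem algInd_params {Λ S : Type u} [CommRing Λ] [IsDomain Λ] [IsDiscreteValuationRing Λ]
    [CommRing S] [IsDomain S] [IsNoetherianRing S] [IsLocalRing S] [Algebra Λ S]
    [FaithfulSMul Λ S] {m : ℕ} (hdim : ((m + 1 : ℕ) : WithBot ℕ∞) ≤ ringKrullDim S) {ϖ : Λ}
    (hϖ : Irreducible ϖ) (y : Fin m → S)
    (hy : IsLocalRing.maximalIdeal S =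
      Ideal.span (Set.range (Fin.cons (algebraMap Λ S ϖ) y : Fin (m + 1) → S))) :
    AlgebraicIndependent Λ y := by
  classical
  rw [algebraicIndependent_iff]
  intro P hP
  by_contra hP0
  have hprime : Prime (MvPolynomial.C ϖ : MvPolynomial (Fin m) Λ) :=
    (MvPolynomial.prime_C_iff (Fin m)).mpr hϖ.prime
  obtain ⟨n, Q, hQ, hPQ⟩ := WfDvdMonoid.max_power_factor hP0 hprime.irreducible
  have hinj : Function.Injective (algebraMap Λ S) := FaithfulSMul.algebraMap_injective Λ S
  have hϖS : algebraMap Λ S ϖ ≠ 0 := by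
    intro h
    exact hϖ.ne_zero (hinj (by rw [h, map_zero]))
  have hQ0 : MvPolynomial.aeval y Q = 0 := by
    rw [hPQ, map_mul, map_pow, MvPolynomial.aeval_C] at hP
    exact (mul_eq_zero.mp hP).resolve_left (pow_ne_zero _ hϖS)
  -- the quotient by `ϖ`
  have hϖm : algebraMap Λ S ϖ ∈ IsLocalRing.maximalIdeal S := by
    rw [hy]
    exact Ideal.subset_span ⟨0, rfl⟩
  set J : Ideal S := Ideal.span {algebraMap Λ S ϖ} with hJ
  have hJne : J ≠ ⊤ := by
    intro h
    have h1 : J ≤ IsLocalRing.maximalIdeal S := by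
      rw [hJ, Ideal.span_le, Set.singleton_subset_iff]
      exact hϖm
    rw [h] at h1
    exact (IsLocalRing.maximalIdeal.isMaximal S).ne_top (top_le_iff.mp h1)
  have hnt : Nontrivial (S ⧸ J) := Ideal.Quotient.nontrivial_iff.mpr hJne
  have hsurj : Function.Surjective (Ideal.Quotient.mk J) := Ideal.Quotient.mk_surjective
  have hloc : IsLocalRing (S ⧸ J) := IsLocalRing.of_surjective' _ hsurj
  have hloc2 : IsLocalHom (Ideal.Quotient.mk J) := IsLocalHom.of_surjective _ hsurj
  have hmax : IsLocalRing.maximalIdeal (S ⧸ J) =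
      Ideal.span (Set.range fun i => Ideal.Quotient.mk J (y i)) := by
    have h1 : (IsLocalRing.maximalIdeal S).map (Ideal.Quotient.mk J) =
        IsLocalRing.maximalIdeal (S ⧸ J) := by
      rw [← IsLocalRing.maximalIdeal_comap (Ideal.Quotient.mk J),
        Ideal.map_comap_of_surjective _ hsurj]
    rw [← h1, hy, Ideal.map_span]
    apply le_antisymm
    · rw [Ideal.span_le]
      rintro _ ⟨_, ⟨i, rfl⟩, rfl⟩
      induction i using Fin.cases with
      | zero =>
        have h2 : Ideal.Quotient.mk J (algebraMap Λ S ϖ) = 0 :=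
          Ideal.Quotient.eq_zero_iff_mem.mpr (Ideal.mem_span_singleton_self _)
        rw [Fin.cons_zero, h2]
        exact zero_mem _
      | succ i =>
        rw [Fin.cons_succ]
        exact Ideal.subset_span ⟨i, rfl⟩
    · rw [Ideal.span_le]
      rintro _ ⟨i, rfl⟩
      exact Ideal.subset_span ⟨_, ⟨i.succ, rfl⟩, by rw [Fin.cons_succ]⟩
  have hdim' : ((m : ℕ) : WithBot ℕ∞) ≤ ringKrullDim (S ⧸ J) := by
    have h1 := ringKrullDim_le_ringKrullDim_quotient_add_card (R := S) {algebraMap Λ S ϖ} (by
      rw [Finset.coe_singleton, Set.singleton_subset_iff]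
      rw [IsLocalRing.ringJacobson_eq_maximalIdeal]
      exact hϖm)
    rw [Finset.coe_singleton, Finset.card_singleton, ← hJ] at h1
    have h2 := hdim.trans h1
    generalize ringKrullDim (S ⧸ J) = d at h2 ⊢
    induction d with
    | bot => simp at h2
    | coe d =>
      induction d with
      | top => exact le_top
      | coe d =>
        have h3 : m + 1 ≤ d + 1 := by exact_mod_cast h2
        exact_mod_cast (by omega : m ≤ d)
  -- the polynomial over the quotient
  obtain ⟨φ, hφ⟩ : ∃ φ : Λ →+* S ⧸ J, φ = (Ideal.Quotient.mk J).comp (algebraMap Λ S) := ⟨_, rfl⟩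
  have hφϖ : ∀ c : Λ, ϖ ∣ c → φ c = 0 := by
    rintro _ ⟨c, rfl⟩
    have h2 : Ideal.Quotient.mk J (algebraMap Λ S ϖ) = 0 :=
      Ideal.Quotient.eq_zero_iff_mem.mpr (Ideal.mem_span_singleton_self _)
    rw [hφ, map_mul, RingHom.comp_apply, h2, zero_mul]
  have hφu : ∀ c : Λ, ¬ ϖ ∣ c → IsUnit (φ c) := by
    intro c hc
    have h2 : IsUnit c := by
      by_contra h3
      apply hc
      have h4 : c ∈ IsLocalRing.maximalIdeal Λ := (IsLocalRing.mem_maximalIdeal c).mpr h3
      rw [hϖ.maximalIdeal_eq, Ideal.mem_span_singleton] at h4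
      exact h4
    exact h2.map φ
  have heval : MvPolynomial.eval (fun i => Ideal.Quotient.mk J (y i)) (MvPolynomial.map φ Q) = 0 := by
    rw [MvPolynomial.eval_map, hφ]
    have h3 : MvPolynomial.eval₂ ((Ideal.Quotient.mk J).comp (algebraMap Λ S))
        (fun i => Ideal.Quotient.mk J (y i)) Q = Ideal.Quotient.mk J (MvPolynomial.aeval y Q) := by
      rw [MvPolynomial.aeval_def, MvPolynomial.eval₂_comp_left]
      rfl
    rw [h3, hQ0, map_zero]
  have hex : ∃ N, ∃ a : Fin m →₀ ℕ, a.degree = N ∧ ¬ ϖ ∣ Q.coeff a := by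
    rw [MvPolynomial.C_dvd_iff_dvd_coeff] at hQ
    push Not at hQ
    obtain ⟨a, ha⟩ := hQ
    exact ⟨a.degree, a, rfl, ha⟩
  obtain ⟨a, ha1, ha2⟩ := Nat.find_spec hex
  have hmin : ∀ b : Fin m →₀ ℕ, b.degree < Nat.find hex → (MvPolynomial.map φ Q).coeff b = 0 := by
    intro b hb
    rw [MvPolynomial.coeff_map]
    apply hφϖ
    by_contra h
    exact Nat.find_min hex hb ⟨b, rfl, h⟩
  have hfin := m4_core _ hmax hdim' _ heval _ hmin a ha1
  rw [MvPolynomial.coeff_map, IsLocalRing.mem_maximalIdeal] at hfin
  exact hfin (hφu _ ha2)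

end Pool.Agent.LUC
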