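import Pool.Agent.Lib.LUC.C5
import Pool.Agent.Lib.LUC.M1
import Pool.Agent.Lib.LUC.M4

/-! # M5: the base rings of a regular local ring over an unramified discrete valuation ring

Recipe. As `exists_base` (row C7, luc_C7.lean in the store when done): `ϖ, y` from `exists_params_mem`; `x = Fin.cons ϖ y` in `Ω`
(`Fin.cons` of the images is the image of `Fin.cons`), `AlgebraicIndependent Λ` of the images of the `y i` from
`algInd_params` and injectivity of `S → Ω` (`AlgebraicIndependent.map'`). `S' = (algebraMap S Ω).range ≃+* S`. `h0` of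
`base_of_regular`: an element of `Λ` in the maximal ideal of `S` is not a unit of `Λ`, so it is `ϖ * c`, `c ∈ Λ`, and
`ϖ = x 0`: `IP.gen` and `IP.mul_left`. `(algebraMap Λ Ω).range` is noetherian (`isNoetherianRing_of_surjective`). -/

set_option autoImplicit false

namespace Pool.Agent.LUC

open Pool.Agent.H15JM (RVal)
open Pool.Agent.LU1 (VPos)

universe u

theorem exists_base_mix {Λ S Ω : Type u} [CommRing Λ] [IsDomain Λ] [IsDiscreteValuationRing Λ]
    [CommRing S] [IsDomain S] [IsRegularLocalRing S] [Field Ω] [Algebra Λ S] [Algebra S Ω]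
    [Algebra Λ Ω] [IsScalarTower Λ S Ω] [FaithfulSMul Λ S]
    (hinj : Function.Injective (algebraMap S Ω)) (w : RVal Ω) {ϖ : Λ} (hϖ : Irreducible ϖ)
    (hϖ1 : algebraMap Λ S ϖ ∈ IsLocalRing.maximalIdeal S)
    (hϖ2 : algebraMap Λ S ϖ ∉ IsLocalRing.maximalIdeal S ^ 2)
    (hres : ∀ s : S, ∃ c : Λ, s - algebraMap Λ S c ∈ IsLocalRing.maximalIdeal S) {m : ℕ}
    (hdim : ringKrullDim S = ((m + 1 : ℕ) : WithBot ℕ∞))
    (hge : ∀ s : S, w.Ge 0 (algebraMap S Ω s))
    (hpos : ∀ s ∈ IsLocalRing.maximalIdeal S, VPos w (algebraMap S Ω s)) :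
    ∃ y : Fin m → Ω, AlgebraicIndependent Λ y ∧
      Base w (algebraMap Λ Ω).range (algebraMap S Ω).range
        (Fin.cons (algebraMap Λ Ω ϖ) y : Fin (m + 1) → Ω) := by
  classical
  obtain ⟨y, hy, hp0, hy0⟩ := exists_params_mem hdim (algebraMap Λ S ϖ) hϖ1 hϖ2
  have hAI : AlgebraicIndependent Λ y := algInd_params hdim.ge hϖ y hy
  -- the family in `S` and its image
  set xS : Fin (m + 1) → S := Fin.cons (algebraMap Λ S ϖ) y with hxS
  have hx : (Fin.cons (algebraMap Λ Ω ϖ) (fun i => algebraMap S Ω (y i)) : Fin (m + 1) → Ω) =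
      fun i => algebraMap S Ω (xS i) := by
    funext i
    refine Fin.cases ?_ (fun j => ?_) i
    · simp only [hxS, Fin.cons_zero]
      exact IsScalarTower.algebraMap_apply Λ S Ω ϖ
    · simp only [hxS, Fin.cons_succ]
  have hxS0 : ∀ i, xS i ≠ 0 := by
    intro i
    refine Fin.cases ?_ (fun j => ?_) i
    · simpa only [hxS, Fin.cons_zero] using hp0
    · simpa only [hxS, Fin.cons_succ] using hy0 j
  have hxSm : ∀ i, xS i ∈ IsLocalRing.maximalIdeal S := by
    intro i
    rw [hy]
    exact Ideal.subset_span ⟨i, rfl⟩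
  -- the ring
  let e : S ≃+* (algebraMap S Ω).range :=
    RingEquiv.ofBijective (algebraMap S Ω).rangeRestrict
      ⟨fun a b h => hinj (congrArg Subtype.val h), (algebraMap S Ω).rangeRestrict_surjective⟩
  have he : ∀ s, ((e s : (algebraMap S Ω).range) : Ω) = algebraMap S Ω s := fun s => rfl
  haveI : IsNoetherianRing (algebraMap S Ω).range := isNoetherianRing_of_ringEquiv S e
  haveI : IsLocalRing (algebraMap S Ω).range := e.isLocalRing
  haveI : IsNoetherianRing (algebraMap Λ Ω).range :=
    isNoetherianRing_of_surjective Λ _ (algebraMap Λ Ω).rangeRestrict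
      (algebraMap Λ Ω).rangeRestrict_surjective
  have hmax : IsLocalRing.maximalIdeal (algebraMap S Ω).range =
      idl (algebraMap S Ω).range (fun i => algebraMap S Ω (xS i)) := by
    have h1 : IsLocalRing.maximalIdeal (algebraMap S Ω).range =
        (IsLocalRing.maximalIdeal S).map (e : S →+* (algebraMap S Ω).range) := by
      ext b
      constructor
      · intro hb
        have h2 : e.symm b ∈ IsLocalRing.maximalIdeal S := by
          rw [IsLocalRing.mem_maximalIdeal, mem_nonunits_iff] at hb ⊢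
          intro hu
          exact hb (by simpa using hu.map e)
        have h3 := Ideal.mem_map_of_mem (e : S →+* (algebraMap S Ω).range) h2
        simpa using h3
      · intro hb
        rw [Ideal.mem_map_iff_of_surjective (e : S →+* (algebraMap S Ω).range) e.surjective] at hb
        obtain ⟨s, hs, rfl⟩ := hb
        rw [IsLocalRing.mem_maximalIdeal, mem_nonunits_iff] at hs ⊢
        intro hu
        refine hs ?_
        have h4 := hu.map e.symm
        simpa using h4
    rw [h1, hy, Ideal.map_span, idl]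
    congr 1
    ext b
    constructor
    · rintro ⟨_, ⟨i, rfl⟩, rfl⟩
      exact ⟨i, rfl⟩
    · rintro ⟨i, hi⟩
      exact ⟨xS i, ⟨i, rfl⟩, Subtype.ext hi.symm⟩
  have hIP : ∀ s : S, IP (algebraMap S Ω).range (fun i => algebraMap S Ω (xS i)) 1
      (algebraMap S Ω s) ↔ s ∈ IsLocalRing.maximalIdeal S := by
    intro s
    have hs : algebraMap S Ω s ∈ (algebraMap S Ω).range := ⟨s, rfl⟩
    rw [IP.iff_mem hs, pow_one, ← hmax, IsLocalRing.mem_maximalIdeal,
      IsLocalRing.mem_maximalIdeal, mem_nonunits_iff, mem_nonunits_iff, not_iff_not]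
    have h5 : (⟨algebraMap S Ω s, hs⟩ : (algebraMap S Ω).range) = e s := rfl
    rw [h5]
    constructor
    · intro hu
      have h4 := hu.map e.symm
      simpa using h4
    · intro hu
      exact hu.map e
  have hϖv : algebraMap Λ Ω ϖ = algebraMap S Ω (xS 0) := by
    rw [hxS, Fin.cons_zero, IsScalarTower.algebraMap_apply Λ S Ω ϖ]
  refine ⟨fun i => algebraMap S Ω (y i), ?_, ?_⟩
  · exact hAI.map' (f := IsScalarTower.toAlgHom Λ S Ω) hinj
  · rw [hx]
    refine base_of_regular (algebraMap Λ Ω).range (algebraMap S Ω).range ?_ _ ?_ hmax ?_ ?_ ?_ ?_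
      ?_ ?_
    · rintro _ ⟨c, rfl⟩
      exact ⟨algebraMap Λ S c, (IsScalarTower.algebraMap_apply Λ S Ω c).symm⟩
    · exact fun i => ⟨xS i, rfl⟩
    · rw [← ringKrullDim_eq_of_ringEquiv e]
      exact hdim.ge
    · rintro _ ⟨s, rfl⟩
      exact hge s
    · intro i h
      exact hxS0 i (hinj (h.trans (map_zero _).symm))
    · intro i
      exact hpos (xS i) (hxSm i) (fun h => hxS0 i (hinj (h.trans (map_zero _).symm)))
    · rintro _ ⟨s, rfl⟩
      obtain ⟨c, hc⟩ := hres s
      refine ⟨algebraMap Λ Ω c, ⟨c, rfl⟩, ?_⟩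
      rw [IsScalarTower.algebraMap_apply Λ S Ω c, ← map_sub]
      exact (hIP _).2 hc
    · rintro _ ⟨c, rfl⟩ hc
      rw [IsScalarTower.algebraMap_apply Λ S Ω c, hIP] at hc
      have hnu : ¬ IsUnit c := by
        intro hu
        rw [IsLocalRing.mem_maximalIdeal, mem_nonunits_iff] at hc
        exact hc (hu.map (algebraMap Λ S))
      have hcm : c ∈ IsLocalRing.maximalIdeal Λ := by
        rwa [IsLocalRing.mem_maximalIdeal, mem_nonunits_iff]
      rw [hϖ.maximalIdeal_eq, Ideal.mem_span_singleton] at hcm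
      obtain ⟨d, rfl⟩ := hcm
      rw [map_mul, mul_comm, hϖv]
      have h6 : algebraMap S Ω (xS 0) ∈ adj (algebraMap Λ Ω).range
          (Set.range fun i => algebraMap S Ω (xS i)) := mem_adj ⟨0, rfl⟩
      exact (IP.gen (z := fun i => algebraMap S Ω (xS i)) (i := 0) h6).mul_left
        (base_le_adj _ _ ⟨d, rfl⟩)

end Pool.Agent.LUC
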