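import Pool.Agent.Lib.LUM.M03
import Pool.Agent.Lib.LUC.LRDefs

/-! # The real case in mixed characteristic, with control of the supports -/

set_option autoImplicit false

namespace Pool.Agent.LUC

open Pool.Agent.LUM
open Pool.Agent.H15JM (RVal)
open Pool.Agent.LU1 (VPos)
open Pool.Agent.LU2 (IsR1 IndVal)
open Polynomial

universe u

theorem LUrV.of_LUF {Λ K Ω : Type u} [CommRing Λ] [IsDomain Λ] [IsDiscreteValuationRing Λ]
    [Field K] [Algebra Λ K] [Field Ω] [Algebra Λ Ω] [Algebra K Ω] [IsScalarTower Λ K Ω] {ϖ : Λ}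
    {v : RVal Ω} {r : ℕ} (h : Ctx0 ϖ v r) (V : ValuationSubring K)
    (hV : ∀ x : K, x ∈ V ↔ v.Ge 0 (algebraMap K Ω x))
    (hL : LUF Λ v r (Set.range (algebraMap K Ω))) : LUrV Λ V := by
  classical
  obtain ⟨ι, hιdef⟩ : ∃ ι : K →ₐ[Λ] Ω, ∀ x, ι x = algebraMap K Ω x :=
    ⟨IsScalarTower.toAlgHom Λ K Ω, fun _ => rfl⟩
  have hι : Function.Injective ι := ι.toRingHom.injective
  have hrel : RelV V ι.toRingHom v := fun x => by
    rw [hV x]
    show v.Ge 0 _ ↔ v.Ge 0 (ι x)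
    rw [hιdef]
  have hrng : ∀ f, f ∈ Set.range (algebraMap K Ω) ↔ ∃ x, ι x = f := by
    intro f
    simp only [hιdef, Set.mem_range]
  have hne' : ∀ s : K, ι s ≠ 0 → s ≠ 0 := by
    rintro s h rfl
    exact h (map_zero ι)
  intro A hA hAV hfrac T hT
  obtain ⟨A₀, hA₀⟩ := hA
  have hmap : Algebra.adjoin Λ ((A₀.image ι : Finset Ω) : Set Ω) = A.map ι := by
    rw [Finset.coe_image, ← AlgHom.map_adjoin, hA₀]
  obtain ⟨N, hKap, hNL, g', hg'A, hg'0, hg'M, G', hG', hR, hTM⟩ := hL (A₀.image ι) (by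
      intro a ha
      obtain ⟨a', ha', rfl⟩ := Finset.mem_image.1 ha
      refine ⟨(hrng _).2 ⟨a', rfl⟩, ?_⟩
      have h1 : a' ∈ A := by
        rw [← hA₀]
        exact Algebra.subset_adjoin ha'
      exact (hrel a').1 (hAV a' h1)) (by
      rw [hmap]
      refine ⟨?_, ?_⟩
      · rintro _ ⟨f, -, rfl⟩
        exact (hrng _).2 ⟨f, rfl⟩
      · intro f hf
        obtain ⟨x, rfl⟩ := (hrng f).1 hf
        obtain ⟨a, ha, b, hb, hb0, rfl⟩ := hfrac x
        exact ⟨ι a, ⟨a, ha, rfl⟩, ι b, ⟨b, hb, rfl⟩, (map_ne_zero ι).2 hb0, map_div₀ ι a b⟩)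
    (T.image ι) (by
      intro t ht
      obtain ⟨t', ht', rfl⟩ := Finset.mem_image.1 ht
      exact ⟨(hrng _).2 ⟨t', rfl⟩, (map_ne_zero ι).2 (hT t' ht')⟩)
  rw [hmap] at hg'A hG'
  obtain ⟨g, hgA, hgg⟩ := hg'A
  have hgg' : ι g = g' := hgg
  subst hgg'
  have hg0 : g ≠ 0 := hne' g hg'0
  obtain ⟨G, hGdef⟩ : ∃ G : Finset K, G = G'.preimage ι hι.injOn := ⟨_, rfl⟩
  have hGmem : ∀ x, x ∈ G ↔ ι x ∈ G' := fun x => by rw [hGdef, Finset.mem_preimage]
  have hGA : ∀ x ∈ G, x ∈ A := by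
    intro x hx
    obtain ⟨⟨x', hx', hxe⟩, -⟩ := hG' _ ((hGmem x).1 hx)
    have hxx : x' = x := hι hxe
    rwa [hxx] at hx'
  obtain ⟨A', hA'⟩ : ∃ A' : Subalgebra Λ K, A' =
      Algebra.adjoin Λ ((A : Set K) ∪ (fun x => x / g) '' (G : Set K)) := ⟨_, rfl⟩
  have hch : IsChart V A A' g := by
    refine ⟨hgA, hg0, G, fun x hx => ⟨hGA x hx, ?_⟩, hA'⟩
    by_cases hx0 : x = 0
    · rw [hx0, map_zero]
      exact zero_le'
    · rw [hrel.le_iff hx0 hg0]
      exact (hG' _ ((hGmem x).1 hx)).2 ((map_ne_zero ι).2 hx0)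
  have hR' : N.R = locv v (A'.map ι) := by
    rw [hR, hA', AlgHom.map_adjoin]
    congr 1
    have h1 : ι '' ((A : Set K) ∪ (fun x => x / g) '' (G : Set K)) =
        ((A.map ι : Subalgebra Λ Ω) : Set Ω) ∪ (fun x => x / ι g) '' (G' : Set Ω) := by
      rw [Set.image_union]
      congr 1
      ext z
      constructor
      · rintro ⟨_, ⟨x, hx, rfl⟩, rfl⟩
        exact ⟨ι x, (hGmem x).1 hx, (map_div₀ ι x g).symm⟩
      · rintro ⟨x, hx, rfl⟩
        obtain ⟨⟨x', hx', hxe⟩, -⟩ := hG' _ hx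
        have hxe' : ι x' = x := hxe
        subst hxe'
        exact ⟨x' / g, ⟨x', (hGmem x').2 hx, rfl⟩, map_div₀ ι x' g⟩
    rw [h1, ← hmap, adjoin_union_adjoin]
  have hmemL : ∀ s : K, s ∈ locV V A' ↔ ι s ∈ N.R := by
    intro s
    rw [hR']
    constructor
    · rintro ⟨a, ha, b, hb, hvb, rfl⟩
      have hb0 : b ≠ 0 := by
        rintro rfl
        simp at hvb
      exact ⟨ι a, ⟨a, ha, rfl⟩, ι b, ⟨b, hb, rfl⟩, (map_ne_zero ι).2 hb0,
        (hrel.eq_one_iff hb0).1 hvb, map_div₀ ι a b⟩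
    · rintro ⟨_, ⟨a, ha, rfl⟩, _, ⟨b, hb, rfl⟩, hb0, hvb, hs⟩
      have hb0' : b ≠ 0 := hne' b hb0
      refine ⟨a, ha, b, hb, (hrel.eq_one_iff hb0').2 hvb, hι ?_⟩
      rw [hs]
      exact (map_div₀ ι a b).symm
  have hex : ∀ f ∈ N.R, ∃ s, s ∈ locV V A' ∧ ι s = f := by
    intro f hf
    obtain ⟨s, rfl⟩ := (hrng f).1 (hNL f hf)
    exact ⟨s, (hmemL s).2 hf, rfl⟩
  -- the parameters
  obtain ⟨zz, hzz⟩ : ∃ zz : Fin (r + 1) → Ω, zz = Fin.cons N.y N.x := ⟨_, rfl⟩
  have hzz0 : zz 0 = N.y := by rw [hzz]; rfl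
  have hzzs : ∀ i : Fin r, zz i.succ = N.x i := fun i => by rw [hzz]; rfl
  have hzne : ∀ i, zz i ≠ 0 := by
    intro i
    refine Fin.cases ?_ (fun j => ?_) i
    · rw [hzz0]; exact N.y_ne
    · rw [hzzs]; exact N.x_ne j
  have hzmem : ∀ i, zz i ∈ N.R := by
    intro i
    refine Fin.cases ?_ (fun j => ?_) i
    · rw [hzz0]; exact N.y_mem
    · rw [hzzs]; exact N.x_mem j
  have hzpos : ∀ i, 0 < v (zz i) := by
    intro i
    refine Fin.cases ?_ (fun j => ?_) i
    · rw [hzz0]; exact N.y_pos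
    · rw [hzzs]; exact N.x_pos j
  choose z hzm hz using fun i => hex _ (hzmem i)
  have hz0 : ∀ i, z i ≠ 0 := fun i => hne' _ (by rw [hz]; exact hzne i)
  -- the ring isomorphism
  let φ : locV V A' →+* N.R :=
    { toFun := fun s => ⟨ι s, (hmemL s).1 s.2⟩
      map_one' := Subtype.ext (map_one ι)
      map_mul' := fun a b => Subtype.ext (map_mul ι _ _)
      map_zero' := Subtype.ext (map_zero ι)
      map_add' := fun a b => Subtype.ext (map_add ι _ _) }
  have hφ : Function.Bijective φ := by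
    constructor
    · intro a b hab
      have h1 : ι a = ι b := congrArg Subtype.val hab
      exact Subtype.ext (hι h1)
    · rintro ⟨f, hf⟩
      obtain ⟨s, hs, rfl⟩ := hex f hf
      exact ⟨⟨s, hs⟩, rfl⟩
  have hdim' : ringKrullDim (locV V A') = ((r + 1 : ℕ) : WithBot ℕ∞) := by
    rw [ringKrullDim_eq_of_ringEquiv (RingEquiv.ofBijective φ hφ), N.dim h hKap]
  have hpar : IsPar V (locV V A') z := by
    refine ⟨hzm, hz0, fun i => ?_, fun f hf hfv => ?_, hdim'⟩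
    · rw [hrel.lt_one_iff (hz0 i)]
      show 0 < v (ι (z i))
      rw [hz]
      exact hzpos i
    · have h1 : VPos v (ι f) := fun h0 => (hrel.lt_one_iff (hne' f h0)).1 hfv
      obtain ⟨a, ha, b, hb, hfe⟩ := N.gen _ ((hmemL f).1 hf) h1
      choose c hcm hc using fun i => hex _ (ha i)
      obtain ⟨b', hb'm, rfl⟩ := hex b hb
      refine ⟨Fin.cons b' c, ?_, hι ?_⟩
      · intro i
        refine Fin.cases ?_ (fun j => ?_) i
        · exact hb'm
        · exact hcm j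
      · rw [Fin.sum_univ_succ]
        simp only [Fin.cons_zero, Fin.cons_succ]
        rw [map_add, map_sum, map_mul, hz, hzz0, hfe, add_comm, mul_comm N.y]
        congr 1
        refine Finset.sum_congr rfl fun i _ => ?_
        rw [map_mul, hz, hzzs, hc, mul_comm]
  -- the monomials
  obtain ⟨J, hJ⟩ : ∃ J : Finset (Fin (r + 1)), J = Finset.univ.erase 0 := ⟨_, rfl⟩
  have hJ0 : ∀ i, i ∉ J → i = 0 := by
    intro i hi
    by_contra h0
    exact hi (by rw [hJ]; exact Finset.mem_erase.2 ⟨h0, Finset.mem_univ _⟩)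
  have hJ1 : ∀ i ∈ J, ∃ j : Fin r, i = j.succ := by
    intro i hi
    rw [hJ, Finset.mem_erase] at hi
    exact ⟨i.pred hi.1, (Fin.succ_pred i hi.1).symm⟩
  have hMono : ∀ t : K, N.MonoPos (ι t) → SMonoV V (locV V A') z J t := by
    rintro t ⟨n, w, hw0, hw1, hw2, hf, h1, h2, h3⟩
    obtain ⟨w', hw'm, rfl⟩ := hex w hw1
    have hw'0 : w' ≠ 0 := hne' _ hw0
    have hvw : v (ι w') = 0 := by
      have h4 : 0 ≤ v (ι w') := N.nonneg _ hw1 hw0
      have h5 : 0 ≤ v (ι w')⁻¹ := N.nonneg _ hw2 (inv_ne_zero hw0)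
      rw [v.map_inv hw0] at h5
      linarith
    have ht0 : t ≠ 0 := by
      refine hne' _ ?_
      rw [hf]
      exact mul_ne_zero (Finset.prod_ne_zero_iff.2 fun i _ => zpow_ne_zero _ (N.x_ne i)) hw0
    refine ⟨Fin.cons 0 n, w', hw'm, (hrel.eq_one_iff hw'0).2 hvw, hι ?_, ?_, ?_, ?_, ?_⟩
    · rw [Fin.prod_univ_succ]
      simp only [Fin.cons_zero, Fin.cons_succ, zpow_zero, one_mul]
      rw [map_mul, map_prod, hf]
      congr 1
      exact Finset.prod_congr rfl fun i _ => by rw [map_zpow₀, hz, hzzs]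
    · intro i hi
      rw [hJ0 i hi, Fin.cons_zero]
    · intro ht i hi
      obtain ⟨j, rfl⟩ := hJ1 i hi
      rw [Fin.cons_succ]
      exact h1 ((hrel.lt_one_iff ht0).1 ht) j
    · intro ht i hi
      obtain ⟨j, rfl⟩ := hJ1 i hi
      rw [Fin.cons_succ]
      refine h2 ?_ j
      have h4 : ¬ (0 : ℝ) ≤ v (ι t) := fun h5 => absurd ((hrel.le_one_iff ht0).2 h5) (not_le.2 ht)
      exact not_le.1 h4
    · intro ht i
      refine Fin.cases ?_ (fun j => ?_) i
      · rfl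
      · rw [Fin.cons_succ]
        exact h3 ((hrel.eq_one_iff ht0).1 ht) j
  exact ⟨A', g, hch, r + 1, z, J, hpar, hMono g hg'M,
    fun t ht => hMono t (hTM _ (Finset.mem_image_of_mem _ ht))⟩

/-- Over a discrete valuation ring. -/
theorem lur_dvr (p : ℕ) (hp : p.Prime) {Λ K : Type u} [CommRing Λ] [IsDomain Λ]
    [IsDiscreteValuationRing Λ] [CharZero Λ] [CharP (kk Λ) p] [PerfectField (kk Λ)]
    [Field K] [Algebra Λ K] (hinj : Function.Injective (algebraMap Λ K))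
    [Algebra.EssFiniteType Λ K] {ϖ : Λ} (hϖ : Irreducible ϖ) (V : ValuationSubring K)
    (hV : IsR1 V) (hΛ : ∀ c : Λ, algebraMap Λ K c ∈ V)
    (hpos : V.valuation (algebraMap Λ K ϖ) < 1) {r : ℕ} (hr : 0 < r)
    (htr : Algebra.trdeg Λ K = r) (X : Fin r → K) (hX : IndVal V X)
    (hmax : ∀ Y : Fin (r + 1) → K, ¬ IndVal V Y)
    (hres : ∀ x ∈ V, ∃ P : Polynomial Λ, P.Monic ∧ V.valuation (aeval x P) < 1) : LUrV Λ V := by
  obtain ⟨Ω, i1, i2, i3, i4, i5, v, hVv, halg, hctx, hra⟩ :=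
    exists_entry hinj hϖ V hV hΛ hpos hr htr X hX hmax hres
  have j1 : FaithfulSMul Λ K := (faithfulSMul_iff_algebraMap_injective Λ K).2 hinj
  let Q := FractionRing Λ
  let j2 : Algebra Q K := FractionRing.liftAlgebra Λ K
  have j3 : IsScalarTower Λ Q K := FractionRing.isScalarTower_liftAlgebra Λ K
  let j4 : Algebra Q Ω := ((algebraMap K Ω).comp (algebraMap Q K)).toAlgebra
  have j5 : IsScalarTower Q K Ω := IsScalarTower.of_algebraMap_eq fun _ => rfl
  have j6 : IsScalarTower Λ Q Ω := IsScalarTower.of_algebraMap_eq fun c => by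
    change algebraMap Λ Ω c = algebraMap K Ω (algebraMap Q K (algebraMap Λ Q c))
    rw [← IsScalarTower.algebraMap_apply Λ Q K, ← IsScalarTower.algebraMap_apply Λ K Ω]
  have j7 : CharZero Q := charZero_of_injective_algebraMap (IsFractionRing.injective Λ Q)
  have j8 : Algebra.EssFiniteType Q K := Algebra.EssFiniteType.of_comp Λ Q K
  let E : IntermediateField Q Ω := (IsScalarTower.toAlgHom Q K Ω).fieldRange
  have hE : (E : Set Ω) = Set.range (algebraMap K Ω) := by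
    ext x
    rfl
  have hfg : E.FG := by
    have h1 : (⊤ : IntermediateField Q K).FG := IntermediateField.fg_top Q K
    have h2 : E = IntermediateField.map (IsScalarTower.toAlgHom Q K Ω) ⊤ :=
      AlgHom.fieldRange_eq_map _
    obtain ⟨S, hS⟩ := h1
    classical
    refine ⟨S.image (algebraMap K Ω), ?_⟩
    rw [h2, ← hS, IntermediateField.adjoin_map]
    simp
  have hEalg : ∀ g : Ω, IsAlgebraic E g := by
    intro g
    obtain ⟨P, hP0, hP⟩ := halg g
    let φ : K →+* E :=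
      { toFun := fun x => ⟨algebraMap K Ω x, ⟨x, rfl⟩⟩
        map_one' := by ext; simp
        map_mul' := fun _ _ => by ext; simp
        map_zero' := by ext; simp
        map_add' := fun _ _ => by ext; simp }
    refine ⟨P.map φ, ?_, ?_⟩
    · rwa [Ne, Polynomial.map_eq_zero]
    · rw [Polynomial.aeval_def, Polynomial.eval₂_map]
      rw [Polynomial.aeval_def] at hP
      exact hP
  have hL := LUF.all p hp hctx hra E hfg hEalg
  rw [hE] at hL
  exact LUrV.of_LUF hctx V hVv hL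

end Pool.Agent.LUC
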