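import Pool.Agent.Lib.LUC.SDefs

/-! # M3: the transcendence degree of `K₀` over `Λ`

Recipe. Compare row E5 (luc_E5.lean). `R₀ = (algebraMap Λ Ω).range`, `x = Fin.cons ϖ y`. Upper bound: `K₀` is algebraic over
`Algebra.adjoin Λ (range y ∪ range t)`, as `x 0` is in the image of `Λ`. Lower bound: the family `Sum.elim y t` is algebraically
independent over `Λ`: `y` over `Λ`, and `t` over `S`, which contains `Λ[y]` (`AlgebraicIndependent` of a sum:
`AlgebraicIndependent.sumElim_iff` or similar, `AlgebraicIndependent.restrictScalars`, search); it lies in `K₀`. `essFG`: `K₀` is the field of fractions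
of the `Λ`-algebra generated by `B` (`Algebra.EssFiniteType`: of a finitely generated algebra and a localisation,
`Algebra.EssFiniteType.comp`, `.of_isLocalization`; or by the definition with `quo₀`). -/

set_option autoImplicit false

namespace Pool.Agent.LUC

open Pool.Agent.H15JM (RVal)
open Pool.Agent.LU1 (VPos)
open Polynomial

universe u

variable {Ω : Type u} [Field Ω] {w : RVal Ω} {S : Subring Ω} {m e q : ℕ} {y : Fin m → Ω}
  {t : Fin e → Ω} {K₀ K' : Subfield Ω} {B : Finset Ω} {u : Ω} {H : Polynomial Ω}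
  {Λ : Type u} [CommRing Λ] [IsDomain Λ] [IsDiscreteValuationRing Λ] [Algebra Λ Ω]

/-- The map `Λ → K₀ → Ω`. -/
private theorem m3_coe [Algebra Λ K₀] [IsScalarTower Λ K₀ Ω] (c : Λ) :
    ((algebraMap Λ K₀ c : K₀) : Ω) = algebraMap Λ Ω c := by
  rw [IsScalarTower.algebraMap_apply Λ K₀ Ω]
  rfl

/-- The elements of `adj R₀ F`, when the elements of `F` come from the subalgebra `T`. -/
private theorem m3_adj [Algebra Λ K₀] [IsScalarTower Λ K₀ Ω] (T : Subalgebra Λ K₀) {F : Set Ω}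
    (hF : ∀ f ∈ F, ∃ g ∈ T, (g : Ω) = f) {f : Ω} (hf : f ∈ adj (algebraMap Λ Ω).range F) :
    ∃ g ∈ T, (g : Ω) = f := by
  refine adj_induction (p := fun f => ∃ g ∈ T, (g : Ω) = f) ?_ hF ?_ ?_ hf
  · rintro f ⟨c, rfl⟩
    exact ⟨algebraMap Λ K₀ c, Subalgebra.algebraMap_mem _ c, m3_coe c⟩
  · rintro _ _ ⟨g, hg, rfl⟩ ⟨g', hg', rfl⟩
    exact ⟨g + g', add_mem hg hg', rfl⟩
  · rintro _ _ ⟨g, hg, rfl⟩ ⟨g', hg', rfl⟩
    exact ⟨g * g', mul_mem hg hg', rfl⟩

theorem Setup.trdeg_mix {ϖ : Λ} {α : Fin q → Ω}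
    (h : Setup w (algebraMap Λ Ω).range S (Fin.cons (algebraMap Λ Ω ϖ) y : Fin (m + 1) → Ω) t
      K₀ K' B α u H) (hinj : Function.Injective (algebraMap Λ Ω))
    (hy : AlgebraicIndependent Λ y) (hyS : ∀ i, y i ∈ S) (ht : AlgebraicIndependent S t)
    [Algebra Λ K₀] [IsScalarTower Λ K₀ Ω] :
    Algebra.trdeg Λ K₀ = ((m + e : ℕ) : Cardinal) := by
  classical
  have hBK : ∀ b ∈ B, b ∈ K₀ := fun b hb => h.quo₀.1 b (mem_adj hb)
  have hyB : ∀ i, y i ∈ B := fun i => by
    have := h.x_mem i.succ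
    rwa [Fin.cons_succ] at this
  have hyK : ∀ i, y i ∈ K₀ := fun i => hBK _ (hyB i)
  have htK : ∀ j, t j ∈ K₀ := fun j => hBK _ (h.t_mem j)
  apply le_antisymm
  · -- upper bound
    obtain ⟨s, hs⟩ : ∃ s : Set K₀, s = {z : K₀ | (z : Ω) ∈ Set.range y ∪ Set.range t} := ⟨_, rfl⟩
    have hsub : ∀ f ∈ Set.range (Fin.cons (algebraMap Λ Ω ϖ) y : Fin (m + 1) → Ω) ∪ Set.range t,
        ∃ g ∈ Algebra.adjoin Λ s, (g : Ω) = f := by
      rintro f (⟨i, rfl⟩ | ⟨j, rfl⟩)
      · induction i using Fin.cases with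
        | zero => exact ⟨algebraMap Λ K₀ ϖ, Subalgebra.algebraMap_mem _ _, by
            rw [Fin.cons_zero]; exact m3_coe ϖ⟩
        | succ i => exact ⟨⟨y i, hyK i⟩, Algebra.subset_adjoin (by
            rw [hs]; exact Or.inl ⟨i, rfl⟩), by rw [Fin.cons_succ]⟩
      · exact ⟨⟨t j, htK j⟩, Algebra.subset_adjoin (by rw [hs]; exact Or.inr ⟨j, rfl⟩), rfl⟩
    -- the elements of `B` are algebraic
    have hb : ∀ b (hb : b ∈ B), IsAlgebraic (Algebra.adjoin Λ s) (⟨b, hBK b hb⟩ : K₀) := by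
      intro b hb
      obtain ⟨Q, hQ0, hQ, hQb⟩ := h.alg b hb
      have hl : Q ∈ Polynomial.lifts
          ((algebraMap K₀ Ω).comp (algebraMap (Algebra.adjoin Λ s) K₀)) := by
        rw [Polynomial.lifts_iff_coeff_lifts]
        intro n
        obtain ⟨g, hg, hgQ⟩ := m3_adj (Algebra.adjoin Λ s) hsub (hQ n)
        exact ⟨⟨g, hg⟩, hgQ⟩
      rw [Polynomial.mem_lifts] at hl
      obtain ⟨P, hP⟩ := hl
      refine ⟨P, ?_, ?_⟩
      · rintro rfl
        exact hQ0 (by rw [← hP, Polynomial.map_zero])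
      · have h1 : (algebraMap K₀ Ω) (Polynomial.aeval (⟨b, hBK b hb⟩ : K₀) P) = 0 := by
          rw [Polynomial.aeval_def, Polynomial.hom_eval₂]
          rw [← hP, Polynomial.eval_map] at hQb
          exact hQb
        exact (map_eq_zero (algebraMap K₀ Ω)).1 h1
    -- the elements of `R₀[B]` are algebraic
    have hadj : ∀ f ∈ adj (algebraMap Λ Ω).range (B : Set Ω), ∃ g : K₀,
        IsAlgebraic (Algebra.adjoin Λ s) g ∧ (g : Ω) = f := by
      intro f hf
      refine adj_induction (p := fun f => ∃ g : K₀,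
        IsAlgebraic (Algebra.adjoin Λ s) g ∧ (g : Ω) = f) ?_ ?_ ?_ ?_ hf
      · rintro f ⟨c, rfl⟩
        refine ⟨algebraMap Λ K₀ c, ?_, m3_coe c⟩
        have := isAlgebraic_algebraMap (A := K₀) (algebraMap Λ (Algebra.adjoin Λ s) c)
        rwa [← IsScalarTower.algebraMap_apply] at this
      · intro f hf
        exact ⟨⟨f, hBK f hf⟩, hb f hf, rfl⟩
      · rintro _ _ ⟨g, hg, rfl⟩ ⟨g', hg', rfl⟩
        exact ⟨g + g', hg.add hg', rfl⟩
      · rintro _ _ ⟨g, hg, rfl⟩ ⟨g', hg', rfl⟩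
        exact ⟨g * g', hg.mul hg', rfl⟩
    have halg : Algebra.IsAlgebraic (Algebra.adjoin Λ s) K₀ := by
      constructor
      rintro ⟨f, hf⟩
      obtain ⟨a, ha, b, hb, hb0, hab⟩ := h.quo₀.2 f hf
      obtain ⟨a', ha', rfl⟩ := hadj a ha
      obtain ⟨b', hb', rfl⟩ := hadj b hb
      have h1 : (⟨f, hf⟩ : K₀) = a' * b'⁻¹ := by
        apply Subtype.ext
        simp [hab, div_eq_mul_inv]
      rw [h1]
      exact ha'.mul hb'.inv
    refine (Algebra.IsAlgebraic.trdeg_le_cardinalMk Λ s).trans ?_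
    have hs2 : ∀ z : s, ((z : K₀) : Ω) ∈ Set.range y ∪ Set.range t := by
      subst hs
      exact fun z => z.2
    have h2 : Cardinal.mk s ≤ Cardinal.mk (Set.range y ∪ Set.range t : Set Ω) := by
      refine Cardinal.mk_le_of_injective (f := fun z : s => (⟨((z : K₀) : Ω), hs2 z⟩ :
        (Set.range y ∪ Set.range t : Set Ω))) ?_
      intro a b hab
      have : ((a : K₀) : Ω) = ((b : K₀) : Ω) := by simpa using hab
      exact Subtype.ext (Subtype.ext this)
    refine h2.trans ((Cardinal.mk_union_le _ _).trans ?_)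
    have h3 : Cardinal.mk (Set.range y) ≤ (m : Cardinal) := by
      have := Cardinal.mk_range_le_lift (f := y)
      simpa using this
    have h4 : Cardinal.mk (Set.range t) ≤ (e : Cardinal) := by
      have := Cardinal.mk_range_le_lift (f := t)
      simpa using this
    rw [Nat.cast_add]
    exact add_le_add h3 h4
  · -- lower bound
    have hle : ∀ g ∈ Algebra.adjoin Λ (Set.range y), g ∈ S := by
      intro g hg
      refine Algebra.adjoin_induction (p := fun g _ => g ∈ S) ?_ ?_ ?_ ?_ hg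
      · rintro _ ⟨i, rfl⟩
        exact hyS i
      · intro c
        exact h.base.le ⟨c, rfl⟩
      · intro a b _ _ ha hb
        exact S.add_mem ha hb
      · intro a b _ _ ha hb
        exact S.mul_mem ha hb
    let ι : Algebra.adjoin Λ (Set.range y) →+* S :=
      { toFun := fun g => ⟨g, hle g g.2⟩
        map_one' := rfl
        map_mul' := fun _ _ => rfl
        map_zero' := rfl
        map_add' := fun _ _ => rfl }
    let _ : Algebra (Algebra.adjoin Λ (Set.range y)) S := ι.toAlgebra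
    have htow : IsScalarTower (Algebra.adjoin Λ (Set.range y)) S Ω :=
      IsScalarTower.of_algebraMap_eq fun _ => rfl
    have hιinj : Function.Injective (algebraMap (Algebra.adjoin Λ (Set.range y)) S) := by
      intro a b hab
      have : ((ι a : S) : Ω) = ((ι b : S) : Ω) := congrArg Subtype.val hab
      exact Subtype.ext this
    have ht' : AlgebraicIndependent (Algebra.adjoin Λ (Set.range y)) t :=
      ht.restrictScalars hιinj
    have hsum : AlgebraicIndependent Λ (Sum.elim t y) := hy.sumElim ht'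
    -- inside `K₀`
    let z : Fin e ⊕ Fin m → K₀ := Sum.elim (fun j => ⟨t j, htK j⟩) (fun i => ⟨y i, hyK i⟩)
    have hz : AlgebraicIndependent Λ z := by
      refine AlgebraicIndependent.of_comp (IsScalarTower.toAlgHom Λ K₀ Ω) ?_
      convert hsum using 1
      funext a
      rcases a with j | i
      · rfl
      · rfl
    have hcard := hz.lift_cardinalMk_le_trdeg
    have hcard2 : ((m + e : ℕ) : Cardinal.{u}) = Cardinal.lift.{u} (Cardinal.mk (Fin e ⊕ Fin m)) := by
      simp [add_comm]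
    rw [hcard2]
    refine hcard.trans ?_
    rw [Cardinal.lift_id']

theorem Setup.essFG {ϖ : Λ} {α : Fin q → Ω}
    (h : Setup w (algebraMap Λ Ω).range S (Fin.cons (algebraMap Λ Ω ϖ) y : Fin (m + 1) → Ω) t
      K₀ K' B α u H) [Algebra Λ K₀] [IsScalarTower Λ K₀ Ω] :
    Algebra.EssFiniteType Λ K₀ := by
  classical
  have hBK : ∀ b ∈ B, b ∈ K₀ := fun b hb => h.quo₀.1 b (mem_adj hb)
  have hinj : Function.Injective fun z : K₀ => (z : Ω) := Subtype.val_injective
  rw [Algebra.essFiniteType_iff]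
  refine ⟨B.preimage (fun z : K₀ => (z : Ω)) (hinj.injOn), ?_⟩
  have hF : ∀ f ∈ (B : Set Ω), ∃ g ∈ Algebra.adjoin Λ
      ((B.preimage (fun z : K₀ => (z : Ω)) (hinj.injOn) : Finset K₀) : Set K₀), (g : Ω) = f := by
    intro f hf
    refine ⟨⟨f, hBK f hf⟩, Algebra.subset_adjoin ?_, rfl⟩
    simpa using hf
  rintro ⟨f, hf⟩
  obtain ⟨a, ha, b, hb, hb0, hab⟩ := h.quo₀.2 f hf
  obtain ⟨a', ha', rfl⟩ := m3_adj _ hF ha
  obtain ⟨b', hb', rfl⟩ := m3_adj _ hF hb
  have hb0' : b' ≠ 0 := by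
    rintro rfl
    exact hb0 rfl
  refine ⟨b', hb', hb0'.isUnit, ?_⟩
  have h1 : (⟨f, hf⟩ : K₀) * b' = a' := by
    apply Subtype.ext
    show f * (b' : Ω) = a'
    rw [hab, div_mul_cancel₀ _ hb0]
  rw [h1]
  exact ha'

end Pool.Agent.LUC
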