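import Pool.Agent.Lib.LUC.H3
import Pool.Agent.Lib.LUC.M2
import Pool.Agent.Lib.LUC.M5
import Pool.Agent.Lib.LUC.M6

/-! # M7: log uniformization over an unramified regular local ring of mixed characteristic -/

set_option autoImplicit false

namespace Pool.Agent.LUC

open Pool.Agent.H15JM (RVal)
open Pool.Agent.LU1 (VPos)
open Pool.Agent.LU2 (IsR1 IndVal IndRes Rel)
open Pool.Agent.LUM (kk)
open Polynomial

universe u

theorem lurV_mix (p : ℕ) (hp : p.Prime) {Λ S K : Type u} [CommRing Λ] [IsDomain Λ]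
    [IsDiscreteValuationRing Λ] [CharZero Λ] [CharP (kk Λ) p] [PerfectField (kk Λ)]
    [CommRing S] [IsDomain S] [IsRegularLocalRing S] [Field K] [Algebra Λ S] [FaithfulSMul Λ S]
    [Algebra S K] [Algebra Λ K] [IsScalarTower Λ S K] [FaithfulSMul S K]
    [Algebra (FractionRing S) K] [IsScalarTower S (FractionRing S) K]
    [Algebra.EssFiniteType S K] {ϖ : Λ} (hϖ : Irreducible ϖ)
    (hϖ1 : algebraMap Λ S ϖ ∈ IsLocalRing.maximalIdeal S)
    (hϖ2 : algebraMap Λ S ϖ ∉ IsLocalRing.maximalIdeal S ^ 2)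
    (hres : ∀ s : S, ∃ c : Λ, s - algebraMap Λ S c ∈ IsLocalRing.maximalIdeal S) {m : ℕ}
    (hdim : ringKrullDim S = ((m + 1 : ℕ) : WithBot ℕ∞)) (s : Set K)
    (hs : IsTranscendenceBasis (FractionRing S) ((↑) : s → K))
    (hsep : Algebra.IsSeparable (IntermediateField.adjoin (FractionRing S) s) K)
    (V : ValuationSubring K) (hR : IsR1 V) (hS : ∀ s : S, algebraMap S K s ∈ V)
    (hmS : ∀ s ∈ IsLocalRing.maximalIdeal S, V.valuation (algebraMap S K s) < 1) {e : ℕ}
    (he : Algebra.trdeg S K = e) (hr : 0 < m + e) (a : Fin (m + e) → K) (ha : IndVal V a)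
    (hmax : ∀ Y : Fin (m + e + 1) → K, ¬ IndVal V Y)
    (hra : ∀ x ∈ V, ∃ P : Polynomial Λ, P.Monic ∧ V.valuation (aeval x P) < 1) :
    LUrV S V := by
  classical
  obtain ⟨v, w, hrel, hw, hV, hVpos, c, hc0, hcV⟩ := exists_entry V hR
  let Ω : Type u := AlgebraicClosure K
  let ι : K →+* Ω := algebraMap K Ω
  have hι0 : ∀ f : K, ι f ≠ 0 ↔ f ≠ 0 := fun f => (_root_.map_ne_zero ι)
  have hinj : Function.Injective (algebraMap S Ω) := by
    rw [IsScalarTower.algebraMap_eq S K Ω]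
    exact ι.injective.comp (FaithfulSMul.algebraMap_injective S K)
  have hge : ∀ s : S, w.Ge 0 (algebraMap S Ω s) := fun s => by
    rw [IsScalarTower.algebraMap_apply S K Ω]; exact (hV _).1 (hS s)
  have hpos : ∀ s ∈ IsLocalRing.maximalIdeal S, VPos w (algebraMap S Ω s) := fun s hs => by
    rw [IsScalarTower.algebraMap_apply S K Ω]; exact hVpos _ (hmS s hs)
  have i1 : IsScalarTower Λ S Ω := IsScalarTower.of_algebraMap_eq fun c => by
    rw [IsScalarTower.algebraMap_apply Λ K Ω, IsScalarTower.algebraMap_apply Λ S K,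
      ← IsScalarTower.algebraMap_apply S K Ω]
  obtain ⟨y, hy, hB⟩ := exists_base_mix (Λ := Λ) hinj w hϖ hϖ1 hϖ2 hres hdim hge hpos
  have haι := (hrel.indVal_iff.1 ha)
  have hwc : 0 < w (ι c) := by rw [hw c hc0]; exact hcV
  have hinjΛ : Function.Injective (algebraMap Λ Ω) := by
    rw [IsScalarTower.algebraMap_eq Λ S Ω]
    exact hinj.comp (FaithfulSMul.algebraMap_injective Λ S)
  have hspan : ∀ g : K, g ≠ 0 → v g ∈ Submodule.span ℚ (Set.range fun i => v (a i)) := by
    intro g hg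
    by_contra hcon
    refine hmax (Fin.snoc a g) (hrel.indVal_iff.2 ⟨?_, ?_⟩)
    · intro i
      refine Fin.lastCases ?_ (fun j => ?_) i
      · rw [Fin.snoc_last]; exact hg
      · rw [Fin.snoc_castSucc]; exact haι.1 j
    · have h1 : (fun i => v ((Fin.snoc a g : Fin (m + e + 1) → K) i)) =
          (Fin.snoc (fun i => v (a i)) (v g) : Fin (m + e + 1) → ℝ) := by
        funext i
        refine Fin.lastCases ?_ (fun j => ?_) i
        · rw [Fin.snoc_last, Fin.snoc_last]
        · rw [Fin.snoc_castSucc, Fin.snoc_castSucc]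
      rw [h1, linearIndependent_finSnoc]
      exact ⟨haι.2, hcon⟩
  refine lurV_of_base s hs hsep V w hV hS ⟨c, hc0, hwc⟩ _ _ hB he
    fun t q K₀ K' B α u H ht hKK' hset => ?_
  refine hset.lus_mix p hp hϖ hinjΛ hy ht hr (fun i => ι (a i))
    (fun i => hKK' ⟨_, rfl⟩) (fun i => (hι0 _).2 (haι.1 i)) ?_
    (fun Y hY => rank_ext v w hw a hspan Y hY) ?_
  · have h1 : (fun i => w (ι (a i))) = fun i => v (a i) :=
      funext fun i => hw _ (haι.1 i)
    rw [h1]
    exact haι.2
  · intro f hf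
    refine res_alg_ext v w hw hϖ (fun c => ?_) ?_ ?_ f hf
    · rw [IsScalarTower.algebraMap_apply Λ S Ω]
      exact hge _
    · rw [IsScalarTower.algebraMap_apply Λ S Ω]
      exact hpos _ hϖ1
    · intro x hx
      obtain ⟨P, hP, hP1⟩ := hra x ((hrel.mem_iff x).2 hx)
      exact ⟨P, hP, (hrel.lt_one_iff' _).1 hP1⟩

end Pool.Agent.LUC
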