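import Pool.Agent.Lib.LUD.H2
import Pool.Agent.Lib.LUD.G1

/-! # MZ0: the defect zero case over a discrete valuation ring -/

set_option autoImplicit false

namespace Pool.Agent.LUC

open Pool.Agent.LU2 (IsR1 IndVal)
open Pool.Agent.LUM (kk)
open Polynomial

universe u

theorem lur_dvr_zero (p : ℕ) (hp : p.Prime) {Λ K : Type u} [CommRing Λ] [IsDomain Λ]
    [IsDiscreteValuationRing Λ] [CharZero Λ] [CharP (kk Λ) p] [PerfectField (kk Λ)]
    [Field K] [Algebra Λ K] (hinj : Function.Injective (algebraMap Λ K))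
    [Algebra.EssFiniteType Λ K] {ϖ : Λ} (hϖ : Irreducible ϖ) (V : ValuationSubring K)
    (hV : IsR1 V) (hΛ : ∀ c : Λ, algebraMap Λ K c ∈ V)
    (hpos : V.valuation (algebraMap Λ K ϖ) < 1) {r : ℕ}
    (htr : Algebra.trdeg Λ K = r) (X : Fin (r + 1) → K) (hX : IndVal V X)
    (hres : ∀ x ∈ V, ∃ P : Polynomial Λ, P.Monic ∧ V.valuation (aeval x P) < 1) : LUrV Λ V := by
  rcases r with _ | s
  · exact LUD.lurV_trdeg_zero hinj hϖ V hΛ hpos (by rw [htr]; simp)
  · obtain ⟨v, hrel, -⟩ := hV.exists_real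
    have hrel : LU2.Rel V v := hrel
    have hϖ0 : algebraMap Λ K ϖ ≠ 0 := by
      intro h0
      exact hϖ.ne_zero (hinj (by rw [h0, map_zero]))
    have h0 : LUD.Real0 ϖ v := ⟨hϖ, hinj, fun c => (hrel.mem_iff _).1 (hΛ c),
      (hrel.lt_one_iff hϖ0).1 hpos⟩
    have hXi := hrel.indVal_iff.1 hX
    refine LUD.lurV_pos p hp h0 V hrel.mem_iff htr X hXi.1 hXi.2 fun x hx => ?_
    obtain ⟨P, hP, h1⟩ := hres x ((hrel.mem_iff x).2 hx)
    exact ⟨P, hP, (hrel.lt_one_iff' _).1 h1⟩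

end Pool.Agent.LUC
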