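import Pool.Agent.Lib.LUC.E4
import Pool.Agent.Lib.LUC.E6
import Pool.Agent.Lib.LUC.F2
import Pool.Agent.Lib.LUC.M3
import Pool.Agent.Lib.LUC.MZ0

/-! # M6z: log uniformization of `K₀` (mixed characteristic, defect zero) -/

set_option autoImplicit false

namespace Pool.Agent.LUC

open Pool.Agent.H15JM (RVal)
open Pool.Agent.LU1 (VPos)
open Pool.Agent.LU2 (IsR1 IndVal IndRes DefLE vring rcomap rel_vring)
open Pool.Agent.LUM (kk)
open Polynomial

universe u

variable {Ω : Type u} [Field Ω] {w : RVal Ω} {S : Subring Ω} {m e q : ℕ} {y : Fin m → Ω}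
  {t : Fin e → Ω} {K₀ K' : Subfield Ω} {B : Finset Ω} {u : Ω} {H : Polynomial Ω}
  {Λ : Type u} [CommRing Λ] [IsDomain Λ] [IsDiscreteValuationRing Λ] [Algebra Λ Ω]

theorem Setup.lus_mix_zero (p : ℕ) (hp : p.Prime) [CharZero Λ] [CharP (kk Λ) p] [PerfectField (kk Λ)]
    {ϖ : Λ} (hϖ : Irreducible ϖ) {α : Fin q → Ω}
    (h : Setup w (algebraMap Λ Ω).range S (Fin.cons (algebraMap Λ Ω ϖ) y : Fin (m + 1) → Ω) t
      K₀ K' B α u H) (hinj : Function.Injective (algebraMap Λ Ω))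
    (hy : AlgebraicIndependent Λ y) (ht : AlgebraicIndependent S t)
    (a : Fin (m + e + 1) → Ω) (ha : ∀ i, a i ∈ K') (ha0 : ∀ i, a i ≠ 0)
    (hind : LinearIndependent ℚ fun i => w (a i))
    (hres : ∀ f : Ω, w.Ge 0 f → ∃ P : Polynomial Λ, P.Monic ∧ VPos w (aeval f P)) :
    LUs w (algebraMap Λ Ω).range K₀ := by
  have hR₀K : ∀ c : Λ, algebraMap Λ Ω c ∈ K₀ := fun c =>
    h.quo₀.1 _ (base_le_adj _ _ ⟨c, rfl⟩)
  let i0 : Algebra Λ K₀ := ((algebraMap Λ Ω).codRestrict K₀ hR₀K).toAlgebra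
  have i1 : IsScalarTower Λ K₀ Ω := IsScalarTower.of_algebraMap_eq fun c => rfl
  have hk : ∀ c : Λ, w.Ge 0 (algebraMap Λ Ω c) := fun c =>
    h.base.ge _ (h.base.le ⟨c, rfl⟩)
  have hyS : ∀ i, y i ∈ S := fun i => by
    have h1 := h.base.mem i.succ
    rwa [Fin.cons_succ] at h1
  have hϖw : 0 < w (algebraMap Λ Ω ϖ) := by
    have h1 := h.base.pos 0
    rwa [Fin.cons_zero] at h1
  have hϖ0 : algebraMap Λ Ω ϖ ≠ 0 := by
    have h1 := h.base.ne 0
    rwa [Fin.cons_zero] at h1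
  set V₀ : ValuationSubring K₀ := vring (rcomap w K₀.subtype) with hV₀
  have hrel : LU2.Rel V₀ (rcomap w K₀.subtype) := rel_vring _
  have hkV : ∀ c : Λ, algebraMap Λ K₀ c ∈ V₀ := by
    intro c h0
    exact hk c (fun h1 => h0 (Subtype.ext h1))
  have hinj' : Function.Injective (algebraMap Λ K₀) := by
    intro c d hcd
    exact hinj (congrArg Subtype.val hcd)
  have hϖ0' : algebraMap Λ K₀ ϖ ≠ 0 := fun h0 => hϖ0 (congrArg Subtype.val h0)
  have hR : IsR1 V₀ := isR1_vring _ (algebraMap Λ K₀ ϖ) hϖ0' hϖw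
  obtain ⟨x', hx'⟩ := exists_indVal a (fun i => h.cl _ (ha i)) ha0 hind
  have i2 : Algebra.EssFiniteType Λ K₀ := h.essFG
  have hL : LUrV Λ V₀ := by
    refine lur_dvr_zero p hp hinj' hϖ V₀ hR hkV ((hrel.lt_one_iff hϖ0').2 hϖw)
      (h.trdeg_mix hinj hy hyS ht) x' hx' ?_
    · intro f hf
      obtain ⟨P, hP, hPf⟩ := hres (f : Ω) (fun h0 => ((hrel.mem_iff f).1 hf)
        (fun h1 => h0 (by rw [h1]; rfl)))
      refine ⟨P, hP, (hrel.lt_one_iff' _).2 fun h0 => ?_⟩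
      have h1 : ((aeval f P : K₀) : Ω) = aeval (f : Ω) P := by
        have h2 : aeval (algebraMap K₀ Ω f) P = algebraMap K₀ Ω (aeval f P) :=
          Polynomial.aeval_algebraMap_apply Ω f P
        exact h2.symm
      change 0 < w ((aeval f P : K₀) : Ω)
      rw [h1]
      refine hPf ?_
      rw [← h1]
      exact fun h2 => h0 (Subtype.ext h2)
  have hL' := LUrV.lus (w := w) (Ω := Ω) (V := V₀) (fun f => by
    rw [(rel_vring (rcomap w K₀.subtype)).mem_iff]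
    constructor
    · intro h1 h2
      exact h1 (by simpa using h2)
    · intro h1 h2
      exact h1 (by simpa using h2)) hkV hL
  have hr : (algebraMap K₀ Ω).fieldRange = K₀ := by
    ext f
    constructor
    · rintro ⟨y, rfl⟩
      exact y.2
    · intro hf
      exact ⟨⟨f, hf⟩, rfl⟩
  rwa [hr] at hL'

end Pool.Agent.LUC
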