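import Pool.Agent.Lib.LUC.Asc6

/-!
# Ascent of log uniformization: approximations
-/

set_option autoImplicit false

namespace Pool.Agent.LUC

open Pool.Agent.LUM (locV IsChart IsPar Mono LUat IsFrac LU)
open IsLocalRing Polynomial

universe u

section Steps

variable {k F K : Type u} [CommRing k] [Field F] [Field K] [Algebra k F]
  [Algebra k K] {V : ValuationSubring K} {V₁ : ValuationSubring F} {j : F →ₐ[k] K}

/-- `F` is dense in `K` for the topology of `V`. -/
def DenseIn (V : ValuationSubring K) (j : F →+* K) : Prop :=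
  ∀ a b : K, b ≠ 0 → ∃ c : F, V.valuation (a - j c) < V.valuation b

theorem DenseIn.exists_eq {V : ValuationSubring K} {j : F →+* K} (h : DenseIn V j) {b : K}
    (hb : b ≠ 0) : ∃ c : F, c ≠ 0 ∧ V.valuation (j c) = V.valuation b := by
  obtain ⟨c, hc⟩ := h b b hb
  have h1 : V.valuation (j c) = V.valuation b := by
    have h2 : j c = b - (b - j c) := by ring
    rw [h2]
    exact Valuation.map_sub_eq_of_lt_left _ hc
  refine ⟨c, ?_, h1⟩
  rintro rfl
  rw [map_zero, map_zero] at h1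
  exact hb ((Valuation.zero_iff _).1 h1.symm)

/-- A small element of `F`. -/
private theorem asc_small (hj : ∀ x, x ∈ V₁ ↔ j x ∈ V) (hd : DenseIn V (j : F →+* K))
    (hnt : ∃ π : K, π ≠ 0 ∧ V.valuation π < 1) {θ : K} (hθ : θ ∈ V)
    (FF : Finset (Polynomial V₁)) (hFF : ∀ P ∈ FF, eval₂ (emb V₁ j) θ P ≠ 0) :
    ∃ δ : V₁, (δ : F) ≠ 0 ∧
      ∀ P ∈ FF, V.valuation (j δ) < V.valuation (eval₂ (emb V₁ j) θ P) := by
  classical
  obtain ⟨π, hπ0, hπ⟩ := hnt
  have hle : ∀ P : Polynomial V₁, V.valuation (eval₂ (emb V₁ j) θ P) ≤ 1 := fun P =>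
    (V.valuation_le_one_iff _).2 (eval₂_mem_V hj hθ P)
  have hprod : ∀ S : Finset (Polynomial V₁),
      V.valuation (∏ P ∈ S, eval₂ (emb V₁ j) θ P) ≤ 1 := by
    intro S
    rw [map_prod]
    exact Finset.prod_le_one' fun P _ => hle P
  have hne : π * ∏ P ∈ FF, eval₂ (emb V₁ j) θ P ≠ 0 :=
    mul_ne_zero hπ0 (Finset.prod_ne_zero_iff.2 hFF)
  obtain ⟨δ, hδ0, hδ⟩ := hd.exists_eq hne
  have hδV : δ ∈ V₁ := by
    rw [hj, ← V.valuation_le_one_iff]
    change V.valuation ((j : F →+* K) δ) ≤ 1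
    rw [hδ, map_mul]
    exact mul_le_one' hπ.le (hprod FF)
  refine ⟨⟨δ, hδV⟩, hδ0, fun P hP => ?_⟩
  change V.valuation ((j : F →+* K) δ) < _
  rw [hδ, ← Finset.mul_prod_erase FF _ hP, map_mul, map_mul]
  have hPpos : 0 < V.valuation (eval₂ (emb V₁ j) θ P) :=
    zero_lt_iff.2 ((Valuation.ne_zero_iff _).2 (hFF P hP))
  calc V.valuation π * (V.valuation (eval₂ (emb V₁ j) θ P) *
        V.valuation (∏ Q ∈ FF.erase P, eval₂ (emb V₁ j) θ Q))
      ≤ V.valuation π * V.valuation (eval₂ (emb V₁ j) θ P) := by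
        gcongr
        exact mul_le_of_le_one_right' (hprod _)
    _ < 1 * V.valuation (eval₂ (emb V₁ j) θ P) := by
        exact mul_lt_mul_of_pos_right hπ hPpos
    _ = _ := one_mul _

/-- The transcendental case. -/
theorem aStep_of_transcendental (hj : ∀ x, x ∈ V₁ ↔ j x ∈ V) (hd : DenseIn V (j : F →+* K))
    (hnt : ∃ π : K, π ≠ 0 ∧ V.valuation π < 1) {θ : K} (hθ : θ ∈ V)
    (htr : ∀ P : Polynomial F, eval₂ (j : F →+* K) θ P = 0 → P = 0) : AStep V₁ V j θ := by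
  intro FF hFF
  obtain ⟨c, hc0, hc⟩ := asc_small hj hd hnt hθ FF hFF
  have hjc : j (c : F) ≠ 0 := (map_ne_zero j).2 hc0
  obtain ⟨τ, hτ⟩ := hd θ (j c) hjc
  have hcV : V.valuation (j c) ≤ 1 := (V.valuation_le_one_iff _).2 ((hj _).1 c.2)
  have hτV : τ ∈ V₁ := by
    rw [hj]
    have h1 : (j : F →+* K) τ = θ - (θ - (j : F →+* K) τ) := by ring
    change (j : F →+* K) τ ∈ V
    rw [h1]
    exact V.sub_mem hθ ((V.valuation_le_one_iff _).1 (hτ.le.trans hcV))
  refine ⟨c, ⟨τ, hτV⟩, hc0, hτ, hc, ∅, ?_⟩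
  intro R₁ hDom _ n z hz
  have hu : V.valuation ((θ - j τ) / j c) < 1 := by
    rw [map_div₀, div_lt_one₀ (zero_lt_iff.2 ((Valuation.ne_zero_iff _).2 hjc))]
    exact hτ
  refine ⟨n + 1, Fin.snoc (fun i => j (z i)) ((θ - j τ) / j c), Fin.castSucc,
    Fin.castSucc_injective n, fun i => by rw [Fin.snoc_castSucc], ?_⟩
  refine isPar_adjU_of_transcendental (hDom.map' hj) (Pool.Agent.LUC.IsPar.map' hj hz) hu ?_
  intro P hP
  let σ : (R₁.map j) →+* F := (R₁.val.toRingHom).comp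
    ((R₁.equivMapOfInjective j j.toRingHom.injective).symm.toAlgHom.toRingHom)
  have hσ : ∀ b : R₁.map j, j (σ b) = b := by
    intro b
    have h1 := (R₁.equivMapOfInjective j j.toRingHom.injective).apply_symm_apply b
    exact congrArg Subtype.val h1
  have hσinj : Function.Injective σ := fun a b hab => Subtype.ext (by rw [← hσ a, hab, hσ b])
  have h1 : eval₂ (j : F →+* K) ((θ - j τ) / j c) (P.map σ) = 0 := by
    rw [eval₂_map]
    have h2 : (j : F →+* K).comp σ = algebraMap (R₁.map j) K := by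
      ext b
      exact hσ b
    rw [h2]
    exact hP
  have h3 : eval₂ (j : F →+* K) θ ((P.map σ).comp (C (c : F)⁻¹ * (X - C τ))) = 0 := by
    rw [eval₂_comp]
    have h4 : eval₂ (j : F →+* K) θ (C (c : F)⁻¹ * (X - C τ)) = (θ - j τ) / j c := by
      rw [eval₂_mul, eval₂_C, eval₂_sub, eval₂_X, eval₂_C, map_inv₀, div_eq_inv_mul]
      rfl
    rw [h4]
    exact h1
  have h5 := htr _ h3
  have h6 : (P.map σ) = ((P.map σ).comp (C (c : F)⁻¹ * (X - C τ))).comp (C (c : F) * X + C τ) := by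
    rw [comp_assoc]
    have h7 : (C (c : F)⁻¹ * (X - C τ)).comp (C (c : F) * X + C τ) = X := by
      rw [mul_comp, C_comp, sub_comp, X_comp, C_comp, add_sub_cancel_right, ← mul_assoc,
        ← C_mul, inv_mul_cancel₀ hc0, C_1, one_mul]
    rw [h7, comp_X]
  rw [h5, zero_comp] at h6
  exact (Polynomial.map_eq_zero_iff hσinj).1 h6

/-- The second order Taylor expansion. -/
private theorem exists_taylor₂ {Λ : Type u} [CommRing Λ] (P : Polynomial Λ) (τ c : Λ) :
    ∃ W : Polynomial Λ, ∀ (e : Λ →+* K) (u : K),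
      eval₂ e (e τ + e c * u) P = e (P.eval τ) + e (P.derivative.eval τ) * (e c * u) +
        (e c * u) ^ 2 * eval₂ e u W := by
  obtain ⟨W, hW⟩ := binomExpansion (P.map (C : Λ →+* Polynomial Λ)) (C τ) (C c * X)
  refine ⟨W, fun e u => ?_⟩
  have h1 := congrArg (eval₂RingHom e u) hW
  rw [derivative_map, eval_map, eval_map, eval_map] at h1
  simp only [map_add, map_mul, map_pow] at h1
  rw [hom_eval₂, hom_eval₂, hom_eval₂] at h1
  have h2 : (eval₂RingHom e u).comp C = e := by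
    ext x
    simp
  rw [h2, map_add, map_mul] at h1
  simp only [coe_eval₂RingHom, eval₂_C, eval₂_X] at h1
  rw [eval₂_at_apply, eval₂_at_apply] at h1
  rw [h1]
  ring

/-- The separable algebraic case. -/
theorem aStep_of_separable (hj : ∀ x, x ∈ V₁ ↔ j x ∈ V) (hd : DenseIn V (j : F →+* K))
    (hnt : ∃ π : K, π ≠ 0 ∧ V.valuation π < 1) {θ : K} (hθ : θ ∈ V)
    (P₀ : Polynomial V₁) (hP₀ : eval₂ (emb V₁ j) θ P₀ = 0)
    (hP₀' : eval₂ (emb V₁ j) θ P₀.derivative ≠ 0) : AStep V₁ V j θ := by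
  classical
  intro FF hFF
  obtain ⟨δ, hδ0, hδ⟩ := asc_small hj hd hnt hθ FF hFF
  have hjδ : j (δ : F) ≠ 0 := (map_ne_zero j).2 hδ0
  have hδV : V.valuation (j δ) ≤ 1 := (V.valuation_le_one_iff _).2 ((hj _).1 δ.2)
  have hD1 : V.valuation (eval₂ (emb V₁ j) θ P₀.derivative) ≤ 1 :=
    (V.valuation_le_one_iff _).2 (eval₂_mem_V hj hθ _)
  obtain ⟨τ', hτ'⟩ := hd θ (eval₂ (emb V₁ j) θ P₀.derivative * j δ) (mul_ne_zero hP₀' hjδ)
  rw [map_mul] at hτ'
  have hτV : τ' ∈ V₁ := by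
    rw [hj]
    have h1 : (j : F →+* K) τ' = θ - (θ - (j : F →+* K) τ') := by ring
    change (j : F →+* K) τ' ∈ V
    rw [h1]
    exact V.sub_mem hθ ((V.valuation_le_one_iff _).1 (hτ'.le.trans (mul_le_one' hD1 hδV)))
  obtain ⟨τ, hτeq⟩ : ∃ τ : V₁, (τ : F) = τ' := ⟨⟨τ', hτV⟩, rfl⟩
  have hτ : V.valuation (θ - j τ) <
      V.valuation (eval₂ (emb V₁ j) θ P₀.derivative) * V.valuation (j δ) := by
    rw [hτeq]; exact hτ'
  -- the value of the derivative
  have hDτ : V.valuation (j ((P₀.derivative.eval τ : V₁) : F)) =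
      V.valuation (eval₂ (emb V₁ j) θ P₀.derivative) := by
    obtain ⟨W, hW⟩ := exists_taylor (K := K) P₀.derivative τ 1
    have h1 := hW (emb V₁ j) (θ - j τ)
    rw [map_one, one_mul] at h1
    have h2 : (emb V₁ j) τ + (θ - j τ) = θ := by
      change j τ + (θ - j τ) = θ
      ring
    rw [h2] at h1
    have hθτ : θ - j τ ∈ V := V.sub_mem hθ ((hj _).1 τ.2)
    have h3 : V.valuation ((θ - j τ) * eval₂ (emb V₁ j) (θ - j τ) W) <
        V.valuation (eval₂ (emb V₁ j) θ P₀.derivative) := by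
      rw [map_mul]
      calc _ ≤ V.valuation (θ - j τ) := mul_le_of_le_one_right'
              ((V.valuation_le_one_iff _).2 (eval₂_mem_V hj hθτ W))
        _ < _ := hτ
        _ ≤ _ := mul_le_of_le_one_right' hδV
    have h4 : j ((P₀.derivative.eval τ : V₁) : F) = eval₂ (emb V₁ j) θ P₀.derivative -
        (θ - j τ) * eval₂ (emb V₁ j) (θ - j τ) W := by
      rw [h1]
      change _ = j ((P₀.derivative.eval τ : V₁) : F) + _ - _
      ring
    rw [h4]
    exact Valuation.map_sub_eq_of_lt_left _ h3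
  have hjD : j ((P₀.derivative.eval τ : V₁) : F) ≠ 0 := by
    intro h
    rw [h, map_zero] at hDτ
    exact hP₀' ((Valuation.zero_iff _).1 hDτ.symm)
  have hD0 : ((P₀.derivative.eval τ : V₁) : F) ≠ 0 := by
    intro h
    rw [h, map_zero] at hjD
    exact hjD rfl
  set c : V₁ := P₀.derivative.eval τ * δ with hc
  have hcF : (c : F) = ((P₀.derivative.eval τ : V₁) : F) * (δ : F) := by
    rw [hc]; rfl
  have hc0 : (c : F) ≠ 0 := by
    rw [hcF]
    exact mul_ne_zero hD0 hδ0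
  have hjc : j (c : F) ≠ 0 := (map_ne_zero j).2 hc0
  have hcval : V.valuation (j c) =
      V.valuation (eval₂ (emb V₁ j) θ P₀.derivative) * V.valuation (j δ) := by
    rw [hcF, map_mul, map_mul, hDτ]
  have hu : V.valuation ((θ - j τ) / j c) < 1 := by
    rw [map_div₀, div_lt_one₀ (zero_lt_iff.2 ((Valuation.ne_zero_iff _).2 hjc)), hcval]
    exact hτ
  set u := (θ - j τ) / j c with hudef
  have huV : u ∈ V := (V.valuation_le_one_iff _).1 hu.le
  have hθu : θ = j τ + j c * u := by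
    rw [hudef, mul_div_cancel₀ _ hjc]
    ring
  -- the etale equation
  obtain ⟨W, hW⟩ := exists_taylor₂ (K := K) P₀ τ c
  have hW1 := hW (emb V₁ j) u
  have hθu' : (emb V₁ j) τ + (emb V₁ j) c * u = θ := hθu.symm
  rw [hθu', hP₀] at hW1
  have hW2 : (0 : K) = j ((P₀.eval τ : V₁) : F) + j ((P₀.derivative.eval τ : V₁) : F) *
      (j c * u) + (j c * u) ^ 2 * eval₂ (emb V₁ j) u W := hW1
  have hjcF : j (c : F) = j ((P₀.derivative.eval τ : V₁) : F) * j (δ : F) := by
    rw [hcF, map_mul]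
  have hh0 : j (((P₀.eval τ : V₁) : F) / ((c : F) * ((P₀.derivative.eval τ : V₁) : F))) =
      - (u + j δ * u ^ 2 * eval₂ (emb V₁ j) u W) := by
    rw [map_div₀, map_mul]
    rw [div_eq_iff (mul_ne_zero hjc hjD)]
    have h1 : j ((P₀.eval τ : V₁) : F) = - (j ((P₀.derivative.eval τ : V₁) : F) *
      (j c * u)) - (j c * u) ^ 2 * eval₂ (emb V₁ j) u W := by linear_combination - hW2
    rw [h1, hjcF]
    ring
  have hh0V : ((P₀.eval τ : V₁) : F) / ((c : F) * ((P₀.derivative.eval τ : V₁) : F)) ∈ V₁ := by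
    rw [hj, hh0]
    refine V.neg_mem _ (V.add_mem _ _ huV (V.mul_mem _ _ (V.mul_mem _ _ ((hj _).1 δ.2)
      (pow_mem huV 2)) (eval₂_mem_V hj huV W)))
  obtain ⟨h₀, hh₀⟩ : ∃ h₀ : V₁, (h₀ : F) =
    ((P₀.eval τ : V₁) : F) / ((c : F) * ((P₀.derivative.eval τ : V₁) : F)) := ⟨⟨_, hh0V⟩, rfl⟩
  rw [← hh₀] at hh0
  set H : Polynomial V₁ := C h₀ + X + C δ * (X ^ 2 * W) with hH
  have hHu : eval₂ (emb V₁ j) u H = 0 := by
    rw [hH, eval₂_add, eval₂_add, eval₂_mul, eval₂_mul, eval₂_X_pow, eval₂_C, eval₂_C, eval₂_X]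
    change j (h₀ : F) + u + j (δ : F) * (u ^ 2 * eval₂ (emb V₁ j) u W) = 0
    rw [hh0]
    ring
  have hH1 : H.coeff 1 = 1 := by
    rw [hH, coeff_add, coeff_add, coeff_C_succ, coeff_X_one, coeff_C_mul, coeff_X_pow_mul']
    simp
  refine ⟨c, τ, hc0, ?_, ?_, H.support.image H.coeff, ?_⟩
  · rw [hcval]
    exact hτ
  · intro P hP
    refine lt_of_le_of_lt ?_ (hδ P hP)
    rw [hcval]
    exact mul_le_of_le_one_left' hD1
  · intro R₁ hDom hQ n z hz
    refine ⟨n, fun i => j (z i), id, Function.injective_id, fun i => rfl, ?_⟩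
    have hcoef : ∀ i, ((H.coeff i : V₁) : F) ∈ R₁ := by
      intro i
      by_cases h0 : H.coeff i = 0
      · rw [h0]; exact R₁.zero_mem
      · exact hQ _ (Finset.mem_image_of_mem _ (mem_support_iff.2 h0))
    have hl : H.map (emb V₁ j) ∈ lifts (algebraMap (R₁.map j) K) := by
      rw [lifts_iff_coeff_lifts]
      intro i
      rw [coeff_map]
      exact ⟨⟨_, ⟨_, hcoef i, rfl⟩⟩, rfl⟩
    obtain ⟨HB, hHB⟩ := (mem_lifts _).1 hl
    refine isPar_adjU_of_etale (hDom.map' hj) (Pool.Agent.LUC.IsPar.map' hj hz) hu HB ?_ ?_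
    · rw [aeval_def, eval₂_eq_eval_map, hHB, ← eval₂_eq_eval_map]
      exact hHu
    · have h1 := congrArg (fun P : Polynomial K => P.coeff 1) hHB
      simp only [coeff_map] at h1
      rw [hH1, map_one] at h1
      exact Subtype.ext h1

end Steps

end Pool.Agent.LUC
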