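import Mathlib
import Pool.Agent.Lib.MP_d9447e_al_helper1.Reg

/-!
# Ascent of log uniformization: the local rings of the affine line and of an etale point over a
regular local ring
-/

set_option autoImplicit false

namespace Pool.Agent.LUC

open IsLocalRing Polynomial

universe u v

section Comm

variable {B : Type u} [CommRing B]

private theorem asc_exists_quot {E : Type u} [CommRing E] (I : Ideal E) :
    ∃ (D : Type u) (_ : CommRing D) (q : E →+* D), Function.Surjective q ∧ RingHom.ker q = I :=
  ⟨E ⧸ I, inferInstance, Ideal.Quotient.mk I, Ideal.Quotient.mk_surjective, Ideal.mk_ker⟩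

private theorem asc_split (F : B[X]) : ∃ G : B[X], F = C (F.coeff 0) + X * G :=
  ⟨F.divX, by rw [mul_comm, add_comm, divX_mul_X_add]⟩

variable [IsRegularLocalRing B]

private theorem asc_mem {N : Ideal B[X]} (hN : N.comap C = maximalIdeal B) (hX : X ∈ N) (F : B[X]) :
    F ∈ N ↔ F.coeff 0 ∈ maximalIdeal B := by
  obtain ⟨G, hG⟩ := asc_split F
  have h1 : X * G ∈ N := N.mul_mem_right _ hX
  rw [← hN, Ideal.mem_comap]
  constructor
  · intro h
    have h2 : C (F.coeff 0) = F - X * G := by
      nth_rw 2 [hG]
      ring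
    rw [h2]
    exact N.sub_mem h h1
  · intro h
    rw [hG]
    exact N.add_mem h h1

private theorem asc_isMaximal {N : Ideal B[X]} [N.IsPrime] (hN : N.comap C = maximalIdeal B)
    (hX : X ∈ N) : N.IsMaximal := by
  rw [Ideal.isMaximal_iff]
  refine ⟨fun h => Ideal.IsPrime.ne_top' ((Ideal.eq_top_iff_one N).2 h), ?_⟩
  intro J F hJ hF hFJ
  obtain ⟨G, hG⟩ := asc_split F
  have h1 : F.coeff 0 ∉ maximalIdeal B := fun h => hF ((asc_mem hN hX F).2 h)
  have h2 : IsUnit (F.coeff 0) := by
    rw [mem_maximalIdeal, mem_nonunits_iff, not_not] at h1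
    exact h1
  obtain ⟨b, hb⟩ := h2.exists_right_inv
  have h3 : C (F.coeff 0) ∈ J := by
    have : C (F.coeff 0) = F - X * G := by
      nth_rw 2 [hG]
      ring
    rw [this]
    exact J.sub_mem hFJ (hJ (N.mul_mem_right _ hX))
  have h4 : (1 : B[X]) = C (F.coeff 0) * C b := by rw [← C_mul, hb, C_1]
  rw [h4]
  exact J.mul_mem_right _ h3

/-- The local ring of the affine line at the origin of the closed fibre. -/
theorem asc_dim {n : ℕ} (hn : ringKrullDim B = n) (N : Ideal B[X]) [N.IsPrime]
    (hN : N.comap C = maximalIdeal B) (hX : X ∈ N) :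
    IsRegularLocalRing (Localization.AtPrime N) ∧
      ringKrullDim (Localization.AtPrime N) = ((n + 1 : ℕ) : WithBot ℕ∞) := by
  refine ⟨Polynomial.isRegularLocalRing_localization_atPrime_of_comap_eq_maximalIdeal B N hN, ?_⟩
  have hmax := asc_isMaximal hN hX
  have hlies : N.LiesOver (maximalIdeal B) := ⟨hN.symm⟩
  rw [IsLocalization.AtPrime.ringKrullDim_eq_height N (Localization.AtPrime N),
    Polynomial.height_eq_height_add_one (maximalIdeal B) N, WithBot.coe_add,
    maximalIdeal_height_eq_ringKrullDim, hn]
  norm_cast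

/-- The maximal ideal of the quotient by an etale equation. -/
private theorem asc_quot_max {n : ℕ} (z : Fin n → B) (hz : Ideal.span (Set.range z) = maximalIdeal B)
    (N : Ideal B[X]) [N.IsPrime] (hN : N.comap C = maximalIdeal B) (hX : X ∈ N) (H : B[X])
    (hH0 : H.coeff 0 ∈ maximalIdeal B) (hH1 : H.coeff 1 = 1)
    {D : Type u} [CommRing D] [IsLocalRing D] (r : Localization.AtPrime N →+* D)
    (hr : Function.Surjective r) (hrH : r (algebraMap B[X] (Localization.AtPrime N) H) = 0) :
    maximalIdeal D = Ideal.span (Set.range fun i => r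
        (algebraMap B[X] (Localization.AtPrime N) (C (z i)))) := by
  set q : B[X] →+* D := r.comp (algebraMap B[X] (Localization.AtPrime N)) with hq
  have hmap : maximalIdeal D = N.map q := by
    have h0 : (maximalIdeal (Localization.AtPrime N)).map r = maximalIdeal D :=
      map_maximalIdeal_of_surjective r hr
    rw [← h0, ← Localization.AtPrime.map_eq_maximalIdeal, Ideal.map_map]
  have hgoal : (fun i => r (algebraMap B[X] (Localization.AtPrime N) (C (z i)))) =
    fun i => q (C (z i)) := rfl
  rw [hmap, hgoal]
  have hJ : ∀ b ∈ maximalIdeal B, q (C b) ∈ Ideal.span (Set.range fun i => q (C (z i))) := by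
    intro b hb
    have h1 : b ∈ Ideal.span (Set.range z) := by rw [hz]; exact hb
    have h2 := Ideal.mem_map_of_mem (q.comp C) h1
    rw [Ideal.map_span, ← Set.range_comp] at h2
    exact h2
  have hqH : q H = 0 := hrH
  have hXJ : q X ∈ Ideal.span (Set.range fun i => q (C (z i))) := by
    obtain ⟨G, hG⟩ := asc_split H
    have hG0 : G.coeff 0 = 1 := by
      have h1 : H.coeff 1 = G.coeff 0 := by
        have h2 := congrArg (fun F : B[X] => F.coeff 1) hG
        simp only [coeff_add, coeff_C_succ, zero_add] at h2
        rw [show (1 : ℕ) = 0 + 1 from rfl, coeff_X_mul] at h2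
        simpa using h2
      rw [← h1, hH1]
    have hGu : IsUnit (q G) := by
      have : G ∉ N := by
        rw [asc_mem hN hX, hG0]
        intro h
        exact Ideal.IsPrime.ne_top' ((Ideal.eq_top_iff_one _).2 h)
      exact (IsLocalization.map_units (Localization.AtPrime N)
        (⟨G, this⟩ : N.primeCompl)).map r
    obtain ⟨w, hw⟩ := hGu.exists_right_inv
    have h1 : q X = - q (C (H.coeff 0)) * w := by
      have h2 : q (C (H.coeff 0)) + q X * q G = 0 := by
        rw [← map_mul, ← map_add, ← hG, hqH]
      have h3 : q (C (H.coeff 0)) = - (q X * q G) := by linear_combination h2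
      rw [h3, neg_neg, mul_assoc, hw, mul_one]
    rw [h1]
    exact Ideal.mul_mem_right _ _ (neg_mem (hJ _ hH0))
  apply le_antisymm
  · rw [Ideal.map_le_iff_le_comap]
    intro F hF
    obtain ⟨G, hG⟩ := asc_split F
    rw [Ideal.mem_comap, hG, map_add, map_mul]
    exact Ideal.add_mem _ (hJ _ ((asc_mem hN hX F).1 hF)) (Ideal.mul_mem_right _ _ hXJ)
  · rw [Ideal.span_le]
    rintro _ ⟨i, rfl⟩
    refine Ideal.mem_map_of_mem q ?_
    rw [asc_mem hN hX, coeff_C_zero, ← hz]
    exact Ideal.subset_span ⟨i, rfl⟩

/-- The quotient by an etale equation is a regular domain. -/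
private theorem asc_quot {n : ℕ} (hn : ringKrullDim B = n) (z : Fin n → B)
    (hz : Ideal.span (Set.range z) = maximalIdeal B)
    (N : Ideal B[X]) [N.IsPrime] (hN : N.comap C = maximalIdeal B) (hX : X ∈ N) (H : B[X])
    (hH0 : H.coeff 0 ∈ maximalIdeal B) (hH1 : H.coeff 1 = 1)
    {D : Type u} [CommRing D] [IsLocalRing D] (r : Localization.AtPrime N →+* D)
    (hr : Function.Surjective r)
    (hker : RingHom.ker r = Ideal.span {algebraMap B[X] (Localization.AtPrime N) H}) :
    IsDomain D ∧ ringKrullDim D = (n : WithBot ℕ∞) := by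
  obtain ⟨hreg, hdim⟩ := asc_dim hn N hN hX
  have hmem : algebraMap B[X] (Localization.AtPrime N) H ∈
      maximalIdeal (Localization.AtPrime N) := by
    rw [← Localization.AtPrime.map_eq_maximalIdeal]
    exact Ideal.mem_map_of_mem _ ((asc_mem hN hX H).2 hH0)
  have hrH : r (algebraMap B[X] (Localization.AtPrime N) H) = 0 := by
    rw [← RingHom.mem_ker, hker]
    exact Ideal.subset_span rfl
  have hnoe : IsNoetherianRing D := isNoetherianRing_of_surjective _ _ r hr
  have hmax := asc_quot_max z hz N hN hX H hH0 hH1 r hr hrH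
  have hle : (maximalIdeal D).spanFinrank ≤ n := by
    rw [hmax]
    refine (Submodule.spanFinrank_span_le_ncard_of_finite (Set.finite_range _)).trans ?_
    rw [← Set.image_univ]
    refine (Set.ncard_image_le Set.finite_univ).trans ?_
    rw [Set.ncard_univ, Nat.card_eq_fintype_card, Fintype.card_fin]
  have hge : (n : WithBot ℕ∞) ≤ ringKrullDim D := by
    have h1 := Ideal.height_le_ringKrullDim_quotient_add_one hmem
    rw [maximalIdeal_height_eq_ringKrullDim, hdim, ← hker,
      ringKrullDim_eq_of_ringEquiv (RingHom.quotientKerEquivOfSurjective hr)] at h1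
    revert h1
    generalize ringKrullDim D = d
    intro h2
    cases d with
    | bot => simp at h2
    | coe d =>
      have h3 : ((n + 1 : ℕ) : ℕ∞) ≤ d + 1 := by exact_mod_cast h2
      have h4 : ((n : ℕ) : ℕ∞) ≤ d := by
        rw [Nat.cast_add, Nat.cast_one] at h3
        exact (ENat.add_le_add_iff_right (by simp)).1 h3
      exact WithBot.coe_le_coe.2 h4
  have hreg' : IsRegularLocalRing D := by
    apply IsRegularLocalRing.of_spanFinrank_maximalIdeal_le
    exact le_trans (by exact_mod_cast hle) hge
  have hdim' : ringKrullDim D = (n : WithBot ℕ∞) := by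
    refine le_antisymm ?_ hge
    rw [← hreg'.spanFinrank_maximalIdeal]
    exact_mod_cast hle
  exact ⟨Pool.Agent.BEH5.Reg.isDomain_of_regular n D hdim', hdim'⟩

/-- The local ring of an etale point has the dimension of the base. -/
private theorem asc_etale_aux {n : ℕ} (hn : ringKrullDim B = n) (z : Fin n → B)
    (hz : Ideal.span (Set.range z) = maximalIdeal B)
    (N : Ideal B[X]) [N.IsPrime] (hN : N.comap C = maximalIdeal B) (hX : X ∈ N) (H : B[X])
    (hH0 : H.coeff 0 ∈ maximalIdeal B) (hH1 : H.coeff 1 = 1)
    {R : Type v} [CommRing R] [IsDomain R] (r : Localization.AtPrime N →+* R)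
    (hr : Function.Surjective r)
    (hrH : r (algebraMap B[X] (Localization.AtPrime N) H) = 0)
    (hinj : ∀ b : B, r (algebraMap B[X] (Localization.AtPrime N) (C b)) = 0 → b = 0)
    {D : Type u} [CommRing D] (q : Localization.AtPrime N →+* D)
    (hq : Function.Surjective q)
    (hker : RingHom.ker q = Ideal.span {algebraMap B[X] (Localization.AtPrime N) H}) :
    ringKrullDim R = (n : WithBot ℕ∞) := by
  have hIr : ∀ x, q x = 0 → r x = 0 := by
    intro x hx
    rw [← RingHom.mem_ker, hker] at hx
    obtain ⟨y, rfl⟩ := Ideal.mem_span_singleton'.1 hx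
    rw [map_mul, hrH, mul_zero]
  obtain ⟨s, hsq⟩ : ∃ s : D →+* R, ∀ x, s (q x) = r x := by
    refine ⟨RingHom.liftOfSurjective q hq ⟨r, fun x hx => ?_⟩, fun x => ?_⟩
    · exact hIr x hx
    · exact RingHom.liftOfRightInverse_comp_apply _ _ _ _ _
  have hsurj : Function.Surjective s := fun x => by
    obtain ⟨y, rfl⟩ := hr x
    exact ⟨q y, hsq y⟩
  have hntD : Nontrivial D := s.domain_nontrivial
  have hlocD : IsLocalRing D := IsLocalRing.of_surjective' q hq
  obtain ⟨hdom, hdim⟩ := asc_quot hn z hz N hN hX H hH0 hH1 q hq hker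
  have hBdom : IsDomain B := Pool.Agent.BEH5.Reg.isDomain_of_regular n B hn
  have hinjs : Function.Injective s := by
    rw [injective_iff_map_eq_zero]
    intro x hx
    by_contra hx0
    obtain ⟨e, rfl⟩ := hq x
    obtain ⟨⟨F, G⟩, hFG⟩ := IsLocalization.surj N.primeCompl e
    simp only at hFG
    let qB : B[X] →+* D := q.comp (algebraMap B[X] (Localization.AtPrime N))
    have hG : IsUnit (qB G) := (IsLocalization.map_units (Localization.AtPrime N) G).map q
    have hF : qB F = q e * qB G := by
      change q (algebraMap B[X] (Localization.AtPrime N) F) = _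
      rw [← hFG, map_mul]
      rfl
    have hF0 : qB F ≠ 0 := by
      rw [hF]
      exact mul_ne_zero hx0 hG.ne_zero
    have hsF : s (qB F) = 0 := by rw [hF, map_mul, hx, zero_mul]
    let _ : Algebra B D := (qB.comp C).toAlgebra
    have halg : ∀ b : B, algebraMap B D b = qB (C b) := fun b => rfl
    have hinjB : Function.Injective (algebraMap B D) := by
      rw [injective_iff_map_eq_zero]
      intro b hb
      apply hinj b
      rw [← hsq]
      change s (qB (C b)) = 0
      rw [← halg, hb, map_zero]
    have haeval : ∀ P : B[X], aeval (qB X) P = qB P := by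
      intro P
      induction P using Polynomial.induction_on with
      | C a => rw [aeval_C, halg]
      | add P Q hP hQ => rw [map_add, map_add, hP, hQ]
      | monomial k a _ => rw [map_mul, aeval_C, map_pow, aeval_X, halg, map_mul, map_pow]
    have hXalg : IsAlgebraic B (qB X) := by
      refine ⟨H, ?_, ?_⟩
      · rintro rfl
        simp at hH1
      · rw [haeval]
        change q (algebraMap B[X] (Localization.AtPrime N) H) = 0
        rw [← RingHom.mem_ker, hker]
        exact Ideal.subset_span rfl
    have hFalg : IsAlgebraic B (qB F) := by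
      have h1 : qB X ∈ Subalgebra.algebraicClosure B D := hXalg
      have h2 : aeval (qB X) F ∈ Subalgebra.algebraicClosure B D := by
        have h3 := Algebra.adjoin_le (S := Subalgebra.algebraicClosure B D)
          (Set.singleton_subset_iff.2 h1)
        exact h3 (aeval_mem_adjoin_singleton B (qB X))
      rw [haeval] at h2
      exact h2
    obtain ⟨b, hb0, y, hy⟩ := hFalg.exists_nonzero_dvd (mem_nonZeroDivisors_of_ne_zero hF0)
    apply hb0
    apply hinj b
    rw [← hsq]
    change s (qB (C b)) = 0
    rw [← halg, hy, map_mul, hsF, zero_mul]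
  rw [← hdim]
  exact (ringKrullDim_eq_of_ringEquiv (RingEquiv.ofBijective s ⟨hinjs, hsurj⟩)).symm

/-- The local ring of an etale point has the dimension of the base. -/
theorem asc_etale {n : ℕ} (hn : ringKrullDim B = n) (z : Fin n → B)
    (hz : Ideal.span (Set.range z) = maximalIdeal B)
    (N : Ideal B[X]) [N.IsPrime] (hN : N.comap C = maximalIdeal B) (hX : X ∈ N) (H : B[X])
    (hH0 : H.coeff 0 ∈ maximalIdeal B) (hH1 : H.coeff 1 = 1)
    {R : Type v} [CommRing R] [IsDomain R] (r : Localization.AtPrime N →+* R)
    (hr : Function.Surjective r)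
    (hrH : r (algebraMap B[X] (Localization.AtPrime N) H) = 0)
    (hinj : ∀ b : B, r (algebraMap B[X] (Localization.AtPrime N) (C b)) = 0 → b = 0) :
    ringKrullDim R = (n : WithBot ℕ∞) := by
  obtain ⟨D, _, q, hq, hker⟩ := asc_exists_quot
    (Ideal.span {algebraMap B[X] (Localization.AtPrime N) H})
  exact asc_etale_aux hn z hz N hN hX H hH0 hH1 r hr hrH hinj q hq hker

end Comm

end Pool.Agent.LUC
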