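import Pool.Agent.Lib.LUC.LRDefs
import Pool.Agent.Lib.LUC.Asc1

/-!
# Ascent of log uniformization: adjoining one small element to a regular local ring dominated by a
valuation ring
-/

set_option autoImplicit false

namespace Pool.Agent.LUC

open Pool.Agent.LUM (locV IsChart IsPar Mono LUat IsFrac LU)
open IsLocalRing Polynomial

universe u

section Basic

variable {k K : Type u} [CommRing k] [Field K] [Algebra k K] {V : ValuationSubring K}

theorem asc_le_locV (S : Subalgebra k K) : S ≤ locV V S := fun f hf =>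
  ⟨f, hf, 1, S.one_mem, map_one _, by rw [div_one]⟩

theorem asc_locV_mono {S T : Subalgebra k K} (h : S ≤ T) : locV V S ≤ locV V T := by
  rintro f ⟨a, ha, b, hb, h1, rfl⟩
  exact ⟨a, h ha, b, h hb, h1, rfl⟩

theorem asc_locV_le {S R : Subalgebra k K} (h : S ≤ R)
    (hR : ∀ f ∈ R, V.valuation f = 1 → f⁻¹ ∈ R) : locV V S ≤ R := by
  rintro f ⟨a, ha, b, hb, h1, rfl⟩
  rw [div_eq_mul_inv]
  exact R.mul_mem (h ha) (hR b (h hb) h1)

theorem asc_locV_inv {S : Subalgebra k K} {f : K} (hf : f ∈ locV V S) (h1 : V.valuation f = 1) :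
    f⁻¹ ∈ locV V S := by
  obtain ⟨a, ha, b, hb, hvb, rfl⟩ := hf
  refine ⟨b, hb, a, ha, ?_, by rw [inv_div]⟩
  rwa [map_div₀, hvb, div_one] at h1

theorem asc_locV_mem {S : Subalgebra k K} (hS : ∀ f ∈ S, f ∈ V) : ∀ f ∈ locV V S, f ∈ V := by
  rintro f ⟨a, ha, b, hb, h1, rfl⟩
  rw [← V.valuation_le_one_iff, map_div₀, h1, div_one, V.valuation_le_one_iff]
  exact hS a ha

/-- A noetherian local subring dominated by `V`, closed under the inverses of the units of `V`. -/
structure Dom (V : ValuationSubring K) (B : Subalgebra k K) : Prop where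
  mem : ∀ b ∈ B, b ∈ V
  inv : ∀ b ∈ B, V.valuation b = 1 → b⁻¹ ∈ B
  noe : IsNoetherianRing B

theorem Dom.val_le {B : Subalgebra k K} (h : Dom V B) {b : K} (hb : b ∈ B) : V.valuation b ≤ 1 :=
  (V.valuation_le_one_iff _).2 (h.mem b hb)

theorem Dom.isUnit_iff {B : Subalgebra k K} (h : Dom V B) (b : B) :
    IsUnit b ↔ V.valuation (b : K) = 1 := by
  constructor
  · intro hu
    obtain ⟨y, hy⟩ := hu.exists_right_inv
    have h1 : (b : K) * (y : K) = 1 := congrArg (fun t : B => (t : K)) hy
    refine le_antisymm (h.val_le b.2) (not_lt.1 fun h2 => ?_)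
    have h3 : V.valuation ((b : K) * (y : K)) < 1 := by
      rw [map_mul]
      exact mul_lt_of_lt_of_le_one h2 (h.val_le y.2)
    rw [h1, map_one] at h3
    exact lt_irrefl _ h3
  · intro h1
    have hb0 : (b : K) ≠ 0 := by
      intro h
      rw [h, map_zero] at h1
      exact zero_ne_one h1
    exact IsUnit.of_mul_eq_one ⟨_, h.inv b b.2 h1⟩ (Subtype.ext (mul_inv_cancel₀ hb0))

theorem Dom.not_isUnit_iff {B : Subalgebra k K} (h : Dom V B) (b : B) :
    ¬ IsUnit b ↔ V.valuation (b : K) < 1 := by
  rw [h.isUnit_iff]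
  exact ⟨fun h1 => lt_of_le_of_ne (h.val_le b.2) h1, fun h1 => h1.ne⟩

theorem Dom.isLocalRing {B : Subalgebra k K} (h : Dom V B) : IsLocalRing B := by
  apply IsLocalRing.of_nonunits_add
  intro a b ha hb
  rw [mem_nonunits_iff, h.not_isUnit_iff] at ha hb ⊢
  exact lt_of_le_of_lt (V.valuation.map_add _ _) (max_lt ha hb)

theorem Dom.mem_max {B : Subalgebra k K} (h : Dom V B) [IsLocalRing B] (b : B) :
    b ∈ maximalIdeal B ↔ V.valuation (b : K) < 1 := by
  rw [mem_maximalIdeal, mem_nonunits_iff, h.not_isUnit_iff]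

theorem Dom.regular {B : Subalgebra k K} (h : Dom V B) {n : ℕ} {z : Fin n → K}
    (hz : IsPar V B z) :
    ∃ _ : IsRegularLocalRing B, Ideal.span (Set.range fun i => (⟨z i, hz.mem i⟩ : B)) =
      maximalIdeal B := by
  classical
  have hnoe := h.noe
  have hloc := h.isLocalRing
  let zz : Fin n → B := fun i => ⟨z i, hz.mem i⟩
  have hm : maximalIdeal B ≤ Ideal.span (Set.range zz) := by
    intro f hf
    obtain ⟨a, ha, he⟩ := hz.gen f f.2 ((h.mem_max f).1 hf)
    have : f = ∑ i, (⟨a i, ha i⟩ : B) * zz i := by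
      ext
      simp only [AddSubmonoidClass.coe_finsetSum, MulMemClass.coe_mul, zz]
      exact he
    rw [this]
    exact Ideal.sum_mem _ fun i _ => Ideal.mul_mem_left _ _ (Ideal.subset_span ⟨i, rfl⟩)
  have hm' : Ideal.span (Set.range zz) ≤ maximalIdeal B := by
    rw [Ideal.span_le]
    rintro _ ⟨i, rfl⟩
    exact (h.mem_max _).2 (hz.pos i)
  have hmm : Ideal.span (Set.range zz) = maximalIdeal B := le_antisymm hm' hm
  refine ⟨?_, hmm⟩
  apply IsRegularLocalRing.of_spanFinrank_maximalIdeal_le
  rw [hz.dim, ← hmm]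
  have hcard : (Set.range zz).ncard ≤ n := by
    rw [← Set.image_univ]
    refine (Set.ncard_image_le Set.finite_univ).trans ?_
    rw [Set.ncard_univ, Nat.card_eq_fintype_card, Fintype.card_fin]
  exact_mod_cast (Submodule.spanFinrank_span_le_ncard_of_finite (Set.finite_range zz)).trans hcard

/-- The subring generated by `B` and `u`. -/
def adjU (B : Subalgebra k K) (u : K) : Subalgebra k K := Algebra.adjoin k ((B : Set K) ∪ {u})

theorem le_adjU (B : Subalgebra k K) (u : K) : B ≤ adjU B u := fun _ hb =>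
  Algebra.subset_adjoin (Or.inl hb)

theorem mem_adjU (B : Subalgebra k K) (u : K) : u ∈ adjU B u :=
  Algebra.subset_adjoin (Or.inr rfl)

theorem aeval_mem_adjU {B : Subalgebra k K} {u : K} (F : Polynomial B) :
    aeval u F ∈ adjU B u := by
  induction F using Polynomial.induction_on with
  | C a => rw [aeval_C]; exact le_adjU B u a.2
  | add P Q hP hQ => rw [map_add]; exact (adjU B u).add_mem hP hQ
  | monomial n a _ =>
    rw [map_mul, aeval_C, map_pow, aeval_X]
    exact (adjU B u).mul_mem (le_adjU B u a.2) ((adjU B u).pow_mem (mem_adjU B u) _)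

theorem exists_aeval {B : Subalgebra k K} {u : K} {f : K} (hf : f ∈ adjU B u) :
    ∃ F : Polynomial B, aeval u F = f := by
  induction hf using Algebra.adjoin_induction with
  | mem x hx =>
    rcases hx with hx | hx
    · exact ⟨C ⟨x, hx⟩, by rw [aeval_C]; rfl⟩
    · rw [Set.mem_singleton_iff] at hx
      exact ⟨X, by rw [aeval_X, hx]⟩
  | algebraMap c => exact ⟨C (algebraMap k B c), by rw [aeval_C]; rfl⟩
  | add x y _ _ hx hy =>
    obtain ⟨F, rfl⟩ := hx
    obtain ⟨G, rfl⟩ := hy
    exact ⟨F + G, map_add _ _ _⟩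
  | mul x y _ _ hx hy =>
    obtain ⟨F, rfl⟩ := hx
    obtain ⟨G, rfl⟩ := hy
    exact ⟨F * G, map_mul _ _ _⟩

theorem aeval_mem_V {B : Subalgebra k K} (hB : ∀ b ∈ B, b ∈ V) {u : K} (hu : u ∈ V)
    (F : Polynomial B) : aeval u F ∈ V := by
  induction F using Polynomial.induction_on with
  | C a => rw [aeval_C]; exact hB a a.2
  | add P Q hP hQ => rw [map_add]; exact V.add_mem _ _ hP hQ
  | monomial n a _ =>
    rw [map_mul, aeval_C, map_pow, aeval_X]
    exact V.mul_mem _ _ (hB a a.2) (pow_mem hu _)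

/-- The value of a polynomial in a small element. -/
theorem aeval_split {B : Subalgebra k K} {u : K} (F : Polynomial B) :
    aeval u F = (F.coeff 0 : K) + u * aeval u F.divX := by
  conv_lhs => rw [← divX_mul_X_add F]
  rw [map_add, map_mul, aeval_X, aeval_C, add_comm, mul_comm]
  rfl

end Basic

section Adj

variable {k K : Type u} [CommRing k] [Field K] [Algebra k K] {V : ValuationSubring K}

/-- The polynomials with value in the maximal ideal of `V`. -/
private def ascN (B : Subalgebra k K) (hB : ∀ b ∈ B, b ∈ V) (u : K) (hu : u ∈ V) :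
    Ideal (Polynomial B) where
  carrier := {F | V.valuation (aeval u F) < 1}
  zero_mem' := by simp
  add_mem' := by
    intro F G hF hG
    rw [Set.mem_ofPred_eq, map_add]
    exact lt_of_le_of_lt (V.valuation.map_add _ _) (max_lt hF hG)
  smul_mem' := by
    intro F G hG
    rw [Set.mem_ofPred_eq, smul_eq_mul, map_mul, map_mul]
    exact lt_of_le_of_lt (mul_le_of_le_one_left'
      ((V.valuation_le_one_iff _).2 (aeval_mem_V hB hu F))) hG

private theorem ascN_prime (B : Subalgebra k K) (hB : ∀ b ∈ B, b ∈ V) (u : K) (hu : u ∈ V) :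
    (ascN B hB u hu).IsPrime := by
  have hle : ∀ F : Polynomial B, V.valuation (aeval u F) ≤ 1 := fun F =>
    (V.valuation_le_one_iff _).2 (aeval_mem_V hB hu F)
  constructor
  · intro h
    have h1 : (1 : Polynomial B) ∈ ascN B hB u hu := by rw [h]; trivial
    have h2 : V.valuation (aeval u (1 : Polynomial B)) < 1 := h1
    simp at h2
  · intro F G h
    have h' : V.valuation (aeval u (F * G)) < 1 := h
    by_contra hcon
    push Not at hcon
    have h1 : V.valuation (aeval u F) = 1 := le_antisymm (hle F) (not_lt.1 hcon.1)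
    have h2 : V.valuation (aeval u G) = 1 := le_antisymm (hle G) (not_lt.1 hcon.2)
    rw [map_mul, map_mul, h1, h2, one_mul] at h'
    exact lt_irrefl _ h'

variable {B : Subalgebra k K}

/-- The local ring of the affine line maps onto the local ring of `B[u]`. -/
private theorem asc_exists_map (hD : Dom V B) {u : K} (hu : V.valuation u < 1)
    [(ascN B hD.mem u ((V.valuation_le_one_iff _).1 hu.le)).IsPrime] :
    ∃ r : Localization.AtPrime (ascN B hD.mem u ((V.valuation_le_one_iff _).1 hu.le)) →+*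
      locV V (adjU B u), Function.Surjective r ∧ ∀ F : Polynomial B,
        ((r (algebraMap _ _ F) : locV V (adjU B u)) : K) = aeval u F := by
  have huV : u ∈ V := (V.valuation_le_one_iff _).1 hu.le
  set N := ascN B hD.mem u huV with hN
  let g : Polynomial B →+* locV V (adjU B u) :=
    { toFun := fun F => ⟨aeval u F, asc_le_locV _ (aeval_mem_adjU F)⟩
      map_one' := Subtype.ext (map_one _)
      map_mul' := fun F G => Subtype.ext (map_mul _ F G)
      map_zero' := Subtype.ext (map_zero _)
      map_add' := fun F G => Subtype.ext (map_add _ F G) }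
  have hmem : ∀ F : Polynomial B, F ∈ N.primeCompl ↔ V.valuation (aeval u F) = 1 := by
    intro F
    change ¬ (V.valuation (aeval u F) < 1) ↔ _
    rw [not_lt]
    exact ⟨fun h => le_antisymm ((V.valuation_le_one_iff _).2 (aeval_mem_V hD.mem huV F)) h,
      fun h => h.ge⟩
  have hg : ∀ y : N.primeCompl, IsUnit (g y) := by
    intro y
    have hy := (hmem _).1 y.2
    have hy0 : aeval u (y : Polynomial B) ≠ 0 := by
      intro h
      rw [h, map_zero] at hy
      exact zero_ne_one hy
    refine IsUnit.of_mul_eq_one ⟨_, asc_locV_inv (asc_le_locV _ (aeval_mem_adjU _)) hy⟩ ?_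
    exact Subtype.ext (mul_inv_cancel₀ hy0)
  refine ⟨IsLocalization.lift (M := N.primeCompl) hg, ?_, fun F => ?_⟩
  · rintro ⟨f, a, ha, b, hb, hb1, rfl⟩
    obtain ⟨F, hF⟩ := exists_aeval ha
    obtain ⟨G, hG⟩ := exists_aeval hb
    have hGN : G ∈ N.primeCompl := (hmem G).2 (by rw [hG, hb1])
    refine ⟨IsLocalization.mk' _ F ⟨G, hGN⟩, ?_⟩
    rw [IsLocalization.lift_mk'_spec]
    have hb0 : b ≠ 0 := by rintro rfl; simp at hb1
    apply Subtype.ext
    change aeval u F = aeval u G * (a / b)
    rw [hF, hG, mul_div_cancel₀ _ hb0]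
  · rw [IsLocalization.lift_eq]
    rfl

private theorem asc_mem_N (hD : Dom V B) {u : K} (hu : V.valuation u < 1) (b : B) :
    (C b ∈ ascN B hD.mem u ((V.valuation_le_one_iff _).1 hu.le)) ↔ V.valuation (b : K) < 1 := by
  change V.valuation (aeval u (C b)) < 1 ↔ _
  rw [aeval_C]
  rfl

/-- Division by the units of `V`, for the generation of the maximal ideal. -/
private theorem asc_gen (hD : Dom V B) {u : K} (hu : V.valuation u < 1) {f : K}
    (hf : f ∈ locV V (adjU B u)) (hf1 : V.valuation f < 1) :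
    ∃ b ∈ B, V.valuation b < 1 ∧ ∃ c ∈ locV V (adjU B u), ∃ d ∈ locV V (adjU B u),
      f = d * b + c * u := by
  obtain ⟨a, ha, b, hb, hb1, rfl⟩ := hf
  obtain ⟨F, hF⟩ := exists_aeval ha
  have huV : u ∈ V := (V.valuation_le_one_iff _).1 hu.le
  have hb0 : b ≠ 0 := by rintro rfl; simp at hb1
  have hbi : b⁻¹ ∈ locV V (adjU B u) := asc_locV_inv (asc_le_locV _ hb) hb1
  have ha1 : V.valuation a < 1 := by
    rwa [map_div₀, hb1, div_one] at hf1
  have h1 := aeval_split (u := u) F
  have h2 : V.valuation (F.coeff 0 : K) < 1 := by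
    have h3 : (F.coeff 0 : K) = a - u * aeval u F.divX := by rw [← hF, h1]; ring
    rw [h3]
    refine lt_of_le_of_lt (V.valuation.map_sub _ _) (max_lt ha1 ?_)
    rw [map_mul]
    exact mul_lt_of_lt_of_le_one hu ((V.valuation_le_one_iff _).2 (aeval_mem_V hD.mem huV _))
  refine ⟨F.coeff 0, (F.coeff 0).2, h2, aeval u F.divX * b⁻¹,
    (locV V (adjU B u)).mul_mem (asc_le_locV _ (aeval_mem_adjU _)) hbi, b⁻¹, hbi, ?_⟩
  rw [← hF, h1]
  field_simp

/-- A transcendental element of positive value is a new parameter. -/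
theorem isPar_adjU_of_transcendental (hD : Dom V B) {n : ℕ} {z : Fin n → K} (hz : IsPar V B z)
    {u : K} (hu : V.valuation u < 1) (hut : ∀ F : Polynomial B, aeval u F = 0 → F = 0) :
    IsPar V (locV V (adjU B u)) (Fin.snoc z u : Fin (n + 1) → K) := by
  have hle : B ≤ locV V (adjU B u) := (le_adjU B u).trans (asc_le_locV _)
  have humem : u ∈ locV V (adjU B u) := asc_le_locV _ (mem_adjU B u)
  have hu0 : u ≠ 0 := by
    rintro rfl
    have h1 := hut X (by rw [aeval_X])
    exact X_ne_zero h1
  have huV : u ∈ V := (V.valuation_le_one_iff _).1 hu.le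
  refine ⟨?_, ?_, ?_, ?_, ?_⟩
  · intro i
    refine Fin.lastCases ?_ (fun j => ?_) i
    · rw [Fin.snoc_last]; exact humem
    · rw [Fin.snoc_castSucc]; exact hle (hz.mem j)
  · intro i
    refine Fin.lastCases ?_ (fun j => ?_) i
    · rw [Fin.snoc_last]; exact hu0
    · rw [Fin.snoc_castSucc]; exact hz.ne j
  · intro i
    refine Fin.lastCases ?_ (fun j => ?_) i
    · rw [Fin.snoc_last]; exact hu
    · rw [Fin.snoc_castSucc]; exact hz.pos j
  · intro f hf hf1
    obtain ⟨b, hb, hb1, c, hc, d, hd, rfl⟩ := asc_gen hD hu hf hf1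
    obtain ⟨a, ha, hba⟩ := hz.gen b hb hb1
    refine ⟨Fin.snoc (fun i => d * a i) c, ?_, ?_⟩
    · intro i
      refine Fin.lastCases ?_ (fun j => ?_) i
      · rw [Fin.snoc_last]; exact hc
      · rw [Fin.snoc_castSucc]; exact (locV V (adjU B u)).mul_mem hd (hle (ha j))
    · rw [Fin.sum_univ_castSucc]
      simp only [Fin.snoc_castSucc, Fin.snoc_last]
      rw [hba, Finset.mul_sum]
      congr 1
      exact Finset.sum_congr rfl fun i _ => by ring
  · obtain ⟨hreg, hspan⟩ := hD.regular hz
    have hN := ascN_prime B hD.mem u huV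
    obtain ⟨r, hr, hrF⟩ := asc_exists_map hD hu
    obtain ⟨-, hdim⟩ := asc_dim hz.dim (ascN B hD.mem u huV) (by
      ext b
      rw [Ideal.mem_comap, hD.mem_max]
      exact asc_mem_N hD hu b) (by
      change V.valuation (aeval u X) < 1
      rwa [aeval_X])
    have hinj : Function.Injective r := by
      rw [injective_iff_map_eq_zero]
      intro e he
      obtain ⟨⟨F, G⟩, hFG⟩ := IsLocalization.surj (ascN B hD.mem u huV).primeCompl e
      simp only at hFG
      have h1 : r (algebraMap _ _ F) = 0 := by rw [← hFG, map_mul, he, zero_mul]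
      have h2 : aeval u F = 0 := by
        rw [← hrF F, h1]
        rfl
      have h3 := hut F h2
      rw [h3, map_zero] at hFG
      exact (IsLocalization.map_units _ G).mul_left_eq_zero.1 hFG
    rw [← hdim]
    exact (ringKrullDim_eq_of_ringEquiv (RingEquiv.ofBijective r ⟨hinj, hr⟩)).symm

/-- Adjoining a small root of an etale equation does not change the parameters. -/
theorem isPar_adjU_of_etale (hD : Dom V B) {n : ℕ} {z : Fin n → K} (hz : IsPar V B z)
    {u : K} (hu : V.valuation u < 1) (H : Polynomial B) (hH : aeval u H = 0)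
    (hH1 : H.coeff 1 = 1) :
    IsPar V (locV V (adjU B u)) z := by
  have hle : B ≤ locV V (adjU B u) := (le_adjU B u).trans (asc_le_locV _)
  have humem : u ∈ locV V (adjU B u) := asc_le_locV _ (mem_adjU B u)
  have huV : u ∈ V := (V.valuation_le_one_iff _).1 hu.le
  have hle1 : ∀ F : Polynomial B, V.valuation (aeval u F) ≤ 1 := fun F =>
    (V.valuation_le_one_iff _).2 (aeval_mem_V hD.mem huV F)
  have h0 : (H.coeff 0 : K) + u * (1 + u * aeval u H.divX.divX) = 0 := by
    have h1 := aeval_split (u := u) H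
    have h2 := aeval_split (u := u) H.divX
    rw [coeff_divX, zero_add, hH1] at h2
    rw [hH, h2] at h1
    exact h1.symm
  have hval : V.valuation (1 + u * aeval u H.divX.divX) = 1 := by
    rw [Valuation.map_add_eq_of_lt_left, map_one]
    rw [map_one, map_mul]
    exact mul_lt_of_lt_of_le_one hu (hle1 _)
  have hne : (1 + u * aeval u H.divX.divX) ≠ 0 := by
    intro h
    rw [h, map_zero] at hval
    exact zero_ne_one hval
  have hH0 : V.valuation (H.coeff 0 : K) < 1 := by
    have h1 : (H.coeff 0 : K) = - (u * (1 + u * aeval u H.divX.divX)) := by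
      linear_combination h0
    rw [h1, Valuation.map_neg, map_mul, hval, mul_one]
    exact hu
  have hinvm : (1 + u * aeval u H.divX.divX)⁻¹ ∈ locV V (adjU B u) :=
    asc_locV_inv (asc_le_locV _ ((adjU B u).add_mem (adjU B u).one_mem
      ((adjU B u).mul_mem (mem_adjU B u) (aeval_mem_adjU _)))) hval
  have hux : u = - (1 + u * aeval u H.divX.divX)⁻¹ * (H.coeff 0 : K) := by
    have h1 : (H.coeff 0 : K) = - (u * (1 + u * aeval u H.divX.divX)) := by
      linear_combination h0
    rw [h1, neg_mul_neg, ← mul_assoc, mul_comm _ u, mul_assoc, inv_mul_cancel₀ hne, mul_one]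
  refine ⟨fun i => hle (hz.mem i), hz.ne, hz.pos, ?_, ?_⟩
  · intro f hf hf1
    obtain ⟨b, hb, hb1, c, hc, d, hd, rfl⟩ := asc_gen hD hu hf hf1
    obtain ⟨a, ha, hba⟩ := hz.gen b hb hb1
    obtain ⟨a', ha', hba'⟩ := hz.gen (H.coeff 0 : K) (H.coeff 0).2 hH0
    refine ⟨fun i => d * a i + c * (- (1 + u * aeval u H.divX.divX)⁻¹) * a' i, ?_, ?_⟩
    · intro i
      exact (locV V (adjU B u)).add_mem ((locV V (adjU B u)).mul_mem hd (hle (ha i)))
        ((locV V (adjU B u)).mul_mem ((locV V (adjU B u)).mul_mem hc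
          ((locV V (adjU B u)).neg_mem hinvm)) (hle (ha' i)))
    · calc d * b + c * u = d * b + c * (- (1 + u * aeval u H.divX.divX)⁻¹ * (H.coeff 0 : K)) := by
            rw [← hux]
        _ = d * (∑ i, a i * z i) + c * (- (1 + u * aeval u H.divX.divX)⁻¹) *
              (∑ i, a' i * z i) := by
            rw [← hba, ← hba']
            ring
        _ = _ := by
            rw [Finset.mul_sum, Finset.mul_sum, ← Finset.sum_add_distrib]
            exact Finset.sum_congr rfl fun i _ => by ring
  · obtain ⟨hreg, hspan⟩ := hD.regular hz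
    have hN := ascN_prime B hD.mem u huV
    obtain ⟨r, hr, hrF⟩ := asc_exists_map hD hu
    refine asc_etale hz.dim (fun i => (⟨z i, hz.mem i⟩ : B)) hspan (ascN B hD.mem u huV) (by
      ext b
      rw [Ideal.mem_comap, hD.mem_max]
      exact asc_mem_N hD hu b) (by
      change V.valuation (aeval u X) < 1
      rwa [aeval_X]) H ((hD.mem_max _).2 hH0) hH1 r hr ?_ ?_
    · apply Subtype.ext
      rw [hrF H, hH]
      rfl
    · intro b hb
      have h1 := hrF (C b)
      rw [hb, aeval_C] at h1
      exact Subtype.ext h1.symm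

end Adj

end Pool.Agent.LUC
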