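import Pool.Agent.Lib.LUC.Asc2

/-!
# Ascent of log uniformization: monomials
-/

set_option autoImplicit false

namespace Pool.Agent.LUC

open Pool.Agent.LUM (locV IsChart IsPar Mono LUat IsFrac LU)
open IsLocalRing Polynomial

universe u

section Val

variable {F K : Type u} [Field F] [Field K] {V : ValuationSubring K} {V₁ : ValuationSubring F}
  {j : F →+* K}

theorem ext_le (hj : ∀ x, x ∈ V₁ ↔ j x ∈ V) (a b : F) :
    V₁.valuation a ≤ V₁.valuation b ↔ V.valuation (j a) ≤ V.valuation (j b) := by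
  by_cases hb : b = 0
  · subst hb
    rw [map_zero, map_zero, map_zero, le_zero_iff, le_zero_iff, Valuation.zero_iff,
      Valuation.zero_iff, map_eq_zero]
  · have h1 : V₁.valuation b ≠ 0 := (Valuation.ne_zero_iff _).2 hb
    have h2 : V.valuation (j b) ≠ 0 := (Valuation.ne_zero_iff _).2 ((map_ne_zero j).2 hb)
    have h3 := hj (a / b)
    rw [← V₁.valuation_le_one_iff, ← V.valuation_le_one_iff, map_div₀, map_div₀, map_div₀,
      div_le_one₀ (zero_lt_iff.2 h1), div_le_one₀ (zero_lt_iff.2 h2)] at h3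
    exact h3

theorem ext_lt (hj : ∀ x, x ∈ V₁ ↔ j x ∈ V) (a b : F) :
    V₁.valuation a < V₁.valuation b ↔ V.valuation (j a) < V.valuation (j b) := by
  rw [← not_le, ext_le hj, not_le]

theorem ext_eq (hj : ∀ x, x ∈ V₁ ↔ j x ∈ V) (a b : F) :
    V₁.valuation a = V₁.valuation b ↔ V.valuation (j a) = V.valuation (j b) := by
  rw [le_antisymm_iff, le_antisymm_iff, ext_le hj, ext_le hj]

theorem ext_lt_one (hj : ∀ x, x ∈ V₁ ↔ j x ∈ V) (a : F) :
    V₁.valuation a < 1 ↔ V.valuation (j a) < 1 := by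
  have h := ext_lt hj a 1
  rwa [map_one, map_one, map_one] at h

theorem ext_one_lt (hj : ∀ x, x ∈ V₁ ↔ j x ∈ V) (a : F) :
    1 < V₁.valuation a ↔ 1 < V.valuation (j a) := by
  have h := ext_lt hj 1 a
  rwa [map_one, map_one, map_one] at h

theorem ext_eq_one (hj : ∀ x, x ∈ V₁ ↔ j x ∈ V) (a : F) :
    V₁.valuation a = 1 ↔ V.valuation (j a) = 1 := by
  have h := ext_eq hj a 1
  rwa [map_one, map_one, map_one] at h

theorem ext_le_one (hj : ∀ x, x ∈ V₁ ↔ j x ∈ V) (a : F) :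
    V₁.valuation a ≤ 1 ↔ V.valuation (j a) ≤ 1 := by
  have h := ext_le hj a 1
  rwa [map_one, map_one, map_one] at h

end Val

section SMono

variable {k K : Type u} [CommRing k] [Field K] [Algebra k K] {V : ValuationSubring K}
  {R : Subalgebra k K} {n : ℕ} {z : Fin n → K} {J : Finset (Fin n)}

theorem SMonoV.one' : SMonoV V R z J (1 : K) :=
  ⟨0, 1, R.one_mem, map_one _, by simp, fun _ _ => rfl, fun h => absurd h (by simp),
    fun h => absurd h (by simp), fun _ _ => rfl⟩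

theorem SMonoV.mul' (hz : ∀ i, z i ≠ 0) {s t : K} (hs : SMonoV V R z J s) (ht : SMonoV V R z J t)
    (hs1 : V.valuation s ≤ 1) (ht1 : V.valuation t ≤ 1) : SMonoV V R z J (s * t) := by
  obtain ⟨e, w, hw, hw1, hse, hoff, hpos, hneg, hone⟩ := hs
  obtain ⟨e', w', hw', hw1', hte, hoff', hpos', hneg', hone'⟩ := ht
  have h0 : ∀ i, 0 ≤ e i := by
    intro i
    rcases hs1.eq_or_lt with h | h
    · exact (hone h i).ge
    · by_cases hi : i ∈ J
      · exact (hpos h i hi).le
      · exact (hoff i hi).ge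
  have h0' : ∀ i, 0 ≤ e' i := by
    intro i
    rcases ht1.eq_or_lt with h | h
    · exact (hone' h i).ge
    · by_cases hi : i ∈ J
      · exact (hpos' h i hi).le
      · exact (hoff' i hi).ge
  refine ⟨e + e', w * w', R.mul_mem hw hw', by rw [map_mul, hw1, hw1', one_mul], ?_, ?_, ?_, ?_, ?_⟩
  · have : ∀ i, z i ^ (e + e') i = z i ^ e i * z i ^ e' i := fun i => by
      rw [Pi.add_apply, zpow_add₀ (hz i)]
    simp_rw [this]
    rw [Finset.prod_mul_distrib]
    rw [hse, hte]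
    ring
  · intro i hi
    rw [Pi.add_apply, hoff i hi, hoff' i hi, add_zero]
  · intro h i hi
    rw [Pi.add_apply]
    rcases hs1.eq_or_lt with h1 | h1
    · rcases ht1.eq_or_lt with h2 | h2
      · rw [map_mul, h1, h2, one_mul] at h
        exact absurd h (lt_irrefl _)
      · exact add_pos_of_nonneg_of_pos (h0 i) (hpos' h2 i hi)
    · exact add_pos_of_pos_of_nonneg (hpos h1 i hi) (h0' i)
  · intro h
    rw [map_mul] at h
    exact absurd h (not_lt.2 (mul_le_one' hs1 ht1))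
  · intro h i
    rw [map_mul] at h
    have h1 : V.valuation s = 1 := by
      by_contra h3
      exact absurd h (mul_lt_of_lt_of_le_one (lt_of_le_of_ne hs1 h3) ht1).ne
    have h2 : V.valuation t = 1 := by
      by_contra h3
      exact absurd h (mul_lt_of_le_one_of_lt hs1 (lt_of_le_of_ne ht1 h3)).ne
    rw [Pi.add_apply, hone h1, hone' h2, add_zero]

theorem SMonoV.mul_unit {s w : K} (hs : SMonoV V R z J s) (hw : w ∈ R) (hw1 : V.valuation w = 1) :
    SMonoV V R z J (s * w) := by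
  obtain ⟨e, w', hw', hw1', hse, hoff, hpos, hneg, hone⟩ := hs
  have hv : V.valuation (s * w) = V.valuation s := by rw [map_mul, hw1, mul_one]
  refine ⟨e, w' * w, R.mul_mem hw' hw, by rw [map_mul, hw1, hw1', one_mul], ?_, hoff, ?_, ?_, ?_⟩
  · rw [hse]
    ring
  · rw [hv]; exact hpos
  · rw [hv]; exact hneg
  · rw [hv]; exact hone

theorem SMonoV.mem {s : K} (hs : SMonoV V R z J s) (hz : ∀ i, z i ∈ R) (hs1 : V.valuation s ≤ 1) :
    s ∈ R := by
  obtain ⟨e, w, hw, hw1, hse, hoff, hpos, hneg, hone⟩ := hs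
  have h0 : ∀ i, 0 ≤ e i := by
    intro i
    rcases hs1.eq_or_lt with h | h
    · exact (hone h i).ge
    · by_cases hi : i ∈ J
      · exact (hpos h i hi).le
      · exact (hoff i hi).ge
  rw [hse]
  refine R.mul_mem (R.prod_mem fun i _ => ?_) hw
  obtain ⟨m, hm⟩ := Int.eq_ofNat_of_zero_le (h0 i)
  rw [hm, zpow_natCast]
  exact R.pow_mem (hz i) _

theorem SMonoV.prod' {ι : Type u} (s : Finset ι) (f : ι → K) (hz : ∀ i, z i ≠ 0)
    (hf : ∀ i ∈ s, SMonoV V R z J (f i)) (hf1 : ∀ i ∈ s, V.valuation (f i) ≤ 1) :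
    SMonoV V R z J (∏ i ∈ s, f i) ∧ V.valuation (∏ i ∈ s, f i) ≤ 1 := by
  classical
  induction s using Finset.induction_on with
  | empty =>
    rw [Finset.prod_empty]
    exact ⟨SMonoV.one', by rw [map_one]⟩
  | insert a s ha ih =>
    rw [Finset.prod_insert ha]
    obtain ⟨h1, h2⟩ := ih (fun i hi => hf i (Finset.mem_insert_of_mem hi))
      (fun i hi => hf1 i (Finset.mem_insert_of_mem hi))
    have h3 := hf a (Finset.mem_insert_self _ _)
    have h4 := hf1 a (Finset.mem_insert_self _ _)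
    exact ⟨SMonoV.mul' hz h3 h1 h4 h2, by rw [map_mul]; exact mul_le_one' h4 h2⟩

theorem SMonoV.pow' {s : K} (hz : ∀ i, z i ≠ 0) (hs : SMonoV V R z J s)
    (hs1 : V.valuation s ≤ 1) (N : ℕ) :
    SMonoV V R z J (s ^ N) ∧ V.valuation (s ^ N) ≤ 1 := by
  induction N with
  | zero => rw [pow_zero]; exact ⟨SMonoV.one', by rw [map_one]⟩
  | succ N ih =>
    rw [pow_succ]
    exact ⟨SMonoV.mul' hz ih.1 hs ih.2 hs1, by rw [map_mul]; exact mul_le_one' ih.2 hs1⟩

end SMono

section Transfer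

variable {k F K : Type u} [CommRing k] [Field F] [Field K] [Algebra k F] [Algebra k K]
  {V : ValuationSubring K} {V₁ : ValuationSubring F} {j : F →ₐ[k] K}

/-- Transfer of monomials to a larger regular local ring. -/
theorem SMonoV.map (hj : ∀ x, x ∈ V₁ ↔ j x ∈ V) {R₁ : Subalgebra k F} {R : Subalgebra k K}
    (hR : ∀ x ∈ R₁, j x ∈ R) {n n' : ℕ} {z : Fin n → F} {z' : Fin n' → K} {f : Fin n → Fin n'}
    (hf : Function.Injective f) (hz : ∀ i, z' (f i) = j (z i)) {J : Finset (Fin n)} {t : F}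
    (h : SMonoV V₁ R₁ z J t) : SMonoV V R z' (J.image f) (j t) := by
  classical
  have hj' : ∀ x, x ∈ V₁ ↔ (j : F →+* K) x ∈ V := hj
  obtain ⟨e, w, hw, hw1, hse, hoff, hpos, hneg, hone⟩ := h
  obtain ⟨e', he', he'0⟩ : ∃ e' : Fin n' → ℤ, (∀ i, e' (f i) = e i) ∧
      ∀ i, i ∉ Set.range f → e' i = 0 := by
    refine ⟨Function.extend f e 0, fun i => hf.extend_apply _ _ _, fun i hi => ?_⟩
    rw [Function.extend_apply' _ _ _ (by simpa using hi)]
    rfl
  refine ⟨e', j w, hR w hw, (ext_eq_one hj' w).1 hw1, ?_, ?_, ?_, ?_, ?_⟩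
  · rw [hse, map_mul, map_prod]
    congr 1
    have h1 : ∏ i, z' i ^ e' i = ∏ i ∈ Finset.univ.image f, z' i ^ e' i := by
      symm
      apply Finset.prod_subset (Finset.subset_univ _)
      intro i _ hi
      rw [he'0 i (by simpa using hi), zpow_zero]
    rw [h1, Finset.prod_image (fun a _ b _ hab => hf hab)]
    refine Finset.prod_congr rfl fun i _ => ?_
    rw [hz, he', map_zpow₀]
  · intro i hi
    by_cases hr : i ∈ Set.range f
    · obtain ⟨a, rfl⟩ := hr
      rw [he']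
      apply hoff
      intro ha
      exact hi (Finset.mem_image_of_mem f ha)
    · exact he'0 i hr
  · intro h1 i hi
    obtain ⟨a, ha, rfl⟩ := Finset.mem_image.1 hi
    rw [he']
    exact hpos ((ext_lt_one hj' t).2 h1) a ha
  · intro h1 i hi
    obtain ⟨a, ha, rfl⟩ := Finset.mem_image.1 hi
    rw [he']
    exact hneg ((ext_one_lt hj' t).2 h1) a ha
  · intro h1 i
    by_cases hr : i ∈ Set.range f
    · obtain ⟨a, rfl⟩ := hr
      rw [he']
      exact hone ((ext_eq_one hj' t).2 h1) a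
    · exact he'0 i hr

/-- Transfer of the parameters to the image of the local ring. -/
theorem IsPar.map' (hj : ∀ x, x ∈ V₁ ↔ j x ∈ V) {R₁ : Subalgebra k F} {n : ℕ} {z : Fin n → F}
    (h : IsPar V₁ R₁ z) : IsPar V (R₁.map j) (fun i => j (z i)) := by
  have hj' : ∀ x, x ∈ V₁ ↔ (j : F →+* K) x ∈ V := hj
  refine ⟨fun i => ⟨z i, h.mem i, rfl⟩, fun i => (map_ne_zero j).2 (h.ne i),
    fun i => (ext_lt_one hj' _).1 (h.pos i), ?_, ?_⟩
  · rintro _ ⟨f, hf, rfl⟩ hf1
    obtain ⟨a, ha, hfa⟩ := h.gen f hf ((ext_lt_one hj' _).2 hf1)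
    refine ⟨fun i => j (a i), fun i => ⟨a i, ha i, rfl⟩, ?_⟩
    change j f = _
    rw [hfa, map_sum]
    exact Finset.sum_congr rfl fun i _ => map_mul _ _ _
  · rw [← h.dim]
    exact (ringKrullDim_eq_of_ringEquiv
      (R₁.equivMapOfInjective j j.toRingHom.injective).toRingEquiv).symm

theorem Dom.map' (hj : ∀ x, x ∈ V₁ ↔ j x ∈ V) {R₁ : Subalgebra k F} (h : Dom V₁ R₁) :
    Dom V (R₁.map j) := by
  have hj' : ∀ x, x ∈ V₁ ↔ (j : F →+* K) x ∈ V := hj
  refine ⟨?_, ?_, ?_⟩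
  · rintro _ ⟨f, hf, rfl⟩
    exact (hj f).1 (h.mem f hf)
  · rintro _ ⟨f, hf, rfl⟩ h1
    refine ⟨f⁻¹, h.inv f hf ((ext_eq_one hj' _).2 h1), ?_⟩
    exact map_inv₀ j f
  · have := h.noe
    exact isNoetherianRing_of_ringEquiv R₁
      (R₁.equivMapOfInjective j j.toRingHom.injective).toRingEquiv

end Transfer

end Pool.Agent.LUC
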