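import Pool.Agent.Lib.LUC.Asc3

/-!
# Ascent of log uniformization: models and Taylor expansions
-/

set_option autoImplicit false

namespace Pool.Agent.LUC

open Pool.Agent.LUM (locV IsChart IsPar Mono LUat IsFrac LU)
open IsLocalRing Polynomial

universe u

section Models

variable {k F : Type u} [CommRing k] [Field F] [Algebra k F]

variable (k F) in
/-- `F` is a finitely generated field over `k`. -/
def FGField : Prop := ∃ S : Finset F, IsFrac (Algebra.adjoin k (S : Set F))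

/-- Every valuation ring has a center on a model. -/
theorem FGField.exists_model (h : FGField k F) (V₁ : ValuationSubring F) :
    ∃ S₁ : Finset F, (∀ s ∈ S₁, s ∈ V₁) ∧ IsFrac (Algebra.adjoin k (S₁ : Set F)) := by
  classical
  obtain ⟨S, hS⟩ := h
  refine ⟨S.image (fun s => if s ∈ V₁ then s else s⁻¹), ?_, ?_⟩
  · intro s hs
    obtain ⟨t, ht, rfl⟩ := Finset.mem_image.1 hs
    by_cases h : t ∈ V₁
    · rw [if_pos h]; exact h
    · rw [if_neg h]
      exact (V₁.mem_or_inv_mem t).resolve_left h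
  · set A₁ := Algebra.adjoin k ((S.image (fun s => if s ∈ V₁ then s else s⁻¹) : Finset F) : Set F)
      with hA₁
    have key : ∀ f ∈ Algebra.adjoin k (S : Set F), ∃ a ∈ A₁, ∃ b ∈ A₁, b ≠ 0 ∧ f = a / b := by
      intro f hf
      induction hf using Algebra.adjoin_induction with
      | mem x hx =>
        have hm : (if x ∈ V₁ then x else x⁻¹) ∈ A₁ :=
          Algebra.subset_adjoin (Finset.mem_coe.2 (Finset.mem_image_of_mem _ hx))
        by_cases h : x ∈ V₁
        · rw [if_pos h] at hm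
          exact ⟨x, hm, 1, A₁.one_mem, one_ne_zero, (div_one x).symm⟩
        · rw [if_neg h] at hm
          have hx0 : x ≠ 0 := by
            rintro rfl
            exact h V₁.zero_mem
          exact ⟨1, A₁.one_mem, x⁻¹, hm, inv_ne_zero hx0, by rw [one_div, inv_inv]⟩
      | algebraMap c => exact ⟨_, A₁.algebraMap_mem c, 1, A₁.one_mem, one_ne_zero, (div_one _).symm⟩
      | add x y _ _ hx hy =>
        obtain ⟨a, ha, b, hb, hb0, rfl⟩ := hx
        obtain ⟨c, hc, d, hd, hd0, rfl⟩ := hy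
        exact ⟨a * d + b * c, A₁.add_mem (A₁.mul_mem ha hd) (A₁.mul_mem hb hc), b * d,
          A₁.mul_mem hb hd, mul_ne_zero hb0 hd0, by rw [div_add_div _ _ hb0 hd0]⟩
      | mul x y _ _ hx hy =>
        obtain ⟨a, ha, b, hb, hb0, rfl⟩ := hx
        obtain ⟨c, hc, d, hd, hd0, rfl⟩ := hy
        exact ⟨a * c, A₁.mul_mem ha hc, b * d, A₁.mul_mem hb hd, mul_ne_zero hb0 hd0,
          by rw [div_mul_div_comm]⟩
    intro f
    obtain ⟨a, ha, b, hb, hb0, rfl⟩ := hS f
    obtain ⟨a₁, ha₁, a₂, ha₂, ha0, rfl⟩ := key a ha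
    obtain ⟨b₁, hb₁, b₂, hb₂, hb0', rfl⟩ := key b hb
    have hb10 : b₁ ≠ 0 := by
      rintro rfl
      exact hb0 (zero_div _)
    exact ⟨a₁ * b₂, A₁.mul_mem ha₁ hb₂, a₂ * b₁, A₁.mul_mem ha₂ hb₁, mul_ne_zero ha0 hb10,
      by rw [div_div_div_eq]⟩

end Models

section Den

variable {k F K : Type u} [CommRing k] [Field F] [Field K] [Algebra k F] [Algebra k K]
  {j : F →ₐ[k] K}

/-- Common denominators. -/
theorem exists_den {A : Subalgebra k K} {S₁ : Finset F} {β : K} (hβA : β ∈ A)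
    (hβ : ∀ s ∈ S₁, β * j s ∈ A) {a : F} (ha : a ∈ Algebra.adjoin k (S₁ : Set F)) :
    ∃ N : ℕ, β ^ N * j a ∈ A := by
  induction ha using Algebra.adjoin_induction with
  | mem x hx => exact ⟨1, by rw [pow_one]; exact hβ x hx⟩
  | algebraMap c =>
    refine ⟨0, ?_⟩
    rw [pow_zero, one_mul, AlgHom.commutes]
    exact A.algebraMap_mem c
  | add x y _ _ hx hy =>
    obtain ⟨N, hN⟩ := hx
    obtain ⟨M, hM⟩ := hy
    refine ⟨N + M, ?_⟩
    have : β ^ (N + M) * j (x + y) = β ^ M * (β ^ N * j x) + β ^ N * (β ^ M * j y) := by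
      rw [map_add]; ring
    rw [this]
    exact A.add_mem (A.mul_mem (A.pow_mem hβA _) hN) (A.mul_mem (A.pow_mem hβA _) hM)
  | mul x y _ _ hx hy =>
    obtain ⟨N, hN⟩ := hx
    obtain ⟨M, hM⟩ := hy
    refine ⟨N + M, ?_⟩
    have : β ^ (N + M) * j (x * y) = (β ^ N * j x) * (β ^ M * j y) := by
      rw [map_mul]; ring
    rw [this]
    exact A.mul_mem hN hM

theorem exists_den_finset {A : Subalgebra k K} {S₁ : Finset F} {β : K} (hβA : β ∈ A)
    (hβ : ∀ s ∈ S₁, β * j s ∈ A) (L : Finset F)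
    (hL : ∀ a ∈ L, a ∈ Algebra.adjoin k (S₁ : Set F)) :
    ∃ N : ℕ, ∀ a ∈ L, β ^ N * j a ∈ A := by
  classical
  induction L using Finset.induction_on with
  | empty => exact ⟨0, fun a ha => absurd ha (Finset.notMem_empty a)⟩
  | insert a L ha ih =>
    obtain ⟨N, hN⟩ := ih fun b hb => hL b (Finset.mem_insert_of_mem hb)
    obtain ⟨M, hM⟩ := exists_den hβA hβ (hL a (Finset.mem_insert_self _ _))
    refine ⟨N + M, fun b hb => ?_⟩
    rcases Finset.mem_insert.1 hb with rfl | hb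
    · have : β ^ (N + M) * j b = β ^ N * (β ^ M * j b) := by ring
      rw [this]
      exact A.mul_mem (A.pow_mem hβA _) hM
    · have : β ^ (N + M) * j b = β ^ M * (β ^ N * j b) := by ring
      rw [this]
      exact A.mul_mem (A.pow_mem hβA _) (hN b hb)

end Den

section Taylor

variable {F K : Type u} [Field F] [Field K]

/-- The Taylor expansion. -/
theorem exists_taylor {Λ : Type u} [CommRing Λ] (P : Polynomial Λ) (τ c : Λ) :
    ∃ W : Polynomial Λ, ∀ (e : Λ →+* K) (u : K),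
      eval₂ e (e τ + e c * u) P = e (P.eval τ) + e c * u * eval₂ e u W := by
  obtain ⟨W, hW⟩ := sub_dvd_eval_sub (C τ + C c * X) (C τ) (P.map (C : Λ →+* Polynomial Λ))
  refine ⟨W, fun e u => ?_⟩
  have h1 := congrArg (eval₂RingHom e u) hW
  rw [map_sub, map_mul, add_sub_cancel_left, eval_map, eval_map, hom_eval₂, hom_eval₂] at h1
  have h2 : (eval₂RingHom e u).comp C = e := by
    ext x
    simp
  rw [h2, map_add, map_mul] at h1
  simp only [coe_eval₂RingHom, eval₂_C, eval₂_X] at h1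
  rw [eval₂_at_apply] at h1
  linear_combination h1

/-- Fractions of polynomials with coefficients in a valuation ring. -/
theorem exists_polys (V₁ : ValuationSubring F) (j : F →+* K) (θ : K) (φ : K)
    (h : ∃ G H : Polynomial F, eval₂ j θ H ≠ 0 ∧ φ = eval₂ j θ G / eval₂ j θ H) :
    ∃ G H : Polynomial V₁, eval₂ (j.comp V₁.subtype) θ H ≠ 0 ∧
      φ = eval₂ (j.comp V₁.subtype) θ G / eval₂ (j.comp V₁.subtype) θ H := by
  obtain ⟨G, H, hH, rfl⟩ := h
  have key : ∀ P : Polynomial F, ∃ (d : V₁) (P' : Polynomial V₁), (d : F) ≠ 0 ∧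
      j d * eval₂ j θ P = eval₂ (j.comp V₁.subtype) θ P' := by
    intro P
    obtain ⟨b, hbm, hb⟩ := IsLocalization.integerNormalization_spec (nonZeroDivisors V₁) P
    refine ⟨b, IsLocalization.integerNormalization (nonZeroDivisors V₁) P, ?_, ?_⟩
    · intro h0
      exact nonZeroDivisors.ne_zero hbm (Subtype.ext h0)
    · have h1 := congrArg (eval₂ j θ) hb
      rw [eval₂_map] at h1
      have h2 : (algebraMap V₁ F) = V₁.subtype := rfl
      rw [h2] at h1
      rw [h1]
      have h3 : (b • P : Polynomial F) = C (b : F) * P := by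
        rw [← smul_eq_C_mul]
        rfl
      rw [h3, eval₂_mul, eval₂_C]
  obtain ⟨d₁, G', hd₁, hG'⟩ := key G
  obtain ⟨d₂, H', hd₂, hH'⟩ := key H
  have hj1 : j d₁ ≠ 0 := (map_ne_zero j).2 hd₁
  have hj2 : j d₂ ≠ 0 := (map_ne_zero j).2 hd₂
  refine ⟨C d₂ * G', C d₁ * H', ?_, ?_⟩
  · rw [eval₂_mul, eval₂_C, ← hH']
    exact mul_ne_zero hj1 (mul_ne_zero hj2 hH)
  · rw [eval₂_mul, eval₂_mul, eval₂_C, eval₂_C, ← hH', ← hG']
    change _ = j d₂ * (j d₁ * eval₂ j θ G) / (j d₁ * (j d₂ * eval₂ j θ H))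
    field_simp

end Taylor

end Pool.Agent.LUC
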