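import Pool.Agent.Lib.LUC.Asc4

/-!
# Ascent of log uniformization: charts, and expansions around a good approximation
-/

set_option autoImplicit false

namespace Pool.Agent.LUC

open Pool.Agent.LUM (locV IsChart IsPar Mono LUat IsFrac LU)
open IsLocalRing Polynomial

universe u

section Chart

variable {k K : Type u} [CommRing k] [Field K] [Algebra k K] {V : ValuationSubring K}

theorem asc_chart_le {A A' : Subalgebra k K} {g : K} (h : IsChart V A A' g) : A ≤ A' := by
  obtain ⟨_, _, G, _, rfl⟩ := h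
  exact fun a ha => Algebra.subset_adjoin (Or.inl ha)

theorem asc_chart_mem {A A' : Subalgebra k K} {g : K} (h : IsChart V A A' g)
    (hA : ∀ a ∈ A, a ∈ V) : ∀ a ∈ A', a ∈ V := by
  obtain ⟨hg, hg0, G, hG, rfl⟩ := h
  intro a ha
  induction ha using Algebra.adjoin_induction with
  | mem x hx =>
    rcases hx with hx | ⟨y, hy, rfl⟩
    · exact hA x hx
    · have h1 := (hG y hy).2
      rw [← V.valuation_le_one_iff]
      simp only [map_div₀]
      exact div_le_one_of_le₀ h1 zero_le
  | algebraMap c => exact hA _ (A.algebraMap_mem c)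
  | add x y _ _ hx hy => exact V.add_mem _ _ hx hy
  | mul x y _ _ hx hy => exact V.mul_mem _ _ hx hy

theorem asc_chart_fg {A A' : Subalgebra k K} {g : K} (h : IsChart V A A' g) (hA : A.FG) :
    A'.FG := by
  obtain ⟨hg, hg0, G, hG, rfl⟩ := h
  rw [Algebra.adjoin_union, Algebra.adjoin_eq]
  exact hA.sup (Subalgebra.fg_def.2 ⟨_, G.finite_toSet.image _, rfl⟩)

/-- Adjoining finitely many elements of `V` with a common denominator is a chart. -/
theorem asc_isChart {A : Subalgebra k K} {g : K} (hg : g ∈ A) (hg0 : g ≠ 0) (Y : Finset K)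
    (hY : ∀ y ∈ Y, g * y ∈ A ∧ y ∈ V) :
    IsChart V A (Algebra.adjoin k ((A : Set K) ∪ (Y : Set K))) g := by
  classical
  refine ⟨hg, hg0, Y.image (fun y => g * y), ?_, ?_⟩
  · intro x hx
    obtain ⟨y, hy, rfl⟩ := Finset.mem_image.1 hx
    refine ⟨(hY y hy).1, ?_⟩
    rw [map_mul]
    exact mul_le_of_le_one_right' ((V.valuation_le_one_iff _).2 (hY y hy).2)
  · congr 1
    congr 1
    rw [Finset.coe_image, Set.image_image]
    have : ∀ y : K, g * y / g = y := fun y => by field_simp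
    simp only [this, Set.image_id']

private def ascPI (V₁ : ValuationSubring K) (R : Subalgebra k K) (hR : ∀ f ∈ R, f ∈ V₁) :
    Ideal R where
  carrier := {f | V₁.valuation (f : K) < 1}
  zero_mem' := by simp
  add_mem' := by
    intro a b ha hb
    exact lt_of_le_of_lt (V₁.valuation.map_add _ _) (max_lt ha hb)
  smul_mem' := by
    intro c x hx
    have h1 := (V₁.valuation_le_one_iff _).2 (hR c c.2)
    change V₁.valuation ((c : K) * x) < 1
    rw [map_mul]
    exact lt_of_le_of_lt (mul_le_of_le_one_left' h1) hx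

private theorem asc_PI_prime (V : ValuationSubring K) (R : Subalgebra k K)
    (hR : ∀ f ∈ R, f ∈ V) : (ascPI V R hR).IsPrime := by
  constructor
  · intro h
    have h1 : (1 : R) ∈ ascPI V R hR := by rw [h]; trivial
    have h2 : V.valuation ((1 : R) : K) < 1 := h1
    simp at h2
  · intro x y hxy
    have hxy' : V.valuation ((x : K) * y) < 1 := hxy
    by_contra h
    push Not at h
    have hx : V.valuation (x : K) = 1 :=
      le_antisymm ((V.valuation_le_one_iff _).2 (hR x x.2)) (not_lt.1 h.1)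
    have hy : V.valuation (y : K) = 1 :=
      le_antisymm ((V.valuation_le_one_iff _).2 (hR y y.2)) (not_lt.1 h.2)
    rw [map_mul, hx, hy, one_mul] at hxy'
    exact lt_irrefl _ hxy'

private theorem asc_mem_primeCompl {V : ValuationSubring K} {R : Subalgebra k K}
    {hR : ∀ f ∈ R, f ∈ V} [(ascPI V R hR).IsPrime] (x : R) :
    x ∈ (ascPI V R hR).primeCompl ↔ V.valuation (x : K) = 1 := by
  change ¬ (V.valuation (x : K) < 1) ↔ _
  rw [not_lt]
  exact ⟨fun h => le_antisymm ((V.valuation_le_one_iff _).2 (hR x x.2)) h, fun h => h.ge⟩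

/-- `locV V R` is the local ring of `R` at the center of `V`. -/
private theorem asc_isLocalization_locV (V : ValuationSubring K) (R R' : Subalgebra k K)
    (hR : ∀ f ∈ R, f ∈ V) (hle : R ≤ R') (hR' : locV V R = R') [(ascPI V R hR).IsPrime] :
    @IsLocalization.AtPrime R _ R' _ (Subalgebra.inclusion hle).toAlgebra (ascPI V R hR) _ := by
  let _ := (Subalgebra.inclusion hle).toAlgebra
  have hmap : ∀ x : R, ((algebraMap R R' x : R') : K) = x := fun x => rfl
  refine ⟨?_, ?_, ?_⟩
  · intro y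
    have hy : V.valuation ((y : R) : K) = 1 := (asc_mem_primeCompl _).1 y.2
    have hy0 : ((y : R) : K) ≠ 0 := by
      intro h
      rw [h, map_zero] at hy
      exact zero_ne_one hy
    have hinv : ((y : R) : K)⁻¹ ∈ R' := hR' ▸ asc_locV_inv (asc_le_locV _ (y : R).2) hy
    refine IsUnit.of_mul_eq_one ⟨_, hinv⟩ ?_
    ext
    simp only [MulMemClass.coe_mul, OneMemClass.coe_one, hmap]
    exact mul_inv_cancel₀ hy0
  · intro f
    have hf : (f : K) ∈ locV V R := hR' ▸ f.2
    obtain ⟨a, ha, b, hb, hb1, hfab⟩ := hf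
    have hb0 : b ≠ 0 := by rintro rfl; simp at hb1
    refine ⟨⟨⟨a, ha⟩, ⟨⟨b, hb⟩, (asc_mem_primeCompl _).2 hb1⟩⟩, ?_⟩
    ext
    simp only [MulMemClass.coe_mul, hmap]
    rw [hfab]
    exact div_mul_cancel₀ _ hb0
  · intro x y hxy
    refine ⟨1, ?_⟩
    have : (x : K) = y := by
      have h := congrArg (fun t : R' => (t : K)) hxy
      simpa only [hmap] using h
    rw [Subtype.ext this]

/-- The local ring of a model is dominated by `V` and noetherian. -/
theorem asc_dom [IsNoetherianRing k] (V : ValuationSubring K) (R : Subalgebra k K)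
    (hR : ∀ f ∈ R, f ∈ V) (hfg : R.FG) : Dom V (locV V R) := by
  refine ⟨asc_locV_mem hR, fun b hb => asc_locV_inv hb, ?_⟩
  have : Algebra.FiniteType k R := (Subalgebra.fg_iff_finiteType R).1 hfg
  have : IsNoetherianRing R := Algebra.FiniteType.isNoetherianRing k R
  have hp := asc_PI_prime V R hR
  let _ := (Subalgebra.inclusion (asc_le_locV (V := V) R)).toAlgebra
  have hloc := asc_isLocalization_locV V R _ hR (asc_le_locV R) rfl
  exact IsLocalization.isNoetherianRing (ascPI V R hR).primeCompl (locV V R) inferInstance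

end Chart

section Expand

variable {k F K : Type u} [CommRing k] [Field F] [Field K] [Algebra k F] [Algebra k K]
  {V : ValuationSubring K} {V₁ : ValuationSubring F} {j : F →ₐ[k] K}

/-- The map from `V₁` to `K`. -/
abbrev emb (V₁ : ValuationSubring F) (j : F →ₐ[k] K) : V₁ →+* K :=
  (j : F →+* K).comp V₁.subtype

theorem eval₂_mem_V (hj : ∀ x, x ∈ V₁ ↔ j x ∈ V) {u : K} (hu : u ∈ V) (W : Polynomial V₁) :
    eval₂ (emb V₁ j) u W ∈ V := by
  induction W using Polynomial.induction_on with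
  | C a => rw [eval₂_C]; exact (hj a).1 a.2
  | add P Q hP hQ => rw [eval₂_add]; exact V.add_mem _ _ hP hQ
  | monomial n a _ =>
    rw [eval₂_mul, eval₂_C, eval₂_X_pow]
    exact V.mul_mem _ _ ((hj a).1 a.2) (pow_mem hu _)

theorem eval₂_mem_adjU {R₁ : Subalgebra k F} {u : K} {W : Polynomial V₁}
    (hW : ∀ i, ((W.coeff i : V₁) : F) ∈ R₁) : eval₂ (emb V₁ j) u W ∈ adjU (R₁.map j) u := by
  rw [eval₂_eq_sum_range]
  refine (adjU (R₁.map j) u).sum_mem fun i _ => (adjU (R₁.map j) u).mul_mem ?_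
    ((adjU (R₁.map j) u).pow_mem (mem_adjU _ _) _)
  exact le_adjU _ _ ⟨_, hW i, rfl⟩

theorem val_eval (hj : ∀ x, x ∈ V₁ ↔ j x ∈ V) {θ u : K} {c τ : V₁} (hu : V.valuation u < 1)
    (hθ : θ = j τ + j c * u) (P : Polynomial V₁)
    (hP : V.valuation (j c) < V.valuation (eval₂ (emb V₁ j) θ P)) (W : Polynomial V₁)
    (hW : ∀ u : K, eval₂ (emb V₁ j) ((emb V₁ j) τ + (emb V₁ j) c * u) P =
      (emb V₁ j) (P.eval τ) + (emb V₁ j) c * u * eval₂ (emb V₁ j) u W) :
    V.valuation (j ((P.eval τ : V₁) : F)) = V.valuation (eval₂ (emb V₁ j) θ P) := by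
  have huV : u ∈ V := (V.valuation_le_one_iff _).1 hu.le
  have h1 := hW u
  have h2 : (emb V₁ j) τ + (emb V₁ j) c * u = θ := hθ.symm
  rw [h2] at h1
  have h3 : V.valuation ((emb V₁ j) c * u * eval₂ (emb V₁ j) u W) <
      V.valuation (eval₂ (emb V₁ j) θ P) := by
    refine lt_of_le_of_lt ?_ hP
    rw [map_mul, map_mul]
    calc _ ≤ V.valuation ((emb V₁ j) c) * V.valuation u :=
          mul_le_of_le_one_right' ((V.valuation_le_one_iff _).2 (eval₂_mem_V hj huV W))
      _ ≤ _ := mul_le_of_le_one_right' hu.le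
  have h4 : j ((P.eval τ : V₁) : F) = eval₂ (emb V₁ j) θ P -
      (emb V₁ j) c * u * eval₂ (emb V₁ j) u W := by
    rw [h1]
    change _ = j ((P.eval τ : V₁) : F) + _ - _
    ring
  rw [h4]
  exact Valuation.map_sub_eq_of_lt_left _ h3

theorem unit_factor (hj : ∀ x, x ∈ V₁ ↔ j x ∈ V) {θ u : K} {c τ : V₁} (hu : V.valuation u < 1)
    (hθ : θ = j τ + j c * u) (P : Polynomial V₁)
    (hP : V.valuation (j c) < V.valuation (eval₂ (emb V₁ j) θ P)) (W : Polynomial V₁)
    (hW : ∀ u : K, eval₂ (emb V₁ j) ((emb V₁ j) τ + (emb V₁ j) c * u) P =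
      (emb V₁ j) (P.eval τ) + (emb V₁ j) c * u * eval₂ (emb V₁ j) u W)
    {R₁ : Subalgebra k F} (h1 : (c : F) / ((P.eval τ : V₁) : F) ∈ R₁)
    (h2 : ∀ i, ((W.coeff i : V₁) : F) ∈ R₁) :
    ∃ w ∈ adjU (R₁.map j) u, V.valuation w = 1 ∧
      eval₂ (emb V₁ j) θ P = j ((P.eval τ : V₁) : F) * w := by
  have huV : u ∈ V := (V.valuation_le_one_iff _).1 hu.le
  have hval := val_eval hj hu hθ P hP W hW
  have hPτ : j ((P.eval τ : V₁) : F) ≠ 0 := by
    intro h
    rw [h, map_zero] at hval
    rw [← hval] at hP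
    exact absurd hP not_lt_zero
  refine ⟨1 + j ((c : F) / ((P.eval τ : V₁) : F)) * u * eval₂ (emb V₁ j) u W, ?_, ?_, ?_⟩
  · refine (adjU (R₁.map j) u).add_mem (adjU (R₁.map j) u).one_mem ?_
    refine (adjU (R₁.map j) u).mul_mem ((adjU (R₁.map j) u).mul_mem ?_ (mem_adjU _ _))
      (eval₂_mem_adjU h2)
    exact le_adjU _ _ ⟨_, h1, rfl⟩
  · have h3 : V.valuation (j ((c : F) / ((P.eval τ : V₁) : F)) * u * eval₂ (emb V₁ j) u W) < 1 := by
      rw [map_mul, map_mul]
      have h4 : V.valuation (j ((c : F) / ((P.eval τ : V₁) : F))) ≤ 1 := by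
        rw [map_div₀, map_div₀]
        refine div_le_one_of_le₀ ?_ zero_le
        rw [hval]
        exact hP.le
      refine lt_of_le_of_lt (mul_le_of_le_one_right'
        ((V.valuation_le_one_iff _).2 (eval₂_mem_V hj huV W))) ?_
      exact mul_lt_of_le_one_of_lt h4 hu
    rw [Valuation.map_add_eq_of_lt_left, map_one]
    rwa [map_one]
  · have h4 := hW u
    have h5 : (emb V₁ j) τ + (emb V₁ j) c * u = θ := hθ.symm
    rw [h5] at h4
    rw [h4]
    change j ((P.eval τ : V₁) : F) + j (c : F) * u * _ = _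
    rw [map_div₀]
    field_simp

end Expand

end Pool.Agent.LUC
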