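import Pool.Agent.Lib.LUC.Asc5

/-!
# Ascent of log uniformization: one step
-/

set_option autoImplicit false

namespace Pool.Agent.LUC

open Pool.Agent.LUM (locV IsChart IsPar Mono LUat IsFrac LU)
open IsLocalRing Polynomial

universe u

variable {k F K : Type u} [CommRing k] [IsNoetherianRing k] [Field F] [Field K] [Algebra k F]
  [Algebra k K] {V : ValuationSubring K} {V₁ : ValuationSubring F} {j : F →ₐ[k] K}

/-- `θ` is the limit of elements of `V₁`, and adjoining a good approximation to a regular local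
ring gives a regular local ring. -/
def AStep (V₁ : ValuationSubring F) (V : ValuationSubring K) (j : F →ₐ[k] K) (θ : K) : Prop :=
  ∀ FF : Finset (Polynomial V₁), (∀ P ∈ FF, eval₂ (emb V₁ j) θ P ≠ 0) →
    ∃ c τ : V₁, (c : F) ≠ 0 ∧ V.valuation (θ - j τ) < V.valuation (j c) ∧
      (∀ P ∈ FF, V.valuation (j c) < V.valuation (eval₂ (emb V₁ j) θ P)) ∧
      ∃ Q : Finset V₁, ∀ R₁ : Subalgebra k F, Dom V₁ R₁ → (∀ q ∈ Q, (q : F) ∈ R₁) →
        ∀ (n : ℕ) (z : Fin n → F), IsPar V₁ R₁ z →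
          ∃ (n' : ℕ) (z' : Fin n' → K) (f : Fin n → Fin n'), Function.Injective f ∧
            (∀ i, z' (f i) = j (z i)) ∧
            IsPar V (locV V (adjU (R₁.map j) ((θ - j τ) / j c))) z'

theorem lurV_of_AStep (hj : ∀ x, x ∈ V₁ ↔ j x ∈ V) (hF : FGField k F) {θ : K}
    (hgen : ∀ φ : K, ∃ G H : Polynomial F, eval₂ (j : F →+* K) θ H ≠ 0 ∧
      φ = eval₂ (j : F →+* K) θ G / eval₂ (j : F →+* K) θ H)
    (hstep : AStep V₁ V j θ) (hLU : LUrV k V₁) : LUrV k V := by
  classical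
  intro A hAfg hAV hAfrac T hT
  have hk : ∀ c : k, algebraMap k F c ∈ V₁ := by
    intro c
    rw [hj, AlgHom.commutes]
    exact hAV _ (A.algebraMap_mem c)
  obtain ⟨S₁, hS₁V, hS₁frac⟩ := hF.exists_model V₁
  set A₁ := Algebra.adjoin k (S₁ : Set F) with hA₁
  have hA₁V : ∀ a ∈ A₁, a ∈ V₁ := by
    intro a ha
    induction ha using Algebra.adjoin_induction with
    | mem x hx => exact hS₁V x hx
    | algebraMap c => exact hk c
    | add x y _ _ hx hy => exact V₁.add_mem _ _ hx hy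
    | mul x y _ _ hx hy => exact V₁.mul_mem _ _ hx hy
  choose num hnum den hden hden0 hnd using hAfrac
  obtain ⟨SA, hSA⟩ := hAfg
  -- the list of the elements that should become monomials
  set L : Finset K := (SA ∪ T ∪ S₁.image (fun s => den (j s)) ∪ {den θ}).erase 0 with hL
  have hL0 : ∀ φ ∈ L, φ ≠ 0 := fun φ hφ => (Finset.mem_erase.1 hφ).1
  have hpol := fun φ => exists_polys V₁ (j : F →+* K) θ φ (hgen φ)
  choose G H hH hGH using hpol
  have hG : ∀ φ ∈ L, eval₂ (emb V₁ j) θ (G φ) ≠ 0 := by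
    intro φ hφ h0
    apply hL0 φ hφ
    rw [hGH φ]
    change eval₂ (emb V₁ j) θ (G φ) / _ = 0
    rw [h0, zero_div]
  obtain ⟨c, τ, hc0, hcτ, hcP, Q, hpar⟩ := hstep (L.image G ∪ L.image H) (by
    intro P hP
    rcases Finset.mem_union.1 hP with hP | hP
    · obtain ⟨φ, hφ, rfl⟩ := Finset.mem_image.1 hP
      exact hG φ hφ
    · obtain ⟨φ, hφ, rfl⟩ := Finset.mem_image.1 hP
      exact hH φ)
  set u := (θ - j τ) / j c with hu
  have hjc : j (c : F) ≠ 0 := (map_ne_zero j).2 hc0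
  have hu1 : V.valuation u < 1 := by
    rw [hu, map_div₀, div_lt_one₀ (zero_lt_iff.2 ((Valuation.ne_zero_iff _).2 hjc))]
    exact hcτ
  have huV : u ∈ V := (V.valuation_le_one_iff _).1 hu1.le
  have hθ : θ = j τ + j c * u := by
    rw [hu, mul_div_cancel₀ _ hjc]
    ring
  obtain ⟨τ₁, hτ₁, τ₂, hτ₂, hτ₂0, hτeq⟩ := hS₁frac (τ : F)
  obtain ⟨c₁, hc₁, c₂, hc₂, hc₂0, hceq⟩ := hS₁frac (c : F)
  have hc₁0 : c₁ ≠ 0 := by
    rintro rfl
    exact hc0 (by rw [hceq, zero_div])
  choose W hW using fun P : Polynomial V₁ => exists_taylor (K := K) P τ c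
  -- the elements of `F` that should become monomials
  set U₁ : Finset F := L.image (fun φ => (((G φ).eval τ : V₁) : F) / (((H φ).eval τ : V₁) : F)) ∪
    (L.image G ∪ L.image H).image (fun P => (c : F) / ((P.eval τ : V₁) : F)) ∪
    (L.image G ∪ L.image H).biUnion (fun P => (W P).support.image
      (fun i => (((W P).coeff i : V₁) : F))) ∪ Q.image (Subtype.val : V₁ → F) ∪
    {(c : F), (τ : F), τ₂, c₁} with hU₁
  obtain ⟨A₁', g₁, hch₁, n, z, J, hz, hg₁, hT₁⟩ := hLU A₁ ⟨S₁, rfl⟩ hA₁V hS₁frac (U₁.erase 0)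
    (fun t ht => (Finset.mem_erase.1 ht).1)
  have hA₁'V : ∀ a ∈ A₁', a ∈ V₁ := asc_chart_mem hch₁ hA₁V
  set R₁ := locV V₁ A₁' with hR₁
  have hDom₁ : Dom V₁ R₁ := asc_dom V₁ A₁' hA₁'V (asc_chart_fg hch₁ ⟨S₁, rfl⟩)
  have hmem₁ : ∀ t ∈ U₁, t ∈ V₁ → t ∈ R₁ := by
    intro t ht htV
    by_cases h0 : t = 0
    · rw [h0]; exact R₁.zero_mem
    · exact (hT₁ t (Finset.mem_erase.2 ⟨h0, ht⟩)).mem hz.mem ((V₁.valuation_le_one_iff _).2 htV)
  have hmono₁ : ∀ t ∈ U₁, t ≠ 0 → SMonoV V₁ R₁ z J t := fun t ht h0 =>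
    hT₁ t (Finset.mem_erase.2 ⟨h0, ht⟩)
  obtain ⟨n', z', f, hf, hzf, hz'⟩ := hpar R₁ hDom₁ (fun q hq => hmem₁ _ (by
    rw [hU₁]
    refine Finset.mem_union_left _ (Finset.mem_union_right _ ?_)
    exact Finset.mem_image_of_mem (Subtype.val : V₁ → F) hq) q.2) n z hz
  set R := locV V (adjU (R₁.map j) u) with hR
  set J' := J.image f with hJ'
  have hR₁R : ∀ x ∈ R₁, j x ∈ R := fun x hx =>
    asc_le_locV _ (le_adjU _ _ ⟨x, hx, rfl⟩)
  have huR : u ∈ R := asc_le_locV _ (mem_adjU _ _)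
  have hRinv : ∀ x ∈ R, V.valuation x = 1 → x⁻¹ ∈ R := fun x hx => asc_locV_inv hx
  have htr : ∀ t : F, SMonoV V₁ R₁ z J t → SMonoV V R z' J' (j t) := fun t ht =>
    ht.map hj hR₁R hf hzf
  -- the factors
  have hfac : ∀ P ∈ L.image G ∪ L.image H, ∃ w ∈ R, V.valuation w = 1 ∧
      eval₂ (emb V₁ j) θ P = j ((P.eval τ : V₁) : F) * w := by
    intro P hP
    obtain ⟨w, hw, hw1, hPw⟩ := unit_factor hj hu1 hθ P (hcP P hP) (W P) (hW P _)
      (R₁ := R₁) (hmem₁ _ (by
        rw [hU₁]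
        refine Finset.mem_union_left _ (Finset.mem_union_left _ (Finset.mem_union_left _
          (Finset.mem_union_right _ ?_)))
        exact Finset.mem_image_of_mem _ hP) (by
        have h1 := val_eval hj hu1 hθ P (hcP P hP) (W P) (hW P _)
        rw [hj, ← V.valuation_le_one_iff, map_div₀, map_div₀, h1]
        exact div_le_one_of_le₀ (hcP P hP).le zero_le)) (by
        intro i
        by_cases h0 : (W P).coeff i = 0
        · rw [h0]; exact R₁.zero_mem
        · refine hmem₁ _ ?_ ((W P).coeff i).2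
          rw [hU₁]
          refine Finset.mem_union_left _ (Finset.mem_union_left _ (Finset.mem_union_right _ ?_))
          refine Finset.mem_biUnion.2 ⟨P, hP, ?_⟩
          exact Finset.mem_image_of_mem (fun i => (((W P).coeff i : V₁) : F))
            (mem_support_iff.2 h0))
    exact ⟨w, asc_le_locV _ hw, hw1, hPw⟩
  have hmono : ∀ φ ∈ L, SMonoV V R z' J' φ := by
    intro φ hφ
    obtain ⟨w, hw, hw1, hGw⟩ := hfac (G φ) (Finset.mem_union_left _ (Finset.mem_image_of_mem _ hφ))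
    obtain ⟨w', hw', hw1', hHw⟩ := hfac (H φ)
      (Finset.mem_union_right _ (Finset.mem_image_of_mem _ hφ))
    have h1 : φ = j ((((G φ).eval τ : V₁) : F) / (((H φ).eval τ : V₁) : F)) * (w * w'⁻¹) := by
      conv_lhs => rw [hGH φ]
      change eval₂ (emb V₁ j) θ (G φ) / eval₂ (emb V₁ j) θ (H φ) = _
      rw [hGw, hHw, map_div₀]
      field_simp
    have h2 : (((G φ).eval τ : V₁) : F) / (((H φ).eval τ : V₁) : F) ≠ 0 := by
      intro h0
      apply hL0 φ hφ
      rw [h1, h0, map_zero, zero_mul]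
    rw [h1]
    refine SMonoV.mul_unit (htr _ (hmono₁ _ ?_ h2)) (R.mul_mem hw (hRinv _ hw' hw1')) (by
      rw [map_mul, map_inv₀, hw1, hw1', inv_one, one_mul])
    rw [hU₁]
    refine Finset.mem_union_left _ (Finset.mem_union_left _ (Finset.mem_union_left _
      (Finset.mem_union_left _ ?_)))
    exact Finset.mem_image_of_mem _ hφ
  -- the denominators
  have hdenmul : ∀ φ, den φ * φ = num φ := fun φ => by
    rw [mul_comm]
    exact (eq_div_iff (hden0 φ)).1 (hnd φ)
  set β : K := ∏ s ∈ S₁, den (j s) with hβ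
  have hβA : β ∈ A := A.prod_mem fun s _ => hden _
  have hβs : ∀ s ∈ S₁, β * j s ∈ A := by
    intro s hs
    have h1 : β = den (j s) * ∏ t ∈ S₁.erase s, den (j t) :=
      (Finset.mul_prod_erase _ (fun s => den (j s)) hs).symm
    have h2 : β * j s = num (j s) * ∏ t ∈ S₁.erase s, den (j t) := by
      rw [h1, ← hdenmul (j s)]
      ring
    rw [h2]
    exact A.mul_mem (hnum _) (A.prod_mem fun t _ => hden _)
  have hL1 : ∀ φ ∈ L, φ ∈ A → V.valuation φ ≤ 1 := fun φ _ hφ =>
    (V.valuation_le_one_iff _).2 (hAV φ hφ)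
  have hdenL : ∀ s ∈ S₁, den (j s) ∈ L := by
    intro s hs
    rw [hL]
    refine Finset.mem_erase.2 ⟨hden0 _, Finset.mem_union_left _ (Finset.mem_union_right _ ?_)⟩
    exact Finset.mem_image_of_mem (fun s => den (j s)) hs
  have hdenθ : den θ ∈ L := by
    rw [hL]
    exact Finset.mem_erase.2 ⟨hden0 _, Finset.mem_union_right _ (Finset.mem_singleton_self _)⟩
  have hz'0 : ∀ i, z' i ≠ 0 := hz'.ne
  have hβmono : SMonoV V R z' J' β ∧ V.valuation β ≤ 1 := by
    have h1 := SMonoV.prod' S₁ (fun s => den (j s)) hz'0 (fun s hs => hmono _ (hdenL s hs))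
      (fun s hs => hL1 _ (hdenL s hs) (hden _))
    exact h1
  obtain ⟨hg₁A, hg₁0, G₁, hG₁, hA₁'eq⟩ := hch₁
  obtain ⟨N, hN⟩ := exists_den_finset hβA hβs ({g₁, τ₁, τ₂, c₁, c₂} ∪ G₁) (by
    intro a ha
    rcases Finset.mem_union.1 ha with ha | ha
    · simp only [Finset.mem_insert, Finset.mem_singleton] at ha
      rcases ha with rfl | rfl | rfl | rfl | rfl
      exacts [hg₁A, hτ₁, hτ₂, hc₁, hc₂]
    · exact (hG₁ a ha).1)
  set b : K := β ^ N with hb
  have hbmono := SMonoV.pow' hz'0 hβmono.1 hβmono.2 N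
  rw [← hb] at hbmono
  have hNg : b * j g₁ ∈ A := hN _ (Finset.mem_union_left _ (by simp))
  have hNτ₁ : b * j τ₁ ∈ A := hN _ (Finset.mem_union_left _ (by simp))
  have hNτ₂ : b * j τ₂ ∈ A := hN _ (Finset.mem_union_left _ (by simp))
  have hNc₁ : b * j c₁ ∈ A := hN _ (Finset.mem_union_left _ (by simp))
  have hNc₂ : b * j c₂ ∈ A := hN _ (Finset.mem_union_left _ (by simp))
  have hNx : ∀ x ∈ G₁, b * j x ∈ A := fun x hx => hN _ (Finset.mem_union_right _ hx)
  have hjg₁0 : j g₁ ≠ 0 := (map_ne_zero j).2 hg₁0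
  have hjτ₂0 : j τ₂ ≠ 0 := (map_ne_zero j).2 hτ₂0
  have hjc₁0 : j c₁ ≠ 0 := (map_ne_zero j).2 hc₁0
  have hjc₂0 : j c₂ ≠ 0 := (map_ne_zero j).2 hc₂0
  have hβ0 : β ≠ 0 := Finset.prod_ne_zero_iff.2 fun s _ => hden0 _
  have hb0 : b ≠ 0 := pow_ne_zero _ hβ0
  have hle₁ : ∀ a ∈ A₁, V.valuation (j a) ≤ 1 := fun a ha =>
    (V.valuation_le_one_iff _).2 ((hj a).1 (hA₁V a ha))
  -- a monomial times `b`
  have hbj : ∀ a ∈ A₁, SMonoV V₁ R₁ z J a → SMonoV V R z' J' (b * j a) ∧
      V.valuation (b * j a) ≤ 1 := by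
    intro a ha hm
    exact ⟨SMonoV.mul' hz'0 hbmono.1 (htr a hm) hbmono.2 (hle₁ a ha), by
      rw [map_mul]; exact mul_le_one' hbmono.2 (hle₁ a ha)⟩
  have hmg := hbj g₁ hg₁A hg₁
  have hmτ := hbj τ₂ hτ₂ (hmono₁ _ (by
    rw [hU₁]
    exact Finset.mem_union_right _ (by simp)) hτ₂0)
  have hmc := hbj c₁ hc₁ (hmono₁ _ (by
    rw [hU₁]
    exact Finset.mem_union_right _ (by simp)) hc₁0)
  set g : K := β * den θ * (b * j g₁) * (b * j τ₂) * (b * j c₁) with hg
  have hgA : g ∈ A := A.mul_mem (A.mul_mem (A.mul_mem (A.mul_mem hβA (hden _)) hNg) hNτ₂) hNc₁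
  have hg0 : g ≠ 0 := mul_ne_zero (mul_ne_zero (mul_ne_zero (mul_ne_zero hβ0 (hden0 _))
    (mul_ne_zero hb0 hjg₁0)) (mul_ne_zero hb0 hjτ₂0)) (mul_ne_zero hb0 hjc₁0)
  have hgmono : SMonoV V R z' J' g := by
    have h1 := hmono _ hdenθ
    have h1' := hL1 _ hdenθ (hden _)
    have h2 := SMonoV.mul' hz'0 hβmono.1 h1 hβmono.2 h1'
    have h2' : V.valuation (β * den θ) ≤ 1 := by rw [map_mul]; exact mul_le_one' hβmono.2 h1'
    have h3 := SMonoV.mul' hz'0 h2 hmg.1 h2' hmg.2
    have h3' : V.valuation (β * den θ * (b * j g₁)) ≤ 1 := by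
      rw [map_mul]; exact mul_le_one' h2' hmg.2
    have h4 := SMonoV.mul' hz'0 h3 hmτ.1 h3' hmτ.2
    have h4' : V.valuation (β * den θ * (b * j g₁) * (b * j τ₂)) ≤ 1 := by
      rw [map_mul]; exact mul_le_one' h3' hmτ.2
    exact SMonoV.mul' hz'0 h4 hmc.1 h4' hmc.2
  -- the chart
  set Y : Finset K := S₁.image j ∪ {θ, u} ∪ G₁.image (fun x => j x / j g₁) with hY
  have hθV : θ ∈ V := by
    rw [hθ]
    exact V.add_mem _ _ ((hj _).1 τ.2) (V.mul_mem _ _ ((hj _).1 c.2) huV)
  have hYA : ∀ y ∈ Y, g * y ∈ A ∧ y ∈ V := by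
    intro y hy
    rw [hY] at hy
    rcases Finset.mem_union.1 hy with hy | hy
    · rcases Finset.mem_union.1 hy with hy | hy
      · obtain ⟨s, hs, rfl⟩ := Finset.mem_image.1 hy
        refine ⟨?_, (hj s).1 (hS₁V s hs)⟩
        have h1 : g * j s = (β * j s) * den θ * (b * j g₁) * (b * j τ₂) * (b * j c₁) := by
          rw [hg]; ring
        rw [h1]
        exact A.mul_mem (A.mul_mem (A.mul_mem (A.mul_mem (hβs s hs) (hden _)) hNg) hNτ₂) hNc₁
      · simp only [Finset.mem_insert, Finset.mem_singleton] at hy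
        rcases hy with rfl | rfl
        · refine ⟨?_, hθV⟩
          have h1 : g * y = β * num y * (b * j g₁) * (b * j τ₂) * (b * j c₁) := by
            rw [hg, ← hdenmul y]; ring
          rw [h1]
          exact A.mul_mem (A.mul_mem (A.mul_mem (A.mul_mem hβA (hnum _)) hNg) hNτ₂) hNc₁
        · refine ⟨?_, huV⟩
          have h1 : g * u = β * (b * j g₁) * (b * j c₂) *
              (num θ * (b * j τ₂) - den θ * (b * j τ₁)) := by
            have h2 : u * (j c₁ * j τ₂) = (θ * j τ₂ - j τ₁) * j c₂ := by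
              rw [hu, hτeq, hceq, map_div₀, map_div₀]
              field_simp
            rw [hg, ← hdenmul θ]
            linear_combination (β * den θ * (b * j g₁) * b * b) * h2
          rw [h1]
          exact A.mul_mem (A.mul_mem (A.mul_mem hβA hNg) hNc₂)
            (A.sub_mem (A.mul_mem (hnum _) hNτ₂) (A.mul_mem (hden _) hNτ₁))
    · obtain ⟨x, hx, rfl⟩ := Finset.mem_image.1 hy
      refine ⟨?_, ?_⟩
      · have h1 : g * (j x / j g₁) = β * den θ * (b * j x) * (b * j τ₂) * (b * j c₁) := by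
          rw [hg]; field_simp
        rw [h1]
        exact A.mul_mem (A.mul_mem (A.mul_mem (A.mul_mem hβA (hden _)) (hNx x hx)) hNτ₂) hNc₁
      · rw [← V.valuation_le_one_iff, map_div₀]
        exact div_le_one_of_le₀ ((ext_le (j := (j : F →+* K)) hj x g₁).1 (hG₁ x hx).2) zero_le
  have hchart := asc_isChart (V := V) hgA hg0 Y hYA
  set A' := Algebra.adjoin k ((A : Set K) ∪ (Y : Set K)) with hA'
  have hYA' : ∀ y ∈ Y, y ∈ A' := fun y hy => Algebra.subset_adjoin (Or.inr hy)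
  -- the image of the model of `F`
  have hA₁A' : ∀ a ∈ A₁, j a ∈ A' := by
    intro a ha
    induction ha using Algebra.adjoin_induction with
    | mem x hx =>
      refine hYA' _ ?_
      rw [hY]
      exact Finset.mem_union_left _ (Finset.mem_union_left _ (Finset.mem_image_of_mem _ hx))
    | algebraMap c => rw [AlgHom.commutes]; exact A'.algebraMap_mem c
    | add x y _ _ hx hy => rw [map_add]; exact A'.add_mem hx hy
    | mul x y _ _ hx hy => rw [map_mul]; exact A'.mul_mem hx hy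
  have hA₁'A' : ∀ a ∈ A₁', j a ∈ A' := by
    intro a ha
    rw [hA₁'eq] at ha
    induction ha using Algebra.adjoin_induction with
    | mem x hx =>
      rcases hx with hx | ⟨y, hy, rfl⟩
      · exact hA₁A' x hx
      · simp only [map_div₀]
        refine hYA' _ ?_
        rw [hY]
        exact Finset.mem_union_right _
          (Finset.mem_image_of_mem (fun x => j x / j g₁) (Finset.mem_coe.1 hy))
    | algebraMap c => rw [AlgHom.commutes]; exact A'.algebraMap_mem c
    | add x y _ _ hx hy => rw [map_add]; exact A'.add_mem hx hy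
    | mul x y _ _ hx hy => rw [map_mul]; exact A'.mul_mem hx hy
  have hAR : A ≤ R := by
    rw [← hSA]
    refine Algebra.adjoin_le fun s hs => ?_
    by_cases h0 : s = 0
    · rw [h0]; exact R.zero_mem
    · have hsA : s ∈ A := by
        rw [← hSA]
        exact Algebra.subset_adjoin hs
      have hsL : s ∈ L := by
        rw [hL]
        exact Finset.mem_erase.2 ⟨h0, Finset.mem_union_left _ (Finset.mem_union_left _
          (Finset.mem_union_left _ hs))⟩
      exact (hmono s hsL).mem hz'.mem (hL1 s hsL hsA)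
  have hA₁'R₁ : A₁' ≤ R₁ := asc_le_locV _
  have hA₁A₁' : A₁ ≤ A₁' := by
    rw [hA₁'eq]
    exact fun a ha => Algebra.subset_adjoin (Or.inl ha)
  have hYR : ∀ y ∈ Y, y ∈ R := by
    intro y hy
    rw [hY] at hy
    rcases Finset.mem_union.1 hy with hy | hy
    · rcases Finset.mem_union.1 hy with hy | hy
      · obtain ⟨s, hs, rfl⟩ := Finset.mem_image.1 hy
        exact hR₁R _ (hA₁'R₁ (hA₁A₁' (Algebra.subset_adjoin hs)))
      · simp only [Finset.mem_insert, Finset.mem_singleton] at hy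
        rcases hy with rfl | rfl
        · rw [hθ]
          refine R.add_mem (hR₁R _ (hmem₁ _ ?_ τ.2)) (R.mul_mem (hR₁R _ (hmem₁ _ ?_ c.2)) huR)
          · rw [hU₁]
            exact Finset.mem_union_right _ (by simp)
          · rw [hU₁]
            exact Finset.mem_union_right _ (by simp)
        · exact huR
    · obtain ⟨x, hx, rfl⟩ := Finset.mem_image.1 hy
      have h1 : j x / j g₁ = j (x / g₁) := (map_div₀ j x g₁).symm
      simp only [h1]
      refine hR₁R _ (hA₁'R₁ ?_)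
      rw [hA₁'eq]
      exact Algebra.subset_adjoin (Or.inr ⟨x, hx, rfl⟩)
  have hloc : locV V A' = R := by
    apply le_antisymm
    · refine asc_locV_le ?_ hRinv
      refine Algebra.adjoin_le ?_
      rintro y (hy | hy)
      · exact hAR hy
      · exact hYR y hy
    · rw [hR]
      refine asc_locV_le ?_ (fun x hx => asc_locV_inv hx)
      refine Algebra.adjoin_le ?_
      rintro y (⟨x, ⟨a, ha, b', hb', hb1, rfl⟩, rfl⟩ | hy)
      · refine ⟨j a, hA₁'A' a ha, j b', hA₁'A' b' hb',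
          (ext_eq_one (j := (j : F →+* K)) hj b').1 hb1, ?_⟩
        exact map_div₀ j a b'
      · rw [Set.mem_singleton_iff] at hy
        rw [hy]
        refine asc_le_locV _ (hYA' _ ?_)
        rw [hY]
        exact Finset.mem_union_left _ (Finset.mem_union_right _ (by simp))
  refine ⟨A', g, hchart, n', z', J', ?_, ?_, ?_⟩
  · rw [hloc]; exact hz'
  · rw [hloc]; exact hgmono
  · intro t ht
    rw [hloc]
    refine hmono t ?_
    rw [hL]
    exact Finset.mem_erase.2 ⟨hT t ht, Finset.mem_union_left _ (Finset.mem_union_left _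
      (Finset.mem_union_right _ ht))⟩

end Pool.Agent.LUC
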