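import Pool.Agent.Lib.LUC.Asc7
import Pool.Agent.Lib.LUC.Asc8

/-!
# Ascent of log uniformization: simple extensions
-/

set_option autoImplicit false

namespace Pool.Agent.LUC

open Pool.Agent.LUM (locV IsChart IsPar Mono LUat IsFrac LU)
open IsLocalRing Polynomial

universe u

section Trivial

variable {k K : Type u} [CommRing k] [Field K] [Algebra k K] {V : ValuationSubring K}

private theorem asc_triv_chart (A : Subalgebra k K) : IsChart V A A 1 := by
  refine ⟨A.one_mem, one_ne_zero, ∅, fun x hx => absurd hx (Finset.notMem_empty x), ?_⟩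
  simp only [Finset.coe_empty, Set.image_empty, Set.union_empty]
  exact (Algebra.adjoin_eq A).symm

private theorem asc_triv_par (h : ∀ x : K, x ≠ 0 → V.valuation x = 1) {A : Subalgebra k K}
    (hA : IsFrac A) : IsPar V (locV V A) (Fin.elim0 : Fin 0 → K) := by
  have hmem : ∀ f : K, f ∈ locV V A := by
    intro f
    obtain ⟨a, ha, b, hb, hb0, rfl⟩ := hA f
    exact ⟨a, ha, b, hb, h b hb0, rfl⟩
  refine ⟨fun i => i.elim0, fun i => i.elim0, fun i => i.elim0, ?_, ?_⟩
  · intro f _ hf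
    refine ⟨Fin.elim0, fun i => i.elim0, ?_⟩
    by_contra h0
    rw [Finset.univ_eq_empty, Finset.sum_empty] at h0
    rw [h f h0] at hf
    exact lt_irrefl _ hf
  · have hfield : IsField (locV V A) := by
      refine ⟨⟨0, 1, zero_ne_one⟩, mul_comm, ?_⟩
      intro a ha
      have ha0 : (a : K) ≠ 0 := fun h => ha (Subtype.ext h)
      exact ⟨⟨(a : K)⁻¹, hmem _⟩, Subtype.ext (mul_inv_cancel₀ ha0)⟩
    rw [ringKrullDim_eq_zero_of_isField hfield]
    rfl

private theorem asc_lu_triv (h : ∀ x : K, x ≠ 0 → V.valuation x = 1) : LU k V := by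
  intro A _ _ hfrac T hT
  have hmem : ∀ f : K, f ∈ locV V A := by
    intro f
    obtain ⟨a, ha, b, hb, hb0, rfl⟩ := hfrac f
    exact ⟨a, ha, b, hb, h b hb0, rfl⟩
  have hmono : ∀ t : K, t ≠ 0 → Mono V (locV V A) (Fin.elim0 : Fin 0 → K) t := fun t ht =>
    ⟨fun i => 0, t, hmem t, h t ht, by simp, fun _ i => i.elim0, fun _ i => i.elim0⟩
  exact ⟨A, 1, asc_triv_chart A, 0, Fin.elim0, asc_triv_par h hfrac, hmono 1 one_ne_zero,
    fun t ht => hmono t (hT t ht)⟩

private theorem asc_lur_triv (h : ∀ x : K, x ≠ 0 → V.valuation x = 1) : LUrV k V := by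
  intro A _ _ hfrac T hT
  have hmem : ∀ f : K, f ∈ locV V A := by
    intro f
    obtain ⟨a, ha, b, hb, hb0, rfl⟩ := hfrac f
    exact ⟨a, ha, b, hb, h b hb0, rfl⟩
  have hmono : ∀ t : K, t ≠ 0 → SMonoV V (locV V A) (Fin.elim0 : Fin 0 → K) ∅ t := fun t ht =>
    ⟨fun i => 0, t, hmem t, h t ht, by simp, fun i => i.elim0, fun _ i => i.elim0,
      fun _ i => i.elim0, fun _ i => i.elim0⟩
  exact ⟨A, 1, asc_triv_chart A, 0, Fin.elim0, ∅, asc_triv_par h hfrac, hmono 1 one_ne_zero,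
    fun t ht => hmono t (hT t ht)⟩

end Trivial

section Simple

variable {k F K : Type u} [CommRing k] [IsNoetherianRing k] [Field F] [Field K] [Algebra k F]
  [Algebra k K]

/-- `K = F(θ)`, and `θ` is transcendental or separable algebraic over `F`. -/
structure IsSimple (j : F →+* K) (θ : K) : Prop where
  gen : ∀ φ : K, ∃ G H : Polynomial F, eval₂ j θ H ≠ 0 ∧ φ = eval₂ j θ G / eval₂ j θ H
  or : (∀ P : Polynomial F, eval₂ j θ P = 0 → P = 0) ∨
    ∃ P : Polynomial F, eval₂ j θ P = 0 ∧ eval₂ j θ P.derivative ≠ 0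

private theorem eval₂_scale {j : F →+* K} {θ : K} {c : F} (hc : c ≠ 0) (P : Polynomial F) :
    eval₂ j (j c * θ) (P.comp (C c⁻¹ * X)) = eval₂ j θ P := by
  rw [eval₂_comp, eval₂_mul, eval₂_C, eval₂_X, ← mul_assoc, ← map_mul, inv_mul_cancel₀ hc,
    map_one, one_mul]

private theorem IsSimple.scale {j : F →+* K} {θ : K} (h : IsSimple j θ) {c : F} (hc : c ≠ 0) :
    IsSimple j (j c * θ) := by
  refine ⟨fun φ => ?_, ?_⟩
  · obtain ⟨G, H, hH, hφ⟩ := h.gen φ
    refine ⟨G.comp (C c⁻¹ * X), H.comp (C c⁻¹ * X), ?_, ?_⟩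
    · rwa [eval₂_scale hc]
    · rwa [eval₂_scale hc, eval₂_scale hc]
  · rcases h.or with h1 | ⟨P, hP, hP'⟩
    · left
      intro P hP
      have h2 : eval₂ j θ (P.comp (C c * X)) = 0 := by
        rw [eval₂_comp, eval₂_mul, eval₂_C, eval₂_X]
        exact hP
      have h3 := h1 _ h2
      have h4 : P = (P.comp (C c * X)).comp (C c⁻¹ * X) := by
        rw [comp_assoc]
        have h7 : (C c * X).comp (C c⁻¹ * X) = X := by
          rw [mul_comp, C_comp, X_comp, ← mul_assoc, ← C_mul, mul_inv_cancel₀ hc, C_1, one_mul]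
        rw [h7, comp_X]
      rw [h4, h3, zero_comp]
    · right
      refine ⟨P.comp (C c⁻¹ * X), by rwa [eval₂_scale hc], ?_⟩
      rw [derivative_comp, eval₂_mul, eval₂_scale hc]
      refine mul_ne_zero ?_ hP'
      rw [derivative_mul, derivative_C, zero_mul, zero_add, derivative_X, mul_one, eval₂_C]
      exact (_root_.map_ne_zero j).2 (inv_ne_zero hc)

omit [IsNoetherianRing k] in
private theorem asc_aStep {V : ValuationSubring K} {V₁ : ValuationSubring F} {j : F →ₐ[k] K}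
    (hj : ∀ x, x ∈ V₁ ↔ j x ∈ V) (hd : DenseIn V (j : F →+* K))
    (hnt : ∃ π : K, π ≠ 0 ∧ V.valuation π < 1) {θ : K} (hθ : θ ∈ V)
    (h : IsSimple (j : F →+* K) θ) : AStep V₁ V j θ := by
  rcases h.or with h1 | ⟨P, hP, hP'⟩
  · exact aStep_of_transcendental hj hd hnt hθ h1
  · obtain ⟨b, hbm, hb⟩ := IsLocalization.integerNormalization_spec (nonZeroDivisors V₁) P
    have hb0 : (b : F) ≠ 0 := by
      intro h0
      exact nonZeroDivisors.ne_zero hbm (Subtype.ext h0)
    have h3 : (b • P : Polynomial F) = C (b : F) * P := by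
      rw [← smul_eq_C_mul]
      rfl
    rw [h3] at hb
    have h2 : (algebraMap V₁ F) = V₁.subtype := rfl
    refine aStep_of_separable hj hd hnt hθ
      (IsLocalization.integerNormalization (nonZeroDivisors V₁) P) ?_ ?_
    · have h1 := congrArg (eval₂ (j : F →+* K) θ) hb
      rw [eval₂_map, h2, eval₂_mul, hP, mul_zero] at h1
      exact h1
    · have h1 := congrArg (fun P : Polynomial F => eval₂ (j : F →+* K) θ P.derivative) hb
      simp only [derivative_map, derivative_mul, derivative_C, zero_mul, zero_add] at h1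
      rw [eval₂_map, h2, eval₂_mul, eval₂_C] at h1
      change eval₂ ((j : F →+* K).comp V₁.subtype) θ _ ≠ 0
      rw [h1]
      exact mul_ne_zero ((_root_.map_ne_zero _).2 hb0) hP'

private theorem asc_wlog {V : ValuationSubring K} {j : F →+* K} (hd : DenseIn V j) {θ : K}
    (h : IsSimple j θ) : ∃ θ' : K, θ' ∈ V ∧ IsSimple j θ' := by
  by_cases hθ : θ ∈ V
  · exact ⟨θ, hθ, h⟩
  · have hθ0 : θ ≠ 0 := by
      rintro rfl
      exact hθ V.zero_mem
    obtain ⟨c, hc0, hc⟩ := hd.exists_eq (inv_ne_zero hθ0)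
    refine ⟨j c * θ, ?_, h.scale hc0⟩
    rw [← V.valuation_le_one_iff, map_mul, hc, ← map_mul, inv_mul_cancel₀ hθ0, map_one]

/-- Log uniformization ascends to simple extensions in the completion. -/
theorem lu_simple {V : ValuationSubring K} {V₁ : ValuationSubring F} {j : F →ₐ[k] K}
    (hj : ∀ x, x ∈ V₁ ↔ j x ∈ V) (hF : FGField k F) (hd : DenseIn V (j : F →+* K)) {θ : K}
    (hθ : IsSimple (j : F →+* K) θ) (hLU : LU k V₁) : LU k V := by
  by_cases hnt : ∃ π : K, π ≠ 0 ∧ V.valuation π < 1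
  · obtain ⟨θ', hθ'V, hθ'⟩ := asc_wlog hd hθ
    exact lu_of_AStep hj hF hθ'.gen (asc_aStep hj hd hnt hθ'V hθ') hLU
  · push Not at hnt
    refine asc_lu_triv fun x hx => le_antisymm ?_ (hnt x hx)
    have h1 := hnt x⁻¹ (inv_ne_zero hx)
    rw [map_inv₀] at h1
    exact (one_le_inv₀ (zero_lt_iff.2 ((Valuation.ne_zero_iff _).2 hx))).1 h1

/-- Log uniformization with control of the supports ascends to simple extensions in the
completion. -/
theorem lur_simple {V : ValuationSubring K} {V₁ : ValuationSubring F} {j : F →ₐ[k] K}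
    (hj : ∀ x, x ∈ V₁ ↔ j x ∈ V) (hF : FGField k F) (hd : DenseIn V (j : F →+* K)) {θ : K}
    (hθ : IsSimple (j : F →+* K) θ) (hLU : LUrV k V₁) : LUrV k V := by
  by_cases hnt : ∃ π : K, π ≠ 0 ∧ V.valuation π < 1
  · obtain ⟨θ', hθ'V, hθ'⟩ := asc_wlog hd hθ
    exact lurV_of_AStep hj hF hθ'.gen (asc_aStep hj hd hnt hθ'V hθ') hLU
  · push Not at hnt
    refine asc_lur_triv fun x hx => le_antisymm ?_ (hnt x hx)
    have h1 := hnt x⁻¹ (inv_ne_zero hx)
    rw [map_inv₀] at h1
    exact (one_le_inv₀ (zero_lt_iff.2 ((Valuation.ne_zero_iff _).2 hx))).1 h1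

end Simple

end Pool.Agent.LUC
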