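import Mathlib

/-! # C1: the dimension of a noetherian local ring is bounded by the growth of the lengths

Recipe (1.1 of l15_cp_h16.md). Induction on `d`, for all rings at once.
`d = 0`: the lengths of `R / m^M`, `M ≥ 1`, are bounded by `C`, so `m^M = m^(M+1)` for some `M` (otherwise the
length of `R / m^M` is at least `M`), so `m^M = ⊥` (Nakayama), every prime ideal is `m`, the dimension is `≤ 0`.
`d + 1`: suppose `ringKrullDim R > d + 1`: there is a chain of primes `p₀ < p₁ < .. < p_(d+2)` (`LTSeries`).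
`R₁ := R ⧸ p₀` is a local noetherian domain, its lengths are not larger (`R₁ / m₁^M` is a quotient of `R / m^M`), `x ≠ 0` in
`p₁ / p₀`; `Rb := R₁ ⧸ (x)` is local noetherian and has a chain of primes of length `d + 1`, so
`ringKrullDim Rb ≥ d + 1`. Artin-Rees (`Ideal.exists_pow_inf_eq_pow_smul`): `c` with
`m₁^M ⊓ (x) ≤ x m₁^(M-c)` for `M ≥ c`; as `R₁` is a domain, `{a | x a ∈ m₁^M} ≤ m₁^(M-c)`. With
`l M = length (R₁ / m₁^M)`, `lb M = length (Rb / mb^M) = length (R₁ / (m₁^M + (x)))`: exact sequence
`0 → R₁ / (m₁^M : x) → R₁ / m₁^M → R₁ / (m₁^M + (x)) → 0` (first map: multiplication by `x`), so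
`lb M + l (M-c) ≤ l M` (all are finite, by hypothesis `l M ≤ C M^(d+1)`). `lb` is increasing. Sum over
`M = N + i c`, `i = 1..N` (`c ≥ 1` may be assumed): `N * lb N ≤ ∑ lb (N + i c) ≤ ∑ (l (N + i c) - l (N + (i-1) c)) ≤ l (N + N c)
≤ C (c+1)^(d+1) N^(d+1)`, so `lb N ≤ C (c+1)^(d+1) N^d` for `N ≥ 1`, and `ringKrullDim Rb ≤ d` by induction:
contradiction. -/

set_option autoImplicit false

namespace Pool.Agent.LUC

universe u

private lemma len_mono {R : Type u} [CommRing R] {A B : Ideal R} (h : A ≤ B) :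
    Module.length R (R ⧸ B) ≤ Module.length R (R ⧸ A) :=
  Module.length_le_of_surjective (Submodule.factor h) (Submodule.factor_surjective h)

private lemma len_strict {R : Type u} [CommRing R] {A B : Ideal R} (h : A < B) :
    Module.length R (R ⧸ B) + 1 ≤ Module.length R (R ⧸ A) := by
  have h1 := Module.length_eq_add_of_exact (LinearMap.ker (Submodule.factor h.le)).subtype
    (Submodule.factor h.le) (Submodule.subtype_injective _) (Submodule.factor_surjective h.le)
    (LinearMap.exact_subtype_ker_map _)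
  rw [h1, add_comm]
  refine add_le_add ?_ le_rfl
  rw [Order.one_le_iff_pos, Module.length_pos_iff]
  obtain ⟨x, hxB, hxA⟩ := SetLike.exists_of_lt h
  refine ⟨⟨⟨Submodule.Quotient.mk x, ?_⟩, 0, ?_⟩⟩
  · rw [LinearMap.mem_ker]
    exact (Submodule.Quotient.mk_eq_zero B).2 hxB
  · intro h2
    have h3 := congrArg Subtype.val h2
    exact hxA ((Submodule.Quotient.mk_eq_zero A).1 h3)

private lemma len_mul {R : Type u} [CommRing R] {K L : Ideal R} (x : R)
    (hL : ∀ a, x * a ∈ K → a ∈ L) :
    Module.length R (R ⧸ (K ⊔ Ideal.span {x})) + Module.length R (R ⧸ L) ≤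
      Module.length R (R ⧸ K) := by
  let g : R →ₗ[R] R ⧸ K := (Submodule.mkQ K).comp (LinearMap.mulLeft R x)
  have hg : ∀ a, g a = Submodule.Quotient.mk (x * a) := fun _ => rfl
  let f : (R ⧸ LinearMap.ker g) →ₗ[R] R ⧸ K := (LinearMap.ker g).liftQ g le_rfl
  have hf : Function.Injective f :=
    LinearMap.ker_eq_bot.1 (Submodule.ker_liftQ_eq_bot _ _ _ le_rfl)
  let q : (R ⧸ K) →ₗ[R] R ⧸ (K ⊔ Ideal.span {x}) := Submodule.factor le_sup_left
  have hex : Function.Exact f q := by
    intro y
    obtain ⟨b, rfl⟩ := Submodule.Quotient.mk_surjective K y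
    have e1 : q (Submodule.Quotient.mk b) = Submodule.Quotient.mk b := rfl
    rw [e1, Submodule.Quotient.mk_eq_zero, Submodule.mem_sup]
    constructor
    · rintro ⟨k, hk, z, hz, rfl⟩
      obtain ⟨a, rfl⟩ := Ideal.mem_span_singleton'.1 hz
      refine ⟨Submodule.Quotient.mk a, ?_⟩
      show Submodule.Quotient.mk (x * a) = _
      rw [Submodule.Quotient.eq]
      have : x * a - (k + a * x) = -k := by ring
      rw [this]
      exact K.neg_mem hk
    · rintro ⟨a, ha⟩
      obtain ⟨a, rfl⟩ := Submodule.Quotient.mk_surjective _ a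
      have h2 : (Submodule.Quotient.mk (x * a) : R ⧸ K) = Submodule.Quotient.mk b := ha
      rw [Submodule.Quotient.eq] at h2
      refine ⟨b - x * a, ?_, x * a, ?_, by ring⟩
      · have : b - x * a = -(x * a - b) := by ring
        rw [this]
        exact K.neg_mem h2
      · exact Ideal.mem_span_singleton.2 (Dvd.intro a rfl)
  have h1 := Module.length_eq_add_of_exact f q hf (Submodule.factor_surjective _) hex
  rw [h1, add_comm]
  refine add_le_add (len_mono fun a ha => hL a ?_) le_rfl
  rw [LinearMap.mem_ker, hg, Submodule.Quotient.mk_eq_zero] at ha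
  exact ha

private theorem growth {R : Type u} [CommRing R] [IsNoetherianRing R] [IsLocalRing R] (d : ℕ) :
    ∀ (I : Ideal R) (C : ℕ), (∀ M : ℕ, 1 ≤ M →
      Module.length R (R ⧸ (IsLocalRing.maximalIdeal R ^ M ⊔ I)) ≤ ((C * M ^ d : ℕ) : ℕ∞)) →
    ∀ p : LTSeries (PrimeSpectrum R), I ≤ p.head.asIdeal → p.length ≤ d := by
  set m := IsLocalRing.maximalIdeal R with hm
  induction d with
  | zero =>
    intro I C h p hI
    obtain ⟨M, hM⟩ : ∃ M, m ^ M ⊔ I ≤ m ^ (M + 1) ⊔ I := by
      by_contra hcon
      push Not at hcon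
      have hlt : ∀ M, m ^ (M + 1) ⊔ I < m ^ M ⊔ I := fun M =>
        lt_of_le_not_ge (sup_le_sup_right (Ideal.pow_le_pow_right (Nat.le_succ M)) I) (hcon M)
      have hlen : ∀ M : ℕ, (M : ℕ∞) ≤ Module.length R (R ⧸ (m ^ M ⊔ I)) := by
        intro M
        induction M with
        | zero => simp
        | succ M ih =>
          push_cast
          exact (add_le_add ih le_rfl).trans (len_strict (hlt M))
      have h1 := (hlen (C + 1)).trans (h (C + 1) (by omega))
      have h2 : C + 1 ≤ C * (C + 1) ^ 0 := by exact_mod_cast h1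
      rw [pow_zero, mul_one] at h2
      omega
    have hnak : m ^ M ≤ I := by
      refine Submodule.le_of_le_smul_of_le_jacobson_bot (I := m) (N := I) (N' := m ^ M)
        (IsNoetherian.noetherian _) ?_ ?_
      · rw [IsLocalRing.jacobson_eq_maximalIdeal ⊥ bot_ne_top]
      · calc m ^ M ≤ m ^ M ⊔ I := le_sup_left
          _ ≤ m ^ (M + 1) ⊔ I := hM
          _ = I ⊔ m • m ^ M := by rw [sup_comm, pow_succ', smul_eq_mul]
    by_contra hlen
    push Not at hlen
    have hp0 : m ≤ p.head.asIdeal := (p.head.isPrime).le_of_pow_le (hnak.trans hI)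
    have hlt : p.head < p.last := by
      refine p.strictMono ?_
      rw [Fin.lt_def]
      simpa using hlen
    have hle : p.last.asIdeal ≤ m := IsLocalRing.le_maximalIdeal p.last.isPrime.ne_top
    have h1 : p.head.asIdeal < p.last.asIdeal := hlt
    exact absurd h1 (not_lt_of_ge (hle.trans hp0))
  | succ d ih =>
    intro I C h p hI
    by_cases hlen : p.length = 0
    · omega
    have hP := p.head.isPrime
    obtain ⟨P, hPdef⟩ : ∃ P : Ideal R, P = p.head.asIdeal := ⟨_, rfl⟩
    have hPI : I ≤ P := by rw [hPdef]; exact hI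
    have hPp : P.IsPrime := by rw [hPdef]; exact hP
    have hlt : P < (p.tail hlen).head.asIdeal := by
      have h1 : p.head < (p.tail hlen).head := by
        rw [RelSeries.head_tail]
        refine p.strictMono ?_
        rw [Fin.lt_def]
        have : (1 : Fin (p.length + 1)).val = 1 := by
          rw [Fin.val_one']
          exact Nat.mod_eq_of_lt (by omega)
        rw [this]
        exact Nat.zero_lt_one
      rw [hPdef]
      exact h1
    obtain ⟨x, hx1, hx0⟩ := SetLike.exists_of_lt hlt
    obtain ⟨c0, hc0⟩ := Ideal.exists_pow_inf_eq_pow_smul (M := R ⧸ P) m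
      (Submodule.span R {(Submodule.Quotient.mk x : R ⧸ P)})
    have hAR : ∀ M, c0 ≤ M → ∀ a, x * a ∈ m ^ M ⊔ P → a ∈ m ^ (M - c0) ⊔ P := by
      intro M hM a ha
      obtain ⟨y, hy, z, hz, hyz⟩ := Submodule.mem_sup.1 ha
      have h1 : (Submodule.Quotient.mk (x * a) : R ⧸ P) ∈
          m ^ M • (⊤ : Submodule R (R ⧸ P)) ⊓
            Submodule.span R {(Submodule.Quotient.mk x : R ⧸ P)} := by
        refine ⟨?_, ?_⟩
        · have h2 : (Submodule.Quotient.mk (x * a) : R ⧸ P) =
              y • (Submodule.Quotient.mk 1 : R ⧸ P) := by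
            rw [← Submodule.Quotient.mk_smul, smul_eq_mul, mul_one, Submodule.Quotient.eq]
            have : x * a - y = z := by rw [← hyz]; ring
            rw [this]
            exact hz
          rw [h2]
          exact Submodule.smul_mem_smul hy Submodule.mem_top
        · refine Submodule.mem_span_singleton.2 ⟨a, ?_⟩
          rw [← Submodule.Quotient.mk_smul, smul_eq_mul, mul_comm]
      rw [hc0 M hM] at h1
      have h3 : (Submodule.Quotient.mk (x * a) : R ⧸ P) ∈
          m ^ (M - c0) • Submodule.span R {(Submodule.Quotient.mk x : R ⧸ P)} :=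
        Submodule.smul_mono le_rfl inf_le_right h1
      obtain ⟨b, hb, hbx⟩ := Submodule.mem_smul_span_singleton.1 h3
      rw [← Submodule.Quotient.mk_smul, smul_eq_mul, Submodule.Quotient.eq] at hbx
      have h4 : x * (b - a) ∈ P := by
        have : x * (b - a) = b * x - x * a := by ring
        rw [this]
        exact hbx
      have h5 : b - a ∈ P := (hPp.mem_or_mem h4).resolve_left hx0
      rw [Submodule.mem_sup]
      refine ⟨b, hb, a - b, ?_, by ring⟩
      have : a - b = -(b - a) := by ring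
      rw [this]
      exact P.neg_mem h5
    obtain ⟨c, hc⟩ : ∃ c, c = c0 + 1 := ⟨_, rfl⟩
    let l : ℕ → ℕ∞ := fun M => Module.length R (R ⧸ (m ^ M ⊔ P))
    let lb : ℕ → ℕ∞ := fun M => Module.length R (R ⧸ (m ^ M ⊔ (P ⊔ Ideal.span {x})))
    have hstep : ∀ M, c ≤ M → lb M + l (M - c) ≤ l M := by
      intro M hM
      have h1 := len_mul (K := m ^ M ⊔ P) (L := m ^ (M - c) ⊔ P) x fun a ha => by
        have h2 := hAR M (by omega) a ha
        exact (sup_le_sup_right (Ideal.pow_le_pow_right (by omega)) P) h2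
      have h2 : lb M ≤ Module.length R (R ⧸ (m ^ M ⊔ P ⊔ Ideal.span {x})) :=
        len_mono (le_of_eq (sup_assoc _ _ _))
      exact (add_le_add h2 le_rfl).trans h1
    have hmono : ∀ M N, M ≤ N → lb M ≤ lb N := fun M N hMN =>
      len_mono (sup_le_sup_right (Ideal.pow_le_pow_right hMN) _)
    have hiter : ∀ N i : ℕ, (i : ℕ∞) * lb N + l N ≤ l (N + i * c) := by
      intro N i
      induction i with
      | zero => simp
      | succ i ih2 =>
        have h1 := hstep (N + (i + 1) * c) (by nlinarith)
        have h2 : N + (i + 1) * c - c = N + i * c := by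
          rw [add_mul, one_mul]
          omega
        rw [h2] at h1
        calc ((i + 1 : ℕ) : ℕ∞) * lb N + l N = lb N + ((i : ℕ∞) * lb N + l N) := by
              push_cast
              ring
          _ ≤ lb (N + (i + 1) * c) + l (N + i * c) :=
              add_le_add (hmono _ _ (Nat.le_add_right _ _)) ih2
          _ ≤ l (N + (i + 1) * c) := h1
    have hfin : ∀ N, 1 ≤ N → lb N ≤ ((C * (c + 1) ^ (d + 1) * N ^ d : ℕ) : ℕ∞) := by
      intro N hN
      have h1 : (N : ℕ∞) * lb N ≤ ((C * (N + N * c) ^ (d + 1) : ℕ) : ℕ∞) := by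
        calc (N : ℕ∞) * lb N ≤ (N : ℕ∞) * lb N + l N := le_self_add
          _ ≤ l (N + N * c) := hiter N N
          _ ≤ Module.length R (R ⧸ (m ^ (N + N * c) ⊔ I)) := len_mono (sup_le_sup_left hPI _)
          _ ≤ _ := h (N + N * c) (by omega)
      have hN0 : (N : ℕ∞) ≠ 0 := by
        exact_mod_cast (by omega : N ≠ 0)
      rcases eq_or_ne (lb N) ⊤ with h2 | h2
      · rw [h2, ENat.mul_top hN0, top_le_iff] at h1
        exact absurd h1 (ENat.natCast_ne_top _)
      · lift lb N to ℕ using h2 with n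
        have h3 : N * n ≤ C * (N + N * c) ^ (d + 1) := by exact_mod_cast h1
        have h4 : C * (N + N * c) ^ (d + 1) = N * (C * (c + 1) ^ (d + 1) * N ^ d) := by
          have : N + N * c = (c + 1) * N := by ring
          rw [this, mul_pow]
          ring
        rw [h4] at h3
        exact_mod_cast Nat.le_of_mul_le_mul_left h3 (by omega)
    have h1 := ih (P ⊔ Ideal.span {x}) (C * (c + 1) ^ (d + 1)) hfin (p.tail hlen)
      (sup_le hlt.le ((Ideal.span_singleton_le_iff_mem _).2 hx1))
    rw [RelSeries.tail_length] at h1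
    omega

theorem dim_le_of_growth (d : ℕ) {R : Type u} [CommRing R] [IsNoetherianRing R] [IsLocalRing R]
    (C : ℕ) (h : ∀ M : ℕ, 1 ≤ M →
      Module.length R (R ⧸ IsLocalRing.maximalIdeal R ^ M) ≤ ((C * M ^ d : ℕ) : ℕ∞)) :
    ringKrullDim R ≤ d := by
  unfold ringKrullDim Order.krullDim
  refine iSup_le fun p => ?_
  have h1 := growth d (⊥ : Ideal R) C (fun M hM => (len_mono le_sup_left).trans (h M hM)) p bot_le
  exact_mod_cast h1

end Pool.Agent.LUC
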