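import Pool.Agent.Lib.LUC.C1

/-! # C4: quasi-regularity of a regular system of parameters

Recipe (1.3 of l15_cp_h16.md). Suppose some coefficient of `F` is a unit. `m = 0`: then `j = 0` (a homogeneous polynomial in
no variables of degree `j > 0` is 0) and `F(x) ∈ m_S^1` is the coefficient itself: contradiction. Let `m ≥ 1` (and `j ≥ 1`).
Lexicographic argument: let `a₀` be the least (for a monomial order, `MonomialOrder.lex` or `toLex` on `Fin m →₀ ℕ`) index with
`F.coeff a₀` a unit. Then `x^(a₀) ∈ (x^a : |a| = j, a > a₀) + m^(j+1)` (the terms with a non-unit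
coefficient are in `m^(j+1)`). So for every `b` with `b ≥ a₀` componentwise, `|b| = i`,
`x^b ∈ (x^c : |c| = i, c > b) + m^(i+1)` (multiply by `x^(b-a₀)`); by finite descent `m^i` is generated modulo
`m^(i+1)` by the `x^b`, `|b| = i`, not `b ≥ a₀`. The module `m^i / m^(i+1)` is killed by `m_S`, so its length is at
most the number of its generators; the sum over `i < M` is the length of `S / m^M`: it is at most
`#{b | |b| < M, not b ≥ a₀} ≤ ∑_l #{b | |b| < M, b_l < a₀ l} ≤ (∑_l a₀ l) M^(m-1) = j M^(m-1)`.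
`dim_le_of_growth (m - 1)` gives `dim S ≤ m - 1`: contradiction.
(Other proof: the kernel of `κ[X]_i → m^i/m^(i+1)` contains `Fb · κ[X]_(i-j)`, `Fb ≠ 0` in `κ[X]`.) -/

set_option autoImplicit false

namespace Pool.Agent.LUC

universe u

private theorem c4_len_sub {R : Type u} [CommRing R] {N M P : Type u} [AddCommGroup N] [Module R N]
    [AddCommGroup M] [Module R M] [AddCommGroup P] [Module R P] (f : N →ₗ[R] M) (g : M →ₗ[R] P)
    (hg : Function.Surjective g) (H : Function.Exact f g) :
    Module.length R M ≤ Module.length R N + Module.length R P := by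
  have H' : Function.Exact (LinearMap.range f).subtype g := by
    rw [LinearMap.exact_iff] at H ⊢
    rw [H, Submodule.range_subtype]
  rw [Module.length_eq_add_of_exact (LinearMap.range f).subtype g (Submodule.subtype_injective _)
    hg H']
  gcongr
  exact Module.length_le_of_surjective f.rangeRestrict f.surjective_rangeRestrict

private theorem c4_len_quot {R : Type u} [CommRing R] (I J : Ideal R) (h : I ≤ J) :
    Module.length R (R ⧸ J) ≤ Module.length R (R ⧸ I) :=
  Module.length_le_of_surjective (Submodule.mapQ I J LinearMap.id h) (by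
    intro y
    obtain ⟨y, rfl⟩ := Submodule.mkQ_surjective _ y
    exact ⟨Submodule.mkQ _ y, rfl⟩)

private theorem c4_len_one {R : Type u} [CommRing R] [IsLocalRing R] (J : Ideal R) (g : R)
    (hg : ∀ a ∈ IsLocalRing.maximalIdeal R, a * g ∈ J) :
    Module.length R (R ⧸ J) ≤ 1 + Module.length R (R ⧸ (J ⊔ Ideal.span {g})) := by
  set k := IsLocalRing.maximalIdeal R with hk
  have h1 : Module.length R (R ⧸ k) = 1 := by
    have : IsSimpleModule R (R ⧸ k) := by
      rw [isSimpleModule_iff_quot_maximal]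
      exact ⟨k, inferInstance, ⟨LinearEquiv.refl _ _⟩⟩
    exact Module.length_eq_one R _
  let f : (R ⧸ k) →ₗ[R] (R ⧸ J) :=
    Submodule.mapQ k J (LinearMap.toSpanSingleton R R g) (by
      intro a ha
      simpa using hg a ha)
  let p : (R ⧸ J) →ₗ[R] (R ⧸ (J ⊔ Ideal.span {g})) :=
    Submodule.mapQ J (J ⊔ Ideal.span {g}) LinearMap.id (by
      intro a ha
      exact Ideal.mem_sup_left ha)
  have hp : Function.Surjective p := by
    intro y
    obtain ⟨y, rfl⟩ := Submodule.mkQ_surjective _ y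
    exact ⟨Submodule.mkQ _ y, rfl⟩
  have hex : Function.Exact f p := by
    intro y
    obtain ⟨y, rfl⟩ := Submodule.mkQ_surjective _ y
    constructor
    · intro hy
      have hy2 : y ∈ J ⊔ Ideal.span {g} := by
        have : (Submodule.mkQ (J ⊔ Ideal.span {g})) y = 0 := hy
        rwa [Submodule.mkQ_apply, Submodule.Quotient.mk_eq_zero] at this
      obtain ⟨a, ha, b, hb, rfl⟩ := Submodule.mem_sup.mp hy2
      obtain ⟨c, rfl⟩ := Ideal.mem_span_singleton'.mp hb
      refine ⟨Submodule.mkQ _ c, ?_⟩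
      have e1 : f (Submodule.mkQ _ c) = Submodule.mkQ J (c * g) := by
        rfl
      rw [e1, ← sub_eq_zero, ← map_sub, Submodule.mkQ_apply, Submodule.Quotient.mk_eq_zero]
      have : c * g - (a + c * g) = - a := by ring
      rw [this]
      exact J.neg_mem ha
    · rintro ⟨c, hc⟩
      obtain ⟨c, rfl⟩ := Submodule.mkQ_surjective _ c
      rw [← hc]
      have e1 : f (Submodule.mkQ _ c) = Submodule.mkQ J (c * g) := by
        rfl
      rw [e1]
      change Submodule.mkQ (J ⊔ Ideal.span {g}) (c * g) = 0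
      rw [Submodule.mkQ_apply, Submodule.Quotient.mk_eq_zero]
      exact Ideal.mem_sup_right (Ideal.mem_span_singleton'.mpr ⟨c, rfl⟩)
  calc _ ≤ Module.length R (R ⧸ k) + Module.length R (R ⧸ (J ⊔ Ideal.span {g})) :=
        c4_len_sub f p hp hex
    _ = _ := by rw [h1]

private theorem c4_len_finset {R : Type u} [CommRing R] [IsLocalRing R] (J : Ideal R)
    {ι : Type} (x : ι → R) (G : Finset ι)
    (hG : ∀ b ∈ G, ∀ a ∈ IsLocalRing.maximalIdeal R, a * x b ∈ J) :
    Module.length R (R ⧸ J) ≤ G.card + Module.length R (R ⧸ (J ⊔ Ideal.span (x '' G))) := by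
  classical
  induction G using Finset.induction_on with
  | empty =>
    rw [Finset.coe_empty, Set.image_empty, Ideal.span_empty, sup_bot_eq]
    exact le_add_self
  | insert b G hb ih =>
    have h1 := ih (fun c hc => hG c (Finset.mem_insert_of_mem hc))
    have h2 := c4_len_one (J ⊔ Ideal.span (x '' G)) (x b) (fun a ha =>
      Ideal.mem_sup_left (hG b (Finset.mem_insert_self _ _) a ha))
    have h3 : J ⊔ Ideal.span (x '' G) ⊔ Ideal.span {x b}
        = J ⊔ Ideal.span (x '' ((insert b G : Finset ι) : Set ι)) := by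
      rw [Finset.coe_insert, Set.image_insert_eq, sup_assoc, Ideal.span_insert,
        sup_comm (Ideal.span (x '' G))]
    rw [h3] at h2
    rw [Finset.card_insert_of_notMem hb]
    calc _ ≤ _ := h1
      _ ≤ (G.card : ℕ∞) + (1 + Module.length R
          (R ⧸ (J ⊔ Ideal.span (x '' ((insert b G : Finset ι) : Set ι))))) := by gcongr
      _ = _ := by push_cast; ring

private theorem c4_len_step {R : Type u} [CommRing R] [IsLocalRing R] (I' I : Ideal R)
    (hm : ∀ a ∈ IsLocalRing.maximalIdeal R, ∀ b ∈ I, a * b ∈ I')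
    {ι : Type} (x : ι → R) (G : Finset ι) (hG : ∀ b ∈ G, x b ∈ I)
    (h : I ≤ Ideal.span (x '' G) ⊔ I') :
    Module.length R (R ⧸ I') ≤ G.card + Module.length R (R ⧸ I) := by
  refine (c4_len_finset I' x G (fun b hb a ha => hm a ha _ (hG b hb))).trans ?_
  gcongr
  refine c4_len_quot _ _ ?_
  rwa [sup_comm]

private noncomputable def c4mon {S : Type u} [CommRing S] {m : ℕ} (x : Fin m → S)
    (b : Fin m →₀ ℕ) : S := ∏ k, x k ^ b k

private theorem c4mon_add {S : Type u} [CommRing S] {m : ℕ} (x : Fin m → S)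
    (a b : Fin m →₀ ℕ) : c4mon x (a + b) = c4mon x a * c4mon x b := by
  simp [c4mon, pow_add, Finset.prod_mul_distrib]

private theorem c4mon_mem {S : Type u} [CommRing S] {m : ℕ} (x : Fin m → S) (k : Ideal S)
    (hk : ∀ i, x i ∈ k) (b : Fin m →₀ ℕ) : c4mon x b ∈ k ^ (b.degree) := by
  have h : (∏ i, k ^ b i) = k ^ b.degree := by
    rw [Finset.prod_pow_eq_pow_sum, Finsupp.degree_eq_sum]
  rw [← h]
  exact Ideal.prod_mem_prod (fun i _ => Ideal.pow_mem_pow (hk i) _)

private theorem c4_eval {S : Type u} [CommRing S] {m : ℕ} (x : Fin m → S)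
    (F : MvPolynomial (Fin m) S) :
    MvPolynomial.eval x F = ∑ a ∈ F.support, F.coeff a * c4mon x a := by
  rw [MvPolynomial.eval_eq']
  rfl

private theorem c4_deg {S : Type u} [CommRing S] {m : ℕ} {F : MvPolynomial (Fin m) S} {j : ℕ}
    (hF : F.IsHomogeneous j) {a : Fin m →₀ ℕ} (ha : a ∈ F.support) : a.degree = j := by
  have h := hF (MvPolynomial.mem_support_iff.mp ha)
  rw [← h, Finsupp.degree_eq_weight_one]
  rfl

/-- the descent -/
private theorem c4_descent {S : Type u} [CommRing S] {m : ℕ} (x : Fin m → S) (k : Ideal S)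
    (hk : ∀ i, x i ∈ k) (hloc : ∀ c : S, c ∉ k → IsUnit c) (j : ℕ)
    (F : MvPolynomial (Fin m) S) (hF : F.IsHomogeneous j)
    (hFx : MvPolynomial.eval x F ∈ k ^ (j + 1)) (a₀ : Fin m →₀ ℕ) (ha₀ : F.coeff a₀ ∉ k)
    (hmin : ∀ a : Fin m →₀ ℕ, F.coeff a ∉ k → toLex a₀ ≤ toLex a)
    (i : ℕ) (b : Fin m →₀ ℕ) (hb : b.degree = i) :
    c4mon x b ∈ Ideal.span (c4mon x '' {c : Fin m →₀ ℕ | c.degree = i ∧ ¬ a₀ ≤ c}) ⊔
      k ^ (i + 1) := by
  classical
  set N : Ideal S := Ideal.span (c4mon x '' {c : Fin m →₀ ℕ | c.degree = i ∧ ¬ a₀ ≤ c}) ⊔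
      k ^ (i + 1) with hN
  by_contra hcon
  let T : Finset (Fin m →₀ ℕ) :=
    ((Finset.univ : Finset (Fin m)).finsuppAntidiag i).filter (fun b => c4mon x b ∉ N)
  have hbT : b ∈ T := by
    rw [Finset.mem_filter, Finset.mem_finsuppAntidiag]
    exact ⟨⟨by rw [← hb, Finsupp.degree_eq_sum], Finset.subset_univ _⟩, hcon⟩
  obtain ⟨c, hcT, hmax⟩ := Finset.exists_max_image T (fun b => toLex b) ⟨b, hbT⟩
  rw [Finset.mem_filter, Finset.mem_finsuppAntidiag] at hcT
  obtain ⟨⟨hci, -⟩, hcN⟩ := hcT
  rw [← Finsupp.degree_eq_sum] at hci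
  have hle : a₀ ≤ c := by
    by_contra hle
    exact hcN (Ideal.mem_sup_left (Ideal.subset_span ⟨c, ⟨hci, hle⟩, rfl⟩))
  obtain ⟨d, rfl⟩ := le_iff_exists_add.mp hle
  have ha₀s : a₀ ∈ F.support := by
    rw [MvPolynomial.mem_support_iff]
    intro h0
    exact ha₀ (by rw [h0]; exact k.zero_mem)
  have ha₀j := c4_deg hF ha₀s
  have hji : j + d.degree = i := by rw [← ha₀j, ← map_add, hci]
  -- multiply by `x^d`
  have hFd : MvPolynomial.eval x F * c4mon x d ∈ k ^ (i + 1) := by
    have := Ideal.mul_mem_mul hFx (c4mon_mem x k hk d)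
    rw [← pow_add] at this
    have e : j + 1 + d.degree = i + 1 := by omega
    rwa [e] at this
  rw [c4_eval, Finset.sum_mul, ← Finset.add_sum_erase _ _ ha₀s] at hFd
  have hrest : ∑ a ∈ F.support.erase a₀, F.coeff a * c4mon x a * c4mon x d ∈ N := by
    refine N.sum_mem (fun a ha => ?_)
    obtain ⟨hne, has⟩ := Finset.mem_erase.mp ha
    have haj := c4_deg hF has
    by_cases hu : F.coeff a ∈ k
    · refine Ideal.mem_sup_right ?_
      have h1 := Ideal.mul_mem_mul (Ideal.mul_mem_mul hu (c4mon_mem x k hk a))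
        (c4mon_mem x k hk d)
      rw [haj] at h1
      have e : k * k ^ j * k ^ d.degree = k ^ (i + 1) := by
        rw [← pow_succ', ← pow_add]
        congr 1
        omega
      rwa [e] at h1
    · have hlt : toLex a₀ < toLex a := lt_of_le_of_ne (hmin a hu) (fun h => hne (by
        have := toLex.injective h
        exact this.symm))
      rw [mul_assoc, ← c4mon_add]
      refine N.mul_mem_left _ ?_
      by_contra hnot
      have hmem : a + d ∈ T := by
        rw [Finset.mem_filter, Finset.mem_finsuppAntidiag]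
        refine ⟨⟨?_, Finset.subset_univ _⟩, hnot⟩
        rw [← Finsupp.degree_eq_sum, map_add, haj, hji]
      have h2 := hmax _ hmem
      have h3 : toLex (a₀ + d) < toLex (a + d) := by
        rw [toLex_add, toLex_add]
        exact add_lt_add_left hlt _
      exact absurd h2 (not_le.mpr h3)
  have h5 : F.coeff a₀ * c4mon x a₀ * c4mon x d ∈ N := by
    have h6 : F.coeff a₀ * c4mon x a₀ * c4mon x d +
      ∑ a ∈ F.support.erase a₀, F.coeff a * c4mon x a * c4mon x d ∈ N := Ideal.mem_sup_right hFd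
    exact (N.add_mem_iff_left hrest).mp h6
  rw [mul_assoc, ← c4mon_add] at h5
  obtain ⟨u, hu⟩ := hloc _ ha₀
  apply hcN
  rw [← hu] at h5
  exact (Ideal.unit_mul_mem_iff_mem N u.isUnit).mp h5

private theorem c4_pow_le {S : Type u} [CommRing S] {m : ℕ} (x : Fin m → S) (i : ℕ) (N : Ideal S)
    (h : ∀ b : Fin m →₀ ℕ, b.degree = i → c4mon x b ∈ N) :
    Ideal.span (Set.range x) ^ i ≤ N := by
  intro y hy
  obtain ⟨p, hp, rfl⟩ := (Ideal.mem_span_pow_iff_exists_isHomogeneous x y).mp hy
  rw [c4_eval]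
  exact N.sum_mem (fun a ha => N.mul_mem_left _ (h a (c4_deg hp ha)))

private noncomputable def c4B {m : ℕ} (a₀ : Fin m →₀ ℕ) (i : ℕ) : Finset (Fin m →₀ ℕ) :=
  ((Finset.univ : Finset (Fin m)).finsuppAntidiag i).filter (fun b => ¬ a₀ ≤ b)

private theorem c4B_coe {m : ℕ} (a₀ : Fin m →₀ ℕ) (i : ℕ) :
    ((c4B a₀ i : Finset (Fin m →₀ ℕ)) : Set (Fin m →₀ ℕ)) =
      {c : Fin m →₀ ℕ | c.degree = i ∧ ¬ a₀ ≤ c} := by
  ext c
  rw [Finset.mem_coe, c4B, Finset.mem_filter, Finset.mem_finsuppAntidiag, Set.mem_ofPred_eq,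
    Finsupp.degree_eq_sum]
  simp

/-- counting -/
private theorem c4_count {m : ℕ} (a₀ : Fin m →₀ ℕ) (M : ℕ) :
    ∑ i ∈ Finset.range M, (c4B a₀ i).card ≤ (∑ l, a₀ l) * M ^ (m - 1) := by
  classical
  have hdisj : ∀ i ∈ Finset.range M, ∀ j ∈ Finset.range M, i ≠ j →
      Disjoint (c4B a₀ i) (c4B a₀ j) := by
    intro i _ j _ hij
    rw [Finset.disjoint_left]
    intro b hb hb'
    have h1 : b ∈ ((c4B a₀ i : Finset (Fin m →₀ ℕ)) : Set (Fin m →₀ ℕ)) := hb
    have h2 : b ∈ ((c4B a₀ j : Finset (Fin m →₀ ℕ)) : Set (Fin m →₀ ℕ)) := hb'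
    rw [c4B_coe] at h1 h2
    exact hij (h1.1.symm.trans h2.1)
  rw [← Finset.card_biUnion hdisj]
  let P : Fin m → Finset (Fin m → ℕ) := fun l =>
    Fintype.piFinset (Function.update (fun _ => Finset.range M) l (Finset.range (a₀ l)))
  have hP : ∀ l, (P l).card = a₀ l * M ^ (m - 1) := by
    intro l
    rw [Fintype.card_piFinset]
    rw [← Finset.mul_prod_erase Finset.univ _ (Finset.mem_univ l)]
    rw [Function.update_self, Finset.card_range]
    congr 1
    rw [Finset.prod_congr rfl (g := fun _ => M)]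
    · rw [Finset.prod_const, Finset.card_erase_of_mem (Finset.mem_univ _), Finset.card_univ,
        Fintype.card_fin]
    · intro k hk
      rw [Function.update_of_ne (Finset.ne_of_mem_erase hk), Finset.card_range]
  have hsub : ∀ b ∈ (Finset.range M).biUnion (c4B a₀), (fun k => b k) ∈
      Finset.univ.biUnion P := by
    intro b hb
    obtain ⟨i, hi, hb⟩ := Finset.mem_biUnion.mp hb
    have h1 : b ∈ ((c4B a₀ i : Finset (Fin m →₀ ℕ)) : Set (Fin m →₀ ℕ)) := hb
    rw [c4B_coe] at h1
    obtain ⟨hdeg, hnle⟩ := h1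
    rw [Finsupp.le_def] at hnle
    push Not at hnle
    obtain ⟨l, hl⟩ := hnle
    refine Finset.mem_biUnion.mpr ⟨l, Finset.mem_univ _, ?_⟩
    rw [Fintype.mem_piFinset]
    intro k
    by_cases hkl : k = l
    · subst hkl
      rw [Function.update_self, Finset.mem_range]
      exact hl
    · rw [Function.update_of_ne hkl, Finset.mem_range]
      have h3 : b k ≤ b.degree := Finsupp.le_degree k b
      have h4 := Finset.mem_range.mp hi
      omega
  calc ((Finset.range M).biUnion (c4B a₀)).card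
      ≤ (Finset.univ.biUnion P).card :=
        Finset.card_le_card_of_injOn (fun b => fun k => b k) hsub (by
          intro b _ b' _ hbb
          exact Finsupp.ext (fun k => congrFun hbb k))
    _ ≤ ∑ l, (P l).card := Finset.card_biUnion_le
    _ = _ := by rw [Finset.sum_mul]; exact Finset.sum_congr rfl (fun l _ => hP l)

theorem quasi_regular {S : Type u} [CommRing S] [IsNoetherianRing S] [IsLocalRing S] {m : ℕ}
    (x : Fin m → S) (hx : IsLocalRing.maximalIdeal S = Ideal.span (Set.range x))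
    (hdim : ((m : ℕ) : WithBot ℕ∞) ≤ ringKrullDim S) (j : ℕ) (F : MvPolynomial (Fin m) S)
    (hF : F.IsHomogeneous j)
    (hFx : MvPolynomial.eval x F ∈ IsLocalRing.maximalIdeal S ^ (j + 1)) (a : Fin m →₀ ℕ) :
    F.coeff a ∈ IsLocalRing.maximalIdeal S := by
  classical
  by_contra hcon
  set k := IsLocalRing.maximalIdeal S with hkdef
  have hk : ∀ i, x i ∈ k := by
    intro i
    rw [hx]
    exact Ideal.subset_span ⟨i, rfl⟩
  have hloc : ∀ c : S, c ∉ k → IsUnit c := by
    intro c hc
    rwa [hkdef, IsLocalRing.mem_maximalIdeal, mem_nonunits_iff, not_not] at hc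
  have hsupp : ∀ a : Fin m →₀ ℕ, F.coeff a ∉ k → a ∈ F.support := by
    intro a ha
    rw [MvPolynomial.mem_support_iff]
    intro h0
    exact ha (by rw [h0]; exact k.zero_mem)
  obtain ⟨a₀, ha₀, hmin⟩ := Finset.exists_min_image (F.support.filter (fun a => F.coeff a ∉ k))
    (fun a => toLex a) ⟨a, Finset.mem_filter.mpr ⟨hsupp a hcon, hcon⟩⟩
  obtain ⟨ha₀s, ha₀u⟩ := Finset.mem_filter.mp ha₀
  rcases Nat.eq_zero_or_pos m with hm | hm
  · subst hm
    have hz : a₀ = 0 := Subsingleton.elim _ _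
    have hj : j = 0 := by
      rw [← c4_deg hF ha₀s, hz]
      exact map_zero _
    subst hj
    have e : MvPolynomial.eval x F = F.coeff a₀ := by
      rw [c4_eval]
      have hs : F.support = {a₀} := by
        ext c
        rw [Finset.mem_singleton]
        exact ⟨fun _ => Subsingleton.elim _ _, fun h => h ▸ ha₀s⟩
      rw [hs, Finset.sum_singleton]
      simp [c4mon]
    rw [e, zero_add, pow_one] at hFx
    exact ha₀u hFx
  · have hlen : ∀ M : ℕ, Module.length S (S ⧸ k ^ M) ≤
        ((∑ i ∈ Finset.range M, (c4B a₀ i).card : ℕ) : ℕ∞) := by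
      intro M
      induction M with
      | zero =>
        have : Subsingleton (S ⧸ k ^ 0) := by
          rw [pow_zero, Ideal.one_eq_top]
          exact Ideal.Quotient.subsingleton_iff.mpr rfl
        rw [Module.length_eq_zero]
        exact zero_le
      | succ M ih =>
        have hst := c4_len_step (k ^ (M + 1)) (k ^ M) (fun a ha b hb => by
          rw [pow_succ']
          exact Ideal.mul_mem_mul ha hb) (c4mon x) (c4B a₀ M) (fun b hb => by
            have h1 : b ∈ ((c4B a₀ M : Finset (Fin m →₀ ℕ)) : Set (Fin m →₀ ℕ)) := hb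
            rw [c4B_coe] at h1
            have := c4mon_mem x k hk b
            rwa [h1.1] at this) (by
            rw [c4B_coe]
            nth_rewrite 1 [hx]
            refine c4_pow_le x M _ (fun b hb => ?_)
            exact c4_descent x k hk hloc j F hF hFx a₀ ha₀u (fun a ha =>
              hmin a (Finset.mem_filter.mpr ⟨hsupp a ha, ha⟩)) M b hb)
        rw [Finset.sum_range_succ]
        calc _ ≤ _ := hst
          _ ≤ ((c4B a₀ M).card : ℕ∞) + ((∑ i ∈ Finset.range M, (c4B a₀ i).card : ℕ) : ℕ∞) := by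
            gcongr
          _ = _ := by push_cast; ring
    have hd := dim_le_of_growth (R := S) (m - 1) (∑ l, a₀ l) (fun M _ =>
      (hlen M).trans (by exact_mod_cast c4_count a₀ M))
    have h2 := hdim.trans hd
    have h3 : m ≤ m - 1 := by exact_mod_cast h2
    omega

end Pool.Agent.LUC
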