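import Pool.Agent.Lib.LUC.Loc
import Pool.Agent.Lib.LUC.C4

/-! # C5: the base rings

Recipe (consequence of 1.3 in l15_cp_h16.md). Only `cap` is not a hypothesis. Let `Rx = adj R₀ (range x) ≤ S`.
First: every element of `Rx` is in `R₀ + (x) Rx` (`adj_induction`). Let `f ∈ Rx` with `IP S x M f`. Show
`IP Rx x j f` for `j ≤ M` by induction on `j`. `j = 0`: `IP.zero_iff`. Let `IP Rx x j f`, `j < M`: by `IP.sum_iff`
`f = ∑ φ, c φ * ∏ i, x (φ i)`, `c φ ∈ Rx`, `c φ = c₀ φ + (x) Rx`, `c₀ φ ∈ R₀`. Let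
`F = ∑ φ, C (c₀ φ) * ∏ i, X (φ i) : MvPolynomial (Fin m) S`, homogeneous of degree `j`, `eval x F = ∑ φ, c₀ φ * ∏ x (φ i)`,
`f - eval x F ∈ (x)^(j+1) Rx`, and `f ∈ (x)^M S ≤ m^(j+1)`: so `eval x F ∈ m^(j+1)`, and by `quasi_regular`
all coefficients of `F` are in `m`; they are in `R₀`, so by `h0` in `(x) Rx`. `eval x F = ∑ a, coeff a * x^a` with
`|a| = j`: so `IP Rx x (j+1) (eval x F)` (`x^a` is `IP Rx x j`), and `IP Rx x (j+1) f`. The ideal `idl S x` is the
span of the range of the `x i` in `S` (as in the proof of `IP.one_iff`). -/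

set_option autoImplicit false

namespace Pool.Agent.LUC

open Pool.Agent.H15JM (RVal)
open Pool.Agent.LU1 (VPos)

universe u

variable {Ω : Type u} [Field Ω] {w : RVal Ω}

private theorem ip_pow {B : Subring Ω} {n : ℕ} {z : Fin n → Ω} (hz : ∀ i, z i ∈ B) (i : Fin n)
    (k : ℕ) : IP B z k (z i ^ k) := by
  induction k with
  | zero => exact IP.zero_iff.2 (by simpa using B.one_mem)
  | succ k ih =>
    rw [pow_succ]
    exact ih.mul (IP.gen (hz i))

private theorem ip_monomial {B : Subring Ω} {n : ℕ} {z : Fin n → Ω} (hz : ∀ i, z i ∈ B)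
    (a : Fin n → ℕ) (s : Finset (Fin n)) : IP B z (∑ i ∈ s, a i) (∏ i ∈ s, z i ^ a i) := by
  classical
  induction s using Finset.induction_on with
  | empty => exact IP.zero_iff.2 (by simpa using B.one_mem)
  | insert i s hi ih =>
    rw [Finset.sum_insert hi, Finset.prod_insert hi]
    exact (ip_pow hz i (a i)).mul ih

private theorem dec_adj {R₀ : Subring Ω} {m : ℕ} {x : Fin m → Ω} {f : Ω}
    (hf : f ∈ adj R₀ (Set.range x)) :
    f ∈ adj R₀ (Set.range x) ∧ ∃ r ∈ R₀, IP (adj R₀ (Set.range x)) x 1 (f - r) := by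
  have hxR : ∀ i, x i ∈ adj R₀ (Set.range x) := fun i => mem_adj ⟨i, rfl⟩
  refine adj_induction (p := fun f => f ∈ adj R₀ (Set.range x) ∧
    ∃ r ∈ R₀, IP (adj R₀ (Set.range x)) x 1 (f - r)) ?_ ?_ ?_ ?_ hf
  · intro f hf
    exact ⟨base_le_adj _ _ hf, f, hf, by rw [sub_self]; exact IP.zero⟩
  · rintro _ ⟨i, rfl⟩
    exact ⟨hxR i, 0, R₀.zero_mem, by rw [sub_zero]; exact IP.gen (hxR i)⟩
  · rintro f g ⟨hf, r, hr, hfr⟩ ⟨hg, s, hs, hgs⟩
    refine ⟨Subring.add_mem _ hf hg, r + s, R₀.add_mem hr hs, ?_⟩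
    rw [add_sub_add_comm]
    exact hfr.add hgs
  · rintro f g ⟨hf, r, hr, hfr⟩ ⟨hg, s, hs, hgs⟩
    refine ⟨Subring.mul_mem _ hf hg, r * s, R₀.mul_mem hr hs, ?_⟩
    have h1 : f * g - r * s = (f - r) * g + r * (g - s) := by ring
    rw [h1]
    exact (hfr.mul_right hg).add (hgs.mul_left (base_le_adj _ _ hr))

private theorem coe_coeff_mem {R₀ S : Subring Ω} {m j : ℕ} (c : (Fin j → Fin m) → S)
    (hc : ∀ φ, (c φ : Ω) ∈ R₀) (a : Fin m →₀ ℕ) :
    ((MvPolynomial.coeff a (∑ φ : Fin j → Fin m,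
      MvPolynomial.C (c φ) * ∏ i, MvPolynomial.X (φ i)) : S) : Ω) ∈ R₀ := by
  classical
  rw [MvPolynomial.coeff_sum]
  rw [show ((∑ φ : Fin j → Fin m, MvPolynomial.coeff a (MvPolynomial.C (c φ) *
    ∏ i, MvPolynomial.X (φ i) : MvPolynomial (Fin m) S) : S) : Ω) =
    ∑ φ : Fin j → Fin m, ((MvPolynomial.coeff a (MvPolynomial.C (c φ) *
    ∏ i, MvPolynomial.X (φ i) : MvPolynomial (Fin m) S) : S) : Ω) from
    map_sum S.subtype _ _]
  refine R₀.sum_mem fun φ _ => ?_
  rw [MvPolynomial.coeff_C_mul, Subring.coe_mul]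
  refine R₀.mul_mem (hc φ) ?_
  have h1 : (∏ i, MvPolynomial.X (φ i) : MvPolynomial (Fin m) S) =
      MvPolynomial.monomial (∑ i, Finsupp.single (φ i) 1) 1 := by
    rw [MvPolynomial.monomial_sum_one]
    rfl
  rw [h1, MvPolynomial.coeff_monomial]
  split_ifs
  · simpa using R₀.one_mem
  · simpa using R₀.zero_mem

theorem base_of_regular (R₀ S : Subring Ω) (hle : R₀ ≤ S) [IsNoetherianRing R₀]
    [IsNoetherianRing S] [IsLocalRing S] {m : ℕ} (x : Fin m → Ω) (hx : ∀ i, x i ∈ S)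
    (hmax : IsLocalRing.maximalIdeal S = idl S x)
    (hdim : ((m : ℕ) : WithBot ℕ∞) ≤ ringKrullDim S) (hge : ∀ s ∈ S, w.Ge 0 s)
    (hne : ∀ i, x i ≠ 0) (hpos : ∀ i, 0 < w (x i))
    (hdec : ∀ s ∈ S, ∃ r ∈ R₀, IP S x 1 (s - r))
    (h0 : ∀ r ∈ R₀, IP S x 1 r → IP (adj R₀ (Set.range x)) x 1 r) : Base w R₀ S x := by
  classical
  have hxR : ∀ i, x i ∈ adj R₀ (Set.range x) := fun i => mem_adj ⟨i, rfl⟩
  have hRS : adj R₀ (Set.range x) ≤ S := by
    refine adj_le hle ?_
    rintro _ ⟨i, rfl⟩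
    exact hx i
  let xs : Fin m → S := fun i => ⟨x i, hx i⟩
  have hmax' : IsLocalRing.maximalIdeal S = Ideal.span (Set.range xs) := by
    rw [hmax, idl]
    congr 1
    ext b
    constructor
    · rintro ⟨i, hi⟩
      exact ⟨i, Subtype.ext hi.symm⟩
    · rintro ⟨i, rfl⟩
      exact ⟨i, rfl⟩
  refine ⟨hle, inferInstance, inferInstance, hge, hx, hne, hpos, hdec, ?_⟩
  intro M f hf hfM
  -- the induction
  have key : ∀ j, j ≤ M → IP (adj R₀ (Set.range x)) x j f := by
    intro j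
    induction j with
    | zero => exact fun _ => IP.zero_iff.2 hf
    | succ j ih =>
      intro hj
      have h := ih (by omega)
      obtain ⟨c, hc, hfc⟩ := (IP.sum_iff hxR).1 h
      choose c₀ hc₀ hcc using fun φ => (dec_adj (hc φ)).2
      have h1 : IP (adj R₀ (Set.range x)) x (j + 1) (f - ∑ φ, c₀ φ * ∏ i, x (φ i)) := by
        have h2 : f - ∑ φ, c₀ φ * ∏ i, x (φ i) = ∑ φ, (c φ - c₀ φ) * ∏ i, x (φ i) := by
          rw [hfc, ← Finset.sum_sub_distrib]
          exact Finset.sum_congr rfl fun φ _ => by ring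
        rw [h2]
        refine IP.sum _ _ fun φ _ => ?_
        rw [add_comm]
        exact (hcc φ).mul (IP.gen_prod hxR φ)
      have h3 : IP S x (j + 1) (∑ φ, c₀ φ * ∏ i, x (φ i)) := by
        have h4 := (hfM.anti hj).sub (h1.mono hRS hx)
        rwa [sub_sub_cancel] at h4
      let F : MvPolynomial (Fin m) S := ∑ φ : Fin j → Fin m,
        MvPolynomial.C (⟨c₀ φ, hle (hc₀ φ)⟩ : S) * ∏ i, MvPolynomial.X (φ i)
      have hF : F.IsHomogeneous j := by
        refine MvPolynomial.IsHomogeneous.sum _ _ _ fun φ _ => ?_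
        have h5 := (MvPolynomial.isHomogeneous_C (Fin m) (⟨c₀ φ, hle (hc₀ φ)⟩ : S)).mul
          (MvPolynomial.IsHomogeneous.prod Finset.univ (fun i : Fin j => MvPolynomial.X (φ i))
            (fun _ => 1) fun i _ => MvPolynomial.isHomogeneous_X S (φ i))
        simpa using h5
      have hFe : ((MvPolynomial.eval xs F : S) : Ω) = ∑ φ, c₀ φ * ∏ i, x (φ i) := by
        simp only [F, map_sum, map_mul, map_prod, MvPolynomial.eval_C, MvPolynomial.eval_X]
        rw [show ((∑ φ : Fin j → Fin m, (⟨c₀ φ, hle (hc₀ φ)⟩ : S) * ∏ i, xs (φ i) : S) : Ω) =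
          ∑ φ : Fin j → Fin m, (((⟨c₀ φ, hle (hc₀ φ)⟩ : S) * ∏ i, xs (φ i) : S) : Ω) from
          map_sum S.subtype _ _]
        refine Finset.sum_congr rfl fun φ _ => ?_
        rw [Subring.coe_mul, show ((∏ i, xs (φ i) : S) : Ω) = ∏ i, ((xs (φ i) : S) : Ω) from
          map_prod S.subtype _ _]
      have hFx : MvPolynomial.eval xs F ∈ IsLocalRing.maximalIdeal S ^ (j + 1) := by
        obtain ⟨g, hg, hg'⟩ := h3
        rw [hmax]
        have h6 : MvPolynomial.eval xs F = g := Subtype.ext (hFe.trans hg.symm)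
        rw [h6]
        exact hg'
      have hco : ∀ a : Fin m →₀ ℕ,
          IP (adj R₀ (Set.range x)) x 1 ((MvPolynomial.coeff a F : S) : Ω) := by
        intro a
        refine h0 _ (coe_coeff_mem _ (fun φ => hc₀ φ) a) ?_
        have h7 := quasi_regular xs hmax' hdim j F hF hFx a
        exact ⟨_, rfl, by rw [pow_one, ← hmax]; exact h7⟩
      have h8 : IP (adj R₀ (Set.range x)) x (j + 1) (∑ φ, c₀ φ * ∏ i, x (φ i)) := by
        rw [← hFe, MvPolynomial.eval_eq']
        rw [show ((∑ d ∈ F.support, F.coeff d * ∏ i, xs i ^ d i : S) : Ω) =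
          ∑ d ∈ F.support, ((F.coeff d * ∏ i, xs i ^ d i : S) : Ω) from map_sum S.subtype _ _]
        refine IP.sum _ _ fun d hd => ?_
        rw [Subring.coe_mul, show ((∏ i, xs i ^ d i : S) : Ω) = ∏ i, x i ^ d i from by
          rw [show ((∏ i, xs i ^ d i : S) : Ω) = ∏ i, ((xs i ^ d i : S) : Ω) from
            map_prod S.subtype _ _]
          rfl, add_comm]
        have h9 : ∑ i, d i = j := by
          have h10 := hF (MvPolynomial.mem_support_iff.1 hd)
          rw [Finsupp.weight_apply, Finsupp.sum_fintype] at h10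
          · simpa using h10
          · simp
        have h11 := ip_monomial hxR (fun i => d i) Finset.univ
        rw [h9] at h11
        exact (hco d).mul h11
      have h12 := h1.add h8
      rwa [sub_add_cancel] at h12
  exact key M le_rfl

end Pool.Agent.LUC
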