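import Pool.Agent.Lib.LUC.C5

/-! # C7: the base rings of a regular local ring with a coefficient field

Recipe. `ι = algebraMap S Ω`, injective; `S' = ι.range`, `R₀ = (algebraMap k Ω).range ≤ S'`, `S ≃+* S'` (`RingHom.rangeRestrict`, bijective): `S'` is
noetherian, local, of dimension `m`. The maximal ideal of `S` is generated by `y : Fin m → S`: `spanFinrank = m`
(`IsRegularLocalRing.spanFinrank_maximalIdeal`, a set of generators with `spanFinrank` elements: `Submodule.FG.exists_span_set_encard_eq_spanFinrank` or
similar, at most `m` elements suffice: fill up with repetitions, if `m = 0` the ideal is `⊥`). All `y i ≠ 0`: otherwise `m - 1` elements generate and the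
dimension is `≤ m - 1` (Krull: `ringKrullDim_le_spanFinrank_maximalIdeal`, `Submodule.spanFinrank_span_le_ncard_of_finite`). `x i = ι (y i)`;
`maximalIdeal S' = idl S' x`. `hdec` from `hres`. `h0`: `R₀` is a field; an element of `R₀` in the maximal ideal is 0 (not a unit).
Then `base_of_regular`. `R₀` is noetherian (a field: `IsNoetherianRing` via `RingHom.rangeRestrict` surjective,
`isNoetherianRing_of_surjective`). -/

set_option autoImplicit false

namespace Pool.Agent.LUC

open Pool.Agent.H15JM (RVal)
open Pool.Agent.LU1 (VPos)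

universe u

/-- A regular system of parameters. -/
theorem exists_params {S : Type u} [CommRing S] [IsRegularLocalRing S] {m : ℕ}
    (hdim : ringKrullDim S = m) :
    ∃ y : Fin m → S, IsLocalRing.maximalIdeal S = Ideal.span (Set.range y) ∧
      ∀ i, y i ≠ 0 := by
  classical
  have h0 : (IsLocalRing.maximalIdeal S).spanFinrank = m := by
    have h1 := IsRegularLocalRing.spanFinrank_maximalIdeal (R := S)
    rw [hdim] at h1
    exact_mod_cast h1
  obtain ⟨s, hs1, hs2⟩ := (IsNoetherian.noetherian
    (IsLocalRing.maximalIdeal S)).exists_span_finset_card_eq_spanFinrank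
  rw [h0] at hs1
  have e : Fin m ≃ s := (finCongr hs1.symm).trans s.equivFin.symm
  have hr : Set.range (fun i => (e i : S)) = (s : Set S) := by
    ext a
    constructor
    · rintro ⟨i, rfl⟩
      exact (e i).2
    · intro ha
      exact ⟨e.symm ⟨a, ha⟩, by simp⟩
  refine ⟨fun i => (e i : S), ?_, fun i hi => ?_⟩
  · rw [hr]
    exact hs2.symm
  · change (e i : S) = 0 at hi
    have h1 : Ideal.span ((s.erase (e i : S) : Finset S) : Set S) =
        IsLocalRing.maximalIdeal S := by
      rw [← hs2]
      apply le_antisymm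
      · exact Ideal.span_mono (Finset.coe_subset.2 (Finset.erase_subset _ _))
      · change Ideal.span (s : Set S) ≤ _
        rw [Ideal.span_le]
        intro a ha
        by_cases hae : a = (e i : S)
        · rw [hae, hi]
          exact Ideal.zero_mem _
        · exact Ideal.subset_span (by simp [hae, Finset.mem_coe.1 ha])
    have h2 := Submodule.spanFinrank_span_le_ncard_of_finite (R := S)
      (s := ((s.erase (e i : S) : Finset S) : Set S)) (s.erase (e i : S)).finite_toSet
    rw [Set.ncard_coe_finset, Finset.card_erase_of_mem (e i).2] at h2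
    change (Ideal.span ((s.erase (e i : S) : Finset S) : Set S)).spanFinrank ≤ s.card - 1 at h2
    rw [h1, h0, hs1] at h2
    have h3 := i.2
    omega

theorem exists_base {k S Ω : Type u} [Field k] [CommRing S] [IsRegularLocalRing S] [Field Ω]
    [Algebra k S] [Algebra S Ω] [Algebra k Ω] [IsScalarTower k S Ω]
    (hinj : Function.Injective (algebraMap S Ω)) (w : RVal Ω)
    (hres : ∀ s : S, ∃ c : k, s - algebraMap k S c ∈ IsLocalRing.maximalIdeal S) {m : ℕ}
    (hdim : ringKrullDim S = m) (hge : ∀ s : S, w.Ge 0 (algebraMap S Ω s))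
    (hpos : ∀ s ∈ IsLocalRing.maximalIdeal S, VPos w (algebraMap S Ω s)) :
    ∃ x : Fin m → Ω, Base w (algebraMap k Ω).range (algebraMap S Ω).range x := by
  classical
  obtain ⟨xS, hy, hxS0⟩ := exists_params hdim
  have hxSm : ∀ i, xS i ∈ IsLocalRing.maximalIdeal S := by
    intro i
    rw [hy]
    exact Ideal.subset_span ⟨i, rfl⟩
  let e : S ≃+* (algebraMap S Ω).range :=
    RingEquiv.ofBijective (algebraMap S Ω).rangeRestrict
      ⟨fun a b h => hinj (congrArg Subtype.val h), (algebraMap S Ω).rangeRestrict_surjective⟩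
  haveI : IsNoetherianRing (algebraMap S Ω).range := isNoetherianRing_of_ringEquiv S e
  haveI : IsLocalRing (algebraMap S Ω).range := e.isLocalRing
  haveI : IsNoetherianRing (algebraMap k Ω).range :=
    isNoetherianRing_of_surjective k _ (algebraMap k Ω).rangeRestrict
      (algebraMap k Ω).rangeRestrict_surjective
  have hmax : IsLocalRing.maximalIdeal (algebraMap S Ω).range =
      idl (algebraMap S Ω).range (fun i => algebraMap S Ω (xS i)) := by
    have h1 : IsLocalRing.maximalIdeal (algebraMap S Ω).range =
        (IsLocalRing.maximalIdeal S).map (e : S →+* (algebraMap S Ω).range) := by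
      ext b
      constructor
      · intro hb
        have h2 : e.symm b ∈ IsLocalRing.maximalIdeal S := by
          rw [IsLocalRing.mem_maximalIdeal, mem_nonunits_iff] at hb ⊢
          intro hu
          exact hb (by simpa using hu.map e)
        have h3 := Ideal.mem_map_of_mem (e : S →+* (algebraMap S Ω).range) h2
        simpa using h3
      · intro hb
        rw [Ideal.mem_map_iff_of_surjective (e : S →+* (algebraMap S Ω).range) e.surjective] at hb
        obtain ⟨s, hs, rfl⟩ := hb
        rw [IsLocalRing.mem_maximalIdeal, mem_nonunits_iff] at hs ⊢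
        intro hu
        refine hs ?_
        have h4 := hu.map e.symm
        simpa using h4
    rw [h1, hy, Ideal.map_span, idl]
    congr 1
    ext b
    constructor
    · rintro ⟨_, ⟨i, rfl⟩, rfl⟩
      exact ⟨i, rfl⟩
    · rintro ⟨i, hi⟩
      exact ⟨xS i, ⟨i, rfl⟩, Subtype.ext hi.symm⟩
  have hIP : ∀ s : S, IP (algebraMap S Ω).range (fun i => algebraMap S Ω (xS i)) 1
      (algebraMap S Ω s) ↔ s ∈ IsLocalRing.maximalIdeal S := by
    intro s
    have hs : algebraMap S Ω s ∈ (algebraMap S Ω).range := ⟨s, rfl⟩
    rw [IP.iff_mem hs, pow_one, ← hmax, IsLocalRing.mem_maximalIdeal,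
      IsLocalRing.mem_maximalIdeal, mem_nonunits_iff, mem_nonunits_iff, not_iff_not]
    have h5 : (⟨algebraMap S Ω s, hs⟩ : (algebraMap S Ω).range) = e s := rfl
    rw [h5]
    constructor
    · intro hu
      have h4 := hu.map e.symm
      simpa using h4
    · intro hu
      exact hu.map e
  refine ⟨fun i => algebraMap S Ω (xS i), ?_⟩
  refine base_of_regular (algebraMap k Ω).range (algebraMap S Ω).range ?_ _ ?_ hmax ?_ ?_ ?_ ?_
    ?_ ?_
  · rintro _ ⟨c, rfl⟩
    exact ⟨algebraMap k S c, (IsScalarTower.algebraMap_apply k S Ω c).symm⟩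
  · exact fun i => ⟨xS i, rfl⟩
  · rw [← ringKrullDim_eq_of_ringEquiv e]
    exact hdim.ge
  · rintro _ ⟨s, rfl⟩
    exact hge s
  · intro i h
    exact hxS0 i (hinj (h.trans (map_zero _).symm))
  · intro i
    exact hpos (xS i) (hxSm i) (fun h => hxS0 i (hinj (h.trans (map_zero _).symm)))
  · rintro _ ⟨s, rfl⟩
    obtain ⟨c, hc⟩ := hres s
    refine ⟨algebraMap k Ω c, ⟨c, rfl⟩, ?_⟩
    rw [IsScalarTower.algebraMap_apply k S Ω c, ← map_sub]
    exact (hIP _).2 hc
  · rintro _ ⟨c, rfl⟩ hc
    rw [IsScalarTower.algebraMap_apply k S Ω c, hIP] at hc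
    have hc0 : c = 0 := by
      by_contra hne
      rw [IsLocalRing.mem_maximalIdeal, mem_nonunits_iff] at hc
      exact hc ((IsUnit.mk0 c hne).map (algebraMap k S))
    rw [hc0, map_zero]
    exact IP.zero

end Pool.Agent.LUC
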