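import Pool.Agent.Lib.LU1_h15.Basic

/-!
# LUC (log uniformization over regular local bases, completion principle): definitions and basic facts

Everything happens in a field `Ω` with a real valuation `w`; rings are subrings of `Ω`, fields are
subfields of `Ω`.
* `adj R F` is the ring `R[F]`.
* `lv w B` is the ring of the quotients `a / b`, `a, b ∈ B`, `w b = 0`.
* `IP B z M f`: `f` is in the `M`-th power of the ideal of `B` generated by the `z i`.
* `Par w R z`: the `z i` generate the ideal of the elements of positive value of `R`.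
* `SM w R z J t`: `t` is a Laurent monomial in the `z i` times a unit, see below.
-/

set_option autoImplicit false

namespace Pool.Agent.LUC

open Pool.Agent.H15JM (RVal)
open Pool.Agent.LU1 (VPos val_add_vpos)

universe u

variable {Ω : Type u} [Field Ω]

/-! ### The ring `R[F]` -/

/-- The ring `R[F]`. -/
def adj (R : Subring Ω) (F : Set Ω) : Subring Ω := Subring.closure ((R : Set Ω) ∪ F)

section adj

variable {R R' B : Subring Ω} {F G : Set Ω}

theorem base_le_adj (R : Subring Ω) (F : Set Ω) : R ≤ adj R F := fun _ h =>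
  Subring.subset_closure (Or.inl h)

theorem subset_adj (R : Subring Ω) (F : Set Ω) : F ⊆ (adj R F : Set Ω) := fun _ h =>
  Subring.subset_closure (Or.inr h)

theorem mem_adj {f : Ω} (h : f ∈ F) : f ∈ adj R F := subset_adj R F h

theorem adj_le (h : R ≤ B) (h' : F ⊆ (B : Set Ω)) : adj R F ≤ B := by
  rw [adj, Subring.closure_le]
  rintro f (hf | hf)
  · exact h hf
  · exact h' hf

theorem adj_mono (h : R ≤ R') (h' : F ⊆ G) : adj R F ≤ adj R' G :=
  Subring.closure_mono (Set.union_subset_union h h')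

theorem adj_adj (R : Subring Ω) (F G : Set Ω) : adj (adj R F) G = adj R (F ∪ G) := by
  apply le_antisymm
  · refine adj_le (adj_mono le_rfl Set.subset_union_left) ?_
    exact fun f hf => mem_adj (Or.inr hf)
  · refine adj_le ((base_le_adj R F).trans (base_le_adj _ G)) ?_
    rintro f (hf | hf)
    · exact base_le_adj _ G (mem_adj hf)
    · exact mem_adj hf

theorem adj_eq_of_subset (h : F ⊆ (R : Set Ω)) : adj R F = R :=
  le_antisymm (adj_le le_rfl h) (base_le_adj R F)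

/-- Induction on the elements of `R[F]`. -/
theorem adj_induction {p : Ω → Prop} (hbase : ∀ f ∈ R, p f) (hgen : ∀ f ∈ F, p f)
    (hadd : ∀ f g, p f → p g → p (f + g)) (hmul : ∀ f g, p f → p g → p (f * g)) {f : Ω}
    (hf : f ∈ adj R F) : p f := by
  refine Subring.closure_induction (p := fun f _ => p f) ?_ (hbase 0 R.zero_mem)
    (hbase 1 R.one_mem) (fun f g _ _ => hadd f g) (fun f _ h => ?_) (fun f g _ _ => hmul f g) hf
  · rintro f (h | h)
    · exact hbase f h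
    · exact hgen f h
  · have := hmul _ _ (hbase (-1) (R.neg_mem R.one_mem)) h
    simpa using this

theorem adj_nonneg {w : RVal Ω} (hR : ∀ f ∈ R, w.Ge 0 f) (hF : ∀ f ∈ F, w.Ge 0 f) :
    ∀ f ∈ adj R F, w.Ge 0 f := fun _ hf =>
  adj_induction hR hF (fun _ _ h h' => h.add h') (fun _ _ h h' => by simpa using h.mul h') hf

end adj

/-! ### The ring `lv w B` -/

/-- The ring of the quotients `a / b`, `a, b ∈ B`, `w b = 0`. -/
def lv (w : RVal Ω) (B : Subring Ω) : Subring Ω where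
  carrier := {f | ∃ a ∈ B, ∃ b ∈ B, b ≠ 0 ∧ w b = 0 ∧ f = a / b}
  mul_mem' := by
    rintro f g ⟨a, ha, b, hb, hb0, hvb, rfl⟩ ⟨c, hc, d, hd, hd0, hvd, rfl⟩
    exact ⟨a * c, B.mul_mem ha hc, b * d, B.mul_mem hb hd, mul_ne_zero hb0 hd0,
      by rw [w.map_mul hb0 hd0, hvb, hvd, add_zero], by rw [div_mul_div_comm]⟩
  one_mem' := ⟨1, B.one_mem, 1, B.one_mem, one_ne_zero, w.map_one, by rw [div_one]⟩
  add_mem' := by
    rintro f g ⟨a, ha, b, hb, hb0, hvb, rfl⟩ ⟨c, hc, d, hd, hd0, hvd, rfl⟩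
    exact ⟨a * d + b * c, B.add_mem (B.mul_mem ha hd) (B.mul_mem hb hc), b * d,
      B.mul_mem hb hd, mul_ne_zero hb0 hd0,
      by rw [w.map_mul hb0 hd0, hvb, hvd, add_zero], by rw [div_add_div _ _ hb0 hd0]⟩
  zero_mem' := ⟨0, B.zero_mem, 1, B.one_mem, one_ne_zero, w.map_one, by rw [zero_div]⟩
  neg_mem' := by
    rintro f ⟨a, ha, b, hb, hb0, hvb, rfl⟩
    exact ⟨-a, B.neg_mem ha, b, hb, hb0, hvb, by rw [neg_div]⟩

section lv

variable {w : RVal Ω} {B C : Subring Ω}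

theorem mem_lv {f : Ω} : f ∈ lv w B ↔ ∃ a ∈ B, ∃ b ∈ B, b ≠ 0 ∧ w b = 0 ∧ f = a / b := Iff.rfl

theorem le_lv (w : RVal Ω) (B : Subring Ω) : B ≤ lv w B := fun f hf =>
  ⟨f, hf, 1, B.one_mem, one_ne_zero, w.map_one, by rw [div_one]⟩

theorem lv_mono (h : B ≤ C) : lv w B ≤ lv w C := by
  rintro f ⟨a, ha, b, hb, h1, h2, rfl⟩
  exact ⟨a, h ha, b, h hb, h1, h2, rfl⟩

theorem lv_le (h : B ≤ C) (hC : ∀ f ∈ C, f ≠ 0 → w f = 0 → f⁻¹ ∈ C) : lv w B ≤ C := by
  rintro f ⟨a, ha, b, hb, h1, h2, rfl⟩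
  rw [div_eq_mul_inv]
  exact C.mul_mem (h ha) (hC b (h hb) h1 h2)

theorem lv_inv {f : Ω} (hf : f ∈ lv w B) (h0 : f ≠ 0) (h1 : w f = 0) : f⁻¹ ∈ lv w B := by
  obtain ⟨a, ha, b, hb, hb0, hvb, rfl⟩ := hf
  have ha0 : a ≠ 0 := by rintro rfl; simp at h0
  refine ⟨b, hb, a, ha, ha0, ?_, by rw [inv_div]⟩
  rw [w.map_div ha0 hb0, hvb, sub_zero] at h1
  exact h1

theorem lv_nonneg (hB : ∀ f ∈ B, w.Ge 0 f) : ∀ f ∈ lv w B, w.Ge 0 f := by
  rintro f ⟨a, ha, b, hb, h1, h2, rfl⟩ h0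
  have ha0 : a ≠ 0 := by rintro rfl; simp at h0
  rw [w.map_div ha0 h1, h2, sub_zero]
  exact hB a ha ha0

theorem lv_lv (w : RVal Ω) (B : Subring Ω) : lv w (lv w B) = lv w B :=
  le_antisymm (lv_le le_rfl fun _ => lv_inv) (le_lv w _)

theorem lv_eq_of_le (h : B ≤ C) (h' : C ≤ lv w B) : lv w C = lv w B :=
  le_antisymm (lv_le h' fun _ => lv_inv) (lv_mono h)

theorem lv_adj_lv (w : RVal Ω) (B : Subring Ω) (F : Set Ω) :
    lv w (adj (lv w B) F) = lv w (adj B F) := by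
  refine lv_eq_of_le (adj_mono (le_lv w B) le_rfl) (adj_le (lv_mono (base_le_adj B F)) ?_)
  exact fun f hf => le_lv w _ (mem_adj hf)

end lv

/-! ### Powers of ideals -/

/-- The ideal of `B` generated by the `z i`. -/
def idl (B : Subring Ω) {n : ℕ} (z : Fin n → Ω) : Ideal B :=
  Ideal.span {b : B | ∃ i, (b : Ω) = z i}

/-- `f` is an element of the `M`-th power of the ideal of `B` generated by the `z i`. -/
def IP (B : Subring Ω) {n : ℕ} (z : Fin n → Ω) (M : ℕ) (f : Ω) : Prop :=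
  ∃ g : B, (g : Ω) = f ∧ g ∈ idl B z ^ M

section IP

variable {B B' : Subring Ω} {n : ℕ} {z : Fin n → Ω} {M N : ℕ} {f g : Ω}

theorem IP.mem (h : IP B z M f) : f ∈ B := by
  obtain ⟨g, rfl, -⟩ := h
  exact g.2

theorem IP.iff_mem (h : f ∈ B) : IP B z M f ↔ (⟨f, h⟩ : B) ∈ idl B z ^ M := by
  constructor
  · rintro ⟨g, hg, hg'⟩
    have : (⟨f, h⟩ : B) = g := Subtype.ext hg.symm
    rwa [this]
  · intro h'
    exact ⟨_, rfl, h'⟩

theorem IP.zero : IP B z M 0 := ⟨0, rfl, Ideal.zero_mem _⟩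

theorem IP.add (h : IP B z M f) (h' : IP B z M g) : IP B z M (f + g) := by
  obtain ⟨a, rfl, ha⟩ := h
  obtain ⟨b, rfl, hb⟩ := h'
  exact ⟨a + b, rfl, Ideal.add_mem _ ha hb⟩

theorem IP.neg (h : IP B z M f) : IP B z M (-f) := by
  obtain ⟨a, rfl, ha⟩ := h
  exact ⟨-a, rfl, neg_mem ha⟩

theorem IP.sub (h : IP B z M f) (h' : IP B z M g) : IP B z M (f - g) := by
  rw [sub_eq_add_neg]
  exact h.add h'.neg

theorem IP.sum {ι : Type*} (s : Finset ι) (F : ι → Ω) (h : ∀ i ∈ s, IP B z M (F i)) :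
    IP B z M (∑ i ∈ s, F i) := by
  classical
  induction s using Finset.induction_on with
  | empty => simpa using IP.zero
  | insert a s ha ih =>
    rw [Finset.sum_insert ha]
    exact (h a (Finset.mem_insert_self a s)).add (ih fun i hi => h i (Finset.mem_insert_of_mem hi))

theorem IP.mul (h : IP B z M f) (h' : IP B z N g) : IP B z (M + N) (f * g) := by
  obtain ⟨a, rfl, ha⟩ := h
  obtain ⟨b, rfl, hb⟩ := h'
  exact ⟨a * b, rfl, by rw [pow_add]; exact Ideal.mul_mem_mul ha hb⟩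

theorem IP.mul_left (h : IP B z M f) (hg : g ∈ B) : IP B z M (g * f) := by
  obtain ⟨a, rfl, ha⟩ := h
  exact ⟨⟨g, hg⟩ * a, rfl, Ideal.mul_mem_left _ _ ha⟩

theorem IP.mul_right (h : IP B z M f) (hg : g ∈ B) : IP B z M (f * g) := by
  rw [mul_comm]
  exact h.mul_left hg

theorem IP.anti (hMN : M ≤ N) (h : IP B z N f) : IP B z M f := by
  obtain ⟨a, rfl, ha⟩ := h
  exact ⟨a, rfl, Ideal.pow_le_pow_right hMN ha⟩

theorem IP.zero_iff : IP B z 0 f ↔ f ∈ B := by
  constructor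
  · exact IP.mem
  · exact fun h => ⟨⟨f, h⟩, rfl, by rw [pow_zero, Ideal.one_eq_top]; trivial⟩

theorem IP.gen {i : Fin n} (h : z i ∈ B) : IP B z 1 (z i) :=
  ⟨⟨z i, h⟩, rfl, by rw [pow_one]; exact Ideal.subset_span ⟨i, rfl⟩⟩

theorem IP.prod {ι : Type*} (s : Finset ι) (F : ι → Ω) (h : ∀ i ∈ s, IP B z 1 (F i)) :
    IP B z s.card (∏ i ∈ s, F i) := by
  classical
  induction s using Finset.induction_on with
  | empty => simpa using (IP.zero_iff (z := z)).2 B.one_mem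
  | insert a s ha ih =>
    rw [Finset.prod_insert ha, Finset.card_insert_of_notMem ha, add_comm]
    exact (h a (Finset.mem_insert_self a s)).mul (ih fun i hi => h i (Finset.mem_insert_of_mem hi))

theorem IP.gen_prod (hz : ∀ i, z i ∈ B) (φ : Fin M → Fin n) : IP B z M (∏ i, z (φ i)) := by
  have h := IP.prod (B := B) (z := z) Finset.univ (fun i : Fin M => z (φ i))
    fun i _ => IP.gen (hz _)
  rwa [Finset.card_univ, Fintype.card_fin] at h

/-- Change of the ring and of the ideal. -/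
theorem IP.map (hB : B ≤ B') {n' : ℕ} {z' : Fin n' → Ω} (hz : ∀ i, IP B' z' 1 (z i))
    (h : IP B z M f) : IP B' z' M f := by
  obtain ⟨g, rfl, hg⟩ := h
  refine ⟨⟨g, hB g.2⟩, rfl, ?_⟩
  have h1 : (idl B z).map (Subring.inclusion hB) ≤ idl B' z' := by
    rw [idl, Ideal.map_span, Ideal.span_le]
    rintro _ ⟨b, ⟨i, hi⟩, rfl⟩
    obtain ⟨c, hc, hc'⟩ := hz i
    have : Subring.inclusion hB b = c := Subtype.ext (hi.trans hc.symm)
    rw [this]
    rwa [pow_one] at hc'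
  have h2 : Subring.inclusion hB g ∈ ((idl B z).map (Subring.inclusion hB)) ^ M := by
    rw [← Ideal.map_pow]
    exact Ideal.mem_map_of_mem _ hg
  exact Ideal.pow_right_mono h1 M h2

theorem IP.mono (hB : B ≤ B') (hz : ∀ i, z i ∈ B') (h : IP B z M f) : IP B' z M f :=
  h.map hB fun i => IP.gen (hz i)

theorem IP.one_iff (hz : ∀ i, z i ∈ B) :
    IP B z 1 f ↔ ∃ a : Fin n → Ω, (∀ i, a i ∈ B) ∧ f = ∑ i, a i * z i := by
  constructor
  · rintro ⟨g, rfl, hg⟩
    rw [pow_one, idl] at hg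
    have hs : {b : B | ∃ i, (b : Ω) = z i} = Set.range fun i => (⟨z i, hz i⟩ : B) := by
      ext b
      constructor
      · rintro ⟨i, hi⟩
        exact ⟨i, Subtype.ext hi.symm⟩
      · rintro ⟨i, rfl⟩
        exact ⟨i, rfl⟩
    rw [hs, Ideal.mem_span_range_iff_exists_fun] at hg
    obtain ⟨c, hc⟩ := hg
    refine ⟨fun i => c i, fun i => (c i).2, ?_⟩
    rw [← hc]
    simp
  · rintro ⟨a, ha, rfl⟩
    exact IP.sum _ _ fun i _ => (IP.gen (hz i)).mul_left (ha i)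

theorem IP.sum_iff (hz : ∀ i, z i ∈ B) :
    IP B z M f ↔ ∃ c : (Fin M → Fin n) → Ω, (∀ φ, c φ ∈ B) ∧ f = ∑ φ, c φ * ∏ i, z (φ i) := by
  constructor
  · intro h
    induction M generalizing f with
    | zero =>
      refine ⟨fun _ => f, fun _ => h.mem, ?_⟩
      simp
    | succ M ih =>
      obtain ⟨g, rfl, hg⟩ := h
      rw [pow_succ] at hg
      refine Submodule.mul_induction_on (C := fun x : B => ∃ c : (Fin (M + 1) → Fin n) → Ω,
        (∀ φ, c φ ∈ B) ∧ (x : Ω) = ∑ φ, c φ * ∏ i, z (φ i)) hg ?_ ?_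
      · intro a ha b hb
        obtain ⟨c, hc, hac⟩ := ih ⟨a, rfl, ha⟩
        obtain ⟨d, hd, hbd⟩ := (IP.one_iff hz).1 ⟨b, rfl, by rwa [pow_one]⟩
        refine ⟨fun φ => c (Fin.init φ) * d (φ (Fin.last M)),
          fun φ => B.mul_mem (hc _) (hd _), ?_⟩
        rw [Subring.coe_mul, hac, hbd, Finset.sum_mul_sum, ← Finset.sum_product',
          ← (Fin.snocEquiv fun _ => Fin n).sum_comp]
        rw [Finset.univ_product_univ, ← (Equiv.prodComm _ _).sum_comp]
        refine Finset.sum_congr rfl ?_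
        rintro ⟨i, φ⟩ -
        have e1 : (Fin.snocEquiv fun _ : Fin (M + 1) => Fin n) (i, φ) =
          (Fin.snoc φ i : Fin (M + 1) → Fin n) := rfl
        have e2 : Fin.init (Fin.snoc φ i : Fin (M + 1) → Fin n) = φ := Fin.init_snoc _ _
        simp only [Equiv.prodComm_apply, Prod.swap_prod_mk]
        rw [e1, e2, Fin.prod_univ_castSucc]
        simp only [Fin.snoc_castSucc, Fin.snoc_last]
        ring
      · rintro a b ⟨c, hc, hac⟩ ⟨d, hd, hbd⟩
        refine ⟨fun φ => c φ + d φ, fun φ => B.add_mem (hc φ) (hd φ), ?_⟩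
        rw [Subring.coe_add, hac, hbd, ← Finset.sum_add_distrib]
        exact Finset.sum_congr rfl fun φ _ => by ring
  · rintro ⟨c, hc, rfl⟩
    exact IP.sum _ _ fun φ _ => (IP.gen_prod hz φ).mul_left (hc φ)

theorem IP.ge {w : RVal Ω} (hB : ∀ b ∈ B, w.Ge 0 b) {ε : ℝ} (hz : ∀ i, w.Ge ε (z i))
    (hzB : ∀ i, z i ∈ B) (h : IP B z M f) : w.Ge (M * ε) f := by
  obtain ⟨c, hc, rfl⟩ := (IP.sum_iff hzB).1 h
  refine RVal.Ge.sum _ _ fun φ _ => ?_
  have h1 := RVal.Ge.prod (v := w) (fun _ : Fin M => ε) Finset.univ (fun i => z (φ i))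
    fun i _ => hz _
  rw [Finset.sum_const, Finset.card_univ, Fintype.card_fin, nsmul_eq_mul] at h1
  have h2 := (hB _ (hc φ)).mul h1
  rwa [zero_add] at h2

theorem IP.vpos {w : RVal Ω} (hB : ∀ b ∈ B, w.Ge 0 b) (hz : ∀ i, VPos w (z i))
    (hzB : ∀ i, z i ∈ B) (h : IP B z 1 f) : VPos w f := by
  obtain ⟨a, ha, rfl⟩ := (IP.one_iff hzB).1 h
  classical
  refine Finset.sum_induction _ (VPos w) (fun _ _ h h' => h.add h') VPos.zero fun i _ => ?_
  exact VPos.mul' (hB _ (ha i)) (hz i)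

/-- Approximation: if `B = L + (z) B` then `B = L + (z)^M B`. -/
theorem IP.approx {L : Subring Ω} (hL : L ≤ B) (hz : ∀ i, z i ∈ L)
    (h : ∀ f ∈ B, ∃ f₀ ∈ L, IP B z 1 (f - f₀)) (M : ℕ) :
    ∀ f ∈ B, ∃ f₀ ∈ L, IP B z M (f - f₀) := by
  induction M with
  | zero =>
    intro f hf
    exact ⟨0, L.zero_mem, IP.zero_iff.2 (by simpa using hf)⟩
  | succ M ih =>
    intro f hf
    obtain ⟨f₀, hf₀, hff⟩ := ih f hf
    obtain ⟨c, hc, hcf⟩ := (IP.sum_iff fun i => hL (hz i)).1 hff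
    choose c₀ hc₀ hcc using fun φ => h (c φ) (hc φ)
    refine ⟨f₀ + ∑ φ, c₀ φ * ∏ i, z (φ i), L.add_mem hf₀ (L.sum_mem fun φ _ =>
      L.mul_mem (hc₀ φ) (L.prod_mem fun i _ => hz _)), ?_⟩
    have h1 : f - (f₀ + ∑ φ, c₀ φ * ∏ i, z (φ i)) =
        ∑ φ, (c φ - c₀ φ) * ∏ i, z (φ i) := by
      have h2 : f = f₀ + ∑ φ, c φ * ∏ i, z (φ i) := by rw [← hcf]; ring
      rw [h2]
      simp only [sub_mul, Finset.sum_sub_distrib]
      ring
    rw [h1]
    refine IP.sum _ _ fun φ _ => ?_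
    rw [add_comm]
    exact (hcc φ).mul (IP.gen_prod (fun i => hL (hz i)) φ)

end IP

end Pool.Agent.LUC
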