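import Pool.Agent.Lib.LUC.SDefs
import Pool.Agent.Lib.LUC.E1

/-! # E2: approximation of the equation

Recipe (section 3 of l15_cp_h16.md). `St = adj S (range t)`, `Rt = adj R₀ (range x ∪ range t) ≤ St`. Every `f ∈ St` is
`f₀ + (x) St`, `f₀ ∈ Rt` (`adj_induction`, `Base.dec`, `IP.mono`), so `f_N + (x)^N St` with `f_N ∈ Rt` (`IP.approx`).
`c = w (P'(θ)) ≥ 0`, `ε > 0` with `ε ≤ w (x i)` for all `i`, `N > 0` with `N ε > 2 c`. `PN = ∑ i ∈ P.support, C (f_N i) X^i`, `f_N i`
for `f = P.coeff i`. For a polynomial `G` with coefficients in `(x)^N St` and `w.Ge 0 y`: `w.Ge (N ε) (G.eval y)`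
(`IP.ge`), and the same for the derivative (its coefficients are in `(x)^N St`). So `w.Ge (N ε) (PN.eval θ)`,
`w (PN'(θ)) = c`. `d = P'(θ)`. `f` = the polynomial with coefficients `(taylor θ PN).coeff j * d ^ j / d ^ 2` (that is
`PN(θ + d U) / d^2`; e.g. `C (d^2)⁻¹ * (taylor θ PN).comp (C d * X)`): `f_0 = PN(θ) / d^2`, `f_1 = PN'(θ) / d`,
`f_j`, `j ≥ 2`, has value `≥ 0` (`(taylor θ PN).coeff j` is a polynomial in `θ` over `Rt`); all in `K` (`quo`).
`u₁` by `exists_root`. `θN = θ + d u₁`: `PN(θN) = d^2 f(u₁) = 0`. `PN'(θN) = PN'(θ) + (θN - θ) (..)`, `w (θN - θ) > c`: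
so `w (PN'(θN)) = c` (and it is not 0). `(θ - θN) / PN'(θN) = - u₁ d / PN'(θN)` has the value of `u₁`. -/

set_option autoImplicit false

namespace Pool.Agent.LUC

open Pool.Agent.H15JM (RVal)
open Pool.Agent.LU1 (VPos val_add_vpos)
open Polynomial

universe u

variable {Ω : Type u} [Field Ω] {w : RVal Ω} {R₀ S : Subring Ω} {m e : ℕ} {x : Fin m → Ω}
  {t : Fin e → Ω}

namespace E2

private theorem eval_mem' (A : Subring Ω) (F : Polynomial Ω) (hF : ∀ i, F.coeff i ∈ A) {a : Ω}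
    (ha : a ∈ A) : F.eval a ∈ A := by
  rw [Polynomial.eval_eq_sum_range]
  exact A.sum_mem fun i _ => A.mul_mem (hF i) (A.pow_mem ha i)

private theorem deriv_mem' (A : Subring Ω) (F : Polynomial Ω) (hF : ∀ i, F.coeff i ∈ A) (i : ℕ) :
    F.derivative.coeff i ∈ A := by
  rw [Polynomial.coeff_derivative]
  refine A.mul_mem (hF _) ?_
  have : ((i : Ω) + 1) = ((i + 1 : ℕ) : Ω) := by push_cast; rfl
  rw [this]
  exact natCast_mem A _

private theorem taylor_mem' (A : Subring Ω) (F : Polynomial Ω) (hF : ∀ i, F.coeff i ∈ A) {a : Ω}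
    (ha : a ∈ A) (i : ℕ) : (taylor a F).coeff i ∈ A := by
  rw [Polynomial.taylor_coeff]
  refine eval_mem' A _ (fun j => ?_) ha
  rw [Polynomial.hasseDeriv_coeff]
  exact A.mul_mem (natCast_mem A _) (hF _)

private theorem ip_eval (A : Subring Ω) {n M : ℕ} (z : Fin n → Ω) (F : Polynomial Ω)
    (hF : ∀ i, IP A z M (F.coeff i)) {a : Ω} (ha : a ∈ A) : IP A z M (F.eval a) := by
  rw [Polynomial.eval_eq_sum_range]
  exact IP.sum _ _ fun i _ => (hF i).mul_right (A.pow_mem ha i)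

private theorem ip_deriv (A : Subring Ω) {n M : ℕ} (z : Fin n → Ω) (F : Polynomial Ω)
    (hF : ∀ i, IP A z M (F.coeff i)) (i : ℕ) : IP A z M (F.derivative.coeff i) := by
  rw [Polynomial.coeff_derivative]
  refine (hF _).mul_right ?_
  have : ((i : Ω) + 1) = ((i + 1 : ℕ) : Ω) := by push_cast; rfl
  rw [this]
  exact natCast_mem A _

private theorem pow_sub_ge {γ : ℝ} {a b : Ω} (ha : w.Ge 0 a) (hb : w.Ge 0 b)
    (hab : w.Ge γ (b - a)) (i : ℕ) : w.Ge γ (b ^ i - a ^ i) ∧ w.Ge 0 (a ^ i) := by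
  induction i with
  | zero =>
    refine ⟨?_, ?_⟩
    · rw [pow_zero, pow_zero, sub_self]; exact RVal.Ge.zero
    · rw [pow_zero]; exact fun _ => by rw [w.map_one]
  | succ i ih =>
    refine ⟨?_, ?_⟩
    · have h1 : b ^ (i + 1) - a ^ (i + 1) = b * (b ^ i - a ^ i) + (b - a) * a ^ i := by ring
      rw [h1]
      exact ((hb.mul ih.1).mono (by linarith)).add ((hab.mul ih.2).mono (by linarith))
    · rw [pow_succ]
      exact (ih.2.mul ha).mono (by linarith)

private theorem eval_sub_ge (F : Polynomial Ω) (hF : ∀ i, w.Ge 0 (F.coeff i)) {γ : ℝ} {a b : Ω}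
    (ha : w.Ge 0 a) (hb : w.Ge 0 b) (hab : w.Ge γ (b - a)) :
    w.Ge γ (F.eval b - F.eval a) := by
  rw [Polynomial.eval_eq_sum_range, Polynomial.eval_eq_sum_range, ← Finset.sum_sub_distrib]
  refine RVal.Ge.sum _ _ fun i _ => ?_
  rw [← mul_sub]
  exact ((hF i).mul (pow_sub_ge ha hb hab i).1).mono (by linarith)

private theorem exists_eps {ι : Type*} [Finite ι] (f : ι → ℝ) (hf : ∀ i, 0 < f i) :
    ∃ ε : ℝ, 0 < ε ∧ ∀ i, ε ≤ f i := by
  cases isEmpty_or_nonempty ι with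
  | inl h => exact ⟨1, one_pos, fun i => (h.false i).elim⟩
  | inr h =>
    obtain ⟨i₀, hi₀⟩ := Finite.exists_min f
    exact ⟨f i₀, hf i₀, hi₀⟩

/-- An element close to an element of small value. -/
private theorem val_of_close {a b : Ω} (ha : a ≠ 0) (h : a - b ≠ 0 → w a < w (a - b)) :
    b ≠ 0 ∧ w b = w a := by
  by_cases h0 : a - b = 0
  · rw [sub_eq_zero] at h0
    exact ⟨h0 ▸ ha, by rw [h0]⟩
  · have h1 : w a < w (-(a - b)) := by
      rw [w.map_neg _ h0]
      exact h h0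
    have h2 := w.add_of_lt ha (neg_ne_zero.2 h0) h1
    have h3 : a + -(a - b) = b := by ring
    rw [h3] at h2
    exact h2

end E2

open E2 in
theorem exists_PN [IsAlgClosed Ω] (hB : Base w R₀ S x) (ht : ∀ j, w.Ge 0 (t j)) (K : Subfield Ω)
    (θ : Ω) (hθ : w.Ge 0 θ) (hK : QuoIs (adj S (Set.range t ∪ {θ})) K) (P : Polynomial Ω)
    (hP : ∀ i, P.coeff i ∈ adj S (Set.range t)) (hPθ : P.eval θ = 0)
    (hP' : P.derivative.eval θ ≠ 0) :
    ∃ (N : ℕ) (PN f : Polynomial Ω) (u₁ θN : Ω), PNData w R₀ S x t K θ P N PN f u₁ θN := by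
  classical
  set St : Subring Ω := adj S (Set.range t) with hSt
  set Rt : Subring Ω := adj R₀ (Set.range x ∪ Set.range t) with hRt
  set Sθ : Subring Ω := adj S (Set.range t ∪ {θ}) with hSθ
  have hxRt : ∀ i, x i ∈ Rt := fun i => mem_adj (Or.inl ⟨i, rfl⟩)
  have hRtSt : Rt ≤ St := adj_le (hB.le.trans (base_le_adj _ _)) (by
    rintro _ (⟨i, rfl⟩ | ⟨j, rfl⟩)
    · exact base_le_adj _ _ (hB.mem i)
    · exact mem_adj ⟨j, rfl⟩)
  have hStSθ : St ≤ Sθ := adj_mono le_rfl Set.subset_union_left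
  have hθS : θ ∈ Sθ := mem_adj (Or.inr rfl)
  have hSθge : ∀ a ∈ Sθ, w.Ge 0 a := adj_nonneg hB.ge (by
    rintro _ (⟨j, rfl⟩ | h)
    · exact ht j
    · rw [Set.mem_singleton_iff] at h
      rw [h]
      exact hθ)
  have hSθK : ∀ a ∈ Sθ, a ∈ K := hK.1
  have hxSθ : ∀ i, x i ∈ Sθ := fun i => hStSθ (hRtSt (hxRt i))
  -- approximation of coefficients
  have happ1 : ∀ g ∈ St, ∃ g₀ ∈ Rt, IP St x 1 (g - g₀) := by
    intro g hg
    have key : g ∈ St ∧ ∃ g₀ ∈ Rt, IP St x 1 (g - g₀) := by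
      refine adj_induction (p := fun g => g ∈ St ∧ ∃ g₀ ∈ Rt, IP St x 1 (g - g₀)) ?_ ?_ ?_ ?_ hg
      · intro s hs
        obtain ⟨r, hr, hsr⟩ := hB.dec s hs
        exact ⟨base_le_adj _ _ hs, r, base_le_adj _ _ hr,
          hsr.mono (base_le_adj _ _) fun i => hRtSt (hxRt i)⟩
      · rintro _ ⟨j, rfl⟩
        exact ⟨mem_adj ⟨j, rfl⟩, t j, mem_adj (Or.inr ⟨j, rfl⟩), by
          rw [sub_self]; exact IP.zero⟩
      · rintro a b ⟨ha, a₀, ha₀, haa⟩ ⟨hb, b₀, hb₀, hbb⟩
        exact ⟨add_mem ha hb, a₀ + b₀, add_mem ha₀ hb₀, by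
          rw [add_sub_add_comm]; exact haa.add hbb⟩
      · rintro a b ⟨ha, a₀, ha₀, haa⟩ ⟨hb, b₀, hb₀, hbb⟩
        refine ⟨mul_mem ha hb, a₀ * b₀, mul_mem ha₀ hb₀, ?_⟩
        have h1 : a * b - a₀ * b₀ = (a - a₀) * b + a₀ * (b - b₀) := by ring
        rw [h1]
        exact (haa.mul_right hb).add (hbb.mul_left (hRtSt ha₀))
    exact key.2
  -- the derivative
  set d : Ω := P.derivative.eval θ with hd
  have hPSθ : ∀ i, P.coeff i ∈ Sθ := fun i => hStSθ (hP i)
  have hdS : d ∈ Sθ := eval_mem' Sθ _ (deriv_mem' Sθ P hPSθ) hθS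
  have hc0 : 0 ≤ w d := hSθge d hdS hP'
  obtain ⟨ε, hε, hεx⟩ := exists_eps (fun i => w (x i)) hB.pos
  obtain ⟨n₀, hn₀⟩ := exists_nat_gt (2 * w d / ε)
  set N : ℕ := n₀ + 1 with hN
  have hNε : 2 * w d < N * ε := by
    rw [div_lt_iff₀ hε] at hn₀
    rw [hN]
    push_cast
    nlinarith
  have hNpos : 0 < N := Nat.succ_pos _
  choose g hg hgg using fun i => IP.approx hRtSt hxRt happ1 N (P.coeff i) (hP i)
  set PN : Polynomial Ω := ∑ i ∈ Finset.range (P.natDegree + 1), C (g i) * X ^ i with hPN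
  have hPNc : ∀ i, PN.coeff i = if i ∈ Finset.range (P.natDegree + 1) then g i else 0 := by
    intro i
    rw [hPN, Polynomial.finsetSum_coeff]
    simp only [Polynomial.coeff_C_mul_X_pow]
    rw [Finset.sum_ite_eq]
  have hPNmem : ∀ i, PN.coeff i ∈ Rt := by
    intro i
    rw [hPNc]
    split_ifs
    · exact hg i
    · exact Rt.zero_mem
  have hdiff : ∀ i, IP St x N ((P - PN).coeff i) := by
    intro i
    rw [Polynomial.coeff_sub, hPNc]
    split_ifs with h1
    · exact hgg i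
    · have h2 : P.natDegree < i := by
        rw [Finset.mem_range] at h1
        omega
      rw [Polynomial.coeff_eq_zero_of_natDegree_lt h2, sub_zero]
      exact IP.zero
  set D : Polynomial Ω := P - PN with hD
  have hDS : ∀ i, IP Sθ x N (D.coeff i) := fun i => (hdiff i).mono hStSθ hxSθ
  have hxge : ∀ i, w.Ge ε (x i) := fun i _ => hεx i
  have hDe : w.Ge (N * ε) (D.eval θ) :=
    IP.ge hSθge hxge hxSθ (ip_eval Sθ x D hDS hθS)
  have hDe' : w.Ge (N * ε) (D.derivative.eval θ) :=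
    IP.ge hSθge hxge hxSθ (ip_eval Sθ x _ (ip_deriv Sθ x D hDS) hθS)
  have hPNθ : PN.eval θ = -D.eval θ := by
    rw [hD, Polynomial.eval_sub, hPθ]; ring
  have hPN'θ : d - PN.derivative.eval θ = D.derivative.eval θ := by
    rw [hD, Polynomial.derivative_sub, Polynomial.eval_sub]
  have hd1 : PN.derivative.eval θ ≠ 0 ∧ w (PN.derivative.eval θ) = w d := by
    refine val_of_close hP' fun h0 => ?_
    rw [hPN'θ] at h0 ⊢
    have h1 := hDe' h0
    linarith
  -- the polynomial `f`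
  have hPNSθ : ∀ i, PN.coeff i ∈ Sθ := fun i => hStSθ (hRtSt (hPNmem i))
  let f : Polynomial Ω := C ((d ^ 2)⁻¹) * (taylor θ PN).comp (C d * X)
  have hfc : ∀ j, f.coeff j = (d ^ 2)⁻¹ * ((taylor θ PN).coeff j * d ^ j) := by
    intro j
    change (C ((d ^ 2)⁻¹) * (taylor θ PN).comp (C d * X)).coeff j = _
    rw [Polynomial.coeff_C_mul, Polynomial.comp_C_mul_X_coeff]
  have hTS : ∀ j, (taylor θ PN).coeff j ∈ Sθ := fun j => taylor_mem' Sθ PN hPNSθ hθS j
  have hf0 : f.coeff 0 = PN.eval θ / d ^ 2 := by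
    rw [hfc, Polynomial.taylor_coeff_zero, pow_zero, mul_one, div_eq_inv_mul]
  have hf1 : f.coeff 1 = PN.derivative.eval θ / d := by
    rw [hfc, Polynomial.taylor_coeff_one, pow_one]
    field_simp
  have hf2 : ∀ j, f.coeff (j + 2) = (taylor θ PN).coeff (j + 2) * d ^ j := by
    intro j
    rw [hfc, pow_add]
    field_simp
  have hfK : ∀ j, f.coeff j ∈ K := by
    intro j
    rw [hfc]
    exact K.mul_mem (K.inv_mem (K.pow_mem (hSθK _ hdS) 2))
      (K.mul_mem (hSθK _ (hTS j)) (K.pow_mem (hSθK _ hdS) j))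
  have hf0v : VPos w (f.coeff 0) := by
    intro h0
    rw [hf0] at h0 ⊢
    have h1 : PN.eval θ ≠ 0 := by
      rintro h1
      rw [h1, zero_div] at h0
      exact h0 rfl
    rw [w.map_div h1 (pow_ne_zero 2 hP'), w.map_pow hP']
    have h2 : w.Ge (N * ε) (PN.eval θ) := by
      rw [hPNθ]
      exact hDe.neg
    have h3 := h2 h1
    push_cast
    linarith
  have hf1v : f.coeff 1 ≠ 0 ∧ w (f.coeff 1) = 0 := by
    rw [hf1]
    refine ⟨div_ne_zero hd1.1 hP', ?_⟩
    rw [w.map_div hd1.1 hP', hd1.2, sub_self]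
  have hfge : ∀ j, w.Ge 0 (f.coeff j) := by
    intro j
    match j with
    | 0 => exact hf0v.ge
    | 1 => exact fun _ => hf1v.2.ge
    | j + 2 =>
      rw [hf2]
      exact hSθge _ (Sθ.mul_mem (hTS _) (Sθ.pow_mem hdS j))
  obtain ⟨u₁, hu₁, hu₁v⟩ := exists_root f hfge hf0v hf1v.1 hf1v.2
  set θN : Ω := θ + d * u₁ with hθN
  have hroot : PN.eval θN = 0 := by
    have h1 : f.eval u₁ = (d ^ 2)⁻¹ * PN.eval (d * u₁ + θ) := by
      change (C ((d ^ 2)⁻¹) * (taylor θ PN).comp (C d * X)).eval u₁ = _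
      rw [Polynomial.eval_mul, Polynomial.eval_comp, Polynomial.eval_mul, Polynomial.eval_C,
        Polynomial.eval_C, Polynomial.eval_X, Polynomial.taylor_eval]
    rw [h1] at hu₁
    rcases mul_eq_zero.1 hu₁ with h2 | h2
    · exact absurd h2 (inv_ne_zero (pow_ne_zero 2 hP'))
    · rw [hθN, add_comm]
      exact h2
  have hdge : w.Ge 0 d := hSθge d hdS
  have hθNge : w.Ge 0 θN := hθ.add (by
    have := hdge.mul hu₁v.ge
    rwa [add_zero] at this)
  -- the derivative at `θN`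
  have hdN : PN.derivative.eval θN ≠ 0 ∧
      w (PN.derivative.eval θN) = w (PN.derivative.eval θ) := by
    by_cases hu0 : u₁ = 0
    · have : θN = θ := by rw [hθN, hu0, mul_zero, add_zero]
      rw [this]
      exact ⟨hd1.1, rfl⟩
    · refine val_of_close hd1.1 fun h0 => ?_
      have h1 : w.Ge (w d + w u₁) (θN - θ) := by
        rw [hθN, add_sub_cancel_left]
        intro _
        rw [w.map_mul hP' hu0]
      have h2 := eval_sub_ge PN.derivative
        (fun i => hSθge _ (deriv_mem' Sθ PN hPNSθ i)) hθ hθNge h1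
      have h3 : PN.derivative.eval θ - PN.derivative.eval θN =
          -(PN.derivative.eval θN - PN.derivative.eval θ) := by ring
      rw [h3] at h0 ⊢
      have h4 := h2.neg h0
      rw [hd1.2]
      have h5 := hu₁v hu0
      linarith
  have hwdN : w (PN.derivative.eval θN) = w d := hdN.2.trans hd1.2
  refine ⟨N, PN, f, u₁, θN, ?_⟩
  exact
    { base := hB
      t_ge := ht
      θ_ge := hθ
      quo := hK
      P_mem := hP
      P_root := hPθ
      P_der := hP'
      N_pos := hNpos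
      PN_mem := hPNmem
      diff := hdiff
      f_mem := hfK
      f_ge := hfge
      f0 := hf0v
      f1_ne := hf1v.1
      f1 := hf1v.2
      u₁_root := hu₁
      u₁_pos := hu₁v
      θN_eq := rfl
      θN_ge := hθNge
      root := hroot
      d_ne := hdN.1
      big := by
        intro φ
        rw [hwdN, w.map_prod _ _ fun i _ => hB.ne _]
        have h1 : (N : ℝ) * ε ≤ ∑ i, w (x (φ i)) := by
          have h2 : ∑ _i : Fin N, ε ≤ ∑ i, w (x (φ i)) := Finset.sum_le_sum fun i _ => hεx _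
          rwa [Finset.sum_const, Finset.card_univ, Fintype.card_fin, nsmul_eq_mul] at h2
        linarith
      u_pos := by
        intro h0
        have h1 : (θ - θN) ≠ 0 := by
          rintro h1
          rw [h1, zero_div] at h0
          exact h0 rfl
        have h2 : θ - θN = -(d * u₁) := by rw [hθN]; ring
        have h3 : u₁ ≠ 0 := by
          rintro h3
          rw [h2, h3, mul_zero, neg_zero] at h1
          exact h1 rfl
        rw [w.map_div h1 hdN.1, h2, w.map_neg _ (mul_ne_zero hP' h3), w.map_mul hP' h3, hwdN]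
        have h4 := hu₁v h3
        linarith }

end Pool.Agent.LUC
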