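import Pool.Agent.Lib.LUC.SDefs
import Pool.Agent.Lib.LUC.E1

/-! # E4: `K'` is in the closure of `K₀`

Recipe (3.2 of l15_cp_h16.md). `S ⊆ Cl w K₀`: by `IP.approx` (`L = adj R₀ (range x)`, `Base.dec`) `s = s₀ + (x)^M S` with `s₀ ∈ K₀`, and
`w.Ge (M ε) (s - s₀)` (`IP.ge`), `ε > 0` with `ε ≤ w (x i)`. `B ⊆ K₀`. So the coefficients of `H` are in `clF w K₀` and
`u ∈ Cl w K₀` (`root_mem_cl`). `K'` is the field of fractions of `adj S (B ∪ {u})`. -/

set_option autoImplicit false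

namespace Pool.Agent.LUC

open Pool.Agent.H15JM (RVal)
open Pool.Agent.LU1 (VPos)
open Polynomial

universe u

variable {Ω : Type u} [Field Ω] {w : RVal Ω} {R₀ S : Subring Ω} {m e q : ℕ} {x : Fin m → Ω}
  {t : Fin e → Ω} {K₀ K' : Subfield Ω} {B : Finset Ω} {α : Fin q → Ω} {u : Ω} {H : Polynomial Ω}

private theorem exists_eps {m : ℕ} (x : Fin m → Ω) (h : ∀ i, 0 < w (x i)) :
    ∃ ε : ℝ, 0 < ε ∧ ∀ i, ε ≤ w (x i) := by
  classical
  rcases isEmpty_or_nonempty (Fin m) with hm | hm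
  · exact ⟨1, one_pos, fun i => hm.elim i⟩
  · obtain ⟨i, -, hi⟩ := Finset.exists_min_image (Finset.univ : Finset (Fin m)) (fun i => w (x i))
      Finset.univ_nonempty
    exact ⟨w (x i), h i, fun j => hi j (Finset.mem_univ j)⟩

theorem Setup.cl (h : Setup w R₀ S x t K₀ K' B α u H) : ∀ f ∈ K', f ∈ Cl w K₀ := by
  have hb := h.base
  obtain ⟨ε, hε, hxε⟩ := exists_eps x hb.pos
  have hL : adj R₀ (Set.range x) ≤ S := adj_le hb.le (by rintro _ ⟨i, rfl⟩; exact hb.mem i)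
  have hxL : ∀ i, x i ∈ adj R₀ (Set.range x) := fun i => mem_adj ⟨i, rfl⟩
  have hLB : adj R₀ (Set.range x) ≤ adj R₀ (B : Set Ω) :=
    adj_mono le_rfl (by rintro _ ⟨i, rfl⟩; exact h.x_mem i)
  have hS : ∀ s ∈ S, s ∈ Cl w K₀ := by
    intro s hs c
    obtain ⟨M, hM⟩ := exists_nat_ge (c / ε)
    obtain ⟨s₀, hs₀, hss⟩ := IP.approx hL hxL (fun f hf => by
      obtain ⟨r, hr, hr'⟩ := hb.dec f hf
      exact ⟨r, base_le_adj R₀ _ hr, hr'⟩) M s hs
    refine ⟨s₀, h.quo₀.1 _ (hLB hs₀), ?_⟩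
    have h1 : w.Ge (M * ε) (s - s₀) := hss.ge hb.ge (fun i _ => hxε i) hb.mem
    refine h1.mono ?_
    rwa [div_le_iff₀ hε] at hM
  have hB : ∀ f ∈ adj S (B : Set Ω), f ∈ clF w K₀ := fun f hf =>
    adj_induction (p := fun f => f ∈ clF w K₀) hS
      (fun b hb' => Cl.subset (h.quo₀.1 b (mem_adj hb')))
      (fun _ _ => Cl.add) (fun _ _ => Cl.mul) hf
  have hu : u ∈ Cl w K₀ := root_mem_cl K₀ H
    (fun i => adj_nonneg hb.ge h.ge _ (h.coeff i)) (fun i => hB _ (h.coeff i)) h.H1_ne h.H1 h.root h.u_pos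
  have hBu : ∀ f ∈ adj S ((B : Set Ω) ∪ {u}), f ∈ clF w K₀ := fun f hf =>
    adj_induction (p := fun f => f ∈ clF w K₀) hS
      (fun b hb' => by
        rcases hb' with hb' | hb'
        · exact Cl.subset (h.quo₀.1 b (mem_adj hb'))
        · rw [Set.mem_singleton_iff] at hb'
          rw [hb']
          exact hu)
      (fun _ _ => Cl.add) (fun _ _ => Cl.mul) hf
  intro f hf
  obtain ⟨a, ha, b, hb', -, rfl⟩ := h.quo.2 f hf
  exact (clF w K₀).div_mem (hBu a ha) (hBu b hb')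

end Pool.Agent.LUC
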