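import Pool.Agent.Lib.LUC.Mods

/-!
# LUC: `lv w (adj S F)` is a noetherian local ring
-/

set_option autoImplicit false

namespace Pool.Agent.LUC

open Pool.Agent.H15JM (RVal)
open Pool.Agent.LU1 (VPos)

universe u

variable {Ω : Type u} [Field Ω] {w : RVal Ω}

/-- `S[F]` is noetherian for a finite set `F`. -/
theorem adj_isNoetherian (S : Subring Ω) [IsNoetherianRing S] (F : Finset Ω) :
    IsNoetherianRing (adj S (F : Set Ω)) := by
  have h1 : (Algebra.adjoin S (F : Set Ω)).toSubring = adj S (F : Set Ω) := by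
    rw [Algebra.adjoin_eq_ring_closure, adj]
    congr 2
    ext f
    constructor
    · rintro ⟨s, rfl⟩
      exact s.2
    · intro hf
      exact ⟨⟨f, hf⟩, rfl⟩
  have h2 : Algebra.FiniteType S (Algebra.adjoin S (F : Set Ω)) :=
    (Subalgebra.fg_iff_finiteType _).1 ⟨F, rfl⟩
  have h3 : IsNoetherianRing (Algebra.adjoin S (F : Set Ω)) :=
    Algebra.FiniteType.isNoetherianRing S _
  have h4 : IsNoetherianRing (Algebra.adjoin S (F : Set Ω)).toSubring := h3
  rwa [h1] at h4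

/-- `lv w B` is noetherian if `B` is. -/
theorem lv_isNoetherian (B : Subring Ω) [hB : IsNoetherianRing B] : IsNoetherianRing (lv w B) := by
  let M : Submonoid B :=
    { carrier := {s | (s : Ω) ≠ 0 ∧ w (s : Ω) = 0}
      mul_mem' := by
        rintro a b ⟨ha, ha'⟩ ⟨hb, hb'⟩
        exact ⟨by rw [Subring.coe_mul]; exact mul_ne_zero ha hb, by
          rw [Subring.coe_mul, w.map_mul ha hb, ha', hb', add_zero]⟩
      one_mem' := ⟨by simp, by simpa using w.map_one⟩ }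
  let _ : Algebra B (lv w B) := (Subring.inclusion (le_lv w B)).toAlgebra
  have hmap : ∀ s : B, ((algebraMap B (lv w B) s : lv w B) : Ω) = s := fun _ => rfl
  have hloc : IsLocalization M (lv w B) := by
    refine ⟨?_, ?_, ?_⟩
    · rintro ⟨s, hs, hs'⟩
      refine IsUnit.of_mul_eq_one ⟨(s : Ω)⁻¹, lv_inv (le_lv w B s.2) hs hs'⟩ ?_
      apply Subtype.ext
      rw [Subring.coe_mul, hmap]
      exact mul_inv_cancel₀ hs
    · rintro ⟨f, a, ha, b, hb, hb0, hvb, rfl⟩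
      refine ⟨(⟨a, ha⟩, ⟨⟨b, hb⟩, hb0, hvb⟩), ?_⟩
      apply Subtype.ext
      rw [Subring.coe_mul, hmap, hmap]
      exact div_mul_cancel₀ a hb0
    · intro a b hab
      have : a = b := Subtype.ext (congrArg (fun z : lv w B => (z : Ω)) hab)
      exact ⟨1, by rw [this]⟩
  exact IsLocalization.isNoetherianRing M (lv w B) hB

theorem lv_isUnit {B : Subring Ω} (z : lv w B) (h0 : (z : Ω) ≠ 0) (h1 : w (z : Ω) = 0) :
    IsUnit z :=
  IsUnit.of_mul_eq_one ⟨(z : Ω)⁻¹, lv_inv z.2 h0 h1⟩ (Subtype.ext (mul_inv_cancel₀ h0))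

theorem lv_not_isUnit {B : Subring Ω} (hB : ∀ f ∈ B, w.Ge 0 f) (z : lv w B) (hz : VPos w (z : Ω)) :
    ¬ IsUnit z := by
  intro hu
  obtain ⟨y, hy⟩ := hu.exists_right_inv
  have h1 : (z : Ω) * (y : Ω) = 1 := congrArg (fun t : lv w B => (t : Ω)) hy
  have hz0 : (z : Ω) ≠ 0 := left_ne_zero_of_mul (by rw [h1]; exact one_ne_zero)
  have hy0 : (y : Ω) ≠ 0 := right_ne_zero_of_mul (a := (z : Ω)) (by rw [h1]; exact one_ne_zero)
  have h2 := w.map_mul hz0 hy0
  rw [h1, w.map_one] at h2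
  have h3 := lv_nonneg hB (y : Ω) y.2 hy0
  have h4 := hz hz0
  linarith

theorem lv_vpos_of_not_isUnit {B : Subring Ω} (hB : ∀ f ∈ B, w.Ge 0 f) (z : lv w B)
    (hz : ¬ IsUnit z) : VPos w (z : Ω) := by
  intro h0
  refine lt_of_le_of_ne (lv_nonneg hB (z : Ω) z.2 h0) fun h1 => hz (lv_isUnit z h0 h1.symm)

/-- `lv w B` is a local ring. -/
theorem lv_isLocalRing {B : Subring Ω} (hB : ∀ f ∈ B, w.Ge 0 f) : IsLocalRing (lv w B) := by
  refine IsLocalRing.of_nonunits_add fun a b ha hb => ?_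
  exact lv_not_isUnit hB _ (VPos.add (lv_vpos_of_not_isUnit hB a ha)
    (lv_vpos_of_not_isUnit hB b hb))

theorem mem_max_iff {B : Subring Ω} (hB : ∀ f ∈ B, w.Ge 0 f) [IsLocalRing (lv w B)] (z : lv w B) :
    z ∈ IsLocalRing.maximalIdeal (lv w B) ↔ VPos w (z : Ω) := by
  rw [IsLocalRing.mem_maximalIdeal, mem_nonunits_iff]
  exact ⟨lv_vpos_of_not_isUnit hB z, lv_not_isUnit hB z⟩

/-- The maximal ideal is generated by the parameters. -/
theorem Par.max_eq {B : Subring Ω} (hB : ∀ f ∈ B, w.Ge 0 f) [IsLocalRing (lv w B)] {n : ℕ}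
    {z : Fin n → Ω} (hz : Par w (lv w B) z) :
    IsLocalRing.maximalIdeal (lv w B) = idl (lv w B) z := by
  apply le_antisymm
  · intro f hf
    obtain ⟨g, hg, hg'⟩ := hz.gen f f.2 ((mem_max_iff hB f).1 hf)
    rw [pow_one] at hg'
    rwa [← Subtype.ext hg]
  · rw [idl, Ideal.span_le]
    rintro b ⟨i, hi⟩
    exact (mem_max_iff hB b).2 (by rw [hi]; exact fun _ => hz.pos i)

end Pool.Agent.LUC
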