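import Pool.Agent.Lib.LUC.ClDefs
import Pool.Agent.Lib.LUC.Loc

/-! # The set-up of section 3 -/

set_option autoImplicit false

namespace Pool.Agent.LUC

open Pool.Agent.H15JM (RVal)
open Pool.Agent.LU1 (VPos)
open Polynomial

universe u

variable {Ω : Type u} [Field Ω]

/-- The set-up: `K₀` is the field of fractions of `R₀[B]`, `K'` the one of `S[B, u]`; `u` is a root of positive value of the
polynomial `H` over `S[B]`, `H₀` is in the ideal generated by the elements `α i ∈ B` of positive value. -/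
structure Setup (w : RVal Ω) (R₀ S : Subring Ω) {m e q : ℕ} (x : Fin m → Ω) (t : Fin e → Ω)
    (K₀ K' : Subfield Ω) (B : Finset Ω) (α : Fin q → Ω) (u : Ω) (H : Polynomial Ω) : Prop where
  base : Base w R₀ S x
  ge : ∀ b ∈ B, w.Ge 0 b
  x_mem : ∀ i, x i ∈ B
  t_mem : ∀ j, t j ∈ B
  quo₀ : QuoIs (adj R₀ (B : Set Ω)) K₀
  alg : ∀ b ∈ B, ∃ Q : Polynomial Ω, Q ≠ 0 ∧
    (∀ i, Q.coeff i ∈ adj R₀ (Set.range x ∪ Set.range t)) ∧ Q.eval b = 0
  α_mem : ∀ i, α i ∈ B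
  α_ne : ∀ i, α i ≠ 0
  α_pos : ∀ i, 0 < w (α i)
  α_x : ∀ i, ∃ j, α j = x i
  u_pos : VPos w u
  root : H.eval u = 0
  coeff : ∀ i, H.coeff i ∈ adj S (B : Set Ω)
  H0 : IP (adj S (B : Set Ω)) α 1 (H.coeff 0)
  H1_ne : H.coeff 1 ≠ 0
  H1 : w (H.coeff 1) = 0
  quo : QuoIs (adj S ((B : Set Ω) ∪ {u})) K'

/-- Approximation of the equation `P(θ) = 0` by an equation `PN` over `R₀[x, t]`, with root `θN = θ + P'(θ) u₁`; `u₁` is
the root of positive value of the polynomial `f` over `K`. -/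
structure PNData (w : RVal Ω) (R₀ S : Subring Ω) {m e : ℕ} (x : Fin m → Ω) (t : Fin e → Ω)
    (K : Subfield Ω) (θ : Ω) (P : Polynomial Ω) (N : ℕ) (PN f : Polynomial Ω) (u₁ θN : Ω) :
    Prop where
  base : Base w R₀ S x
  t_ge : ∀ j, w.Ge 0 (t j)
  θ_ge : w.Ge 0 θ
  quo : QuoIs (adj S (Set.range t ∪ {θ})) K
  P_mem : ∀ i, P.coeff i ∈ adj S (Set.range t)
  P_root : P.eval θ = 0
  P_der : P.derivative.eval θ ≠ 0
  N_pos : 0 < N
  PN_mem : ∀ i, PN.coeff i ∈ adj R₀ (Set.range x ∪ Set.range t)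
  diff : ∀ i, IP (adj S (Set.range t)) x N ((P - PN).coeff i)
  f_mem : ∀ i, f.coeff i ∈ K
  f_ge : ∀ i, w.Ge 0 (f.coeff i)
  f0 : VPos w (f.coeff 0)
  f1_ne : f.coeff 1 ≠ 0
  f1 : w (f.coeff 1) = 0
  u₁_root : f.eval u₁ = 0
  u₁_pos : VPos w u₁
  θN_eq : θN = θ + P.derivative.eval θ * u₁
  θN_ge : w.Ge 0 θN
  root : PN.eval θN = 0
  d_ne : PN.derivative.eval θN ≠ 0
  big : ∀ φ : Fin N → Fin m, 2 * w (PN.derivative.eval θN) < w (∏ i, x (φ i))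
  u_pos : VPos w ((θ - θN) / PN.derivative.eval θN)

end Pool.Agent.LUC
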